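import Mathlib

/-!
# The Fubini–Study density and null sets of polynomials (EH cell, MP_9eee85_co)
-/

open Topology Filter MeasureTheory Set
open scoped ENNReal

namespace EHX

/-- `π⁻¹ (1+|w|²)⁻²`. -/
noncomputable def rho1 (w : ℂ) : ℝ := Real.pi⁻¹ * ((1 + ‖w‖ ^ 2) ^ 2)⁻¹

theorem rho1_nonneg (w : ℂ) : 0 ≤ rho1 w := by unfold rho1; positivity

theorem rho1_pos (w : ℂ) : 0 < rho1 w := by unfold rho1; positivity

theorem continuous_rho1 : Continuous rho1 := by
  unfold rho1
  exact continuous_const.mul ((by fun_prop : Continuous fun w : ℂ => (1 + ‖w‖ ^ 2) ^ 2).inv₀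
    fun w => by positivity)

theorem integral_radial : ∫ r in Ioi (0:ℝ), r * ((1 + r ^ 2) ^ 2)⁻¹ = 1 / 2 := by
  have h := integral_Ioi_of_hasDerivAt_of_nonneg' (a := 0)
    (g := fun r : ℝ => -(1 / 2) * (1 + r ^ 2)⁻¹) (g' := fun r : ℝ => r * ((1 + r ^ 2) ^ 2)⁻¹)
    (l := 0) ?_ ?_ ?_
  · rw [h]; norm_num
  · intro x _
    have h1 : HasDerivAt (fun r : ℝ => 1 + r ^ 2) (2 * x) x := by
      simpa using (hasDerivAt_pow 2 x).const_add 1
    have h2 := (h1.inv (by positivity)).const_mul (-(1 / 2) : ℝ)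
    refine h2.congr_deriv ?_
    field_simp
  · intro x hx
    have : (0:ℝ) < x := hx
    positivity
  · have h1 : Tendsto (fun r : ℝ => 1 + r ^ 2) atTop atTop :=
      tendsto_atTop_add_const_left _ _ (tendsto_pow_atTop two_ne_zero)
    simpa using h1.inv_tendsto_atTop.const_mul (-(1 / 2) : ℝ)

theorem integral_rho1 : ∫ w, rho1 w = 1 := by
  rw [← Complex.integral_comp_polarCoord_symm]
  have h1 : ∀ p ∈ polarCoord.target, p.1 • rho1 (Complex.polarCoord.symm p) =
      (p.1 * ((1 + p.1 ^ 2) ^ 2)⁻¹) * Real.pi⁻¹ := by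
    intro p _
    rw [rho1, Complex.norm_polarCoord_symm, sq_abs, smul_eq_mul]; ring
  rw [setIntegral_congr_fun polarCoord.open_target.measurableSet h1, polarCoord_target]
  have h2 := setIntegral_prod_mul (μ := (volume : Measure ℝ)) (ν := (volume : Measure ℝ))
    (fun r : ℝ => r * ((1 + r ^ 2) ^ 2)⁻¹) (fun _ : ℝ => Real.pi⁻¹) (Ioi 0) (Ioo (-Real.pi) Real.pi)
  rw [Measure.volume_eq_prod]
  rw [h2, integral_radial]
  simp only [integral_const, MeasurableSet.univ, measureReal_restrict_apply, univ_inter, smul_eq_mul]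
  rw [Real.volume_real_Ioo_of_le (by linarith [Real.pi_pos])]
  field_simp
  ring

theorem integrable_rho1 : Integrable rho1 := by
  apply Integrable.of_integral_ne_zero
  rw [integral_rho1]; exact one_ne_zero

/-- The product density. -/
noncomputable def rho {n : ℕ} (w : Fin n → ℂ) : ℝ := ∏ i, rho1 (w i)

theorem rho_nonneg {n : ℕ} (w : Fin n → ℂ) : 0 ≤ rho w :=
  Finset.prod_nonneg fun _ _ => rho1_nonneg _

theorem rho_pos {n : ℕ} (w : Fin n → ℂ) : 0 < rho w :=
  Finset.prod_pos fun _ _ => rho1_pos _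

theorem continuous_rho {n : ℕ} : Continuous (rho (n := n)) :=
  continuous_finsetProd _ fun i _ => continuous_rho1.comp (continuous_apply i)

theorem integral_rho (n : ℕ) : ∫ w : Fin n → ℂ, rho w = 1 := by
  have := integral_fintype_prod_volume_eq_prod (𝕜 := ℝ) (ι := Fin n) (fun _ : Fin n => rho1)
  unfold rho
  rw [this]
  simp [integral_rho1]

theorem integrable_rho (n : ℕ) : Integrable (fun w : Fin n → ℂ => rho w) := by
  apply Integrable.of_integral_ne_zero
  rw [integral_rho]; exact one_ne_zero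

theorem lintegral_rho (n : ℕ) : ∫⁻ w : Fin n → ℂ, ENNReal.ofReal (rho w) = 1 := by
  rw [← ofReal_integral_eq_lintegral_ofReal (integrable_rho n)
    (Eventually.of_forall fun w => rho_nonneg w), integral_rho, ENNReal.ofReal_one]

/-- The zero set of a non-zero polynomial is a null set. -/
theorem volume_zeros {n : ℕ} {q : MvPolynomial (Fin n) ℂ} (hq : q ≠ 0) :
    volume {w : Fin n → ℂ | MvPolynomial.eval w q = 0} = 0 := by
  induction n with
  | zero =>
    obtain ⟨c, rfl⟩ := MvPolynomial.C_surjective (Fin 0) q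
    have hc : c ≠ 0 := fun h => hq (by rw [h, map_zero])
    have : {w : Fin 0 → ℂ | MvPolynomial.eval w (MvPolynomial.C c) = 0} = ∅ := by
      ext w; simp [hc]
    rw [this, measure_empty]
  | succ n ih =>
    set Q := MvPolynomial.finSuccEquiv ℂ n q with hQ
    have hQ0 : Q ≠ 0 := by
      rw [hQ]; exact (map_ne_zero_iff _ (MvPolynomial.finSuccEquiv ℂ n).injective).mpr hq
    have hmp := (volume_preserving_piFinSuccAbove (fun _ : Fin (n + 1) => ℂ) 0).symm
    have hms : MeasurableSet {w : Fin (n+1) → ℂ | MvPolynomial.eval w q = 0} :=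
      (isClosed_eq (MvPolynomial.continuous_eval q) continuous_const).measurableSet
    have hms' := hmp.measurable hms
    rw [← hmp.measure_preimage hms.nullMeasurableSet, Measure.volume_eq_prod]
    refine Measure.measure_prod_null_of_ae_null hms' ?_
    have hfin : {t : ℂ | Q.eval (MvPolynomial.C t) = 0}.Finite := by
      have h1 : {t : ℂ | Q.eval (MvPolynomial.C t) = 0} =
          (fun t : ℂ => (MvPolynomial.C t : MvPolynomial (Fin n) ℂ)) ⁻¹' {r | Q.IsRoot r} := rfl
      rw [h1]
      exact (Polynomial.finite_setOfPred_isRoot hQ0).preimage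
        (MvPolynomial.C_injective (Fin n) ℂ).injOn
    have hae : ∀ᵐ t : ℂ, t ∉ {t : ℂ | Q.eval (MvPolynomial.C t) = 0} :=
      measure_eq_zero_iff_ae_notMem.mp (hfin.measure_zero _)
    filter_upwards [hae] with t ht
    have h2 := ih (q := Q.eval (MvPolynomial.C t)) ht
    rw [Pi.zero_apply, ← h2]
    congr 1
    ext z
    have h3 : (MeasurableEquiv.piFinSuccAbove (fun _ : Fin (n + 1) => ℂ) 0).symm (t, z) =
        Fin.cons t z := by
      simp [MeasurableEquiv.piFinSuccAbove, Fin.insertNthEquiv]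
    simp only [mem_preimage, mem_ofPred_eq, h3]
    rw [MvPolynomial.eval_eq_eval_mv_eval', ← hQ]
    have h4 : Polynomial.eval t (Q.map (MvPolynomial.eval z)) =
        MvPolynomial.eval z (Q.eval (MvPolynomial.C t)) := by
      rw [Polynomial.eval_map]
      conv_rhs => rw [Polynomial.eval, Polynomial.hom_eval₂]
      simp
    rw [h4]

end EHX
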