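import Mathlib

/-!
Degrees as numbers of points of fibres, algebraic part.

`fib_abs`: let `A` be a finitely generated algebra over an integrally closed domain `R` whose
fraction field `F` is finite of characteristic zero over the fraction field of `R`. Outside of
`g = 0` the fibres of `A` over the points of `R` have exactly `[F : Frac R]` points, all of them
unramified.
-/

namespace EH

open Polynomial

set_option linter.unusedSectionVars false

section abs

variable {R F : Type} (K : Type) [CommRing R] [IsDomain R] [IsIntegrallyClosed R] [Field K]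
  [Algebra R K] [IsFractionRing R K] [Field F] [CharZero F] [Algebra K F] [Algebra R F]
  [IsScalarTower R K F] [FiniteDimensional K F]

include K

theorem isAlg (w : F) : IsAlgebraic R w := by
  rw [IsFractionRing.isAlgebraic_iff R K F]
  exact Algebra.IsAlgebraic.isAlgebraic w

theorem inj_RF : Function.Injective (algebraMap R F) := by
  rw [IsScalarTower.algebraMap_eq R K F]
  exact (algebraMap K F).injective.comp (IsFractionRing.injective R K)

/-- every element is a quotient with denominator in `R` -/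
theorem exists_smul_mem (A : Subalgebra R F)
    (hq : ∀ w : F, ∃ a ∈ A, ∃ b ∈ A, b ≠ 0 ∧ w * b = a) (w : F) :
    ∃ r : R, r ≠ 0 ∧ r • w ∈ A := by
  obtain ⟨a, ha, b, hb, hb0, h⟩ := hq w
  have h1 : IsAlgebraic R b := isAlg K b
  have h2 : IsAlgebraic R (⟨b, hb⟩ : A) := by
    have : Function.Injective (A.val) := Subtype.val_injective
    exact (isAlgebraic_algHom_iff A.val this).1 h1
  obtain ⟨r, hr, c, hc⟩ := h2.exists_nonzero_dvd (mem_nonZeroDivisors_of_ne_zero (by
    intro h3
    exact hb0 (congrArg Subtype.val h3)))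
  refine ⟨r, hr, ?_⟩
  have hc' : algebraMap R F r = b * c := congrArg Subtype.val hc
  rw [Algebra.smul_def, hc', show b * (c : F) * w = w * b * c by ring, h]
  exact A.mul_mem ha c.2

/-- a primitive element in `A` which is integral over `R` -/
theorem exists_prim (A : Subalgebra R F)
    (hq : ∀ w : F, ∃ a ∈ A, ∃ b ∈ A, b ≠ 0 ∧ w * b = a) :
    ∃ θ : F, θ ∈ A ∧ IsIntegral R θ ∧ IntermediateField.adjoin K {θ} = ⊤ := by
  have : CharZero K := (algebraMap K F).charZero_iff (algebraMap K F).injective |>.2 ‹_›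
  obtain ⟨θ₀, h0⟩ := Field.exists_primitive_element K F
  obtain ⟨r, hr, h1⟩ := exists_smul_mem K A hq θ₀
  obtain ⟨c, hc, h3⟩ := (isAlg K (R := R) (r • θ₀)).exists_integral_multiple
  refine ⟨c • r • θ₀, A.smul_mem h1 c, h3, ?_⟩
  rw [eq_top_iff, ← h0, IntermediateField.adjoin_simple_le_iff]
  have h4 : algebraMap R K (c * r) ≠ 0 := by
    rw [Ne, IsFractionRing.to_map_eq_zero_iff]
    exact mul_ne_zero hc hr
  have h5 : θ₀ = (algebraMap R K (c * r))⁻¹ • (c • r • θ₀) := by
    rw [smul_smul, ← algebraMap_smul K (c * r) θ₀, smul_smul, inv_mul_cancel₀ h4, one_smul]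
  have h6 : (algebraMap R K (c * r))⁻¹ • (c • r • θ₀) ∈
      IntermediateField.adjoin K {c • r • θ₀} :=
    IntermediateField.smul_mem _ (IntermediateField.mem_adjoin_simple_self K _)
  rwa [← h5] at h6

/-- all elements of `F` have a multiple in `R[θ]` -/
theorem exists_smul_mem_adjoin {θ : F}
    (ht : IntermediateField.adjoin K {θ} = ⊤) (w : F) :
    ∃ r : R, r ≠ 0 ∧ r • w ∈ Algebra.adjoin R {θ} := by
  have h1 : w ∈ Algebra.adjoin K {θ} := by
    have h2 := IntermediateField.adjoin_simple_toSubalgebra_of_isAlgebraic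
      (Algebra.IsAlgebraic.isAlgebraic (R := K) θ)
    rw [← h2, ht]
    trivial
  obtain ⟨p, rfl⟩ := Algebra.adjoin_mem_exists_aeval K θ h1
  obtain ⟨b, hb0, hb⟩ := IsLocalization.integerNormalization_spec (nonZeroDivisors R) p
  refine ⟨b, nonZeroDivisors.ne_zero hb0, ?_⟩
  have h3 : b • aeval θ p = aeval θ (IsLocalization.integerNormalization
      (nonZeroDivisors R) p) := by
    rw [← aeval_map_algebraMap K θ (IsLocalization.integerNormalization (nonZeroDivisors R) p), hb,
      ← algebraMap_smul K b p, ← algebraMap_smul K b (aeval θ p), map_smul]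
  rw [h3, Algebra.adjoin_singleton_eq_range_aeval]
  exact ⟨_, rfl⟩

/-- the minimal polynomial is separable outside of a divisor -/
theorem exists_sep {θ : F} (hθ : IsIntegral R θ) :
    ∃ r : R, r ≠ 0 ∧ ∃ a b : R[X], a * minpoly R θ + b * derivative (minpoly R θ) = C r := by
  have : CharZero K := (algebraMap K F).charZero_iff (algebraMap K F).injective |>.2 ‹_›
  have h1 : (minpoly K θ).Separable := (minpoly.irreducible (Algebra.IsIntegral.isIntegral θ)).separable
  rw [minpoly.isIntegrallyClosed_eq_field_fractions' K hθ] at h1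
  obtain ⟨a, b, hab⟩ := h1
  obtain ⟨ra, hra0, hra⟩ := IsLocalization.integerNormalization_spec (nonZeroDivisors R) a
  obtain ⟨rb, hrb0, hrb⟩ := IsLocalization.integerNormalization_spec (nonZeroDivisors R) b
  refine ⟨ra * rb, mul_ne_zero (nonZeroDivisors.ne_zero hra0) (nonZeroDivisors.ne_zero hrb0),
    C rb * IsLocalization.integerNormalization (nonZeroDivisors R) a,
    C ra * IsLocalization.integerNormalization (nonZeroDivisors R) b, ?_⟩
  apply Polynomial.map_injective (algebraMap R K) (IsFractionRing.injective R K)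
  rw [← algebraMap_smul K ra a, smul_eq_C_mul] at hra
  rw [← algebraMap_smul K rb b, smul_eq_C_mul] at hrb
  simp only [Polynomial.map_add, Polynomial.map_mul, map_C, hra, hrb, map_mul]
  rw [Polynomial.derivative_map] at hab
  linear_combination (C (algebraMap R K ra) * C (algebraMap R K rb)) * hab

/-- a finitely generated algebra lies in `R[θ][1/g]` -/
theorem exists_pow {θ : F} (ht : IntermediateField.adjoin K {θ} = ⊤)
    (A : Subalgebra R F) (hA : A.FG) :
    ∃ g : R, g ≠ 0 ∧ ∀ g' : R, g ∣ g' → ∀ a ∈ A, ∃ j : ℕ, g' ^ j • a ∈ Algebra.adjoin R {θ} := by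
  classical
  obtain ⟨s, rfl⟩ := hA
  choose d hd0 hd using fun w : F => exists_smul_mem_adjoin K (R := R) ht w
  refine ⟨∏ w ∈ s, d w, Finset.prod_ne_zero_iff.2 fun w _ => hd0 w, fun g hg a ha => ?_⟩
  have key : ∀ w ∈ s, g • w ∈ Algebra.adjoin R {θ} := by
    intro w hw
    obtain ⟨c, hc⟩ := (Finset.dvd_prod_of_mem d hw).trans hg
    rw [hc, mul_comm, mul_smul]
    exact Subalgebra.smul_mem _ (hd w) c
  induction ha using Algebra.adjoin_induction with
  | mem x hx => exact ⟨1, by rw [pow_one]; exact key x hx⟩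
  | algebraMap r => exact ⟨0, by rw [pow_zero, one_smul]; exact Subalgebra.algebraMap_mem _ r⟩
  | add x y _ _ hx hy =>
    obtain ⟨i, hi⟩ := hx
    obtain ⟨j, hj⟩ := hy
    refine ⟨i + j, ?_⟩
    rw [smul_add]
    refine Subalgebra.add_mem _ ?_ ?_
    · rw [pow_add, mul_comm, mul_smul]
      exact Subalgebra.smul_mem _ hi _
    · rw [pow_add, mul_smul]
      exact Subalgebra.smul_mem _ hj _
  | mul x y _ _ hx hy =>
    obtain ⟨i, hi⟩ := hx
    obtain ⟨j, hj⟩ := hy
    refine ⟨i + j, ?_⟩
    rw [pow_add, ← smul_mul_smul_comm]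
    exact Subalgebra.mul_mem _ hi hj

/-- the degree of the minimal polynomial -/
theorem natDegree_prim {θ : F} (hθ : IsIntegral R θ)
    (ht : IntermediateField.adjoin K {θ} = ⊤) :
    (minpoly R θ).natDegree = Module.finrank K F := by
  have h1 : (minpoly K θ).natDegree = Module.finrank K F :=
    (Field.primitive_element_iff_minpoly_natDegree_eq K θ).1 ht
  rw [← h1, minpoly.isIntegrallyClosed_eq_field_fractions' K hθ,
    (minpoly.monic hθ).natDegree_map]

end abs

section hom

variable {R F : Type} [CommRing R] [IsDomain R] [IsIntegrallyClosed R] [Field F] [Algebra R F]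
  [Module.IsTorsionFree R F]

/-- extension of a homomorphism to fractions with denominator a power of `g` -/
theorem exists_ext (S A : Subalgebra R F) (hSA : S ≤ A) (g : R)
    (hg : ∀ a ∈ A, ∃ j : ℕ, g ^ j • a ∈ S) {k : Type} [Field k] [Algebra R k]
    (hgk : algebraMap R k g ≠ 0) (ψ : S →ₐ[R] k) :
    ∃ x : A →ₐ[R] k, ∀ s : S, x ⟨s.1, hSA s.2⟩ = ψ s := by
  choose j hj using fun a : A => hg a.1 a.2
  have key : ∀ (a : A) (i : ℕ) (h : g ^ i • a.1 ∈ S),
      (algebraMap R k g ^ i)⁻¹ * ψ ⟨_, h⟩ = (algebraMap R k g ^ (j a))⁻¹ * ψ ⟨_, hj a⟩ := by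
    intro a i h
    have e1 : g ^ (j a) • (⟨_, h⟩ : S) = g ^ i • (⟨_, hj a⟩ : S) := by
      apply Subtype.ext
      show g ^ (j a) • (g ^ i • a.1) = g ^ i • (g ^ (j a) • a.1)
      rw [smul_comm]
    have e2 : algebraMap R k g ^ j a * ψ ⟨_, h⟩ = algebraMap R k g ^ i * ψ ⟨_, hj a⟩ := by
      have e3 : g ^ (j a) • ψ ⟨_, h⟩ = g ^ i • ψ ⟨_, hj a⟩ := by
        rw [← map_smul, ← map_smul, e1]
      have e4 := Algebra.smul_def (g ^ (j a)) (ψ ⟨_, h⟩)
      have e5 := Algebra.smul_def (g ^ i) (ψ ⟨_, hj a⟩)
      rw [e3] at e4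
      rw [map_pow] at e4 e5
      exact e4.symm.trans e5
    have p1 : algebraMap R k g ^ i ≠ 0 := pow_ne_zero _ hgk
    have p2 : algebraMap R k g ^ j a ≠ 0 := pow_ne_zero _ hgk
    rw [inv_mul_eq_iff_eq_mul₀ p1, ← mul_assoc, mul_comm (algebraMap R k g ^ i), mul_assoc,
      eq_inv_mul_iff_mul_eq₀ p2]
    exact e2
  have hmem : ∀ (a : A) (n : ℕ), j a ≤ n → g ^ n • a.1 ∈ S := by
    intro a n hn
    obtain ⟨m, rfl⟩ := Nat.exists_eq_add_of_le hn
    rw [pow_add, mul_comm, mul_smul]
    exact S.smul_mem (hj a) _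
  refine ⟨
    { toFun := fun a => (algebraMap R k g ^ (j a))⁻¹ * ψ ⟨_, hj a⟩
      map_one' := ?_
      map_mul' := ?_
      map_zero' := ?_
      map_add' := ?_
      commutes' := ?_ }, ?_⟩
  · rw [← key 1 0 (by rw [pow_zero, one_smul]; exact S.one_mem)]
    have : (⟨g ^ 0 • (1 : A).1, by rw [pow_zero, one_smul]; exact S.one_mem⟩ : S) = 1 := by
      apply Subtype.ext
      show g ^ 0 • (1 : F) = 1
      rw [pow_zero, one_smul]
    rw [this, map_one]
    simp
  · intro a b
    have h : g ^ (j a + j b) • (a * b).1 ∈ S := by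
      rw [pow_add]
      show (g ^ j a * g ^ j b) • (a.1 * b.1) ∈ S
      rw [← smul_mul_smul_comm]
      exact S.mul_mem (hj a) (hj b)
    rw [← key (a * b) _ h]
    have : (⟨_, h⟩ : S) = ⟨_, hj a⟩ * ⟨_, hj b⟩ := by
      apply Subtype.ext
      show g ^ (j a + j b) • (a.1 * b.1) = (g ^ j a • a.1) * (g ^ j b • b.1)
      rw [pow_add, smul_mul_smul_comm]
    rw [this, map_mul, pow_add, mul_inv]
    ring
  · rw [← key 0 0 (by rw [pow_zero, one_smul]; exact S.zero_mem)]
    have : (⟨g ^ 0 • (0 : A).1, by rw [pow_zero, one_smul]; exact S.zero_mem⟩ : S) = 0 := by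
      apply Subtype.ext
      show g ^ 0 • (0 : F) = 0
      rw [pow_zero, one_smul]
    rw [this, map_zero, mul_zero]
  · intro a b
    have ha := hmem a (j a + j b) (Nat.le_add_right _ _)
    have hb := hmem b (j a + j b) (Nat.le_add_left _ _)
    have h : g ^ (j a + j b) • (a + b).1 ∈ S := by
      show g ^ (j a + j b) • (a.1 + b.1) ∈ S
      rw [smul_add]
      exact S.add_mem ha hb
    rw [← key (a + b) _ h, ← key a _ ha, ← key b _ hb, ← mul_add, ← map_add]
    congr 2
    apply Subtype.ext
    show g ^ (j a + j b) • (a.1 + b.1) = g ^ (j a + j b) • a.1 + g ^ (j a + j b) • b.1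
    rw [smul_add]
  · intro c
    have h : g ^ 0 • (algebraMap R A c).1 ∈ S := by
      rw [pow_zero, one_smul]
      exact S.algebraMap_mem c
    show (algebraMap R k g ^ (j (algebraMap R A c)))⁻¹ * ψ ⟨_, hj (algebraMap R A c)⟩ = _
    rw [← key (algebraMap R A c) 0 h]
    have : (⟨_, h⟩ : S) = algebraMap R S c := by
      apply Subtype.ext
      show g ^ 0 • (algebraMap R F c) = algebraMap R F c
      rw [pow_zero, one_smul]
    rw [this, AlgHom.commutes]
    simp
  · intro s
    have h : g ^ 0 • s.1 ∈ S := by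
      rw [pow_zero, one_smul]
      exact s.2
    show (algebraMap R k g ^ (j ⟨s.1, hSA s.2⟩))⁻¹ * ψ ⟨_, hj ⟨s.1, hSA s.2⟩⟩ = _
    rw [← key ⟨s.1, hSA s.2⟩ 0 h]
    have : (⟨_, h⟩ : S) = s := by
      apply Subtype.ext
      show g ^ 0 • s.1 = s.1
      rw [pow_zero, one_smul]
    rw [this]
    simp

end hom

section hom2

variable {R A k : Type} [CommRing R] [CommRing A] [Algebra R A] [Field k] [Algebra R k]

/-- derivations at a point and polynomials -/
theorem der_aeval (x : A →ₐ[R] k) (D : A →+ k) (hD : ∀ a b, D (a * b) = x a * D b + x b * D a)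
    (h0 : ∀ r, D (algebraMap R A r) = 0) (u : A) (p : R[X]) :
    D (aeval u p) = aeval (x u) (derivative p) * D u := by
  have hpow : ∀ n : ℕ, D (u ^ (n + 1)) = (n + 1) * x u ^ n * D u := by
    intro n
    induction n with
    | zero => simp
    | succ n ih =>
      rw [pow_succ, hD, ih, map_pow]
      push_cast
      ring
  induction p using Polynomial.induction_on' with
  | add p q hp hq => rw [map_add, map_add, hp, hq, derivative_add, map_add, add_mul]
  | monomial n c =>
    rw [aeval_monomial, hD, h0, mul_zero, add_zero, derivative_monomial, aeval_monomial,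
      AlgHom.commutes]
    rcases n with _ | n
    · have : D (u ^ 0) = 0 := by
        rw [pow_zero, ← map_one (algebraMap R A)]
        exact h0 1
      rw [this]
      simp
    · rw [hpow, map_mul, Nat.add_sub_cancel]
      push_cast
      ring

end hom2

section abs2

variable {R F : Type} (K : Type) [CommRing R] [IsDomain R] [IsIntegrallyClosed R] [Field K]
  [Algebra R K] [IsFractionRing R K] [Field F] [CharZero F] [Algebra K F] [Algebra R F]
  [IsScalarTower R K F] [FiniteDimensional K F]

include K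

/-- **The number of points of the fibres.** -/
theorem fib_abs (A : Subalgebra R F) (hq : ∀ w : F, ∃ a ∈ A, ∃ b ∈ A, b ≠ 0 ∧ w * b = a)
    (hA : A.FG) :
    ∃ g : R, g ≠ 0 ∧ ∀ (k : Type) [Field k] [IsAlgClosed k] [Algebra R k], algebraMap R k g ≠ 0 →
      Nat.card (A →ₐ[R] k) = Module.finrank K F ∧
      ∀ (x : A →ₐ[R] k) (D : A →+ k), (∀ a b, D (a * b) = x a * D b + x b * D a) →
        (∀ r, D (algebraMap R A r) = 0) → D = 0 := by
  obtain ⟨θ, hθA, hθ, ht⟩ := exists_prim K A hq
  obtain ⟨g, hg0, hg⟩ := exists_pow K ht A hA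
  obtain ⟨r, hr0, a, b, hab⟩ := exists_sep K hθ
  refine ⟨g * r, mul_ne_zero hg0 hr0, ?_⟩
  intro k _ _ _ hk
  have hgk : algebraMap R k g ≠ 0 := by
    rw [map_mul] at hk
    exact left_ne_zero_of_mul hk
  have hrk : algebraMap R k r ≠ 0 := by
    rw [map_mul] at hk
    exact right_ne_zero_of_mul hk
  have : Module.IsTorsionFree R F := by
    rw [Module.isTorsionFree_iff_algebraMap_injective]
    exact inj_RF K
  have hgA : ∀ a ∈ A, ∃ j : ℕ, g ^ j • a ∈ Algebra.adjoin R {θ} := hg g dvd_rfl
  have hSA : Algebra.adjoin R {θ} ≤ A := Algebra.adjoin_le (by simpa using hθA)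
  set θA : A := ⟨θ, hθA⟩ with hθA'
  -- the root
  have hroot : ∀ x : A →ₐ[R] k, aeval (x θA) (minpoly R θ) = 0 := by
    intro x
    have h1 : aeval θA (minpoly R θ) = 0 := by
      apply Subtype.ext
      have h2 := minpoly.aeval R θ
      rw [show θ = A.val θA from rfl, aeval_algHom_apply] at h2
      exact h2
    rw [aeval_algHom_apply, h1, map_zero]
  -- multiples in `S`
  have hmul : ∀ u : A, ∃ (j : ℕ) (p : R[X]), g ^ j • u = aeval θA p := by
    intro u
    obtain ⟨j, hj⟩ := hgA u.1 u.2
    rw [Algebra.adjoin_singleton_eq_range_aeval] at hj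
    obtain ⟨p, hp⟩ := hj
    refine ⟨j, p, ?_⟩
    apply Subtype.ext
    have h2 : A.val (aeval θA p) = aeval (A.val θA) p := (aeval_algHom_apply A.val θA p).symm
    show g ^ j • u.1 = A.val (aeval θA p)
    rw [h2]
    exact hp.symm
  have hsep : ((minpoly R θ).map (algebraMap R k)).Separable := by
    have h1 := congrArg (Polynomial.map (algebraMap R k)) hab
    rw [Polynomial.map_add, Polynomial.map_mul, Polynomial.map_mul, map_C] at h1
    rw [Polynomial.separable_def]
    refine ⟨C (algebraMap R k r)⁻¹ * a.map (algebraMap R k),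
      C (algebraMap R k r)⁻¹ * b.map (algebraMap R k), ?_⟩
    rw [Polynomial.derivative_map]
    have h2 : C (algebraMap R k r)⁻¹ * C (algebraMap R k r) = 1 := by
      rw [← C_mul, inv_mul_cancel₀ hrk, C_1]
    linear_combination C (algebraMap R k r)⁻¹ * h1 + h2
  constructor
  · have hbij : Function.Bijective (fun x : A →ₐ[R] k =>
        (⟨x θA, by
          rw [Polynomial.mem_rootSet_of_ne ((minpoly.monic hθ).map _).ne_zero,
            Polynomial.aeval_map_algebraMap]
          exact hroot x⟩ : ((minpoly R θ).map (algebraMap R k)).rootSet k)) := by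
      constructor
      · intro x y hxy
        have hxy' : x θA = y θA := congrArg Subtype.val hxy
        apply AlgHom.ext
        intro u
        obtain ⟨j, p, hp⟩ := hmul u
        have h1 : g ^ j • x u = g ^ j • y u := by
          rw [← map_smul, ← map_smul, hp, ← aeval_algHom_apply, ← aeval_algHom_apply, hxy']
        rw [Algebra.smul_def, Algebra.smul_def, map_pow] at h1
        exact mul_left_cancel₀ (pow_ne_zero j hgk) h1
      · rintro ⟨c, hc⟩
        rw [Polynomial.mem_rootSet_of_ne ((minpoly.monic hθ).map _).ne_zero,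
          Polynomial.aeval_map_algebraMap] at hc
        set pb := Algebra.adjoin.powerBasis' hθ with hpb
        have hgen : pb.gen = ⟨θ, Algebra.self_mem_adjoin_singleton R θ⟩ :=
          Algebra.adjoin.powerBasis'_gen hθ
        have hm : minpoly R pb.gen = minpoly R θ := by
          have := minpoly.algHom_eq (Algebra.adjoin R {θ}).val Subtype.val_injective pb.gen
          rw [← this, hgen]
          rfl
        set ψ : Algebra.adjoin R {θ} →ₐ[R] k := pb.lift c (by rw [hm]; exact hc) with hψ
        obtain ⟨x, hx⟩ := exists_ext (Algebra.adjoin R {θ}) A hSA g hgA hgk ψ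
        refine ⟨x, ?_⟩
        apply Subtype.ext
        show x θA = c
        have h1 := hx ⟨θ, Algebra.self_mem_adjoin_singleton R θ⟩
        have h2 : ψ pb.gen = c := pb.lift_gen c _
        rw [hgen] at h2
        rw [← h2]
        exact h1
    rw [Nat.card_eq_of_bijective _ hbij, Nat.card_eq_fintype_card,
      Polynomial.card_rootSet_eq_natDegree hsep (IsAlgClosed.splits _),
      (minpoly.monic hθ).natDegree_map, natDegree_prim K hθ ht]
  · intro x D hD h0
    have hc := hroot x
    have h1 : D θA = 0 := by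
      have h2 := der_aeval x D hD h0 θA (minpoly R θ)
      have h3 : aeval θA (minpoly R θ) = 0 := by
        apply Subtype.ext
        have h2 := minpoly.aeval R θ
        rw [show θ = A.val θA from rfl, aeval_algHom_apply] at h2
        exact h2
      rw [h3, map_zero] at h2
      have h4 := congrArg (aeval (x θA)) hab
      rw [map_add, map_mul, map_mul, hc, mul_zero, zero_add, aeval_C] at h4
      rcases mul_eq_zero.1 h2.symm with h5 | h5
      · rw [h5, mul_zero] at h4
        exact absurd h4.symm hrk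
      · exact h5
    ext u
    obtain ⟨j, p, hp⟩ := hmul u
    have h2 := der_aeval x D hD h0 θA p
    rw [h1, mul_zero, ← hp, Algebra.smul_def, hD, h0, mul_zero, add_zero, AlgHom.commutes,
      map_pow] at h2
    exact (mul_eq_zero.1 h2).resolve_left (pow_ne_zero j hgk)

end abs2

end EH
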