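import Pool.Agent.Work.MP_9eee85_co.EH.QKPDefs

/-!
The exact (limit) Kaehler package of the example. Indices: `0` is the class `H`, `1, …, 5` the
letters `a, b, c, d, e` and `6` the auxiliary class, all of whose numbers vanish.
-/

namespace EH

open Module

/-- how often the class `s` occurs -/
def cnt (t : Fin 5 → Fin 7) (s : Fin 7) : ℕ := ((List.ofFn t).filter (fun i => i = s)).length

/-- the intersection numbers of the example -/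
def numZ (t : Fin 5 → Fin 7) : ℤ :=
  if 0 < cnt t 6 ∨ 1 < cnt t 1 ∨ 1 < cnt t 2 ∨ 1 < cnt t 3 ∨ 1 < cnt t 4 ∨ 1 < cnt t 5 then 0 else
    match cnt t 0 with
    | 0 => 1
    | 1 => 1
    | 2 => 2
    | 3 => if (cnt t 1 = 1 ∧ cnt t 2 = 1) ∨ (cnt t 3 = 1 ∧ cnt t 4 = 1) then 0 else 6
    | _ => 0

/-- the weights `L = H + (a + b + c + d + e) / 20`, plus the auxiliary class -/
noncomputable def wE : Fin 7 → ℝ := ![1, 1 / 20, 1 / 20, 1 / 20, 1 / 20, 1 / 20, 1]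

/-- `Φ = a b - c d + (x H + y e) (a + b - c - d)`, `x = -5/31`, `y = -352/4557` -/
noncomputable def cE : Fin 7 → Fin 7 → ℝ := fun i j =>
  (![![0, -5 / 31, -5 / 31, 5 / 31, 5 / 31, 0, 0],
     ![0, 0, 1, 0, 0, 0, 0],
     ![0, 0, 0, 0, 0, 0, 0],
     ![0, 0, 0, 0, -1, 0, 0],
     ![0, 0, 0, 0, 0, 0, 0],
     ![0, -352 / 4557, -352 / 4557, 352 / 4557, 352 / 4557, 0, 0],
     ![0, 0, 0, 0, 0, 0, 0]] : Fin 7 → Fin 7 → ℝ) i j

/-- the exact Kaehler package of the example, with the class `u` of Hodge-Riemann in degree four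
for `Φ` -/
structure Lim where
  V : Type
  [acg : AddCommGroup V]
  [mod : Module ℝ V]
  θ : Fin 7 → V
  u : V
  ν : ℝ
  T : Fin 7 → Fin 7 → Fin 7 → V →ₗ[ℝ] V →ₗ[ℝ] ℝ
  swap12 : ∀ i j k, T i j k = T j i k
  swap23 : ∀ i j k, T i j k = T i k j
  symm : ∀ i j k D D', T i j k D D' = T i j k D' D
  exch : ∀ i j k l D, T i j k (θ l) D = T i j l (θ k) D
  sq : ∀ i j : Fin 7, i ≠ 0 → i ≠ 6 → T i i j = 0
  num : ∀ t : Fin 5 → Fin 7, T (t 0) (t 1) (t 2) (θ (t 3)) (θ (t 4)) = numZ t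
  hr1 : ∀ w : Fin 7 → ℝ, (∀ i, 0 < w i) → ∀ D : V,
    mix T w w w (comb θ w) (comb θ w) * mix T w w w D D ≤ (mix T w w w (comb θ w) D) ^ 2
  hr2a : ∑ k, ∑ l, ∑ i, ∑ j, (wE k * wE l * cE i j) * T k l i (θ j) u = -ν ^ 2
  hr2b : -ν ^ 2 ≤ ∑ m, ∑ i, ∑ j, ∑ k, ∑ l, (wE m * cE i j * cE k l) * T m i j (θ k) (θ l)

attribute [instance] Lim.acg Lim.mod

/-- ALG2 -/
def LimContra : Prop := Lim → False

/-- the type of five indices of the family `a, b, c, d, e, u_1, …, u_M` -/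
def typ {M : ℕ} : Fin 5 ⊕ Fin M → Fin 7
  | Sum.inl i => ⟨i.1 + 1, by omega⟩
  | Sum.inr _ => 0

/-- ALG1: approximate packages with numbers near those of the example give an exact one -/
def LimExists : Prop :=
  ∀ C : ℝ,
    (∀ (M : ℕ) (η : ℝ), 0 < M → 0 < η → ∃ (deg : (Fin 5 → Fin 5 ⊕ Fin M) → ℝ) (κ : ℝ), 0 < κ ∧
      Nonempty (QKP (Fin 5 ⊕ Fin M) deg C) ∧
      (∀ t, ¬ Function.Injective t → deg t = 0) ∧
      ∀ t, Function.Injective t → |κ * deg t - numZ (fun i => typ (t i))| ≤ η) →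
    Nonempty Lim

/-- a check of the table of numbers -/
example : numZ ![0, 0, 0, 1, 3] = 6 ∧ numZ ![0, 0, 0, 1, 2] = 0 ∧ numZ ![0, 1, 2, 3, 4] = 1 ∧
    numZ ![0, 0, 1, 2, 3] = 2 ∧ numZ ![1, 2, 3, 4, 5] = 1 ∧ numZ ![0, 0, 0, 0, 1] = 0 ∧
    numZ ![0, 0, 0, 3, 4] = 0 ∧ numZ ![0, 0, 0, 5, 4] = 6 ∧ numZ ![1, 1, 0, 5, 4] = 0 := by
  decide

end EH
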