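import Pool.Agent.Work.EurHuh.VolSat
import Pool.Agent.Work.EurHuh.Transport
import Pool.Agent.Work.EurHuh.Face
import Pool.Agent.Work.MP_9eee85_co.EH.AlgDefs

/-!
Data extraction: the statements of the modules (as propositions).
-/

namespace EH

open Module Submodule MvPolynomial EurHuh Filter Topology

universe u v

/-- evaluation at a constant `τ`, as a `K`-linear map -/
noncomputable def evl (K : Type*) {F : Type*} [Field K] [Field F] [Algebra K F] (τ : K) :
    Polynomial F →ₗ[K] F :=
  ((Polynomial.aeval (algebraMap K F τ) : Polynomial F →ₐ[F] F).restrictScalars K).toLinearMap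

/-- DX1, specialisation: `W` is a finite dimensional `K`-subspace of `F[X]` -/
def Specialise (K : Type u) (F : Type v) [Field K] [Field F] [Algebra K F] : Prop :=
  ∀ (W : Submodule K (Polynomial F)), W.FG → ∀ R q0 : ℕ,
    (∀ q, q0 ≤ q → (q + 1) * R ≤
      finrank K ((span K {(1 : Polynomial F), Polynomial.X}) ^ q * W : Submodule K (Polynomial F))) →
    {τ : K | finrank K (W.map (evl K τ)) < R}.Finite

/-- DX4b, the degree lemma: the coefficient of `w_(T 0) ⋯ w_(T (n-1))` -/
def DegCoeff (K : Type u) (F : Type v) [Field K] [Field F] [Algebra K F] : Prop :=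
  ∀ {κ : Type} [Fintype κ] (A : κ → Submodule K F), Adm K A → ∀ {n : ℕ},
    rk K (⋃ i, (A i : Set F)) = n → ∀ {P : MvPolynomial κ ℝ}, IsVol K n A P →
    FiniteDimensional (IntermediateField.adjoin K (⋃ i, (A i : Set F))) F →
    ∀ (t : Fin n → κ), Function.Injective t → ∀ (x : Fin n → F), (∀ j, A (t j) = pen K (x j)) →
      (finrank (IntermediateField.adjoin K (Set.range x)) F : ℝ) =
        finrank (IntermediateField.adjoin K (⋃ i, (A i : Set F))) F *
          coeff (∑ j, Finsupp.single (t j) 1) P

/-- DX5a: `semiample_vol` with everything the proof gives, the degree `D` being known only from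
one nonzero coefficient -/
def SemiampleData (K : Type u) [Field K] : Prop :=
  ∀ {σ : Type v} [Fintype σ] {p : MvPolynomial σ ℚ}, IsSemiampleVolumePolynomial K p →
    ∀ μ : σ →₀ ℕ, coeff μ p ≠ 0 →
      ∃ (L : Type u) (_ : Field L) (_ : Algebra K L) (V : σ → Submodule K L)
        (P : MvPolynomial σ ℝ) (C : ℝ), Adm K V ∧ rk K (⋃ i, (V i : Set L)) = μ.degree ∧
          FiniteDimensional (IntermediateField.adjoin K (⋃ i, (V i : Set L))) L ∧
          FnField K L μ.degree ∧ IsVol K μ.degree V P ∧ 0 < C ∧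
          P = MvPolynomial.C C * MvPolynomial.map (algebraMap ℚ ℝ) p

/-- `p` is a coefficientwise limit of volume polynomials of semiample divisors -/
def IsLimitSemiample (K : Type u) [Field K] {σ : Type v} [Fintype σ] (p : MvPolynomial σ ℚ) :
    Prop :=
  ∃ s : ℕ → MvPolynomial σ ℚ, (∀ n, IsSemiampleVolumePolynomial K (s n)) ∧
    ∀ μ : σ →₀ ℕ, Tendsto (fun n => ((coeff μ (s n) : ℚ) : ℝ)) atTop (𝓝 ((coeff μ p : ℚ) : ℝ))

/-- DX5, the data: five letters and `M` generic functions of the class `H` -/
def DataExists : Prop :=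
  IsLimitSemiample ℂ (basisPoly (Matroid.freeOn Set.univ) exM' exφ) →
    ∀ (M : ℕ) (η : ℝ), 0 < M → 0 < η → ∃ (F : Type) (_ : Field F) (_ : Algebra ℂ F)
      (f : Fin 5 ⊕ Fin M → F) (κ : ℝ), FnField ℂ F 5 ∧ 0 < κ ∧
        ∀ t : Fin 5 → Fin 5 ⊕ Fin M, Function.Injective t →
          |κ * (finrank (IntermediateField.adjoin ℂ (Set.range fun j => f (t j))) F : ℝ) -
            numZ (fun i => typ (t i))| ≤ η

/-- repeated functions have degree zero -/
def DegZero : Prop :=
  ∀ (F : Type) [Field F] [Algebra ℂ F], FnField ℂ F 5 → ∀ (x : Fin 5 → F),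
    ¬ Function.Injective x → finrank (IntermediateField.adjoin ℂ (Set.range x)) F = 0

end EH
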