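import Pool.Agent.Work.EurHuh.Face
import Pool.Agent.Work.MP_9eee85_co.EH.DXDefs

/-!
DEG: the degree lemma `EH.DegCoeff`.

For algebraically independent `x` the dimension of `∏ ⟨1, x_j⟩ ^ (m_j)` is `∏ (m_j + 1)`. Let `E`
be the field of the `x_j` and `L` the field of the family. For large `N` the span over `E` of
`∏ A_i ^ N` (over the `i` not in the transversal) is `L`; the slice lemma gives
`P(w on t, 0 off) = [L : E] ∏ w_j`. If the `x_j` are dependent both sides are zero.
-/

namespace EH

open Module Submodule MvPolynomial EurHuh Filter Topology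

section Pens

variable {K F : Type*} [Field K] [Field F] [Algebra K F]

theorem pen_pow (x : F) (m : ℕ) :
    pen K x ^ m = span K (Set.range fun a : Fin (m + 1) => x ^ (a : ℕ)) := by
  induction m with
  | zero =>
    rw [pow_zero, Submodule.one_eq_span]
    congr 1
    ext y
    constructor
    · rintro rfl
      exact ⟨0, by simp⟩
    · rintro ⟨a, rfl⟩
      simp
  | succ m ih =>
    rw [pow_succ, ih, pen, Submodule.span_mul_span]
    congr 1
    ext y
    constructor
    · rintro ⟨_, ⟨a, rfl⟩, z, hz, rfl⟩
      rcases hz with rfl | rfl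
      · exact ⟨⟨a, by omega⟩, by simp⟩
      · exact ⟨⟨a + 1, by omega⟩, by simp [pow_succ]⟩
    · rintro ⟨a, rfl⟩
      by_cases h : (a : ℕ) = m + 1
      · exact ⟨x ^ m, ⟨⟨m, by omega⟩, rfl⟩, x, by simp, by simp [h, pow_succ]⟩
      · exact ⟨x ^ (a : ℕ), ⟨⟨a, by omega⟩, rfl⟩, 1, by simp, by simp⟩

theorem prd_pens {n : ℕ} (x : Fin n → F) (m : Fin n → ℕ) :
    prd (fun j => pen K (x j)) m =
      span K (Set.range fun a : (j : Fin n) → Fin (m j + 1) => ∏ j, x j ^ (a j : ℕ)) := by
  unfold prd
  rw [Finset.prod_congr rfl fun j _ => pen_pow (K := K) (x j) (m j), Submodule.prod_span]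
  congr 1
  ext y
  rw [Set.mem_fintype_prod]
  constructor
  · rintro ⟨g, hg, rfl⟩
    choose a ha using hg
    exact ⟨a, Finset.prod_congr rfl fun j _ => ha j⟩
  · rintro ⟨a, rfl⟩
    exact ⟨fun j => x j ^ (a j : ℕ), fun j => ⟨a j, rfl⟩, rfl⟩

theorem finrank_prd_pens {n : ℕ} {x : Fin n → F} (hx : AlgebraicIndependent K x)
    (m : Fin n → ℕ) : finrank K (prd (fun j => pen K (x j)) m) = ∏ j, (m j + 1) := by
  classical
  have hli : LinearIndependent K
      (fun a : (j : Fin n) → Fin (m j + 1) => ∏ j, x j ^ (a j : ℕ)) := by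
    have h1 := (MvPolynomial.basisMonomials (Fin n) K).linearIndependent
    have h2 := h1.map' (aeval x : MvPolynomial (Fin n) K →ₐ[K] F).toLinearMap
      (LinearMap.ker_eq_bot.mpr hx)
    have h3 := h2.comp (fun a : (j : Fin n) → Fin (m j + 1) =>
      (Finsupp.equivFunOnFinite.symm fun j => (a j : ℕ) : Fin n →₀ ℕ)) (by
        intro a b hab
        have h4 := Finsupp.equivFunOnFinite.symm.injective hab
        funext j
        exact Fin.ext (congrFun h4 j))
    have h5 : (fun a : (j : Fin n) → Fin (m j + 1) => ∏ j, x j ^ (a j : ℕ)) =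
        (fun a => (aeval x : MvPolynomial (Fin n) K →ₐ[K] F)
          (monomial (Finsupp.equivFunOnFinite.symm fun j => (a j : ℕ)) (1 : K))) := by
      funext a
      rw [aeval_monomial, map_one, one_mul, Finsupp.prod_fintype _ _ (fun i => pow_zero _)]
      rfl
    rw [h5]
    simpa [Function.comp_def] using h3
  rw [prd_pens, finrank_span_eq_card hli, Fintype.card_pi]
  simp

/-- the volume polynomial of algebraically independent pencils -/
theorem isVol_pens {n : ℕ} {x : Fin n → F} (hx : AlgebraicIndependent K x) :
    IsVol K n (fun j => pen K (x j)) (∏ j, X j) := by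
  have hdeg : (∏ j, (X j + 1) : MvPolynomial (Fin n) ℝ).totalDegree ≤ n := by
    refine (totalDegree_finsetProd _ _).trans ?_
    refine (Finset.sum_le_card_nsmul Finset.univ _ 1 fun j _ => ?_).trans (by simp)
    refine (totalDegree_add _ _).trans ?_
    simp
  refine ⟨∏ j, (X j + 1), 0, hdeg, ?_, fun m _ => ?_⟩
  · apply MvPolynomial.funext
    intro c
    have h1 := poly_limit (∏ j, (X j + 1) : MvPolynomial (Fin n) ℝ) hdeg c 0
    have h2 : Tendsto (fun l : ℕ => ∏ j, (c j + 1 / (l : ℝ))) atTop (𝓝 (∏ j, c j)) := by
      apply tendsto_finsetProd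
      intro j _
      have := (tendsto_const_nhds (x := c j)).add (tendsto_one_div_atTop_nhds_zero_nat (𝕜 := ℝ))
      simpa using this
    have h3 := tendsto_nhds_unique (h1.congr' ?_) h2
    · rw [h3, map_prod]
      simp
    · filter_upwards [eventually_gt_atTop 0] with l hl
      have hl0 : (l : ℝ) ≠ 0 := by exact_mod_cast hl.ne'
      rw [map_prod]
      have h4 : (l : ℝ) ^ n = ∏ _j : Fin n, (l : ℝ) := by simp
      rw [h4, ← Finset.prod_div_distrib]
      refine Finset.prod_congr rfl fun j _ => ?_
      rw [map_add, eval_X, map_one, Pi.zero_apply, add_zero, add_div, mul_div_cancel_left₀ _ hl0]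
  · rw [finrank_prd_pens hx, map_prod]
    push_cast
    refine Finset.prod_congr rfl fun j _ => ?_
    rw [map_add, eval_X, map_one]

end Pens

section Span

variable {K F : Type*} [Field K] [Field F] [Algebra K F]

/-- the products of the spaces off the transversal exhaust the field, over `E` -/
theorem exists_span_full {κ : Type*} [Fintype κ] (A : κ → Submodule K F) (hA : Adm K A)
    {n : ℕ} (t : Fin n → κ) (E : IntermediateField K F) (hE : ∀ j, ∀ y ∈ A (t j), y ∈ E)
    (hEL : E ≤ IntermediateField.adjoin K (⋃ i, (A i : Set F)))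
    (halg : ∀ y ∈ ⋃ i, (A i : Set F), IsAlgebraic E y) :
    ∃ N0 : ℕ, ∀ N, N0 ≤ N →
      finrank E (span E (prd A (Function.extend t (fun _ => 0) (fun _ => N)) : Set F)) =
        IntermediateField.relfinrank E (IntermediateField.adjoin K (⋃ i, (A i : Set F))) := by
  classical
  set S : Set F := ⋃ i, (A i : Set F) with hS
  set B : ℕ → Submodule K F := fun N => prd A (Function.extend t (fun _ => 0) (fun _ => N))
    with hB
  have hmono : ∀ {N M : ℕ}, N ≤ M → B N ≤ B M := by
    intro N M h
    apply prd_mono hA
    intro i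
    by_cases hi : ∃ j, t j = i
    · rw [Function.extend_def, Function.extend_def, dif_pos hi, dif_pos hi]
    · rw [Function.extend_apply' _ _ _ hi, Function.extend_apply' _ _ _ hi]
      exact h
  have hmul : ∀ N M, B N * B M = B (N + M) := by
    intro N M
    rw [hB]
    dsimp only
    rw [← prd_add]
    congr 1
    funext i
    rw [Pi.add_apply]
    by_cases hi : ∃ j, t j = i
    · rw [Function.extend_def, Function.extend_def, Function.extend_def, dif_pos hi, dif_pos hi,
        dif_pos hi]
    · rw [Function.extend_apply' _ _ _ hi, Function.extend_apply' _ _ _ hi,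
        Function.extend_apply' _ _ _ hi]
  have h1 : ∀ y ∈ Algebra.adjoin E S, ∃ N, y ∈ span E (B N : Set F) := by
    intro y hy
    induction hy using Algebra.adjoin_induction with
    | mem y hy =>
      obtain ⟨i, hi⟩ := Set.mem_iUnion.mp hy
      by_cases h : ∃ j, t j = i
      · obtain ⟨j, rfl⟩ := h
        refine ⟨0, ?_⟩
        have h2 : y = (⟨y, hE j y hi⟩ : E) • (1 : F) := by
          rw [Algebra.smul_def, mul_one]
          rfl
        rw [h2]
        exact Submodule.smul_mem _ _ (subset_span (one_mem_prd hA _))
      · refine ⟨1, subset_span (le_prd hA ?_ hi)⟩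
        rw [Function.extend_apply' _ _ _ h]
    | algebraMap r =>
      refine ⟨0, ?_⟩
      rw [Algebra.algebraMap_eq_smul_one]
      exact Submodule.smul_mem _ _ (subset_span (one_mem_prd hA _))
    | add x y _ _ hx hy =>
      obtain ⟨N, hN⟩ := hx
      obtain ⟨M, hM⟩ := hy
      exact ⟨max N M, Submodule.add_mem _ (span_mono (hmono (le_max_left _ _)) hN)
        (span_mono (hmono (le_max_right _ _)) hM)⟩
    | mul x y _ _ hx hy =>
      obtain ⟨N, hN⟩ := hx
      obtain ⟨M, hM⟩ := hy
      refine ⟨N + M, ?_⟩
      have h2 := Submodule.mul_mem_mul hN hM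
      rw [Submodule.span_mul_span] at h2
      refine span_mono ?_ h2
      rintro _ ⟨a, ha, b, hb, rfl⟩
      rw [← hmul]
      exact Submodule.mul_mem_mul ha hb
  have hfg : (Subalgebra.toSubmodule (Algebra.adjoin E S)).FG := by
    choose s hs using fun i => (hA i).1
    have hsub : (⋃ i, (s i : Set F)) ⊆ S := by
      apply Set.iUnion_mono
      intro i
      rw [← hs i]
      exact subset_span
    have h2 : Algebra.adjoin E S = Algebra.adjoin E (⋃ i, (s i : Set F)) := by
      apply le_antisymm
      · rw [Algebra.adjoin_le_iff]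
        intro y hy
        obtain ⟨i, hi⟩ := Set.mem_iUnion.mp hy
        rw [← hs i] at hi
        change y ∈ Algebra.adjoin E (⋃ i, (s i : Set F))
        induction hi using Submodule.span_induction with
        | mem z hz => exact Algebra.subset_adjoin (Set.mem_iUnion.mpr ⟨i, hz⟩)
        | zero => exact zero_mem _
        | add a b _ _ ha hb =>
          exact add_mem (ha (Set.mem_iUnion.mpr ⟨i, by rw [← hs i]; assumption⟩))
            (hb (Set.mem_iUnion.mpr ⟨i, by rw [← hs i]; assumption⟩))
        | smul c z hz' hz =>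
          have h3 : c • z = (algebraMap K E c) • z := by rw [algebraMap_smul]
          rw [h3]
          exact Subalgebra.smul_mem _ (hz (Set.mem_iUnion.mpr ⟨i, by rw [← hs i]; assumption⟩)) _
      · exact Algebra.adjoin_mono hsub
    rw [h2]
    exact fg_adjoin_of_finite (Set.finite_iUnion fun i => (s i).finite_toSet)
      fun y hy => (halg y (hsub hy)).isIntegral
  obtain ⟨s, hs⟩ := hfg
  choose! N hN using h1
  refine ⟨s.sup N, fun M hM => ?_⟩
  have h3 : span E (B M : Set F) = Subalgebra.toSubmodule (Algebra.adjoin E S) := by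
    apply le_antisymm
    · rw [span_le]
      intro y hy
      have h4 := prd_mem_adjoin A _ y hy
      have h5 : y ∈ IntermediateField.extendScalars hEL := h4
      rw [IntermediateField.extendScalars_adjoin, ← IntermediateField.mem_toSubalgebra,
        IntermediateField.adjoin_toSubalgebra_of_isAlgebraic halg] at h5
      exact h5
    · rw [← hs, span_le]
      intro y hy
      have h4 : y ∈ Algebra.adjoin E S := by
        rw [← Subalgebra.mem_toSubmodule, ← hs]
        exact subset_span hy
      exact span_mono (hmono ((Finset.le_sup hy).trans hM)) (hN y h4)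
  rw [IntermediateField.relfinrank_eq_finrank_of_le hEL, IntermediateField.extendScalars_adjoin, h3,
    ← IntermediateField.adjoin_toSubalgebra_of_isAlgebraic halg]
  rfl

/-- `n` elements of rank `n` are algebraically independent -/
theorem indep_of_rk {n : ℕ} {x : Fin n → F} (h : (n : ℕ∞) ≤ rk K (Set.range x)) :
    AlgebraicIndependent K x := by
  have hfin : (Set.range x).Finite := Set.finite_range x
  have h1 : (Set.range x).encard ≤ n := by
    rw [← Set.image_univ]
    refine (Set.encard_image_le _ _).trans ?_
    simp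
  have h2 : rk K (Set.range x) ≤ (Set.range x).encard :=
    (AlgebraicIndependent.matroid K F).eRk_le_encard _
  have h3 : (Set.range x).encard = n := le_antisymm h1 (h.trans h2)
  have h4 : (AlgebraicIndependent.matroid K F).Indep (Set.range x) := by
    rw [Matroid.indep_iff_eRk_eq_encard_of_finite hfin]
    exact le_antisymm h2 (h3.le.trans h)
  have hinj : Function.Injective x := by
    rw [← Set.injOn_univ]
    apply Set.finite_univ.injOn_of_encard_image_eq
    rw [Set.image_univ, h3]
    simp
  rw [AlgebraicIndependent.matroid_indep_iff] at h4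
  exact (algebraicIndependent_subtype_range hinj).mp h4

end Span

universe u v

theorem degCoeff (K : Type u) (F : Type v) [Field K] [Field F] [Algebra K F] :
    DegCoeff K F := by
  intro κ _ A hA n hn P hP hfin t ht x hx
  classical
  set L := IntermediateField.adjoin K (⋃ i, (A i : Set F)) with hL
  set E := IntermediateField.adjoin K (Set.range x) with hE
  have hxA : ∀ j, x j ∈ A (t j) := fun j => by rw [hx]; exact mem_pen _
  have hsub : Set.range x ⊆ ⋃ i, (A i : Set F) := by
    rintro _ ⟨j, rfl⟩
    exact Set.mem_iUnion.mpr ⟨t j, hxA j⟩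
  have hEL : E ≤ L := IntermediateField.adjoin.mono K _ _ hsub
  have hxE : ∀ j, x j ∈ E := fun j => IntermediateField.subset_adjoin K _ ⟨j, rfl⟩
  have hpen : ∀ j, ∀ y ∈ A (t j), y ∈ E := by
    intro j y hy
    rw [hx] at hy
    have h1 : pen K (x j) ≤ Subalgebra.toSubmodule E.toSubalgebra :=
      pen_le E.one_mem (hxE j)
    exact h1 hy
  by_cases hind : AlgebraicIndependent K x
  · -- the independent case
    obtain ⟨H, N, hdeg, hcomp, hH⟩ := hP
    have hUE : IntermediateField.adjoin K (⋃ j, (A (t j) : Set F)) = E := by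
      apply le_antisymm
      · rw [IntermediateField.adjoin_le_iff]
        intro y hy
        obtain ⟨j, hj⟩ := Set.mem_iUnion.mp hy
        exact hpen j y hj
      · apply IntermediateField.adjoin.mono
        rintro _ ⟨j, rfl⟩
        exact Set.mem_iUnion.mpr ⟨j, hxA j⟩
    have halgE : ∀ y ∈ ⋃ j, (A (t j) : Set F), IsAlgebraic E y := by
      intro y hy
      obtain ⟨j, hj⟩ := Set.mem_iUnion.mp hy
      exact isAlgebraic_algebraMap (⟨y, hpen j y hj⟩ : E)
    have hU : Adm K (fun j => A (t j)) := fun j => hA (t j)
    have hn' : rk K (⋃ j, (A (t j) : Set F)) = n :=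
      rk_eq_of_basis x (fun j => Set.mem_iUnion.mpr ⟨j, hxA j⟩) hind halgE
    have hrx : rk K (Set.range x) = n := rk_eq_of_basis x (fun j => ⟨j, rfl⟩) hind
      fun y hy => by
        obtain ⟨j, rfl⟩ := hy
        exact isAlgebraic_algebraMap (⟨x j, hxE j⟩ : E)
    have halg : ∀ y ∈ ⋃ i, (A i : Set F), IsAlgebraic E y := algebraic_of_rk_eq hsub hrx hn
    obtain ⟨N0, hN0⟩ := exists_span_full A hA t E hpen hEL halg
    have hN0' := hN0 (max N N0) (le_max_right _ _)
    set M := max N N0 with hM
    set B := prd A (Function.extend t (fun _ => 0) (fun _ => M)) with hBdef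
    have hB : B.FG := prd_fg (fun i => (hA i).1) _
    have hvol : IsVol K n (fun j => A (t j)) (∏ j, X j) := by
      have h1 : (fun j => A (t j)) = fun j => pen K (x j) := funext hx
      rw [h1]
      exact isVol_pens hind
    set e := IntermediateField.relfinrank E L with he
    have hint : ∀ w : Fin n → ℕ, (∀ k, 0 < w k) →
        eval (Function.extend t (fun k => (w k : ℝ)) (fun _ => 0)) P =
          (e : ℝ) * eval (fun k => (w k : ℝ)) (∏ j, X j) := by
      intro w hw
      have h1 := slice_tendsto (fun j => A (t j)) hU hn' hvol B hB w hw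
      rw [hUE, hN0'] at h1
      have h2 := poly_limit H hdeg (Function.extend t (fun k => (w k : ℝ)) (fun _ => 0))
        (Function.extend t (fun _ => 0) (fun _ => (M : ℝ)))
      rw [hcomp] at h2
      refine tendsto_nhds_unique (h2.congr' ?_) h1
      filter_upwards [eventually_ge_atTop N] with l hl
      rw [← prd_extend A t ht, hH]
      · congr 3
        funext i
        by_cases h : ∃ k, t k = i
        · obtain ⟨k, rfl⟩ := h
          rw [ht.extend_apply, ht.extend_apply, ht.extend_apply, add_zero, Nat.cast_mul]
        · rw [Function.extend_apply' _ _ _ h, Function.extend_apply' _ _ _ h,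
            Function.extend_apply' _ _ _ h, mul_zero, zero_add]
      · intro i
        by_cases h : ∃ k, t k = i
        · obtain ⟨k, rfl⟩ := h
          rw [ht.extend_apply]
          have := hw k
          nlinarith
        · rw [Function.extend_apply' _ _ _ h]
          exact le_max_left _ _
    have hQe : ∀ w : Fin n → ℝ, eval w (killCompl ht P) =
        eval (Function.extend t w (fun _ => 0)) P := by
      intro w
      rw [killCompl, eval_aeval_gen]
      congr 2
      funext i
      by_cases h : i ∈ Set.range t
      · obtain ⟨k, rfl⟩ := h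
        rw [dif_pos ⟨k, rfl⟩, Equiv.ofInjective_symm_apply, eval_X, ht.extend_apply]
      · rw [dif_neg h, map_zero, Function.extend_apply' _ _ _ h]
    have hQP : killCompl ht P = C (e : ℝ) * ∏ j, X j := by
      apply eq_of_eval_large _ _ 1
      intro m hm
      rw [hQe, map_mul, eval_C, hint m (fun k => hm k)]
    have hc := congrArg (coeff (∑ j : Fin n, Finsupp.single j 1)) hQP
    rw [coeff_killCompl, coeff_C_mul] at hc
    have h5 : (∏ j, X j : MvPolynomial (Fin n) ℝ) =
        monomial (∑ j : Fin n, Finsupp.single j 1) 1 := by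
      rw [monomial_sum_one]
      rfl
    rw [h5, coeff_monomial, if_pos rfl, mul_one, Finsupp.mapDomain_finsetSum] at hc
    have h6 : (∑ j : Fin n, Finsupp.mapDomain t (Finsupp.single j 1) : κ →₀ ℕ) =
        ∑ j, Finsupp.single (t j) 1 :=
      Finset.sum_congr rfl fun j _ => Finsupp.mapDomain_single
    rw [h6] at hc
    rw [hc, ← IntermediateField.relfinrank_mul_finrank_top hEL]
    push_cast
    ring
  · -- the dependent case
    have h1 : ¬ (n : ℕ∞) ≤ rk K (Set.range x) := fun h => hind (indep_of_rk h)
    have h2 : finrank E F = 0 := by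
      by_contra hne
      have : FiniteDimensional E F := Module.finite_of_finrank_pos (Nat.pos_of_ne_zero hne)
      apply h1
      rw [← rk_eq_of_algebraic hsub fun y _ => Algebra.IsAlgebraic.isAlgebraic y, hn]
    have h3 : coeff (∑ j, Finsupp.single (t j) 1) P = 0 := by
      by_contra hne
      have hmem : (∑ j, Finsupp.single (t j) 1) ∈ P.support := mem_support_iff.mpr hne
      set J : Finset κ := Finset.univ.image t with hJ
      have hJU : (⋃ i ∈ J, (A i : Set F)) = ⋃ j, (A (t j) : Set F) := by
        rw [hJ]
        ext y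
        simp
      have hrJ : rk K (⋃ i ∈ J, (A i : Set F)) = rk K (Set.range x) := by
        rw [hJU]
        apply rk_eq_of_algebraic
        · rintro _ ⟨j, rfl⟩
          exact Set.mem_iUnion.mpr ⟨j, hxA j⟩
        · intro y hy
          obtain ⟨j, hj⟩ := Set.mem_iUnion.mp hy
          exact isAlgebraic_algebraMap (⟨y, hpen j y hj⟩ : E)
      have hle : rk K (⋃ i ∈ J, (A i : Set F)) ≤ n := by
        rw [← hn]
        apply rk_mono
        intro y hy
        simp only [Set.mem_iUnion] at hy ⊢
        obtain ⟨i, _, hi⟩ := hy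
        exact ⟨i, hi⟩
      obtain ⟨r, hr⟩ := ENat.ne_top_iff_exists.mp (ne_top_of_le_ne_top (ENat.natCast_ne_top n) hle)
      have h4 := (IsVol.rank hA hn hP J hr.symm).1 _ hmem
      have h5 : ∑ i ∈ J, (∑ j, Finsupp.single (t j) 1 : κ →₀ ℕ) i = n := by
        have h6 : ∀ i ∈ J, (∑ j, Finsupp.single (t j) 1 : κ →₀ ℕ) i = 1 := by
          intro i hi
          obtain ⟨k, _, rfl⟩ := Finset.mem_image.mp hi
          rw [Finsupp.finsetSum_apply, Finset.sum_eq_single k]
          · simp
          · intro j _ hj
            rw [Finsupp.single_apply, if_neg fun h => hj (ht h)]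
          · simp
        rw [Finset.sum_congr rfl h6, Finset.sum_const, hJ, Finset.card_image_of_injective _ ht]
        simp
      rw [h5] at h4
      apply h1
      rw [← hrJ, ← hr]
      exact_mod_cast h4
    rw [h2, h3]
    simp

end EH
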