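import Pool.Agent.Work.MP_9eee85_co.EH.XModel
import Pool.Agent.Work.MP_9eee85_co.EH.AreaRho
import Pool.Agent.Work.MP_9eee85_co.EH.DegCoeff

/-!
The general fibre of five algebraically dependent functions is empty, and `F` is not finite over
the field they generate.
-/

namespace EH

open MeasureTheory Module EHX EurHuh

theorem finrank_dep {F : Type} [Field F] [Algebra ℂ F] {z : Fin 5 → F}
    (hz : AlgebraicIndependent ℂ z)
    (halg : ∀ y : F, IsAlgebraic (IntermediateField.adjoin ℂ (Set.range z)) y) {x : Fin 5 → F}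
    (h : ¬ AlgebraicIndependent ℂ x) :
    finrank (IntermediateField.adjoin ℂ (Set.range x)) F = 0 := by
  by_contra hne
  have hfd : FiniteDimensional (IntermediateField.adjoin ℂ (Set.range x)) F :=
    FiniteDimensional.of_finrank_pos (Nat.pos_of_ne_zero hne)
  have h5 : rk ℂ (Set.univ : Set F) = (5 : ℕ) :=
    rk_eq_of_basis z (fun _ => Set.mem_univ _) hz fun y _ => halg y
  have h1 : rk ℂ (Set.univ : Set F) = rk ℂ (Set.range x) :=
    rk_eq_of_algebraic (Set.subset_univ _) fun y _ => Algebra.IsAlgebraic.isAlgebraic y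
  exact h (indep_of_rk (by rw [← h1, h5]))

theorem model_algebraic {n : ℕ} {F : Type*} [Field F] [Algebra ℂ F] (M : Model n F) (f : F) :
    IsAlgebraic (IntermediateField.adjoin ℂ (Set.range M.z)) f := by
  set L := IntermediateField.adjoin ℂ (Set.range M.z) with hL
  have hz : ∀ i, M.z i ∈ L := fun i => IntermediateField.subset_adjoin ℂ _ ⟨i, rfl⟩
  let zL : Fin n → L := fun i => ⟨M.z i, hz i⟩
  have hy : IsAlgebraic L M.y := by
    refine ⟨M.P.map (MvPolynomial.aeval zL : MvPolynomial (Fin n) ℂ →ₐ[ℂ] L).toRingHom, ?_, ?_⟩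
    · exact (M.monic.map _).ne_zero
    · rw [Polynomial.aeval_def, Polynomial.eval₂_map, ← M.hy]
      congr 1
      apply MvPolynomial.ringHom_ext
      · intro c
        simp
      · intro i
        simp [zL]
  have h1 : IntermediateField.adjoin ℂ (Set.range M.z ∪ {M.y}) ≤
      (algebraicClosure L F).restrictScalars ℂ := by
    rw [IntermediateField.adjoin_le_iff]
    rintro x (⟨i, rfl⟩ | hx)
    · change M.z i ∈ algebraicClosure L F
      rw [mem_algebraicClosure_iff]
      exact isAlgebraic_algebraMap (zL i)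
    · rw [Set.mem_singleton_iff] at hx
      subst hx
      change M.y ∈ algebraicClosure L F
      rw [mem_algebraicClosure_iff]
      exact hy
  rw [M.gen] at h1
  have h2 : f ∈ algebraicClosure L F := h1 (show f ∈ (⊤ : IntermediateField ℂ F) from trivial)
  rwa [mem_algebraicClosure_iff] at h2

theorem fibre_empty {F : Type} [Field F] [Algebra ℂ F] (M : Model 5 F) (f : Fin 5 → M.A)
    (h : ¬ AlgebraicIndependent ℂ (fun i => (f i : F))) :
    ∃ Z : Set (Fin 5 → ℂ), volume Z = 0 ∧ ∀ w ∉ Z, {x : M.X | ∀ i, M.ev x (f i) = w i} = ∅ := by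
  rw [algebraicIndependent_iff] at h
  push Not at h
  obtain ⟨Q, hQ0, hQ⟩ := h
  refine ⟨{v | MvPolynomial.eval v Q = 0}, volume_zeros hQ, ?_⟩
  intro w hw
  rw [Set.eq_empty_iff_forall_notMem]
  intro x hx
  apply hw
  have h1 : (MvPolynomial.aeval f Q : M.A) = 0 := by
    apply Subtype.ext
    have h2 := MvPolynomial.comp_aeval_apply f M.A.val Q
    change M.A.val (MvPolynomial.aeval f Q) = 0
    rw [h2, ← hQ0]
    rfl
  have h4 : MvPolynomial.aeval (fun i => M.ev x (f i)) Q = 0 := by
    have h5 := MvPolynomial.comp_aeval_apply f (M.ev x) Q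
    rw [h1, map_zero] at h5
    exact h5.symm
  have h6 : (fun i => M.ev x (f i)) = w := funext hx
  rw [h6] at h4
  rw [Set.mem_ofPred_eq]
  exact h4

theorem fibre_dep {F : Type} [Field F] [Algebra ℂ F] (M : Model 5 F) (f : Fin 5 → M.A)
    (h : ¬ AlgebraicIndependent ℂ (fun i => (f i : F))) :
    (∃ Z : Set (Fin 5 → ℂ), volume Z = 0 ∧ ∀ w ∉ Z, {x : M.X | ∀ i, M.ev x (f i) = w i} = ∅) ∧
      finrank (IntermediateField.adjoin ℂ (Set.range (fun i => (f i : F)))) F = 0 :=
  ⟨fibre_empty M f h, finrank_dep M.hz (model_algebraic M) h⟩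

end EH
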