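import Pool.Agent.Work.MP_9eee85_co.EH.XModel
import Pool.Agent.Work.MP_9eee85_co.EH.FibCount
import Pool.Agent.Work.MP_9eee85_co.EH.FibDep
import Pool.Agent.Work.MP_9eee85_co.EH.AreaRho

/-!
The number of points of the general fibre of five functions.
-/

noncomputable section

namespace EH

open MeasureTheory Set Module EHX

/-- every element of `F` is algebraic over `ℂ[z]` -/
theorem gfib_alg {n : ℕ} {F : Type} [Field F] [Algebra ℂ F] (M : Model n F) (b : F) :
    @IsAlgebraic (MvPolynomial (Fin n) ℂ) F _ _ (subz M.z).toAlgebra b := by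
  let _ : Algebra (MvPolynomial (Fin n) ℂ) F := (subz M.z).toAlgebra
  obtain ⟨Q, s, hs, h⟩ := M.exists_repF b
  have hs' : subz M.z s ≠ 0 := fun h0 => hs (subz_inj M.hz (by rw [map_zero]; exact h0))
  have h1 : IsAlgebraic (MvPolynomial (Fin n) ℂ) (M.evY Q) := M.evY_isIntegral Q
  have h2 : IsAlgebraic (MvPolynomial (Fin n) ℂ) (subz M.z s) := isAlgebraic_algebraMap s
  have h3 : b = M.evY Q * (subz M.z s)⁻¹ := by rw [← h]; field_simp
  rw [h3]
  exact h1.mul h2.inv

theorem gfib_basis {n : ℕ} {F : Type} [Field F] [Algebra ℂ F] (M : Model n F) {f : Fin n → F}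
    (hf : AlgebraicIndependent ℂ f) : IsTranscendenceBasis ℂ f := by
  have halg : Algebra.IsAlgebraic (Algebra.adjoin ℂ (range M.z)) F := by
    constructor
    intro b
    let _ : Algebra (MvPolynomial (Fin n) ℂ) F := (subz M.z).toAlgebra
    let _ : Algebra (MvPolynomial (Fin n) ℂ) (Algebra.adjoin ℂ (range M.z)) :=
      (M.hz.aevalEquiv : MvPolynomial (Fin n) ℂ →+* Algebra.adjoin ℂ (range M.z)).toAlgebra
    have _ : IsScalarTower (MvPolynomial (Fin n) ℂ) (Algebra.adjoin ℂ (range M.z)) F :=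
      IsScalarTower.of_algebraMap_eq fun p => (M.hz.algebraMap_aevalEquiv p).symm
    have h1 : IsAlgebraic (MvPolynomial (Fin n) ℂ) b := gfib_alg M b
    exact h1.extendScalars M.hz.aevalEquiv.injective
  have h1 : Algebra.trdeg ℂ F ≤ Cardinal.mk (range M.z) :=
    Algebra.IsAlgebraic.trdeg_le_cardinalMk ℂ (range M.z)
  have h2 : Cardinal.mk (range M.z) ≤ Cardinal.mk (Fin n) := Cardinal.mk_range_le
  exact hf.isTranscendenceBasis_of_trdeg_le_of_finite (h1.trans h2)

theorem gfib_finite {n : ℕ} {F : Type} [Field F] [Algebra ℂ F] (M : Model n F) {f : Fin n → F}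
    (hf : AlgebraicIndependent ℂ f) :
    FiniteDimensional (IntermediateField.adjoin ℂ (range f)) F := by
  set K := IntermediateField.adjoin ℂ (range f) with hK
  have halg : Algebra.IsAlgebraic K F := (gfib_basis M hf).isAlgebraic_field
  have hfin : Finite (range M.z ∪ {M.y} : Set F) := ((finite_range M.z).union (toFinite _)).to_subtype
  have h1 : FiniteDimensional K (IntermediateField.adjoin K (range M.z ∪ {M.y})) :=
    IntermediateField.finiteDimensional_adjoin fun x _ => (halg.isAlgebraic x).isIntegral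
  have h2 : IntermediateField.adjoin K (range M.z ∪ {M.y}) = ⊤ := by
    rw [eq_top_iff]
    intro x _
    have hx : x ∈ IntermediateField.adjoin ℂ (range M.z ∪ {M.y}) := by rw [M.gen]; trivial
    have hle : IntermediateField.adjoin ℂ (range M.z ∪ {M.y}) ≤
        (IntermediateField.adjoin K (range M.z ∪ {M.y})).restrictScalars ℂ := by
      rw [IntermediateField.adjoin_le_iff]
      exact IntermediateField.subset_adjoin _ _
    exact hle hx
  rw [h2] at h1
  exact Module.Finite.equiv (IntermediateField.topEquiv (F := K) (E := F)).toLinearEquiv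

/-- The independent case. -/
theorem gfib_indep {n : ℕ} {F : Type} [Field F] [Algebra ℂ F] (M : Model n F) (f : Fin n → M.A)
    (hf : AlgebraicIndependent ℂ (fun i => (f i : F))) :
    ∃ Z : Set (Fin n → ℂ), volume Z = 0 ∧ ∀ w ∉ Z,
      {x : M.X | ∀ i, M.ev x (f i) = w i}.Finite ∧
      {x : M.X | ∀ i, M.ev x (f i) = w i}.ncard =
        finrank (IntermediateField.adjoin ℂ (Set.range (fun i => (f i : F)))) F := by
  set fF : Fin n → F := fun i => (f i : F) with hfF
  set K := IntermediateField.adjoin ℂ (range fF) with hK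
  have hfin : FiniteDimensional K F := gfib_finite M hf
  let _ : Algebra (MvPolynomial (Fin n) ℂ) F := (subz fF).toAlgebra
  have hmem : ∀ p : MvPolynomial (Fin n) ℂ, subz fF p ∈ K := by
    intro p
    rw [hK, IntermediateField.mem_adjoin_range_iff]
    exact ⟨p, 1, by simp [subz]⟩
  let j : MvPolynomial (Fin n) ℂ →+* K := (subz fF).codRestrict K hmem
  let _ : Algebra (MvPolynomial (Fin n) ℂ) K := j.toAlgebra
  have _ : IsScalarTower (MvPolynomial (Fin n) ℂ) K F := IsScalarTower.of_algebraMap_eq fun p => rfl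
  have _ : FaithfulSMul (MvPolynomial (Fin n) ℂ) K :=
    (faithfulSMul_iff_algebraMap_injective _ _).mpr fun p q hpq =>
      subz_inj hf (congrArg Subtype.val hpq)
  have _ : IsFractionRing (MvPolynomial (Fin n) ℂ) K := by
    refine .of_field _ _ fun x => ?_
    obtain ⟨r, s, h⟩ := (IntermediateField.mem_adjoin_range_iff ℂ fF x.1).mp x.2
    exact ⟨r, s, Subtype.ext h⟩
  have _ : CharZero F := charZero_of_injective_algebraMap (algebraMap ℂ F).injective
  have hsub : ∀ p : MvPolynomial (Fin n) ℂ, subz fF p ∈ M.A := by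
    intro p
    have h1 : subz fF p = M.A.val (MvPolynomial.aeval f p) := by
      exact (MvPolynomial.comp_aeval_apply f M.A.val p).symm
    rw [h1]
    exact (MvPolynomial.aeval f p).2
  -- the subalgebra
  let A' : Subalgebra (MvPolynomial (Fin n) ℂ) F :=
    { M.A.toSubsemiring with
      algebraMap_mem' := hsub }
  have hA' : ∀ a : F, a ∈ A' ↔ a ∈ M.A := fun a => Iff.rfl
  have hconst : ∀ c : ℂ, subz fF (MvPolynomial.C c) = algebraMap ℂ F c := fun c =>
    (MvPolynomial.aeval fF : MvPolynomial (Fin n) ℂ →ₐ[ℂ] F).commutes c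
  have hX : ∀ i, subz fF (MvPolynomial.X i) = fF i := fun i => by simp [subz]
  have hq : ∀ w : F, ∃ a ∈ A', ∃ b ∈ A', b ≠ 0 ∧ w * b = a := by
    intro w
    obtain ⟨a, b, hb, h⟩ := M.exists_quot w
    have hb' : (b : F) ≠ 0 := fun h0 => hb (Subtype.ext h0)
    exact ⟨a, a.2, b, b.2, hb', by rw [h]; field_simp⟩
  have hadj : ∀ x ∈ Algebra.adjoin ℂ (range M.z ∪ {M.y, M.hF⁻¹}),
      x ∈ Algebra.adjoin (MvPolynomial (Fin n) ℂ) (range M.z ∪ {M.y, M.hF⁻¹}) := by
    intro x hx
    induction hx using Algebra.adjoin_induction with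
    | mem x hx => exact Algebra.subset_adjoin hx
    | algebraMap r =>
      rw [← hconst r]
      exact Subalgebra.algebraMap_mem _ (MvPolynomial.C r)
    | add x y _ _ hx hy => exact add_mem hx hy
    | mul x y _ _ hx hy => exact mul_mem hx hy
  have hFG : A'.FG := by
    rw [Subalgebra.fg_def]
    refine ⟨range M.z ∪ {M.y, M.hF⁻¹}, (Set.finite_range M.z).union (Set.toFinite _), ?_⟩
    apply le_antisymm
    · rw [Algebra.adjoin_le_iff]
      intro x hx
      show x ∈ M.A
      rw [M.A_eq_adjoin]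
      exact Algebra.subset_adjoin hx
    · intro x hx
      have hx' : x ∈ M.A := hx
      rw [M.A_eq_adjoin] at hx'
      exact hadj x hx'
  obtain ⟨g, hg0, hg⟩ := fib_abs K A' hq hFG
  refine ⟨{w | MvPolynomial.eval w g = 0}, volume_zeros hg0, fun w hw => ?_⟩
  let _ : Algebra (MvPolynomial (Fin n) ℂ) ℂ := (MvPolynomial.eval w).toAlgebra
  have hcard := (hg ℂ hw).1
  have hpos : 0 < finrank K F := finrank_pos
  have hev : ∀ φ : M.A →ₐ[ℂ] ℂ, (∀ i, φ (f i) = w i) →
      ∀ p : MvPolynomial (Fin n) ℂ, φ ⟨subz fF p, hsub p⟩ = MvPolynomial.eval w p := by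
    intro φ hφ p
    have h1 : (⟨subz fF p, hsub p⟩ : M.A) = MvPolynomial.aeval f p :=
      Subtype.ext (MvPolynomial.comp_aeval_apply f M.A.val p).symm
    rw [h1, MvPolynomial.comp_aeval_apply]
    have h2 : (fun i => φ (f i)) = w := funext hφ
    rw [h2]
    rfl
  let toH : ∀ φ : M.A →ₐ[ℂ] ℂ, (∀ i, φ (f i) = w i) → (A' →ₐ[MvPolynomial (Fin n) ℂ] ℂ) :=
    fun φ hφ =>
    { toFun := fun a => φ ⟨a.1, a.2⟩
      map_one' := map_one φ
      map_mul' := fun a b => map_mul φ ⟨a.1, a.2⟩ ⟨b.1, b.2⟩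
      map_zero' := map_zero φ
      map_add' := fun a b => map_add φ ⟨a.1, a.2⟩ ⟨b.1, b.2⟩
      commutes' := fun p => hev φ hφ p }
  let ofH : (A' →ₐ[MvPolynomial (Fin n) ℂ] ℂ) → (M.A →ₐ[ℂ] ℂ) := fun ψ =>
    { toFun := fun a => ψ ⟨a.1, a.2⟩
      map_one' := map_one ψ
      map_mul' := fun a b => map_mul ψ ⟨a.1, a.2⟩ ⟨b.1, b.2⟩
      map_zero' := map_zero ψ
      map_add' := fun a b => map_add ψ ⟨a.1, a.2⟩ ⟨b.1, b.2⟩
      commutes' := fun c => by
        have h1 : (⟨algebraMap ℂ F c, (algebraMap ℂ M.A c).2⟩ : A') =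
            algebraMap (MvPolynomial (Fin n) ℂ) A' (MvPolynomial.C c) := Subtype.ext (hconst c).symm
        have h2 := ψ.commutes (MvPolynomial.C c)
        rw [← h1] at h2
        refine h2.trans ?_
        exact MvPolynomial.eval_C c }
  have hofH : ∀ (ψ : A' →ₐ[MvPolynomial (Fin n) ℂ] ℂ) (i : Fin n), ofH ψ (f i) = w i := by
    intro ψ i
    have h1 : (⟨(f i : F), (f i).2⟩ : A') =
        algebraMap (MvPolynomial (Fin n) ℂ) A' (MvPolynomial.X i) := Subtype.ext (hX i).symm
    have h2 := ψ.commutes (MvPolynomial.X i)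
    rw [← h1] at h2
    refine h2.trans ?_
    exact MvPolynomial.eval_X i
  let e : {x : M.X | ∀ i, M.ev x (f i) = w i} ≃ (A' →ₐ[MvPolynomial (Fin n) ℂ] ℂ) :=
    { toFun := fun x => toH (M.ev x.1) x.2
      invFun := fun ψ => ⟨M.pointEquiv.symm (ofH ψ), fun i => by
        have h1 : M.ev (M.pointEquiv.symm (ofH ψ)) = ofH ψ := M.pointEquiv.apply_symm_apply _
        rw [h1]
        exact hofH ψ i⟩
      left_inv := fun x => by
        apply Subtype.ext
        show M.pointEquiv.symm (ofH (toH (M.ev x.1) x.2)) = x.1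
        rw [Equiv.symm_apply_eq]
        rfl
      right_inv := fun ψ => by
        have h1 : M.ev (M.pointEquiv.symm (ofH ψ)) = ofH ψ := M.pointEquiv.apply_symm_apply _
        apply AlgHom.ext
        intro a
        show M.ev (M.pointEquiv.symm (ofH ψ)) ⟨a.1, a.2⟩ = ψ a
        rw [h1]
        rfl }
  have hcard' : Nat.card {x : M.X | ∀ i, M.ev x (f i) = w i} = finrank K F := by
    rw [Nat.card_congr e, hcard]
  refine ⟨?_, hcard'⟩
  exact Nat.finite_of_card_ne_zero (by rw [hcard']; exact hpos.ne')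

theorem fibre_count {F : Type} [Field F] [Algebra ℂ F] (M : Model 5 F) (f : Fin 5 → M.A) :
    ∃ Z : Set (Fin 5 → ℂ), volume Z = 0 ∧ ∀ w ∉ Z,
      {x : M.X | ∀ i, M.ev x (f i) = w i}.Finite ∧
      {x : M.X | ∀ i, M.ev x (f i) = w i}.ncard =
        finrank (IntermediateField.adjoin ℂ (Set.range (fun i => (f i : F)))) F := by
  by_cases h : AlgebraicIndependent ℂ (fun i => (f i : F))
  · exact gfib_indep M f h
  · obtain ⟨⟨Z, hZ, h1⟩, h2⟩ := fibre_dep M f h
    refine ⟨Z, hZ, fun w hw => ?_⟩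
    rw [h1 w hw, h2]
    exact ⟨finite_empty, ncard_empty _⟩

end EH
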