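import Pool.Agent.Work.MP_9eee85_co.EH.Defs

/-!
# The lift of a measure along a local homeomorphism

`π : X → V` a local homeomorphism, `X` second countable, `μ` a measure on `V`. There is exactly one
measure `ν` on `X` with `IsLift π μ ν`; it is locally finite (σ-finite) if `μ` is locally finite,
positive on nonempty open sets if `μ` is. Change of variables on sets on which `π` is injective,
null sets, counting of fibres.
-/

noncomputable section

namespace EH

open MeasureTheory Filter Topology Set
open scoped ENNReal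

section Basic

variable {V : Type*} [TopologicalSpace V] [MeasurableSpace V] [BorelSpace V]
variable {X : Type*} [TopologicalSpace X] [MeasurableSpace X] [BorelSpace X]
variable {π : X → V}

omit [MeasurableSpace V] [BorelSpace V] [MeasurableSpace X] [BorelSpace X] in
/-- Every point has an open neighbourhood on which `π` is an open embedding. -/
lemma exists_sheet (hπ : IsLocalHomeomorph π) (x : X) :
    ∃ U : Set X, IsOpen U ∧ x ∈ U ∧ IsOpenEmbedding (fun y : U => π y) := by
  obtain ⟨e, hx, he⟩ := hπ x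
  refine ⟨e.source, e.open_source, hx, ?_⟩
  have h := e.isOpenEmbedding_restrict
  rw [← he] at h
  exact h

/-- The image of a measurable subset of a sheet is measurable. -/
lemma measurableSet_image_of_sheet {U : Set X} (hU : IsOpenEmbedding (fun y : U => π y)) {s : Set X}
    (hs : MeasurableSet s) (hsU : s ⊆ U) : MeasurableSet (π '' s) := by
  have h := hU.measurableEmbedding.measurableSet_image' (measurable_subtype_coe hs)
  convert h using 1
  ext v
  constructor
  · rintro ⟨x, hx, rfl⟩
    exact ⟨⟨x, hsU hx⟩, hx, rfl⟩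
  · rintro ⟨x, hx, rfl⟩
    exact ⟨x, hx, rfl⟩

omit [MeasurableSpace V] [BorelSpace V] [MeasurableSpace X] [BorelSpace X] in
/-- Countably many sheets cover `X`. -/
lemma exists_cover [SecondCountableTopology X] (hπ : IsLocalHomeomorph π) :
    ∃ U : ℕ → Set X, (∀ n, IsOpen (U n)) ∧ (∀ n, IsOpenEmbedding (fun y : U n => π y)) ∧
      ⋃ n, U n = univ := by
  choose U hU hx hE using exists_sheet hπ
  obtain ⟨s, hs, hc⟩ := TopologicalSpace.countable_cover_nhds (f := U)
    fun x => (hU x).mem_nhds (hx x)
  rcases s.eq_empty_or_nonempty with h0 | h0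
  · subst h0
    simp only [mem_empty_iff_false, iUnion_of_empty, iUnion_empty] at hc
    have hX : IsEmpty X := by
      by_contra h
      rw [not_isEmpty_iff] at h
      obtain ⟨x⟩ := h
      have : x ∈ (∅ : Set X) := by rw [hc]; exact mem_univ x
      exact this
    refine ⟨fun _ => ∅, fun _ => isOpen_empty, fun _ => ?_, ?_⟩
    · have : IsEmpty (∅ : Set X) := inferInstance
      refine IsOpenEmbedding.of_continuous_injective_isOpenMap ?_ ?_ ?_
      · exact hπ.continuous.comp continuous_subtype_val
      · intro a; exact isEmptyElim a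
      · intro u _
        have : (fun y : (∅ : Set X) => π y) '' u = ∅ := by
          ext v
          constructor
          · rintro ⟨a, -, -⟩; exact isEmptyElim a
          · rintro ⟨⟩
        rw [this]
        exact isOpen_empty
    · rw [← hc]; simp
  · obtain ⟨f, hf⟩ := hs.exists_eq_range h0
    refine ⟨fun n => U (f n), fun n => hU _, fun n => hE _, ?_⟩
    rw [← hc, hf, biUnion_range]

/-- A measurable partition of `X` into pieces on which `π` is injective. -/
lemma exists_partition [SecondCountableTopology X] (hπ : IsLocalHomeomorph π) :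
    ∃ D : ℕ → Set X, (∀ n, MeasurableSet (D n)) ∧ Pairwise (Function.onFun Disjoint D) ∧
      (⋃ n, D n = univ) ∧ (∀ n, InjOn π (D n)) ∧
      (∀ n s, MeasurableSet s → s ⊆ D n → MeasurableSet (π '' s)) := by
  obtain ⟨U, hU, hE, hc⟩ := exists_cover hπ
  refine ⟨disjointed U, fun n => MeasurableSet.disjointed (fun n => (hU n).measurableSet) n,
    disjoint_disjointed U, by rw [iUnion_disjointed, hc], fun n => ?_, fun n s hs hsD => ?_⟩
  · intro x hx y hy hxy
    have hx' := disjointed_subset U n hx
    have hy' := disjointed_subset U n hy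
    have := (hE n).injective (a₁ := ⟨x, hx'⟩) (a₂ := ⟨y, hy'⟩) hxy
    exact congrArg Subtype.val this
  · exact measurableSet_image_of_sheet (hE n) hs (hsD.trans (disjointed_subset U n))

/-- The image of a measurable set under a local homeomorphism is measurable. -/
lemma measurableSet_image [SecondCountableTopology X] (hπ : IsLocalHomeomorph π) {s : Set X}
    (hs : MeasurableSet s) : MeasurableSet (π '' s) := by
  obtain ⟨D, hD, -, hc, -, hm⟩ := exists_partition hπ
  have h : π '' s = ⋃ n, π '' (s ∩ D n) := by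
    rw [← image_iUnion, ← inter_iUnion, hc, inter_univ]
  rw [h]
  exact MeasurableSet.iUnion fun n => hm n _ (hs.inter (hD n)) inter_subset_right

lemma measurable_of_isLocalHomeomorph (hπ : IsLocalHomeomorph π) : Measurable π :=
  hπ.continuous.measurable

/-- `π` is a measurable embedding on every measurable set on which it is injective. -/
lemma measurableEmbedding_of_injOn [SecondCountableTopology X] (hπ : IsLocalHomeomorph π)
    {U : Set X} (hU : MeasurableSet U) (hi : InjOn π U) :
    MeasurableEmbedding (fun x : U => π x) where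
  injective := fun x y h => Subtype.ext (hi x.2 y.2 h)
  measurable := (measurable_of_isLocalHomeomorph hπ).comp measurable_subtype_coe
  measurableSet_image' := by
    intro t ht
    have h : (fun x : U => π x) '' t = π '' (Subtype.val '' t) := by
      rw [image_image]
    rw [h]
    exact measurableSet_image hπ (hU.subtype_image ht)

end Basic

section Lift

variable {V : Type*} [TopologicalSpace V] [MeasurableSpace V] [BorelSpace V]
variable {X : Type*} [TopologicalSpace X] [MeasurableSpace X] [BorelSpace X]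
  [SecondCountableTopology X]
variable {π : X → V} {μ : Measure V} {ν : Measure X}

/-- Existence of the lift. -/
theorem exists_isLift (hπ : IsLocalHomeomorph π) (μ : Measure V) : ∃ ν : Measure X, IsLift π μ ν := by
  obtain ⟨D, hD, hdis, hc, hinj, hm⟩ := exists_partition hπ
  refine ⟨Measure.sum fun n => (μ.comap (fun x : D n => π x)).map Subtype.val, ?_⟩
  intro s hs hi
  have hE : ∀ n, MeasurableEmbedding (fun x : D n => π x) := fun n =>
    measurableEmbedding_of_injOn hπ (hD n) (hinj n)
  rw [Measure.sum_apply _ hs]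
  have h1 : ∀ n, ((μ.comap (fun x : D n => π x)).map Subtype.val) s = μ (π '' (s ∩ D n)) := by
    intro n
    rw [Measure.map_apply measurable_subtype_coe hs, (hE n).comap_apply]
    congr 1
    ext v
    constructor
    · rintro ⟨x, hx, rfl⟩
      exact ⟨x, ⟨hx, x.2⟩, rfl⟩
    · rintro ⟨x, ⟨hx, hxD⟩, rfl⟩
      exact ⟨⟨x, hxD⟩, hx, rfl⟩
  rw [tsum_congr h1, ← measure_iUnion]
  · rw [← image_iUnion, ← inter_iUnion, hc, inter_univ]
  · intro i j hij
    refine disjoint_left.2 ?_
    rintro v ⟨x, ⟨hx, hxi⟩, rfl⟩ ⟨y, ⟨hy, hyj⟩, hxy⟩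
    have : y = x := hi hy hx hxy
    subst this
    exact disjoint_left.1 (hdis hij) hxi hyj
  · intro n
    exact measurableSet_image hπ (hs.inter (hD n))

omit [TopologicalSpace V] [BorelSpace V] [TopologicalSpace X] [BorelSpace X]
  [SecondCountableTopology X] in
/-- The measure of a set in terms of a partition. -/
lemma IsLift.apply_eq_tsum (h : IsLift π μ ν) {D : ℕ → Set X} (hD : ∀ n, MeasurableSet (D n))
    (hdis : Pairwise (Function.onFun Disjoint D)) (hc : ⋃ n, D n = univ)
    (hinj : ∀ n, InjOn π (D n)) {s : Set X} (hs : MeasurableSet s) :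
    ν s = ∑' n, μ (π '' (s ∩ D n)) := by
  have h1 : s = ⋃ n, s ∩ D n := by rw [← inter_iUnion, hc, inter_univ]
  conv_lhs => rw [h1]
  rw [measure_iUnion]
  · exact tsum_congr fun n => h _ (hs.inter (hD n)) ((hinj n).mono inter_subset_right)
  · intro i j hij
    exact (hdis hij).mono inter_subset_right inter_subset_right
  · exact fun n => hs.inter (hD n)

/-- Uniqueness of the lift. -/
theorem IsLift.unique (hπ : IsLocalHomeomorph π) {ν₁ ν₂ : Measure X} (h₁ : IsLift π μ ν₁)
    (h₂ : IsLift π μ ν₂) : ν₁ = ν₂ := by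
  obtain ⟨D, hD, hdis, hc, hinj, -⟩ := exists_partition hπ
  ext s hs
  rw [h₁.apply_eq_tsum hD hdis hc hinj hs, h₂.apply_eq_tsum hD hdis hc hinj hs]

omit [SecondCountableTopology X] [BorelSpace V] in
/-- The lift of a locally finite measure is locally finite. -/
theorem IsLift.isLocallyFiniteMeasure (hπ : IsLocalHomeomorph π) (h : IsLift π μ ν)
    [IsLocallyFiniteMeasure μ] : IsLocallyFiniteMeasure ν := by
  refine ⟨fun x => ?_⟩
  obtain ⟨U, hU, hx, hE⟩ := exists_sheet hπ x
  obtain ⟨O, hO, hOlt⟩ := μ.finiteAt_nhds (π x)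
  refine ⟨U ∩ π ⁻¹' (interior O), ?_, ?_⟩
  · exact inter_mem (hU.mem_nhds hx)
      (hπ.continuous.continuousAt.preimage_mem_nhds (interior_mem_nhds.2 hO))
  · rw [h _ ((hU.inter (isOpen_interior.preimage hπ.continuous)).measurableSet)]
    · refine lt_of_le_of_lt (measure_mono ?_) hOlt
      rintro _ ⟨y, ⟨-, hy⟩, rfl⟩
      exact interior_subset hy
    · intro a ha b hb hab
      exact congrArg Subtype.val (hE.injective (a₁ := ⟨a, ha.1⟩) (a₂ := ⟨b, hb.1⟩) hab)

omit [BorelSpace V] in
/-- The lift of a locally finite measure is σ-finite. -/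
theorem IsLift.sigmaFinite (hπ : IsLocalHomeomorph π) (h : IsLift π μ ν)
    [IsLocallyFiniteMeasure μ] : SigmaFinite ν := by
  have := h.isLocallyFiniteMeasure hπ
  infer_instance

omit [SecondCountableTopology X] [BorelSpace V] in
/-- The lift of a measure which is positive on nonempty open sets has the same property. -/
theorem IsLift.isOpenPosMeasure (hπ : IsLocalHomeomorph π) (h : IsLift π μ ν)
    [μ.IsOpenPosMeasure] : ν.IsOpenPosMeasure := by
  refine ⟨fun U hU hne h0 => ?_⟩
  obtain ⟨x, hx⟩ := hne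
  obtain ⟨U', hU', hx', hE⟩ := exists_sheet hπ x
  have h1 : ν (U ∩ U') = 0 := measure_mono_null inter_subset_left h0
  rw [h _ (hU.inter hU').measurableSet] at h1
  · have h2 : IsOpen (π '' (U ∩ U')) := hπ.isOpenMap _ (hU.inter hU')
    have h3 : (π '' (U ∩ U')).Nonempty := ⟨π x, x, ⟨hx, hx'⟩, rfl⟩
    exact h2.measure_ne_zero μ h3 h1
  · intro a ha b hb hab
    exact congrArg Subtype.val (hE.injective (a₁ := ⟨a, ha.2⟩) (a₂ := ⟨b, hb.2⟩) hab)

/-! ### Null sets -/

/-- A measurable set is null iff its image is. -/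
theorem IsLift.null_iff (hπ : IsLocalHomeomorph π) (h : IsLift π μ ν) {s : Set X}
    (hs : MeasurableSet s) : ν s = 0 ↔ μ (π '' s) = 0 := by
  obtain ⟨D, hD, hdis, hc, hinj, -⟩ := exists_partition hπ
  rw [h.apply_eq_tsum hD hdis hc hinj hs, ENNReal.tsum_eq_zero]
  constructor
  · intro h0
    have h1 : π '' s = ⋃ n, π '' (s ∩ D n) := by
      rw [← image_iUnion, ← inter_iUnion, hc, inter_univ]
    rw [h1]
    exact measure_iUnion_null h0
  · intro h0 n
    exact measure_mono_null (image_mono inter_subset_left) h0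

/-- `π` is quasi measure preserving. -/
theorem IsLift.quasiMeasurePreserving (hπ : IsLocalHomeomorph π) (h : IsLift π μ ν) :
    Measure.QuasiMeasurePreserving π ν μ := by
  refine ⟨measurable_of_isLocalHomeomorph hπ, ?_⟩
  refine Measure.AbsolutelyContinuous.mk fun s hs h0 => ?_
  rw [Measure.map_apply (measurable_of_isLocalHomeomorph hπ) hs,
    h.null_iff hπ (measurable_of_isLocalHomeomorph hπ hs)]
  exact measure_mono_null (image_preimage_subset _ _) h0

/-- A property which holds a.e. on `V` holds a.e. on `X`. -/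
theorem IsLift.ae_comp (hπ : IsLocalHomeomorph π) (h : IsLift π μ ν) {p : V → Prop}
    (hp : ∀ᵐ v ∂μ, p v) : ∀ᵐ x ∂ν, p (π x) :=
  (h.quasiMeasurePreserving hπ).ae hp

/-! ### Change of variables -/

/-- The measure on the image of a set on which `π` is injective. -/
theorem IsLift.map_comap (hπ : IsLocalHomeomorph π) (h : IsLift π μ ν) {U : Set X}
    (hU : MeasurableSet U) (hi : InjOn π U) :
    (Measure.comap (Subtype.val : U → X) ν).map (fun x : U => π x) = μ.restrict (π '' U) := by
  have hE := measurableEmbedding_of_injOn hπ hU hi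
  ext t ht
  rw [hE.map_apply, Measure.restrict_apply ht,
    (MeasurableEmbedding.subtype_coe hU).comap_apply, h]
  · congr 1
    ext v
    constructor
    · rintro ⟨_, ⟨x, hx, rfl⟩, rfl⟩
      exact ⟨hx, x, x.2, rfl⟩
    · rintro ⟨hv, x, hx, rfl⟩
      exact ⟨x, ⟨⟨x, hx⟩, hv, rfl⟩, rfl⟩
  · exact hU.subtype_image (hE.measurable ht)
  · exact hi.mono (Subtype.coe_image_subset _ _)

theorem IsLift.map_restrict (hπ : IsLocalHomeomorph π) (h : IsLift π μ ν) {U : Set X}
    (hU : MeasurableSet U) (hi : InjOn π U) : (ν.restrict U).map π = μ.restrict (π '' U) := by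
  rw [← h.map_comap hπ hU hi]
  have hE := measurableEmbedding_of_injOn hπ hU hi
  ext t ht
  rw [hE.map_apply, Measure.map_apply (measurable_of_isLocalHomeomorph hπ) ht,
    Measure.restrict_apply (measurable_of_isLocalHomeomorph hπ ht),
    (MeasurableEmbedding.subtype_coe hU).comap_apply]
  congr 1
  ext x
  constructor
  · rintro ⟨h1, h2⟩
    exact ⟨⟨x, h2⟩, h1, rfl⟩
  · rintro ⟨y, hy, rfl⟩
    exact ⟨hy, y.2⟩

/-- Change of variables for the Lebesgue integral. -/
theorem IsLift.setLIntegral_image (hπ : IsLocalHomeomorph π) (h : IsLift π μ ν) {U : Set X}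
    (hU : MeasurableSet U) (hi : InjOn π U) (g : V → ℝ≥0∞) :
    ∫⁻ v in π '' U, g v ∂μ = ∫⁻ x in U, g (π x) ∂ν := by
  rw [← h.map_comap hπ hU hi, (measurableEmbedding_of_injOn hπ hU hi).lintegral_map]
  rw [← lintegral_subtype_comap hU]

variable {W : Type*} [NormedAddCommGroup W]

/-- Change of variables for the Bochner integral. -/
theorem IsLift.setIntegral_image [NormedSpace ℝ W] (hπ : IsLocalHomeomorph π) (h : IsLift π μ ν)
    {U : Set X} (hU : MeasurableSet U) (hi : InjOn π U) (g : V → W) :
    ∫ v in π '' U, g v ∂μ = ∫ x in U, g (π x) ∂ν := by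
  rw [← h.map_comap hπ hU hi, (measurableEmbedding_of_injOn hπ hU hi).integral_map]
  rw [← integral_subtype_comap hU]

theorem IsLift.aestronglyMeasurable_image (hπ : IsLocalHomeomorph π) (h : IsLift π μ ν)
    {U : Set X} (hU : MeasurableSet U) (hi : InjOn π U) (g : V → W) :
    AEStronglyMeasurable g (μ.restrict (π '' U)) ↔
      AEStronglyMeasurable (fun x => g (π x)) (ν.restrict U) := by
  rw [← h.map_comap hπ hU hi, (measurableEmbedding_of_injOn hπ hU hi).aestronglyMeasurable_map_iff]
  have h1 := (MeasurableEmbedding.subtype_coe hU).aestronglyMeasurable_map_iff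
    (μ := Measure.comap Subtype.val ν) (g := fun x => g (π x))
  rw [MeasurableEmbedding.map_comap (MeasurableEmbedding.subtype_coe hU), Subtype.range_coe] at h1
  exact h1.symm

theorem IsLift.integrableOn_image (hπ : IsLocalHomeomorph π) (h : IsLift π μ ν)
    {U : Set X} (hU : MeasurableSet U) (hi : InjOn π U) (g : V → W) :
    IntegrableOn g (π '' U) μ ↔ IntegrableOn (fun x => g (π x)) U ν := by
  have h1 : Integrable (fun x => g (π x)) ((Measure.comap (Subtype.val : U → X) ν).map Subtype.val) ↔
      Integrable ((fun x => g (π x)) ∘ (Subtype.val : U → X)) (Measure.comap Subtype.val ν) :=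
    (MeasurableEmbedding.subtype_coe hU).integrable_map_iff
  rw [MeasurableEmbedding.map_comap (MeasurableEmbedding.subtype_coe hU), Subtype.range_coe] at h1
  unfold IntegrableOn
  rw [h1, ← h.map_comap hπ hU hi, (measurableEmbedding_of_injOn hπ hU hi).integrable_map_iff]
  rfl

theorem IsLift.memLp_image (hπ : IsLocalHomeomorph π) (h : IsLift π μ ν) (p : ℝ≥0∞)
    {U : Set X} (hU : MeasurableSet U) (hi : InjOn π U) (g : V → W) :
    MemLp g p (μ.restrict (π '' U)) ↔ MemLp (fun x => g (π x)) p (ν.restrict U) := by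
  have h1 := (MeasurableEmbedding.subtype_coe hU).memLp_map_measure_iff
    (μ := Measure.comap Subtype.val ν) (g := fun x => g (π x)) (p := p)
  rw [MeasurableEmbedding.map_comap (MeasurableEmbedding.subtype_coe hU), Subtype.range_coe] at h1
  rw [h1, ← h.map_comap hπ hU hi, (measurableEmbedding_of_injOn hπ hU hi).memLp_map_measure_iff]
  rfl

theorem IsLift.eLpNorm_image (hπ : IsLocalHomeomorph π) (h : IsLift π μ ν) (p : ℝ≥0∞)
    {U : Set X} (hU : MeasurableSet U) (hi : InjOn π U) (g : V → W) :
    eLpNorm g p (μ.restrict (π '' U)) = eLpNorm (fun x => g (π x)) p (ν.restrict U) := by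
  have h1 := (MeasurableEmbedding.subtype_coe hU).eLpNorm_map_measure
    (μ := Measure.comap Subtype.val ν) (g := fun x => g (π x)) (p := p)
  rw [MeasurableEmbedding.map_comap (MeasurableEmbedding.subtype_coe hU), Subtype.range_coe] at h1
  rw [h1, ← h.map_comap hπ hU hi, (measurableEmbedding_of_injOn hπ hU hi).eLpNorm_map_measure]
  rfl

/-! ### The same with a section `s` of `π` over `π '' U` -/

/-- `∫_U f dν = ∫_{π(U)} f ∘ s dμ`. -/
theorem IsLift.setIntegral_section [NormedSpace ℝ W] (hπ : IsLocalHomeomorph π)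
    (h : IsLift π μ ν) {U : Set X} (hU : MeasurableSet U) (hi : InjOn π U) {s : V → X}
    (hs : ∀ x ∈ U, s (π x) = x) (f : X → W) :
    ∫ x in U, f x ∂ν = ∫ v in π '' U, f (s v) ∂μ := by
  rw [h.setIntegral_image hπ hU hi]
  refine setIntegral_congr_fun hU fun x hx => ?_
  simp only [hs x hx]

/-- A function supported in `U`. -/
theorem IsLift.integral_section [NormedSpace ℝ W] (hπ : IsLocalHomeomorph π)
    (h : IsLift π μ ν) {U : Set X} (hU : MeasurableSet U) (hi : InjOn π U) {s : V → X}
    (hs : ∀ x ∈ U, s (π x) = x) {f : X → W} (hf : ∀ x ∉ U, f x = 0) :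
    ∫ x, f x ∂ν = ∫ v in π '' U, f (s v) ∂μ := by
  rw [← h.setIntegral_section hπ hU hi hs, setIntegral_eq_integral_of_forall_compl_eq_zero hf]

theorem IsLift.setLIntegral_section (hπ : IsLocalHomeomorph π)
    (h : IsLift π μ ν) {U : Set X} (hU : MeasurableSet U) (hi : InjOn π U) {s : V → X}
    (hs : ∀ x ∈ U, s (π x) = x) (f : X → ℝ≥0∞) :
    ∫⁻ x in U, f x ∂ν = ∫⁻ v in π '' U, f (s v) ∂μ := by
  rw [h.setLIntegral_image hπ hU hi]
  refine setLIntegral_congr_fun hU fun x hx => ?_
  simp only [hs x hx]

theorem IsLift.lintegral_section (hπ : IsLocalHomeomorph π)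
    (h : IsLift π μ ν) {U : Set X} (hU : MeasurableSet U) (hi : InjOn π U) {s : V → X}
    (hs : ∀ x ∈ U, s (π x) = x) {f : X → ℝ≥0∞} (hf : ∀ x ∉ U, f x = 0) :
    ∫⁻ x, f x ∂ν = ∫⁻ v in π '' U, f (s v) ∂μ := by
  rw [← h.setLIntegral_section hπ hU hi hs, ← lintegral_indicator hU]
  refine lintegral_congr fun x => ?_
  by_cases hx : x ∈ U
  · rw [indicator_of_mem hx]
  · rw [indicator_of_notMem hx, hf x hx]

theorem IsLift.integrableOn_section (hπ : IsLocalHomeomorph π)
    (h : IsLift π μ ν) {U : Set X} (hU : MeasurableSet U) (hi : InjOn π U) {s : V → X}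
    (hs : ∀ x ∈ U, s (π x) = x) (f : X → W) :
    IntegrableOn f U ν ↔ IntegrableOn (fun v => f (s v)) (π '' U) μ := by
  rw [h.integrableOn_image hπ hU hi]
  exact integrableOn_congr_fun (fun x hx => by simp only [hs x hx]) hU

theorem IsLift.memLp_section (hπ : IsLocalHomeomorph π)
    (h : IsLift π μ ν) (p : ℝ≥0∞) {U : Set X} (hU : MeasurableSet U) (hi : InjOn π U) {s : V → X}
    (hs : ∀ x ∈ U, s (π x) = x) (f : X → W) :
    MemLp f p (ν.restrict U) ↔ MemLp (fun v => f (s v)) p (μ.restrict (π '' U)) := by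
  rw [h.memLp_image hπ p hU hi]
  refine memLp_congr_ae ?_
  filter_upwards [ae_restrict_mem hU] with x hx
  simp only [hs x hx]

/-! ### Counting of fibres -/

omit [TopologicalSpace V] [MeasurableSpace V] [BorelSpace V] [TopologicalSpace X]
  [MeasurableSpace X] [BorelSpace X] [SecondCountableTopology X] in
lemma tsum_indicator_image {D : ℕ → Set X} (hdis : Pairwise (Function.onFun Disjoint D))
    (hc : ⋃ n, D n = univ) (hinj : ∀ n, InjOn π (D n)) (v : V) :
    ∑' n, (π '' D n).indicator (1 : V → ℝ≥0∞) v = ((π ⁻¹' {v}).encard : ℝ≥0∞) := by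
  have h1 : ∀ n, (π '' D n).indicator (1 : V → ℝ≥0∞) v =
      ({n | v ∈ π '' D n} : Set ℕ).indicator (fun _ => (1 : ℝ≥0∞)) n := by
    intro n
    by_cases hn : v ∈ π '' D n
    · rw [indicator_of_mem hn, indicator_of_mem (by exact hn)]
      rfl
    · rw [indicator_of_notMem hn, indicator_of_notMem (by exact hn)]
  rw [tsum_congr h1, ← tsum_subtype, ENNReal.tsum_set_one]
  congr 1
  have hex : ∀ x : X, ∃ n, x ∈ D n := fun x => by
    have : x ∈ ⋃ n, D n := by rw [hc]; exact mem_univ x
    exact mem_iUnion.1 this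
  choose N hN using hex
  have hNu : ∀ x n, x ∈ D n → n = N x := by
    intro x n hx
    by_contra hne
    exact disjoint_left.1 (hdis hne) hx (hN x)
  have h2 : ({n | v ∈ π '' D n} : Set ℕ) = N '' (π ⁻¹' {v}) := by
    ext n
    constructor
    · rintro ⟨x, hx, hxv⟩
      exact ⟨x, hxv, (hNu x n hx).symm⟩
    · rintro ⟨x, hx, rfl⟩
      exact ⟨x, hN x, hx⟩
  rw [h2, InjOn.encard_image]
  intro x hx y hy hxy
  refine hinj (N x) (hN x) (by rw [hxy]; exact hN y) ?_
  rw [mem_preimage, mem_singleton_iff] at hx hy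
  rw [hx, hy]

/-- Integration over the fibres. -/
theorem IsLift.lintegral_comp (hπ : IsLocalHomeomorph π) (h : IsLift π μ ν) {g : V → ℝ≥0∞}
    (hg : Measurable g) :
    ∫⁻ x, g (π x) ∂ν = ∫⁻ v, ((π ⁻¹' {v}).encard : ℝ≥0∞) * g v ∂μ := by
  obtain ⟨D, hD, hdis, hc, hinj, -⟩ := exists_partition hπ
  have h1 : ∫⁻ x, g (π x) ∂ν = ∑' n, ∫⁻ x in D n, g (π x) ∂ν := by
    rw [← lintegral_iUnion hD hdis, hc, setLIntegral_univ]
  rw [h1]
  have h2 : ∀ n, ∫⁻ x in D n, g (π x) ∂ν = ∫⁻ v, (π '' D n).indicator 1 v * g v ∂μ := by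
    intro n
    rw [← h.setLIntegral_image hπ (hD n) (hinj n), ← lintegral_indicator
      (measurableSet_image hπ (hD n))]
    refine lintegral_congr fun v => ?_
    by_cases hv : v ∈ π '' D n
    · rw [indicator_of_mem hv, indicator_of_mem hv, Pi.one_apply, one_mul]
    · rw [indicator_of_notMem hv, indicator_of_notMem hv, zero_mul]
  rw [tsum_congr h2, ← lintegral_tsum]
  · refine lintegral_congr fun v => ?_
    rw [ENNReal.tsum_mul_right, tsum_indicator_image hdis hc hinj]
  · intro n
    exact ((measurable_one.indicator (measurableSet_image hπ (hD n))).mul hg).aemeasurable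

/-- Integration over the fibres of a finite covering outside of a null set. -/
theorem IsLift.lintegral_comp_of_card (hπ : IsLocalHomeomorph π) (h : IsLift π μ ν) {d : ℕ}
    (hd : ∀ᵐ v ∂μ, (π ⁻¹' {v}).encard = d) {g : V → ℝ≥0∞} (hg : Measurable g) :
    ∫⁻ x, g (π x) ∂ν = d * ∫⁻ v, g v ∂μ := by
  rw [h.lintegral_comp hπ hg, ← lintegral_const_mul _ hg]
  refine lintegral_congr_ae ?_
  filter_upwards [hd] with v hv
  rw [hv]
  simp

/-- The measure of a preimage. -/
theorem IsLift.preimage_of_card (hπ : IsLocalHomeomorph π) (h : IsLift π μ ν) {d : ℕ}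
    (hd : ∀ᵐ v ∂μ, (π ⁻¹' {v}).encard = d) {B : Set V} (hB : MeasurableSet B) :
    ν (π ⁻¹' B) = d * μ B := by
  have h1 := h.lintegral_comp_of_card hπ hd (g := B.indicator 1) (measurable_one.indicator hB)
  rw [lintegral_indicator_one hB] at h1
  rw [← h1, ← lintegral_indicator_one (measurable_of_isLocalHomeomorph hπ hB)]
  rfl

end Lift

section Chart

variable {V : Type*} [NormedAddCommGroup V] [NormedSpace ℝ V] [MeasurableSpace V] [BorelSpace V]
variable {X : Type*} [TopologicalSpace X] [MeasurableSpace X] [BorelSpace X]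
  [SecondCountableTopology X]
variable {π : X → V} {μ : Measure V} {ν : Measure X}

omit [NormedSpace ℝ V] [MeasurableSpace V] [BorelSpace V] [MeasurableSpace X] [BorelSpace X]
  [SecondCountableTopology X] in
lemma injOn_lchart [NormedSpace ℝ V] (hπ : IsLocalHomeomorph π) (x : X) :
    InjOn π (lchart hπ x).source := by
  have h := (lchart hπ x).injOn
  rw [lchart_eq] at h
  exact h

omit [NormedSpace ℝ V] [MeasurableSpace V] [BorelSpace V] [MeasurableSpace X] [BorelSpace X]
  [SecondCountableTopology X] in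
lemma lsec_left_inv [NormedSpace ℝ V] (hπ : IsLocalHomeomorph π) (x : X) {y : X}
    (hy : y ∈ (lchart hπ x).source) : lsec hπ x (π y) = y := by
  have h := (lchart hπ x).left_inv hy
  rw [lchart_eq] at h
  exact h

omit [NormedSpace ℝ V] [MeasurableSpace V] [BorelSpace V] [MeasurableSpace X] [BorelSpace X]
  [SecondCountableTopology X] in
lemma image_lchart [NormedSpace ℝ V] (hπ : IsLocalHomeomorph π) (x : X) :
    π '' (lchart hπ x).source = (lchart hπ x).target := by
  have h := (lchart hπ x).image_source_eq_target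
  rw [lchart_eq] at h
  exact h

/-- The integral of a function supported in a chart. -/
theorem IsLift.integral_lchart {W : Type*} [NormedAddCommGroup W] [NormedSpace ℝ W]
    (hπ : IsLocalHomeomorph π) (h : IsLift π μ ν) (x : X) {f : X → W}
    (hf : ∀ y ∉ (lchart hπ x).source, f y = 0) :
    ∫ y, f y ∂ν = ∫ v in (lchart hπ x).target, f (lsec hπ x v) ∂μ := by
  rw [← image_lchart]
  exact h.integral_section hπ (lchart hπ x).open_source.measurableSet (injOn_lchart hπ x)
    (fun y hy => lsec_left_inv hπ x hy) hf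

theorem IsLift.lintegral_lchart (hπ : IsLocalHomeomorph π) (h : IsLift π μ ν) (x : X)
    {f : X → ℝ≥0∞} (hf : ∀ y ∉ (lchart hπ x).source, f y = 0) :
    ∫⁻ y, f y ∂ν = ∫⁻ v in (lchart hπ x).target, f (lsec hπ x v) ∂μ := by
  rw [← image_lchart]
  exact h.lintegral_section hπ (lchart hπ x).open_source.measurableSet (injOn_lchart hπ x)
    (fun y hy => lsec_left_inv hπ x hy) hf

theorem IsLift.integrableOn_lchart {W : Type*} [NormedAddCommGroup W]
    (hπ : IsLocalHomeomorph π) (h : IsLift π μ ν) (x : X) (f : X → W) :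
    IntegrableOn f (lchart hπ x).source ν ↔
      IntegrableOn (fun v => f (lsec hπ x v)) (lchart hπ x).target μ := by
  rw [← image_lchart]
  exact h.integrableOn_section hπ (lchart hπ x).open_source.measurableSet (injOn_lchart hπ x)
    (fun y hy => lsec_left_inv hπ x hy) f

end Chart

end EH
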