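import Pool.Agent.Work.MP_9eee85_co.EH.GArea
import Pool.Agent.Work.MP_9eee85_co.EH.GFib
import Pool.Agent.Work.MP_9eee85_co.EH.LMeas

/-!
The family of a finite set of elements of a function field.
-/

noncomputable section

namespace EH

open MeasureTheory Filter Topology Set Module EHPos EHX
open scoped ContDiff

section

variable {F : Type} [Field F] [Algebra ℂ F] (M : Model 5 F)

/-- the lift of the Lebesgue measure exists -/
theorem exists_lift {X : Type} [TopologicalSpace X] [T2Space X] [SecondCountableTopology X]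
    [MeasurableSpace X] [BorelSpace X] {π : X → Bs} (hπ : IsLocalHomeomorph π) :
    ∃ ν : Measure X, IsLift π volume ν :=
  exists_isLift hπ volume

/-- regular functions are holomorphic -/
theorem hol_ev (a : M.A) : Hol M.isLocalHomeomorph_proj (fun x => M.ev x a) where
  sm := M.lsm_ev a ⊤
  cr x j := by
    have h := M.LD_restrict (Φ := M.fn a) (x := x) (M.contDiffAt_fn a x.2.1)
    have h2 : LD M.isLocalHomeomorph_proj (fun x => M.ev x a) x = _ := h
    rw [h2]
    have h3 : bv (yi j) = Complex.I • bv (xi j) := by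
      rw [EHX.bv_xi, EHX.bv_yi, ← Pi.single_smul, smul_eq_mul, mul_one]
    rw [h3, ContinuousLinearMap.coe_restrictScalars', map_smul, smul_eq_mul]

/-- the functions of a model: the given ones, the coordinates and `1/h` -/
def famFun {ι : Type} (f : ι → M.A) : ι ⊕ Fin 5 ⊕ Unit → M.A
  | Sum.inl i => f i
  | Sum.inr (Sum.inl j) => ⟨M.z j, M.z_mem j⟩
  | Sum.inr (Sum.inr _) => ⟨M.hF⁻¹, M.hinv_mem⟩

private theorem psi_nonneg' {X : Type} (f : X → ℂ) (x : X) : 0 ≤ psi f x :=
  Real.log_nonneg (by nlinarith [sq_nonneg ‖f x‖])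

private theorem norm_le_of_psi {X : Type} {f : X → ℂ} {x : X} {c : ℝ} (h : psi f x ≤ c) :
    ‖f x‖ ≤ Real.exp c := by
  have h1 : 1 + ‖f x‖ ^ 2 ≤ Real.exp c := by
    rw [← Real.exp_log (show (0:ℝ) < 1 + ‖f x‖ ^ 2 by positivity)]
    exact Real.exp_le_exp.mpr h
  nlinarith [sq_nonneg (‖f x‖ - 1), norm_nonneg (f x)]

theorem ev_hinv (x : M.X) : M.ev x ⟨M.hF⁻¹, M.hinv_mem⟩ = (MvPolynomial.eval (M.proj x) M.h)⁻¹ := by
  have h1 := M.ev_spec x ⟨M.hF⁻¹, M.hinv_mem⟩ M.hinv_rep
  rw [pow_one, map_one] at h1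
  exact eq_inv_of_mul_eq_one_left h1

/-- the exhaustion is proper -/
theorem proper_fam {ι : Type} [Fintype ι] (f : ι → M.A) (c : ℝ) :
    IsCompact {x : M.X | ∑ j, psi (fun x => M.ev x (famFun M f j)) x ≤ c} := by
  obtain ⟨B, ⟨C, hC, m, hB⟩, hB0, hBf⟩ := M.fib_growth
  set R : ℝ := Real.exp c with hR
  have hR0 : 0 < R := Real.exp_pos c
  set R' : ℝ := C * (1 + R) ^ m with hR'
  -- the compact set in `ℂ⁵ × ℂ`
  set K₀ : Set ((Fin 5 → ℂ) × ℂ) := {v | v ∈ Metric.closedBall 0 (max R R') ∧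
    R⁻¹ ≤ ‖MvPolynomial.eval v.1 M.h‖ ∧ M.G v = 0} with hK₀
  have hK₀c : IsCompact K₀ := by
    have h1 : IsClosed {v : (Fin 5 → ℂ) × ℂ | R⁻¹ ≤ ‖MvPolynomial.eval v.1 M.h‖ ∧ M.G v = 0} := by
      refine IsClosed.inter ?_ ?_
      · exact isClosed_le continuous_const
          (((MvPolynomial.continuous_eval M.h).comp continuous_fst).norm)
      · exact isClosed_eq (M.contDiff_G.continuous) continuous_const
    exact (isCompact_closedBall 0 _).inter_right h1
  have hK₀X : K₀ ⊆ M.XSet := by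
    rintro v ⟨_, h1, h2⟩
    refine ⟨?_, h2⟩
    show MvPolynomial.eval v.1 M.h ≠ 0
    intro h0
    rw [h0, norm_zero] at h1
    exact absurd h1 (not_le.mpr (inv_pos.mpr hR0))
  have hKc : IsCompact ((Subtype.val : M.X → _) ⁻¹' K₀) := by
    rw [Subtype.isCompact_iff, Subtype.image_preimage_coe, inter_eq_right.mpr hK₀X]
    exact hK₀c
  have hcl : IsClosed {x : M.X | ∑ j, psi (fun x => M.ev x (famFun M f j)) x ≤ c} := by
    refine isClosed_le ?_ continuous_const
    refine continuous_finsetSum _ fun j _ => ?_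
    have h1 : Continuous fun x => M.ev x (famFun M f j) := M.continuous_ev _
    have h2 : ∀ x : M.X, (1:ℝ) + ‖M.ev x (famFun M f j)‖ ^ 2 ≠ 0 := fun x => by positivity
    exact (continuous_const.add (h1.norm.pow 2)).log h2
  refine hKc.of_isClosed_subset hcl ?_
  intro x hx
  have hterm : ∀ j, psi (fun x => M.ev x (famFun M f j)) x ≤ c := fun j =>
    (Finset.single_le_sum (f := fun j => psi (fun x => M.ev x (famFun M f j)) x)
      (fun i _ => psi_nonneg' _ _) (Finset.mem_univ j)).trans hx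
  have hz : ∀ i, ‖M.proj x i‖ ≤ R := by
    intro i
    have h1 := norm_le_of_psi (hterm (Sum.inr (Sum.inl i)))
    simp only [famFun] at h1
    rwa [M.ev_z] at h1
  have hzn : ‖M.proj x‖ ≤ R := (pi_norm_le_iff_of_nonneg hR0.le).mpr hz
  have hy : ‖M.yc x‖ ≤ R' := by
    have h1 := hBf (M.proj x) (M.yc x) (M.mem_XSet_iff.mp x.2).2
    refine h1.trans ((hB _).trans ?_)
    exact mul_le_mul_of_nonneg_left (pow_le_pow_left₀ (by positivity) (by linarith) _) hC
  refine ⟨?_, ?_, x.2.2⟩
  · rw [mem_closedBall_zero_iff, Prod.norm_def]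
    exact max_le_max hzn hy
  · have h1 := norm_le_of_psi (hterm (Sum.inr (Sum.inr ())))
    simp only [famFun] at h1
    rw [ev_hinv, norm_inv] at h1
    have h2 : 0 < ‖MvPolynomial.eval (M.proj x) M.h‖ := norm_pos_iff.mpr x.2.1
    exact (inv_le_comm₀ h2 hR0).mp h1

/-- the family -/
def mkFam {ν : Measure M.X} (hν : IsLift M.proj volume ν) {ι : Type} [Fintype ι] (f : ι → M.A) :
    Fam M.isLocalHomeomorph_proj ν (ι ⊕ Fin 5 ⊕ Unit) where
  lift := hν
  g := fun j x => M.ev x (famFun M f j)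
  hol := fun j => hol_ev M _
  z := fun j => Sum.inr (Sum.inl j)
  gz := fun j x => M.ev_z x j
  proper := proper_fam M f
  fin := fun t => by
    obtain ⟨Z, hZ, h⟩ := fibre_count M (fun i => famFun M f (t i))
    exact (integral_theta hν (fun i => hol_ev M _) hZ h).1

end

end EH
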