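import Pool.Agent.Work.MP_9eee85_co.EH.GQKP
import Pool.Agent.Work.MP_9eee85_co.EH.GModel

/-!
`QKPTheorem`.
-/

noncomputable section

namespace EH

open MeasureTheory Filter Topology Set Module EHPos EHX
open scoped ContDiff

theorem qkpTheorem : QKPTheorem := by
  obtain ⟨C, hC⟩ := exists_qkp
  refine ⟨C, ?_⟩
  rintro F _ _ ⟨z, hz, hfin⟩ ι _ f
  classical
  obtain ⟨M, hMz, hS⟩ := exists_model hz (Finset.univ.image f)
  have hf : ∀ i, f i ∈ M.A := fun i => hS (f i) (by simp)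
  let f' : ι → M.A := fun i => ⟨f i, hf i⟩
  obtain ⟨ν, hν⟩ := exists_lift M.isLocalHomeomorph_proj
  refine hC (mkFam M hν f') ι Sum.inl _ fun t => ?_
  obtain ⟨Z, hZ, h⟩ := fibre_count M (fun i => f' (t i))
  exact (integral_theta hν (fun i => hol_ev M _) hZ h).2

end EH
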