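import Pool.Agent.Work.MP_9eee85_co.EH.AlgDefs

/-!
# ALG2: the exact Kähler package of the example is contradictory

* `AF Q`: the form `Q` has at most one positive square, in the form which passes to limits;
* `af_ker`: `Q v v > 0`, `Q v k = 0`, `Q k k = 0` imply `Q k = 0`;
* the forms `mix w w w` (`w ≥ 0`), `T x y q` and `T x q q` (`x`, `y` letters) are `AF`;
* `limContra`.
-/

noncomputable section

namespace EH

namespace LimC

open Finset Filter Topology

section forms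

variable {V : Type*} [AddCommGroup V] [Module ℝ V]

/-- at most one positive square -/
def AF (Q : V →ₗ[ℝ] V →ₗ[ℝ] ℝ) : Prop := ∀ v D : V, 0 < Q v v → Q v v * Q D D ≤ (Q v D) ^ 2

lemma af_of_smul {Q : V →ₗ[ℝ] V →ₗ[ℝ] ℝ} {c : ℝ} (hc : 0 < c) (h : AF (c • Q)) : AF Q := by
  intro v D hv
  have h1 := h v D (by simp only [LinearMap.smul_apply, smul_eq_mul]; positivity)
  simp only [LinearMap.smul_apply, smul_eq_mul] at h1
  have h2 : c ^ 2 * (Q v v * Q D D) ≤ c ^ 2 * (Q v D) ^ 2 := by nlinarith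
  exact le_of_mul_le_mul_left h2 (by positivity)

lemma af_limit {ι : Type*} {l : Filter ι} [l.NeBot] {Q : ι → V →ₗ[ℝ] V →ₗ[ℝ] ℝ}
    {Q' : V →ₗ[ℝ] V →ₗ[ℝ] ℝ} (h : ∀ v D, Tendsto (fun i => Q i v D) l (𝓝 (Q' v D)))
    (hQ : ∀ᶠ i in l, AF (Q i)) : AF Q' := by
  intro v D hv
  have h1 : ∀ᶠ i in l, 0 < Q i v v := (h v v).eventually (lt_mem_nhds hv)
  refine le_of_tendsto_of_tendsto ((h v v).mul (h D D)) ((h v D).pow 2) ?_
  filter_upwards [h1, hQ] with i hi hAF using hAF v D hi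

lemma af_of_hr1 {Q : V →ₗ[ℝ] V →ₗ[ℝ] ℝ} (hs : ∀ D D', Q D D' = Q D' D) {ω : V}
    (h0 : 0 < Q ω ω) (h : ∀ D, Q ω ω * Q D D ≤ (Q ω D) ^ 2) : AF Q := by
  intro v D hv
  have hb : Q ω v ≠ 0 := by
    intro hb
    have h1 := h v
    rw [hb] at h1
    nlinarith [mul_pos h0 hv]
  by_contra hcon
  push Not at hcon
  obtain ⟨D', hD'⟩ : ∃ D', D' = Q v v • D - Q v D • v := ⟨_, rfl⟩
  have hvD' : Q v D' = 0 := by
    rw [hD']; simp only [map_sub, map_smul, smul_eq_mul]; ring
  have hD'v : Q D' v = 0 := by rw [hs, hvD']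
  have hDD : Q D' D' = Q v v * (Q v v * Q D D - (Q v D) ^ 2) := by
    have e1 : ∀ z, Q D' z = Q v v * Q D z - Q v D * Q v z := by
      intro z
      rw [hD']
      simp only [map_sub, map_smul, LinearMap.sub_apply, LinearMap.smul_apply, smul_eq_mul]
    have e2 : Q D D' = Q v v * Q D D - Q v D * Q D v := by
      rw [hD']; simp only [map_sub, map_smul, smul_eq_mul]
    rw [e1, e2, hvD', hs D v]; ring
  have hpos : 0 < Q D' D' := by
    rw [hDD]; exact mul_pos hv (by linarith)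
  have h1 := h (Q ω v • D' - Q ω D' • v)
  have hx : Q ω (Q ω v • D' - Q ω D' • v) = 0 := by
    simp only [map_sub, map_smul, smul_eq_mul]; ring
  have hxx : Q (Q ω v • D' - Q ω D' • v) (Q ω v • D' - Q ω D' • v) =
      (Q ω v) ^ 2 * Q D' D' + (Q ω D') ^ 2 * Q v v := by
    simp only [map_sub, map_smul, LinearMap.sub_apply, LinearMap.smul_apply, smul_eq_mul, hvD',
      hD'v]
    ring
  rw [hx, hxx] at h1
  have h2 : 0 < (Q ω v) ^ 2 * Q D' D' := mul_pos (by positivity) hpos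
  have h3 : 0 ≤ (Q ω D') ^ 2 * Q v v := mul_nonneg (sq_nonneg _) hv.le
  nlinarith [mul_pos h0 (add_pos_of_pos_of_nonneg h2 h3)]

lemma af_ker {Q : V →ₗ[ℝ] V →ₗ[ℝ] ℝ} (hs : ∀ D D', Q D D' = Q D' D) (h : AF Q) {v k : V}
    (hv : 0 < Q v v) (hvk : Q v k = 0) (hk : Q k k = 0) (D : V) : Q k D = 0 := by
  have key : ∀ s : ℝ, Q v v * (2 * s * Q k D + s ^ 2 * Q D D) ≤ s ^ 2 * (Q v D) ^ 2 := by
    intro s
    have h1 := h v (k + s • D) hv
    have e1 : Q (k + s • D) (k + s • D) = 2 * s * Q k D + s ^ 2 * Q D D := by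
      simp only [map_add, map_smul, LinearMap.add_apply, LinearMap.smul_apply, smul_eq_mul, hk,
        hs D k]
      ring
    have e2 : Q v (k + s • D) = s * Q v D := by
      simp only [map_add, map_smul, smul_eq_mul, hvk]; ring
    rw [e1, e2] at h1
    linarith [h1, mul_pow s (Q v D) 2]
  obtain ⟨B, hB⟩ : ∃ B, B = (Q v D) ^ 2 - Q v v * Q D D := ⟨_, rfl⟩
  obtain ⟨A, hA⟩ : ∃ A, A = Q v v * Q k D := ⟨_, rfl⟩
  have key2 : ∀ s : ℝ, 2 * s * A ≤ s ^ 2 * B := by
    intro s; rw [hA, hB]; linarith [key s]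
  have hA0 : A = 0 := by
    have hpos : 0 < |B| + 1 := by positivity
    have h1 := key2 (A / (|B| + 1))
    have h2 : 2 * A ^ 2 * (|B| + 1) ≤ A ^ 2 * B := by
      have h3 := mul_le_mul_of_nonneg_right h1 (sq_nonneg (|B| + 1))
      have e1 : 2 * (A / (|B| + 1)) * A * (|B| + 1) ^ 2 = 2 * A ^ 2 * (|B| + 1) := by
        field_simp
      have e2 : (A / (|B| + 1)) ^ 2 * B * (|B| + 1) ^ 2 = A ^ 2 * B := by
        field_simp
      rw [e1, e2] at h3
      exact h3
    have h4 : A ^ 2 * B ≤ A ^ 2 * |B| := mul_le_mul_of_nonneg_left (le_abs_self B) (sq_nonneg A)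
    have h5 : 0 ≤ A ^ 2 * |B| := by positivity
    have h6 : A ^ 2 ≤ 0 := by nlinarith
    exact pow_eq_zero_iff (two_ne_zero) |>.mp (le_antisymm h6 (sq_nonneg A))
  rw [hA] at hA0
  exact (mul_eq_zero.mp hA0).resolve_left hv.ne'

end forms

/-! ### the mixed forms -/

section mixed

variable {κ U : Type*} [Fintype κ] [AddCommGroup U] [Module ℝ U]
  (T : κ → κ → κ → U →ₗ[ℝ] U →ₗ[ℝ] ℝ)

lemma mix_apply (a b c : κ → ℝ) (D D' : U) :
    mix T a b c D D' = ∑ i, ∑ j, ∑ k, a i * b j * c k * T i j k D D' := by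
  simp only [mix, LinearMap.sum_apply, LinearMap.smul_apply, smul_eq_mul]

lemma mix_add1 (a a' b c : κ → ℝ) : mix T (a + a') b c = mix T a b c + mix T a' b c := by
  ext D D'
  simp only [LinearMap.add_apply, mix_apply, ← Finset.sum_add_distrib, Pi.add_apply]
  refine sum_congr rfl fun i _ => sum_congr rfl fun j _ => sum_congr rfl fun k _ => by ring

lemma mix_smul1 (s : ℝ) (a b c : κ → ℝ) : mix T (s • a) b c = s • mix T a b c := by
  ext D D'
  simp only [LinearMap.smul_apply, mix_apply, smul_eq_mul, Pi.smul_apply, Finset.mul_sum]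
  refine sum_congr rfl fun i _ => sum_congr rfl fun j _ => sum_congr rfl fun k _ => by ring

variable {T}

lemma mix_swap12 (h12 : ∀ i j k, T i j k = T j i k) (a b c : κ → ℝ) :
    mix T a b c = mix T b a c := by
  ext D D'
  rw [mix_apply, mix_apply, sum_comm]
  refine sum_congr rfl fun i _ => sum_congr rfl fun j _ => sum_congr rfl fun k _ => ?_
  rw [h12]; ring

lemma mix_swap23 (h23 : ∀ i j k, T i j k = T i k j) (a b c : κ → ℝ) :
    mix T a b c = mix T a c b := by
  ext D D'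
  rw [mix_apply, mix_apply]
  refine sum_congr rfl fun i _ => ?_
  rw [sum_comm]
  refine sum_congr rfl fun j _ => sum_congr rfl fun k _ => ?_
  rw [h23]; ring

lemma mix_single [DecidableEq κ] (i j k : κ) :
    mix T (Pi.single i 1) (Pi.single j 1) (Pi.single k 1) = T i j k := by
  ext D D'
  rw [mix_apply, sum_eq_single i, sum_eq_single j, sum_eq_single k]
  · simp
  · intro k' _ h; simp [h]
  · intro h; exact absurd (mem_univ _) h
  · intro j' _ h; simp [h]
  · intro h; exact absurd (mem_univ _) h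
  · intro i' _ h; simp [h]
  · intro h; exact absurd (mem_univ _) h

/-- the cube of `p + s q` -/
lemma mix_cube (h12 : ∀ i j k, T i j k = T j i k) (h23 : ∀ i j k, T i j k = T i k j)
    (p q : κ → ℝ) (s : ℝ) :
    mix T (p + s • q) (p + s • q) (p + s • q) =
      mix T p p p + (3 * s) • mix T p p q + (3 * s ^ 2) • mix T p q q + (s ^ 3) • mix T q q q := by
  have a1 : ∀ a b c d : κ → ℝ, mix T (a + s • b) c d = mix T a c d + s • mix T b c d := by
    intro a b c d; rw [mix_add1, mix_smul1]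
  have a2 : ∀ a b c d : κ → ℝ, mix T c (a + s • b) d = mix T c a d + s • mix T c b d := by
    intro a b c d
    rw [mix_swap12 h12, a1, mix_swap12 h12 a c, mix_swap12 h12 b c]
  have a3 : ∀ a b c d : κ → ℝ, mix T c d (a + s • b) = mix T c d a + s • mix T c d b := by
    intro a b c d
    rw [mix_swap23 h23, a2, mix_swap23 h23 c a, mix_swap23 h23 c b]
  rw [a1, a2, a2, a3, a3, a3, a3]
  have e1 : mix T q p p = mix T p p q := by rw [mix_swap12 h12, mix_swap23 h23]
  have e2 : mix T p q p = mix T p p q := by rw [mix_swap23 h23]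
  have e3 : mix T q q p = mix T p q q := by rw [mix_swap23 h23, mix_swap12 h12]
  have e4 : mix T q p q = mix T p q q := by rw [mix_swap12 h12]
  rw [e1, e2, e3, e4]
  module

lemma mix_symm (hs : ∀ i j k D D', T i j k D D' = T i j k D' D) (a b c : κ → ℝ) (D D' : U) :
    mix T a b c D D' = mix T a b c D' D := by
  rw [mix_apply, mix_apply]
  refine sum_congr rfl fun i _ => sum_congr rfl fun j _ => sum_congr rfl fun k _ => ?_
  rw [hs]

/-- closure: forms with nonnegative weights -/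
lemma af_mix_nonneg (h12 : ∀ i j k, T i j k = T j i k) (h23 : ∀ i j k, T i j k = T i k j)
    (h : ∀ w : κ → ℝ, (∀ i, 0 < w i) → AF (mix T w w w)) (w : κ → ℝ) (hw : ∀ i, 0 ≤ w i) :
    AF (mix T w w w) := by
  have hs : ∀ᶠ s : ℝ in 𝓝[>] 0, AF (mix T (w + s • 1) (w + s • 1) (w + s • 1)) := by
    filter_upwards [self_mem_nhdsWithin] with s hs
    refine h _ fun i => ?_
    have : 0 < s := hs
    simp only [Pi.add_apply, Pi.smul_apply, Pi.one_apply, smul_eq_mul, mul_one]
    linarith [hw i]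
  refine af_limit (l := 𝓝[>] (0 : ℝ)) (fun v D => ?_) hs
  simp only [mix_cube h12 h23, LinearMap.add_apply, LinearMap.smul_apply, smul_eq_mul]
  refine Tendsto.mono_left ?_ nhdsWithin_le_nhds
  refine (Continuous.tendsto' ?_ 0 _ ?_)
  · fun_prop
  · simp

/-- the form `p p q` when `p p p = 0` -/
lemma af_ppq (h12 : ∀ i j k, T i j k = T j i k) (h23 : ∀ i j k, T i j k = T i k j)
    (h : ∀ w : κ → ℝ, (∀ i, 0 ≤ w i) → AF (mix T w w w)) {p q : κ → ℝ} (hp : ∀ i, 0 ≤ p i)
    (hq : ∀ i, 0 ≤ q i) (h0 : mix T p p p = 0) : AF (mix T p p q) := by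
  refine af_of_smul (c := 3) (by norm_num) ?_
  have hs : ∀ᶠ s : ℝ in 𝓝[>] 0,
      AF ((3 : ℝ) • mix T p p q + (3 * s) • mix T p q q + (s ^ 2) • mix T q q q) := by
    filter_upwards [self_mem_nhdsWithin] with s hs
    have hs' : 0 < s := hs
    refine af_of_smul hs' ?_
    have h1 := h (p + s • q) fun i => by
      simp only [Pi.add_apply, Pi.smul_apply, smul_eq_mul]
      have := hp i; have := hq i; positivity
    rw [mix_cube h12 h23, h0, zero_add] at h1
    have e : s • ((3 : ℝ) • mix T p p q + (3 * s) • mix T p q q + (s ^ 2) • mix T q q q) =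
      (3 * s) • mix T p p q + (3 * s ^ 2) • mix T p q q + (s ^ 3) • mix T q q q := by module
    rw [e]; exact h1
  refine af_limit (l := 𝓝[>] (0 : ℝ)) (fun v D => ?_) hs
  simp only [LinearMap.add_apply, LinearMap.smul_apply, smul_eq_mul]
  refine Tendsto.mono_left ?_ nhdsWithin_le_nhds
  refine (Continuous.tendsto' ?_ 0 _ ?_)
  · fun_prop
  · simp

/-- the form `p q q` when `p p p = 0` and `p p q = 0` -/
lemma af_pqq (h12 : ∀ i j k, T i j k = T j i k) (h23 : ∀ i j k, T i j k = T i k j)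
    (h : ∀ w : κ → ℝ, (∀ i, 0 ≤ w i) → AF (mix T w w w)) {p q : κ → ℝ} (hp : ∀ i, 0 ≤ p i)
    (hq : ∀ i, 0 ≤ q i) (h0 : mix T p p p = 0) (h1 : mix T p p q = 0) : AF (mix T p q q) := by
  refine af_of_smul (c := 3) (by norm_num) ?_
  have hs : ∀ᶠ s : ℝ in 𝓝[>] 0, AF ((3 : ℝ) • mix T p q q + s • mix T q q q) := by
    filter_upwards [self_mem_nhdsWithin] with s hs
    have hs' : 0 < s := hs
    refine af_of_smul (pow_pos hs' 2) ?_
    have h2 := h (p + s • q) fun i => by
      simp only [Pi.add_apply, Pi.smul_apply, smul_eq_mul]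
      have := hp i; have := hq i; positivity
    rw [mix_cube h12 h23, h0, h1, zero_add, smul_zero, zero_add] at h2
    have e : s ^ 2 • ((3 : ℝ) • mix T p q q + s • mix T q q q) =
      (3 * s ^ 2) • mix T p q q + (s ^ 3) • mix T q q q := by module
    rw [e]; exact h2
  refine af_limit (l := 𝓝[>] (0 : ℝ)) (fun v D => ?_) hs
  simp only [LinearMap.add_apply, LinearMap.smul_apply, smul_eq_mul]
  refine Tendsto.mono_left ?_ nhdsWithin_le_nhds
  refine (Continuous.tendsto' ?_ 0 _ ?_)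
  · fun_prop
  · simp

end mixed

/-! ### numbers -/

lemma cnt_pos {t : Fin 5 → Fin 7} {s : Fin 7} (r : Fin 5) (h : t r = s) : 0 < cnt t s := by
  unfold cnt
  apply List.length_pos_of_mem (a := s)
  rw [List.mem_filter]
  refine ⟨?_, by simp⟩
  rw [List.mem_ofFn]
  exact ⟨r, h⟩

lemma numZ_six {t : Fin 5 → Fin 7} (r : Fin 5) (h : t r = 6) : numZ t = 0 := by
  unfold numZ
  rw [if_pos]
  exact Or.inl (cnt_pos r h)

lemma numZ_nonneg (t : Fin 5 → Fin 7) : 0 ≤ numZ t := by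
  unfold numZ
  split_ifs with h1 h2
  · exact le_rfl
  · split <;> norm_num
  · split <;> norm_num

section

variable (L : Lim)

lemma num' (i j k l m : Fin 7) : L.T i j k (L.θ l) (L.θ m) = numZ ![i, j, k, l, m] :=
  L.num ![i, j, k, l, m]

lemma mix_θ (w : Fin 7 → ℝ) (D : L.V) :
    mix L.T w w w (comb L.θ w) D = ∑ i, ∑ j, ∑ k, ∑ l, w i * w j * w k * w l * L.T i j k (L.θ l) D := by
  rw [mix_apply]
  refine sum_congr rfl fun i _ => sum_congr rfl fun j _ => sum_congr rfl fun k _ => ?_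
  simp only [comb, map_sum, map_smul, LinearMap.sum_apply, LinearMap.smul_apply, smul_eq_mul,
    mul_sum]
  refine sum_congr rfl fun l _ => by ring

lemma mix_θθ (w : Fin 7 → ℝ) :
    mix L.T w w w (comb L.θ w) (comb L.θ w) =
      ∑ i, ∑ j, ∑ k, ∑ l, ∑ m, w i * w j * w k * w l * w m * numZ ![i, j, k, l, m] := by
  rw [mix_θ]
  refine sum_congr rfl fun i _ => sum_congr rfl fun j _ => sum_congr rfl fun k _ =>
    sum_congr rfl fun l _ => ?_
  conv_lhs => rw [comb]
  simp only [map_sum, map_smul, smul_eq_mul, mul_sum, num']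
  refine sum_congr rfl fun m _ => by ring

lemma mix_pos (w : Fin 7 → ℝ) (hw : ∀ i, 0 < w i) :
    0 < mix L.T w w w (comb L.θ w) (comb L.θ w) := by
  rw [mix_θθ]
  have hnn : ∀ i j k l m : Fin 7, 0 ≤ w i * w j * w k * w l * w m * (numZ ![i, j, k, l, m] : ℝ) := by
    intro i j k l m
    have h1 : (0 : ℝ) ≤ numZ ![i, j, k, l, m] := by exact_mod_cast numZ_nonneg _
    have := hw i; have := hw j; have := hw k; have := hw l; have := hw m
    positivity
  have h1 : (0 : ℝ) < w 1 * w 2 * w 3 * w 4 * w 5 * (numZ ![1, 2, 3, 4, 5] : ℝ) := by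
    have h2 : numZ ![1, 2, 3, 4, 5] = 1 := by decide
    rw [h2]
    have := hw 1; have := hw 2; have := hw 3; have := hw 4; have := hw 5
    positivity
  refine h1.trans_le ?_
  calc w 1 * w 2 * w 3 * w 4 * w 5 * (numZ ![1, 2, 3, 4, 5] : ℝ)
      ≤ ∑ m, w 1 * w 2 * w 3 * w 4 * w m * (numZ ![1, 2, 3, 4, m] : ℝ) :=
        single_le_sum (f := fun m => w 1 * w 2 * w 3 * w 4 * w m * (numZ ![1, 2, 3, 4, m] : ℝ))
          (fun m _ => hnn _ _ _ _ _) (mem_univ 5)
    _ ≤ ∑ l, ∑ m, w 1 * w 2 * w 3 * w l * w m * (numZ ![1, 2, 3, l, m] : ℝ) :=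
        single_le_sum (f := fun l => ∑ m, w 1 * w 2 * w 3 * w l * w m *
          (numZ ![1, 2, 3, l, m] : ℝ))
          (fun l _ => sum_nonneg fun m _ => hnn _ _ _ _ _) (mem_univ 4)
    _ ≤ ∑ k, ∑ l, ∑ m, w 1 * w 2 * w k * w l * w m * (numZ ![1, 2, k, l, m] : ℝ) :=
        single_le_sum (f := fun k => ∑ l, ∑ m, w 1 * w 2 * w k * w l * w m *
          (numZ ![1, 2, k, l, m] : ℝ))
          (fun k _ => sum_nonneg fun l _ => sum_nonneg fun m _ => hnn _ _ _ _ _) (mem_univ 3)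
    _ ≤ ∑ j, ∑ k, ∑ l, ∑ m, w 1 * w j * w k * w l * w m * (numZ ![1, j, k, l, m] : ℝ) :=
        single_le_sum (f := fun j => ∑ k, ∑ l, ∑ m, w 1 * w j * w k * w l * w m *
          (numZ ![1, j, k, l, m] : ℝ))
          (fun j _ => sum_nonneg fun k _ => sum_nonneg fun l _ => sum_nonneg fun m _ =>
            hnn _ _ _ _ _) (mem_univ 2)
    _ ≤ ∑ i, ∑ j, ∑ k, ∑ l, ∑ m, w i * w j * w k * w l * w m * (numZ ![i, j, k, l, m] : ℝ) :=
        single_le_sum (f := fun i => ∑ j, ∑ k, ∑ l, ∑ m, w i * w j * w k * w l * w m *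
          (numZ ![i, j, k, l, m] : ℝ))
          (fun i _ => sum_nonneg fun j _ => sum_nonneg fun k _ => sum_nonneg fun l _ =>
            sum_nonneg fun m _ => hnn _ _ _ _ _) (mem_univ 1)

lemma af_pos (w : Fin 7 → ℝ) (hw : ∀ i, 0 < w i) : AF (mix L.T w w w) :=
  af_of_hr1 (mix_symm L.symm w w w) (mix_pos L w hw) (L.hr1 w hw)

lemma af_nonneg (w : Fin 7 → ℝ) (hw : ∀ i, 0 ≤ w i) : AF (mix L.T w w w) :=
  af_mix_nonneg L.swap12 L.swap23 (af_pos L) w hw

/-! ### the auxiliary class -/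

lemma six_pos (w : Fin 7 → ℝ) (hw : ∀ i, 0 < w i) (D : L.V) : mix L.T w w w (L.θ 6) D = 0 := by
  refine af_ker (mix_symm L.symm w w w) (af_pos L w hw) (mix_pos L w hw) ?_ ?_ D
  · rw [mix_θ]
    refine sum_eq_zero fun i _ => sum_eq_zero fun j _ => sum_eq_zero fun k _ =>
      sum_eq_zero fun l _ => ?_
    rw [num', numZ_six 4 rfl]; simp
  · rw [mix_apply]
    refine sum_eq_zero fun i _ => sum_eq_zero fun j _ => sum_eq_zero fun k _ => ?_
    rw [num', numZ_six 4 rfl]; simp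

lemma six_nonneg (w : Fin 7 → ℝ) (hw : ∀ i, 0 ≤ w i) (D : L.V) :
    mix L.T w w w (L.θ 6) D = 0 := by
  have h1 : Tendsto (fun s : ℝ => mix L.T (w + s • 1) (w + s • 1) (w + s • 1) (L.θ 6) D)
      (𝓝[>] 0) (𝓝 (mix L.T w w w (L.θ 6) D)) := by
    simp only [mix_cube L.swap12 L.swap23, LinearMap.add_apply, LinearMap.smul_apply, smul_eq_mul]
    refine Tendsto.mono_left ?_ nhdsWithin_le_nhds
    refine (Continuous.tendsto' ?_ 0 _ ?_)
    · fun_prop
    · simp
  have h2 : Tendsto (fun s : ℝ => mix L.T (w + s • 1) (w + s • 1) (w + s • 1) (L.θ 6) D)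
      (𝓝[>] 0) (𝓝 0) := by
    refine tendsto_const_nhds.congr' ?_
    filter_upwards [self_mem_nhdsWithin] with s hs
    have hs' : 0 < s := hs
    rw [six_pos]
    intro i
    simp only [Pi.add_apply, Pi.smul_apply, Pi.one_apply, smul_eq_mul, mul_one]
    linarith [hw i]
  exact tendsto_nhds_unique h1 h2

lemma six (i j k : Fin 7) (D : L.V) : L.T i j k (L.θ 6) D = 0 := by
  -- `p q r` from the cubes of `p + s q`
  have hpp : ∀ p q : Fin 7 → ℝ, (∀ i, 0 ≤ p i) → (∀ i, 0 ≤ q i) →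
      mix L.T p p q (L.θ 6) D = 0 := by
    intro p q hp hq
    have h1 := six_nonneg L (p + (1 : ℝ) • q) (fun i => by
      simp only [Pi.add_apply, Pi.smul_apply, smul_eq_mul]
      have := hp i; have := hq i; positivity) D
    have h2 := six_nonneg L (p + (2 : ℝ) • q) (fun i => by
      simp only [Pi.add_apply, Pi.smul_apply, smul_eq_mul]
      have := hp i; have := hq i; positivity) D
    have h3 := six_nonneg L p hp D
    have h4 := six_nonneg L q hq D
    rw [mix_cube L.swap12 L.swap23] at h1 h2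
    simp only [LinearMap.add_apply, LinearMap.smul_apply, smul_eq_mul, h3, h4] at h1 h2
    linarith
  have hs0 : ∀ (i : Fin 7), ∀ r, 0 ≤ (Pi.single i 1 : Fin 7 → ℝ) r := by
    intro i r
    by_cases h : r = i
    · subst h; simp
    · simp [h]
  have h1 := hpp (Pi.single i 1 + Pi.single j 1) (Pi.single k 1)
    (fun r => by simpa using add_nonneg (hs0 i r) (hs0 j r)) (hs0 k)
  have h2 := hpp (Pi.single i 1) (Pi.single k 1) (hs0 i) (hs0 k)
  have h3 := hpp (Pi.single j 1) (Pi.single k 1) (hs0 j) (hs0 k)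
  rw [mix_add1, mix_swap12 L.swap12, mix_swap12 L.swap12 (Pi.single j 1), mix_add1, mix_add1,
    mix_single, mix_single, mix_single, mix_single] at h1
  rw [mix_single] at h2 h3
  simp only [LinearMap.add_apply] at h1
  rw [L.swap12 j i k] at h1
  linarith

/-! ### the forms for two letters -/

lemma mix_letters {x y : Fin 7} (hx : x ≠ 0) (hx6 : x ≠ 6) (hy : y ≠ 0) (hy6 : y ≠ 6) (c : Fin 7 → ℝ) :
    mix L.T (Pi.single x 1 + Pi.single y 1) (Pi.single x 1 + Pi.single y 1) c =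
      (2 : ℝ) • mix L.T (Pi.single x 1) (Pi.single y 1) c := by
  have hsq : ∀ x : Fin 7, x ≠ 0 → x ≠ 6 → mix L.T (Pi.single x 1) (Pi.single x 1) c = 0 := by
    intro x hx hx6
    ext D D'
    rw [mix_apply]
    rw [sum_eq_single x, sum_eq_single x]
    · refine sum_eq_zero fun k _ => ?_
      rw [L.sq x k hx hx6]; simp
    · intro j _ h; simp [h]
    · intro h; exact absurd (mem_univ _) h
    · intro j _ h; simp [h]
    · intro h; exact absurd (mem_univ _) h
  have a2 : ∀ a b d : Fin 7 → ℝ, mix L.T d (a + b) c = mix L.T d a c + mix L.T d b c := by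
    intro a b d
    rw [mix_swap12 L.swap12, mix_add1, mix_swap12 L.swap12 a, mix_swap12 L.swap12 b]
  rw [mix_add1, a2, a2, hsq x hx hx6, hsq y hy hy6, mix_swap12 L.swap12 (Pi.single y 1)]
  module

lemma single_nonneg' (i : Fin 7) : ∀ r, 0 ≤ (Pi.single i 1 : Fin 7 → ℝ) r := by
  intro r
  by_cases h : r = i
  · subst h; simp
  · simp [h]

/-- the form `x y q` for letters `x`, `y` -/
lemma af_xy {x y : Fin 7} (q : Fin 7) (hx : x ≠ 0) (hx6 : x ≠ 6) (hy : y ≠ 0) (hy6 : y ≠ 6) :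
    AF (L.T x y q) := by
  have h0 : mix L.T (Pi.single x 1 + Pi.single y 1) (Pi.single x 1 + Pi.single y 1)
      (Pi.single x 1 + Pi.single y 1) = 0 := by
    rw [mix_letters L hx hx6 hy hy6, mix_swap23 L.swap23, mix_swap12 L.swap12]
    rw [mix_add1, mix_single, mix_swap12 L.swap12, mix_swap23 L.swap23, mix_single,
      L.sq x y hx hx6, L.swap12 x y y, L.swap23 y x y, L.sq y x hy hy6]
    simp
  have h1 := af_ppq L.swap12 L.swap23 (af_nonneg L)
    (p := Pi.single x 1 + Pi.single y 1) (q := Pi.single q 1)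
    (fun r => by simpa using add_nonneg (single_nonneg' x r) (single_nonneg' y r))
    (single_nonneg' q) h0
  rw [mix_letters L hx hx6 hy hy6, mix_single] at h1
  exact af_of_smul (by norm_num) h1

/-- the form `x q q` for a letter `x` -/
lemma af_x {x : Fin 7} (q : Fin 7) (hx : x ≠ 0) (hx6 : x ≠ 6) : AF (L.T x q q) := by
  have h1 := af_pqq L.swap12 L.swap23 (af_nonneg L)
    (p := Pi.single x 1) (q := Pi.single q 1) (single_nonneg' x)
    (single_nonneg' q) (by rw [mix_single, L.sq x x hx hx6]) (by rw [mix_single, L.sq x q hx hx6])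
  rwa [mix_single] at h1

end

/-! ### the relations -/

section rels

variable (L : Lim)

/-- the numbers `T i j k (θ l) u` -/
def tt (i j k l : Fin 7) : ℝ := L.T i j k (L.θ l) L.u

lemma tt12 (i j k l : Fin 7) : tt L i j k l = tt L j i k l := by
  unfold tt; rw [L.swap12]

lemma tt23 (i j k l : Fin 7) : tt L i j k l = tt L i k j l := by
  unfold tt; rw [L.swap23]

lemma tt34 (i j k l : Fin 7) : tt L i j k l = tt L i j l k := L.exch i j k l L.u

lemma tt_sq {i : Fin 7} (hi : i ≠ 0) (hi6 : i ≠ 6) (k l : Fin 7) : tt L i i k l = 0 := by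
  unfold tt; rw [L.sq i k hi hi6]; simp

lemma tt_six (i j k : Fin 7) : tt L i j k 6 = 0 := six L i j k L.u

/-- `x y z (p + q - H) u = 0` -/
lemma k1 (x y z p q : Fin 7) (hx : x ≠ 0) (hx6 : x ≠ 6) (hy : y ≠ 0) (hy6 : y ≠ 6)
    (n1 : numZ ![x, y, z, 0, 0] = 2) (n2 : numZ ![x, y, z, 0, p] = 1)
    (n3 : numZ ![x, y, z, 0, q] = 1) (n4 : numZ ![x, y, z, p, q] = 1)
    (n5 : numZ ![x, y, z, p, p] = 0) (n6 : numZ ![x, y, z, q, q] = 0) :
    tt L x y z p + tt L x y z q = tt L x y z 0 := by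
  have n1' : L.T x y z (L.θ 0) (L.θ 0) = 2 := by rw [num', n1]; norm_num
  have n2' : L.T x y z (L.θ 0) (L.θ p) = 1 := by rw [num', n2]; norm_num
  have n3' : L.T x y z (L.θ 0) (L.θ q) = 1 := by rw [num', n3]; norm_num
  have n4' : L.T x y z (L.θ p) (L.θ q) = 1 := by rw [num', n4]; norm_num
  have n5' : L.T x y z (L.θ p) (L.θ p) = 0 := by rw [num', n5]; norm_num
  have n6' : L.T x y z (L.θ q) (L.θ q) = 0 := by rw [num', n6]; norm_num
  have m2 : L.T x y z (L.θ p) (L.θ 0) = 1 := by rw [L.symm, n2']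
  have m3 : L.T x y z (L.θ q) (L.θ 0) = 1 := by rw [L.symm, n3']
  have m4 : L.T x y z (L.θ q) (L.θ p) = 1 := by rw [L.symm, n4']
  have h := af_ker (Q := L.T x y z) (L.symm x y z) (af_xy L z hx hx6 hy hy6) (v := L.θ 0)
    (k := L.θ p + L.θ q - L.θ 0) (by rw [n1']; norm_num)
    (by simp only [map_add, map_sub, n1', n2', n3']; norm_num)
    (by
      simp only [map_add, map_sub, LinearMap.add_apply, LinearMap.sub_apply, n1', n2', n3', n4',
        n5', n6', m2, m3, m4]
      norm_num) L.u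
  simp only [map_add, map_sub, LinearMap.add_apply, LinearMap.sub_apply] at h
  unfold tt
  linarith

/-- `x y H (p + q + r - H) u = 0` -/
lemma k2 (x y p q r : Fin 7) (hx : x ≠ 0) (hx6 : x ≠ 6) (hy : y ≠ 0) (hy6 : y ≠ 6)
    (n1 : numZ ![x, y, 0, 0, 0] = 6) (n2 : numZ ![x, y, 0, 0, p] = 2)
    (n3 : numZ ![x, y, 0, 0, q] = 2) (n4 : numZ ![x, y, 0, 0, r] = 2)
    (n5 : numZ ![x, y, 0, p, q] = 1) (n6 : numZ ![x, y, 0, p, r] = 1)
    (n7 : numZ ![x, y, 0, q, r] = 1)
    (n8 : numZ ![x, y, 0, p, p] = 0) (n9 : numZ ![x, y, 0, q, q] = 0)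
    (n10 : numZ ![x, y, 0, r, r] = 0) :
    tt L x y 0 p + tt L x y 0 q + tt L x y 0 r = tt L x y 0 0 := by
  have n1' : L.T x y 0 (L.θ 0) (L.θ 0) = 6 := by rw [num', n1]; norm_num
  have n2' : L.T x y 0 (L.θ 0) (L.θ p) = 2 := by rw [num', n2]; norm_num
  have n3' : L.T x y 0 (L.θ 0) (L.θ q) = 2 := by rw [num', n3]; norm_num
  have n4' : L.T x y 0 (L.θ 0) (L.θ r) = 2 := by rw [num', n4]; norm_num
  have n5' : L.T x y 0 (L.θ p) (L.θ q) = 1 := by rw [num', n5]; norm_num
  have n6' : L.T x y 0 (L.θ p) (L.θ r) = 1 := by rw [num', n6]; norm_num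
  have n7' : L.T x y 0 (L.θ q) (L.θ r) = 1 := by rw [num', n7]; norm_num
  have n8' : L.T x y 0 (L.θ p) (L.θ p) = 0 := by rw [num', n8]; norm_num
  have n9' : L.T x y 0 (L.θ q) (L.θ q) = 0 := by rw [num', n9]; norm_num
  have n10' : L.T x y 0 (L.θ r) (L.θ r) = 0 := by rw [num', n10]; norm_num
  have m2 : L.T x y 0 (L.θ p) (L.θ 0) = 2 := by rw [L.symm, n2']
  have m3 : L.T x y 0 (L.θ q) (L.θ 0) = 2 := by rw [L.symm, n3']
  have m4 : L.T x y 0 (L.θ r) (L.θ 0) = 2 := by rw [L.symm, n4']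
  have m5 : L.T x y 0 (L.θ q) (L.θ p) = 1 := by rw [L.symm, n5']
  have m6 : L.T x y 0 (L.θ r) (L.θ p) = 1 := by rw [L.symm, n6']
  have m7 : L.T x y 0 (L.θ r) (L.θ q) = 1 := by rw [L.symm, n7']
  have h := af_ker (Q := L.T x y 0) (L.symm x y 0) (af_xy L 0 hx hx6 hy hy6) (v := L.θ 0)
    (k := L.θ p + L.θ q + L.θ r - L.θ 0) (by rw [n1']; norm_num)
    (by simp only [map_add, map_sub, n1', n2', n3', n4']; norm_num)
    (by
      simp only [map_add, map_sub, LinearMap.add_apply, LinearMap.sub_apply, n1', n2', n3', n4',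
        n5', n6', n7', n8', n9', n10', m2, m3, m4, m5, m6, m7]
      norm_num) L.u
  simp only [map_add, map_sub, LinearMap.add_apply, LinearMap.sub_apply] at h
  unfold tt
  linarith

/-- `x H H (H - 3 y) u = 0` -/
lemma k3 (x y p q r : Fin 7) (hx : x ≠ 0) (hx6 : x ≠ 6)
    (n1 : numZ ![x, 0, 0, 0, 0] = 0) (n2 : numZ ![x, 0, 0, 0, y] = 0)
    (n3 : numZ ![x, 0, 0, y, y] = 0)
    (a1 : numZ ![x, 0, 0, 0, p] = 6) (a2 : numZ ![x, 0, 0, 0, q] = 6)
    (a3 : numZ ![x, 0, 0, 0, r] = 6)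
    (b1 : numZ ![x, 0, 0, y, p] = 2) (b2 : numZ ![x, 0, 0, y, q] = 2)
    (b3 : numZ ![x, 0, 0, y, r] = 2)
    (n5 : numZ ![x, 0, 0, p, q] = 2) (n6 : numZ ![x, 0, 0, p, r] = 2)
    (n7 : numZ ![x, 0, 0, q, r] = 2)
    (n8 : numZ ![x, 0, 0, p, p] = 0) (n9 : numZ ![x, 0, 0, q, q] = 0)
    (n10 : numZ ![x, 0, 0, r, r] = 0) :
    tt L x 0 0 0 = 3 * tt L x 0 0 y := by
  have n1' : L.T x 0 0 (L.θ 0) (L.θ 0) = 0 := by rw [num', n1]; norm_num
  have n2' : L.T x 0 0 (L.θ 0) (L.θ y) = 0 := by rw [num', n2]; norm_num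
  have n3' : L.T x 0 0 (L.θ y) (L.θ y) = 0 := by rw [num', n3]; norm_num
  have a1' : L.T x 0 0 (L.θ 0) (L.θ p) = 6 := by rw [num', a1]; norm_num
  have a2' : L.T x 0 0 (L.θ 0) (L.θ q) = 6 := by rw [num', a2]; norm_num
  have a3' : L.T x 0 0 (L.θ 0) (L.θ r) = 6 := by rw [num', a3]; norm_num
  have b1' : L.T x 0 0 (L.θ y) (L.θ p) = 2 := by rw [num', b1]; norm_num
  have b2' : L.T x 0 0 (L.θ y) (L.θ q) = 2 := by rw [num', b2]; norm_num
  have b3' : L.T x 0 0 (L.θ y) (L.θ r) = 2 := by rw [num', b3]; norm_num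
  have n5' : L.T x 0 0 (L.θ p) (L.θ q) = 2 := by rw [num', n5]; norm_num
  have n6' : L.T x 0 0 (L.θ p) (L.θ r) = 2 := by rw [num', n6]; norm_num
  have n7' : L.T x 0 0 (L.θ q) (L.θ r) = 2 := by rw [num', n7]; norm_num
  have n8' : L.T x 0 0 (L.θ p) (L.θ p) = 0 := by rw [num', n8]; norm_num
  have n9' : L.T x 0 0 (L.θ q) (L.θ q) = 0 := by rw [num', n9]; norm_num
  have n10' : L.T x 0 0 (L.θ r) (L.θ r) = 0 := by rw [num', n10]; norm_num
  have m2 : L.T x 0 0 (L.θ y) (L.θ 0) = 0 := by rw [L.symm, n2']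
  have c1 : L.T x 0 0 (L.θ p) (L.θ 0) = 6 := by rw [L.symm, a1']
  have c2 : L.T x 0 0 (L.θ q) (L.θ 0) = 6 := by rw [L.symm, a2']
  have c3 : L.T x 0 0 (L.θ r) (L.θ 0) = 6 := by rw [L.symm, a3']
  have d1 : L.T x 0 0 (L.θ p) (L.θ y) = 2 := by rw [L.symm, b1']
  have d2 : L.T x 0 0 (L.θ q) (L.θ y) = 2 := by rw [L.symm, b2']
  have d3 : L.T x 0 0 (L.θ r) (L.θ y) = 2 := by rw [L.symm, b3']
  have m5 : L.T x 0 0 (L.θ q) (L.θ p) = 2 := by rw [L.symm, n5']
  have m6 : L.T x 0 0 (L.θ r) (L.θ p) = 2 := by rw [L.symm, n6']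
  have m7 : L.T x 0 0 (L.θ r) (L.θ q) = 2 := by rw [L.symm, n7']
  have h := af_ker (Q := L.T x 0 0) (L.symm x 0 0) (af_x L 0 hx hx6)
    (v := L.θ p + L.θ q + L.θ r) (k := L.θ 0 - (3 : ℝ) • L.θ y)
    (by
      simp only [map_add, LinearMap.add_apply, n5', n6', n7', n8', n9', n10', m5, m6, m7]
      norm_num)
    (by
      simp only [map_add, map_sub, map_smul, LinearMap.add_apply, smul_eq_mul, c1, c2, c3, d1,
        d2, d3]
      norm_num)
    (by
      simp only [map_sub, map_smul, LinearMap.sub_apply, LinearMap.smul_apply, smul_eq_mul,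
        n1', n2', n3', m2]
      norm_num) L.u
  simp only [map_sub, map_smul, LinearMap.sub_apply, LinearMap.smul_apply, smul_eq_mul] at h
  unfold tt
  linarith

end rels

/-! ### the sums -/

lemma sum_cE (F : Fin 7 → Fin 7 → ℝ) : ∑ i, ∑ j, cE i j * F i j =
    (-5 / 31) * F 0 1 + (-5 / 31) * F 0 2 + 5 / 31 * F 0 3 + 5 / 31 * F 0 4 + F 1 2 - F 3 4 +
      (-352 / 4557) * F 5 1 + (-352 / 4557) * F 5 2 + 352 / 4557 * F 5 3 +
      352 / 4557 * F 5 4 := by
  simp only [Fin.sum_univ_seven, cE]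
  simp
  ring

lemma sum_wE (F : Fin 7 → ℝ) : ∑ i, wE i * F i =
    F 0 + 1 / 20 * (F 1 + F 2 + F 3 + F 4 + F 5) + F 6 := by
  simp only [Fin.sum_univ_seven, wE]
  simp
  ring

section final

variable (L : Lim)

/-- `L ^ 2 i j u` -/
lemma sum_w2 (i j : Fin 7) : ∑ k, ∑ l, wE k * wE l * tt L k l i j =
    tt L 0 0 i j + 1 / 10 * (tt L 0 1 i j + tt L 0 2 i j + tt L 0 3 i j + tt L 0 4 i j +
      tt L 0 5 i j) + 1 / 200 * (tt L 1 2 i j + tt L 1 3 i j + tt L 1 4 i j + tt L 1 5 i j +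
      tt L 2 3 i j + tt L 2 4 i j + tt L 2 5 i j + tt L 3 4 i j + tt L 3 5 i j +
      tt L 4 5 i j) := by
  have h6 : ∀ k, tt L k 6 i j = 0 := by
    intro k; rw [tt23, tt34, tt_six]
  have h6' : ∀ k, tt L 6 k i j = 0 := by
    intro k; rw [tt12, h6]
  have e : ∑ k, ∑ l, wE k * wE l * tt L k l i j = ∑ k, wE k * ∑ l, wE l * tt L k l i j := by
    simp only [mul_sum, mul_assoc]
  rw [e]
  simp only [sum_wE, h6, h6']
  rw [tt12 L 1 0, tt12 L 2 0, tt12 L 3 0, tt12 L 4 0, tt12 L 5 0, tt12 L 2 1, tt12 L 3 1,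
    tt12 L 4 1, tt12 L 5 1, tt12 L 3 2, tt12 L 4 2, tt12 L 5 2, tt12 L 4 3, tt12 L 5 3,
    tt12 L 5 4, tt_sq L (i := 1) (by decide) (by decide), tt_sq L (i := 2) (by decide) (by decide),
    tt_sq L (i := 3) (by decide) (by decide), tt_sq L (i := 4) (by decide) (by decide),
    tt_sq L (i := 5) (by decide) (by decide)]
  ring

lemma sum4_comm (f : Fin 7 → Fin 7 → Fin 7 → Fin 7 → ℝ) :
    ∑ k, ∑ l, ∑ i, ∑ j, f k l i j = ∑ i, ∑ j, ∑ k, ∑ l, f k l i j := by
  calc ∑ k, ∑ l, ∑ i, ∑ j, f k l i j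
      = ∑ k, ∑ i, ∑ l, ∑ j, f k l i j := sum_congr rfl fun k _ => sum_comm
    _ = ∑ i, ∑ k, ∑ l, ∑ j, f k l i j := sum_comm
    _ = ∑ i, ∑ k, ∑ j, ∑ l, f k l i j :=
        sum_congr rfl fun i _ => sum_congr rfl fun k _ => sum_comm
    _ = ∑ i, ∑ j, ∑ k, ∑ l, f k l i j := sum_congr rfl fun i _ => sum_comm

lemma hr2a' : ∑ i, ∑ j, cE i j * (∑ k, ∑ l, wE k * wE l * tt L k l i j) = -L.ν ^ 2 := by
  rw [← L.hr2a, sum4_comm]
  refine sum_congr rfl fun i _ => sum_congr rfl fun j _ => ?_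
  simp only [mul_sum]
  refine sum_congr rfl fun k _ => sum_congr rfl fun l _ => ?_
  unfold tt
  ring

/-- `L ^ 2 Φ u = 0` -/
lemma nu_zero : -L.ν ^ 2 = 0 := by
  have sq1 : ∀ x : Fin 7, x ≠ 0 → x ≠ 6 → ∀ i l, tt L i x x l = 0 := by
    intro x hx hx6 i l
    rw [tt12, tt23, tt_sq L hx hx6]
  have sq2 : ∀ x : Fin 7, x ≠ 0 → x ≠ 6 → ∀ i j, tt L i j x x = 0 := by
    intro x hx hx6 i j
    rw [tt23, tt34, sq1 x hx hx6]
  have z1 := tt_sq L (i := 1) (by decide) (by decide)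
  have z2 := tt_sq L (i := 2) (by decide) (by decide)
  have z3 := tt_sq L (i := 3) (by decide) (by decide)
  have z4 := tt_sq L (i := 4) (by decide) (by decide)
  have z5 := tt_sq L (i := 5) (by decide) (by decide)
  have y1 := sq1 1 (by decide) (by decide)
  have y2 := sq1 2 (by decide) (by decide)
  have y3 := sq1 3 (by decide) (by decide)
  have y4 := sq1 4 (by decide) (by decide)
  have y5 := sq1 5 (by decide) (by decide)
  have x1 := sq2 1 (by decide) (by decide)
  have x2 := sq2 2 (by decide) (by decide)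
  have x3 := sq2 3 (by decide) (by decide)
  have x4 := sq2 4 (by decide) (by decide)
  have x5 := sq2 5 (by decide) (by decide)
  have r1 := k1 L 1 2 3 4 5 (by decide) (by decide) (by decide) (by decide) (by decide)
    (by decide) (by decide) (by decide) (by decide) (by decide)
  have r2 := k1 L 1 2 4 3 5 (by decide) (by decide) (by decide) (by decide) (by decide)
    (by decide) (by decide) (by decide) (by decide) (by decide)
  have r3 := k1 L 1 3 4 2 5 (by decide) (by decide) (by decide) (by decide) (by decide)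
    (by decide) (by decide) (by decide) (by decide) (by decide)
  have r4 := k1 L 2 3 4 1 5 (by decide) (by decide) (by decide) (by decide) (by decide)
    (by decide) (by decide) (by decide) (by decide) (by decide)
  have r5 := k1 L 1 2 5 3 4 (by decide) (by decide) (by decide) (by decide) (by decide)
    (by decide) (by decide) (by decide) (by decide) (by decide)
  have r6 := k1 L 3 4 5 1 2 (by decide) (by decide) (by decide) (by decide) (by decide)
    (by decide) (by decide) (by decide) (by decide) (by decide)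
  have s1 := k2 L 1 5 2 3 4 (by decide) (by decide) (by decide) (by decide) (by decide)
    (by decide) (by decide) (by decide) (by decide) (by decide) (by decide) (by decide)
    (by decide) (by decide)
  have s2 := k2 L 2 5 1 3 4 (by decide) (by decide) (by decide) (by decide) (by decide)
    (by decide) (by decide) (by decide) (by decide) (by decide) (by decide) (by decide)
    (by decide) (by decide)
  have s3 := k2 L 3 5 1 2 4 (by decide) (by decide) (by decide) (by decide) (by decide)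
    (by decide) (by decide) (by decide) (by decide) (by decide) (by decide) (by decide)
    (by decide) (by decide)
  have s4 := k2 L 4 5 1 2 3 (by decide) (by decide) (by decide) (by decide) (by decide)
    (by decide) (by decide) (by decide) (by decide) (by decide) (by decide) (by decide)
    (by decide) (by decide)
  have t1 := k3 L 1 2 3 4 5 (by decide) (by decide) (by decide) (by decide) (by decide)
    (by decide) (by decide) (by decide) (by decide) (by decide) (by decide) (by decide)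
    (by decide) (by decide) (by decide) (by decide) (by decide)
  have t2 := k3 L 2 1 3 4 5 (by decide) (by decide) (by decide) (by decide) (by decide)
    (by decide) (by decide) (by decide) (by decide) (by decide) (by decide) (by decide)
    (by decide) (by decide) (by decide) (by decide) (by decide)
  have t3 := k3 L 3 4 1 2 5 (by decide) (by decide) (by decide) (by decide) (by decide)
    (by decide) (by decide) (by decide) (by decide) (by decide) (by decide) (by decide)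
    (by decide) (by decide) (by decide) (by decide) (by decide)
  have t4 := k3 L 4 3 1 2 5 (by decide) (by decide) (by decide) (by decide) (by decide)
    (by decide) (by decide) (by decide) (by decide) (by decide) (by decide) (by decide)
    (by decide) (by decide) (by decide) (by decide) (by decide)
  rw [← hr2a', sum_cE]
  simp only [sum_w2]
  simp only [tt12 L, tt23 L, tt34 L, x1, x2, x3, x4, x5, y1, y2, y3, y4, y5, z1, z2, z3, z4, z5]
    at r1 r2 r3 r4 r5 r6 s1 s2 s3 s4 t1 t2 t3 t4 ⊢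
  linear_combination (-123 / 1240) * (r1 + r2 - r3 - r4) + 9461 / 91140 * (r5 - r6) +
    851 / 9114 * (s1 + s2 - s3 - s4) - 5 / 31 * (t1 + t2 - t3 - t4)

/-! ### the value of `L Φ ^ 2` -/

/-- `20 wE` -/
def wZ : Fin 7 → ℤ := ![20, 1, 1, 1, 1, 1, 20]

/-- `4557 cE` -/
def cZ : Fin 7 → Fin 7 → ℤ := fun i j =>
  (![![0, -735, -735, 735, 735, 0, 0],
     ![0, 0, 4557, 0, 0, 0, 0],
     ![0, 0, 0, 0, 0, 0, 0],
     ![0, 0, 0, 0, -4557, 0, 0],
     ![0, 0, 0, 0, 0, 0, 0],
     ![0, -352, -352, 352, 352, 0, 0],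
     ![0, 0, 0, 0, 0, 0, 0]] : Fin 7 → Fin 7 → ℤ) i j

lemma wE_eq (m : Fin 7) : wE m = (wZ m : ℝ) / 20 := by
  fin_cases m <;> simp [wE, wZ]

lemma cE_eq (i j : Fin 7) : cE i j = (cZ i j : ℝ) / 4557 := by
  fin_cases i <;> fin_cases j <;> simp [cE, cZ] <;> norm_num

lemma valZ : ∑ m : Fin 7, ∑ i : Fin 7, ∑ j : Fin 7, ∑ k : Fin 7, ∑ l : Fin 7,
    (if cZ i j = 0 then 0 else if cZ k l = 0 then 0 else
      wZ m * cZ i j * cZ k l * numZ ![m, i, j, k, l]) = -95814306 := by
  decide +kernel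

lemma val : ∑ m, ∑ i, ∑ j, ∑ k, ∑ l, (wE m * cE i j * cE k l) *
    L.T m i j (L.θ k) (L.θ l) = -2217 / 9610 := by
  have h1 : ∀ m i j k l : Fin 7, (wE m * cE i j * cE k l) * L.T m i j (L.θ k) (L.θ l) =
      (((if cZ i j = 0 then 0 else if cZ k l = 0 then 0 else
        wZ m * cZ i j * cZ k l * numZ ![m, i, j, k, l] : ℤ)) : ℝ) * (1 / (20 * 4557 ^ 2)) := by
    intro m i j k l
    rw [num', wE_eq, cE_eq, cE_eq]
    by_cases hi : cZ i j = 0
    · rw [if_pos hi, hi]; simp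
    · rw [if_neg hi]
      by_cases hk : cZ k l = 0
      · rw [if_pos hk, hk]; simp
      · rw [if_neg hk]; push_cast; ring
  simp only [h1, ← sum_mul]
  have h2 : (∑ m : Fin 7, ∑ i : Fin 7, ∑ j : Fin 7, ∑ k : Fin 7, ∑ l : Fin 7,
    ((if cZ i j = 0 then 0 else if cZ k l = 0 then 0 else
      wZ m * cZ i j * cZ k l * numZ ![m, i, j, k, l] : ℤ) : ℝ)) = -95814306 := by
    exact_mod_cast valZ
  rw [h2]
  norm_num

end final

end LimC

/-- ALG2 -/
theorem limContra : LimContra := by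
  intro L
  have h1 := L.hr2b
  rw [LimC.nu_zero L, LimC.val L] at h1
  norm_num at h1

end EH
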