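import Pool.Agent.Work.MP_9eee85_co.EH.LimStage

/-!
ALG1: approximate packages with numbers near those of the example give an exact one.
-/

namespace EH

open Module Filter Topology

section

variable {M : ℕ} {deg : (Fin 5 → Fin 5 ⊕ Fin M) → ℝ} {C : ℝ}

theorem QKP.num_eq (Q : QKP (Fin 5 ⊕ Fin M) deg C) (N : Fin 7 → Option (Fin 5 ⊕ Fin M) → ℝ)
    (t : Fin 5 → Fin 7) :
    mix Q.T (N (t 0)) (N (t 1)) (N (t 2)) (comb Q.θ (N (t 3))) (comb Q.θ (N (t 4))) =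
      ∑ τ : Fin 5 → Option (Fin 5 ⊕ Fin M), (∏ k, N (t k) (τ k)) *
        Q.T (τ 0) (τ 1) (τ 2) (Q.θ (τ 3)) (Q.θ (τ 4)) := by
  rw [sum_fun_five, mix_comb_comb]
  refine Finset.sum_congr rfl fun i _ => Finset.sum_congr rfl fun j _ =>
    Finset.sum_congr rfl fun k _ => Finset.sum_congr rfl fun l _ =>
    Finset.sum_congr rfl fun m _ => ?_
  rw [Fin.prod_univ_five]
  rfl

/-- the sum of the absolute values of the numbers -/
noncomputable def QKP.bnd (Q : QKP (Fin 5 ⊕ Fin M) deg C) : ℝ :=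
  ∑ τ : Fin 5 → Option (Fin 5 ⊕ Fin M), |Q.T (τ 0) (τ 1) (τ 2) (Q.θ (τ 3)) (Q.θ (τ 4))|

theorem QKP.bnd_nonneg (Q : QKP (Fin 5 ⊕ Fin M) deg C) : 0 ≤ Q.bnd :=
  Finset.sum_nonneg fun _ _ => abs_nonneg _

theorem QKP.num_le (Q : QKP (Fin 5 ⊕ Fin M) deg C) (hM : 0 < M) {δ : ℝ} (hδ : 0 ≤ δ)
    (hδ' : δ ≤ 1) {c₀ η : ℝ} (hc : 0 < c₀) (hη : 0 ≤ η) (hcδ : c₀ * (δ * Q.bnd) ≤ η)
    (h0 : ∀ t, ¬ Function.Injective t → deg t = 0)
    (h1 : ∀ t, Function.Injective t → |c₀ * deg t - numZ (fun i => typ (t i))| ≤ η)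
    (t : Fin 5 → Fin 7) :
    |c₀ * mix Q.T (Nw M δ (t 0)) (Nw M δ (t 1)) (Nw M δ (t 2)) (comb Q.θ (Nw M δ (t 3)))
      (comb Q.θ (Nw M δ (t 4))) - numZ t| ≤ η + 150 / M := by
  have h150 : (0 : ℝ) ≤ 150 / M := div_nonneg (by norm_num) (Nat.cast_nonneg M)
  rw [Q.num_eq (Nw M δ) t]
  by_cases h6 : ∃ i, t i = 6
  · obtain ⟨i, hi⟩ := h6
    rw [numZ_six hi, Int.cast_zero, sub_zero, abs_mul, abs_of_pos hc]
    have h := num_six (δ := δ) hM hδ hδ' (fun τ => Q.T (τ 0) (τ 1) (τ 2) (Q.θ (τ 3)) (Q.θ (τ 4))) hi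
    exact ((mul_le_mul_of_nonneg_left h hc.le).trans hcδ).trans (le_add_of_nonneg_right h150)
  · push Not at h6
    rw [sum_option_fun]
    · have h := num_gen (δ := δ) hM hδ h6 hη h0 h1
      simp only [Q.num]
      exact h
    · intro τ k hk
      have : ∏ k, Nw M δ (t k) (τ k) = 0 :=
        Finset.prod_eq_zero (Finset.mem_univ k) (by rw [hk]; exact Nw_none (h6 k))
      rw [this, zero_mul]

theorem cw_pos (hM : 0 < M) {δ : ℝ} (hδ : 0 < δ) {w : Fin 7 → ℝ} (hw : ∀ i, 0 < w i)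
    (y : Option (Fin 5 ⊕ Fin M)) : 0 < cw (Nw M δ) w y := by
  unfold cw
  have key : ∀ s, 0 < Nw M δ s y → 0 < ∑ s, w s * Nw M δ s y := by
    intro s hs
    refine lt_of_lt_of_le (mul_pos (hw s) hs) ?_
    exact Finset.single_le_sum (f := fun s => w s * Nw M δ s y)
      (fun s _ => mul_nonneg (hw s).le (Nw_nonneg hδ.le s y)) (Finset.mem_univ s)
  rcases y with _ | x
  · refine key 6 ?_
    change 0 < if (6 : Fin 7) = 6 then δ else 0
    rw [if_pos rfl]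
    exact hδ
  · refine key (typ x) ?_
    change 0 < if typ x = typ x then (if typ x = 0 then (M : ℝ)⁻¹ else 1) else 0
    rw [if_pos rfl]
    split_ifs
    · exact inv_pos.2 (by exact_mod_cast hM)
    · exact one_pos

theorem Nw_le_cw {δ : ℝ} (hδ : 0 ≤ δ) (s : Fin 7) (y : Option (Fin 5 ⊕ Fin M)) :
    1 / 20 * Nw M δ s y ≤ cw (Nw M δ) wE y := by
  refine (mul_le_mul_of_nonneg_right (wE_ge s) (Nw_nonneg hδ s y)).trans ?_
  exact Finset.single_le_sum (f := fun s => wE s * Nw M δ s y)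
      (fun s _ => mul_nonneg ((by norm_num : (0 : ℝ) ≤ 1 / 20).trans (wE_ge s))
        (Nw_nonneg hδ s y)) (Finset.mem_univ s)

theorem QKP.sq_Nw (Q : QKP (Fin 5 ⊕ Fin M) deg C) {δ : ℝ} {s : Fin 7} (h0 : s ≠ 0) (h6 : s ≠ 6)
    (b : Option (Fin 5 ⊕ Fin M) → ℝ) : mix Q.T (Nw M δ s) (Nw M δ s) b = 0 := by
  unfold mix
  refine Finset.sum_eq_zero fun x _ => Finset.sum_eq_zero fun y _ =>
    Finset.sum_eq_zero fun k _ => ?_
  rcases x with _ | x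
  · rw [Nw_none h6, zero_mul, zero_mul, zero_smul]
  rcases y with _ | y
  · rw [Nw_none (s := s) h6, mul_zero, zero_mul, zero_smul]
  by_cases hx : typ x = s
  · by_cases hy : typ y = s
    · have hxy : x = y := typ_inj (hx.trans hy.symm) (hx ▸ h0)
      rw [hxy, Q.sq, smul_zero]
    · rw [Nw_some_ne hy, mul_zero, zero_mul, zero_smul]
  · rw [Nw_some_ne hx, zero_mul, zero_mul, zero_smul]

/-- the constant of the approximate packages -/
noncomputable def KC (C : ℝ) : ℝ := 20 ^ 4 * |C| * (√(7 ^ 5 * 157) + 1)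

/-- the linear map from the symbols -/
noncomputable def PL (Q : QKP (Fin 5 ⊕ Fin M) deg C) (N : Fin 7 → Option (Fin 5 ⊕ Fin M) → ℝ)
    (u : Q.U) : VL →ₗ[ℝ] Q.U :=
  LinearMap.coprod (Fintype.linearCombination ℝ (fun a => comb Q.θ (N a)))
    (LinearMap.toSpanSingleton ℝ Q.U u)

theorem PL_thL (Q : QKP (Fin 5 ⊕ Fin M) deg C) (N : Fin 7 → Option (Fin 5 ⊕ Fin M) → ℝ)
    (u : Q.U) (a : Fin 7) : PL Q N u (thL a) = comb Q.θ (N a) := by
  simp [PL, thL, Fintype.linearCombination_apply_single]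

theorem PL_uL (Q : QKP (Fin 5 ⊕ Fin M) deg C) (N : Fin 7 → Option (Fin 5 ⊕ Fin M) → ℝ)
    (u : Q.U) : PL Q N u uL = u := by
  simp [PL, uL]

theorem PL_comb (Q : QKP (Fin 5 ⊕ Fin M) deg C) (N : Fin 7 → Option (Fin 5 ⊕ Fin M) → ℝ)
    (u : Q.U) (w : Fin 7 → ℝ) : PL Q N u (comb thL w) = comb Q.θ (cw N w) := by
  rw [comb_cw]
  simp only [comb, map_sum, map_smul]
  exact Finset.sum_congr rfl fun s _ => congrArg (fun z => w s • z) (PL_thL Q N u s)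

theorem sum5_le (c x : Fin 7 → Fin 7 → Fin 7 → Fin 7 → Fin 7 → ℝ) (b : ℝ)
    (hc : ∀ i j k l m, |c i j k l m| ≤ 1) (h : ∀ i j k l m, |x i j k l m| ≤ b) :
    ∑ i, ∑ j, ∑ k, ∑ l, ∑ m, c i j k l m * x i j k l m ≤ 7 ^ 5 * b := by
  have key : ∀ {f : Fin 7 → ℝ} {z : ℝ}, (∀ i, f i ≤ z) → ∑ i, f i ≤ 7 * z := by
    intro f z hf
    refine (Finset.sum_le_sum fun i _ => hf i).trans (le_of_eq ?_)
    rw [Finset.sum_const, Finset.card_univ, Fintype.card_fin, nsmul_eq_mul]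
    norm_num
  have h1 : ∀ i j k l m, c i j k l m * x i j k l m ≤ b := by
    intro i j k l m
    refine (le_abs_self _).trans ?_
    rw [abs_mul]
    calc |c i j k l m| * |x i j k l m| ≤ 1 * b :=
          mul_le_mul (hc i j k l m) (h i j k l m) (abs_nonneg _) zero_le_one
      _ = b := one_mul b
  refine (key fun i => key fun j => key fun k => key fun l => key fun m =>
    h1 i j k l m).trans (le_of_eq ?_)
  ring

theorem exists_app (hM : 0 < M) {η : ℝ} (hη : 0 < η) (hη1 : η ≤ 1) {c₀ : ℝ} (hc : 0 < c₀)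
    (Q : QKP (Fin 5 ⊕ Fin M) deg C) (h0 : ∀ t, ¬ Function.Injective t → deg t = 0)
    (h1 : ∀ t, Function.Injective t → |c₀ * deg t - numZ (fun i => typ (t i))| ≤ η) :
    Nonempty (App (KC C) (η + 150 / M)) := by
  have hB := Q.bnd_nonneg
  have hcB : 0 < c₀ * (Q.bnd + 1) := mul_pos hc (by linarith)
  obtain ⟨δ, hδ0, hδ1, hδ⟩ : ∃ δ : ℝ, 0 < δ ∧ δ ≤ 1 ∧ c₀ * (δ * Q.bnd) ≤ η := by
    refine ⟨min 1 (η / (c₀ * (Q.bnd + 1))), lt_min one_pos (div_pos hη hcB), min_le_left _ _, ?_⟩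
    have h2 : min 1 (η / (c₀ * (Q.bnd + 1))) * (c₀ * (Q.bnd + 1)) ≤ η := by
      have := mul_le_mul_of_nonneg_right (min_le_right 1 (η / (c₀ * (Q.bnd + 1)))) hcB.le
      rwa [div_mul_cancel₀ _ hcB.ne'] at this
    refine le_trans ?_ h2
    have h3 : 0 ≤ min 1 (η / (c₀ * (Q.bnd + 1))) := le_min zero_le_one (div_pos hη hcB).le
    nlinarith [mul_nonneg h3 hc.le]
  have hδ0' := hδ0.le
  have hnum := Q.num_le hM hδ0' hδ1 hc hη.le hδ h0 h1
  have hN6 : ∀ s, s ≠ 6 → Nw M δ s none = 0 := fun s hs => Nw_none hs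
  have hwE : ∀ i, 0 < wE i := fun i => lt_of_lt_of_le (by norm_num) (wE_ge i)
  obtain ⟨u, ν, hν0, ha, hb, hc1, hc2⟩ := Q.hr2 (cw (Nw M δ) wE)
    (fun y => cw_pos hM hδ0 hwE y) (cN (Nw M δ))
  obtain ⟨N, hN⟩ : ∃ N, N = Nw M δ := ⟨_, rfl⟩
  rw [← hN] at ha hb hc1 hc2 hnum hN6
  obtain ⟨P, hP⟩ : ∃ P, P = PL Q N u := ⟨_, rfl⟩
  have hPth : ∀ a, P (thL a) = comb Q.θ (N a) := fun a => by rw [hP, PL_thL]
  have hPu : P uL = u := by rw [hP, PL_uL]
  have hPc : ∀ w, P (comb thL w) = comb Q.θ (cw N w) := fun w => by rw [hP, PL_comb]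
  have hNnn : ∀ s y, 0 ≤ N s y := fun s y => by rw [hN]; exact Nw_nonneg hδ0' s y
  have hNb : ∀ s, ∀ y, 0 ≤ 1 / 20 * N s y ∧ 1 / 20 * N s y ≤ cw N wE y := fun s y =>
    ⟨mul_nonneg (by norm_num) (hNnn s y), by rw [hN]; exact Nw_le_cw hδ0' s y⟩
  have hsq : √c₀ * √c₀ = c₀ := Real.mul_self_sqrt hc.le
  have hM1 : (1 : ℝ) ≤ M := by exact_mod_cast hM
  have h150 : (150 : ℝ) / M ≤ 150 := div_le_self (by norm_num) hM1
  -- the numbers
  have hnum' : ∀ t : Fin 5 → Fin 7, |pb c₀ Q.T N P (t 0) (t 1) (t 2) (thL (t 3)) (thL (t 4)) -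
      numZ t| ≤ η + 150 / M := by
    intro t
    rw [pb_apply, hPth, hPth]
    exact hnum t
  have hvol : c₀ * mix Q.T (cw N wE) (cw N wE) (cw N wE) (comb Q.θ (cw N wE))
      (comb Q.θ (cw N wE)) ≤ 7 ^ 5 * 157 := by
    have h2 := mix_pb c₀ Q.T N P wE wE wE (comb thL wE) (comb thL wE)
    rw [hPc] at h2
    rw [← h2, mix_comb_comb]
    have hwa : ∀ s, |wE s| ≤ 1 := fun s => by
      rw [abs_of_pos (hwE s)]
      exact wE_le s
    refine sum5_le (fun i j k l m => wE i * wE j * wE k * wE l * wE m)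
      (fun i j k l m => pb c₀ Q.T N P i j k (thL l) (thL m)) 157 (fun i j k l m => ?_)
      (fun i j k l m => ?_)
    · rw [abs_mul, abs_mul, abs_mul, abs_mul]
      exact mul_le_one₀ (mul_le_one₀ (mul_le_one₀ (mul_le_one₀ (hwa i) (abs_nonneg _) (hwa j))
        (abs_nonneg _) (hwa k)) (abs_nonneg _) (hwa l)) (abs_nonneg _) (hwa m)
    · have h3 := hnum' ![i, j, k, l, m]
      have h4 := abs_numZ_le ![i, j, k, l, m]
      change |pb c₀ Q.T N P i j k (thL l) (thL m) - numZ ![i, j, k, l, m]| ≤ η + 150 / M at h3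
      rw [abs_le] at h3 h4 ⊢
      constructor <;> linarith [h3.1, h3.2, h4.1, h4.2]
  have hK3 : (0 : ℝ) ≤ 20 ^ 4 * |C| := mul_nonneg (by norm_num) (abs_nonneg C)
  have hνs : 0 ≤ √c₀ * ν := mul_nonneg (Real.sqrt_nonneg _) hν0
  refine ⟨{
    ν := √c₀ * ν
    T := pb c₀ Q.T N P
    ν_nonneg := hνs
    swap12 := fun i j k => by
      unfold pb
      rw [Q.mix_swap12]
    swap23 := fun i j k => by
      unfold pb
      rw [Q.mix_swap23]
    symm := fun i j k D D' => by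
      rw [pb_apply, pb_apply, Q.mix_symm]
    exch := fun i j k l D => by
      rw [pb_apply, pb_apply, hPth, hPth, Q.mix_exch]
    sq := fun i j hi hi' => ?_
    num := hnum'
    hr1 := fun w hw D => ?_
    hr2a := ?_
    hr2b := ?_
    bd1 := fun i j k l => ?_
    bd2 := fun i j k => ?_ }⟩
  · refine LinearMap.ext fun D => LinearMap.ext fun D' => ?_
    rw [pb_apply, hN, Q.sq_Nw hi hi']
    simp
  · rw [mix_pb, mix_pb, mix_pb, hPc]
    have h2 := Q.hr1 (cw N w) (fun y => by rw [hN]; exact cw_pos hM hδ0 hw y) (P D)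
    have h3 := mul_le_mul_of_nonneg_left h2 (sq_nonneg c₀)
    calc _ = c₀ ^ 2 * (mix Q.T (cw N w) (cw N w) (cw N w) (comb Q.θ (cw N w))
          (comb Q.θ (cw N w)) * mix Q.T (cw N w) (cw N w) (cw N w) (P D) (P D)) := by ring
      _ ≤ _ := h3
      _ = _ := by ring
  · rw [hr2a_eq Q.T Q.θ hN6 c₀ P thL hPth uL wE, hPu, ha]
    rw [mul_pow, Real.sq_sqrt hc.le]
    ring
  · rw [hr2b_eq Q.T Q.θ hN6 c₀ P thL hPth wE]
    have h2 := mul_le_mul_of_nonneg_left hb hc.le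
    refine le_trans (le_of_eq ?_) h2
    rw [mul_pow, Real.sq_sqrt hc.le]
    ring
  · rw [pb_apply, hPth, hPu]
    have h2 := hc2 _ _ _ _ (hNb i) (hNb j) (hNb k) (hNb l)
    rw [mix_smul, comb_smul, LinearMap.smul_apply, LinearMap.smul_apply, map_smul,
      LinearMap.smul_apply, smul_eq_mul, smul_eq_mul, ← mul_assoc, abs_mul] at h2
    obtain ⟨X, hX⟩ : ∃ X, X = mix Q.T (cw N wE) (cw N wE) (cw N wE) (comb Q.θ (cw N wE))
      (comb Q.θ (cw N wE)) := ⟨_, rfl⟩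
    rw [← hX] at h2 hvol
    obtain ⟨Y, hY⟩ : ∃ Y, Y = mix Q.T (N i) (N j) (N k) (comb Q.θ (N l)) u := ⟨_, rfl⟩
    rw [← hY] at h2
    rw [← hY, abs_mul, abs_of_pos hc]
    have h3 : |Y| ≤ 20 ^ 4 * (|C| * ν * √X) := by
      have h4 : |(1 / 20 * (1 / 20) * (1 / 20) * (1 / 20) : ℝ)| = 1 / 20 ^ 4 := by
        rw [abs_of_pos (by norm_num)]
        norm_num
      rw [h4] at h2
      have h5 : C * ν * √X ≤ |C| * ν * √X :=
        mul_le_mul_of_nonneg_right (mul_le_mul_of_nonneg_right (le_abs_self C) hν0)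
          (Real.sqrt_nonneg _)
      linarith
    have h6 : √(c₀ * X) ≤ √(7 ^ 5 * 157) := Real.sqrt_le_sqrt hvol
    rw [Real.sqrt_mul hc.le] at h6
    calc c₀ * |Y| ≤ c₀ * (20 ^ 4 * (|C| * ν * √X)) := mul_le_mul_of_nonneg_left h3 hc.le
      _ = 20 ^ 4 * |C| * (√c₀ * √X) * (√c₀ * ν) := by
          conv_lhs => rw [← hsq]
          ring
      _ ≤ 20 ^ 4 * |C| * (√(7 ^ 5 * 157) + 1) * (√c₀ * ν) := by
          refine mul_le_mul_of_nonneg_right (mul_le_mul_of_nonneg_left ?_ hK3) hνs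
          linarith
  · rw [pb_apply, hPu]
    have h2 := hc1 _ _ _ (hNb i) (hNb j) (hNb k)
    rw [mix_smul, LinearMap.smul_apply, LinearMap.smul_apply, smul_eq_mul, abs_mul] at h2
    obtain ⟨Y, hY⟩ : ∃ Y, Y = mix Q.T (N i) (N j) (N k) u u := ⟨_, rfl⟩
    rw [← hY] at h2
    rw [← hY, abs_mul, abs_of_pos hc]
    have hν2 : 0 ≤ ν ^ 2 := sq_nonneg ν
    have h3 : |Y| ≤ 20 ^ 4 * (|C| * ν ^ 2) := by
      have h4 : |(1 / 20 * (1 / 20) * (1 / 20) : ℝ)| = 1 / 20 ^ 3 := by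
        rw [abs_of_pos (by norm_num)]
        norm_num
      rw [h4] at h2
      have h5 : C * ν ^ 2 ≤ |C| * ν ^ 2 := mul_le_mul_of_nonneg_right (le_abs_self C) hν2
      have h6 : 0 ≤ |C| * ν ^ 2 := mul_nonneg (abs_nonneg C) hν2
      linarith
    calc c₀ * |Y| ≤ c₀ * (20 ^ 4 * (|C| * ν ^ 2)) := mul_le_mul_of_nonneg_left h3 hc.le
      _ = 20 ^ 4 * |C| * 1 * (√c₀ * ν) ^ 2 := by
          rw [mul_pow, Real.sq_sqrt hc.le]
          ring
      _ ≤ 20 ^ 4 * |C| * (√(7 ^ 5 * 157) + 1) * (√c₀ * ν) ^ 2 := by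
          refine mul_le_mul_of_nonneg_right (mul_le_mul_of_nonneg_left ?_ hK3) (sq_nonneg _)
          linarith [Real.sqrt_nonneg (7 ^ 5 * 157 : ℝ)]

end

/-- ALG1 -/
theorem limExists : LimExists := by
  intro C h
  have key : ∀ n : ℕ, Nonempty (App (KC C) (151 * ((n : ℝ) + 1)⁻¹)) := by
    intro n
    have hn : (0 : ℝ) < (n : ℝ) + 1 := by positivity
    obtain ⟨deg, c₀, hc, ⟨Q⟩, h0, h1⟩ := h (n + 1) ((n : ℝ) + 1)⁻¹ (Nat.succ_pos n) (inv_pos.2 hn)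
    have h2 := exists_app (Nat.succ_pos n) (inv_pos.2 hn)
      (inv_le_one_of_one_le₀ (by linarith [Nat.cast_nonneg (α := ℝ) n])) hc Q h0 h1
    have h3 : ((n : ℝ) + 1)⁻¹ + 150 / ((n + 1 : ℕ) : ℝ) = 151 * ((n : ℝ) + 1)⁻¹ := by
      rw [Nat.cast_add, Nat.cast_one, div_eq_mul_inv]
      ring
    rw [h3] at h2
    exact h2
  have hlim : Tendsto (fun n : ℕ => 151 * ((n : ℝ) + 1)⁻¹) atTop (𝓝 0) := by
    have h4 := (tendsto_one_div_add_atTop_nhds_zero_nat (𝕜 := ℝ)).const_mul 151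
    simp only [one_div, mul_zero] at h4
    exact h4
  exact lim_of_app hlim (fun n => (key n).some)

end EH
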