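import Pool.Agent.Work.MP_9eee85_co.EH.DXDefs

/-!
`semiampleData`: everything the proof of `EurHuh.semiample_vol` gives, the degree being known from
one nonzero coefficient. `degZero`: families with a repeated function have degree zero.
-/

namespace EH

open Module Submodule MvPolynomial EurHuh Filter Topology

universe u v

/-- a finite extension of `K(X_1, …, X_d)` is a function field -/
lemma fnField_of_fin {K : Type u} {L : Type v} [Field K] [Field L] [Algebra K L] {d : ℕ}
    [Algebra (FractionRing (MvPolynomial (Fin d) K)) L]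
    [IsScalarTower K (FractionRing (MvPolynomial (Fin d) K)) L]
    [FiniteDimensional (FractionRing (MvPolynomial (Fin d) K)) L] : FnField K L d := by
  let A := MvPolynomial (Fin d) K
  let Kd := FractionRing A
  let ψ : A →ₐ[K] L := (IsScalarTower.toAlgHom K Kd L).comp (IsScalarTower.toAlgHom K A Kd)
  have hψ : Function.Injective ψ := by
    have h1 : Function.Injective (algebraMap Kd L) := (algebraMap Kd L).injective
    have h2 : Function.Injective (algebraMap A Kd) := IsFractionRing.injective A Kd
    exact h1.comp h2
  let x : Fin d → L := fun i => ψ (X i)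
  have hax : (aeval x : A →ₐ[K] L) = ψ := by
    apply MvPolynomial.algHom_ext
    intro i
    simp [x]
  refine ⟨x, ?_, ?_⟩
  · change Function.Injective (aeval x)
    rw [hax]
    exact hψ
  · let E := IntermediateField.adjoin K (Set.range x)
    have hmem : ∀ q : Kd, algebraMap Kd L q ∈ E := by
      intro q
      obtain ⟨a, b, hb, rfl⟩ := IsFractionRing.div_surjective (A := A) q
      rw [map_div₀]
      have hA : ∀ a : A, algebraMap Kd L (algebraMap A Kd a) ∈ E := by
        intro a
        have : algebraMap Kd L (algebraMap A Kd a) = aeval x a := by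
          rw [hax]; rfl
        rw [this]
        have h3 : (aeval x a : L) ∈ Algebra.adjoin K (Set.range x) := by
          rw [Algebra.adjoin_range_eq_range_aeval]
          exact ⟨a, rfl⟩
        exact IntermediateField.algebra_adjoin_le_adjoin K _ h3
      exact div_mem (hA a) (hA b)
    let j : Kd →+* E :=
      { toFun := fun q => ⟨algebraMap Kd L q, hmem q⟩
        map_one' := by ext; simp
        map_mul' := by intro a b; ext; simp
        map_zero' := by ext; simp
        map_add' := by intro a b; ext; simp }
    let _ : Algebra Kd E := j.toAlgebra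
    have : IsScalarTower Kd E L := IsScalarTower.of_algebraMap_eq fun q => rfl
    change Module.Finite E L
    exact Module.Finite.of_restrictScalars_finite Kd E L

theorem semiampleData (K : Type u) [Field K] : SemiampleData.{u, v} K := by
  intro σ _ p h μ hμ
  obtain ⟨d, L, _, _, _, _, _, V, b, hb, hV, hfin, hlim⟩ := h
  have hAdm : Adm K V := hV
  have hrk : rk K (⋃ i, (V i : Set L)) = d := by
    have h1 : rk K (Set.univ : Set L) = d := rk_univ
    rw [← h1]
    refine (rk_eq_of_algebraic (Set.subset_univ _) fun y _ => ?_).symm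
    exact Algebra.IsAlgebraic.isAlgebraic y
  obtain ⟨P, hP⟩ := exists_vol V hAdm hrk
  set e := finrank (IntermediateField.adjoin K (⋃ i, (V i : Set L))) L with he
  have he0 : 0 < e := finrank_pos
  have hbR : (0 : ℝ) < (b : ℝ) := by exact_mod_cast hb
  set c : ℝ := (d.factorial : ℝ) * e / (b : ℝ) ^ d with hc
  have hc0 : 0 < c := by
    have : (0 : ℝ) < (d.factorial : ℝ) := by exact_mod_cast Nat.factorial_pos d
    have : (0 : ℝ) < (e : ℝ) := by exact_mod_cast he0
    positivity
  have key : ∀ w : σ → ℕ, (∀ i, 0 < w i) →
      c * eval (fun i => (w i : ℝ)) P = aeval (fun i => (w i : ℝ)) p := by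
    intro w hw
    have h1 := (hP.tendsto w hw).const_mul c
    have h2 := hlim w hw
    have h3 : ((MvPolynomial.eval (fun i => (w i : ℚ)) p : ℚ) : ℝ) =
        aeval (fun i => (w i : ℝ)) p := by
      have h4 := MvPolynomial.eval₂_comp_left (algebraMap ℚ ℝ) (RingHom.id ℚ)
        (fun i => (w i : ℚ)) p
      have h5 : (algebraMap ℚ ℝ) (MvPolynomial.eval (fun i => (w i : ℚ)) p) =
          MvPolynomial.eval₂ (algebraMap ℚ ℝ) (fun i => (w i : ℝ)) p := by
        rw [MvPolynomial.eval, MvPolynomial.coe_eval₂Hom, h4]
        congr 1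
      rw [MvPolynomial.aeval_def, ← h5]
      rfl
    rw [← h3]
    refine tendsto_nhds_unique h1 (h2.congr fun m => ?_)
    have h6 : (∏ i, (V i) ^ (m * w i) : Submodule K L) = prd V (fun i => m * w i) := rfl
    rw [h6]
    push_cast
    rw [hc, mul_pow]
    ring
  have hpoly : C c * P = MvPolynomial.map (algebraMap ℚ ℝ) p := by
    refine eq_of_eval_large _ _ 1 fun m hm => ?_
    rw [map_mul, eval_C, key m (fun i => hm i), MvPolynomial.eval_map, MvPolynomial.aeval_def]
  have hdD : μ.degree = d := by
    have h1 : (C c * P).IsHomogeneous d := by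
      have := (MvPolynomial.isHomogeneous_C σ c).mul hP.isHomogeneous
      simpa using this
    have h2 : coeff μ (C c * P) ≠ 0 := by
      rw [hpoly, MvPolynomial.coeff_map]
      simpa using hμ
    have h3 := h1 h2
    rw [← h3, Finsupp.degree_eq_weight_one]
    rfl
  rw [hdD]
  refine ⟨L, inferInstance, inferInstance, V, P, c⁻¹, hAdm, hrk, hfin, fnField_of_fin, hP,
    inv_pos.mpr hc0, ?_⟩
  rw [← hpoly, ← mul_assoc, ← map_mul, inv_mul_cancel₀ hc0.ne', map_one, one_mul]

theorem degZero : DegZero := by
  intro F _ _ hF x hx
  by_contra hne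
  have hfd : FiniteDimensional (IntermediateField.adjoin ℂ (Set.range x)) F :=
    FiniteDimensional.of_finrank_pos (Nat.pos_of_ne_zero hne)
  obtain ⟨y, hy, hyf⟩ := hF
  have h5 : rk ℂ (Set.univ : Set F) = (5 : ℕ) :=
    rk_eq_of_basis y (fun _ => Set.mem_univ _) hy fun z _ => Algebra.IsAlgebraic.isAlgebraic z
  have h1 : rk ℂ (Set.univ : Set F) = rk ℂ (Set.range x) :=
    rk_eq_of_algebraic (Set.subset_univ _) fun z _ => Algebra.IsAlgebraic.isAlgebraic z
  have h2 : rk ℂ (Set.range x) ≤ (Set.range x).encard :=
    (AlgebraicIndependent.matroid ℂ F).eRk_le_encard _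
  have h3 : (Set.range x).encard < 5 := by
    classical
    have : (Set.range x) = ((Finset.univ.image x : Finset F) : Set F) := by simp
    rw [this, Set.encard_coe_eq_coe_finsetCard]
    have h4 : (Finset.univ.image x).card < 5 := by
      refine lt_of_le_of_ne (Finset.card_image_le.trans (by simp)) fun h => hx ?_
      have h6 := Finset.card_image_iff.mp (h.trans (Finset.card_fin 5).symm)
      exact fun a b hab => h6 (Finset.mem_coe.mpr (Finset.mem_univ a))
        (Finset.mem_coe.mpr (Finset.mem_univ b)) hab
    exact_mod_cast h4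
  rw [← h1, h5] at h2
  exact absurd (lt_of_le_of_lt h2 h3) (by simp)

end EH
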