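import Mathlib

/-!
# The area formula with multiplicity on a local homeomorphism (EH cell, MP_9eee85_co)

`π : X → V` is a local homeomorphism, `μ` the measure on `X` with `μ A = ν (π '' A)` when `π` is
injective on `A`. For `F : X → V` smooth through the local sections of `π`:
`∫⁻ |det DF| g(F x) dμ = ∫⁻ g(w) #(F⁻¹ w) dν`.
-/

open Topology Filter MeasureTheory Set
open scoped ENNReal

namespace EHX

section

variable {X V : Type*} [TopologicalSpace X] [MeasurableSpace X] [BorelSpace X]
  [NormedAddCommGroup V] [NormedSpace ℝ V] [FiniteDimensional ℝ V] [MeasurableSpace V]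
  [BorelSpace V]

/-- `μ` is the measure on `X` with `μ A = ν (π '' A)` for `π` injective on `A`. -/
def IsPull (ν : Measure V) (π : X → V) (μ : Measure X) : Prop :=
  ∀ A, MeasurableSet A → InjOn π A → μ A = ν (π '' A)

omit [NormedSpace ℝ V] [FiniteDimensional ℝ V] in
/-- Change of variables on a chart. -/
theorem IsPull.lintegral {ν : Measure V} {π : X → V} {μ : Measure X} (hμ : IsPull ν π μ)
    (e : OpenPartialHomeomorph X V) (he : EqOn π e e.source) {A : Set X} (hA : MeasurableSet A)
    (hAe : A ⊆ e.source) (G : X → ℝ≥0∞) :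
    MeasurableSet (π '' A) ∧ ∫⁻ x in A, G x ∂μ = ∫⁻ z in π '' A, G (e.symm z) ∂ν := by
  have hU : MeasurableSet e.source := e.open_source.measurableSet
  set j : e.source → V := fun u => e u.1 with hj
  have hje : IsOpenEmbedding j := e.isOpenEmbedding_restrict
  have hjm : MeasurableEmbedding j := hje.measurableEmbedding
  have hvm : MeasurableEmbedding (Subtype.val : e.source → X) := MeasurableEmbedding.subtype_coe hU
  have hmeas : μ.comap (Subtype.val : e.source → X) = ν.comap j := by
    ext S hS
    rw [hvm.comap_apply, hjm.comap_apply, hμ _ (hvm.measurableSet_image.mpr hS)]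
    · congr 1
      rw [image_image]
      apply image_congr
      intro u _
      exact he u.2
    · rintro _ ⟨u, _, rfl⟩ _ ⟨v, _, rfl⟩ huv
      rw [he u.2, he v.2] at huv
      exact e.injOn u.2 v.2 huv
  set A' : Set e.source := Subtype.val ⁻¹' A with hA'
  have hA'm : MeasurableSet A' := hvm.measurable hA
  have hAA : Subtype.val '' A' = A := by
    rw [hA', Subtype.image_preimage_coe, inter_eq_right]; exact hAe
  have hjA : j '' A' = π '' A := by
    rw [← hAA, image_image]
    apply image_congr
    intro u _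
    exact (he u.2).symm
  have hπA : MeasurableSet (π '' A) := by
    rw [← hjA]; exact hjm.measurableSet_image.mpr hA'm
  refine ⟨hπA, ?_⟩
  have h1 : ∫⁻ x in A, G x ∂μ = ∫⁻ u in A', G u.1 ∂(μ.comap (Subtype.val : e.source → X)) := by
    have h2 : μ.restrict A = ((μ.comap (Subtype.val : e.source → X)).restrict A').map Subtype.val := by
      rw [← hvm.restrict_map, hvm.map_comap, Subtype.range_coe, Measure.restrict_restrict hA,
        inter_eq_left.mpr hAe]
    rw [h2, hvm.lintegral_map]
  have h3 : ∫⁻ z in π '' A, G (e.symm z) ∂ν = ∫⁻ u in A', G u.1 ∂(ν.comap j) := by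
    have h4 : ν.restrict (π '' A) = ((ν.comap j).restrict A').map j := by
      have h5 : A' = j ⁻¹' (π '' A) := by
        rw [← hjA, preimage_image_eq _ hjm.injective]
      conv_rhs => rw [h5]
      rw [← hjm.restrict_map, hjm.map_comap, Measure.restrict_restrict hπA]
      congr 1
      symm
      rw [inter_eq_left, ← hjA]
      exact image_subset_range _ _
    rw [h4, hjm.lintegral_map]
    apply lintegral_congr
    intro u
    rw [hj]
    simp only
    rw [e.left_inv u.2]
  rw [h1, h3, hmeas]

/-- `F` is differentiable through the local sections of `π`, with derivative `DF`. -/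
def HasSecDeriv (π : X → V) (F : X → V) (DF : X → V →L[ℝ] V) : Prop :=
  ∀ x, ∃ e : OpenPartialHomeomorph X V, x ∈ e.source ∧ EqOn π e e.source ∧
    ∀ z ∈ e.target, HasStrictFDerivAt (fun z => F (e.symm z)) (DF (e.symm z)) z

variable {ν : Measure V} [ν.IsAddHaarMeasure] {π : X → V} {μ : Measure X} {F : X → V}
  {DF : X → V →L[ℝ] V}

omit [BorelSpace V] [MeasurableSpace V] [BorelSpace X] [MeasurableSpace X]
  [FiniteDimensional ℝ V] in
theorem HasSecDeriv.deriv_image {e : OpenPartialHomeomorph X V}
    (h : ∀ z ∈ e.target, HasStrictFDerivAt (fun z => F (e.symm z)) (DF (e.symm z)) z)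
    (he : EqOn π e e.source) {A : Set X} (hAe : A ⊆ e.source) :
    ∀ z ∈ π '' A, HasFDerivWithinAt (fun z => F (e.symm z)) (DF (e.symm z)) (π '' A) z := by
  rintro _ ⟨x, hx, rfl⟩
  rw [he (hAe hx)]
  exact (h _ (e.map_source (hAe hx))).hasFDerivAt.hasFDerivWithinAt

omit [BorelSpace X] [MeasurableSpace X] [BorelSpace V] [MeasurableSpace V] [NormedSpace ℝ V]
  [FiniteDimensional ℝ V] in
theorem image_image_eq {e : OpenPartialHomeomorph X V} (he : EqOn π e e.source) {A : Set X}
    (hAe : A ⊆ e.source) : (fun z => F (e.symm z)) '' (π '' A) = F '' A := by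
  rw [image_image]
  apply image_congr
  intro x hx
  rw [he (hAe hx), e.left_inv (hAe hx)]

/-- The area formula on a piece where `F` is injective. -/
theorem area_piece (hμ : IsPull ν π μ) {e : OpenPartialHomeomorph X V} (he : EqOn π e e.source)
    (h : ∀ z ∈ e.target, HasStrictFDerivAt (fun z => F (e.symm z)) (DF (e.symm z)) z)
    {A : Set X} (hA : MeasurableSet A) (hAe : A ⊆ e.source) (hinj : InjOn F A) (g : V → ℝ≥0∞) :
    MeasurableSet (F '' A) ∧
      ∫⁻ x in A, ENNReal.ofReal |(DF x).det| * g (F x) ∂μ = ∫⁻ w in F '' A, g w ∂ν := by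
  obtain ⟨hm, h1⟩ := hμ.lintegral e he hA hAe (fun x => ENNReal.ofReal |(DF x).det| * g (F x))
  have hd := HasSecDeriv.deriv_image h he hAe
  have hinj' : InjOn (fun z => F (e.symm z)) (π '' A) := by
    rintro _ ⟨x, hx, rfl⟩ _ ⟨y, hy, rfl⟩ hxy
    simp only at hxy
    rw [he (hAe hx), he (hAe hy), e.left_inv (hAe hx), e.left_inv (hAe hy)] at hxy
    rw [hinj hx hy hxy]
  rw [← image_image_eq he hAe]
  refine ⟨measurable_image_of_fderivWithin hm hd hinj', ?_⟩
  rw [h1, lintegral_image_eq_lintegral_abs_det_fderiv_mul ν hm hd hinj' g]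

omit [BorelSpace X] [MeasurableSpace X] in
/-- Critical values form a null set, on a chart. -/
theorem null_piece {e : OpenPartialHomeomorph X V} (he : EqOn π e e.source)
    (h : ∀ z ∈ e.target, HasStrictFDerivAt (fun z => F (e.symm z)) (DF (e.symm z)) z)
    {A : Set X} (hAe : A ⊆ e.source) (hdet : ∀ x ∈ A, (DF x).det = 0) : ν (F '' A) = 0 := by
  rw [← image_image_eq (π := π) he hAe]
  refine addHaar_image_eq_zero_of_det_fderivWithin_eq_zero ν
    (HasSecDeriv.deriv_image h he hAe) ?_
  rintro _ ⟨x, hx, rfl⟩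
  rw [he (hAe hx), e.left_inv (hAe hx)]
  exact hdet x hx

variable [SecondCountableTopology X]

omit [BorelSpace X] [MeasurableSpace X] in
/-- The set of critical values is a null set. -/
theorem null_crit (hF : HasSecDeriv π F DF) : ν (F '' {x | (DF x).det = 0}) = 0 := by
  choose e hx he hd using hF
  obtain ⟨T, hT, hcov⟩ := TopologicalSpace.countable_cover_nhds
    (f := fun x => (e x).source) (fun x => (e x).open_source.mem_nhds (hx x))
  have h1 : F '' {x | (DF x).det = 0} ⊆ ⋃ x ∈ T, F '' ((e x).source ∩ {x | (DF x).det = 0}) := by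
    rintro _ ⟨x, hx0, rfl⟩
    have : x ∈ ⋃ x ∈ T, (e x).source := by rw [hcov]; trivial
    rw [mem_iUnion₂] at this
    obtain ⟨t, ht, hxt⟩ := this
    exact mem_iUnion₂.mpr ⟨t, ht, x, ⟨hxt, hx0⟩, rfl⟩
  refine measure_mono_null h1 ((measure_biUnion_null_iff hT).mpr fun t _ => ?_)
  exact null_piece (he t) (hd t) inter_subset_left fun x hx => hx.2

omit [MeasurableSpace V] [BorelSpace V] in
/-- A countable partition of the set of non-critical points in pieces where `F` is injective. -/
theorem exists_partition (hF : HasSecDeriv π F DF) (hDF : Measurable fun x => (DF x).det) :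
    ∃ (A : ℕ → Set X), (∀ k, MeasurableSet (A k)) ∧ Pairwise (Function.onFun Disjoint A) ∧
      (⋃ k, A k) = {x | (DF x).det ≠ 0} ∧ ∀ k, A k = ∅ ∨
        ∃ e : OpenPartialHomeomorph X V, A k ⊆ e.source ∧ EqOn π e e.source ∧
        (∀ z ∈ e.target, HasStrictFDerivAt (fun z => F (e.symm z)) (DF (e.symm z)) z) ∧
        InjOn F (A k) := by
  classical
  set N : Set X := {x | (DF x).det ≠ 0} with hN
  have hNm : MeasurableSet N := by
    have : N = (fun x => (DF x).det) ⁻¹' {0}ᶜ := rfl
    rw [this]; exact hDF (measurableSet_singleton 0).compl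
  choose e hx he hd using hF
  have hO : ∀ x ∈ N, ∃ O : Set X, IsOpen O ∧ x ∈ O ∧ O ⊆ (e x).source ∧ InjOn F O := by
    intro x hxN
    have h1 := hd x (e x x) ((e x).map_source (hx x))
    rw [(e x).left_inv (hx x)] at h1
    obtain ⟨L, hL⟩ : ∃ L : V ≃L[ℝ] V, (L : V →L[ℝ] V) = DF x := by
      refine ⟨ContinuousLinearMap.toContinuousLinearEquivOfDetNeZero (DF x) hxN, ?_⟩
      ext; simp
    rw [← hL] at h1
    set φ := h1.toOpenPartialHomeomorph (fun z => F ((e x).symm z)) with hφ
    refine ⟨(e x).source ∩ (e x) ⁻¹' φ.source, (e x).isOpen_inter_preimage φ.open_source,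
      ⟨hx x, h1.mem_toOpenPartialHomeomorph_source⟩, inter_subset_left, ?_⟩
    rintro y ⟨hy1, hy2⟩ y' ⟨hy1', hy2'⟩ hyy
    have h2 : φ (e x y) = φ (e x y') := by
      show F ((e x).symm (e x y)) = F ((e x).symm (e x y'))
      rw [(e x).left_inv hy1, (e x).left_inv hy1', hyy]
    exact (e x).injOn hy1 hy1' (φ.injOn hy2 hy2' h2)
  choose! O hOo hOx hOe hOi using hO
  obtain ⟨T, hTN, hT, hcov⟩ := TopologicalSpace.isOpen_biUnion_countable N O hOo
  rcases T.eq_empty_or_nonempty with hTe | hTne
  · have hNe : N = ∅ := by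
      rw [eq_empty_iff_forall_notMem]
      intro x hxN
      have : x ∈ ⋃ i ∈ N, O i := mem_iUnion₂.mpr ⟨x, hxN, hOx x hxN⟩
      rw [← hcov, hTe] at this
      simp at this
    refine ⟨fun _ => ∅, fun _ => MeasurableSet.empty, fun _ _ _ => disjoint_bot_left, ?_,
      fun _ => Or.inl rfl⟩
    rw [hNe]; simp
  · obtain ⟨s, rfl⟩ := hT.exists_eq_range hTne
    have hsN : ∀ k, s k ∈ N := fun k => hTN ⟨k, rfl⟩
    set B : ℕ → Set X := fun k => O (s k) ∩ N with hB
    have hBm : ∀ k, MeasurableSet (B k) := fun k => (hOo _ (hsN k)).measurableSet.inter hNm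
    refine ⟨disjointed B, fun k => MeasurableSet.disjointed hBm k, disjoint_disjointed B, ?_, ?_⟩
    · rw [iUnion_disjointed]
      apply Subset.antisymm
      · exact iUnion_subset fun k => inter_subset_right
      · intro x hxN
        have : x ∈ ⋃ i ∈ N, O i := mem_iUnion₂.mpr ⟨x, hxN, hOx x hxN⟩
        rw [← hcov, mem_iUnion₂] at this
        obtain ⟨_, ⟨k, rfl⟩, hk⟩ := this
        exact mem_iUnion.mpr ⟨k, hk, hxN⟩
    · intro k
      have hsub : disjointed B k ⊆ O (s k) := (disjointed_subset B k).trans inter_subset_left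
      exact Or.inr ⟨e (s k), hsub.trans (hOe _ (hsN k)), he _, hd _, (hOi _ (hsN k)).mono hsub⟩

/-- **Area formula with multiplicity.** -/
theorem area_formula [T1Space X] (hμ : IsPull ν π μ) (hF : HasSecDeriv π F DF)
    (hFm : Measurable F) (hDF : Measurable fun x => (DF x).det) {g : V → ℝ≥0∞} (hg : Measurable g) :
    ∫⁻ x, ENNReal.ofReal |(DF x).det| * g (F x) ∂μ =
      ∫⁻ w, g w * Measure.count (F ⁻¹' {w}) ∂ν := by
  classical
  obtain ⟨A, hAm, hAd, hAU, hAe⟩ := exists_partition hF hDF
  set G : X → ℝ≥0∞ := fun x => ENNReal.ofReal |(DF x).det| * g (F x) with hG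
  have hGm : Measurable G := by
    have : Measurable fun x => |(DF x).det| := by
      have h1 := continuous_abs.measurable.comp hDF
      exact h1
    exact this.ennreal_ofReal.mul (hg.comp hFm)
  have hpiece : ∀ k, MeasurableSet (F '' A k) ∧ ∫⁻ x in A k, G x ∂μ = ∫⁻ w in F '' A k, g w ∂ν := by
    intro k
    rcases hAe k with h0 | ⟨e, h1, h2, h3, h4⟩
    · rw [h0]; simp
    · exact area_piece hμ h2 h3 (hAm k) h1 h4 g
  have h1 : ∫⁻ x, G x ∂μ = ∫⁻ x in ⋃ k, A k, G x ∂μ := by
    rw [hAU, ← lintegral_indicator]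
    · apply lintegral_congr
      intro x
      by_cases hx : (DF x).det = 0
      · rw [indicator_of_notMem (by simpa using hx), hG]
        simp [hx]
      · rw [indicator_of_mem (show x ∈ {x | (DF x).det ≠ 0} from hx)]
    · rw [← hAU]; exact MeasurableSet.iUnion hAm
  have hcrit : ∀ᵐ w ∂ν, w ∉ F '' {x | (DF x).det = 0} := by
    exact measure_eq_zero_iff_ae_notMem.mp (null_crit hF)
  have hcount : ∀ᵐ w ∂ν, g w * Measure.count (F ⁻¹' {w}) =
      ∑' k, (F '' A k).indicator g w := by
    filter_upwards [hcrit] with w hw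
    have hfib : F ⁻¹' {w} = ⋃ k, (F ⁻¹' {w} ∩ A k) := by
      rw [← inter_iUnion, hAU]
      symm
      rw [inter_eq_left]
      intro x hx h0
      exact hw ⟨x, h0, hx⟩
    rw [hfib, measure_iUnion]
    · rw [← ENNReal.tsum_mul_left]
      apply tsum_congr
      intro k
      by_cases hwk : w ∈ F '' A k
      · rw [indicator_of_mem hwk]
        obtain ⟨x, hx, hxw⟩ := hwk
        have hinj : InjOn F (A k) := by
          rcases hAe k with h0 | ⟨e, _, _, _, h4⟩
          · rw [h0]; exact injOn_empty _
          · exact h4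
        have : F ⁻¹' {w} ∩ A k = {x} := by
          ext y
          constructor
          · rintro ⟨hy1, hy2⟩
            exact hinj hy2 hx (by rw [hxw]; exact hy1)
          · rintro rfl; exact ⟨hxw, hx⟩
        rw [this, Measure.count_singleton, mul_one]
      · rw [indicator_of_notMem hwk]
        have : F ⁻¹' {w} ∩ A k = ∅ := by
          rw [eq_empty_iff_forall_notMem]
          rintro y ⟨hy1, hy2⟩
          exact hwk ⟨y, hy2, hy1⟩
        rw [this, measure_empty, mul_zero]
    · intro i j hij
      exact (hAd hij).mono inter_subset_right inter_subset_right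
    · intro k
      exact (hFm (measurableSet_singleton w)).inter (hAm k)
  rw [h1, lintegral_iUnion hAm hAd, lintegral_congr_ae hcount, lintegral_tsum]
  · apply tsum_congr
    intro k
    rw [(hpiece k).2, lintegral_indicator (hpiece k).1]
  · intro k
    exact (hg.indicator (hpiece k).1).aemeasurable

/-- The case of constant multiplicity. -/
theorem area_const [T1Space X] (hμ : IsPull ν π μ) (hF : HasSecDeriv π F DF)
    (hFm : Measurable F) (hDF : Measurable fun x => (DF x).det) {g : V → ℝ≥0∞} (hg : Measurable g)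
    {N : ℕ} (hN : ∀ᵐ w ∂ν, (F ⁻¹' {w}).encard = N) :
    ∫⁻ x, ENNReal.ofReal |(DF x).det| * g (F x) ∂μ = N * ∫⁻ w, g w ∂ν := by
  rw [area_formula hμ hF hFm hDF hg, ← lintegral_const_mul _ hg]
  apply lintegral_congr_ae
  filter_upwards [hN] with w hw
  have hfin : (F ⁻¹' {w}).Finite := by
    rw [← encard_ne_top_iff, hw]; exact ENat.natCast_ne_top N
  rw [Measure.count_apply_finite _ hfin, mul_comm]
  congr 2
  have h2 : (F ⁻¹' {w}).encard = hfin.toFinset.card := hfin.encard_eq_coe_toFinset_card
  rw [hw] at h2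
  exact_mod_cast h2.symm

end

end EHX
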