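import Pool.Agent.Work.MP_9eee85_co.EH.Ext

/-!
EH: degrees in `E`; multiplication, `om`, `Lop`, `Λop`, `Hop` and degrees.
-/

namespace EH

open Finset

lemma mono_mem_Deg (S : Finset (Fin 10)) : mono S ∈ Deg S.card := by
  intro T hT
  rw [co_mono]
  exact if_neg fun h => hT (by rw [h])

lemma one_mem_Deg : (1 : E) ∈ Deg 0 := mono_mem_Deg ∅

lemma e_mem_Deg (a : Fin 10) : e a ∈ Deg 1 := mono_mem_Deg {a}

/-- the product of homogeneous elements -/
lemma mul_mem_Deg {k l : ℕ} {a b : E} (ha : a ∈ Deg k) (hb : b ∈ Deg l) : a * b ∈ Deg (k + l) := by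
  intro U hU
  rw [co_mul]
  refine sum_eq_zero fun S hS => ?_
  rw [mem_powerset] at hS
  by_cases h1 : S.card = k
  · have h2 : (U \ S).card ≠ l := by
      rw [card_sdiff_of_subset hS]
      have := card_le_card hS
      omega
    rw [hb _ h2, mul_zero]
  · rw [ha _ h1, mul_zero, zero_mul]

lemma om_mem_Deg : om ∈ Deg 2 :=
  Submodule.sum_mem _ fun _ _ => mul_mem_Deg (e_mem_Deg _) (e_mem_Deg _)

lemma om_pow_mem_Deg (n : ℕ) : om ^ n ∈ Deg (2 * n) := by
  induction n with
  | zero => simpa using one_mem_Deg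
  | succ n ih =>
    rw [pow_succ, show 2 * (n + 1) = 2 * n + 2 by ring]
    exact mul_mem_Deg ih om_mem_Deg

@[simp] lemma Lop_apply (a : E) : Lop a = om * a := rfl

lemma Lop_pow_apply (n : ℕ) (a : E) : (Lop ^ n : Module.End ℝ E) a = om ^ n * a := by
  induction n with
  | zero => simp
  | succ n ih =>
    rw [pow_succ', Module.End.mul_apply, ih, pow_succ', Lop_apply, mul_assoc]

lemma Lop_mem_Deg {k : ℕ} {a : E} (ha : a ∈ Deg k) : Lop a ∈ Deg (k + 2) := by
  rw [Lop_apply, add_comm]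
  exact mul_mem_Deg om_mem_Deg ha

lemma inner_mono (S : Finset (Fin 10)) (a : E) : inner ℝ (mono S) a = co a S := by
  rw [inner_eq, sum_eq_single S]
  · simp
  · intro T _ hT; simp [hT]
  · simp

/-- elements of different degree are orthogonal -/
lemma inner_eq_zero {k l : ℕ} (hkl : k ≠ l) {a b : E} (ha : a ∈ Deg k) (hb : b ∈ Deg l) :
    inner ℝ a b = 0 := by
  rw [inner_eq]
  refine sum_eq_zero fun S _ => ?_
  by_cases h : S.card = k
  · rw [hb S (by omega), mul_zero]
  · rw [ha S h, zero_mul]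

lemma inner_Λop (a b : E) : inner ℝ a (Λop b) = inner ℝ (om * a) b := by
  rw [Λop, LinearMap.adjoint_inner_right]; rfl

lemma inner_Λop' (a b : E) : inner ℝ (Λop a) b = inner ℝ a (om * b) := by
  rw [real_inner_comm, inner_Λop, real_inner_comm]

lemma co_Λop (a : E) (S) : co (Λop a) S = inner ℝ (om * mono S) a := by
  rw [← inner_mono, inner_Λop]

lemma Λop_mem_Deg {k : ℕ} {a : E} (ha : a ∈ Deg (k + 2)) : Λop a ∈ Deg k := by
  intro S hS
  rw [co_Λop]
  exact inner_eq_zero (k := 2 + S.card) (l := k + 2) (by omega)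
    (mul_mem_Deg om_mem_Deg (mono_mem_Deg S)) ha

lemma Λop_eq_zero {k : ℕ} (hk : k < 2) {a : E} (ha : a ∈ Deg k) : Λop a = 0 := by
  ext S
  rw [co_Λop, co_zero]
  exact inner_eq_zero (k := 2 + S.card) (l := k) (by omega)
    (mul_mem_Deg om_mem_Deg (mono_mem_Deg S)) ha

lemma Hop_apply_of {k : ℕ} {a : E} (ha : a ∈ Deg k) : Hop a = ((k : ℝ) - 5) • a := by
  ext S
  have e : co (Hop a) S = ((S.card : ℝ) - 5) * co a S := rfl
  rw [e, co_smul]
  by_cases h : S.card = k
  · rw [h]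
  · rw [ha S h, mul_zero, mul_zero]

/-- degree above ten vanishes -/
lemma eq_zero_of_Deg {k : ℕ} (hk : 10 < k) {a : E} (ha : a ∈ Deg k) : a = 0 := by
  ext S
  rw [co_zero]
  have := card_le_univ S
  rw [Fintype.card_fin] at this
  exact ha S (by omega)

lemma eq_smul_one {a : E} (ha : a ∈ Deg 0) : a = co a ∅ • (1 : E) := by
  ext S
  rw [co_smul, one_def, co_mono]
  by_cases h : S = ∅
  · simp [h]
  · rw [if_neg h, mul_zero]
    exact ha S (by rwa [Ne, card_eq_zero])

/-- degree ten is spanned by the volume form -/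
lemma eq_smul_univ {a : E} (ha : a ∈ Deg 10) : a = top a • mono univ := by
  ext S
  rw [co_smul, co_mono, top_apply]
  by_cases h : S = univ
  · simp [h]
  · rw [if_neg h, mul_zero]
    refine ha S fun hc => h ?_
    rw [← card_eq_iff_eq_univ, hc, Fintype.card_fin]

lemma top_eq_zero_of_Deg {k : ℕ} (hk : k ≠ 10) {a : E} (ha : a ∈ Deg k) : top a = 0 := by
  rw [top_apply]
  exact ha _ (by rw [card_univ, Fintype.card_fin]; omega)

/-! ### even elements are central -/

lemma sgn_comm {S T : Finset (Fin 10)} (h : Disjoint S T) :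
    sgn S T * sgn T S = (-1) ^ (S.card * T.card) := by
  unfold sgn
  rw [← pow_add]
  congr 1
  unfold inv
  rw [← card_product, ← card_filter_add_card_filter_not (s := S ×ˢ T) (fun p => p.2 < p.1)]
  congr 1
  refine card_bij' (fun p _ => (p.2, p.1)) (fun p _ => (p.2, p.1)) ?_ ?_ ?_ ?_
  · rintro ⟨s, t⟩ hp
    simp only [mem_filter, mem_product] at hp ⊢
    exact ⟨⟨hp.1.2, hp.1.1⟩, not_lt.2 hp.2.le⟩
  · rintro ⟨s, t⟩ hp
    simp only [mem_filter, mem_product, not_lt] at hp ⊢
    refine ⟨⟨hp.1.2, hp.1.1⟩, lt_of_le_of_ne hp.2 fun hst => ?_⟩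
    exact disjoint_left.1 h hp.1.1 (hst ▸ hp.1.2)
  · rintro ⟨s, t⟩ _; rfl
  · rintro ⟨s, t⟩ _; rfl

/-- graded commutativity -/
lemma mul_comm_of_Deg {k l : ℕ} {a b : E} (ha : a ∈ Deg k) (hb : b ∈ Deg l) :
    a * b = (-1 : ℝ) ^ (k * l) • (b * a) := by
  ext U
  rw [co_smul, co_mul, co_mul, mul_sum]
  refine sum_bij' (fun S _ => U \ S) (fun S _ => U \ S) ?_ ?_ ?_ ?_ ?_
  · intro S _; exact mem_powerset.2 sdiff_subset
  · intro S _; exact mem_powerset.2 sdiff_subset
  · intro S hS; exact Finset.sdiff_sdiff_eq_self (mem_powerset.1 hS)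
  · intro S hS; exact Finset.sdiff_sdiff_eq_self (mem_powerset.1 hS)
  · intro S hS
    have hS' := mem_powerset.1 hS
    rw [Finset.sdiff_sdiff_eq_self hS']
    by_cases h1 : S.card = k
    · by_cases h2 : (U \ S).card = l
      · have h3 := sgn_comm (S := S) (T := U \ S) disjoint_sdiff
        rw [h1, h2] at h3
        have h4 := sgn_sq (U \ S) S
        rw [← h3]
        linear_combination (-(sgn S (U \ S) * co a S * co b (U \ S))) * h4
      · rw [hb _ h2]; ring
    · rw [ha _ h1]; ring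

lemma om_mul_comm_of_Deg {k : ℕ} {a : E} (ha : a ∈ Deg k) : om * a = a * om := by
  rw [mul_comm_of_Deg om_mem_Deg ha, pow_mul]
  simp

lemma mul_comm_two_of_Deg {k l : ℕ} (hk : Even k) {a b : E} (ha : a ∈ Deg k) (hb : b ∈ Deg l) :
    a * b = b * a := by
  rw [mul_comm_of_Deg ha hb]
  obtain ⟨m, rfl⟩ := hk
  rw [show (m + m) * l = 2 * (m * l) by ring, pow_mul]
  simp

lemma sum_pr (a : E) : ∑ k ∈ range 11, pr k a = a := by
  ext S
  rw [co_sum]
  simp only [co_pr]
  rw [sum_eq_single S.card]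
  · simp
  · intro k _ hk; rw [if_neg (Ne.symm hk)]
  · intro h
    have := card_le_univ S
    rw [Fintype.card_fin] at this
    simp only [mem_range, not_lt] at h
    omega

lemma pr_mem_Deg (k : ℕ) (a : E) : pr k a ∈ Deg k := by
  intro S hS; rw [co_pr, if_neg hS]

lemma pr_of_mem {k : ℕ} {a : E} (ha : a ∈ Deg k) : pr k a = a := by
  ext S
  rw [co_pr]
  by_cases h : S.card = k
  · rw [if_pos h]
  · rw [if_neg h, ha S h]

/-- even elements are central -/
lemma mul_comm_even {k : ℕ} (hk : Even k) {a : E} (ha : a ∈ Deg k) (b : E) : a * b = b * a := by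
  conv_lhs => rw [← sum_pr b]
  conv_rhs => rw [← sum_pr b]
  rw [mul_sum, sum_mul]
  exact sum_congr rfl fun l _ => mul_comm_two_of_Deg hk ha (pr_mem_Deg l b)

lemma om_comm (a : E) : om * a = a * om := mul_comm_even ⟨1, rfl⟩ om_mem_Deg a

end EH
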