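import Pool.Agent.Work.MP_9eee85_co.EH.Ext
import Pool.Agent.Work.MP_9eee85_co.EH.LefDeg

/-!
# `E` is the exterior algebra of `ℝ^10`: universal property, functoriality, determinant

* `extHom f h : E →ₐ[ℝ] A` for `f : ℝ^10 →ₗ[ℝ] A` with squares zero, `extHom_gen`, `hom_ext`;
* `ext A : E →ₐ[ℝ] E`, the algebra endomorphism induced by `A : ℝ^10 →ₗ[ℝ] ℝ^10`;
  `ext_gen`, `ext_id`, `ext_comp`, `ext_pr`, `ext_mem_Deg`;
* `top_ext : top (ext A α) = LinearMap.det A * top α`.
-/

noncomputable section

namespace EH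

open Finset Module

/-- The space of covectors. -/
abbrev RV : Type := EuclideanSpace ℝ (Fin 10)

lemma mono_mul (S T : Finset (Fin 10)) :
    mono S * mono T = if Disjoint S T then sgn S T • mono (S ∪ T) else 0 := by
  ext U
  rw [co_mul]
  by_cases hSU : S ⊆ U
  · rw [Finset.sum_eq_single S]
    · by_cases hT : U \ S = T
      · have hd : Disjoint S T := by rw [← hT]; exact disjoint_sdiff
        have hU : U = S ∪ T := by rw [← hT]; exact (union_sdiff_of_subset hSU).symm
        rw [if_pos hd, co_smul, hT]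
        simp [hU]
      · rw [co_mono, co_mono, if_neg hT, mul_zero]
        split_ifs with hd
        · rw [co_smul, co_mono, if_neg, mul_zero]
          rintro rfl
          apply hT
          rw [union_sdiff_left]
          exact sdiff_eq_self_of_disjoint hd.symm
        · rfl
    · intro S' _ hne
      rw [co_mono, if_neg hne]; ring
    · intro h; exact absurd (mem_powerset.mpr hSU) h
  · rw [Finset.sum_eq_zero]
    · split_ifs with hd
      · rw [co_smul, co_mono, if_neg, mul_zero]
        rintro rfl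
        exact hSU subset_union_left
      · rfl
    · intro S' hS'
      rw [co_mono, if_neg]
      · ring
      · rintro rfl; exact hSU (mem_powerset.mp hS')

lemma mono_mul_of_disjoint {S T : Finset (Fin 10)} (h : Disjoint S T) :
    mono S * mono T = sgn S T • mono (S ∪ T) := by rw [mono_mul, if_pos h]

lemma mono_mul_of_not_disjoint {S T : Finset (Fin 10)} (h : ¬ Disjoint S T) :
    mono S * mono T = 0 := by rw [mono_mul, if_neg h]

lemma sgn_ne_zero (S T) : sgn S T ≠ 0 := by
  intro h
  have := sgn_sq S T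
  rw [h] at this
  norm_num at this

lemma inv_add_inv {S T : Finset (Fin 10)} (h : Disjoint S T) :
    inv S T + inv T S = S.card * T.card := by
  unfold inv
  rw [← card_product]
  have e1 : ((T ×ˢ S).filter (fun p => p.2 < p.1)).card =
      ((S ×ˢ T).filter (fun p => p.1 < p.2)).card := by
    refine Finset.card_bij' (fun p _ => (p.2, p.1)) (fun p _ => (p.2, p.1)) ?_ ?_ ?_ ?_
    · rintro ⟨a, b⟩ hp; simp only [mem_filter, mem_product] at hp ⊢; exact ⟨⟨hp.1.2, hp.1.1⟩, hp.2⟩
    · rintro ⟨a, b⟩ hp; simp only [mem_filter, mem_product] at hp ⊢; exact ⟨⟨hp.1.2, hp.1.1⟩, hp.2⟩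
    · rintro ⟨a, b⟩ _; rfl
    · rintro ⟨a, b⟩ _; rfl
  rw [e1, ← Finset.card_union_of_disjoint]
  · congr 1
    ext ⟨a, b⟩
    simp only [mem_union, mem_filter, mem_product]
    constructor
    · rintro (h | h) <;> exact h.1
    · rintro ⟨ha, hb⟩
      have hne : a ≠ b := by
        rintro rfl
        exact (disjoint_left.mp h) ha hb
      rcases lt_or_gt_of_ne hne with h1 | h1
      · exact Or.inr ⟨⟨ha, hb⟩, h1⟩
      · exact Or.inl ⟨⟨ha, hb⟩, h1⟩
  · rw [disjoint_left]
    rintro ⟨a, b⟩ h1 h2
    simp only [mem_filter] at h1 h2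
    exact lt_asymm h1.2 h2.2

lemma sgn_swap {S T : Finset (Fin 10)} (h : Disjoint S T) :
    sgn T S = (-1) ^ (S.card * T.card) * sgn S T := by
  have h1 : sgn S T * sgn T S = (-1) ^ (S.card * T.card) := by
    rw [sgn, sgn, ← pow_add, inv_add_inv h]
  have h2 := sgn_sq S T
  calc sgn T S = (sgn S T * sgn S T) * sgn T S := by rw [h2, one_mul]
    _ = (sgn S T * sgn T S) * sgn S T := by ring
    _ = _ := by rw [h1]

/-- Graded commutativity on monomials. -/
lemma mono_mul_comm (S T : Finset (Fin 10)) :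
    mono T * mono S = ((-1 : ℝ) ^ (S.card * T.card)) • (mono S * mono T) := by
  by_cases h : Disjoint S T
  · rw [mono_mul_of_disjoint h, mono_mul_of_disjoint h.symm, sgn_swap h, smul_smul, union_comm]
  · rw [mono_mul_of_not_disjoint h, mono_mul_of_not_disjoint (fun h' => h h'.symm), smul_zero]

lemma e_mul_e (a b : Fin 10) : e a * e b = -(e b * e a) := by
  have := mono_mul_comm {b} {a}
  simpa [e] using this

lemma e_mul_e_self (a : Fin 10) : e a * e a = 0 := by
  rw [e, mono_mul_of_not_disjoint]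
  simp

lemma gen_mul_gen (v w : RV) : gen v * gen w = -(gen w * gen v) := by
  rw [gen_apply, gen_apply, Finset.sum_mul_sum, Finset.sum_mul_sum, Finset.sum_comm,
    ← Finset.sum_neg_distrib]
  refine Finset.sum_congr rfl fun a _ => ?_
  rw [← Finset.sum_neg_distrib]
  refine Finset.sum_congr rfl fun b _ => ?_
  rw [smul_mul_smul_comm, smul_mul_smul_comm, ← smul_neg, mul_comm (v b)]
  congr 1
  exact e_mul_e b a

lemma gen_mul_self (v : RV) : gen v * gen v = 0 := by
  have h := gen_mul_gen v v
  have h2 : (2 : ℝ) • (gen v * gen v) = 0 := by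
    rw [two_smul]
    nth_rewrite 1 [h]
    exact neg_add_cancel _
  exact (smul_eq_zero.mp h2).resolve_left (by norm_num)

lemma gen_single (a : Fin 10) : gen (EuclideanSpace.single a 1) = e a := by
  rw [gen_apply, Finset.sum_eq_single a]
  · simp [e]
  · intro b _ hb; simp [hb]
  · intro h; exact absurd (mem_univ a) h

/-- The algebra map from Mathlib's exterior algebra. -/
def fromExt : ExteriorAlgebra ℝ RV →ₐ[ℝ] E :=
  ExteriorAlgebra.lift ℝ ⟨gen, gen_mul_self⟩

@[simp] lemma fromExt_ι (v : RV) : fromExt (ExteriorAlgebra.ι ℝ v) = gen v := by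
  simp [fromExt]

/-- Induction principle: a subalgebra containing the generators is everything. -/
lemma subalgebra_eq_top (P : Subalgebra ℝ E) (h : ∀ a, e a ∈ P) : P = ⊤ := by
  rw [eq_top_iff]
  have key : ∀ S : Finset (Fin 10), mono S ∈ P := by
    intro S
    induction S using Finset.induction_on with
    | empty => exact P.one_mem
    | insert a S ha ih =>
      have hd : Disjoint {a} S := by simpa using ha
      have h1 : e a * mono S = sgn {a} S • mono (insert a S) := by
        rw [e, mono_mul_of_disjoint hd, insert_eq]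
      have h2 : mono (insert a S) = sgn {a} S • (e a * mono S) := by
        rw [h1, smul_smul, sgn_sq, one_smul]
      rw [h2]
      exact P.smul_mem (P.mul_mem (h a) ih) _
  intro α _
  rw [← sum_mono α]
  exact P.sum_mem fun S _ => P.smul_mem (key S) _

lemma fromExt_surjective : Function.Surjective fromExt := by
  rw [← AlgHom.range_eq_top]
  apply subalgebra_eq_top
  intro a
  exact ⟨ExteriorAlgebra.ι ℝ (EuclideanSpace.single a 1), by
    change fromExt _ = _
    rw [fromExt_ι, gen_single]⟩

lemma finrank_E : finrank ℝ E = 2 ^ 10 := by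
  have h : finrank ℝ E = finrank ℝ (EuclideanSpace ℝ (Finset (Fin 10))) := rfl
  rw [h, finrank_euclideanSpace, Fintype.card_finset, Fintype.card_fin]

lemma fromExt_bijective : Function.Bijective fromExt := by
  have b : Basis (Fin 10) ℝ RV := (EuclideanSpace.basisFun (Fin 10) ℝ).toBasis
  have hf : FiniteDimensional ℝ (ExteriorAlgebra ℝ RV) := Module.Basis.finiteDimensional_of_finite b.ExteriorAlgebra
  have hr : finrank ℝ (ExteriorAlgebra ℝ RV) = finrank ℝ E := by
    rw [finrank_eq_card_basis b.ExteriorAlgebra, finrank_E, Fintype.card_finset, Fintype.card_fin]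
  have hs := fromExt_surjective
  refine ⟨?_, hs⟩
  exact (LinearMap.injective_iff_surjective_of_finrank_eq_finrank (f := fromExt.toLinearMap) hr).mpr hs

/-- `E` is the exterior algebra. -/
def extEquiv : ExteriorAlgebra ℝ RV ≃ₐ[ℝ] E := AlgEquiv.ofBijective fromExt fromExt_bijective

lemma extEquiv_ι (v : RV) : extEquiv (ExteriorAlgebra.ι ℝ v) = gen v := fromExt_ι v

section

variable {A : Type*} [Ring A] [Algebra ℝ A]

/-- The universal property of `E`. -/
def extHom (f : RV →ₗ[ℝ] A) (h : ∀ v, f v * f v = 0) : E →ₐ[ℝ] A :=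
  (ExteriorAlgebra.lift ℝ ⟨f, h⟩).comp extEquiv.symm.toAlgHom

@[simp] lemma extHom_gen (f : RV →ₗ[ℝ] A) (h : ∀ v, f v * f v = 0) (v : RV) :
    extHom f h (gen v) = f v := by
  change ExteriorAlgebra.lift ℝ ⟨f, h⟩ (extEquiv.symm (gen v)) = f v
  rw [← extEquiv_ι, AlgEquiv.symm_apply_apply]
  simp

lemma algHom_ext_e {f g : E →ₐ[ℝ] A} (h : ∀ a, f (e a) = g (e a)) : f = g := by
  have : AlgHom.equalizer f g = ⊤ := subalgebra_eq_top _ h
  ext α
  have h2 : α ∈ AlgHom.equalizer f g := by rw [this]; trivial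
  exact h2

lemma algHom_ext {f g : E →ₐ[ℝ] A} (h : ∀ v, f (gen v) = g (gen v)) : f = g := by
  apply algHom_ext_e
  intro a
  rw [← gen_single, h]

end

/-- The algebra endomorphism of `E` induced by an endomorphism of `ℝ^10`. -/
def ext (A : RV →ₗ[ℝ] RV) : E →ₐ[ℝ] E :=
  extHom (gen ∘ₗ A) (fun v => gen_mul_self (A v))

@[simp] lemma ext_gen (A : RV →ₗ[ℝ] RV) (v : RV) : ext A (gen v) = gen (A v) := by
  rw [ext, extHom_gen]; rfl

lemma ext_e (A : RV →ₗ[ℝ] RV) (a : Fin 10) : ext A (e a) = gen (A (EuclideanSpace.single a 1)) := by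
  rw [← gen_single, ext_gen]

@[simp] lemma ext_id : ext LinearMap.id = AlgHom.id ℝ E := by
  apply algHom_ext
  intro v
  simp

lemma ext_comp (A A' : RV →ₗ[ℝ] RV) : ext (A ∘ₗ A') = (ext A).comp (ext A') := by
  apply algHom_ext
  intro v
  simp

lemma ext_comp_apply (A A' : RV →ₗ[ℝ] RV) (α : E) : ext (A ∘ₗ A') α = ext A (ext A' α) := by
  rw [ext_comp]; rfl

lemma ext_mul_apply (A A' : RV →ₗ[ℝ] RV) (α : E) : ext (A * A') α = ext A (ext A' α) :=
  ext_comp_apply A A' α

@[simp] lemma ext_id_apply (α : E) : ext LinearMap.id α = α := by rw [ext_id]; rfl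

lemma ext_left_inv {A A' : RV →ₗ[ℝ] RV} (h : A' ∘ₗ A = LinearMap.id) (α : E) :
    ext A' (ext A α) = α := by
  rw [← ext_comp_apply, h, ext_id_apply]

/-! ### Degrees -/

lemma mem_Deg_mul {k l : ℕ} {α β : E} (hα : α ∈ Deg k) (hβ : β ∈ Deg l) :
    α * β ∈ Deg (k + l) := by
  intro U hU
  rw [co_mul]
  refine Finset.sum_eq_zero fun S hS => ?_
  by_cases h1 : S.card = k
  · by_cases h2 : (U \ S).card = l
    · exfalso
      apply hU
      have h3 := card_sdiff_add_card_eq_card (mem_powerset.mp hS)
      omega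
    · rw [hβ _ h2, mul_zero]
  · rw [hα _ h1]; ring

lemma gen_mem_Deg (v : RV) : gen v ∈ Deg 1 := by
  rw [gen_apply]
  exact (Deg 1).sum_mem fun a _ => (Deg 1).smul_mem _ (e_mem_Deg a)

lemma pr_of_mem_ne {k l : ℕ} {α : E} (h : α ∈ Deg k) (hl : l ≠ k) : pr l α = 0 := by
  ext S
  rw [co_pr, co_zero]
  split_ifs with hS
  · exact h S (fun h' => hl (hS.symm.trans h'))
  · rfl

lemma Deg_eq_bot {k : ℕ} (hk : 10 < k) : Deg k = ⊥ := by
  rw [eq_bot_iff]
  intro α hα
  rw [Submodule.mem_bot]
  ext S
  apply hα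
  have := card_le_univ S
  rw [Fintype.card_fin] at this
  omega

lemma mono_insert {a : Fin 10} {S : Finset (Fin 10)} (ha : a ∉ S) :
    mono (insert a S) = sgn {a} S • (e a * mono S) := by
  have hd : Disjoint {a} S := by simpa using ha
  have h1 : e a * mono S = sgn {a} S • mono (insert a S) := by
    rw [e, mono_mul_of_disjoint hd, insert_eq]
  rw [h1, smul_smul, sgn_sq, one_smul]

lemma ext_mono_mem (A : RV →ₗ[ℝ] RV) (S : Finset (Fin 10)) : ext A (mono S) ∈ Deg S.card := by
  induction S using Finset.induction_on with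
  | empty =>
    have : ext A (mono ∅) = 1 := map_one (ext A)
    rw [this]
    exact one_mem_Deg
  | insert a S ha ih =>
    rw [mono_insert ha, map_smul, map_mul, ext_e, card_insert_of_notMem ha, add_comm]
    exact (Deg _).smul_mem _ (mem_Deg_mul (gen_mem_Deg _) ih)

lemma ext_pr (A : RV →ₗ[ℝ] RV) (k : ℕ) (α : E) : pr k (ext A α) = ext A (pr k α) := by
  have key : pr k ∘ₗ (ext A).toLinearMap = (ext A).toLinearMap ∘ₗ pr k := by
    have hm : ∀ S, pr k (ext A (mono S)) = ext A (pr k (mono S)) := by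
      intro S
      by_cases hS : k = S.card
      · subst hS
        rw [pr_of_mem (ext_mono_mem A S), pr_of_mem (mono_mem_Deg S)]
      · rw [pr_of_mem_ne (ext_mono_mem A S) hS, pr_of_mem_ne (mono_mem_Deg S) hS, map_zero]
    ext1 α
    rw [← sum_mono α, map_sum, map_sum]
    refine Finset.sum_congr rfl fun S _ => ?_
    rw [map_smul, map_smul]
    congr 1
    exact hm S
  exact LinearMap.congr_fun key α

lemma ext_mem_Deg (A : RV →ₗ[ℝ] RV) {k : ℕ} {α : E} (h : α ∈ Deg k) : ext A α ∈ Deg k := by
  rw [← pr_of_mem h, ← ext_pr]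
  exact pr_mem_Deg _ _

/-! ### The determinant -/

lemma top_of_mem_Deg {k : ℕ} {α : E} (h : α ∈ Deg k) (hk : k ≠ 10) : top α = 0 := by
  rw [top_apply]
  apply h
  rw [card_univ, Fintype.card_fin]
  exact hk.symm

lemma eq_top_smul {α : E} (h : α ∈ Deg 10) : α = top α • mono univ := by
  ext S
  rw [co_smul, co_mono]
  split_ifs with hS
  · rw [hS, top_apply, mul_one]
  · rw [mul_zero]
    apply h
    intro hc
    apply hS
    rw [← card_eq_iff_eq_univ, hc, Fintype.card_fin]

@[simp] lemma top_mono_univ : top (mono univ) = 1 := by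
  rw [top_apply, co_mono, if_pos rfl]

lemma top_pr (α : E) : top (pr 10 α) = top α := by
  rw [top_apply, top_apply, co_pr, if_pos]
  rw [card_univ, Fintype.card_fin]

lemma e_mul_mono_of_lt {a : Fin 10} {T : Finset (Fin 10)} (h : ∀ t ∈ T, a < t) :
    e a * mono T = mono (insert a T) := by
  have ha : a ∉ T := fun h' => lt_irrefl _ (h a h')
  have h0 : sgn {a} T = 1 := by
    rw [sgn, inv]
    have : (({a} : Finset (Fin 10)) ×ˢ T).filter (fun p => p.2 < p.1) = ∅ := by
      rw [filter_eq_empty_iff]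
      rintro ⟨x, y⟩ hp hlt
      simp only [mem_product, mem_singleton] at hp
      rw [hp.1] at hlt
      exact lt_asymm hlt (h _ hp.2)
    rw [this, card_empty, pow_zero]
  rw [mono_insert ha, h0, one_smul]

lemma prod_e : (List.ofFn (fun i : Fin 10 => e i)).prod = mono univ := by
  simp only [List.ofFn_succ, List.ofFn_zero, List.prod_cons, List.prod_nil]
  rw [one_def]
  repeat rw [e_mul_mono_of_lt (by decide)]
  congr 1

/-- The volume form as an alternating map. -/
def topAlt : RV [⋀^Fin 10]→ₗ[ℝ] ℝ :=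
  (top ∘ₗ fromExt.toLinearMap).compAlternatingMap (ExteriorAlgebra.ιMulti ℝ 10)

lemma topAlt_apply (v : Fin 10 → RV) : topAlt v = top (List.ofFn fun i => gen (v i)).prod := by
  change top (fromExt (ExteriorAlgebra.ιMulti ℝ 10 v)) = _
  rw [ExteriorAlgebra.ιMulti_apply, map_list_prod, List.map_ofFn]
  congr 2
  congr 1
  funext i
  exact fromExt_ι _

/-- The top coefficient of a product of ten covectors is a determinant. -/
lemma top_prod_gen (v : Fin 10 → RV) :
    top (List.ofFn fun i => gen (v i)).prod =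
      (EuclideanSpace.basisFun (Fin 10) ℝ).toBasis.det v := by
  rw [← topAlt_apply, topAlt.eq_smul_basis_det (EuclideanSpace.basisFun (Fin 10) ℝ).toBasis]
  rw [AlternatingMap.smul_apply, topAlt_apply]
  have : (List.ofFn fun i => gen ((EuclideanSpace.basisFun (Fin 10) ℝ).toBasis i)).prod
      = mono univ := by
    rw [← prod_e]
    congr 2
    funext i
    rw [OrthonormalBasis.coe_toBasis, EuclideanSpace.basisFun_apply, gen_single]
  rw [this, top_mono_univ, one_smul]

/-- `ext A` acts on the top degree by the determinant. -/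
theorem top_ext (A : RV →ₗ[ℝ] RV) (α : E) : top (ext A α) = LinearMap.det A * top α := by
  have h1 : top (ext A (mono univ)) = LinearMap.det A := by
    rw [← prod_e, map_list_prod, List.map_ofFn]
    have : (List.ofFn (ext A ∘ fun i => e i)) = List.ofFn fun i =>
        gen ((A ∘ (EuclideanSpace.basisFun (Fin 10) ℝ).toBasis) i) := by
      congr 1
      funext i
      simp only [Function.comp_apply]
      rw [ext_e, OrthonormalBasis.coe_toBasis, EuclideanSpace.basisFun_apply]
    rw [this, top_prod_gen, Basis.det_comp, Basis.det_self, mul_one]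
  rw [← top_pr, ext_pr, eq_top_smul (pr_mem_Deg 10 α), map_smul, map_smul, h1, top_pr,
    smul_eq_mul, mul_comm]

end EH
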