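import Mathlib

/-!
# The exterior algebra of `ℝ^10` as a Euclidean algebra

`E` is the Euclidean space with orthonormal basis `mono S`, `S` a finite subset of `Fin 10`
(the monomial `e_S`, product of the `e_a`, `a ∈ S`, in increasing order), with the exterior
product `e_S e_T = sgn S T e_(S ∪ T)` for disjoint `S`, `T`.
The coordinates are `x_j ↔ 2j`, `y_j ↔ 2j+1`.
-/

noncomputable section

namespace EH

open Finset

/-- The number of pairs `(s, t)` in `S × T` with `t < s`. -/
def inv (S T : Finset (Fin 10)) : ℕ := ((S ×ˢ T).filter (fun p => p.2 < p.1)).card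

/-- The sign of the shuffle of `S` and `T`. -/
def sgn (S T : Finset (Fin 10)) : ℝ := (-1) ^ inv S T

/-- The exterior algebra of `ℝ^10`. -/
def E : Type := EuclideanSpace ℝ (Finset (Fin 10))

instance : NormedAddCommGroup E := inferInstanceAs (NormedAddCommGroup (EuclideanSpace ℝ _))
instance : InnerProductSpace ℝ E := inferInstanceAs (InnerProductSpace ℝ (EuclideanSpace ℝ _))
instance : FiniteDimensional ℝ E :=
  inferInstanceAs (FiniteDimensional ℝ (EuclideanSpace ℝ (Finset (Fin 10))))

/-- Coordinates of an element of `E`. -/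
def co (α : E) (S : Finset (Fin 10)) : ℝ := (show EuclideanSpace ℝ (Finset (Fin 10)) from α) S

/-- The element of `E` with given coordinates. -/
def mk (f : Finset (Fin 10) → ℝ) : E := (WithLp.toLp 2 f : EuclideanSpace ℝ (Finset (Fin 10)))

@[simp] lemma co_mk (f : Finset (Fin 10) → ℝ) (S) : co (mk f) S = f S := rfl
@[simp] lemma co_add (α β : E) (S) : co (α + β) S = co α S + co β S := rfl
@[simp] lemma co_sub (α β : E) (S) : co (α - β) S = co α S - co β S := rfl
@[simp] lemma co_neg (α : E) (S) : co (-α) S = -co α S := rfl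
@[simp] lemma co_smul (c : ℝ) (α : E) (S) : co (c • α) S = c * co α S := rfl
@[simp] lemma co_zero (S) : co (0 : E) S = 0 := rfl

@[ext] lemma E.ext {α β : E} (h : ∀ S, co α S = co β S) : α = β := by
  apply (WithLp.ofLp_injective 2)
  funext S
  exact h S

@[simp] lemma mk_co (α : E) : mk (co α) = α := by
  ext S; rfl

/-- The coordinate as a linear map. -/
def coL (S : Finset (Fin 10)) : E →ₗ[ℝ] ℝ where
  toFun α := co α S
  map_add' _ _ := rfl
  map_smul' _ _ := rfl

@[simp] lemma coL_apply (S) (α : E) : coL S α = co α S := rfl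

@[simp] lemma co_sum {ι : Type*} (s : Finset ι) (f : ι → E) (S) :
    co (∑ i ∈ s, f i) S = ∑ i ∈ s, co (f i) S := by
  rw [← coL_apply, map_sum]; rfl

lemma inner_eq (α β : E) : inner ℝ α β = ∑ S, co α S * co β S := by
  have h : inner ℝ α β = ∑ S, inner ℝ (co α S) (co β S) := rfl
  rw [h]
  refine Finset.sum_congr rfl fun S _ => ?_
  simp [mul_comm]

lemma norm_sq_eq (α : E) : ‖α‖ ^ 2 = ∑ S, co α S ^ 2 := by
  rw [← real_inner_self_eq_norm_sq, inner_eq]
  simp [sq]

/-- The monomial `e_S`. -/
def mono (S : Finset (Fin 10)) : E := mk (fun T => if T = S then 1 else 0)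

@[simp] lemma co_mono (S T) : co (mono S) T = if T = S then 1 else 0 := rfl

lemma sum_mono (α : E) : ∑ S, co α S • mono S = α := by
  ext T; simp

/-- The exterior product. -/
instance : Mul E := ⟨fun α β => mk (fun U => ∑ S ∈ U.powerset, sgn S (U \ S) * co α S * co β (U \ S))⟩
instance : One E := ⟨mono ∅⟩

lemma co_mul (α β : E) (U) :
    co (α * β) U = ∑ S ∈ U.powerset, sgn S (U \ S) * co α S * co β (U \ S) := rfl

lemma one_def : (1 : E) = mono ∅ := rfl

lemma inv_empty_left (T) : inv ∅ T = 0 := by simp [inv]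
lemma inv_empty_right (S) : inv S ∅ = 0 := by simp [inv]

lemma inv_union_left {S S' : Finset (Fin 10)} (T) (h : Disjoint S S') :
    inv (S ∪ S') T = inv S T + inv S' T := by
  unfold inv
  rw [union_product, filter_union, card_union_of_disjoint]
  apply disjoint_filter_filter
  exact disjoint_product.mpr (Or.inl h)

lemma inv_union_right (S) {T T' : Finset (Fin 10)} (h : Disjoint T T') :
    inv S (T ∪ T') = inv S T + inv S T' := by
  unfold inv
  rw [product_union, filter_union, card_union_of_disjoint]
  apply disjoint_filter_filter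
  exact disjoint_product.mpr (Or.inr h)

lemma sgn_union_left {S S' : Finset (Fin 10)} (T) (h : Disjoint S S') :
    sgn (S ∪ S') T = sgn S T * sgn S' T := by
  rw [sgn, inv_union_left T h, pow_add]; rfl

lemma sgn_union_right (S) {T T' : Finset (Fin 10)} (h : Disjoint T T') :
    sgn S (T ∪ T') = sgn S T * sgn S T' := by
  rw [sgn, inv_union_right S h, pow_add]; rfl

lemma sgn_sq (S T) : sgn S T * sgn S T = 1 := by
  rw [sgn, ← mul_pow]; norm_num

private lemma E.mul_assoc (α β γ : E) : α * β * γ = α * (β * γ) := by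
  ext U
  rw [co_mul, co_mul]
  simp only [co_mul, Finset.mul_sum, Finset.sum_mul]
  rw [Finset.sum_sigma', Finset.sum_sigma']
  refine Finset.sum_bij' (fun p _ => ⟨p.2, p.1 \ p.2⟩) (fun p _ => ⟨p.1 ∪ p.2, p.1⟩) ?_ ?_ ?_ ?_ ?_
  · rintro ⟨V, S⟩ h
    simp only [mem_sigma, mem_powerset] at h ⊢
    exact ⟨h.2.trans h.1, sdiff_subset_sdiff h.1 le_rfl⟩
  · rintro ⟨S, T⟩ h
    simp only [mem_sigma, mem_powerset] at h ⊢
    exact ⟨union_subset h.1 (h.2.trans sdiff_subset), subset_union_left⟩
  · rintro ⟨V, S⟩ h
    simp only [mem_sigma, mem_powerset] at h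
    simp only [Sigma.mk.injEq, heq_eq_eq, and_true]
    exact union_sdiff_of_subset h.2
  · rintro ⟨S, T⟩ h
    simp only [mem_sigma, mem_powerset] at h
    simp only [Sigma.mk.injEq, heq_eq_eq, true_and]
    rw [union_sdiff_left]
    exact sdiff_eq_self_of_disjoint (disjoint_of_subset_left h.2 sdiff_disjoint)
  · rintro ⟨V, S⟩ h
    simp only [mem_sigma, mem_powerset] at h
    have e1 : (U \ S) \ (V \ S) = U \ V := by
      ext a; simp only [mem_sdiff]; constructor
      · rintro ⟨⟨h1, h2⟩, h3⟩; exact ⟨h1, fun hV => h3 ⟨hV, h2⟩⟩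
      · rintro ⟨h1, h2⟩; exact ⟨⟨h1, fun hS => h2 (h.2 hS)⟩, fun h3 => h2 h3.1⟩
    have e2 : U \ S = (V \ S) ∪ (U \ V) := by
      ext a; simp only [mem_sdiff, mem_union]; constructor
      · rintro ⟨h1, h2⟩
        by_cases hV : a ∈ V
        · exact Or.inl ⟨hV, h2⟩
        · exact Or.inr ⟨h1, hV⟩
      · rintro (⟨h1, h2⟩ | ⟨h1, h2⟩)
        · exact ⟨h.1 h1, h2⟩
        · exact ⟨h1, fun hS => h2 (h.2 hS)⟩
    have e3 : V = S ∪ (V \ S) := (union_sdiff_of_subset h.2).symm
    have d1 : Disjoint S (V \ S) := disjoint_sdiff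
    have d2 : Disjoint (V \ S) (U \ V) := by
      rw [disjoint_left]; intro a h1 h2
      simp only [mem_sdiff] at h1 h2
      exact h2.2 h1.1
    have e4 : sgn V (U \ V) = sgn S (U \ V) * sgn (V \ S) (U \ V) := by
      conv_lhs => rw [e3]
      rw [sgn_union_left _ d1, ← e3]
    have e5 : sgn S (U \ S) = sgn S (V \ S) * sgn S (U \ V) := by
      conv_lhs => rw [e2]
      rw [sgn_union_right _ d2]
    simp only
    rw [e1, e4, e5]
    ring

instance : Ring E :=
  { (inferInstance : AddCommGroup E), (inferInstance : Mul E), (inferInstance : One E) with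
    left_distrib := fun α β γ => by
      ext U; simp only [co_mul, co_add, ← Finset.sum_add_distrib]
      exact Finset.sum_congr rfl fun S _ => by ring
    right_distrib := fun α β γ => by
      ext U; simp only [co_mul, co_add, ← Finset.sum_add_distrib]
      exact Finset.sum_congr rfl fun S _ => by ring
    zero_mul := fun α => by ext U; simp [co_mul]
    mul_zero := fun α => by ext U; simp [co_mul]
    mul_assoc := E.mul_assoc
    one_mul := fun α => by
      ext U
      rw [co_mul, Finset.sum_eq_single ∅]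
      · simp [one_def, sgn, inv_empty_left]
      · intro S _ hS; simp [one_def, hS]
      · intro h; exact absurd (empty_mem_powerset U) h
    mul_one := fun α => by
      ext U
      rw [co_mul, Finset.sum_eq_single U]
      · simp [one_def, sgn, inv_empty_right]
      · intro S hS hne
        have : U \ S ≠ ∅ := by
          intro h0
          exact hne (subset_antisymm (mem_powerset.mp hS) (sdiff_eq_empty_iff_subset.mp h0))
        simp [one_def, this]
      · intro h; exact absurd (mem_powerset_self U) h }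

instance : Algebra ℝ E := Algebra.ofModule
  (fun r α β => by ext U; simp only [co_mul, co_smul, Finset.mul_sum]; exact Finset.sum_congr rfl fun S _ => by ring)
  (fun r α β => by ext U; simp only [co_mul, co_smul, Finset.mul_sum]; exact Finset.sum_congr rfl fun S _ => by ring)

/-- Check: the two module structures agree. -/
example (c : ℝ) (α : E) : algebraMap ℝ E c * α = c • α := (Algebra.smul_def c α).symm

/-- The product as a bilinear map. -/
def mulL : E →ₗ[ℝ] E →ₗ[ℝ] E := LinearMap.mul ℝ E

@[simp] lemma mulL_apply (α β : E) : mulL α β = α * β := rfl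

/-- The projection onto degree `k`. -/
def pr (k : ℕ) : E →ₗ[ℝ] E where
  toFun α := mk (fun S => if S.card = k then co α S else 0)
  map_add' α β := by ext S; simp only [co_mk, co_add]; split_ifs <;> simp
  map_smul' c α := by ext S; simp only [co_mk, co_smul, RingHom.id_apply]; split_ifs <;> simp

@[simp] lemma co_pr (k) (α : E) (S) : co (pr k α) S = if S.card = k then co α S else 0 := rfl

/-- The elements of degree `k`. -/
def Deg (k : ℕ) : Submodule ℝ E where
  carrier := {α | ∀ S, S.card ≠ k → co α S = 0}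
  add_mem' ha hb := fun S hS => by simp [ha S hS, hb S hS]
  zero_mem' := fun S _ => rfl
  smul_mem' c α h := fun S hS => by simp [h S hS]

lemma mem_Deg {k : ℕ} {α : E} : α ∈ Deg k ↔ ∀ S, S.card ≠ k → co α S = 0 := Iff.rfl

/-- The grade involution `α ↦ (-1)^|α| α`. -/
def par : E →ₗ[ℝ] E where
  toFun α := mk (fun S => (-1) ^ S.card * co α S)
  map_add' α β := by ext S; simp only [co_mk, co_add]; ring
  map_smul' c α := by ext S; simp only [co_mk, co_smul, RingHom.id_apply]; ring

@[simp] lemma co_par (α : E) (S) : co (par α) S = (-1) ^ S.card * co α S := rfl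

/-- The coefficient of the volume form. -/
def top : E →ₗ[ℝ] ℝ := coL univ

lemma top_apply (α : E) : top α = co α univ := rfl

/-- The degree one elements: `gen v = ∑ v_a e_a`. -/
def gen : EuclideanSpace ℝ (Fin 10) →ₗ[ℝ] E where
  toFun v := ∑ a, v a • mono {a}
  map_add' v w := by simp [add_smul, Finset.sum_add_distrib]
  map_smul' c v := by simp [mul_smul, Finset.smul_sum]

lemma gen_apply (v : EuclideanSpace ℝ (Fin 10)) : gen v = ∑ a, v a • mono {a} := rfl

/-- The generators `e_a`. -/
def e (a : Fin 10) : E := mono {a}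

/-- The index of `x_j`. -/
def xi (j : Fin 5) : Fin 10 := ⟨2 * j, by omega⟩
/-- The index of `y_j`. -/
def yi (j : Fin 5) : Fin 10 := ⟨2 * j + 1, by omega⟩

/-- The standard Kähler form `∑ dx_j dy_j`. -/
def om : E := ∑ j, e (xi j) * e (yi j)

/-- Multiplication by the standard Kähler form. -/
def Lop : E →ₗ[ℝ] E := mulL om

/-- The adjoint of `Lop`. -/
def Λop : E →ₗ[ℝ] E := LinearMap.adjoint Lop

/-- `deg - 5`. -/
def Hop : E →ₗ[ℝ] E where
  toFun α := mk (fun S => ((S.card : ℝ) - 5) * co α S)
  map_add' α β := by ext S; simp only [co_mk, co_add]; ring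
  map_smul' c α := by ext S; simp only [co_mk, co_smul, RingHom.id_apply]; ring

/-- Exchange of `x_j` and `y_j` (on indices). -/
def sw (a : Fin 10) : Fin 10 := if a.val % 2 = 0 then ⟨(a.val + 1) % 10, by omega⟩ else ⟨a.val - 1, by omega⟩

/-- The number of `j` with `S ∩ {x_j, y_j} = {y_j}`. -/
def ny (S : Finset (Fin 10)) : ℕ := (univ.filter (fun j : Fin 5 => yi j ∈ S ∧ xi j ∉ S)).card

/-- The complex structure, the algebra automorphism with `dx_j ↦ -dy_j`, `dy_j ↦ dx_j`. -/
def J : E →ₗ[ℝ] E where
  toFun α := mk (fun S => (-1) ^ ny S * co α (S.image sw))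
  map_add' α β := by ext S; simp only [co_mk, co_add]; ring
  map_smul' c α := by ext S; simp only [co_mk, co_smul, RingHom.id_apply]; ring

/-- The inverse of `J` (`J⁻¹ = J³`). -/
def Jinv : E →ₗ[ℝ] E := J ∘ₗ J ∘ₗ J

/-- The Hodge star: `e_S ↦ sgn(S, S^c) e_(S^c)`. -/
def star : E →ₗ[ℝ] E where
  toFun α := mk (fun S => sgn Sᶜ S * co α Sᶜ)
  map_add' α β := by ext S; simp only [co_mk, co_add]; ring
  map_smul' c α := by ext S; simp only [co_mk, co_smul, RingHom.id_apply]; ring

lemma co_star (α : E) (S) : co (star α) S = sgn Sᶜ S * co α Sᶜ := rfl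

/-- The inner product through the star. -/
lemma top_mul_star (α β : E) : top (α * star β) = inner ℝ α β := by
  rw [top_apply, co_mul, inner_eq, powerset_univ]
  refine Finset.sum_congr rfl fun S _ => ?_
  rw [co_star, ← compl_eq_univ_sdiff, compl_compl]
  have := sgn_sq S Sᶜ
  linear_combination (co α S * co β S) * this

end EH
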