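import Mathlib

/-!
EH, operator algebra: `sl_2` triples of nilpotent operators, `s = exp L * exp (-Λ) * exp L`.

Everything takes place in a ring `A` with `[Algebra ℝ A]` (think of `A = Module.End ℝ V`).

* `nexp N a = ∑ i < N, a ^ i / i!`;
* `Trip N L Λ H`: `L Λ - Λ L = H`, `H L - L H = 2 L`, `H Λ - Λ H = -2 Λ`, `L ^ N = Λ ^ N = 0`;
* `Trip.s`: the element `s`; `s * si = 1`, `si * s = 1`;
* `Trip.double`: if `L A = A L`, `H A - A H = A`, then `Λ` commutes with `[Λ, A]`;
* `Trip.s_mul`: then `s * A = -[Λ, A] * s` (Kähler identity, star operator);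
* `Trip.s_L`: `s * L = -Λ * s`, `s * Λ = -L * s`, `s * H = -H * s`.
-/

namespace EH

open Finset

variable {A : Type*} [Ring A] [Algebra ℝ A]

/-- truncated exponential series -/
noncomputable def nexp (N : ℕ) (a : A) : A := ∑ i ∈ range N, ((i.factorial : ℝ)⁻¹) • a ^ i

lemma nexp_eq {N M : ℕ} {a : A} (h : a ^ N = 0) (hM : N ≤ M) : nexp M a = nexp N a := by
  unfold nexp
  rw [← sum_range_add_sum_Ico _ hM, add_eq_left]
  refine sum_eq_zero fun i hi => ?_
  rw [pow_eq_zero_of_le (mem_Ico.mp hi).1 h, smul_zero]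

lemma nexp_mul_neg {N : ℕ} {a : A} (h : a ^ N = 0) : nexp N a * nexp N (-a) = 1 := by
  let _ : Module ℚ A := Module.compHom A (algebraMap ℚ ℝ)
  have h1 : ∀ b : A, b ^ N = 0 → nexp N b = IsNilpotent.exp b := by
    intro b hb
    rw [IsNilpotent.exp_eq_sum hb]
    unfold nexp
    refine sum_congr rfl fun i _ => ?_
    change _ = (algebraMap ℚ ℝ ((i.factorial : ℚ)⁻¹)) • b ^ i
    simp
  rw [h1 a h, h1 (-a) (by rw [neg_pow, h, mul_zero]), IsNilpotent.exp_mul_exp_neg_self ⟨N, h⟩]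

lemma nexp_neg_mul {N : ℕ} {a : A} (h : a ^ N = 0) : nexp N (-a) * nexp N a = 1 := by
  have := nexp_mul_neg (a := -a) (N := N) (by rw [neg_pow, h, mul_zero])
  rwa [neg_neg] at this

lemma nexp_commute {N : ℕ} {a b : A} (h : a * b = b * a) : nexp N a * b = b * nexp N a := by
  unfold nexp
  rw [sum_mul, mul_sum]
  refine sum_congr rfl fun i _ => ?_
  rw [smul_mul_assoc, mul_smul_comm]
  congr 1
  exact (Commute.pow_left (show Commute a b from h) i).eq

/-- `a ^ n * b` for an element `b` with `[a, [a, [a, b]]] = 0` -/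
lemma pow_mul_comm3 {a b b1 b2 : A} (h1 : a * b = b * a + b1) (h2 : a * b1 = b1 * a + b2)
    (h3 : a * b2 = b2 * a) (n : ℕ) :
    a ^ (n + 2) * b = b * a ^ (n + 2) + ((n + 2 : ℕ) : ℝ) • (b1 * a ^ (n + 1)) +
      (((n + 2 : ℕ) : ℝ) * ((n + 1 : ℕ) : ℝ) / 2) • (b2 * a ^ n) := by
  induction n with
  | zero =>
    have e : a ^ 2 * b = a * (a * b) := by noncomm_ring
    simp only [zero_add, pow_zero, mul_one, pow_one]
    rw [e, h1, mul_add, h2, ← mul_assoc, h1]
    have e2 : (b * a + b1) * a = b * a ^ 2 + b1 * a := by noncomm_ring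
    rw [e2]
    push_cast
    norm_num
    rw [two_smul]
    abel
  | succ n ih =>
    have e : a ^ (n + 1 + 2) * b = a * (a ^ (n + 2) * b) := by
      rw [← mul_assoc, ← pow_succ']
    rw [e, ih, mul_add, mul_add, mul_smul_comm, mul_smul_comm, ← mul_assoc, ← mul_assoc,
      ← mul_assoc, h1, h2, h3, add_mul, add_mul, mul_assoc b, mul_assoc b1, mul_assoc b2,
      ← pow_succ', ← pow_succ', ← pow_succ']
    rw [smul_add]
    have e3 : b2 * a ^ (n + 1) = b2 * a ^ (n + 1) := rfl
    push_cast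
    module

lemma nexp_conj3 {N : ℕ} {a b b1 b2 : A} (ha : a ^ N = 0) (h1 : a * b = b * a + b1)
    (h2 : a * b1 = b1 * a + b2) (h3 : a * b2 = b2 * a) :
    nexp N a * b = (b + b1 + (2 : ℝ)⁻¹ • b2) * nexp N a := by
  have e0 : nexp N a = nexp (N + 2) a := (nexp_eq ha (by omega)).symm
  have e1 : nexp N a = nexp (N + 1) a := (nexp_eq ha (by omega)).symm
  have key : nexp (N + 2) a * b = b * nexp (N + 2) a + b1 * nexp (N + 1) a +
      (2 : ℝ)⁻¹ • (b2 * nexp N a) := by
    unfold nexp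
    rw [sum_mul, mul_sum, mul_sum, mul_sum, sum_range_succ', sum_range_succ',
      sum_range_succ' (fun i => b * ((i.factorial : ℝ)⁻¹ • a ^ i)), 
      sum_range_succ' (fun i => b * (((i + 1).factorial : ℝ)⁻¹ • a ^ (i + 1))),
      sum_range_succ' (fun i => b1 * ((i.factorial : ℝ)⁻¹ • a ^ i)), smul_sum]
    have hs : ∀ i : ℕ, ((i + 1 + 1).factorial : ℝ)⁻¹ • a ^ (i + 1 + 1) * b =
        b * (((i + 1 + 1).factorial : ℝ)⁻¹ • a ^ (i + 1 + 1)) +
        b1 * (((i + 1).factorial : ℝ)⁻¹ • a ^ (i + 1)) +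
        (2 : ℝ)⁻¹ • (b2 * ((i.factorial : ℝ)⁻¹ • a ^ i)) := by
      intro i
      rw [smul_mul_assoc, pow_mul_comm3 h1 h2 h3 i]
      simp only [mul_smul_comm, smul_add, smul_smul]
      have hf1 : ((i + 1 + 1).factorial : ℝ) = ((i : ℝ) + 2) * ((i : ℝ) + 1) * (i.factorial : ℝ) := by
        rw [Nat.factorial_succ, Nat.factorial_succ]; push_cast; ring
      have hf2 : ((i + 1).factorial : ℝ) = ((i : ℝ) + 1) * (i.factorial : ℝ) := by
        rw [Nat.factorial_succ]; push_cast; ring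
      have hf0 : (i.factorial : ℝ) ≠ 0 := by exact_mod_cast Nat.factorial_ne_zero i
      have hi1 : (i : ℝ) + 1 ≠ 0 := by positivity
      have hi2 : (i : ℝ) + 2 ≠ 0 := by positivity
      congr 1
      · congr 1
        congr 1
        rw [hf1, hf2]
        push_cast
        field_simp
      · congr 1
        rw [hf1]
        push_cast
        field_simp
    rw [sum_congr rfl fun i _ => hs i, sum_add_distrib, sum_add_distrib]
    simp only [zero_add, Nat.factorial_zero, Nat.factorial_one, Nat.cast_one, inv_one, one_smul,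
      pow_zero, pow_one, one_mul, mul_one]
    rw [h1]
    abel
  rw [← e0, ← e1] at key
  rw [key]
  rw [add_mul, add_mul, smul_mul_assoc]

/-- an `sl_2` triple of nilpotent elements -/
structure Trip (N : ℕ) (L Λ H : A) : Prop where
  hLΛ : L * Λ = Λ * L + H
  hHL : H * L = L * H + (2 : ℝ) • L
  hHΛ : H * Λ = Λ * H - (2 : ℝ) • Λ
  hL : L ^ N = 0
  hΛ : Λ ^ N = 0

/-- the Weyl element -/
noncomputable def wey (N : ℕ) (L Λ : A) : A := nexp N L * nexp N (-Λ) * nexp N L

/-- its inverse -/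
noncomputable def weyi (N : ℕ) (L Λ : A) : A := nexp N (-L) * nexp N Λ * nexp N (-L)

namespace Trip

variable {N : ℕ} {L Λ H : A}

lemma wey_mul_weyi (h : Trip N L Λ H) : wey N L Λ * weyi N L Λ = 1 := by
  unfold wey weyi
  calc nexp N L * nexp N (-Λ) * nexp N L * (nexp N (-L) * nexp N Λ * nexp N (-L))
      = nexp N L * nexp N (-Λ) * (nexp N L * nexp N (-L)) * nexp N Λ * nexp N (-L) := by
        noncomm_ring
    _ = nexp N L * (nexp N (-Λ) * nexp N Λ) * nexp N (-L) := by
        rw [nexp_mul_neg h.hL]; noncomm_ring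
    _ = 1 := by rw [nexp_neg_mul h.hΛ, mul_one, nexp_mul_neg h.hL]

lemma weyi_mul_wey (h : Trip N L Λ H) : weyi N L Λ * wey N L Λ = 1 := by
  unfold wey weyi
  calc nexp N (-L) * nexp N Λ * nexp N (-L) * (nexp N L * nexp N (-Λ) * nexp N L)
      = nexp N (-L) * nexp N Λ * (nexp N (-L) * nexp N L) * nexp N (-Λ) * nexp N L := by
        noncomm_ring
    _ = nexp N (-L) * (nexp N Λ * nexp N (-Λ)) * nexp N L := by
        rw [nexp_neg_mul h.hL]; noncomm_ring
    _ = 1 := by rw [nexp_mul_neg h.hΛ, mul_one, nexp_neg_mul h.hL]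

/-- iterated commutators with `Λ` -/
def itc (Λ B : A) : ℕ → A
  | 0 => B
  | k + 1 => Λ * itc Λ B k - itc Λ B k * Λ

lemma itc_eq_zero {B : A} (hN : Λ ^ N = 0) : itc Λ B (N + N) = 0 := by
  -- `itc Λ B k` is a combination of the `Λ ^ i * B * Λ ^ j`, `i + j = k`
  have h1 : ∀ k, itc Λ B k ∈ Submodule.span ℝ {x | ∃ i j, i + j = k ∧ Λ ^ i * B * Λ ^ j = x} := by
    intro k
    induction k with
    | zero => exact Submodule.subset_span ⟨0, 0, rfl, by simp [itc]⟩
    | succ k ih =>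
      have h2 : ∀ x ∈ Submodule.span ℝ {x | ∃ i j, i + j = k ∧ Λ ^ i * B * Λ ^ j = x},
          Λ * x - x * Λ ∈
            Submodule.span ℝ {x | ∃ i j, i + j = k + 1 ∧ Λ ^ i * B * Λ ^ j = x} := by
        intro x hx
        induction hx using Submodule.span_induction with
        | mem x hx =>
          obtain ⟨i, j, hij, rfl⟩ := hx
          refine sub_mem (Submodule.subset_span ⟨i + 1, j, by omega, ?_⟩)
            (Submodule.subset_span ⟨i, j + 1, by omega, ?_⟩)
          · rw [pow_succ']; noncomm_ring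
          · rw [pow_succ]; noncomm_ring
        | zero => simp
        | add x y _ _ hx hy =>
          have : Λ * (x + y) - (x + y) * Λ = (Λ * x - x * Λ) + (Λ * y - y * Λ) := by noncomm_ring
          rw [this]; exact add_mem hx hy
        | smul r x _ hx =>
          have : Λ * (r • x) - (r • x) * Λ = r • (Λ * x - x * Λ) := by
            rw [mul_smul_comm, smul_mul_assoc, smul_sub]
          rw [this]; exact Submodule.smul_mem _ _ hx
      exact h2 _ ih
  have h3 : Submodule.span ℝ {x | ∃ i j, i + j = N + N ∧ Λ ^ i * B * Λ ^ j = x} ≤ ⊥ := by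
    rw [Submodule.span_le]
    rintro x ⟨i, j, hij, rfl⟩
    rcases le_or_gt N i with hi | hi
    · rw [pow_eq_zero_of_le hi hN]; simp
    · rw [pow_eq_zero_of_le (by omega : N ≤ j) hN]; simp
  exact (Submodule.mem_bot ℝ).mp (h3 (h1 _))

/-- an operator of weight one killed by `ad L` generates a two dimensional representation -/
theorem double (h : Trip N L Λ H) {B : A} (hLB : L * B = B * L) (hHB : H * B = B * H + B) :
    Λ * (Λ * B - B * Λ) = (Λ * B - B * Λ) * Λ := by
  have hwt : ∀ k, H * itc Λ B k = itc Λ B k * H + (1 - 2 * (k : ℝ)) • itc Λ B k := by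
    intro k
    induction k with
    | zero => simp [itc, hHB]
    | succ k ih =>
      have e : H * itc Λ B (k + 1) = (H * Λ) * itc Λ B k - (H * itc Λ B k) * Λ := by
        simp only [itc]; noncomm_ring
      rw [e, h.hHΛ, ih]
      have e2 : (Λ * H - (2 : ℝ) • Λ) * itc Λ B k -
          (itc Λ B k * H + (1 - 2 * (k : ℝ)) • itc Λ B k) * Λ =
          Λ * (H * itc Λ B k) - (2 : ℝ) • (Λ * itc Λ B k) - itc Λ B k * (H * Λ) -
            (1 - 2 * (k : ℝ)) • (itc Λ B k * Λ) := by
        rw [sub_mul, add_mul, smul_mul_assoc, smul_mul_assoc]; noncomm_ring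
      rw [e2, ih, h.hHΛ]
      simp only [itc, mul_add, mul_sub, sub_mul, mul_smul_comm, smul_sub, mul_assoc]
      push_cast
      module
  have hL : ∀ k, L * itc Λ B (k + 1) = itc Λ B (k + 1) * L +
      (((k : ℝ) + 1) * (1 - k)) • itc Λ B k := by
    intro k
    induction k with
    | zero =>
      simp only [itc]
      have e : L * (Λ * B - B * Λ) = (L * Λ) * B - (L * B) * Λ := by noncomm_ring
      rw [e, h.hLΛ, hLB]
      have e2 : (Λ * L + H) * B - B * L * Λ = Λ * (L * B) + H * B - B * (L * Λ) := by noncomm_ring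
      rw [e2, hLB, hHB, h.hLΛ]
      simp only [Nat.cast_zero, zero_add, sub_zero, mul_one, one_smul]
      noncomm_ring
    | succ k ih =>
      have e : L * itc Λ B (k + 1 + 1) =
          (L * Λ) * itc Λ B (k + 1) - (L * itc Λ B (k + 1)) * Λ := by
        rw [show itc Λ B (k + 1 + 1) = Λ * itc Λ B (k + 1) - itc Λ B (k + 1) * Λ from rfl]
        noncomm_ring
      rw [e, h.hLΛ]
      have e2 : (Λ * L + H) * itc Λ B (k + 1) - (L * itc Λ B (k + 1)) * Λ =
          Λ * (L * itc Λ B (k + 1)) + H * itc Λ B (k + 1) - (L * itc Λ B (k + 1)) * Λ := by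
        noncomm_ring
      rw [e2, ih, hwt (k + 1)]
      have e3 : (itc Λ B (k + 1) * L + (((k : ℝ) + 1) * (1 - k)) • itc Λ B k) * Λ =
          itc Λ B (k + 1) * (L * Λ) + (((k : ℝ) + 1) * (1 - k)) • (itc Λ B k * Λ) := by
        rw [add_mul, smul_mul_assoc]; noncomm_ring
      rw [e3, h.hLΛ]
      have e4 : itc Λ B (k + 1 + 1) = Λ * itc Λ B (k + 1) - itc Λ B (k + 1) * Λ := rfl
      have e5 : Λ * itc Λ B k - itc Λ B k * Λ = itc Λ B (k + 1) := rfl
      rw [e4, mul_add, mul_smul_comm]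
      have e6 : (((k : ℝ) + 1) * (1 - k)) • (Λ * itc Λ B k) =
          (((k : ℝ) + 1) * (1 - k)) • itc Λ B (k + 1) +
          (((k : ℝ) + 1) * (1 - k)) • (itc Λ B k * Λ) := by
        rw [← e5, smul_sub]; abel
      rw [e6]
      push_cast
      rw [sub_mul]
      simp only [mul_assoc, mul_add]
      module
  -- descend
  have hz : ∀ k, itc Λ B (k + 3) = 0 → itc Λ B (k + 2) = 0 := by
    intro k hk
    have h1 := hL (k + 2)
    rw [show k + 2 + 1 = k + 3 from rfl, hk] at h1
    have h2 : ((((k + 2 : ℕ) : ℝ) + 1) * (1 - ((k + 2 : ℕ) : ℝ))) • itc Λ B (k + 2) = 0 := by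
      simpa using h1.symm
    have h3 : ((((k + 2 : ℕ) : ℝ) + 1) * (1 - ((k + 2 : ℕ) : ℝ))) ≠ 0 := by
      push_cast
      have : (0 : ℝ) ≤ k := Nat.cast_nonneg k
      have h4 : ((k : ℝ) + 2 + 1) ≠ 0 := by positivity
      have h5 : (1 - ((k : ℝ) + 2)) ≠ 0 := by linarith [this] |> fun (h : (1 - ((k : ℝ) + 2)) < 0) => h.ne
      exact mul_ne_zero h4 h5
    exact (smul_eq_zero_iff_right h3).mp h2
  have hall : ∀ k, itc Λ B (k + 2) = 0 → itc Λ B 2 = 0 := by
    intro k
    induction k with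
    | zero => exact id
    | succ k ih => exact fun hk => ih (hz k hk)
  have h2 : itc Λ B 2 = 0 := by
    apply hall (N + N)
    have : itc Λ B (N + N) = 0 := itc_eq_zero h.hΛ
    have h0 : ∀ j, itc Λ B (N + N + j) = 0 := by
      intro j
      induction j with
      | zero => exact this
      | succ j ih => rw [← add_assoc]; simp [itc, ih]
    exact h0 2
  exact sub_eq_zero.mp h2

/-- conjugation by the Weyl element -/
theorem s_mul (h : Trip N L Λ H) {B : A} (hLB : L * B = B * L) (hHB : H * B = B * H + B) :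
    wey N L Λ * B = -(Λ * B - B * Λ) * wey N L Λ := by
  have hd := h.double hLB hHB
  set B1 := Λ * B - B * Λ with hB1
  have hΛn : (-Λ) ^ N = 0 := by rw [neg_pow, h.hΛ, mul_zero]
  have e1 : nexp N L * B = B * nexp N L := nexp_commute hLB
  have e2 : nexp N (-Λ) * B = (B - B1) * nexp N (-Λ) := by
    have := nexp_conj3 (N := N) (a := -Λ) (b := B) (b1 := -B1) (b2 := 0) hΛn
      (by rw [hB1]; noncomm_ring) (by rw [neg_mul, mul_neg, neg_neg, hd]; noncomm_ring) (by simp)
    rw [this, smul_zero, add_zero, sub_eq_add_neg]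
  have hLB1 : L * B1 = B1 * L + B := by
    rw [hB1]
    have e : L * (Λ * B - B * Λ) = (L * Λ) * B - (L * B) * Λ := by noncomm_ring
    rw [e, h.hLΛ, hLB]
    have e2 : (Λ * L + H) * B - B * L * Λ = Λ * (L * B) + H * B - B * (L * Λ) := by noncomm_ring
    rw [e2, hLB, hHB, h.hLΛ]
    noncomm_ring
  have e3 : nexp N L * (B - B1) = (-B1) * nexp N L := by
    have := nexp_conj3 (N := N) (a := L) (b := B - B1) (b1 := -B) (b2 := 0) h.hL
      (by rw [mul_sub, hLB1, hLB]; noncomm_ring) (by rw [mul_neg, hLB]; noncomm_ring) (by simp)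
    rw [this, smul_zero, add_zero]
    congr 1
    abel
  unfold wey
  calc nexp N L * nexp N (-Λ) * nexp N L * B = nexp N L * nexp N (-Λ) * (nexp N L * B) := by
        noncomm_ring
    _ = nexp N L * (nexp N (-Λ) * B) * nexp N L := by rw [e1]; noncomm_ring
    _ = (nexp N L * (B - B1)) * nexp N (-Λ) * nexp N L := by rw [e2]; noncomm_ring
    _ = -B1 * (nexp N L * nexp N (-Λ) * nexp N L) := by rw [e3]; noncomm_ring

theorem s_L (h : Trip N L Λ H) : wey N L Λ * L = -Λ * wey N L Λ := by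
  have hΛn : (-Λ) ^ N = 0 := by rw [neg_pow, h.hΛ, mul_zero]
  have hΛH : Λ * H = H * Λ + (2 : ℝ) • Λ := by rw [h.hHΛ]; abel
  have hLH : L * H = H * L - (2 : ℝ) • L := by rw [h.hHL]; abel
  have e2 : nexp N (-Λ) * L = (L + H - Λ) * nexp N (-Λ) := by
    have := nexp_conj3 (N := N) (a := -Λ) (b := L) (b1 := H) (b2 := -((2 : ℝ) • Λ)) hΛn
      (by rw [mul_neg, h.hLΛ]; noncomm_ring)
      (by rw [neg_mul, mul_neg, hΛH]; abel)
      (by simp)
    rw [this]
    congr 1
    rw [smul_neg, smul_smul]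
    norm_num
    abel
  have e3 : nexp N L * (L + H - Λ) = (-Λ) * nexp N L := by
    have := nexp_conj3 (N := N) (a := L) (b := L + H - Λ) (b1 := -((2 : ℝ) • L) - H)
      (b2 := (2 : ℝ) • L) h.hL
      (by rw [mul_sub, mul_add, hLH, h.hLΛ, sub_mul, add_mul]; abel)
      (by rw [mul_sub, mul_neg, mul_smul_comm, hLH, sub_mul, neg_mul, smul_mul_assoc]; abel)
      (by rw [mul_smul_comm, smul_mul_assoc])
    rw [this]
    congr 1
    rw [smul_smul]
    norm_num
    rw [two_smul]
    abel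
  unfold wey
  calc nexp N L * nexp N (-Λ) * nexp N L * L = nexp N L * nexp N (-Λ) * (nexp N L * L) := by
        noncomm_ring
    _ = nexp N L * (nexp N (-Λ) * L) * nexp N L := by
        rw [nexp_commute (a := L) (b := L) rfl]; noncomm_ring
    _ = (nexp N L * (L + H - Λ)) * nexp N (-Λ) * nexp N L := by rw [e2]; noncomm_ring
    _ = -Λ * (nexp N L * nexp N (-Λ) * nexp N L) := by rw [e3]; noncomm_ring

theorem s_Λ (h : Trip N L Λ H) : wey N L Λ * Λ = -L * wey N L Λ := by
  have hΛn : (-Λ) ^ N = 0 := by rw [neg_pow, h.hΛ, mul_zero]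
  have hΛH : Λ * H = H * Λ + (2 : ℝ) • Λ := by rw [h.hHΛ]; abel
  have hLH : L * H = H * L - (2 : ℝ) • L := by rw [h.hHL]; abel
  have hΛL : Λ * L = L * Λ - H := by rw [h.hLΛ]; abel
  -- `exp L * Λ = (Λ + H - L) * exp L`
  have e1 : nexp N L * Λ = (Λ + H - L) * nexp N L := by
    have := nexp_conj3 (N := N) (a := L) (b := Λ) (b1 := H) (b2 := -((2 : ℝ) • L)) h.hL
      h.hLΛ (by rw [hLH]; abel)
      (by rw [mul_neg, neg_mul, mul_smul_comm, smul_mul_assoc])
    rw [this]
    congr 1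
    rw [smul_neg, smul_smul]
    norm_num
    abel
  -- `exp (-Λ) * (Λ + H - L) = -L * exp (-Λ)`
  have e2 : nexp N (-Λ) * (Λ + H - L) = (-L) * nexp N (-Λ) := by
    have := nexp_conj3 (N := N) (a := -Λ) (b := Λ + H - L) (b1 := -((2 : ℝ) • Λ) - H)
      (b2 := (2 : ℝ) • Λ) hΛn
      (by
        rw [mul_sub, mul_add, neg_mul, neg_mul, neg_mul, hΛH, hΛL]
        simp only [mul_neg, add_mul, sub_mul]
        abel)
      (by
        rw [mul_sub, mul_neg, neg_mul, neg_mul, neg_neg, mul_smul_comm, hΛH]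
        simp only [mul_neg, sub_mul, neg_mul, smul_mul_assoc]
        abel)
      (by simp only [mul_neg, neg_mul, smul_mul_assoc, mul_smul_comm, smul_neg])
    rw [this]
    congr 1
    rw [smul_smul]
    norm_num
    rw [two_smul]
    abel
  unfold wey
  calc nexp N L * nexp N (-Λ) * nexp N L * Λ = nexp N L * nexp N (-Λ) * (nexp N L * Λ) := by
        noncomm_ring
    _ = nexp N L * (nexp N (-Λ) * (Λ + H - L)) * nexp N L := by rw [e1]; noncomm_ring
    _ = (nexp N L * (-L)) * nexp N (-Λ) * nexp N L := by rw [e2]; noncomm_ring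
    _ = -L * (nexp N L * nexp N (-Λ) * nexp N L) := by
        rw [nexp_commute (a := L) (b := -L) (by noncomm_ring)]; noncomm_ring

omit [Algebra ℝ A] in
/-- the Laplacian commutes with the twist: pure algebra. `dd = [Λ, d]`, `dc` anticommutes
with `d`. -/
theorem lap_comm {d dc : A} (hdc : d * dc + dc * d = 0) :
    d * (Λ * dc - dc * Λ) + (Λ * dc - dc * Λ) * d =
      -(dc * (Λ * d - d * Λ) + (Λ * d - d * Λ) * dc) := by
  have h1 : Λ * (d * dc + dc * d) - (d * dc + dc * d) * Λ = 0 := by rw [hdc]; simp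
  have h2 : d * (Λ * dc - dc * Λ) + (Λ * dc - dc * Λ) * d +
      (dc * (Λ * d - d * Λ) + (Λ * d - d * Λ) * dc) =
      Λ * (d * dc + dc * d) - (d * dc + dc * d) * Λ := by noncomm_ring
  rw [h1] at h2
  exact eq_neg_of_add_eq_zero_left h2

section Vec

variable {V : Type*} [AddCommGroup V] [Module ℝ V] {L Λ H : Module.End ℝ V}

theorem H_pow (h : Trip N L Λ H) {v : V} {m : ℝ} (hH : H v = -m • v) (j : ℕ) :
    H ((L ^ j) v) = (2 * (j : ℝ) - m) • ((L ^ j) v) := by
  induction j with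
  | zero => simp [hH]
  | succ j ih =>
    have e : (L ^ (j + 1)) v = L ((L ^ j) v) := by rw [pow_succ', Module.End.mul_apply]
    have e2 : H (L ((L ^ j) v)) = L (H ((L ^ j) v)) + (2 : ℝ) • L ((L ^ j) v) :=
      LinearMap.congr_fun h.hHL ((L ^ j) v)
    rw [e, e2, ih, map_smul]
    push_cast
    module

/-- the ladder -/
theorem ladder (h : Trip N L Λ H) {v : V} {m : ℝ} (hv : Λ v = 0) (hH : H v = -m • v) (j : ℕ) :
    Λ ((L ^ (j + 1)) v) = (((j : ℝ) + 1) * (m - j)) • ((L ^ j) v) := by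
  have hΛL : ∀ x, Λ (L x) = L (Λ x) - H x := fun x => by
    have : L (Λ x) = Λ (L x) + H x := LinearMap.congr_fun h.hLΛ x
    rw [this]; abel
  induction j with
  | zero =>
    rw [zero_add, pow_one, hΛL, hv, map_zero, hH]
    simp
  | succ j ih =>
    have e : (L ^ (j + 1 + 1)) v = L ((L ^ (j + 1)) v) := by rw [pow_succ', Module.End.mul_apply]
    have e1 : (L ^ (j + 1)) v = L ((L ^ j) v) := by rw [pow_succ', Module.End.mul_apply]
    rw [e, hΛL, ih, h.H_pow hH (j + 1), map_smul, ← e1]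
    push_cast
    module

theorem pow_eq_zero (h : Trip N L Λ H) {v : V} {m : ℕ} (hv : Λ v = 0)
    (hH : H v = -(m : ℝ) • v) : (L ^ (m + 1)) v = 0 := by
  have hstep : ∀ k, (L ^ (m + 1 + (k + 1))) v = 0 → (L ^ (m + 1 + k)) v = 0 := by
    intro k hk
    have h1 := h.ladder hv hH (m + 1 + k)
    rw [show m + 1 + k + 1 = m + 1 + (k + 1) from rfl, hk, map_zero] at h1
    have h2 : ((((m + 1 + k : ℕ) : ℝ) + 1) * ((m : ℝ) - ((m + 1 + k : ℕ) : ℝ))) ≠ 0 := by
      push_cast
      have hk0 : (0 : ℝ) ≤ k := Nat.cast_nonneg k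
      have hm0 : (0 : ℝ) ≤ m := Nat.cast_nonneg m
      refine mul_ne_zero (by positivity) ?_
      have : (m : ℝ) - ((m : ℝ) + 1 + k) < 0 := by linarith
      exact this.ne
    exact (smul_eq_zero_iff_right h2).mp h1.symm
  have hall : ∀ k, (L ^ (m + 1 + k)) v = 0 → (L ^ (m + 1)) v = 0 := by
    intro k
    induction k with
    | zero => exact id
    | succ k ih => exact fun hk => ih (hstep k hk)
  apply hall N
  rw [pow_add, h.hL, mul_zero, LinearMap.zero_apply]

/-- `Λ ^ i * L ^ j` on a primitive vector -/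
theorem ladder_pow (h : Trip N L Λ H) {v : V} {m : ℕ} (hv : Λ v = 0)
    (hH : H v = -(m : ℝ) • v) (i l : ℕ) (hm : i + l ≤ m) :
    ((i.factorial : ℝ)⁻¹ * ((i + l).factorial : ℝ)⁻¹) • ((Λ ^ i) ((L ^ (i + l)) v)) =
      ((l.factorial : ℝ)⁻¹ * ((m - l).choose i : ℝ)) • ((L ^ l) v) := by
  induction i generalizing l with
  | zero => simp
  | succ i ih =>
    have h1 := ih (l + 1) (by omega)
    have e1 : i + (l + 1) = i + 1 + l := by ring
    rw [e1] at h1
    have e2 : (Λ ^ (i + 1)) ((L ^ (i + 1 + l)) v) = Λ ((Λ ^ i) ((L ^ (i + 1 + l)) v)) := by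
      rw [pow_succ', Module.End.mul_apply]
    have h2 := congrArg (fun x => Λ x) h1
    simp only [map_smul] at h2
    rw [← e2, h.ladder hv hH l] at h2
    have hf1 : ((i + 1).factorial : ℝ) = ((i : ℝ) + 1) * (i.factorial : ℝ) := by
      rw [Nat.factorial_succ]; push_cast; ring
    have hf2 : ((l + 1).factorial : ℝ) = ((l : ℝ) + 1) * (l.factorial : ℝ) := by
      rw [Nat.factorial_succ]; push_cast; ring
    have hi1 : (i : ℝ) + 1 ≠ 0 := by positivity
    have hl1 : (l : ℝ) + 1 ≠ 0 := by positivity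
    have hf0 : (i.factorial : ℝ) ≠ 0 := by exact_mod_cast Nat.factorial_ne_zero i
    have hf3 : (l.factorial : ℝ) ≠ 0 := by exact_mod_cast Nat.factorial_ne_zero l
    have hc : ((m - l).choose (i + 1) : ℝ) * ((i : ℝ) + 1) =
        ((m : ℝ) - l) * ((m - (l + 1)).choose i : ℝ) := by
      obtain ⟨k, hk⟩ : ∃ k, m = l + (k + 1) := ⟨m - l - 1, by omega⟩
      subst hk
      have := Nat.add_one_mul_choose_eq k i
      have h4 : l + (k + 1) - l = k + 1 := by omega
      have h5 : l + (k + 1) - (l + 1) = k := by omega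
      rw [h4, h5]
      push_cast
      have h6 : ((k : ℝ) + 1) * (k.choose i : ℝ) =
          ((k + 1).choose (i + 1) : ℝ) * ((i : ℝ) + 1) := by
        exact_mod_cast this
      linarith
    calc (((i + 1).factorial : ℝ)⁻¹ * ((i + 1 + l).factorial : ℝ)⁻¹) •
          ((Λ ^ (i + 1)) ((L ^ (i + 1 + l)) v))
        = ((i : ℝ) + 1)⁻¹ • (((i.factorial : ℝ)⁻¹ * ((i + 1 + l).factorial : ℝ)⁻¹) •
          ((Λ ^ (i + 1)) ((L ^ (i + 1 + l)) v))) := by
          rw [smul_smul, hf1, mul_inv, mul_assoc]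
      _ = ((i : ℝ) + 1)⁻¹ • ((((l + 1).factorial : ℝ)⁻¹ * ((m - (l + 1)).choose i : ℝ)) •
          ((((l : ℝ) + 1) * ((m : ℝ) - l)) • ((L ^ l) v))) := by rw [h2]
      _ = ((l.factorial : ℝ)⁻¹ * ((m - l).choose (i + 1) : ℝ)) • ((L ^ l) v) := by
          rw [smul_smul, smul_smul]
          congr 1
          rw [hf2]
          have : ((m - l).choose (i + 1) : ℝ) =
              ((m : ℝ) - l) * ((m - (l + 1)).choose i : ℝ) / ((i : ℝ) + 1) := by
            rw [← hc]; field_simp
          rw [this]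
          field_simp

/-- the Weyl element on primitive vectors -/
theorem wey_prim (h : Trip N L Λ H) {v : V} {m : ℕ} (hv : Λ v = 0)
    (hH : H v = -(m : ℝ) • v) (hN : m < N) :
    wey N L Λ v = ((m.factorial : ℝ)⁻¹) • ((L ^ m) v) := by
  have hL1 := h.pow_eq_zero hv hH
  have hLk : ∀ j, m < j → (L ^ j) v = 0 := by
    intro j hj
    obtain ⟨k, rfl⟩ := Nat.exists_eq_add_of_le (Nat.succ_le_of_lt hj)
    rw [Nat.succ_eq_add_one, add_comm (m + 1) k, pow_add, Module.End.mul_apply, hL1, map_zero]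
  have happ : ∀ (T : Module.End ℝ V) (x : V),
      nexp N T x = ∑ i ∈ range N, ((i.factorial : ℝ)⁻¹) • ((T ^ i) x) := by
    intro T x
    unfold nexp
    rw [LinearMap.sum_apply]
    exact sum_congr rfl fun i _ => LinearMap.smul_apply _ _ _
  -- `exp L v`
  have e1 : nexp N L v = ∑ j ∈ range (m + 1), ((j.factorial : ℝ)⁻¹) • ((L ^ j) v) := by
    rw [happ, ← sum_range_add_sum_Ico _ (show m + 1 ≤ N from hN), add_eq_left]
    refine sum_eq_zero fun j hj => ?_
    rw [hLk j (by have := (mem_Ico.mp hj).1; omega), smul_zero]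
  have hΛk : ∀ i j, j < i → (Λ ^ i) ((L ^ j) v) = 0 := by
    intro i
    induction i with
    | zero => intro j hj; omega
    | succ i ih =>
      intro j hj
      rw [pow_succ, Module.End.mul_apply]
      rcases j with _ | j
      · rw [pow_zero, Module.End.one_apply, hv, map_zero]
      · rw [h.ladder hv hH j, map_smul, ih j (by omega), smul_zero]
  -- `exp (-Λ) L ^ j v`
  have e3 : ∀ j, j ≤ m → ((j.factorial : ℝ)⁻¹) • nexp N (-Λ) ((L ^ j) v) =
      ∑ l ∈ range (j + 1), (((-1 : ℝ) ^ (j - l) * ((m - l).choose (j - l) : ℝ)) *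
        (l.factorial : ℝ)⁻¹) • ((L ^ l) v) := by
    intro j hj
    rw [happ, ← sum_range_add_sum_Ico _ (show j + 1 ≤ N by omega)]
    have hz : ∑ k ∈ Ico (j + 1) N, ((k.factorial : ℝ)⁻¹) • (((-Λ) ^ k) ((L ^ j) v)) = 0 := by
      refine sum_eq_zero fun k hk => ?_
      have h5 : ((-Λ) ^ k) ((L ^ j) v) = (-1 : ℝ) ^ k • ((Λ ^ k) ((L ^ j) v)) := by
        rw [← neg_one_smul ℝ Λ, smul_pow, LinearMap.smul_apply]
      rw [h5, hΛk k j (by have := (mem_Ico.mp hk).1; omega), smul_zero, smul_zero]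
    rw [hz, add_zero, smul_sum, ← sum_range_reflect]
    refine sum_congr rfl fun l hl => ?_
    have hl' : l ≤ j := by have := mem_range.mp hl; omega
    have h6 : j + 1 - 1 - l = j - l := by omega
    rw [h6]
    have h5 : ((-Λ) ^ (j - l)) ((L ^ j) v) = (-1 : ℝ) ^ (j - l) • ((Λ ^ (j - l)) ((L ^ j) v)) := by
      rw [← neg_one_smul ℝ Λ, smul_pow, LinearMap.smul_apply]
    have h7 := h.ladder_pow hv hH (j - l) l (by omega)
    rw [Nat.sub_add_cancel hl'] at h7
    rw [h5]
    calc (j.factorial : ℝ)⁻¹ • ((j - l).factorial : ℝ)⁻¹ • (-1 : ℝ) ^ (j - l) •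
          ((Λ ^ (j - l)) ((L ^ j) v))
        = (-1 : ℝ) ^ (j - l) • ((((j - l).factorial : ℝ)⁻¹ * (j.factorial : ℝ)⁻¹) •
          ((Λ ^ (j - l)) ((L ^ j) v))) := by
          rw [smul_smul, smul_smul, smul_smul]; congr 1; ring
      _ = _ := by rw [h7, smul_smul]; congr 1; ring
  -- `exp (-Λ) exp L v`
  have e2 : nexp N (-Λ) (nexp N L v) = ((m.factorial : ℝ)⁻¹) • ((L ^ m) v) := by
    rw [e1, map_sum]
    rw [sum_congr rfl fun j hj => by
      rw [map_smul, e3 j (by have := mem_range.mp hj; omega)]]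
    rw [sum_sigma', sum_bij' (t := (range (m + 1)).sigma fun l => range (m - l + 1))
      (g := fun x => (((-1 : ℝ) ^ x.2 * ((m - x.1).choose x.2 : ℝ)) *
        (x.1.factorial : ℝ)⁻¹) • ((L ^ x.1) v))
      (i := fun x _ => ⟨x.2, x.1 - x.2⟩) (j := fun x _ => ⟨x.1 + x.2, x.1⟩)]
    · rw [sum_sigma]
      rw [sum_eq_single m]
      · simp
      · intro l hl hlm
        have hl' := mem_range.mp hl
        have h8 : ∑ x ∈ range (m - l + 1), (((-1 : ℝ) ^ x * ((m - l).choose x : ℝ)) *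
            (l.factorial : ℝ)⁻¹) • ((L ^ l) v) =
            ((∑ x ∈ range (m - l + 1), ((-1 : ℝ) ^ x * ((m - l).choose x : ℝ))) *
            (l.factorial : ℝ)⁻¹) • ((L ^ l) v) := by
          rw [sum_mul, sum_smul]
        have h9 : ∑ x ∈ range (m - l + 1), ((-1 : ℝ) ^ x * ((m - l).choose x : ℝ)) = 0 := by
          have := Int.alternating_sum_range_choose_of_ne (n := m - l) (by omega)
          exact_mod_cast this
        rw [h8, h9, zero_mul, zero_smul]
      · intro hm
        simp at hm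
    · intro x hx
      simp only [mem_sigma, mem_range] at hx ⊢
      omega
    · intro x hx
      simp only [mem_sigma, mem_range] at hx ⊢
      omega
    · rintro ⟨a, b⟩ hx
      simp only [mem_sigma, mem_range] at hx
      simp only [Sigma.mk.injEq, heq_eq_eq, and_true]
      omega
    · rintro ⟨a, b⟩ hx
      simp only [mem_sigma, mem_range] at hx
      simp
    · rintro ⟨a, b⟩ hx
      rfl
  have e4 : wey N L Λ v = nexp N L (nexp N (-Λ) (nexp N L v)) := rfl
  rw [e4, e2, map_smul, happ, sum_eq_single 0]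
  · simp
  · intro i _ hi
    have : (L ^ i) ((L ^ m) v) = (L ^ (i + m)) v := by rw [pow_add, Module.End.mul_apply]
    rw [this, hLk _ (by omega), smul_zero]
  · intro h0
    simp only [mem_range, not_lt, Nat.le_zero] at h0
    omega

end Vec

end Trip

end EH
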