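import Mathlib
import Pool.Agent.Work.MP_9eee85_co.EH.Ext
import Pool.Agent.Work.MP_9eee85_co.EH.SL2
import Pool.Agent.Work.MP_9eee85_co.EH.LefDeg
import Pool.Agent.Work.MP_9eee85_co.EH.E1

/-!
# Contractions, the anticommutation relations and the `sl_2` triple

* `io a`: contraction, the adjoint of `α ↦ e a * α`;
* `car_ee`, `car_ii`, `car_ie`: the canonical anticommutation relations;
* `mono_induction`: induction over monomials;
* `mul_comm_deg`: graded commutativity;
* `trip : Trip 6 Lop Λop Hop`.
-/

noncomputable section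

namespace EH

open Finset

/-! ### Signs -/

lemma sgn_mul_sgn {S T : Finset (Fin 10)} (h : Disjoint S T) :
    sgn S T * sgn T S = (-1) ^ (S.card * T.card) := by
  rw [← inv_add_inv h, pow_add]; rfl

lemma sgn_eq_sgn {S T : Finset (Fin 10)} (h : Disjoint S T) :
    sgn S T = (-1) ^ (S.card * T.card) * sgn T S := by
  rw [← sgn_mul_sgn h, mul_assoc, sgn_sq, mul_one]

lemma sgn_empty_left (T) : sgn ∅ T = 1 := by simp [sgn, inv_empty_left]
lemma sgn_empty_right (S) : sgn S ∅ = 1 := by simp [sgn, inv_empty_right]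

lemma sgn_insert_left {a : Fin 10} {S : Finset (Fin 10)} (T) (h : a ∉ S) :
    sgn (insert a S) T = sgn {a} T * sgn S T := by
  rw [insert_eq, sgn_union_left _ (disjoint_singleton_left.mpr h)]

lemma sgn_insert_right {a : Fin 10} {T : Finset (Fin 10)} (S) (h : a ∉ T) :
    sgn S (insert a T) = sgn S {a} * sgn S T := by
  rw [insert_eq, sgn_union_right _ (disjoint_singleton_left.mpr h)]

lemma sgn_single {a b : Fin 10} (h : a ≠ b) : sgn {a} {b} * sgn {b} {a} = -1 := by
  rw [sgn_mul_sgn (by simpa using h)]; simp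

/-! ### Degrees -/

lemma mul_comm_deg {k l : ℕ} {α β : E} (ha : α ∈ Deg k) (hb : β ∈ Deg l) :
    α * β = (-1 : ℝ) ^ (k * l) • (β * α) := by
  ext U
  rw [co_smul, co_mul, co_mul, Finset.mul_sum]
  refine Finset.sum_bij' (fun S _ => U \ S) (fun S _ => U \ S) ?_ ?_ ?_ ?_ ?_
  · intro S _; exact mem_powerset.mpr sdiff_subset
  · intro S _; exact mem_powerset.mpr sdiff_subset
  · intro S hS; exact Finset.sdiff_sdiff_eq_self (mem_powerset.mp hS)
  · intro S hS; exact Finset.sdiff_sdiff_eq_self (mem_powerset.mp hS)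
  · intro S hS
    rw [Finset.sdiff_sdiff_eq_self (mem_powerset.mp hS)]
    by_cases h1 : S.card = k
    · by_cases h2 : (U \ S).card = l
      · rw [sgn_eq_sgn (disjoint_sdiff : Disjoint S (U \ S)), h1, h2]; ring
      · rw [hb _ h2]; ring
    · rw [ha _ h1]; ring

lemma pr_eq_self {k : ℕ} {α : E} (h : α ∈ Deg k) : pr k α = α := by
  ext S
  rw [co_pr]
  split_ifs with h1
  · rfl
  · exact (h S h1).symm

lemma mem_Deg_iff {k : ℕ} {α : E} : α ∈ Deg k ↔ pr k α = α :=
  ⟨pr_eq_self, fun h => h ▸ pr_mem_Deg k α⟩

lemma pr_eq_zero {k l : ℕ} {α : E} (h : α ∈ Deg k) (hkl : k ≠ l) : pr l α = 0 := by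
  ext S
  rw [co_pr, co_zero]
  split_ifs with h1
  · exact h S (by omega)
  · rfl

lemma Deg_eq_zero {k : ℕ} (hk : 10 < k) {α : E} (h : α ∈ Deg k) : α = 0 := by
  ext S
  refine h S ?_
  have : S.card ≤ 10 := by simpa using card_le_univ S
  omega

lemma deg_inner_eq_zero {k l : ℕ} {α β : E} (ha : α ∈ Deg k) (hb : β ∈ Deg l) (h : k ≠ l) :
    inner ℝ α β = 0 := by
  rw [inner_eq]
  refine sum_eq_zero fun S _ => ?_
  by_cases h1 : S.card = k
  · rw [hb S (by omega), mul_zero]
  · rw [ha S h1, zero_mul]

lemma inner_pr (k : ℕ) (α β : E) : inner ℝ (pr k α) β = inner ℝ α (pr k β) := by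
  rw [inner_eq, inner_eq]
  refine sum_congr rfl fun S _ => ?_
  rw [co_pr, co_pr]; split_ifs <;> simp

lemma top_eq_zero {k : ℕ} {α : E} (h : α ∈ Deg k) (hk : k ≠ 10) : top α = 0 := by
  rw [top_apply]
  exact h _ (by simpa using hk.symm)

lemma par_eq {k : ℕ} {α : E} (h : α ∈ Deg k) : par α = (-1 : ℝ) ^ k • α := by
  ext S
  rw [co_par, co_smul]
  by_cases h1 : S.card = k
  · rw [h1]
  · rw [h S h1]; ring

lemma par_par (α : E) : par (par α) = α := by
  ext S
  rw [co_par, co_par, ← mul_assoc, ← mul_pow]; norm_num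

lemma Hop_eq {k : ℕ} {α : E} (h : α ∈ Deg k) : Hop α = ((k : ℝ) - 5) • α := by
  ext S
  rw [co_smul]
  change ((S.card : ℝ) - 5) * co α S = _
  by_cases h1 : S.card = k
  · rw [h1]
  · rw [h S h1]; ring

lemma co_Hop (α : E) (S) : co (Hop α) S = ((S.card : ℝ) - 5) * co α S := rfl

/-! ### Multiplication by a generator and contraction -/

lemma co_e_mul (a : Fin 10) (α : E) (U) :
    co (e a * α) U = if a ∈ U then sgn {a} (U.erase a) * co α (U.erase a) else 0 := by
  rw [co_mul]
  have h : ∀ S ∈ U.powerset, sgn S (U \ S) * co (e a) S * co α (U \ S) =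
      if S = {a} then sgn {a} (U.erase a) * co α (U.erase a) else 0 := by
    intro S _
    unfold e
    rw [co_mono]
    split_ifs with h1
    · subst h1; rw [sdiff_singleton_eq_erase]; ring
    · ring
  rw [sum_congr rfl h, sum_ite_eq']
  simp

/-- contraction with the `a`-th basis vector -/
def io (a : Fin 10) : E →ₗ[ℝ] E where
  toFun α := mk (fun S => if a ∈ S then 0 else sgn {a} S * co α (insert a S))
  map_add' α β := by
    ext S; simp only [co_mk, co_add]; split_ifs
    · simp
    · ring
  map_smul' c α := by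
    ext S; simp only [co_mk, co_smul, RingHom.id_apply]; split_ifs
    · simp
    · ring

lemma co_io (a : Fin 10) (α : E) (S) :
    co (io a α) S = if a ∈ S then 0 else sgn {a} S * co α (insert a S) := rfl

lemma inner_e_mul (a : Fin 10) (α β : E) : inner ℝ (e a * α) β = inner ℝ α (io a β) := by
  rw [inner_eq, inner_eq]
  have h1 : ∀ U : Finset (Fin 10), co (e a * α) U * co β U =
      if a ∈ U then sgn {a} (U.erase a) * co α (U.erase a) * co β U else 0 := by
    intro U; rw [co_e_mul]; split_ifs <;> simp
  have h2 : ∀ S : Finset (Fin 10), co α S * co (io a β) S =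
      if a ∉ S then sgn {a} S * co α S * co β (insert a S) else 0 := by
    intro S; rw [co_io]
    by_cases h : a ∈ S
    · simp [h]
    · simp only [h, if_false, not_false_iff, if_true]; ring
  rw [sum_congr rfl fun U _ => h1 U, sum_congr rfl fun U _ => h2 U, ← sum_filter, ← sum_filter]
  refine sum_bij' (fun U _ => U.erase a) (fun S _ => insert a S) ?_ ?_ ?_ ?_ ?_
  · intro U _; simp
  · intro S _; simp
  · intro U hU
    exact insert_erase (mem_filter.mp hU).2
  · intro S hS
    exact erase_insert (mem_filter.mp hS).2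
  · intro U hU
    rw [insert_erase (mem_filter.mp hU).2]

lemma car_ee (a b : Fin 10) (α : E) : e a * (e b * α) = -(e b * (e a * α)) := by
  rw [← mul_assoc, e_mul_e, neg_mul, mul_assoc]

lemma car_ii (a b : Fin 10) (α : E) : io a (io b α) = -(io b (io a α)) := by
  refine ext_inner_left ℝ fun β => ?_
  rw [inner_neg_right, ← inner_e_mul, ← inner_e_mul, ← inner_e_mul, ← inner_e_mul, car_ee,
    inner_neg_left]

lemma car_ie (a b : Fin 10) (α : E) :
    io a (e b * α) + e b * io a α = if a = b then α else 0 := by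
  ext S
  rw [co_add, co_io, co_e_mul, co_e_mul, co_io]
  by_cases hab : a = b
  · subst hab
    simp only [mem_insert, true_or, if_true, mem_erase, ne_eq, not_true, false_and, if_false]
    by_cases h : a ∈ S
    · simp only [h, if_true, zero_add]
      rw [insert_erase h, ← mul_assoc, sgn_sq, one_mul]
    · simp only [h, if_false, add_zero]
      rw [erase_insert h, ← mul_assoc, sgn_sq, one_mul]
  · rw [if_neg hab, co_zero]
    have hba : b ≠ a := fun h => hab h.symm
    by_cases ha : a ∈ S
    · have : a ∈ S.erase b := mem_erase.mpr ⟨hab, ha⟩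
      simp [ha, this]
    · have ha' : a ∉ S.erase b := fun h => ha (mem_of_mem_erase h)
      simp only [ha, if_false, ha']
      by_cases hb : b ∈ S
      · have hb' : b ∈ insert a S := mem_insert_of_mem hb
        simp only [hb, hb', if_true]
        have e1 : (insert a S).erase b = insert a (S.erase b) := by
          ext x; simp only [mem_erase, mem_insert]
          constructor
          · rintro ⟨h1, h2 | h2⟩
            · exact Or.inl h2
            · exact Or.inr ⟨h1, h2⟩
          · rintro (h1 | h1)
            · exact ⟨fun h => hab (h1.symm.trans h), Or.inl h1⟩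
            · exact ⟨h1.1, Or.inr h1.2⟩
        rw [e1, sgn_insert_right _ ha']
        have e2 : sgn {a} S = sgn {a} {b} * sgn {a} (S.erase b) := by
          conv_lhs => rw [← insert_erase hb]
          rw [sgn_insert_right _ (notMem_erase b S)]
        rw [e2]
        have e3 := sgn_single hab
        linear_combination (sgn {a} (S.erase b) * sgn {b} (S.erase b) *
          co α (insert a (S.erase b))) * e3
      · have hb' : b ∉ insert a S := by
          rw [mem_insert]; rintro (h | h)
          · exact hba h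
          · exact hb h
        simp [hb, hb']

/-- induction over products of generators -/
theorem mono_induction {P : E → Prop} (h1 : P 1) (hm : ∀ a α, P α → P (e a * α))
    (ha : ∀ α β, P α → P β → P (α + β)) (hs : ∀ (c : ℝ) α, P α → P (c • α)) (α : E) : P α := by
  have hmono : ∀ S : Finset (Fin 10), P (mono S) := by
    intro S
    induction S using Finset.induction_on with
    | empty => exact h1
    | insert a S haS ih =>
      have e1 : mono (insert a S) = sgn {a} S • (e a * mono S) := by
        ext U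
        rw [co_smul, co_e_mul, co_mono, co_mono]
        by_cases hU : U = insert a S
        · subst hU
          rw [if_pos rfl, if_pos (mem_insert_self _ _), erase_insert haS, if_pos rfl, mul_one,
            sgn_sq]
        · rw [if_neg hU]
          by_cases haU : a ∈ U
          · rw [if_pos haU, if_neg]
            · ring
            · intro h; apply hU; rw [← h, insert_erase haU]
          · rw [if_neg haU, mul_zero]
      rw [e1]
      exact hs _ _ (hm _ _ ih)
  have h0 : P 0 := by simpa using hs 0 _ h1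
  rw [← sum_mono α]
  refine Finset.sum_induction _ P ha h0 fun S _ => hs _ _ (hmono S)

lemma Hop_e_mul (a : Fin 10) (α : E) : Hop (e a * α) = e a * Hop α + e a * α := by
  ext U
  rw [co_Hop, co_add, co_e_mul, co_e_mul, co_Hop]
  split_ifs with h
  · rw [card_erase_of_mem h, Nat.cast_sub (card_pos.mpr ⟨a, h⟩)]
    push_cast; ring
  · ring

lemma Hop_symm (α β : E) : inner ℝ (Hop α) β = inner ℝ α (Hop β) := by
  rw [inner_eq, inner_eq]
  refine sum_congr rfl fun S _ => ?_
  rw [co_Hop, co_Hop]; ring

lemma par_e_mul (a : Fin 10) (α : E) : par (e a * α) = -(e a * par α) := by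
  ext U
  rw [co_par, co_neg, co_e_mul, co_e_mul, co_par]
  split_ifs with h
  · have h1 : U.card = (U.erase a).card + 1 := (card_erase_add_one h).symm
    rw [h1, pow_succ]; ring
  · ring

/-! ### Pairs -/

lemma xi_ne_yi (j k : Fin 5) : xi j ≠ yi k := by
  intro h
  have := congrArg Fin.val h
  simp only [xi, yi] at this
  omega

lemma xi_inj {j k : Fin 5} (h : xi j = xi k) : j = k := by
  have := congrArg Fin.val h
  simp only [xi] at this
  exact Fin.ext (by omega)

lemma yi_inj {j k : Fin 5} (h : yi j = yi k) : j = k := by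
  have := congrArg Fin.val h
  simp only [yi] at this
  exact Fin.ext (by omega)

lemma exists_pair (a : Fin 10) : ∃ j, a = xi j ∨ a = yi j := by
  refine ⟨⟨a.val / 2, by omega⟩, ?_⟩
  rcases Nat.mod_two_eq_zero_or_one a.val with h | h
  · left; apply Fin.ext; simp only [xi]; omega
  · right; apply Fin.ext; simp only [yi]; omega

lemma univ_pairs : (univ : Finset (Fin 10)) = univ.biUnion (fun j => {xi j, yi j}) := by
  ext a
  simp only [mem_univ, mem_biUnion, mem_insert, mem_singleton, true_and, true_iff]
  exact exists_pair a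

lemma sum_pairs {M : Type*} [AddCommMonoid M] (f : Fin 10 → M) :
    ∑ a, f a = ∑ j, (f (xi j) + f (yi j)) := by
  rw [univ_pairs, sum_biUnion]
  · exact sum_congr rfl fun j _ => sum_pair (xi_ne_yi j j)
  · intro j _ k _ hjk
    change Disjoint _ _
    rw [disjoint_left]
    intro a h1 h2
    simp only [mem_insert, mem_singleton] at h1 h2
    rcases h1 with rfl | rfl <;> rcases h2 with h2 | h2
    · exact hjk (xi_inj h2)
    · exact xi_ne_yi _ _ h2
    · exact xi_ne_yi _ _ h2.symm
    · exact hjk (yi_inj h2)

/-! ### Operators -/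

/-- multiplication by `e a` -/
def X (a : Fin 10) : Module.End ℝ E := mulL (e a)
/-- contraction -/
def I (a : Fin 10) : Module.End ℝ E := io a

@[simp] lemma X_apply (a) (α : E) : X a α = e a * α := rfl
@[simp] lemma I_apply (a) (α : E) : I a α = io a α := rfl

lemma X_mul_X (a b) : X a * X b = -(X b * X a) := LinearMap.ext fun α => car_ee a b α
lemma I_mul_I (a b) : I a * I b = -(I b * I a) := LinearMap.ext fun α => car_ii a b α
lemma I_mul_X_self (a) : I a * X a = 1 - X a * I a := by
  refine LinearMap.ext fun α => ?_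
  have := car_ie a a α
  rw [if_pos rfl] at this
  exact eq_sub_of_add_eq this
lemma I_mul_X {a b} (h : a ≠ b) : I a * X b = -(X b * I a) := by
  refine LinearMap.ext fun α => ?_
  have := car_ie a b α
  rw [if_neg h] at this
  exact eq_neg_of_add_eq_zero_left this
lemma X_mul_I {a b} (h : a ≠ b) : X a * I b = -(I b * X a) := by
  rw [I_mul_X h.symm, neg_neg]

lemma adjoint_X (a) : LinearMap.adjoint (X a) = I a := by
  symm
  rw [LinearMap.eq_adjoint_iff]
  intro α β
  rw [I_apply, X_apply, real_inner_comm, ← inner_e_mul, real_inner_comm]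

lemma adjoint_I (a) : LinearMap.adjoint (I a) = X a := by
  rw [← adjoint_X, LinearMap.adjoint_adjoint]

lemma Lop_eq : Lop = ∑ j, X (xi j) * X (yi j) := by
  refine LinearMap.ext fun α => ?_
  rw [LinearMap.sum_apply]
  simp only [Module.End.mul_apply, X_apply]
  change om * α = _
  rw [om, sum_mul]
  exact sum_congr rfl fun j _ => mul_assoc _ _ _

lemma adjoint_mul (A B : Module.End ℝ E) :
    LinearMap.adjoint (A * B) = (LinearMap.adjoint B * LinearMap.adjoint A : Module.End ℝ E) :=
  LinearMap.adjoint_comp A B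

lemma Λop_eq : Λop = ∑ j, I (yi j) * I (xi j) := by
  unfold Λop
  rw [Lop_eq, map_sum]
  refine sum_congr rfl fun j _ => ?_
  rw [adjoint_mul, adjoint_X, adjoint_X]

lemma Hop_eq_sum : Hop = ∑ j, (X (xi j) * I (xi j) + X (yi j) * I (yi j) - 1) := by
  refine LinearMap.ext fun α => ?_
  ext S
  have h : ∀ a, co ((X a * I a) α) S = (if a ∈ S then (1 : ℝ) else 0) * co α S := by
    intro a
    rw [Module.End.mul_apply, X_apply, I_apply, co_e_mul, co_io]
    split_ifs with h1 h2
    · exact absurd h2 (notMem_erase a S)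
    · rw [insert_erase h1, ← mul_assoc, sgn_sq]
    · simp
  rw [LinearMap.sum_apply, co_sum]
  have h2 : ∀ j : Fin 5, co ((X (xi j) * I (xi j) + X (yi j) * I (yi j) - 1 : Module.End ℝ E) α) S =
      ((if xi j ∈ S then (1 : ℝ) else 0) + (if yi j ∈ S then (1 : ℝ) else 0) - 1) * co α S := by
    intro j
    rw [LinearMap.sub_apply, LinearMap.add_apply, co_sub, co_add, h, h, Module.End.one_apply]
    ring
  rw [sum_congr rfl fun j _ => h2 j, ← sum_mul, sum_sub_distrib,
    ← sum_pairs (fun a => if a ∈ S then (1 : ℝ) else 0), co_Hop]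
  congr 1
  simp

lemma XX_II (j k : Fin 5) : (X (xi j) * X (yi j)) * (I (yi k) * I (xi k)) -
    (I (yi k) * I (xi k)) * (X (xi j) * X (yi j)) =
    if j = k then X (xi j) * I (xi j) + X (yi j) * I (yi j) - 1 else 0 := by
  split_ifs with h
  · subst h
    set x := X (xi j); set y := X (yi j); set x' := I (xi j); set y' := I (yi j)
    have h1 : x' * x = 1 - x * x' := I_mul_X_self _
    have h2 : y' * y = 1 - y * y' := I_mul_X_self _
    have h3 : y' * x = -(x * y') := I_mul_X (xi_ne_yi j j).symm
    have h4 : x' * y = -(y * x') := I_mul_X (xi_ne_yi j j)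
    have e1 : y' * x' * (x * y) = y' * (x' * x) * y := by noncomm_ring
    have e2 : y' * (x * x') * y = (y' * x) * (x' * y) := by noncomm_ring
    have e3 : x * y' * (y * x') = x * (y' * y) * x' := by noncomm_ring
    rw [e1, h1, mul_sub, sub_mul, mul_one, e2, h3, h4, neg_mul_neg, e3, h2]
    noncomm_ring
  · have hx : xi k ≠ xi j := fun h' => h (xi_inj h').symm
    have hy : yi k ≠ yi j := fun h' => h (yi_inj h').symm
    set x := X (xi j); set y := X (yi j); set x' := I (xi k); set y' := I (yi k)
    have h1 : x' * x = -(x * x') := I_mul_X hx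
    have h2 : y' * y = -(y * y') := I_mul_X hy
    have h3 : y' * x = -(x * y') := I_mul_X (xi_ne_yi j k).symm
    have h4 : x' * y = -(y * x') := I_mul_X (xi_ne_yi k j)
    have e : y' * x' * (x * y) = x * y * (y' * x') := by
      calc y' * x' * (x * y) = y' * (x' * x) * y := by noncomm_ring
        _ = -((y' * x) * (x' * y)) := by rw [h1]; noncomm_ring
        _ = -(x * (y' * y) * x') := by rw [h3, h4]; noncomm_ring
        _ = x * y * (y' * x') := by rw [h2]; noncomm_ring
    rw [e, sub_self]

lemma Lop_mem {k : ℕ} {α : E} (h : α ∈ Deg k) : Lop α ∈ Deg (k + 2) := by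
  have := mul_mem_Deg om_mem_Deg h
  rwa [add_comm] at this

lemma io_mem {k : ℕ} {α : E} (a) (h : α ∈ Deg (k + 1)) : io a α ∈ Deg k := by
  intro S hS
  rw [co_io]
  split_ifs with h1
  · rfl
  · rw [h, mul_zero]
    rw [card_insert_of_notMem h1]; omega

lemma io_zero {α : E} (a) (h : α ∈ Deg 0) : io a α = 0 := by
  ext S
  rw [co_io, co_zero]
  split_ifs with h1
  · rfl
  · rw [h, mul_zero]
    rw [card_insert_of_notMem h1]; omega

lemma Λop_apply (α : E) : Λop α = ∑ j, io (yi j) (io (xi j) α) := by
  rw [Λop_eq, LinearMap.sum_apply]; rfl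

lemma Λop_mem {k : ℕ} {α : E} (h : α ∈ Deg (k + 2)) : Λop α ∈ Deg k := by
  rw [Λop_apply]
  exact Submodule.sum_mem _ fun j _ => io_mem _ (io_mem _ h)

lemma Λop_zero {α : E} (h : α ∈ Deg 0) : Λop α = 0 := by
  rw [Λop_apply]
  exact sum_eq_zero fun j _ => by rw [io_zero _ h, map_zero]

lemma Λop_one {α : E} (h : α ∈ Deg 1) : Λop α = 0 := by
  rw [Λop_apply]
  exact sum_eq_zero fun j _ => io_zero _ (io_mem _ h)

lemma Lop_pow_low (n : ℕ) (α : E) (S : Finset (Fin 10)) (h : S.card < 2 * n) :
    co ((Lop ^ n : Module.End ℝ E) α) S = 0 := by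
  induction n generalizing S with
  | zero => omega
  | succ n ih =>
    rw [pow_succ', Module.End.mul_apply]
    change co (om * _) S = 0
    rw [co_mul]
    refine sum_eq_zero fun T hT => ?_
    by_cases h2 : T.card = 2
    · rw [ih (S \ T), mul_zero]
      have := card_sdiff_add_card_eq_card (mem_powerset.mp hT)
      omega
    · rw [om_mem_Deg T h2]; ring

/-- The Lefschetz triple. -/
theorem trip : Trip 6 (Lop : Module.End ℝ E) (Λop : Module.End ℝ E) (Hop : Module.End ℝ E) := by
  have hHL : (Hop : Module.End ℝ E) * Lop = Lop * Hop + (2 : ℝ) • Lop := by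
    refine LinearMap.ext fun α => ?_
    rw [Lop_eq]
    simp only [Module.End.mul_apply, LinearMap.add_apply, LinearMap.smul_apply,
      LinearMap.sum_apply, X_apply, map_sum, smul_sum]
    rw [← sum_add_distrib]
    refine sum_congr rfl fun j _ => ?_
    rw [Hop_e_mul, Hop_e_mul, mul_add, two_smul]
    abel
  have hL : (Lop : Module.End ℝ E) ^ 6 = 0 := by
    refine LinearMap.ext fun α => ?_
    ext S
    rw [Lop_pow_low]
    · simp
    · have : S.card ≤ 10 := by simpa using card_le_univ S
      omega
  have hadjH : LinearMap.adjoint (Hop : Module.End ℝ E) = Hop := by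
    symm
    rw [LinearMap.eq_adjoint_iff]
    exact Hop_symm
  have hadjpow : ∀ n : ℕ, LinearMap.adjoint ((Lop : Module.End ℝ E) ^ n) =
      (Λop : Module.End ℝ E) ^ n := by
    intro n
    induction n with
    | zero => simp only [pow_zero]; exact LinearMap.adjoint_id
    | succ n ih => rw [pow_succ, adjoint_mul, ih, pow_succ']; rfl
  refine ⟨?_, hHL, ?_, hL, ?_⟩
  · rw [← sub_eq_iff_eq_add', Lop_eq, Λop_eq, Hop_eq_sum, sum_mul_sum, sum_mul_sum,
      sum_comm (f := fun i j => I (yi i) * I (xi i) * (X (xi j) * X (yi j))),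
      ← sum_sub_distrib]
    refine sum_congr rfl fun j _ => ?_
    rw [← sum_sub_distrib, sum_congr rfl fun k _ => XX_II j k, sum_ite_eq]
    simp
  · have h := congrArg (fun A : Module.End ℝ E => (LinearMap.adjoint A : Module.End ℝ E)) hHL
    rw [adjoint_mul, map_add, adjoint_mul, map_smulₛₗ, hadjH] at h
    change Λop * Hop = Hop * Λop + _ • Λop at h
    rw [h]
    simp
  · rw [← hadjpow 6, hL, map_zero]

end EH
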