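import Mathlib

/-!
# The Cholesky factor as a smooth function

`chol n H` is the lower triangular Cholesky factor of a positive definite Hermitian matrix,
computed by Schur complements.  It is smooth at every positive definite matrix.
-/

noncomputable section

namespace EH

open Matrix

/-- The Hermitian form `x* H x`. -/
def hform {n : ℕ} (H : Fin n → Fin n → ℂ) (x : Fin n → ℂ) : ℂ := ∑ i, star (x i) * ∑ j, H i j * x j

/-- Hermitian matrices. -/
def Herm {n : ℕ} (H : Fin n → Fin n → ℂ) : Prop := ∀ i j, star (H i j) = H j i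

/-- Positive semidefinite Hermitian matrices. -/
def PSD {n : ℕ} (H : Fin n → Fin n → ℂ) : Prop := Herm H ∧ ∀ x, 0 ≤ (hform H x).re

/-- Positive definite Hermitian matrices. -/
def PD {n : ℕ} (H : Fin n → Fin n → ℂ) : Prop := Herm H ∧ ∀ x, x ≠ 0 → 0 < (hform H x).re

/-- The Schur complement of the entry `(0, 0)`. -/
def schur {n : ℕ} (H : Fin (n + 1) → Fin (n + 1) → ℂ) : Fin n → Fin n → ℂ :=
  fun i j => H i.succ j.succ - H i.succ 0 * H 0 j.succ / H 0 0

/-- The Cholesky factor. -/
def chol : (n : ℕ) → (Fin n → Fin n → ℂ) → Fin n → Fin n → ℂ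
  | 0, _ => fun i => i.elim0
  | n + 1, H => Fin.cons (Fin.cons ((Real.sqrt (H 0 0).re : ℝ) : ℂ) (fun _ => 0))
      (fun i => Fin.cons (H i.succ 0 / ((Real.sqrt (H 0 0).re : ℝ) : ℂ)) (chol n (schur H) i))

section entries

variable {n : ℕ} (H : Fin (n + 1) → Fin (n + 1) → ℂ)

@[simp] lemma chol_zero_zero : chol (n + 1) H 0 0 = ((Real.sqrt (H 0 0).re : ℝ) : ℂ) := rfl
@[simp] lemma chol_zero_succ (j : Fin n) : chol (n + 1) H 0 j.succ = 0 := rfl
@[simp] lemma chol_succ_zero (i : Fin n) :
    chol (n + 1) H i.succ 0 = H i.succ 0 / ((Real.sqrt (H 0 0).re : ℝ) : ℂ) := rfl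
@[simp] lemma chol_succ_succ (i j : Fin n) :
    chol (n + 1) H i.succ j.succ = chol n (schur H) i j := rfl

end entries

lemma hform_single {n : ℕ} (H : Fin n → Fin n → ℂ) (i : Fin n) :
    hform H (Pi.single i 1) = H i i := by
  unfold hform
  rw [Finset.sum_eq_single i]
  · rw [Finset.sum_eq_single i]
    · simp
    · intro j _ hj; simp [hj]
    · simp
  · intro j _ hj; simp [hj]
  · simp

lemma PD.diag_pos {n : ℕ} {H : Fin n → Fin n → ℂ} (h : PD H) (i : Fin n) : 0 < (H i i).re := by
  have := h.2 (Pi.single i 1) (by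
    intro h0
    have := congrFun h0 i
    simp at this)
  rwa [hform_single] at this

lemma Herm.diag_real {n : ℕ} {H : Fin n → Fin n → ℂ} (h : Herm H) (i : Fin n) :
    H i i = (((H i i).re : ℝ) : ℂ) := by
  have h1 := h i i
  exact (Complex.conj_eq_iff_re.mp h1).symm

lemma PD.ne {n : ℕ} {H : Fin n → Fin n → ℂ} (h : PD H) (i : Fin n) : H i i ≠ 0 := by
  intro h0
  have := h.diag_pos i
  rw [h0] at this
  simp at this

lemma PD.toPSD {n : ℕ} {H : Fin n → Fin n → ℂ} (h : PD H) : PSD H := by
  refine ⟨h.1, fun x => ?_⟩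
  by_cases hx : x = 0
  · subst hx; simp [hform]
  · exact (h.2 x hx).le

/-- The Schur complement of a positive definite matrix is positive definite. -/
lemma schur_PD {n : ℕ} {H : Fin (n + 1) → Fin (n + 1) → ℂ} (h : PD H) : PD (schur H) := by
  have hs := h.1
  have hne := h.ne 0
  refine ⟨?_, ?_⟩
  · intro i j
    simp only [schur, star_sub, star_mul', star_div₀, hs i.succ j.succ, hs i.succ 0, hs 0 j.succ,
      hs 0 0]
    ring
  · intro x hx
    set y : Fin (n + 1) → ℂ := Fin.cons (-(∑ j, H 0 (Fin.succ j) * x j) / H 0 0) x with hy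
    have hy0 : y ≠ 0 := by
      intro h0
      apply hx
      funext i
      have := congrFun h0 i.succ
      simpa [hy] using this
    have h0 : ∑ j, H 0 j * y j = 0 := by
      simp only [Fin.sum_univ_succ, Fin.cons_zero, hy, Fin.cons_succ]
      field_simp
      ring
    have hS : ∀ i : Fin n, ∑ j, H i.succ j * y j = ∑ j, schur H i j * x j := by
      intro i
      simp only [Fin.sum_univ_succ, Fin.cons_zero, hy, Fin.cons_succ, schur, sub_mul,
        Finset.sum_sub_distrib]
      have : ∑ j, H i.succ 0 * H 0 (Fin.succ j) / H 0 0 * x j =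
          H i.succ 0 * ((∑ j, H 0 (Fin.succ j) * x j) / H 0 0) := by
        rw [Finset.sum_div, Finset.mul_sum]
        exact Finset.sum_congr rfl fun j _ => by ring
      rw [this]
      ring
    have key := h.2 y hy0
    have e : hform H y = hform (schur H) x := by
      unfold hform
      rw [Fin.sum_univ_succ, h0, mul_zero, zero_add]
      refine Finset.sum_congr rfl fun i _ => ?_
      rw [hS i]
      simp [hy]
    rwa [e] at key

/-- The Cholesky decomposition. -/
theorem chol_mul : ∀ (n : ℕ) {H : Fin n → Fin n → ℂ}, PD H → ∀ i j,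
    ∑ k, chol n H i k * star (chol n H j k) = H i j
  | 0, _, _, i, _ => i.elim0
  | n + 1, H, h, i, j => by
    have hs := h.1
    have hpos := h.diag_pos 0
    have h00 := hs.diag_real 0
    have ih := chol_mul n (schur_PD h)
    have hsq : ((Real.sqrt (H 0 0).re : ℝ) : ℂ) * ((Real.sqrt (H 0 0).re : ℝ) : ℂ) = H 0 0 := by
      rw [← Complex.ofReal_mul, Real.mul_self_sqrt hpos.le, ← h00]
    have hr : ((Real.sqrt (H 0 0).re : ℝ) : ℂ) ≠ 0 := by
      rw [Ne, Complex.ofReal_eq_zero]
      exact (Real.sqrt_pos.mpr hpos).ne'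
    have hne := h.ne 0
    have hst : star ((Real.sqrt (H 0 0).re : ℝ) : ℂ) = ((Real.sqrt (H 0 0).re : ℝ) : ℂ) :=
      Complex.conj_ofReal _
    rw [Fin.sum_univ_succ]
    refine Fin.cases ?_ (fun i => ?_) i
    · refine Fin.cases ?_ (fun j => ?_) j
      · simp [hsq]
      · simp only [chol_zero_zero, chol_succ_zero, chol_zero_succ, zero_mul,
          Finset.sum_const_zero, add_zero, star_div₀, hs j.succ 0, hst]
        field_simp
    · refine Fin.cases ?_ (fun j => ?_) j
      · simp only [chol_zero_zero, chol_succ_zero, chol_zero_succ, star_zero, mul_zero,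
          Finset.sum_const_zero, add_zero, hst]
        field_simp
      · have h2 := ih i j
        simp only [chol_succ_zero, chol_succ_succ, star_div₀, hs j.succ 0, hst]
        rw [h2, schur, div_mul_div_comm, hsq]
        ring

/-- The Cholesky factor is lower triangular. -/
theorem chol_lower : ∀ (n : ℕ) (H : Fin n → Fin n → ℂ) {i j : Fin n}, i < j → chol n H i j = 0
  | 0, _, i, _, _ => i.elim0
  | n + 1, H, i, j, hij => by
    revert hij
    refine Fin.cases ?_ (fun i => ?_) i
    · refine Fin.cases ?_ (fun j => ?_) j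
      · intro h; exact absurd h (lt_irrefl _)
      · intro _; rfl
    · refine Fin.cases ?_ (fun j => ?_) j
      · intro h; exact absurd h (by simp)
      · intro h
        exact chol_lower n (schur H) (Fin.succ_lt_succ_iff.mp h)

/-- The diagonal entries of the Cholesky factor are positive. -/
theorem chol_diag : ∀ (n : ℕ) {H : Fin n → Fin n → ℂ}, PD H → ∀ i : Fin n,
    ∃ r : ℝ, 0 < r ∧ chol n H i i = (r : ℂ)
  | 0, _, _, i => i.elim0
  | n + 1, H, h, i => by
    refine Fin.cases ?_ (fun i => ?_) i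
    · exact ⟨_, Real.sqrt_pos.mpr (h.diag_pos 0), rfl⟩
    · exact chol_diag n (schur_PD h) i

/-- The determinant of the Cholesky factor is a positive real number. -/
theorem chol_det {n : ℕ} {H : Fin n → Fin n → ℂ} (h : PD H) :
    ∃ r : ℝ, 0 < r ∧ (Matrix.of (chol n H)).det = (r : ℂ) := by
  choose r hr he using fun i => chol_diag n h i
  refine ⟨∏ i, r i, Finset.prod_pos fun i _ => hr i, ?_⟩
  rw [Matrix.det_of_isLowerTriangular]
  · rw [Complex.ofReal_prod]
    exact Finset.prod_congr rfl fun i _ => he i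
  · intro i j hij
    exact chol_lower n H hij

theorem chol_det_ne {n : ℕ} {H : Fin n → Fin n → ℂ} (h : PD H) :
    (Matrix.of (chol n H)).det ≠ 0 := by
  obtain ⟨r, hr, he⟩ := chol_det h
  rw [he]
  exact Complex.ofReal_ne_zero.mpr hr.ne'

lemma contDiffAt_entry {n k : ℕ} {m : WithTop ℕ∞} (H : Fin n → Fin k → ℂ) (i : Fin n)
    (j : Fin k) : ContDiffAt ℝ m (fun K : Fin n → Fin k → ℂ => K i j) H := by
  fun_prop

lemma contDiffAt_div {F : Type*} [NormedAddCommGroup F] [NormedSpace ℝ F] {m : WithTop ℕ∞}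
    {f g : F → ℂ} {x : F} (hf : ContDiffAt ℝ m f x) (hg : ContDiffAt ℝ m g x) (h : g x ≠ 0) :
    ContDiffAt ℝ m (fun y => f y / g y) x := by
  have : (fun y => f y / g y) = fun y => f y * (g y)⁻¹ := by
    funext y; rw [div_eq_mul_inv]
  rw [this]
  exact hf.mul (hg.inv h)

theorem schur_contDiffAt {n : ℕ} {m : WithTop ℕ∞} {H : Fin (n + 1) → Fin (n + 1) → ℂ}
    (h : H 0 0 ≠ 0) : ContDiffAt ℝ m (schur (n := n)) H := by
  rw [contDiffAt_pi]
  intro i
  rw [contDiffAt_pi]
  intro j
  exact (contDiffAt_entry H _ _).sub (contDiffAt_div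
    ((contDiffAt_entry H _ _).mul (contDiffAt_entry H _ _)) (contDiffAt_entry H _ _) h)

/-- The Cholesky factor is smooth at every positive definite matrix. -/
theorem chol_contDiffAt {m : WithTop ℕ∞} : ∀ (n : ℕ) {H : Fin n → Fin n → ℂ},
    PD H → ContDiffAt ℝ m (chol n) H
  | 0, _, _ => by
    rw [contDiffAt_pi]
    intro i
    exact i.elim0
  | n + 1, H, h => by
    have hpos := h.diag_pos 0
    have hr : ((Real.sqrt (H 0 0).re : ℝ) : ℂ) ≠ 0 := by
      rw [Ne, Complex.ofReal_eq_zero]
      exact (Real.sqrt_pos.mpr hpos).ne'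
    have hsqrt : ContDiffAt ℝ m
        (fun K : Fin (n + 1) → Fin (n + 1) → ℂ => ((Real.sqrt (K 0 0).re : ℝ) : ℂ)) H := by
      have h1 : ContDiffAt ℝ m (fun K : Fin (n + 1) → Fin (n + 1) → ℂ => (K 0 0).re) H :=
        Complex.reCLM.contDiff.contDiffAt.comp H (contDiffAt_entry H 0 0)
      have h2 : ContDiffAt ℝ m
          (fun K : Fin (n + 1) → Fin (n + 1) → ℂ => Real.sqrt (K 0 0).re) H :=
        h1.sqrt hpos.ne'
      exact Complex.ofRealCLM.contDiff.contDiffAt.comp H h2
    rw [contDiffAt_pi]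
    intro i
    rw [contDiffAt_pi]
    intro j
    refine Fin.cases ?_ (fun i => ?_) i
    · refine Fin.cases ?_ (fun j => ?_) j
      · exact hsqrt
      · exact contDiffAt_const
    · refine Fin.cases ?_ (fun j => ?_) j
      · exact contDiffAt_div (contDiffAt_entry H _ _) hsqrt hr
      · have ih : ContDiffAt ℝ m (chol n) (schur H) := chol_contDiffAt n (schur_PD h)
        have ih2 : ContDiffAt ℝ m (fun K : Fin n → Fin n → ℂ => chol n K i j) (schur H) :=
          (contDiffAt_pi.mp ((contDiffAt_pi.mp ih) i)) j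
        exact ih2.comp H (schur_contDiffAt (h.ne 0))

end EH
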