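import Mathlib

/-!
Pointwise positivity of real (1,1)-forms, in an abstract algebra `E` generated by real covectors
with square zero.
-/

namespace EHPos

open Module

variable {n : ℕ} {E : Type*} [Ring E] [Algebra ℝ E]

/-- `v ∧ i v` -/
noncomputable def pair (i : (Fin n → ℂ) →ₗ[ℝ] E) (v : Fin n → ℂ) : E := i v * i (Complex.I • v)

/-- the real basis `e_0, i e_0, e_1, i e_1, ...` -/
noncomputable def rbasis (n : ℕ) : Basis (Fin (n * 2)) ℝ (Fin n → ℂ) :=
  (Complex.basisOneI.smulTower' (Pi.basisFun ℂ (Fin n))).reindex finProdFinEquiv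

lemma rbasis_apply (j : Fin n) (k : Fin 2) :
    rbasis n (finProdFinEquiv (j, k)) = Complex.basisOneI k • (Pi.single j 1 : Fin n → ℂ) := by
  simp [rbasis, Basis.smulTower']

/-- the family `v_0, i v_0, v_1, i v_1, ...` -/
noncomputable def dbl (v : Fin n → Fin n → ℂ) (k : Fin (n * 2)) : Fin n → ℂ :=
  Complex.basisOneI (finProdFinEquiv.symm k).2 • v (finProdFinEquiv.symm k).1

lemma prod_dbl (i : (Fin n → ℂ) →ₗ[ℝ] E) (v : Fin n → Fin n → ℂ) :
    (List.ofFn fun k => i (dbl v k)).prod = (List.ofFn fun j => pair i (v j)).prod := by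
  rw [List.ofFn_mul, List.prod_flatten, List.map_ofFn]
  congr 1
  congr 1
  funext j
  have e : ∀ k : Fin 2, (⟨(j : ℕ) * 2 + k, by have := j.2; have := k.2; omega⟩ : Fin (n * 2)) =
      finProdFinEquiv (j, k) := by
    intro k
    ext
    simp [finProdFinEquiv]
    ring
  simp only [Function.comp_apply, e, dbl, Equiv.symm_apply_apply]
  simp [List.ofFn_succ, pair, Complex.coe_basisOneI]

lemma det_dbl (v : Fin n → Fin n → ℂ) :
    (rbasis n).det (dbl v) = Complex.normSq (Matrix.det (Matrix.of v)) := by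
  classical
  let L : (Fin n → ℂ) →ₗ[ℂ] (Fin n → ℂ) := (Pi.basisFun ℂ (Fin n)).constr ℂ v
  have hL : dbl v = (L.restrictScalars ℝ) ∘ (rbasis n) := by
    funext k
    obtain ⟨⟨j, l⟩, rfl⟩ := finProdFinEquiv.surjective k
    simp only [Function.comp_apply, rbasis_apply, dbl, Equiv.symm_apply_apply,
      LinearMap.coe_restrictScalars, map_smul]
    congr 1
    have : (Pi.single j 1 : Fin n → ℂ) = Pi.basisFun ℂ (Fin n) j := by simp
    rw [this, Basis.constr_basis]
  rw [hL, Basis.det_comp, Basis.det_self, mul_one, LinearMap.det_restrictScalars,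
    Algebra.norm_complex_apply]
  congr 1
  rw [← LinearMap.det_toMatrix (Pi.basisFun ℂ (Fin n))]
  rw [← Matrix.det_transpose]
  congr 1
  ext a b
  rw [Matrix.transpose_apply, LinearMap.toMatrix_apply]
  simp [L]

/-- The product of `n` forms `v ∧ i v` is a nonnegative multiple of the standard one. -/
theorem top_prod_pair (i : (Fin n → ℂ) →ₗ[ℝ] E) (hi : ∀ v, i v * i v = 0) (top : E →ₗ[ℝ] ℝ)
    (v : Fin n → Fin n → ℂ) :
    top (List.ofFn fun j => pair i (v j)).prod =
      Complex.normSq (Matrix.det (Matrix.of v)) *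
        top (List.ofFn fun j => pair i (Pi.single j 1)).prod := by
  classical
  let φ : ExteriorAlgebra ℝ (Fin n → ℂ) →ₐ[ℝ] E := ExteriorAlgebra.lift ℝ ⟨i, hi⟩
  let F : (Fin n → ℂ) [⋀^Fin (n * 2)]→ₗ[ℝ] ℝ :=
    (top ∘ₗ φ.toLinearMap).compAlternatingMap (ExteriorAlgebra.ιMulti ℝ (n * 2))
  have hF : ∀ w : Fin (n * 2) → Fin n → ℂ, F w = top (List.ofFn fun k => i (w k)).prod := by
    intro w
    simp only [F, LinearMap.compAlternatingMap_apply, LinearMap.comp_apply,
      AlgHom.toLinearMap_apply, ExteriorAlgebra.ιMulti_apply, map_list_prod, List.map_ofFn]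
    congr 3
    funext k
    simp [φ]
  have h1 := F.eq_smul_basis_det (rbasis n)
  have h2 : F (dbl v) = F (rbasis n) * (rbasis n).det (dbl v) := by
    conv_lhs => rw [h1]
    simp
  have h3 : dbl (fun j => (Pi.single j 1 : Fin n → ℂ)) = rbasis n := by
    funext k
    obtain ⟨⟨j, l⟩, rfl⟩ := finProdFinEquiv.surjective k
    rw [rbasis_apply, dbl, Equiv.symm_apply_apply]
  rw [← prod_dbl, ← prod_dbl, ← hF, ← hF, h2, h3, det_dbl, mul_comm]

end EHPos
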