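import Mathlib
import Pool.Agent.Work.MP_9eee85_co.EH.Pos

/-!
The cone of semipositive real (1,1)-forms `∑ v ∧ i v` in an abstract exterior algebra.
-/

namespace EHPos

open Module

variable {n : ℕ} {E : Type*} [Ring E] [Algebra ℝ E] (i : (Fin n → ℂ) →ₗ[ℝ] E)

/-- the cone of semipositive real (1,1)-forms: finite sums of forms `v ∧ i v` -/
def cone : AddSubmonoid E := AddSubmonoid.closure (Set.range (pair i))

lemma pair_mem (v : Fin n → ℂ) : pair i v ∈ cone i :=
  AddSubmonoid.subset_closure ⟨v, rfl⟩

lemma pair_smul (c : ℝ) (v : Fin n → ℂ) : pair i (c • v) = c ^ 2 • pair i v := by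
  simp only [pair]
  rw [smul_comm, map_smul, map_smul, smul_mul_smul_comm, sq]

lemma pair_I (hi : ∀ v, i v * i v = 0) (v : Fin n → ℂ) : pair i (Complex.I • v) = pair i v := by
  have anti : ∀ v w, i v * i w = -(i w * i v) := by
    intro v w
    have h := hi (v + w)
    rw [map_add, add_mul, mul_add, mul_add, hi, hi, zero_add, add_zero] at h
    exact eq_neg_of_add_eq_zero_left h
  simp only [pair]
  rw [smul_smul, Complex.I_mul_I, neg_one_smul, map_neg, mul_neg, anti, neg_neg]

lemma smul_mem {c : ℝ} (hc : 0 ≤ c) {N : E} (hN : N ∈ cone i) : c • N ∈ cone i := by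
  induction hN using AddSubmonoid.closure_induction with
  | mem x hx =>
    obtain ⟨v, rfl⟩ := hx
    have : c • pair i v = pair i (Real.sqrt c • v) := by rw [pair_smul, Real.sq_sqrt hc]
    rw [this]
    exact pair_mem i _
  | zero => rw [smul_zero]; exact zero_mem _
  | add x y _ _ hx hy => rw [smul_add]; exact add_mem hx hy

lemma smul_pair_mem {c : ℝ} (hc : 0 ≤ c) (v : Fin n → ℂ) : c • pair i v ∈ cone i :=
  smul_mem i hc (pair_mem i v)

/-- every element of the cone is a finite sum of forms `v ∧ i v` -/
lemma mem_cone_iff {N : E} : N ∈ cone i ↔ ∃ (m : ℕ) (v : Fin m → Fin n → ℂ),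
    N = ∑ k, pair i (v k) := by
  constructor
  · intro h
    induction h using AddSubmonoid.closure_induction with
    | mem x hx =>
      obtain ⟨v, rfl⟩ := hx
      exact ⟨1, fun _ => v, by simp⟩
    | zero => exact ⟨0, fun k => k.elim0, by simp⟩
    | add x y _ _ hx hy =>
      obtain ⟨m, v, rfl⟩ := hx
      obtain ⟨m', v', rfl⟩ := hy
      refine ⟨m + m', Fin.append v v', ?_⟩
      rw [Fin.sum_univ_add]
      simp
  · rintro ⟨m, v, rfl⟩
    exact sum_mem fun k _ => pair_mem i _

section comm

variable {i} (hi : ∀ v, i v * i v = 0)
include hi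

lemma anti (v w : Fin n → ℂ) : i v * i w = -(i w * i v) := by
  have h := hi (v + w)
  rw [map_add, add_mul, mul_add, mul_add, hi, hi, zero_add, add_zero] at h
  exact eq_neg_of_add_eq_zero_left h

lemma pair_comm_i (v w : Fin n → ℂ) : pair i v * i w = i w * pair i v := by
  simp only [pair]
  rw [mul_assoc, anti hi _ w, mul_neg, ← mul_assoc, anti hi _ w, neg_mul, neg_neg, mul_assoc]

lemma pair_comm_pair (v w : Fin n → ℂ) : pair i v * pair i w = pair i w * pair i v := by
  conv_lhs => rw [pair.eq_def i w]
  rw [← mul_assoc, pair_comm_i hi, mul_assoc, pair_comm_i hi, ← mul_assoc]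
  rfl

lemma pair_sq (v : Fin n → ℂ) : pair i v * pair i v = 0 := by
  conv_lhs => rw [pair.eq_def i v]
  rw [mul_assoc (i v), ← mul_assoc (i (Complex.I • v)), anti hi _ v, neg_mul, mul_assoc (i v), hi]
  simp

lemma cone_comm_i {N : E} (hN : N ∈ cone i) (w : Fin n → ℂ) : N * i w = i w * N := by
  induction hN using AddSubmonoid.closure_induction with
  | mem x hx => obtain ⟨v, rfl⟩ := hx; exact pair_comm_i hi v w
  | zero => simp
  | add x y _ _ hx hy => rw [add_mul, mul_add, hx, hy]

lemma cone_comm_pair {N : E} (hN : N ∈ cone i) (w : Fin n → ℂ) :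
    N * pair i w = pair i w * N := by
  simp only [pair]
  rw [← mul_assoc, cone_comm_i hi hN, mul_assoc, cone_comm_i hi hN, mul_assoc]

lemma cone_comm {N M : E} (hN : N ∈ cone i) (hM : M ∈ cone i) : N * M = M * N := by
  induction hM using AddSubmonoid.closure_induction with
  | mem x hx => obtain ⟨v, rfl⟩ := hx; exact cone_comm_pair hi hN v
  | zero => simp
  | add x y _ _ hx hy => rw [add_mul, mul_add, hx, hy]

omit hi in
lemma ofFn_prod_update_add (N : Fin n → E) (j : Fin n) (x y : E) :
    (List.ofFn (Function.update N j (x + y))).prod =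
      (List.ofFn (Function.update N j x)).prod + (List.ofFn (Function.update N j y)).prod := by
  simpa only [MultilinearMap.mkPiAlgebraFin_apply] using
    (MultilinearMap.mkPiAlgebraFin ℝ n E).map_update_add N j x y

omit hi in
lemma ofFn_prod_update_zero (N : Fin n → E) (j : Fin n) :
    (List.ofFn (Function.update N j 0)).prod = 0 := by
  simpa only [MultilinearMap.mkPiAlgebraFin_apply] using
    (MultilinearMap.mkPiAlgebraFin ℝ n E).map_update_zero N j

/-- **the product of `n` semipositive forms is nonnegative** -/
theorem top_nonneg (top : E →ₗ[ℝ] ℝ)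
    (ht : 0 ≤ top (List.ofFn fun j => pair i (Pi.single j 1)).prod)
    (N : Fin n → E) (hN : ∀ j, N j ∈ cone i) : 0 ≤ top (List.ofFn N).prod := by
  classical
  -- replace the entries one after another by `pair`s
  suffices H : ∀ (s : Finset (Fin n)) (N : Fin n → E), (∀ j ∈ s, N j ∈ cone i) →
      (∀ j ∉ s, ∃ v, N j = pair i v) → 0 ≤ top (List.ofFn N).prod from
    H Finset.univ N (fun j _ => hN j) (fun j hj => absurd (Finset.mem_univ j) hj)
  intro s
  induction s using Finset.induction_on with
  | empty =>
    intro N _ h2
    choose v hv using fun j => h2 j (Finset.notMem_empty j)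
    have : N = fun j => pair i (v j) := funext hv
    rw [this, top_prod_pair i hi]
    exact mul_nonneg (Complex.normSq_nonneg _) ht
  | insert j s hj ih =>
    intro N h1 h2
    have key : ∀ x ∈ cone i, 0 ≤ top (List.ofFn (Function.update N j x)).prod := by
      intro x hx
      induction hx using AddSubmonoid.closure_induction with
      | mem x hx =>
        obtain ⟨v, rfl⟩ := hx
        apply ih
        · intro k hk
          have : k ≠ j := fun h => hj (h ▸ hk)
          rw [Function.update_of_ne this]
          exact h1 k (Finset.mem_insert_of_mem hk)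
        · intro k hk
          by_cases hkj : k = j
          · subst hkj; exact ⟨v, by simp⟩
          · rw [Function.update_of_ne hkj]
            exact h2 k (by simp [hkj, hk])
      | zero => rw [ofFn_prod_update_zero]; simp
      | add x y _ _ hx hy => rw [ofFn_prod_update_add, map_add]; exact add_nonneg hx hy
    have := key (N j) (h1 j (Finset.mem_insert_self j s))
    rwa [Function.update_eq_self] at this

/-- monotonicity in every factor -/
theorem top_mono (top : E →ₗ[ℝ] ℝ)
    (ht : 0 ≤ top (List.ofFn fun j => pair i (Pi.single j 1)).prod)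
    (N N' : Fin n → E) (hN : ∀ j, N j ∈ cone i) (hN' : ∀ j, N' j - N j ∈ cone i) :
    top (List.ofFn N).prod ≤ top (List.ofFn N').prod := by
  classical
  have hN2 : ∀ j, N' j ∈ cone i := fun j => by
    have := add_mem (hN' j) (hN j); rwa [sub_add_cancel] at this
  suffices H : ∀ s : Finset (Fin n), top (List.ofFn N).prod ≤
      top (List.ofFn fun j => if j ∈ s then N' j else N j).prod by
    simpa using H Finset.univ
  intro s
  induction s using Finset.induction_on with
  | empty => simp
  | insert j s hj ih =>
    refine ih.trans ?_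
    set M : Fin n → E := fun k => if k ∈ s then N' k else N k with hM
    have e1 : (fun k => if k ∈ insert j s then N' k else N k) = Function.update M j (N' j) := by
      funext k
      by_cases hk : k = j
      · subst hk; simp
      · rw [Function.update_of_ne hk]; simp [hM, hk]
    have e2 : Function.update M j (N j) = M := by
      have h3 : N j = M j := by simp [hM, hj]
      rw [h3, Function.update_eq_self]
    have e3 : N' j = (N' j - N j) + N j := by abel
    rw [e1, e3, ofFn_prod_update_add, map_add, e2]
    have : 0 ≤ top (List.ofFn (Function.update M j (N' j - N j))).prod := by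
      apply top_nonneg hi top ht
      intro k
      by_cases hk : k = j
      · subst hk; simpa using hN' k
      · rw [Function.update_of_ne hk]
        simp only [hM]
        split_ifs
        · exact hN2 k
        · exact hN k
    linarith

end comm

end EHPos
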