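import Pool.Agent.Work.MP_9eee85_co.EH.Herm2
import Pool.Agent.Work.MP_9eee85_co.EH.E1

/-!
The cone of semipositive (1,1)-forms in `E`, the exterior algebra of `ℝ^10`.

`ic a = ∑ Re a_j dx_j + Im a_j dy_j`, `pair ic (e_j) = dx_j dy_j`.
-/

noncomputable section

namespace EH

open Finset EHPos

lemma ic_single (j : Fin 5) : ic (Pi.single j 1) = e (xi j) := by
  rw [ic_eq, Finset.sum_eq_single j]
  · simp
  · intro b _ hb; simp [Pi.single_eq_of_ne hb]
  · intro h; exact absurd (mem_univ j) h

lemma ic_I_single (j : Fin 5) : ic (Complex.I • Pi.single j 1) = e (yi j) := by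
  rw [ic_eq, Finset.sum_eq_single j]
  · simp
  · intro b _ hb; simp [Pi.single_eq_of_ne hb]
  · intro h; exact absurd (mem_univ j) h

lemma pair_single (j : Fin 5) : pair ic (Pi.single j 1) = e (xi j) * e (yi j) := by
  rw [pair, ic_single, ic_I_single]

lemma om_eq_pair : om = ∑ j, pair ic (Pi.single j 1) := by
  simp only [pair_single]; rfl

lemma om_mem : om ∈ cone ic := by
  rw [om_eq_pair]; exact sum_mem fun j _ => pair_mem ic _

/-- products of monomials over initial segments -/
lemma mono_mul_e {S : Finset (Fin 10)} {a : Fin 10} (h : ∀ s ∈ S, s < a) :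
    mono S * e a = mono (insert a S) := by
  have hd : Disjoint S {a} := by
    rw [disjoint_singleton_right]; intro ha; exact lt_irrefl a (h a ha)
  rw [e, mono_mul_of_disjoint hd]
  have : inv S {a} = 0 := by
    unfold inv
    rw [card_eq_zero, filter_eq_empty_iff]
    rintro ⟨s, t⟩ hst
    simp only [mem_product, mem_singleton] at hst
    obtain ⟨h1, h2⟩ := hst
    subst h2
    exact not_lt_of_gt (h s h1)
  rw [sgn, this, pow_zero, one_smul, union_comm]
  rfl

lemma top_std : top (List.ofFn fun j : Fin 5 => pair ic (Pi.single j 1)).prod = 1 := by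
  have h : (List.ofFn fun j : Fin 5 => pair ic (Pi.single j 1)).prod = mono univ := by
    simp only [pair_single, List.ofFn_succ, List.ofFn_zero, List.prod_cons, List.prod_nil, mul_one]
    simp only [← mul_assoc]
    have h0 : e (xi 0) = mono {0} := rfl
    rw [h0]
    rw [mono_mul_e (by decide), mono_mul_e (by decide), mono_mul_e (by decide),
      mono_mul_e (by decide), mono_mul_e (by decide), mono_mul_e (by decide),
      mono_mul_e (by decide), mono_mul_e (by decide), mono_mul_e (by decide)]
    congr 1
    decide
  rw [h, top_apply, co_mono, if_pos rfl]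

/-- the top coefficient of a product of five semipositive forms is nonnegative -/
theorem top5_nonneg {A B C D F : E} (hA : A ∈ cone ic) (hB : B ∈ cone ic) (hC : C ∈ cone ic)
    (hD : D ∈ cone ic) (hF : F ∈ cone ic) : 0 ≤ top (A * B * C * D * F) := by
  have := top_nonneg (i := ic) ic_sq top (by rw [top_std]; norm_num) ![A, B, C, D, F]
    (by intro j; fin_cases j <;> assumption)
  simpa [List.ofFn_succ, mul_assoc] using this

/-- monotonicity -/
theorem top5_mono {A B C D F A' B' C' D' F' : E} (hA : A ∈ cone ic) (hB : B ∈ cone ic)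
    (hC : C ∈ cone ic) (hD : D ∈ cone ic) (hF : F ∈ cone ic) (hA' : A' - A ∈ cone ic)
    (hB' : B' - B ∈ cone ic) (hC' : C' - C ∈ cone ic) (hD' : D' - D ∈ cone ic)
    (hF' : F' - F ∈ cone ic) : top (A * B * C * D * F) ≤ top (A' * B' * C' * D' * F') := by
  have := top_mono (i := ic) ic_sq top (by rw [top_std]; norm_num) ![A, B, C, D, F]
    ![A', B', C', D', F']
    (by intro j; fin_cases j <;> assumption) (by intro j; fin_cases j <;> assumption)
  simpa [List.ofFn_succ, mul_assoc] using this

end EH
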