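import Mathlib

/-!
# Weak derivative zero implies locally a.e. constant

`weak_const_local`: on an open set of a finite dimensional real vector space.
`ae_const_of_local`: gluing on a connected space.
-/

set_option linter.unusedSectionVars false

open MeasureTheory Filter Topology Set Metric
open scoped ENNReal NNReal ContDiff Convolution

namespace EH.WC

section Local

variable {E : Type*} [NormedAddCommGroup E] [NormedSpace ℝ E] [FiniteDimensional ℝ E]
  [MeasurableSpace E] [BorelSpace E] (μ : Measure E) [μ.IsAddHaarMeasure]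
  {V : Type*} [NormedAddCommGroup V] [NormedSpace ℝ V] [CompleteSpace V]

/-- A continuous compactly supported operator valued function applied to a locally integrable
function is integrable. -/
theorem integrable_clm_apply {V W : Type*} [NormedAddCommGroup V] [NormedSpace ℝ V]
    [NormedAddCommGroup W] [NormedSpace ℝ W] {μ : Measure E} {S : E → (V →L[ℝ] W)}
    (hS : Continuous S) (hSc : HasCompactSupport S)
    {f : E → V} (hf : LocallyIntegrable f μ) : Integrable (fun y => S y (f y)) μ := by
  obtain ⟨C, hC⟩ := hSc.exists_bound_of_continuous hS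
  have h1 : IntegrableOn f (tsupport S) μ := hf.integrableOn_isCompact hSc
  have h2 : Integrable ((tsupport S).indicator f) μ :=
    (integrable_indicator_iff (isClosed_tsupport S).measurableSet).2 h1
  have h3 : (fun y => S y (f y)) = fun y => S y ((tsupport S).indicator f y) := by
    funext y
    by_cases hy : y ∈ tsupport S
    · rw [indicator_of_mem hy]
    · rw [image_eq_zero_of_notMem_tsupport hy]; simp
  rw [h3]
  refine (h2.norm.const_mul C).mono' ?_ (Eventually.of_forall fun y => ?_)
  · exact (ContinuousLinearMap.id ℝ (V →L[ℝ] W)).aestronglyMeasurable_comp₂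
      hS.aestronglyMeasurable h2.aestronglyMeasurable
  · exact (S y).le_of_opNorm_le (hC y) _

/-- The bump functions used. -/
noncomputable def bmp (E : Type*) [NormedAddCommGroup E] [NormedSpace ℝ E] (n : ℕ) :
    ContDiffBump (0 : E) :=
  ⟨1 / (2 * ((n : ℝ) + 1)), 1 / ((n : ℝ) + 1), by positivity, by
    apply one_div_lt_one_div_of_lt (by positivity)
    have : (0 : ℝ) ≤ n := Nat.cast_nonneg n
    linarith⟩

variable {μ}

theorem conv_fderiv_zero {U : Set E} {c : E → V} {a : E} {s : ℝ}
    (hc : IntegrableOn c (closedBall a s) μ) (hsU : closedBall a s ⊆ U)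
    (hw : ∀ φ : E → ℝ, ContDiff ℝ ∞ φ → HasCompactSupport φ → tsupport φ ⊆ U → ∀ v : E,
      ∫ x, (fderiv ℝ φ x v) • c x ∂μ = 0) (b : ContDiffBump (0 : E)) {x : E}
    (hx : dist x a + b.rOut < s) :
    HasFDerivAt (b.normed μ ⋆[ContinuousLinearMap.lsmul ℝ ℝ, μ] (closedBall a s).indicator c)
      (0 : E →L[ℝ] V) x := by
  have hci : Integrable ((closedBall a s).indicator c) μ :=
    (integrable_indicator_iff isClosed_closedBall.measurableSet).2 hc
  have h := (b.hasCompactSupport_normed (μ := μ)).hasFDerivAt_convolution_left (μ := μ)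
    (ContinuousLinearMap.lsmul ℝ ℝ : ℝ →L[ℝ] V →L[ℝ] V) (b.contDiff_normed (n := 1) (μ := μ))
    hci.locallyIntegrable x
  suffices h0 : (fderiv ℝ (b.normed μ) ⋆[(ContinuousLinearMap.lsmul ℝ ℝ).precompL E, μ]
      (closedBall a s).indicator c) x = 0 by
    rwa [h0] at h
  have hcont : Continuous fun y => fderiv ℝ (b.normed μ) (x - y) :=
    ((b.contDiff_normed (n := 1) (μ := μ)).continuous_fderiv one_ne_zero).comp
      (continuous_const.sub continuous_id)
  have hzero : ∀ y, b.rOut < dist y x → fderiv ℝ (b.normed μ) (x - y) = 0 := by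
    intro y hy
    by_contra hne
    have h1 : x - y ∈ tsupport (b.normed μ) := support_fderiv_subset ℝ hne
    rw [b.tsupport_normed_eq, mem_closedBall, dist_zero_right, ← dist_eq_norm, dist_comm] at h1
    linarith
  ext v
  rw [convolution_eq_swap, ContinuousLinearMap.integral_apply]
  · rw [_root_.zero_apply]
    have hφ := hw (fun y => b.normed μ (x - y))
      (b.contDiff_normed.comp (contDiff_const.sub contDiff_id)) ?_ ?_ v
    · rw [← neg_eq_zero, ← hφ, ← integral_neg]
      congr 1
      funext y
      have h2 : HasFDerivAt (fun y => b.normed μ (x - y)) (-(fderiv ℝ (b.normed μ) (x - y))) y := by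
        have h1 : HasFDerivAt (b.normed μ) (fderiv ℝ (b.normed μ) (x - y)) (x - y) :=
          ((b.contDiff_normed (n := 1) (μ := μ)).differentiable one_ne_zero _).hasFDerivAt
        have h2 : HasFDerivAt (fun z : E => x - z) (-(ContinuousLinearMap.id ℝ E)) y :=
          (hasFDerivAt_id y).const_sub x
        have h3 := h1.comp y h2
        simpa [Function.comp_def] using h3
      rw [h2.fderiv]
      by_cases hy : b.rOut < dist y x
      · rw [hzero y hy]; simp
      · have : y ∈ closedBall a s := by
          rw [mem_closedBall]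
          have := dist_triangle y x a
          linarith
        rw [indicator_of_mem this]
        simp [ContinuousLinearMap.precompL_apply]
    · refine HasCompactSupport.intro (isCompact_closedBall x b.rOut) fun y hy => ?_
      rw [mem_closedBall, not_le] at hy
      have : x - y ∉ Function.support (b.normed μ) := by
        rw [b.support_normed_eq, mem_ball, dist_zero_right, ← dist_eq_norm, dist_comm]
        linarith
      simpa using this
    · refine (closure_minimal (fun y hy => ?_) isClosed_closedBall).trans
        ((closedBall_subset_closedBall' (ε₁ := b.rOut) (x := x) (y := a) (by linarith)).trans hsU)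
      have : x - y ∈ Function.support (b.normed μ) := hy
      rw [b.support_normed_eq, mem_ball, dist_zero_right, ← dist_eq_norm, dist_comm] at this
      exact this.le
  · have hs : HasCompactSupport fun y => fderiv ℝ (b.normed μ) (x - y) := by
      refine HasCompactSupport.intro (isCompact_closedBall x b.rOut) fun y hy => ?_
      exact hzero y (by simpa using hy)
    let L := ((ContinuousLinearMap.lsmul ℝ ℝ : ℝ →L[ℝ] V →L[ℝ] V).precompL E)
    exact integrable_clm_apply (S := fun y => L (fderiv ℝ (b.normed μ) (x - y)))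
      (L.continuous.comp hcont) (hs.comp_left (g := L) (by simp)) hci.locallyIntegrable

/-- A locally integrable function whose weak derivative vanishes on an open set is locally a.e.
constant. -/
theorem weak_const_local {U : Set E} (hU : IsOpen U) {c : E → V}
    (hc : LocallyIntegrableOn c U μ)
    (hw : ∀ φ : E → ℝ, ContDiff ℝ ∞ φ → HasCompactSupport φ → tsupport φ ⊆ U → ∀ v : E,
      ∫ x, (fderiv ℝ φ x v) • c x ∂μ = 0) {a : E} (ha : a ∈ U) :
    ∃ s > 0, ball a s ⊆ U ∧ ∃ k : V, ∀ᵐ x ∂(μ.restrict (ball a s)), c x = k := by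
  obtain ⟨s, hs, hsU⟩ := nhds_basis_closedBall.mem_iff.1 (hU.mem_nhds ha)
  have hci : IntegrableOn c (closedBall a s) μ :=
    hc.integrableOn_compact_subset hsU (isCompact_closedBall a s)
  have hcI : Integrable ((closedBall a s).indicator c) μ :=
    (integrable_indicator_iff isClosed_closedBall.measurableSet).2 hci
  have hlim : ∀ᵐ x ∂μ, Tendsto (fun n => ((bmp E n).normed μ ⋆[ContinuousLinearMap.lsmul ℝ ℝ, μ]
      (closedBall a s).indicator c) x) atTop (𝓝 ((closedBall a s).indicator c x)) := by
    refine ContDiffBump.ae_convolution_tendsto_right_of_locallyIntegrable (K := 2) ?_ ?_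
      hcI.locallyIntegrable
    · exact tendsto_one_div_add_atTop_nhds_zero_nat
    · refine Eventually.of_forall fun n => ?_
      simp only [bmp]
      field_simp
      rfl
  have hconst : ∀ x ∈ ball a s, ∀ y ∈ ball a s, ∀ᶠ n in atTop,
      ((bmp E n).normed μ ⋆[ContinuousLinearMap.lsmul ℝ ℝ, μ] (closedBall a s).indicator c) x
      = ((bmp E n).normed μ ⋆[ContinuousLinearMap.lsmul ℝ ℝ, μ] (closedBall a s).indicator c) y := by
    intro x hx y hy
    rw [mem_ball] at hx hy
    have h1 : ∀ᶠ n : ℕ in atTop, 1 / ((n : ℝ) + 1) < min (s - dist x a) (s - dist y a) := by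
      refine tendsto_one_div_add_atTop_nhds_zero_nat.eventually (Iio_mem_nhds ?_)
      exact lt_min (by linarith) (by linarith)
    filter_upwards [h1] with n hn
    have hr : (bmp E n).rOut = 1 / ((n : ℝ) + 1) := rfl
    set t := s - 1 / ((n : ℝ) + 1) with ht
    have hconv : Convex ℝ (ball a t) := convex_ball a t
    have hd : ∀ z ∈ ball a t, HasFDerivWithinAt
        ((bmp E n).normed μ ⋆[ContinuousLinearMap.lsmul ℝ ℝ, μ] (closedBall a s).indicator c)
        (0 : E →L[ℝ] V) (ball a t) z := by
      intro z hz
      refine (conv_fderiv_zero hci hsU hw (bmp E n) ?_).hasFDerivWithinAt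
      rw [hr]
      have := mem_ball.1 hz
      linarith
    have hle := hconv.norm_image_sub_le_of_norm_hasFDerivWithin_le (C := 0) hd
      (fun z _ => by simp) (x := y) (y := x)
      (by rw [mem_ball]; have := (lt_min_iff.1 hn).2; linarith)
      (by rw [mem_ball]; have := (lt_min_iff.1 hn).1; linarith)
    rw [zero_mul] at hle
    exact sub_eq_zero.1 (norm_le_zero_iff.1 hle)
  refine ⟨s, hs, ball_subset_closedBall.trans hsU, ?_⟩
  have hpos : μ (ball a s) ≠ 0 := (measure_ball_pos μ a hs).ne'
  have hlim' : ∀ᵐ x ∂(μ.restrict (ball a s)), x ∈ ball a s ∧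
      Tendsto (fun n => ((bmp E n).normed μ ⋆[ContinuousLinearMap.lsmul ℝ ℝ, μ]
      (closedBall a s).indicator c) x) atTop (𝓝 (c x)) := by
    filter_upwards [ae_restrict_mem measurableSet_ball, ae_restrict_of_ae hlim] with x hx h
    rw [indicator_of_mem (ball_subset_closedBall hx)] at h
    exact ⟨hx, h⟩
  have hne : (ae (μ.restrict (ball a s))).NeBot := by
    rw [ae_neBot]
    intro h0
    exact hpos (by rw [← Measure.restrict_apply_self, h0]; simp)
  obtain ⟨x0, hx0, hx0'⟩ := hlim'.exists
  refine ⟨c x0, ?_⟩
  filter_upwards [hlim'] with x hx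
  refine tendsto_nhds_unique hx.2 (hx0'.congr' ?_)
  filter_upwards [hconst x0 hx0 x hx.1] with n hn
  exact hn

end Local

section Glue

/-- Gluing local a.e. constancy on a connected space. -/
theorem ae_const_of_local {X : Type*} [TopologicalSpace X] [PreconnectedSpace X]
    [SecondCountableTopology X] [MeasurableSpace X] [OpensMeasurableSpace X] (m : Measure X)
    [m.IsOpenPosMeasure] {V : Type*} [Inhabited V] {c : X → V}
    (hc : ∀ x, ∃ O : Set X, IsOpen O ∧ x ∈ O ∧ ∃ k : V, ∀ᵐ y ∂(m.restrict O), c y = k) :
    ∃ k : V, ∀ᵐ y ∂m, c y = k := by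
  classical
  choose O hO hxO k hk using hc
  have hkey : ∀ x y, (O x ∩ O y).Nonempty → k x = k y := by
    intro x y hne
    have hop : IsOpen (O x ∩ O y) := (hO x).inter (hO y)
    have hpos : m (O x ∩ O y) ≠ 0 := (hop.measure_pos m hne).ne'
    have h1 : ∀ᵐ z ∂(m.restrict (O x ∩ O y)), c z = k x :=
      ae_mono (Measure.restrict_mono inter_subset_left le_rfl) (hk x)
    have h2 : ∀ᵐ z ∂(m.restrict (O x ∩ O y)), c z = k y :=
      ae_mono (Measure.restrict_mono inter_subset_right le_rfl) (hk y)
    have hne' : (ae (m.restrict (O x ∩ O y))).NeBot := by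
      rw [ae_neBot]
      intro h0
      exact hpos (by rw [← Measure.restrict_apply_self, h0]; simp)
    obtain ⟨z, hz1, hz2⟩ := (h1.and h2).exists
    exact hz1.symm.trans hz2
  have hloc : IsLocallyConstant k := by
    rw [IsLocallyConstant.iff_exists_open]
    intro x
    refine ⟨O x, hO x, hxO x, fun y hy => ?_⟩
    exact (hkey x y ⟨y, hy, hxO y⟩).symm
  rcases isEmpty_or_nonempty X with hX | ⟨⟨x0⟩⟩
  · refine ⟨default, ?_⟩
    exact Eventually.of_forall fun y => (hX.false y).elim
  refine ⟨k x0, ?_⟩
  have hall : ∀ x, ∀ᵐ y ∂(m.restrict (O x)), c y = k x0 := fun x => by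
    have : k x = k x0 := hloc.apply_eq_of_isPreconnected isPreconnected_univ (mem_univ _)
      (mem_univ _)
    rw [← this]; exact hk x
  obtain ⟨T, hT, hTu⟩ := TopologicalSpace.isOpen_iUnion_countable O hO
  have hcov : (⋃ i ∈ T, O i) = univ := by
    rw [hTu]
    exact eq_univ_of_forall fun x => mem_iUnion.2 ⟨x, hxO x⟩
  have := (ae_restrict_biUnion_iff O hT (fun y => c y = k x0)).2 fun i _ => hall i
  rwa [hcov, Measure.restrict_univ] at this

end Glue

end EH.WC
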