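import Pool.Agent.Work.MP_9eee85_co.EH.Defs
import Pool.Agent.Work.MP_9eee85_co.EH.WeakConst

/-!
# Transfer of integrals through a chart; a function on `X` with zero weak derivative is constant

* `map_chart`, `setIntegral_chart`, `integrableOn_chart`, `ae_chart`: for `φ` an
  `OpenPartialHomeomorph` with `⇑φ = π` and `IsLift π μ ν`;
* `isOpenPosMeasure_lift`;
* `const_of_weak`.
-/

noncomputable section

namespace EH

open MeasureTheory Filter Topology Set Metric
open scoped ContDiff

section Chart

variable {V : Type*} [NormedAddCommGroup V]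
variable {X : Type*} [TopologicalSpace X] {π : X → V}

lemma image_inter_preimage_chart (φ : OpenPartialHomeomorph X V) (hφ : ⇑φ = π) (A : Set V) :
    π '' (φ.source ∩ π ⁻¹' A) = φ.target ∩ A := by
  subst hφ
  ext y
  constructor
  · rintro ⟨x, ⟨hx, hxA⟩, rfl⟩
    exact ⟨φ.map_source hx, hxA⟩
  · rintro ⟨hy, hyA⟩
    refine ⟨φ.symm y, ⟨φ.map_target hy, ?_⟩, φ.right_inv hy⟩
    rw [mem_preimage, φ.right_inv hy]
    exact hyA

lemma injOn_chart (φ : OpenPartialHomeomorph X V) (hφ : ⇑φ = π) : InjOn π φ.source := by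
  subst hφ
  exact φ.injOn

variable [MeasurableSpace V] [BorelSpace V] [MeasurableSpace X] [BorelSpace X]
variable {μ : Measure V} {ν : Measure X}

/-- `π` restricted to the source of a chart is a measurable embedding. -/
lemma measurableEmbedding_chart (φ : OpenPartialHomeomorph X V) (hφ : ⇑φ = π) :
    MeasurableEmbedding (fun u : φ.source => π u) := by
  subst hφ
  have h1 : IsOpenEmbedding (fun u : φ.source => φ u) :=
    φ.open_target.isOpenEmbedding_subtypeVal.comp φ.toHomeomorphSourceTarget.isOpenEmbedding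
  exact h1.measurableEmbedding

lemma map_comap_chart (hν : IsLift π μ ν) (hπc : Continuous π) (φ : OpenPartialHomeomorph X V)
    (hφ : ⇑φ = π) :
    (Measure.comap (Subtype.val : φ.source → X) ν).map (fun u : φ.source => π u) =
      μ.restrict φ.target := by
  have hs : MeasurableSet φ.source := φ.open_source.measurableSet
  ext A hA
  rw [Measure.map_apply (measurableEmbedding_chart φ hφ).measurable hA,
    comap_subtype_coe_apply hs, Measure.restrict_apply hA]
  have h1 : Subtype.val '' ((fun u : φ.source => π u) ⁻¹' A) = φ.source ∩ π ⁻¹' A := by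
    ext x
    constructor
    · rintro ⟨u, hu, rfl⟩
      exact ⟨u.2, hu⟩
    · rintro ⟨hx, hxA⟩
      exact ⟨⟨x, hx⟩, hxA, rfl⟩
  rw [h1, hν _ (hs.inter (hπc.measurable hA)) ((injOn_chart φ hφ).mono inter_subset_left),
    image_inter_preimage_chart φ hφ, inter_comm]

/-- Integrals over the source of a chart. -/
lemma setIntegral_chart {G : Type*} [NormedAddCommGroup G] [NormedSpace ℝ G]
    (hν : IsLift π μ ν) (hπc : Continuous π) (φ : OpenPartialHomeomorph X V) (hφ : ⇑φ = π)
    (f : X → G) :
    ∫ x in φ.source, f x ∂ν = ∫ y in φ.target, f (φ.symm y) ∂μ := by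
  have hs : MeasurableSet φ.source := φ.open_source.measurableSet
  rw [← map_comap_chart hν hπc φ hφ, (measurableEmbedding_chart φ hφ).integral_map,
    ← integral_subtype_comap hs]
  refine integral_congr_ae (Eventually.of_forall fun u => ?_)
  subst hφ
  simp only
  rw [φ.left_inv u.2]

lemma integrableOn_chart {G : Type*} [NormedAddCommGroup G]
    (hν : IsLift π μ ν) (hπc : Continuous π) (φ : OpenPartialHomeomorph X V) (hφ : ⇑φ = π)
    (f : X → G) :
    IntegrableOn f φ.source ν ↔ IntegrableOn (fun y => f (φ.symm y)) φ.target μ := by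
  have hs : MeasurableSet φ.source := φ.open_source.measurableSet
  rw [IntegrableOn, IntegrableOn, ← map_comap_chart hν hπc φ hφ,
    (measurableEmbedding_chart φ hφ).integrable_map_iff, ← map_comap_subtype_coe hs,
    (MeasurableEmbedding.subtype_coe hs).integrable_map_iff]
  have : ((fun y => f (φ.symm y)) ∘ fun u : φ.source => π u) =
      f ∘ (Subtype.val : φ.source → X) := by
    funext u
    subst hφ
    simp only [Function.comp_apply]
    rw [φ.left_inv u.2]
  rw [this]

/-- Almost everywhere statements through a chart. -/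
lemma ae_chart (hν : IsLift π μ ν) (hπc : Continuous π) (φ : OpenPartialHomeomorph X V)
    (hφ : ⇑φ = π) {A : Set V} (hA : MeasurableSet A) {p : X → Prop}
    (h : ∀ᵐ y ∂(μ.restrict A), p (φ.symm y)) :
    ∀ᵐ x ∂(ν.restrict (φ.source ∩ π ⁻¹' A)), p x := by
  have hs : MeasurableSet φ.source := φ.open_source.measurableSet
  obtain ⟨N, hN, hNm, hN0⟩ := exists_measurable_superset_of_null (ae_iff.mp h)
  rw [Measure.restrict_apply hNm] at hN0
  have hms : MeasurableSet (φ.source ∩ π ⁻¹' A) := hs.inter (hπc.measurable hA)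
  rw [ae_restrict_iff' hms, ae_iff]
  refine measure_mono_null (t := φ.source ∩ π ⁻¹' (N ∩ A)) ?_ ?_
  · intro x hx
    simp only [mem_ofPred_eq, Classical.not_imp] at hx
    obtain ⟨⟨hxs, hxA⟩, hxp⟩ := hx
    refine ⟨hxs, hN ?_, hxA⟩
    simp only [mem_ofPred_eq]
    have : φ.symm (π x) = x := by
      subst hφ
      exact φ.left_inv hxs
    rwa [this]
  · rw [hν _ (hs.inter (hπc.measurable (hNm.inter hA)))
      ((injOn_chart φ hφ).mono inter_subset_left), image_inter_preimage_chart φ hφ]
    exact measure_mono_null inter_subset_right hN0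

omit [BorelSpace V] in
/-- The lifted measure is positive on nonempty open sets. -/
lemma isOpenPosMeasure_lift [μ.IsOpenPosMeasure] (hν : IsLift π μ ν)
    (hπ : IsLocalHomeomorph π) : ν.IsOpenPosMeasure := by
  constructor
  intro O hO hne hzero
  obtain ⟨x, hx⟩ := hne
  obtain ⟨φ, hxφ, hφ⟩ := hπ x
  have hφ' : ⇑φ = π := hφ.symm
  have hopen : IsOpen (φ.source ∩ O) := φ.open_source.inter hO
  have h1 : ν (φ.source ∩ O) = 0 := measure_mono_null inter_subset_right hzero
  rw [hν _ hopen.measurableSet ((injOn_chart φ hφ').mono inter_subset_left)] at h1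
  have h2 : IsOpen (π '' (φ.source ∩ O)) := hπ.isOpenMap _ hopen
  exact (h2.measure_pos μ ⟨π x, x, ⟨hxφ, hx⟩, rfl⟩).ne' h1

end Chart

section Const

variable {X : Type*} [TopologicalSpace X] {π : X → Bs}

/-- The test form `ψ(π x) w` cut off outside a chart. -/
def bmpF (φ : OpenPartialHomeomorph X Bs) (ψ : Bs → ℝ) (w : E) (x : X) : E :=
  open Classical in if x ∈ φ.source then ψ (φ x) • w else 0

lemma eventually_lsec_mem (hπ : IsLocalHomeomorph π) {x : X} {O : Set X} (hO : O ∈ 𝓝 x) :
    ∀ᶠ y in 𝓝 (π x), lsec hπ x y ∈ O := by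
  have h1 : ContinuousAt (lchart hπ x).symm (π x) := by
    have h2 : π x ∈ (lchart hπ x).target := by
      have := (lchart hπ x).map_source (mem_lchart hπ x)
      rwa [lchart_eq] at this
    exact (lchart hπ x).symm.continuousAt h2
  have h3 : (lchart hπ x).symm (π x) = x := lsec_self hπ x
  exact h1.tendsto (by rwa [h3])

lemma eventually_pi_lsec (hπ : IsLocalHomeomorph π) (x : X) :
    ∀ᶠ y in 𝓝 (π x), π (lsec hπ x y) = y := by
  have h2 : π x ∈ (lchart hπ x).target := by
    have := (lchart hπ x).map_source (mem_lchart hπ x)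
    rwa [lchart_eq] at this
  filter_upwards [(lchart hπ x).open_target.mem_nhds h2] with y hy
  have h := (lchart hπ x).right_inv hy
  rw [lchart_eq] at h
  exact h

lemma bmpF_lsec (hπ : IsLocalHomeomorph π) (φ : OpenPartialHomeomorph X Bs) (hφ : ⇑φ = π)
    (ψ : Bs → ℝ) (w : E) {x : X} (hx : x ∈ φ.source) :
    (bmpF φ ψ w ∘ lsec hπ x) =ᶠ[𝓝 (π x)] fun y => ψ y • w := by
  filter_upwards [eventually_lsec_mem hπ (φ.open_source.mem_nhds hx), eventually_pi_lsec hπ x]
    with y h1 h2
  rw [Function.comp_apply, bmpF, if_pos h1, hφ, h2]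

lemma bmpF_mem [T2Space X] (hπ : IsLocalHomeomorph π) (φ : OpenPartialHomeomorph X Bs)
    (hφ : ⇑φ = π) {ψ : Bs → ℝ} (hψ : ContDiff ℝ ∞ ψ) (hψc : HasCompactSupport ψ)
    (hψs : tsupport ψ ⊆ φ.target) (w : E) : bmpF φ ψ w ∈ Tst hπ := by
  set K : Set X := φ.symm '' tsupport ψ with hK
  have hKc : IsCompact K := hψc.isCompact.image_of_continuousOn
    (φ.continuousOn_symm.mono hψs)
  have hKs : K ⊆ φ.source := by
    rintro _ ⟨y, hy, rfl⟩
    exact φ.map_target (hψs hy)
  have h0 : ∀ x, x ∉ K → bmpF φ ψ w x = 0 := by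
    intro x hx
    unfold bmpF
    split_ifs with h
    · have : ψ (φ x) = 0 := by
        by_contra hne
        exact hx ⟨φ x, subset_tsupport _ hne, φ.left_inv h⟩
      rw [this, zero_smul]
    · rfl
  refine ⟨fun x => ?_, HasCompactSupport.intro hKc h0⟩
  by_cases hx : x ∈ φ.source
  · refine ContDiffAt.congr_of_eventuallyEq ?_ (bmpF_lsec hπ φ hφ ψ w hx)
    exact (hψ.contDiffAt).smul contDiffAt_const
  · have hx' : x ∉ K := fun h => hx (hKs h)
    have h1 : (bmpF φ ψ w ∘ lsec hπ x) =ᶠ[𝓝 (π x)] fun _ => (0 : E) := by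
      filter_upwards [eventually_lsec_mem hπ (hKc.isClosed.isOpen_compl.mem_nhds hx')] with y hy
      exact h0 _ hy
    exact ContDiffAt.congr_of_eventuallyEq contDiffAt_const h1

lemma dX_bmpF [T2Space X] (hπ : IsLocalHomeomorph π) (φ : OpenPartialHomeomorph X Bs)
    (hφ : ⇑φ = π) {ψ : Bs → ℝ} (hψ : ContDiff ℝ ∞ ψ) (hψc : HasCompactSupport ψ)
    (hψs : tsupport ψ ⊆ φ.target) (w : E) (x : X) :
    dX hπ (bmpF φ ψ w) x =
      open Classical in if x ∈ φ.source then ∑ a, fderiv ℝ ψ (φ x) (bv a) • (e a * w) else 0 := by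
  unfold dX LD
  split_ifs with hx
  · rw [(bmpF_lsec hπ φ hφ ψ w hx).fderiv_eq]
    refine Finset.sum_congr rfl fun a _ => ?_
    have h1 : HasFDerivAt (fun y => ψ y • w) ((fderiv ℝ ψ (π x)).smulRight w) (π x) :=
      ((hψ.differentiable (by simp)) (π x)).hasFDerivAt.smul_const w
    rw [h1.fderiv, hφ]
    simp
  · have h0 : (bmpF φ ψ w ∘ lsec hπ x) =ᶠ[𝓝 (π x)] fun _ => (0 : E) := by
      have hKc : IsCompact (φ.symm '' tsupport ψ) := hψc.isCompact.image_of_continuousOn
        (φ.continuousOn_symm.mono hψs)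
      have hx' : x ∉ φ.symm '' tsupport ψ := by
        rintro ⟨y, hy, rfl⟩
        exact hx (φ.map_target (hψs hy))
      filter_upwards [eventually_lsec_mem hπ (hKc.isClosed.isOpen_compl.mem_nhds hx')] with y hy
      simp only [Function.comp_apply, bmpF]
      split_ifs with h
      · have : ψ (φ (lsec hπ x y)) = 0 := by
          by_contra hne
          exact hy ⟨φ (lsec hπ x y), subset_tsupport _ hne, φ.left_inv h⟩
        rw [this, zero_smul]
      · rfl
    rw [h0.fderiv_eq]
    simp

/-- the top coefficient of `e a * mono (univ \ {b})` -/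
lemma top_e_mul_mono (a b : Fin 10) :
    top (e a * mono (Finset.univ \ {b})) =
      if a = b then sgn {a} (Finset.univ \ {a}) else 0 := by
  rw [top_apply, co_mul]
  rw [Finset.sum_eq_single {a}]
  · split_ifs with h
    · subst h
      simp [e]
    · have : (Finset.univ \ {a} : Finset (Fin 10)) ≠ Finset.univ \ {b} := by
        intro h1
        have h2 : b ∈ (Finset.univ \ {a} : Finset (Fin 10)) := by
          simp [Ne.symm h]
        rw [h1] at h2
        simp at h2
      simp [this]
  · intro S _ hS
    simp [e, hS]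
  · intro h
    exact absurd (Finset.mem_powerset.mpr (Finset.subset_univ _)) h

/-- every vector is a real combination of the `bv a` -/
lemma sum_bv (v : Bs) : ∑ a : Fin 10,
    (if a.val % 2 = 0 then (v ⟨a.val / 2, by omega⟩).re else (v ⟨a.val / 2, by omega⟩).im) •
      bv a = v := by
  simp only [Fin.sum_univ_succ, Fin.sum_univ_zero]
  funext j
  fin_cases j <;> simp [bv, Fin.ext_iff, Fin.succ]

/-- A locally integrable function on `X` with zero weak derivative is constant. -/
theorem const_of_weak [T2Space X] [SecondCountableTopology X] [PreconnectedSpace X]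
    [MeasurableSpace X] [BorelSpace X] (hπ : IsLocalHomeomorph π) {ν : Measure X}
    (hν : IsLift π volume ν) {c : X → ℝ} (hc : LocallyIntegrable c ν)
    (h : ∀ F ∈ Tst hπ, ∫ x, c x * top (dX hπ F x) ∂ν = 0) :
    ∃ c₀ : ℝ, c =ᵐ[ν] fun _ => c₀ := by
  classical
  have hpos := isOpenPosMeasure_lift (μ := (volume : Measure Bs)) hν hπ
  refine WC.ae_const_of_local ν fun x0 => ?_
  obtain ⟨φ, hx0, hφ0⟩ := hπ x0
  have hφ : ⇑φ = π := hφ0.symm
  have hπc := hπ.continuous
  have hx0t : π x0 ∈ φ.target := by
    have := φ.map_source hx0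
    rwa [hφ] at this
  -- the transported function
  have hci : LocallyIntegrableOn (fun y => c (φ.symm y)) φ.target volume := by
    intro y hy
    obtain ⟨O, hO, hOi⟩ := hc (φ.symm y)
    have hys : φ.symm y ∈ φ.source := φ.map_target hy
    obtain ⟨O', hO'O, hO'o, hyO'⟩ := mem_nhds_iff.mp hO
    -- a smaller chart
    let ψ := φ.restr O'
    have hψ : ⇑ψ = π := by
      rw [← hφ]; rfl
    have hψs : ψ.source = φ.source ∩ O' := φ.restr_source' O' hO'o
    have h1 : IntegrableOn c ψ.source ν := hOi.mono_set (by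
      rw [hψs]; exact inter_subset_right.trans hO'O)
    rw [integrableOn_chart hν hπc ψ hψ] at h1
    have hyt : y ∈ ψ.target := by
      have h2 : φ.symm y ∈ ψ.source := by
        rw [hψs]; exact ⟨hys, hyO'⟩
      have h3 := ψ.map_source h2
      have h4 : ψ (φ.symm y) = y := φ.right_inv hy
      rwa [h4] at h3
    exact ⟨ψ.target, mem_nhdsWithin_of_mem_nhds (ψ.open_target.mem_nhds hyt), h1⟩
  have hw : ∀ ψ : Bs → ℝ, ContDiff ℝ ∞ ψ → HasCompactSupport ψ → tsupport ψ ⊆ φ.target →
      ∀ v : Bs, ∫ y, (fderiv ℝ ψ y v) • c (φ.symm y) = 0 := by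
    intro ψ hψ hψc hψs v
    -- one direction
    have hone : ∀ a : Fin 10, ∫ y in φ.target, (fderiv ℝ ψ y (bv a)) * c (φ.symm y) = 0 := by
      intro a
      have h1 := h _ (bmpF_mem hπ φ hφ hψ hψc hψs (mono (Finset.univ \ {a})))
      have h2 : ∀ x, c x * top (dX hπ (bmpF φ ψ (mono (Finset.univ \ {a}))) x) =
          φ.source.indicator (fun x => sgn {a} (Finset.univ \ {a}) *
            (fderiv ℝ ψ (φ x) (bv a) * c x)) x := by
        intro x
        rw [dX_bmpF hπ φ hφ hψ hψc hψs]
        by_cases hx : x ∈ φ.source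
        · rw [if_pos hx, indicator_of_mem hx, map_sum]
          have h3 : ∀ b : Fin 10, top (fderiv ℝ ψ (φ x) (bv b) •
              (e b * mono (Finset.univ \ {a}))) =
              if b = a then fderiv ℝ ψ (φ x) (bv b) * sgn {b} (Finset.univ \ {b}) else 0 := by
            intro b
            rw [map_smul, top_e_mul_mono, smul_eq_mul]
            split_ifs <;> simp
          simp only [h3]
          rw [Finset.sum_ite_eq' Finset.univ a, if_pos (Finset.mem_univ a)]
          ring
        · rw [if_neg hx, indicator_of_notMem hx]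
          simp
      simp only [h2] at h1
      rw [integral_indicator φ.open_source.measurableSet, integral_const_mul] at h1
      have h4 : (sgn {a} (Finset.univ \ {a})) ≠ 0 := by
        intro h5
        have := sgn_sq {a} (Finset.univ \ {a})
        rw [h5] at this
        norm_num at this
      have h6 := (mul_eq_zero.mp h1).resolve_left h4
      rw [setIntegral_chart hν hπc φ hφ] at h6
      rw [← h6]
      refine setIntegral_congr_fun φ.open_target.measurableSet fun y hy => ?_
      change fderiv ℝ ψ y (bv a) * c (φ.symm y) = fderiv ℝ ψ (φ (φ.symm y)) (bv a) * c (φ.symm y)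
      rw [φ.right_inv hy]
    have hint : ∀ a : Fin 10, IntegrableOn (fun y => (fderiv ℝ ψ y (bv a)) * c (φ.symm y))
        φ.target := by
      intro a
      have hcont : Continuous fun y => fderiv ℝ ψ y (bv a) :=
        (hψ.continuous_fderiv (by simp)).clm_apply continuous_const
      have hcs : IsCompact (tsupport ψ) := hψc
      have h1 : IntegrableOn (fun y => c (φ.symm y)) (tsupport ψ) volume :=
        hci.integrableOn_compact_subset hψs hcs
      have h2 : IntegrableOn (fun y => (fderiv ℝ ψ y (bv a)) * c (φ.symm y)) (tsupport ψ)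
          volume := h1.continuousOn_mul hcont.continuousOn hcs
      refine (h2.of_forall_sdiff_eq_zero (φ.open_target.measurableSet) fun y hy => ?_)
      have : fderiv ℝ ψ y = 0 := by
        by_contra hne
        exact hy.2 (support_fderiv_subset ℝ hne)
      simp [this]
    have hall : ∫ y in φ.target, (fderiv ℝ ψ y v) * c (φ.symm y) = 0 := by
      have h1 : ∀ y, (fderiv ℝ ψ y v) * c (φ.symm y) = ∑ a : Fin 10,
          (if a.val % 2 = 0 then (v ⟨a.val / 2, by omega⟩).re
            else (v ⟨a.val / 2, by omega⟩).im) * ((fderiv ℝ ψ y (bv a)) * c (φ.symm y)) := by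
        intro y
        conv_lhs => rw [← sum_bv v, map_sum, Finset.sum_mul]
        refine Finset.sum_congr rfl fun a _ => ?_
        rw [map_smul, smul_eq_mul, mul_assoc]
      simp only [h1]
      rw [integral_finsetSum]
      · refine Finset.sum_eq_zero fun a _ => ?_
        rw [integral_const_mul, hone, mul_zero]
      · intro a _
        exact (hint a).const_mul _
    rw [← hall, setIntegral_eq_integral_of_forall_compl_eq_zero]
    · rfl
    · intro y hy
      have : fderiv ℝ ψ y = 0 := by
        by_contra hne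
        exact hy (hψs (support_fderiv_subset ℝ hne))
      simp [this]
  obtain ⟨s, hs, hsT, k, hk⟩ := WC.weak_const_local (μ := (volume : Measure Bs))
    φ.open_target hci hw hx0t
  refine ⟨φ.source ∩ π ⁻¹' ball (π x0) s, φ.open_source.inter (isOpen_ball.preimage hπc),
    ⟨hx0, mem_ball_self hs⟩, k, ?_⟩
  exact ae_chart hν hπc φ hφ measurableSet_ball hk

end Const

end EH
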