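import Pool.Agent.Work.MP_9eee85_co.EH.E1

/-!
# Continuity and smoothness of the operations of `E`

* `mulB : E →L[ℝ] E →L[ℝ] E`, `ContDiff.mulE` etc.: products of smooth `E`-valued functions;
* `extL : (RV →L[ℝ] RV) → (E →L[ℝ] E)`, `A ↦ ext A` as a continuous linear map;
  `contDiff_extL`: it is smooth (of every class) in `A`;
* continuous versions `coB`, `genB`, `topB`, `prB`.
-/

noncomputable section

namespace EH

open Finset Module

open scoped ContDiff

/-- The coordinate, continuous version. -/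
def coB (S : Finset (Fin 10)) : E →L[ℝ] ℝ := LinearMap.toContinuousLinearMap (coL S)

@[simp] lemma coB_apply (S) (α : E) : coB S α = co α S := rfl

/-- `gen`, continuous version. -/
def genB : RV →L[ℝ] E := LinearMap.toContinuousLinearMap gen

@[simp] lemma genB_apply (v : RV) : genB v = gen v := rfl

/-- `top`, continuous version. -/
def topB : E →L[ℝ] ℝ := LinearMap.toContinuousLinearMap top

@[simp] lemma topB_apply (α : E) : topB α = top α := rfl

/-- `pr k`, continuous version. -/
def prB (k : ℕ) : E →L[ℝ] E := LinearMap.toContinuousLinearMap (pr k)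

@[simp] lemma prB_apply (k) (α : E) : prB k α = pr k α := rfl

/-- The product as a continuous bilinear map. -/
def mulB : E →L[ℝ] E →L[ℝ] E :=
  LinearMap.toContinuousLinearMap
    ((LinearMap.toContinuousLinearMap : (E →ₗ[ℝ] E) ≃ₗ[ℝ] (E →L[ℝ] E)).toLinearMap ∘ₗ mulL)

@[simp] lemma mulB_apply (α β : E) : mulB α β = α * β := rfl

section smooth

variable {X : Type*} [NormedAddCommGroup X] [NormedSpace ℝ X] {n : WithTop ℕ∞} {f g : X → E}
  {s : Set X} {x : X}

lemma contDiff_mulE : ContDiff ℝ n (fun p : E × E => p.1 * p.2) :=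
  mulB.isBoundedBilinearMap.contDiff

lemma _root_.ContDiffAt.mulE (hf : ContDiffAt ℝ n f x) (hg : ContDiffAt ℝ n g x) :
    ContDiffAt ℝ n (fun y => f y * g y) x :=
  contDiff_mulE.contDiffAt.comp x (hf.prodMk hg)

lemma _root_.ContDiff.mulE (hf : ContDiff ℝ n f) (hg : ContDiff ℝ n g) :
    ContDiff ℝ n (fun y => f y * g y) :=
  contDiff_mulE.comp (hf.prodMk hg)

lemma _root_.ContDiffOn.mulE (hf : ContDiffOn ℝ n f s) (hg : ContDiffOn ℝ n g s) :
    ContDiffOn ℝ n (fun y => f y * g y) s :=
  contDiff_mulE.comp_contDiffOn (hf.prodMk hg)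

lemma continuous_mulE : Continuous (fun p : E × E => p.1 * p.2) :=
  mulB.isBoundedBilinearMap.continuous

lemma _root_.Continuous.mulE {Y : Type*} [TopologicalSpace Y] {f g : Y → E} (hf : Continuous f)
    (hg : Continuous g) : Continuous (fun y => f y * g y) :=
  continuous_mulE.comp (hf.prodMk hg)

lemma _root_.HasFDerivAt.mulE {f' g' : X →L[ℝ] E} (hf : HasFDerivAt f f' x)
    (hg : HasFDerivAt g g' x) :
    HasFDerivAt (fun y => f y * g y) (mulB (f x) ∘L g' + mulB.flip (g x) ∘L f') x := by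
  have := (mulB.isBoundedBilinearMap.hasFDerivAt (f x, g x)).comp x (hf.prodMk hg)
  refine this.congr_fderiv ?_
  ext v
  simp [IsBoundedBilinearMap.deriv_apply]

lemma _root_.DifferentiableAt.mulE (hf : DifferentiableAt ℝ f x) (hg : DifferentiableAt ℝ g x) :
    DifferentiableAt ℝ (fun y => f y * g y) x :=
  (hf.hasFDerivAt.mulE hg.hasFDerivAt).differentiableAt

lemma fderiv_mulE (hf : DifferentiableAt ℝ f x) (hg : DifferentiableAt ℝ g x) (v : X) :
    fderiv ℝ (fun y => f y * g y) x v = fderiv ℝ f x v * g x + f x * fderiv ℝ g x v := by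
  rw [(hf.hasFDerivAt.mulE hg.hasFDerivAt).fderiv]
  simp [add_comm]

end smooth

/-- A bound for the product. -/
lemma exists_norm_mul_le : ∃ C : ℝ, 0 < C ∧ ∀ α β : E, ‖α * β‖ ≤ C * ‖α‖ * ‖β‖ :=
  mulB.isBoundedBilinearMap.bound

/-- `A ↦ ext A` as a continuous linear map of `E`. -/
def extL (A : RV →L[ℝ] RV) : E →L[ℝ] E := LinearMap.toContinuousLinearMap (ext A.toLinearMap).toLinearMap

lemma extL_apply (A : RV →L[ℝ] RV) (α : E) : extL A α = ext (A : RV →ₗ[ℝ] RV) α := rfl

@[simp] lemma extL_gen (A : RV →L[ℝ] RV) (v : RV) : extL A (gen v) = gen (A v) := by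
  rw [extL_apply, ext_gen]; rfl

@[simp] lemma extL_mul (A : RV →L[ℝ] RV) (α β : E) : extL A (α * β) = extL A α * extL A β := by
  rw [extL_apply, map_mul]; rfl

@[simp] lemma extL_one (A : RV →L[ℝ] RV) : extL A 1 = 1 := by
  rw [extL_apply, map_one]

lemma extL_id : extL (ContinuousLinearMap.id ℝ RV) = ContinuousLinearMap.id ℝ E := by
  ext1 α
  rw [extL_apply, ContinuousLinearMap.coe_id, ext_id_apply]; rfl

lemma extL_comp (A B : RV →L[ℝ] RV) : extL (A ∘L B) = extL A ∘L extL B := by
  ext1 α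
  change ext ((A : RV →ₗ[ℝ] RV) ∘ₗ (B : RV →ₗ[ℝ] RV)) α = _
  rw [ext_comp_apply]; rfl

lemma extL_left_inv {A B : RV →L[ℝ] RV} (h : B ∘L A = ContinuousLinearMap.id ℝ RV) (α : E) :
    extL B (extL A α) = α := by
  have := congrArg (fun T => T α) ((extL_comp B A).symm.trans ((congrArg extL h).trans extL_id))
  exact this

lemma extL_pr (A : RV →L[ℝ] RV) (k : ℕ) (α : E) : pr k (extL A α) = extL A (pr k α) :=
  ext_pr _ k α

lemma extL_mem_Deg (A : RV →L[ℝ] RV) {k : ℕ} {α : E} (h : α ∈ Deg k) : extL A α ∈ Deg k :=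
  ext_mem_Deg _ h

lemma top_extL (A : RV →L[ℝ] RV) (α : E) : top (extL A α) = A.det * top α :=
  top_ext _ α

lemma extL_mono_insert (A : RV →L[ℝ] RV) {a : Fin 10} {S : Finset (Fin 10)} (ha : a ∉ S) :
    extL A (mono (insert a S)) =
      sgn {a} S • (gen (A (EuclideanSpace.single a 1)) * extL A (mono S)) := by
  rw [mono_insert ha, map_smul, extL_mul, ← gen_single, extL_gen]

lemma contDiff_extL_mono {n : WithTop ℕ∞} (S : Finset (Fin 10)) :
    ContDiff ℝ n (fun A : RV →L[ℝ] RV => extL A (mono S)) := by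
  induction S using Finset.induction_on with
  | empty =>
    have : (fun A : RV →L[ℝ] RV => extL A (mono ∅)) = fun _ => (1 : E) := by
      funext A
      exact extL_one A
    rw [this]
    exact contDiff_const
  | insert a S ha ih =>
    have : (fun A : RV →L[ℝ] RV => extL A (mono (insert a S))) = fun A =>
        sgn {a} S • (genB (A (EuclideanSpace.single a 1)) * extL A (mono S)) := by
      funext A
      exact extL_mono_insert A ha
    rw [this]
    refine ContDiff.const_smul _ (ContDiff.mulE ?_ ih)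
    exact genB.contDiff.comp (contDiff_id.clm_apply contDiff_const)

lemma extL_eq_sum (A : RV →L[ℝ] RV) :
    extL A = ∑ S, (coB S).smulRight (extL A (mono S)) := by
  ext1 α
  conv_lhs => rw [← sum_mono α, map_sum]
  simp

/-- The induced endomorphism depends smoothly on the matrix. -/
theorem contDiff_extL {n : WithTop ℕ∞} : ContDiff ℝ n extL := by
  have : extL = fun A : RV →L[ℝ] RV => ∑ S, (coB S).smulRight (extL A (mono S)) := by
    funext A
    exact extL_eq_sum A
  rw [this]
  refine ContDiff.sum fun S _ => ?_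
  exact ContDiff.smulRight contDiff_const (contDiff_extL_mono S)

lemma continuous_extL : Continuous extL := (contDiff_extL (n := 0)).continuous

/-- The induced endomorphisms are bounded on bounded sets of matrices. -/
lemma exists_norm_extL_le (R : ℝ) : ∃ C : ℝ, 0 < C ∧ ∀ A : RV →L[ℝ] RV, ‖A‖ ≤ R → ‖extL A‖ ≤ C := by
  have hc : IsCompact (Metric.closedBall (0 : RV →L[ℝ] RV) R) := isCompact_closedBall _ _
  obtain ⟨C, hC⟩ := (hc.image continuous_extL).isBounded.exists_norm_le
  refine ⟨max C 1, by positivity, fun A hA => ?_⟩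
  refine (hC _ ⟨A, ?_, rfl⟩).trans (le_max_left _ _)
  rwa [Metric.mem_closedBall, dist_zero_right]

/-- Bound for the action of `ext A` on vectors, `A` bounded. -/
lemma exists_norm_ext_apply_le (R : ℝ) : ∃ C : ℝ, 0 < C ∧
    ∀ (A : RV →L[ℝ] RV) (α : E), ‖A‖ ≤ R → ‖ext (A : RV →ₗ[ℝ] RV) α‖ ≤ C * ‖α‖ := by
  obtain ⟨C, h0, hC⟩ := exists_norm_extL_le R
  refine ⟨C, h0, fun A α hA => ?_⟩
  exact ((extL A).le_opNorm α).trans (mul_le_mul_of_nonneg_right (hC A hA) (norm_nonneg _))

end EH
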