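import Pool.Agent.Work.MP_9eee85_co.EH.LCalc
import Pool.Agent.Work.MP_9eee85_co.EH.E1S

/-!
# The exterior derivative on `X`

Leibniz, `dX dX = 0`, `dX (J⁻¹ dX J) + (J⁻¹ dX J) dX = 0`.
-/

set_option linter.unusedSectionVars false

noncomputable section

namespace EH

open MeasureTheory Filter Topology Set
open scoped ContDiff

variable {X : Type*} [TopologicalSpace X] {π : X → Bs} (hπ : IsLocalHomeomorph π)

/-! ### Products -/

lemma LSm.mulE {n : ℕ∞} {F G : X → E} (hF : LSm hπ n F) (hG : LSm hπ n G) :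
    LSm hπ n (fun x => F x * G x) := hF.bilin hπ hG mulB

lemma LD_mulE {F G : X → E} (hF : LSm hπ 1 F) (hG : LSm hπ 1 G) (x : X) (v : Bs) :
    LD hπ (fun y => F y * G y) x v = LD hπ F x v * G x + F x * LD hπ G x v :=
  LD_bilin hπ hF hG mulB x v

lemma LD_const_mulE (c : E) {G : X → E} (hG : LSm hπ 1 G) (x : X) (v : Bs) :
    LD hπ (fun y => c * G y) x v = c * LD hπ G x v :=
  LD_clm_apply hπ hG (mulB c) x v

lemma LSm.const_mulE {n : ℕ∞} (c : E) {G : X → E} (hG : LSm hπ n G) :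
    LSm hπ n (fun x => c * G x) := hG.clm hπ (mulB c)

/-! ### `dX` -/

lemma dX_congr {F G : X → E} {x : X} (h : F =ᶠ[𝓝 x] G) : dX hπ F x = dX hπ G x := by
  rw [dX, dX, LD_congr hπ h]

lemma dX_const (c : E) (x : X) : dX hπ (fun _ => c) x = 0 := by
  simp [dX, LD_const]

lemma dX_add {F G : X → E} (hF : LSm hπ 1 F) (hG : LSm hπ 1 G) (x : X) :
    dX hπ (fun y => F y + G y) x = dX hπ F x + dX hπ G x := by
  simp only [dX, LD_add hπ hF hG, add_apply, mul_add, Finset.sum_add_distrib]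

lemma dX_sub {F G : X → E} (hF : LSm hπ 1 F) (hG : LSm hπ 1 G) (x : X) :
    dX hπ (fun y => F y - G y) x = dX hπ F x - dX hπ G x := by
  simp only [dX, LD_sub hπ hF hG, sub_apply, mul_sub, Finset.sum_sub_distrib]

lemma dX_neg (F : X → E) (x : X) : dX hπ (fun y => -F y) x = -dX hπ F x := by
  simp only [dX, LD_neg, neg_apply, mul_neg, Finset.sum_neg_distrib]

lemma dX_sum {ι : Type*} {s : Finset ι} {F : ι → X → E} (hF : ∀ i ∈ s, LSm hπ 1 (F i)) (x : X) :
    dX hπ (fun y => ∑ i ∈ s, F i y) x = ∑ i ∈ s, dX hπ (F i) x := by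
  simp only [dX, LD_sum hπ hF, sum_apply, Finset.mul_sum]
  rw [Finset.sum_comm]

lemma dX_const_smul (c : ℝ) {F : X → E} (hF : LSm hπ 1 F) (x : X) :
    dX hπ (fun y => c • F y) x = c • dX hπ F x := by
  simp only [dX, LD_const_smul hπ c hF, smul_apply, mul_smul_comm, Finset.smul_sum]

lemma cov_mul (l : Bs →L[ℝ] ℝ) (α : E) : cov l * α = ∑ a, l (bv a) • (e a * α) := by
  rw [cov, Finset.sum_mul]
  exact Finset.sum_congr rfl fun a _ => smul_mul_assoc _ _ _

lemma cov_mem_Deg (l : Bs →L[ℝ] ℝ) : cov l ∈ Deg 1 :=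
  (Deg 1).sum_mem fun a _ => (Deg 1).smul_mem _ (e_mem_Deg a)

/-- `d(f F) = df ∧ F + f dF`. -/
lemma dX_smul {f : X → ℝ} {F : X → E} (hf : LSm hπ 1 f) (hF : LSm hπ 1 F) (x : X) :
    dX hπ (fun y => f y • F y) x = cov (LD hπ f x) * F x + f x • dX hπ F x := by
  simp only [dX, LD_smul_apply hπ hf hF, mul_add, Finset.sum_add_distrib, cov_mul,
    mul_smul_comm, Finset.smul_sum]

/-- A constant operator commutes with derivatives. -/
lemma LD_op (T : E →ₗ[ℝ] E) {F : X → E} (hF : LSm hπ 1 F) (x : X) (v : Bs) :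
    LD hπ (fun y => T (F y)) x v = T (LD hπ F x v) := LD_linear_apply hπ hF T x v

lemma LD_mem_Deg {k : ℕ} {F : X → E} (hF : LSm hπ 1 F) (hk : IsDeg k F) (x : X) (v : Bs) :
    LD hπ F x v ∈ Deg k := by
  have h1 : (fun y => pr k (F y)) = F := by
    funext y; exact pr_of_mem (hk y)
  have h2 := LD_op hπ (pr k) hF x v
  rw [h1] at h2
  rw [h2]
  exact pr_mem_Deg _ _

lemma dX_mem_Deg {k : ℕ} {F : X → E} (hF : LSm hπ 1 F) (hk : IsDeg k F) : IsDeg (k + 1) (dX hπ F) := by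
  intro x
  refine (Deg (k + 1)).sum_mem fun a _ => ?_
  have := mul_mem_Deg (e_mem_Deg a) (LD_mem_Deg hπ hF hk x (bv a))
  rwa [add_comm] at this

lemma e_mul_of_Deg {k : ℕ} {α : E} (h : α ∈ Deg k) (a : Fin 10) :
    α * e a = (-1 : ℝ) ^ k • (e a * α) := by
  have := mul_comm_of_Deg h (e_mem_Deg a)
  rwa [mul_one] at this

/-- Leibniz. -/
lemma dX_mul {k : ℕ} {F G : X → E} (hF : LSm hπ 1 F) (hG : LSm hπ 1 G) (hk : IsDeg k F) (x : X) :
    dX hπ (fun y => F y * G y) x = dX hπ F x * G x + (-1 : ℝ) ^ k • (F x * dX hπ G x) := by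
  simp only [dX, LD_mulE hπ hF hG, mul_add, Finset.sum_add_distrib, Finset.sum_mul,
    Finset.mul_sum, Finset.smul_sum, mul_assoc]
  congr 1
  refine Finset.sum_congr rfl fun a _ => ?_
  rw [← mul_assoc (F x), e_mul_of_Deg (hk x) a, smul_mul_assoc, smul_smul, ← mul_pow]
  norm_num [mul_assoc]

lemma LSm.dX {n m : ℕ∞} {F : X → E} (hF : LSm hπ n F) (hm : m + 1 ≤ n) : LSm hπ m (dX hπ F) := by
  have h : LSm hπ m (fun x => ∑ a ∈ (Finset.univ : Finset (Fin 10)), e a * EH.LD hπ F x (bv a)) :=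
    LSm.sum hπ fun a _ => LSm.const_mulE hπ (e a) (hF.LD_apply hπ hm (bv a))
  exact h

lemma tsupport_dX_subset (F : X → E) : tsupport (dX hπ F) ⊆ tsupport F := by
  apply closure_minimal _ (isClosed_tsupport F)
  intro x hx
  by_contra hcon
  apply hx
  have := LD_eq_zero_of_notMem hπ hcon
  simp [EH.dX, this]

/-- Second derivatives. -/
def DD (F : X → E) (x : X) (a b : Fin 10) : E := LD hπ (fun y => LD hπ F y (bv b)) x (bv a)

lemma DD_symm {F : X → E} (hF : LSm hπ 2 F) (x : X) (a b : Fin 10) :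
    DD hπ F x a b = DD hπ F x b a := LD_LD_symm hπ hF x (bv b) (bv a)

lemma LD_dX {F : X → E} (hF : LSm hπ 2 F) (x : X) (a : Fin 10) :
    LD hπ (dX hπ F) x (bv a) = ∑ b, e b * DD hπ F x a b := by
  have h1 : LSm hπ 1 F := hF.mono hπ (by norm_num)
  have h2 : ∀ b, LSm hπ 1 (fun y => LD hπ F y (bv b)) := fun b => hF.LD_apply hπ (by norm_num) _
  have h3 : LD hπ (fun y => ∑ b, e b * LD hπ F y (bv b)) x =
      ∑ b, LD hπ (fun y => e b * LD hπ F y (bv b)) x :=
    LD_sum hπ (fun b _ => (h2 b).const_mulE hπ (e b)) x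
  have h4 : LD hπ (dX hπ F) x = ∑ b, LD hπ (fun y => e b * LD hπ F y (bv b)) x := h3
  rw [h4, sum_apply]
  exact Finset.sum_congr rfl fun b _ => LD_const_mulE hπ (e b) (h2 b) x (bv a)

/-- `d d = 0`. -/
theorem dX_dX {F : X → E} (hF : LSm hπ 2 F) (x : X) : dX hπ (dX hπ F) x = 0 := by
  have h1 : dX hπ (dX hπ F) x = ∑ a, ∑ b, e a * (e b * DD hπ F x a b) := by
    rw [dX]
    refine Finset.sum_congr rfl fun a _ => ?_
    rw [LD_dX hπ hF, Finset.mul_sum]
  have h2 : dX hπ (dX hπ F) x = -dX hπ (dX hπ F) x := by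
    conv_lhs => rw [h1, Finset.sum_comm]
    rw [h1, ← Finset.sum_neg_distrib]
    refine Finset.sum_congr rfl fun a _ => ?_
    rw [← Finset.sum_neg_distrib]
    refine Finset.sum_congr rfl fun b _ => ?_
    rw [DD_symm hπ hF, ← mul_assoc, ← mul_assoc, e_mul_of_Deg (e_mem_Deg b) a, pow_one,
      neg_one_smul, neg_mul]
  have h3 : (2 : ℝ) • dX hπ (dX hπ F) x = 0 := by
    rw [two_smul]
    nth_rewrite 1 [h2]
    exact neg_add_cancel _
  exact (smul_eq_zero.mp h3).resolve_left two_ne_zero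

/-- A constant algebra automorphism `J` (with inverse `Jinv`) preserving the degree:
`d (J⁻¹ d J) + (J⁻¹ d J) d = 0`. -/
theorem dX_dc (T S : E →ₗ[ℝ] E) (hS : ∀ a b, S (a * b) = S a * S b) (hST : ∀ a, S (T a) = a)
    (hS1 : ∀ a, S (e a) ∈ Deg 1) {F : X → E} (hF : LSm hπ 2 F) (x : X) :
    dX hπ (fun y => S (dX hπ (fun z => T (F z)) y)) x +
      S (dX hπ (fun y => T (dX hπ F y)) x) = 0 := by
  have hF1 : LSm hπ 1 F := hF.mono hπ (by norm_num)
  have hdF : LSm hπ 1 (dX hπ F) := hF.dX hπ (by norm_num)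
  have hSd : ∀ y, S (dX hπ (fun z => T (F z)) y) = ∑ b, S (e b) * LD hπ F y (bv b) := by
    intro y
    rw [dX, map_sum]
    refine Finset.sum_congr rfl fun b _ => ?_
    rw [LD_op hπ T hF1, hS, hST]
  have h1 : dX hπ (fun y => S (dX hπ (fun z => T (F z)) y)) x =
      ∑ a, ∑ b, e a * (S (e b) * DD hπ F x a b) := by
    have e1 : (fun y => S (dX hπ (fun z => T (F z)) y)) =
        fun y => ∑ b, S (e b) * LD hπ F y (bv b) := funext hSd
    rw [e1, dX]
    refine Finset.sum_congr rfl fun a _ => ?_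
    have h2 : ∀ b, LSm hπ 1 (fun y => LD hπ F y (bv b)) := fun b => hF.LD_apply hπ (by norm_num) _
    have h3 : LD hπ (fun y => ∑ b, S (e b) * LD hπ F y (bv b)) x =
        ∑ b, LD hπ (fun y => S (e b) * LD hπ F y (bv b)) x :=
      LD_sum hπ (fun b _ => (h2 b).const_mulE hπ (S (e b))) x
    rw [h3, sum_apply, Finset.mul_sum]
    refine Finset.sum_congr rfl fun b _ => ?_
    rw [LD_const_mulE hπ (S (e b)) (h2 b)]
    rfl
  have h2 : S (dX hπ (fun y => T (dX hπ F y)) x) =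
      ∑ a, ∑ b, S (e a) * (e b * DD hπ F x a b) := by
    rw [dX, map_sum]
    refine Finset.sum_congr rfl fun a _ => ?_
    rw [LD_op hπ T hdF, hS, hST, LD_dX hπ hF, Finset.mul_sum]
  rw [h1, h2]
  conv_lhs =>
    arg 2
    rw [Finset.sum_comm]
  rw [← Finset.sum_add_distrib]
  refine Finset.sum_eq_zero fun a _ => ?_
  rw [← Finset.sum_add_distrib]
  refine Finset.sum_eq_zero fun b _ => ?_
  have h3 : S (e b) * e a = -(e a * S (e b)) := by
    have := e_mul_of_Deg (hS1 b) a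
    rwa [pow_one, neg_one_smul] at this
  rw [DD_symm hπ hF x b a, ← mul_assoc, ← mul_assoc, h3, neg_mul, add_neg_cancel]

end EH
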