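import Pool.Agent.Work.MP_9eee85_co.EH.Cone

/-!
# Pointwise bounds for the metric (EH cell, MP_9eee85_co)

In an abstract exterior algebra, with `std = ∑ j, pair i e_j` (the standard form) and
`top` positive on the standard volume form:

* `coord_le_of_mem` : if `std - pair i w` is in the cone then `|w_j| ≤ 1` for all `j`;
* `exR_mem` : `ω_P - dρ dᶜρ` is in the cone.
-/

namespace EHPos

open Module

variable {n : ℕ} {E : Type*} [Ring E] [Algebra ℝ E] {i : (Fin n → ℂ) →ₗ[ℝ] E}

/-- The determinant of the matrix with one changed row. -/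
lemma det_update_std (j : Fin n) (w : Fin n → ℂ) :
    Matrix.det (Matrix.of (Function.update (fun k => (Pi.single k 1 : Fin n → ℂ)) j w)) = w j := by
  have h1 : Matrix.of (Function.update (fun k => (Pi.single k 1 : Fin n → ℂ)) j w) =
      ((1 : Matrix (Fin n) (Fin n) ℂ).updateCol j w).transpose := by
    ext a b
    rw [Matrix.transpose_apply, Matrix.updateCol_apply]
    by_cases ha : a = j
    · subst ha; simp
    · simp [ha, Matrix.one_apply, Pi.single_apply]
  rw [h1, Matrix.det_transpose, ← Matrix.cramer_apply, Matrix.cramer_one]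
  rfl

/-- the product of the standard pairs with one of them replaced by `pair i w` -/
lemma top_update_pair (hi : ∀ v, i v * i v = 0) (top : E →ₗ[ℝ] ℝ) (j : Fin n) (w : Fin n → ℂ) :
    top (List.ofFn (Function.update (fun k => pair i (Pi.single k 1 : Fin n → ℂ)) j
      (pair i w))).prod =
      Complex.normSq (w j) * top (List.ofFn fun k => pair i (Pi.single k 1)).prod := by
  have h1 : Function.update (fun k => pair i (Pi.single k 1 : Fin n → ℂ)) j (pair i w) =
      fun k => pair i (Function.update (fun k => (Pi.single k 1 : Fin n → ℂ)) j w k) := by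
    funext k
    by_cases hk : k = j
    · subst hk; simp
    · simp [Function.update_of_ne hk]
  rw [h1, top_prod_pair i hi, det_update_std]

/-- the product of the standard pairs, one of them replaced, as a linear map -/
noncomputable def updL (i : (Fin n → ℂ) →ₗ[ℝ] E) (j : Fin n) : E →ₗ[ℝ] E :=
  (MultilinearMap.mkPiAlgebraFin ℝ n E).toLinearMap
    (fun k => pair i (Pi.single k 1 : Fin n → ℂ)) j

lemma updL_apply (j : Fin n) (x : E) : updL i j x =
    (List.ofFn (Function.update (fun k => pair i (Pi.single k 1 : Fin n → ℂ)) j x)).prod := by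
  rw [updL, MultilinearMap.toLinearMap_apply, MultilinearMap.mkPiAlgebraFin_apply]

/-- the standard form -/
noncomputable def std (i : (Fin n → ℂ) →ₗ[ℝ] E) : E := ∑ k, pair i (Pi.single k 1 : Fin n → ℂ)

lemma top_updL_std (hi : ∀ v, i v * i v = 0) (top : E →ₗ[ℝ] ℝ) (j : Fin n) :
    top (updL i j (std i)) = top (List.ofFn fun k => pair i (Pi.single k 1)).prod := by
  rw [std, map_sum, map_sum]
  have h : ∀ k, top (updL i j (pair i (Pi.single k 1 : Fin n → ℂ))) =
      (if k = j then 1 else 0) * top (List.ofFn fun k => pair i (Pi.single k 1)).prod := by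
    intro k
    rw [updL_apply, top_update_pair hi]
    by_cases hk : k = j
    · subst hk; simp
    · simp [hk]
  rw [Finset.sum_congr rfl fun k _ => h k]
  simp

lemma top_updL_nonneg (hi : ∀ v, i v * i v = 0) (top : E →ₗ[ℝ] ℝ)
    (ht : 0 ≤ top (List.ofFn fun k => pair i (Pi.single k 1)).prod) (j : Fin n) {x : E}
    (hx : x ∈ cone i) : 0 ≤ top (updL i j x) := by
  rw [updL_apply]
  apply top_nonneg hi top ht
  intro k
  by_cases hk : k = j
  · subst hk; simpa using hx
  · rw [Function.update_of_ne hk]; exact pair_mem i _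

/-- If `std - pair i w` is semipositive then the coordinates of `w` are at most one. -/
theorem coord_le_of_mem (hi : ∀ v, i v * i v = 0) (top : E →ₗ[ℝ] ℝ)
    (ht : 0 < top (List.ofFn fun k => pair i (Pi.single k 1)).prod) {w : Fin n → ℂ}
    (h : std i - pair i w ∈ cone i) (j : Fin n) : ‖w j‖ ≤ 1 := by
  have h1 := top_updL_nonneg hi top ht.le j h
  rw [map_sub, map_sub, top_updL_std hi, updL_apply, top_update_pair hi] at h1
  have h2 : Complex.normSq (w j) ≤ 1 := by
    by_contra hc
    rw [not_le] at hc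
    nlinarith
  rw [Complex.normSq_eq_norm_sq] at h2
  nlinarith [norm_nonneg (w j)]

/-- The same for a semipositive form which is a sum of pairs. -/
theorem coord_le_of_sum_mem (hi : ∀ v, i v * i v = 0) (top : E →ₗ[ℝ] ℝ)
    (ht : 0 < top (List.ofFn fun k => pair i (Pi.single k 1)).prod) {m : ℕ}
    {w : Fin m → Fin n → ℂ} (h : std i - ∑ l, pair i (w l) ∈ cone i) (l : Fin m) (j : Fin n) :
    ‖w l j‖ ≤ 1 := by
  refine coord_le_of_mem hi top ht ?_ j
  have e : std i - pair i (w l) = (std i - ∑ l, pair i (w l)) +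
      ∑ l' ∈ Finset.univ.erase l, pair i (w l') := by
    rw [← Finset.add_sum_erase Finset.univ (fun l => pair i (w l)) (Finset.mem_univ l)]
    abel
  rw [e]
  exact add_mem h (sum_mem fun k _ => pair_mem i _)

/-- `ω_P - dρ dᶜρ` is semipositive: `T = ddᶜA`, `w` the covector of `dA`, `a = A ≥ 0`. -/
theorem exR_mem {T : E} (hT : T ∈ cone i) {a : ℝ} (ha : 0 ≤ a) (w : Fin n → ℂ) :
    (2 - (1 + a)⁻¹) • T + ((1 + a) ^ 2)⁻¹ • pair i w - pair i ((1 + a)⁻¹ • w) ∈ cone i := by
  rw [pair_smul, inv_pow, add_sub_cancel_right]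
  apply smul_mem i _ hT
  have : (1 + a)⁻¹ ≤ 1 := inv_le_one_of_one_le₀ (by linarith)
  linarith

/-- `ω_P - ddᶜA` is semipositive. -/
theorem exP_sub_mem {T : E} (hT : T ∈ cone i) {a : ℝ} (ha : 0 ≤ a) (w : Fin n → ℂ) :
    (2 - (1 + a)⁻¹) • T + ((1 + a) ^ 2)⁻¹ • pair i w - T ∈ cone i := by
  have e : (2 - (1 + a)⁻¹) • T + ((1 + a) ^ 2)⁻¹ • pair i w - T =
      (1 - (1 + a)⁻¹) • T + ((1 + a) ^ 2)⁻¹ • pair i w := by
    module
  rw [e]
  have : (1 + a)⁻¹ ≤ 1 := inv_le_one_of_one_le₀ (by linarith)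
  exact add_mem (smul_mem i (by linarith) hT) (smul_pair_mem i (by positivity) w)

/-- An algebra homomorphism which acts on covectors by a complex linear map preserves the cone. -/
theorem map_cone {E' : Type*} [Ring E'] [Algebra ℝ E'] {i' : (Fin n → ℂ) →ₗ[ℝ] E'}
    (φ : E →ₐ[ℝ] E') (B : (Fin n → ℂ) →ₗ[ℂ] (Fin n → ℂ)) (hφ : ∀ v, φ (i v) = i' (B v)) {x : E}
    (hx : x ∈ cone i) : φ x ∈ cone i' := by
  induction hx using AddSubmonoid.closure_induction with
  | mem x hx =>
    obtain ⟨v, rfl⟩ := hx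
    have : φ (pair i v) = pair i' (B v) := by
      simp only [pair, map_mul, hφ, map_smul]
    rw [this]
    exact pair_mem i' _
  | zero => rw [map_zero]; exact zero_mem _
  | add x y _ _ hx hy => rw [map_add]; exact add_mem hx hy

lemma map_pair {E' : Type*} [Ring E'] [Algebra ℝ E'] {i' : (Fin n → ℂ) →ₗ[ℝ] E'}
    (φ : E →ₐ[ℝ] E') (B : (Fin n → ℂ) →ₗ[ℂ] (Fin n → ℂ)) (hφ : ∀ v, φ (i v) = i' (B v))
    (v : Fin n → ℂ) : φ (pair i v) = pair i' (B v) := by
  simp only [pair, map_mul, hφ, map_smul]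

end EHPos
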