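import Pool.Agent.Work.MP_9eee85_co.EH.ConeE
import Pool.Agent.Work.MP_9eee85_co.EH.ExhP

/-!
Pointwise bounds for products of forms between `0` and `om`.
-/

noncomputable section

namespace EH

open EHPos

/-- `N` is between `0` and `om` -/
def Unit1 (N : E) : Prop := N ∈ cone ic ∧ om - N ∈ cone ic

namespace Pt

/-- the multiplication is bounded -/
theorem exists_mul_bound : ∃ M : ℝ, 0 < M ∧ ∀ a b : E, ‖a * b‖ ≤ M * ‖a‖ * ‖b‖ := by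
  obtain ⟨M, hM⟩ : ∃ M : ℝ, M = ‖(LinearMap.toContinuousLinearMap
      ((LinearMap.toContinuousLinearMap : (E →ₗ[ℝ] E) ≃ₗ[ℝ] (E →L[ℝ] E)).toLinearMap ∘ₗ mulL) :
        E →L[ℝ] E →L[ℝ] E)‖ := ⟨_, rfl⟩
  refine ⟨M + 1, ?_, fun a b => ?_⟩
  · rw [hM]; positivity
  · have h := ContinuousLinearMap.le_opNorm₂ (LinearMap.toContinuousLinearMap
      ((LinearMap.toContinuousLinearMap : (E →ₗ[ℝ] E) ≃ₗ[ℝ] (E →L[ℝ] E)).toLinearMap ∘ₗ mulL) :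
        E →L[ℝ] E →L[ℝ] E) a b
    rw [← hM] at h
    have h2 : ‖a * b‖ ≤ M * ‖a‖ * ‖b‖ := h
    have h3 : 0 ≤ ‖a‖ * ‖b‖ := by positivity
    nlinarith

theorem abs_co_le (a : E) (S : Finset (Fin 10)) : |co a S| ≤ ‖a‖ := by
  apply abs_le_of_sq_le_sq _ (norm_nonneg a)
  rw [norm_sq_eq]
  exact Finset.single_le_sum (f := fun T => co a T ^ 2) (fun T _ => sq_nonneg _)
    (Finset.mem_univ S)

theorem abs_top_le (a : E) : |top a| ≤ ‖a‖ := abs_co_le a _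

/-- the pairs are bounded -/
theorem exists_pair_bound : ∃ M : ℝ, 0 < M ∧ ∀ w : Fin 5 → ℂ,
    ‖pair ic w‖ ≤ M * ∑ j, Complex.normSq (w j) := by
  obtain ⟨M, hM, hmul⟩ := exists_mul_bound
  have hb : ∃ B : ℝ, 0 < B ∧ ∀ w : Fin 5 → ℂ, ‖ic w‖ ≤ B * ‖w‖ := by
    refine ⟨‖LinearMap.toContinuousLinearMap ic‖ + 1, by positivity, fun w => ?_⟩
    have h := (LinearMap.toContinuousLinearMap ic).le_opNorm w
    have h2 : ‖ic w‖ ≤ ‖LinearMap.toContinuousLinearMap ic‖ * ‖w‖ := h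
    have h3 := norm_nonneg w
    nlinarith
  obtain ⟨B, hB, hic⟩ := hb
  refine ⟨M * B * B, by positivity, fun w => ?_⟩
  have h1 : ‖pair ic w‖ ≤ M * ‖ic w‖ * ‖ic (Complex.I • w)‖ := hmul _ _
  have h2 := hic w
  have h3 : ‖ic (Complex.I • w)‖ ≤ B * ‖w‖ := by
    have := hic (Complex.I • w)
    rwa [norm_smul, Complex.norm_I, one_mul] at this
  have h4 : ‖w‖ ^ 2 ≤ ∑ j, Complex.normSq (w j) := by
    have h5 : ∃ j, ‖w‖ = ‖w j‖ := by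
      obtain ⟨j, _, hj⟩ := Finset.exists_mem_eq_sup' (Finset.univ_nonempty (α := Fin 5))
        (fun j => ‖w j‖₊)
      refine ⟨j, ?_⟩
      rw [Pi.norm_def, ← Finset.sup'_eq_sup (Finset.univ_nonempty (α := Fin 5)), hj]
      rfl
    obtain ⟨j, hj⟩ := h5
    rw [hj, ← Complex.normSq_eq_norm_sq]
    exact Finset.single_le_sum (f := fun j => Complex.normSq (w j))
      (fun k _ => Complex.normSq_nonneg _) (Finset.mem_univ j)
  calc ‖pair ic w‖ ≤ M * ‖ic w‖ * ‖ic (Complex.I • w)‖ := h1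
    _ ≤ M * (B * ‖w‖) * (B * ‖w‖) := by gcongr
    _ = M * B * B * ‖w‖ ^ 2 := by ring
    _ ≤ M * B * B * ∑ j, Complex.normSq (w j) := by gcongr

/-- forms between `0` and `om` are bounded -/
theorem exists_unit_bound : ∃ C : ℝ, 0 < C ∧ ∀ N : E, Unit1 N → ‖N‖ ≤ C := by
  obtain ⟨M, hM, hp⟩ := exists_pair_bound
  refine ⟨M * 5, by positivity, fun N hN => ?_⟩
  obtain ⟨m, w, rfl⟩ := (mem_cone_iff ic).1 hN.1
  have ht : 0 < top (List.ofFn fun k => pair ic (Pi.single k 1)).prod := by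
    rw [top_std]; norm_num
  have hj : ∀ j : Fin 5, ∑ l, Complex.normSq (w l j) ≤ 1 := by
    intro j
    have h1 := top_updL_nonneg ic_sq top ht.le j hN.2
    have h2 : om = std ic := om_eq_pair
    rw [h2, map_sub, map_sub, top_updL_std ic_sq, map_sum, map_sum] at h1
    have h3 : ∀ l, top (updL ic j (pair ic (w l))) = Complex.normSq (w l j) := by
      intro l
      rw [updL_apply, top_update_pair ic_sq, top_std, mul_one]
    rw [Finset.sum_congr rfl fun l _ => h3 l, top_std] at h1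
    linarith
  calc ‖∑ l, pair ic (w l)‖ ≤ ∑ l, ‖pair ic (w l)‖ := norm_sum_le _ _
    _ ≤ ∑ l, M * ∑ j, Complex.normSq (w l j) := Finset.sum_le_sum fun l _ => hp _
    _ = M * ∑ j, ∑ l, Complex.normSq (w l j) := by rw [← Finset.mul_sum, Finset.sum_comm]
    _ ≤ M * ∑ _j : Fin 5, (1 : ℝ) := by gcongr with j; exact hj j
    _ = M * 5 := by simp

end Pt

/-- all products of at most four forms between `0` and `om` are bounded -/
theorem exists_pt_bound : ∃ C : ℝ, 0 < C ∧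
    (∀ N₁ N₂ N₃ : E, Unit1 N₁ → Unit1 N₂ → Unit1 N₃ → ∀ u v : E,
      |top (N₁ * N₂ * N₃ * u * v)| ≤ C * ‖u‖ * ‖v‖) ∧
    (∀ N₁ N₂ N₃ N₄ : E, Unit1 N₁ → Unit1 N₂ → Unit1 N₃ → Unit1 N₄ → ∀ u : E,
      |top (N₁ * N₂ * N₃ * N₄ * u)| ≤ C * ‖u‖) ∧
    (∀ N₁ N₂ : E, Unit1 N₁ → Unit1 N₂ → ‖N₁ * N₂‖ ≤ C) ∧
    (∀ N₁ : E, Unit1 N₁ → ‖N₁‖ ≤ C) := by
  obtain ⟨M, hM, hmul⟩ := Pt.exists_mul_bound
  obtain ⟨B, hB, hN⟩ := Pt.exists_unit_bound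
  -- bounds of products
  have h2 : ∀ N₁ N₂ : E, Unit1 N₁ → Unit1 N₂ → ‖N₁ * N₂‖ ≤ M * B * B := by
    intro N₁ N₂ h₁ h₂
    calc ‖N₁ * N₂‖ ≤ M * ‖N₁‖ * ‖N₂‖ := hmul _ _
      _ ≤ M * B * B := by
        have := hN _ h₁; have := hN _ h₂
        gcongr
  have h3 : ∀ N₁ N₂ N₃ : E, Unit1 N₁ → Unit1 N₂ → Unit1 N₃ →
      ‖N₁ * N₂ * N₃‖ ≤ M * (M * B * B) * B := by
    intro N₁ N₂ N₃ h₁ h₂ h₃
    calc ‖N₁ * N₂ * N₃‖ ≤ M * ‖N₁ * N₂‖ * ‖N₃‖ := hmul _ _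
      _ ≤ M * (M * B * B) * B := by
        have := hN _ h₃; have := h2 _ _ h₁ h₂
        gcongr
  have h4 : ∀ N₁ N₂ N₃ N₄ : E, Unit1 N₁ → Unit1 N₂ → Unit1 N₃ → Unit1 N₄ →
      ‖N₁ * N₂ * N₃ * N₄‖ ≤ M * (M * (M * B * B) * B) * B := by
    intro N₁ N₂ N₃ N₄ h₁ h₂ h₃ h₄
    calc ‖N₁ * N₂ * N₃ * N₄‖ ≤ M * ‖N₁ * N₂ * N₃‖ * ‖N₄‖ := hmul _ _
      _ ≤ M * (M * (M * B * B) * B) * B := by
        have := hN _ h₄; have := h3 _ _ _ h₁ h₂ h₃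
        gcongr
  refine ⟨M * (M * (M * (M * B * B) * B)) + M * (M * (M * (M * B * B) * B) * B) + M * B * B + B,
    by positivity, ?_, ?_, ?_, ?_⟩
  · intro N₁ N₂ N₃ h₁ h₂ h₃ u v
    have h5 := h3 _ _ _ h₁ h₂ h₃
    calc |top (N₁ * N₂ * N₃ * u * v)| ≤ ‖N₁ * N₂ * N₃ * u * v‖ := Pt.abs_top_le _
      _ ≤ M * ‖N₁ * N₂ * N₃ * u‖ * ‖v‖ := hmul _ _
      _ ≤ M * (M * ‖N₁ * N₂ * N₃‖ * ‖u‖) * ‖v‖ := by gcongr; exact hmul _ _
      _ ≤ M * (M * (M * (M * B * B) * B) * ‖u‖) * ‖v‖ := by gcongr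
      _ = (M * (M * (M * (M * B * B) * B))) * (‖u‖ * ‖v‖) := by ring
      _ ≤ (M * (M * (M * (M * B * B) * B)) + M * (M * (M * (M * B * B) * B) * B) +
          M * B * B + B) * (‖u‖ * ‖v‖) := by
        gcongr
        have : 0 ≤ M * (M * (M * (M * B * B) * B) * B) + M * B * B + B := by positivity
        linarith
      _ = _ := by ring
  · intro N₁ N₂ N₃ N₄ h₁ h₂ h₃ h₄ u
    have h5 := h4 _ _ _ _ h₁ h₂ h₃ h₄
    calc |top (N₁ * N₂ * N₃ * N₄ * u)| ≤ ‖N₁ * N₂ * N₃ * N₄ * u‖ := Pt.abs_top_le _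
      _ ≤ M * ‖N₁ * N₂ * N₃ * N₄‖ * ‖u‖ := hmul _ _
      _ ≤ M * (M * (M * (M * B * B) * B) * B) * ‖u‖ := by gcongr
      _ ≤ _ := by
        gcongr
        have : 0 ≤ M * (M * (M * (M * B * B) * B)) + M * B * B + B := by positivity
        linarith
  · intro N₁ N₂ h₁ h₂
    have := h2 _ _ h₁ h₂
    have : 0 ≤ M * (M * (M * (M * B * B) * B)) + M * (M * (M * (M * B * B) * B) * B) + B := by
      positivity
    linarith
  · intro N₁ h₁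
    have := hN _ h₁
    have : 0 ≤ M * (M * (M * (M * B * B) * B)) + M * (M * (M * (M * B * B) * B) * B) +
        M * B * B := by positivity
    linarith

end EH
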