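import Pool.Agent.Work.MP_9eee85_co.EH.GFrame
import Pool.Agent.Work.MP_9eee85_co.EH.GPt

/-!
Integrals through a gauge; comparison of metrics.
-/

set_option linter.unusedSectionVars false

noncomputable section

namespace EH

open MeasureTheory Filter Topology Set EHPos
open scoped ContDiff

variable {X : Type} [TopologicalSpace X] [T2Space X] [SecondCountableTopology X]
  [MeasurableSpace X] [BorelSpace X] {π : X → Bs} {hπ : IsLocalHomeomorph π} {ν : Measure X}

namespace GComp

theorem continuous_det {w : X → E} (g : Gauge hπ w) : Continuous g.det :=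
  g.sm_det.continuous hπ

theorem measurable_det {w : X → E} (g : Gauge hπ w) : Measurable g.det :=
  (continuous_det g).measurable

theorem mu_eq {w : X → E} (g : Gauge hπ w) :
    g.mu ν = ν.withDensity fun x => ((g.det x).toNNReal : ENNReal) := rfl

/-- the measures of two gauges are absolutely continuous with respect to each other -/
theorem mu_ac {w : X → E} (g : Gauge hπ w) : g.mu ν ≪ ν := withDensity_absolutelyContinuous _ _

theorem ac_mu {w : X → E} (g : Gauge hπ w) : ν ≪ g.mu ν := by
  apply withDensity_absolutelyContinuous'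
  · exact (measurable_det g).ennreal_ofReal.aemeasurable
  · refine Eventually.of_forall fun x => ?_
    rw [Ne, ENNReal.ofReal_eq_zero, not_le]
    exact g.det_pos x

/-- a continuous field of operators preserves measurability -/
theorem aesm_op {μ : Measure X} {T : X → E →ₗ[ℝ] E} (hT : ∀ a, Continuous fun x => T x a)
    {f : X → E} (hf : AEStronglyMeasurable f μ) : AEStronglyMeasurable (fun x => T x (f x)) μ := by
  have h1 : (fun x => T x (f x)) = fun x => ∑ S, co (f x) S • T x (mono S) := by
    funext x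
    conv_lhs => rw [← sum_mono (f x), map_sum]
    exact Finset.sum_congr rfl fun S _ => map_smul _ _ _
  rw [h1]
  refine Finset.aestronglyMeasurable_fun_sum _ fun S _ => ?_
  have h2 : AEStronglyMeasurable (fun x => co (f x) S) μ :=
    (LinearMap.toContinuousLinearMap (coL S)).continuous.comp_aestronglyMeasurable hf
  have h3 : AEStronglyMeasurable (fun x => T x (mono S)) μ := (hT _).aestronglyMeasurable
  exact h2.smul h3

theorem continuous_G {w : X → E} (g : Gauge hπ w) {v : X → E} (hv : LSm hπ ⊤ v) :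
    Continuous fun x => g.G x (v x) := (g.sm_G hv).continuous hπ

theorem continuous_Gi {w : X → E} (g : Gauge hπ w) {v : X → E} (hv : LSm hπ ⊤ v) :
    Continuous fun x => g.Gi x (v x) := (g.sm_Gi hv).continuous hπ

theorem G_eq_ext {w : X → E} (g : Gauge hπ w) (x : X) (a : E) :
    g.G x a = ext (rmat (g.A x)) a := by
  have h : AlgHom.ofLinearMap (g.G x) (g.G_one x) (g.G_mul x) = ext (rmat (g.A x)) := by
    apply algHom_ext
    intro v
    rw [AlgHom.ofLinearMap_apply, g.G_eq, ext_gen]
  have h2 := congrArg (fun φ : E →ₐ[ℝ] E => φ a) h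
  exact h2

theorem Gi_eq_ext {w : X → E} (g : Gauge hπ w) (x : X) (a : E) :
    g.Gi x a = ext (rmat (g.Ai x)) a := by
  have h : AlgHom.ofLinearMap (g.Gi x) (g.Gi_one x) (g.Gi_mul x) = ext (rmat (g.Ai x)) := by
    apply algHom_ext
    intro v
    rw [AlgHom.ofLinearMap_apply, g.Gi_eq, ext_gen]
  have h2 := congrArg (fun φ : E →ₐ[ℝ] E => φ a) h
  exact h2

/-- bounded matrices act with bounded norm -/
theorem exists_ext_bound (R : ℝ) : ∃ C : ℝ, 0 < C ∧ ∀ A : Fin 5 → Fin 5 → ℂ,
    (∀ i j, ‖A i j‖ ≤ R) → ∀ a : E, ‖ext (rmat A) a‖ ≤ C * ‖a‖ := by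
  have hc : Continuous fun A : Fin 5 → Fin 5 → ℂ => ‖extL (cplxL A)‖ :=
    (contDiff_gauge (m := 0)).continuous.norm
  have hK : IsCompact (Metric.closedBall (0 : Fin 5 → Fin 5 → ℂ) (max R 0)) :=
    isCompact_closedBall _ _
  obtain ⟨C, hC⟩ := hK.bddAbove_image hc.continuousOn
  refine ⟨max C 1, by positivity, fun A hA a => ?_⟩
  have hAm : A ∈ Metric.closedBall (0 : Fin 5 → Fin 5 → ℂ) (max R 0) := by
    rw [mem_closedBall_zero_iff, pi_norm_le_iff_of_nonneg (le_max_right _ _)]
    intro i
    rw [pi_norm_le_iff_of_nonneg (le_max_right _ _)]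
    intro j
    exact (hA i j).trans (le_max_left _ _)
  have h1 : ‖extL (cplxL A)‖ ≤ C := hC ⟨A, hAm, rfl⟩
  rw [← extL_cplxL]
  calc ‖extL (cplxL A) a‖ ≤ ‖extL (cplxL A)‖ * ‖a‖ := (extL (cplxL A)).le_opNorm a
    _ ≤ max C 1 * ‖a‖ := by gcongr; exact h1.trans (le_max_left _ _)

/-- a matrix which maps the standard form below `r` times itself is bounded -/
theorem entry_bound {r : ℝ} {A : Fin 5 → Fin 5 → ℂ} (h : r • om - ext (rmat A) om ∈ cone ic)
    (i j : Fin 5) : ‖A i j‖ ≤ √r := by
  have hic : ∀ v, ext (rmat A) (ic v) = ic (conjL A v) := fun v => by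
    rw [ic_apply, ext_gen, rmat_eq_cplx, cplx_cv, ic_apply]
  have hom : ext (rmat A) om = ∑ k, pair ic (conjL A (Pi.single k 1)) := by
    rw [om_eq_pair, map_sum]
    exact Finset.sum_congr rfl fun k _ => map_pair (ext (rmat A)) (conjL A) hic _
  have ht : 0 < top (List.ofFn fun k => pair ic (Pi.single k 1)).prod := by
    rw [top_std]; norm_num
  have h1 := top_updL_nonneg ic_sq top ht.le j h
  have h2 : om = std ic := om_eq_pair
  rw [hom, h2, map_sub, map_sub, map_smul, map_smul, top_updL_std ic_sq, map_sum, map_sum] at h1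
  have h3 : ∀ k, top (updL ic j (pair ic (conjL A (Pi.single k 1)))) =
      Complex.normSq (A k j) := by
    intro k
    rw [updL_apply, top_update_pair ic_sq, top_std, mul_one, conjL_apply,
      Finset.sum_eq_single k]
    · simp
    · intro b _ hb; simp [hb]
    · intro hk; exact absurd (Finset.mem_univ k) hk
  rw [Finset.sum_congr rfl fun k _ => h3 k, top_std, smul_eq_mul, mul_one] at h1
  apply Real.le_sqrt_of_sq_le
  rw [← Complex.normSq_eq_norm_sq]
  have h4 : Complex.normSq (A i j) ≤ ∑ k, Complex.normSq (A k j) :=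
    Finset.single_le_sum (f := fun k => Complex.normSq (A k j))
      (fun k _ => Complex.normSq_nonneg _) (Finset.mem_univ i)
  linarith

/-- the matrix of the transition of two gauges -/
theorem trans_eq {w w' : X → E} (g : Gauge hπ w) (g' : Gauge hπ w') (x : X) (a : E) :
    g'.Gi x (g.G x a) = ext (rmat (fun i k => ∑ j, g.A x i j * g'.Ai x j k)) a := by
  rw [← rmat_comp, ext_comp_apply, G_eq_ext, Gi_eq_ext]

theorem trans_om {w w' : X → E} (g : Gauge hπ w) (g' : Gauge hπ w') {x : X} {r : ℝ}
    (h : r • w' x - w x ∈ cone ic) :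
    r • om - ext (rmat (fun i k => ∑ j, g.A x i j * g'.Ai x j k)) om ∈ cone ic := by
  rw [← trans_eq, g.map_om]
  have h2 := g'.Gi_cone h x
  rwa [map_sub, map_smul, g'.Gi_w] at h2

/-- the transition of two gauges is bounded -/
theorem exists_trans_bound {w w' : X → E} (g : Gauge hπ w) (g' : Gauge hπ w') (r : ℝ) :
    ∃ C : ℝ, 0 < C ∧ ∀ x, r • w' x - w x ∈ cone ic → ∀ a, ‖g'.Gi x (g.G x a)‖ ≤ C * ‖a‖ := by
  obtain ⟨C, hC, hb⟩ := exists_ext_bound (√r)
  refine ⟨C, hC, fun x h a => ?_⟩
  rw [trans_eq]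
  exact hb _ (fun i j => entry_bound (trans_om g g' h) i j) a

end GComp

open GComp

/-- integrals in the gauge -/
theorem Gauge.integral_top {w : X → E} (g : Gauge hπ w) (a : X → E) :
    ∫ x, top (g.Gi x (a x)) ∂(g.mu ν) = ∫ x, top (a x) ∂ν := by
  rw [mu_eq, integral_withDensity_eq_integral_smul (measurable_det g).real_toNNReal]
  refine integral_congr_ae (Eventually.of_forall fun x => ?_)
  change (g.det x).toNNReal • top (g.Gi x (a x)) = top (a x)
  rw [NNReal.smul_def, Real.coe_toNNReal _ (g.det_pos x).le, smul_eq_mul, ← g.top_G, g.G_Gi]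

theorem Gauge.integrable_top {w : X → E} (g : Gauge hπ w) (a : X → E) :
    Integrable (fun x => top (g.Gi x (a x))) (g.mu ν) ↔ Integrable (fun x => top (a x)) ν := by
  rw [mu_eq, integrable_withDensity_iff_integrable_smul (measurable_det g).real_toNNReal]
  refine integrable_congr (Eventually.of_forall fun x => ?_)
  change (g.det x).toNNReal • top (g.Gi x (a x)) = top (a x)
  rw [NNReal.smul_def, Real.coe_toNNReal _ (g.det_pos x).le, smul_eq_mul, ← g.top_G, g.G_Gi]

/-- the volume is finite -/
theorem KForm.finite_mu (K : KForm hπ ν) (g : Gauge hπ K.w) : IsFiniteMeasure (g.mu ν) := by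
  have h : Integrable g.det ν := by
    have h1 := K.fin.const_mul (1 / 120)
    refine h1.congr (Eventually.of_forall fun x => ?_)
    change 1 / 120 * top (K.w x ^ 5) = g.det x
    rw [g.top_pow]
    ring
  exact isFiniteMeasure_withDensity_ofReal h.2

/-- comparison of two metrics -/
theorem Gauge.compare {w w' : X → E} (g : Gauge hπ w) (g' : Gauge hπ w') {r : ℝ}
    (h : ∀ x, r • w' x - w x ∈ cone ic) (h' : ∀ x, r • w x - w' x ∈ cone ic) {v : X → E}
    (hv : g.L2 ν v) : g'.L2 ν v := by
  obtain ⟨C, hC, hb⟩ := exists_trans_bound g g' r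
  obtain ⟨C', hC', hb'⟩ := exists_trans_bound g' g r
  have hdet : ∀ x, g'.det x ≤ (C' * ‖mono Finset.univ‖) * g.det x := by
    intro x
    have h1 : g'.det x = g.det x * top (g.Gi x (g'.G x (mono Finset.univ))) := by
      rw [← g.top_G, g.G_Gi]
      rfl
    have h2 : top (g.Gi x (g'.G x (mono Finset.univ))) ≤ C' * ‖mono Finset.univ‖ :=
      (le_abs_self _).trans ((Pt.abs_top_le _).trans (hb' x (h' x) _))
    rw [h1, mul_comm]
    exact mul_le_mul_of_nonneg_right h2 (g.det_pos x).le
  set R : ℝ := C' * ‖(mono Finset.univ : E)‖ with hR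
  have hR0 : 0 ≤ R := by positivity
  have hmu : g'.mu ν ≤ ENNReal.ofReal R • g.mu ν := by
    have h1 : ENNReal.ofReal R • g.mu ν =
        ν.withDensity (ENNReal.ofReal R • fun x => ENNReal.ofReal (g.det x)) :=
      (withDensity_smul _ (measurable_det g).ennreal_ofReal).symm
    rw [h1]
    apply withDensity_mono
    refine Eventually.of_forall fun x => ?_
    rw [Pi.smul_apply, smul_eq_mul, ← ENNReal.ofReal_mul hR0]
    exact ENNReal.ofReal_le_ofReal (hdet x)
  have hv' : MemLp (fun x => g.Gi x (v x)) 2 (g'.mu ν) :=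
    MemLp.of_measure_le_smul ENNReal.ofReal_ne_top hmu hv
  have h3 : (fun x => g'.Gi x (v x)) = fun x => ((g'.Gi x) ∘ₗ (g.G x)) (g.Gi x (v x)) := by
    funext x
    rw [LinearMap.comp_apply, g.G_Gi]
  have h4 : AEStronglyMeasurable (fun x => g'.Gi x (v x)) (g'.mu ν) := by
    rw [h3]
    refine aesm_op (fun a => ?_) hv'.1
    exact continuous_Gi g' (g.sm_G (LSm.const hπ ⊤ a))
  refine MemLp.of_le_mul (c := C) hv' h4 (Eventually.of_forall fun x => ?_)
  have h5 := hb x (h x) (g.Gi x (v x))
  rwa [g.G_Gi] at h5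

end EH
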