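import Mathlib
import Pool.Agent.Work.MP_9eee85_co.EH.CAR

/-!
# The complex structure, the Weyl element and the Hodge star

* `J_mul`, `J_J`, `inner_J_J`, `J_Lop`, `J_Λop`, `J_pr`;
* `Lop_pow_five_one : L ^ 5 1 = 120 vol`;
* `star_eq_wey : star α = (-1) ^ (k (k + 1) / 2) J (wey 6 Lop Λop α)` in degree `k`;
* `star_star`, `star_mem`, `inner_star_star`, `star_J`.
-/

noncomputable section

namespace EH

open Finset

/-! ### The swap -/

lemma sw_xi (j : Fin 5) : sw (xi j) = yi j := by
  apply Fin.ext
  have h : (2 * j.val) % 2 = 0 := by omega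
  simp only [sw, xi, yi, h, if_true]
  omega

lemma sw_yi (j : Fin 5) : sw (yi j) = xi j := by
  apply Fin.ext
  have h : (2 * j.val + 1) % 2 ≠ 0 := by omega
  simp only [sw, xi, yi, h, if_false]
  omega

lemma sw_sw (a : Fin 10) : sw (sw a) = a := by
  obtain ⟨j, rfl | rfl⟩ := exists_pair a
  · rw [sw_xi, sw_yi]
  · rw [sw_yi, sw_xi]

lemma sw_injective : Function.Injective sw := Function.Involutive.injective sw_sw

lemma image_sw_sw (S : Finset (Fin 10)) : (S.image sw).image sw = S := by
  rw [image_image]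
  have : sw ∘ sw = id := funext sw_sw
  rw [this, image_id]

lemma mem_image_sw {a : Fin 10} {S : Finset (Fin 10)} : a ∈ S.image sw ↔ sw a ∈ S := by
  rw [mem_image]
  constructor
  · rintro ⟨b, hb, rfl⟩; rwa [sw_sw]
  · intro h; exact ⟨_, h, sw_sw a⟩

lemma sw_ne (a : Fin 10) : sw a ≠ a := by
  obtain ⟨j, rfl | rfl⟩ := exists_pair a
  · rw [sw_xi]; exact (xi_ne_yi j j).symm
  · rw [sw_yi]; exact xi_ne_yi j j

lemma card_image_sw (S : Finset (Fin 10)) : (S.image sw).card = S.card :=
  card_image_of_injective S sw_injective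

lemma image_sw_univ : (univ : Finset (Fin 10)).image sw = univ :=
  image_univ_of_surjective (Function.Involutive.surjective sw_sw)

/-- the sign with `J (e a) = js a • e (sw a)` -/
def js (a : Fin 10) : ℝ := if a.val % 2 = 0 then -1 else 1

lemma js_xi (j : Fin 5) : js (xi j) = -1 := by
  have h : (2 * j.val) % 2 = 0 := by omega
  simp [js, xi]

lemma js_yi (j : Fin 5) : js (yi j) = 1 := by
  have h : (2 * j.val + 1) % 2 ≠ 0 := by omega
  simp only [js, yi, h, if_false]

lemma js_mul_js (a : Fin 10) : js a * js (sw a) = -1 := by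
  obtain ⟨j, rfl | rfl⟩ := exists_pair a
  · rw [sw_xi, js_xi, js_yi]; ring
  · rw [sw_yi, js_xi, js_yi]; ring

lemma js_sq (a : Fin 10) : js a * js a = 1 := by
  unfold js; split_ifs <;> norm_num

/-! ### Signs of the swap -/

lemma sgn_single_single (a b : Fin 10) : sgn {a} {b} = if b < a then -1 else 1 := by
  unfold sgn inv
  rw [singleton_product_singleton, filter_singleton]
  split_ifs with h <;> simp

lemma sw_lt_sw : ∀ a b : Fin 10, a ≠ b → b ≠ sw a → (sw b < sw a ↔ b < a) := by decide

lemma sgn_sw {b : Fin 10} (V : Finset (Fin 10)) (hb : b ∉ V) :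
    sgn {sw b} (V.image sw) = sgn {b} V * (if sw b ∈ V then -1 else 1) := by
  induction V using Finset.induction_on with
  | empty => simp [sgn_empty_right]
  | insert t V ht ih =>
    have hbt : b ≠ t := fun h => hb (h ▸ mem_insert_self _ _)
    have hbV : b ∉ V := fun h => hb (mem_insert_of_mem h)
    have h1 : sw t ∉ V.image sw := by rw [mem_image_sw, sw_sw]; exact ht
    rw [image_insert, sgn_insert_right _ h1, ih hbV, sgn_insert_right _ ht]
    by_cases hts : sw b = t
    · have h2 : sw b ∉ V := by rw [hts]; exact ht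
      rw [if_neg h2, if_pos (by rw [hts]; exact mem_insert_self _ _), mul_one]
      have h3 : sw t = b := by rw [← hts, sw_sw]
      rw [h3, hts]
      have h4 := sgn_single hbt
      have h5 := sgn_sq {b} {t}
      have h6 : sgn {t} {b} = -sgn {b} {t} := by
        have := sgn_ne_zero {b} {t}
        apply mul_left_cancel₀ this
        rw [h4]; linarith
      rw [h6]; ring
    · have h2 : (sw b ∈ insert t V) ↔ sw b ∈ V := by
        rw [mem_insert]
        exact ⟨fun h => h.resolve_left hts, Or.inr⟩
      simp only [h2]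
      have h3 : sgn {sw b} {sw t} = sgn {b} {t} := by
        rw [sgn_single_single, sgn_single_single]
        simp only [sw_lt_sw b t hbt (fun h => hts h.symm)]
      rw [h3]; ring

/-- the local factor of the sign of `J` -/
def nf (S : Finset (Fin 10)) (j : Fin 5) : ℝ := if yi j ∈ S ∧ xi j ∉ S then -1 else 1

lemma ny_eq (S : Finset (Fin 10)) : ((-1 : ℝ)) ^ ny S = ∏ j, nf S j := by
  unfold ny nf
  rw [prod_ite, prod_const, prod_const_one, mul_one]

lemma nf_sq (S j) : nf S j * nf S j = 1 := by unfold nf; split_ifs <;> norm_num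

lemma ny_sq (S : Finset (Fin 10)) : ((-1 : ℝ)) ^ ny S * (-1) ^ ny S = 1 := by
  rw [← mul_pow]; norm_num

lemma ny_insert {b : Fin 10} {V : Finset (Fin 10)} (j : Fin 5) (hb : b = xi j ∨ b = yi j) :
    ((-1 : ℝ)) ^ ny (insert b V) = (-1) ^ ny V * (nf V j * nf (insert b V) j) := by
  rw [ny_eq, ny_eq, ← mul_prod_erase univ _ (mem_univ j),
    ← mul_prod_erase univ (nf V) (mem_univ j)]
  have h : ∏ k ∈ univ.erase j, nf (insert b V) k = ∏ k ∈ univ.erase j, nf V k := by
    refine prod_congr rfl fun k hk => ?_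
    have hkj : k ≠ j := ne_of_mem_erase hk
    unfold nf
    have h1 : yi k ∈ insert b V ↔ yi k ∈ V := by
      rw [mem_insert, or_iff_right]
      rcases hb with rfl | rfl
      · exact fun h => xi_ne_yi _ _ h.symm
      · exact fun h => hkj (yi_inj h)
    have h2 : xi k ∈ insert b V ↔ xi k ∈ V := by
      rw [mem_insert, or_iff_right]
      rcases hb with rfl | rfl
      · exact fun h => hkj (xi_inj h)
      · exact fun h => xi_ne_yi _ _ h
    simp only [h1, h2]
  rw [h]
  have := nf_sq V j
  linear_combination (-(nf (insert b V) j * ∏ k ∈ univ.erase j, nf V k)) * this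

lemma sign_key {b : Fin 10} {V : Finset (Fin 10)} (hb : b ∉ V) :
    (-1 : ℝ) ^ ny (insert b V) * sgn {sw b} (V.image sw) =
      js (sw b) * sgn {b} V * (-1) ^ ny V := by
  rw [sgn_sw V hb]
  obtain ⟨j, rfl | rfl⟩ := exists_pair b
  · rw [ny_insert j (Or.inl rfl), sw_xi, js_yi]
    have h1 : nf V j * nf (insert (xi j) V) j = if yi j ∈ V then -1 else 1 := by
      unfold nf
      have : yi j ∈ insert (xi j) V ↔ yi j ∈ V := by
        rw [mem_insert, or_iff_right (xi_ne_yi j j).symm]
      simp [hb]
    rw [h1]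
    split_ifs <;> ring
  · rw [ny_insert j (Or.inr rfl), sw_yi, js_xi]
    have h1 : nf V j * nf (insert (yi j) V) j = if xi j ∈ V then 1 else -1 := by
      unfold nf
      have : xi j ∈ insert (yi j) V ↔ xi j ∈ V := by
        rw [mem_insert, or_iff_right (xi_ne_yi j j)]
      simp [hb, this]
    rw [h1]
    split_ifs <;> ring

/-! ### J -/

lemma co_J (α : E) (S) : co (J α) S = (-1) ^ ny S * co α (S.image sw) := rfl

lemma J_e_mul (a : Fin 10) (α : E) : J (e a * α) = js a • (e (sw a) * J α) := by
  ext U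
  rw [co_J, co_smul, co_e_mul, co_e_mul, co_J]
  by_cases h : sw a ∈ U
  · rw [if_pos (mem_image_sw.mpr h), if_pos h]
    have h1 : (U.image sw).erase a = (U.erase (sw a)).image sw := by
      ext x
      rw [mem_erase, mem_image_sw, mem_image_sw, mem_erase]
      refine and_congr_left fun _ => not_congr ⟨fun h => h ▸ rfl, fun h => sw_injective h⟩
    rw [h1]
    have key := sign_key (notMem_erase (sw a) U)
    rw [insert_erase h, sw_sw] at key
    linear_combination (co α ((U.erase (sw a)).image sw)) * key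
  · rw [if_neg (fun h' => h (mem_image_sw.mp h')), if_neg h]; ring

lemma J_one : J 1 = 1 := by
  ext S
  rw [co_J, one_def, co_mono, co_mono]
  by_cases h : S = ∅
  · subst h; simp [ny]
  · rw [if_neg h, if_neg, mul_zero]
    rwa [image_eq_empty]

lemma J_e (a : Fin 10) : J (e a) = js a • e (sw a) := by
  have := J_e_mul a 1
  rwa [mul_one, J_one, mul_one] at this

theorem J_mul (α β : E) : J (α * β) = J α * J β := by
  revert β
  refine mono_induction (P := fun α => ∀ β, J (α * β) = J α * J β) ?_ ?_ ?_ ?_ α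
  · intro β; rw [J_one, one_mul, one_mul]
  · intro a α ih β
    rw [mul_assoc, J_e_mul, ih, J_e_mul, smul_mul_assoc, mul_assoc]
  · intro α γ h1 h2 β
    rw [add_mul, map_add, map_add, h1, h2, add_mul]
  · intro c α h β
    rw [smul_mul_assoc, map_smul, map_smul, h, smul_mul_assoc]

lemma par_one : par 1 = 1 := by
  rw [par_eq one_mem_Deg]; simp

theorem J_J (α : E) : J (J α) = par α := by
  refine mono_induction (P := fun α => J (J α) = par α) ?_ ?_ ?_ ?_ α
  · rw [J_one, J_one, par_one]
  · intro a α ih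
    rw [J_e_mul, map_smul, J_e_mul, smul_smul, ih, js_mul_js, sw_sw, par_e_mul]; simp
  · intro α β h1 h2; rw [map_add, map_add, h1, h2, map_add]
  · intro c α h; rw [map_smul, map_smul, h, map_smul]

lemma J_J_deg {k : ℕ} {α : E} (h : α ∈ Deg k) : J (J α) = (-1 : ℝ) ^ k • α := by
  rw [J_J, par_eq h]

lemma J_Jinv (α : E) : J (Jinv α) = α := by
  change J (J (J (J α))) = α
  rw [J_J, J_J, par_par]

lemma Jinv_J (α : E) : Jinv (J α) = α := by
  change J (J (J (J α))) = α
  rw [J_J, J_J, par_par]

lemma J_surjective : Function.Surjective J := fun α => ⟨Jinv α, J_Jinv α⟩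
lemma J_injective : Function.Injective J := fun α β h => by rw [← Jinv_J α, h, Jinv_J]

theorem inner_J_J (α β : E) : inner ℝ (J α) (J β) = inner ℝ α β := by
  rw [inner_eq, inner_eq]
  refine sum_bij' (fun S _ => S.image sw) (fun S _ => S.image sw) ?_ ?_ ?_ ?_ ?_
  · intro S _; exact mem_univ _
  · intro S _; exact mem_univ _
  · intro S _; exact image_sw_sw S
  · intro S _; exact image_sw_sw S
  · intro S _
    rw [co_J, co_J]
    have := ny_sq S
    linear_combination (co α (S.image sw) * co β (S.image sw)) * this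

lemma norm_J (α : E) : ‖J α‖ = ‖α‖ := by
  rw [← sq_eq_sq₀ (norm_nonneg _) (norm_nonneg _), ← real_inner_self_eq_norm_sq,
    ← real_inner_self_eq_norm_sq, inner_J_J]

lemma inner_J (α β : E) : inner ℝ (J α) β = inner ℝ α (Jinv β) := by
  rw [← inner_J_J α (Jinv β), J_Jinv]

theorem J_pr (k : ℕ) (α : E) : J (pr k α) = pr k (J α) := by
  ext S
  rw [co_J, co_pr, co_pr, card_image_sw, co_J]
  split_ifs <;> simp

lemma J_mem {k : ℕ} {α : E} (h : α ∈ Deg k) : J α ∈ Deg k := by
  rw [mem_Deg_iff, ← J_pr, pr_eq_self h]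

lemma par_mul (α β : E) : par (α * β) = par α * par β := by
  rw [← J_J, J_mul, J_mul, J_J, J_J]

lemma J_par (α : E) : J (par α) = par (J α) := by
  rw [← J_J, ← J_J]

theorem J_om_eq : J om = om := by
  unfold om
  rw [map_sum]
  refine sum_congr rfl fun j _ => ?_
  rw [J_mul, J_e, J_e, sw_xi, sw_yi, js_xi, js_yi, one_smul, neg_one_smul, neg_mul, ← e_mul_e]

theorem J_Lop (α : E) : J (Lop α) = Lop (J α) := by
  change J (om * α) = om * J α
  rw [J_mul, J_om_eq]

theorem J_Λop (α : E) : J (Λop α) = Λop (J α) := by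
  refine ext_inner_right ℝ fun β => ?_
  obtain ⟨γ, rfl⟩ := J_surjective β
  rw [inner_J_J]
  unfold Λop
  rw [LinearMap.adjoint_inner_left, LinearMap.adjoint_inner_left, ← J_Lop, inner_J_J]

theorem J_Hop (α : E) : J (Hop α) = Hop (J α) := by
  ext S
  rw [co_J, co_Hop, co_Hop, card_image_sw, co_J]; ring

theorem J_io (a : Fin 10) (α : E) : J (io a α) = js a • io (sw a) (J α) := by
  refine ext_inner_left ℝ fun β => ?_
  obtain ⟨γ, rfl⟩ := J_surjective β
  rw [inner_J_J, ← inner_e_mul, ← inner_J_J, J_e_mul, inner_smul_left, inner_smul_right,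
    ← inner_e_mul]
  simp

lemma gen_eq_sum_e (v) : gen v = ∑ a, v a • e a := rfl

lemma J_gen (v : EuclideanSpace ℝ (Fin 10)) :
    J (gen v) = gen (WithLp.toLp 2 fun a => js (sw a) * v (sw a)) := by
  rw [gen_eq_sum_e, gen_eq_sum_e, map_sum]
  refine sum_bij' (fun a _ => sw a) (fun a _ => sw a) (fun _ _ => mem_univ _)
    (fun _ _ => mem_univ _) (fun a _ => sw_sw a) (fun a _ => sw_sw a) ?_
  intro a _
  rw [map_smul, J_e, smul_smul]
  change _ = (js (sw (sw a)) * v (sw (sw a))) • e (sw a)
  rw [sw_sw, mul_comm]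

lemma top_J (α : E) : top (J α) = top α := by
  have h2 : ny univ = 0 := by simp [ny]
  rw [top_apply, top_apply, co_J, image_sw_univ, h2]; simp

/-! ### The Kähler identity for generators -/

theorem Λ_X (a : Fin 10) : (Λop : Module.End ℝ E) * X a - X a * Λop = -(js a • I (sw a)) := by
  rw [Λop_eq, sum_mul, mul_sum, ← sum_sub_distrib]
  obtain ⟨j, rfl | rfl⟩ := exists_pair a
  · rw [sw_xi, js_xi, neg_one_smul, neg_neg, sum_eq_single j]
    · have h1 := I_mul_X_self (xi j)
      have h2 := X_mul_I (xi_ne_yi j j)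
      have e1 : I (yi j) * I (xi j) * X (xi j) = I (yi j) * (I (xi j) * X (xi j)) := mul_assoc _ _ _
      have e2 : X (xi j) * (I (yi j) * I (xi j)) = X (xi j) * I (yi j) * I (xi j) :=
        (mul_assoc _ _ _).symm
      rw [e1, h1, e2, h2]; noncomm_ring
    · intro k _ hk
      have h1 : I (xi k) * X (xi j) = -(X (xi j) * I (xi k)) := I_mul_X fun h => hk (xi_inj h)
      have h2 := X_mul_I (xi_ne_yi j k)
      have e1 : I (yi k) * I (xi k) * X (xi j) = I (yi k) * (I (xi k) * X (xi j)) := mul_assoc _ _ _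
      have e2 : X (xi j) * (I (yi k) * I (xi k)) = X (xi j) * I (yi k) * I (xi k) :=
        (mul_assoc _ _ _).symm
      rw [e1, h1, e2, h2]; noncomm_ring
    · intro h; exact absurd (mem_univ j) h
  · rw [sw_yi, js_yi, one_smul, sum_eq_single j]
    · have h1 : I (xi j) * X (yi j) = -(X (yi j) * I (xi j)) := I_mul_X (xi_ne_yi j j)
      have h2 := I_mul_X_self (yi j)
      have e1 : I (yi j) * I (xi j) * X (yi j) = I (yi j) * (I (xi j) * X (yi j)) := mul_assoc _ _ _
      have e2 : I (yi j) * (-(X (yi j) * I (xi j))) = -(I (yi j) * X (yi j) * I (xi j)) := by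
        noncomm_ring
      rw [e1, h1, e2, h2]; noncomm_ring
    · intro k _ hk
      have h1 : I (xi k) * X (yi j) = -(X (yi j) * I (xi k)) := I_mul_X (xi_ne_yi k j)
      have h2 : X (yi j) * I (yi k) = -(I (yi k) * X (yi j)) := X_mul_I fun h => hk (yi_inj h).symm
      have e1 : I (yi k) * I (xi k) * X (yi j) = I (yi k) * (I (xi k) * X (yi j)) := mul_assoc _ _ _
      have e2 : X (yi j) * (I (yi k) * I (xi k)) = X (yi j) * I (yi k) * I (xi k) :=
        (mul_assoc _ _ _).symm
      rw [e1, h1, e2, h2]; noncomm_ring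
    · intro h; exact absurd (mem_univ j) h

/-- The Weyl element of the Lefschetz triple. -/
def W : Module.End ℝ E := wey 6 (Lop : Module.End ℝ E) (Λop : Module.End ℝ E)

lemma W_def : W = wey 6 (Lop : Module.End ℝ E) (Λop : Module.End ℝ E) := rfl

attribute [irreducible] W

lemma om_mul_comm (α : E) : om * α = α * om := by
  refine mono_induction (P := fun α => om * α = α * om) ?_ ?_ ?_ ?_ α
  · rw [mul_one, one_mul]
  · intro a α ih
    have h := mul_comm_deg om_mem_Deg (e_mem_Deg a)
    rw [show (2 * 1 : ℕ) = 2 from rfl, neg_one_sq, one_smul] at h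
    rw [← mul_assoc, h, mul_assoc, ih, mul_assoc]
  · intro α β h1 h2; rw [mul_add, h1, h2, add_mul]
  · intro c α h; rw [mul_smul_comm, h, smul_mul_assoc]

lemma L_X (a : Fin 10) : (Lop : Module.End ℝ E) * X a = X a * Lop := by
  refine LinearMap.ext fun α => ?_
  change om * (e a * α) = e a * (om * α)
  rw [← mul_assoc, ← mul_assoc, om_mul_comm]

lemma H_X (a : Fin 10) : (Hop : Module.End ℝ E) * X a = X a * Hop + X a := by
  refine LinearMap.ext fun α => ?_
  exact Hop_e_mul a α

theorem W_X (a : Fin 10) : W * X a = (js a • I (sw a)) * W := by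
  have h := trip.s_mul (L_X a) (H_X a)
  rw [Λ_X a, neg_neg, ← W_def] at h
  exact h

lemma W_e_mul (a : Fin 10) (α : E) : W (e a * α) = js a • io (sw a) (W α) := by
  have h := LinearMap.congr_fun (W_X a) α
  rwa [Module.End.mul_apply, Module.End.mul_apply, LinearMap.smul_apply, X_apply, I_apply] at h

/-! ### The top power of the Kähler form -/

lemma sgn_xi_yi (j : Fin 5) (V : Finset (Fin 10)) (hx : xi j ∉ V) (hy : yi j ∉ V) :
    sgn {xi j} V = sgn {yi j} V := by
  induction V using Finset.induction_on with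
  | empty => rw [sgn_empty_right, sgn_empty_right]
  | insert t V ht ih =>
    have h1 : xi j ≠ t := fun h => hx (h ▸ mem_insert_self _ _)
    have h2 : yi j ≠ t := fun h => hy (h ▸ mem_insert_self _ _)
    rw [sgn_insert_right _ ht, sgn_insert_right _ ht,
      ih (fun h => hx (mem_insert_of_mem h)) (fun h => hy (mem_insert_of_mem h))]
    congr 1
    rw [sgn_single_single, sgn_single_single]
    have h3 : t < xi j ↔ t < yi j := by
      have h1' : (xi j).val ≠ t.val := fun h => h1 (Fin.ext h)
      have h2' : (yi j).val ≠ t.val := fun h => h2 (Fin.ext h)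
      simp only [xi, yi] at h1' h2'
      rw [Fin.lt_def, Fin.lt_def]
      simp only [xi, yi]
      omega
    simp only [h3]

lemma co_pair_mul (j : Fin 5) (α : E) (U) : co (e (xi j) * (e (yi j) * α)) U =
    if xi j ∈ U ∧ yi j ∈ U then co α ((U.erase (xi j)).erase (yi j)) else 0 := by
  rw [co_e_mul]
  by_cases hx : xi j ∈ U
  · rw [if_pos hx, co_e_mul]
    by_cases hy : yi j ∈ U
    · have hy' : yi j ∈ U.erase (xi j) := mem_erase.mpr ⟨(xi_ne_yi j j).symm, hy⟩
      rw [if_pos hy', if_pos ⟨hx, hy⟩]
      set V := (U.erase (xi j)).erase (yi j)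
      have hxV : xi j ∉ V := fun h => notMem_erase _ _ (mem_of_mem_erase h)
      have hyV : yi j ∉ V := notMem_erase _ _
      have e1 : sgn {xi j} (U.erase (xi j)) = sgn {yi j} V := by
        conv_lhs => rw [← insert_erase hy']
        rw [sgn_insert_right _ hyV, sgn_single_single, if_neg, one_mul, sgn_xi_yi j V hxV hyV]
        rw [Fin.lt_def]; simp only [xi, yi]; omega
      rw [e1, ← mul_assoc, sgn_sq, one_mul]
    · have hy' : yi j ∉ U.erase (xi j) := fun h => hy (mem_of_mem_erase h)
      rw [if_neg hy', if_neg (fun h => hy h.2), mul_zero]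
  · rw [if_neg hx, if_neg (fun h => hx h.1)]

lemma co_Lop (α : E) (U) : co (Lop α) U =
    ∑ j, if xi j ∈ U ∧ yi j ∈ U then co α ((U.erase (xi j)).erase (yi j)) else 0 := by
  rw [Lop_eq, LinearMap.sum_apply, co_sum]
  exact sum_congr rfl fun j _ => co_pair_mul j α U

lemma co_Lop_pow_one (k : ℕ) (U : Finset (Fin 10)) :
    co ((Lop ^ k : Module.End ℝ E) 1) U =
      if (∀ j, xi j ∈ U ↔ yi j ∈ U) ∧ U.card = 2 * k then (k.factorial : ℝ) else 0 := by
  induction k generalizing U with
  | zero =>
    rw [pow_zero, Module.End.one_apply, one_def, co_mono]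
    by_cases h : U = ∅
    · subst h; simp
    · rw [if_neg h, if_neg]
      rintro ⟨_, h2⟩
      exact h (card_eq_zero.mp (by simpa using h2))
  | succ k ih =>
    rw [pow_succ', Module.End.mul_apply]
    rw [co_Lop]
    have hcard : ∀ j, xi j ∈ U → yi j ∈ U →
        ((U.erase (xi j)).erase (yi j)).card + 2 = U.card := by
      intro j hx hy
      have hy' : yi j ∈ U.erase (xi j) := mem_erase.mpr ⟨(xi_ne_yi j j).symm, hy⟩
      rw [← card_erase_add_one hx, ← card_erase_add_one hy']
    have hmem : ∀ j a, a ∈ (U.erase (xi j)).erase (yi j) ↔ a ≠ yi j ∧ a ≠ xi j ∧ a ∈ U := by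
      intro j a; rw [mem_erase, mem_erase]
    by_cases hp : ∀ j, xi j ∈ U ↔ yi j ∈ U
    · by_cases hc : U.card = 2 * (k + 1)
      · rw [if_pos ⟨hp, hc⟩]
        have h1 : ∀ j : Fin 5, (if xi j ∈ U ∧ yi j ∈ U then
            co ((Lop ^ k : Module.End ℝ E) 1) ((U.erase (xi j)).erase (yi j)) else 0) =
            (k.factorial : ℝ) * (if xi j ∈ U then 1 else 0) := by
          intro j
          by_cases hx : xi j ∈ U
          · have hy := (hp j).mp hx
            rw [if_pos ⟨hx, hy⟩, if_pos hx, ih, if_pos, mul_one]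
            refine ⟨fun i => ?_, by have := hcard j hx hy; omega⟩
            rw [hmem, hmem, hp i]
            constructor
            · rintro ⟨_, h2, h3⟩
              exact ⟨fun h => h2 (by rw [yi_inj h]), fun h => xi_ne_yi _ _ h.symm, h3⟩
            · rintro ⟨h1, _, h3⟩
              exact ⟨fun h => xi_ne_yi _ _ h, fun h => h1 (by rw [xi_inj h]), h3⟩
          · rw [if_neg (fun h => hx h.1), if_neg hx, mul_zero]
        rw [sum_congr rfl fun j _ => h1 j, ← mul_sum]
        have h2 : (U.card : ℝ) = 2 * ∑ j, (if xi j ∈ U then (1 : ℝ) else 0) := by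
          have : (U.card : ℝ) = ∑ a, if a ∈ U then (1 : ℝ) else 0 := by simp
          rw [this, sum_pairs, mul_sum]
          refine sum_congr rfl fun j _ => ?_
          simp only [← hp j]
          ring
        rw [hc] at h2
        push_cast at h2
        have h3 : ∑ j, (if xi j ∈ U then (1 : ℝ) else 0) = k + 1 := by linarith
        rw [h3, Nat.factorial_succ]; push_cast; ring
      · rw [if_neg (fun h => hc h.2)]
        refine sum_eq_zero fun j _ => ?_
        split_ifs with h
        · rw [ih, if_neg]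
          rintro ⟨_, h2⟩
          have := hcard j h.1 h.2
          omega
        · rfl
    · rw [if_neg (fun h => hp h.1)]
      refine sum_eq_zero fun j _ => ?_
      split_ifs with h
      · rw [ih, if_neg]
        rintro ⟨h2, _⟩
        apply hp
        intro i
        by_cases hij : i = j
        · subst hij; exact ⟨fun _ => h.2, fun _ => h.1⟩
        · have h3 := h2 i
          rw [hmem, hmem] at h3
          constructor
          · intro hx
            exact (h3.mp ⟨fun h => xi_ne_yi _ _ h, fun h => hij (xi_inj h), hx⟩).2.2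
          · intro hy
            exact (h3.mpr ⟨fun h => hij (yi_inj h), fun h => xi_ne_yi _ _ h.symm, hy⟩).2.2
      · rfl

lemma Lop_pow_five_one : (Lop ^ 5 : Module.End ℝ E) 1 = (120 : ℝ) • mono univ := by
  ext U
  rw [co_Lop_pow_one, co_smul, co_mono]
  by_cases h : U = univ
  · subst h
    rw [if_pos, if_pos rfl]
    · simp [Nat.factorial]
    · simp
  · rw [if_neg h, if_neg, mul_zero]
    rintro ⟨_, h2⟩
    apply h
    exact eq_univ_of_card U (by simpa using h2)

lemma om_pow_five : om ^ 5 = (120 : ℝ) • mono univ := by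
  rw [← Lop_pow_five_one, Lop_pow_apply, mul_one]

lemma top_om_pow_five : top (om ^ 5) = 120 := by
  rw [om_pow_five, map_smul, top_apply, co_mono]; simp

lemma W_one : W 1 = mono univ := by
  rw [W_def, trip.wey_prim (v := (1 : E)) (m := 5) (Λop_zero one_mem_Deg)
    (by rw [Hop_eq one_mem_Deg]; norm_num) (by norm_num), Lop_pow_five_one, smul_smul]
  simp [Nat.factorial]

/-! ### The Hodge star -/

lemma star_one_eq : star 1 = mono univ := by
  ext S
  rw [co_star, one_def, co_mono, co_mono]
  by_cases h : S = univ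
  · subst h; simp [sgn_empty_left]
  · rw [if_neg h, if_neg, mul_zero]
    rwa [compl_eq_empty_iff]

lemma star_e_mul (a : Fin 10) (α : E) : star (e a * α) = io a (star (par α)) := by
  ext S
  rw [co_star, co_io, co_e_mul]
  by_cases h : a ∈ S
  · rw [if_pos h, if_neg (by rwa [mem_compl, not_not]), mul_zero]
  · rw [if_neg h, if_pos (mem_compl.mpr h), co_star, co_par]
    have e1 : (insert a S)ᶜ = Sᶜ.erase a := by
      ext x; simp only [mem_compl, mem_insert, mem_erase, not_or]
    rw [e1]
    set V := Sᶜ.erase a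
    have haV : a ∉ V := notMem_erase _ _
    have e2 : Sᶜ = insert a V := (insert_erase (mem_compl.mpr h)).symm
    rw [e2, sgn_insert_left _ haV, sgn_insert_right _ h,
      sgn_eq_sgn (disjoint_singleton_left.mpr haV : Disjoint {a} V), card_singleton, one_mul]
    ring

/-- the sign `(-1) ^ (k (k + 1) / 2)` in degree `k` -/
def eps : E →ₗ[ℝ] E where
  toFun α := mk (fun S => (-1) ^ (S.card * (S.card + 1) / 2) * co α S)
  map_add' α β := by ext S; simp only [co_mk, co_add]; ring
  map_smul' c α := by ext S; simp only [co_mk, co_smul, RingHom.id_apply]; ring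

lemma co_eps (α : E) (S) : co (eps α) S = (-1) ^ (S.card * (S.card + 1) / 2) * co α S := rfl

lemma eps_eq {k : ℕ} {α : E} (h : α ∈ Deg k) : eps α = (-1 : ℝ) ^ (k * (k + 1) / 2) • α := by
  ext S
  rw [co_eps, co_smul]
  by_cases h1 : S.card = k
  · rw [h1]
  · rw [h S h1]; ring

lemma eps_par (α : E) : eps (par α) = par (eps α) := by
  ext S; rw [co_eps, co_par, co_par, co_eps]; ring

lemma eps_e_mul (a : Fin 10) (α : E) : eps (e a * α) = -(e a * eps (par α)) := by
  ext U
  rw [co_eps, co_neg, co_e_mul, co_e_mul, co_eps, co_par]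
  split_ifs with h
  · have h1 : U.card = (U.erase a).card + 1 := (card_erase_add_one h).symm
    rw [h1]
    set k := (U.erase a).card
    have h2 : (k + 1) * (k + 1 + 1) / 2 = k * (k + 1) / 2 + (k + 1) := by
      have : (k + 1) * (k + 1 + 1) = k * (k + 1) + 2 * (k + 1) := by ring
      rw [this, Nat.add_mul_div_left _ _ (by norm_num)]
    rw [h2, pow_add, pow_succ]
    ring
  · ring

lemma JW_e_mul (a : Fin 10) (α : E) : J (W (e a * α)) = -(io a (J (W α))) := by
  rw [W_e_mul, map_smul, J_io, smul_smul, js_mul_js, sw_sw, neg_one_smul]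

/-- The Hodge star through the Weyl element, all degrees. -/
theorem star_eq (α : E) : star α = J (W (eps α)) := by
  refine (mono_induction (P := fun α => star α = J (W (eps α)) ∧
    star (par α) = J (W (eps (par α)))) ?_ ?_ ?_ ?_ α).1
  · have h1 : eps 1 = 1 := by rw [eps_eq one_mem_Deg]; simp
    have h2 : J (mono univ) = mono univ := by
      rw [← star_one_eq]
      ext S
      rw [co_J, star_one_eq, co_mono, co_mono]
      by_cases h : S = univ
      · subst h
        have h2 : ny univ = 0 := by simp [ny]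
        rw [image_sw_univ, h2]; simp
      · rw [if_neg h, if_neg, mul_zero]
        intro h'
        apply h
        rw [← image_sw_sw S, h', image_sw_univ]
    rw [par_one, h1, W_one, star_one_eq, h2]
    exact ⟨rfl, rfl⟩
  · rintro a α ⟨h1, h2⟩
    constructor
    · rw [star_e_mul, eps_e_mul, map_neg, map_neg, JW_e_mul, neg_neg, h2]
    · rw [par_e_mul, map_neg, map_neg, map_neg, map_neg, star_e_mul, par_par, h1, eps_e_mul,
        par_par, map_neg, map_neg, JW_e_mul, neg_neg]
  · rintro α β ⟨h1, h2⟩ ⟨h3, h4⟩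
    simp only [map_add, h1, h2, h3, h4, and_self]
  · rintro c α ⟨h1, h2⟩
    simp only [map_smul, h1, h2, and_self]

/-- The Hodge star through the Weyl element, in degree `k`. -/
theorem star_eq_wey {k : ℕ} {α : E} (h : α ∈ Deg k) : star α =
    (-1 : ℝ) ^ (k * (k + 1) / 2) • J (wey 6 (Lop : Module.End ℝ E) (Λop : Module.End ℝ E) α) := by
  rw [star_eq, eps_eq h, map_smul, map_smul, W_def]

theorem star_star (α : E) : star (star α) = par α := by
  ext S
  rw [co_star, co_star, co_par, compl_compl, ← mul_assoc,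
    sgn_mul_sgn (disjoint_compl_left : Disjoint Sᶜ S)]
  congr 1
  have h : Sᶜ.card = 10 - S.card := by rw [card_compl, Fintype.card_fin]
  have h2 : S.card ≤ 10 := by simpa using card_le_univ S
  rw [h]
  interval_cases S.card <;> norm_num

lemma star_star_deg {k : ℕ} {α : E} (h : α ∈ Deg k) : star (star α) = (-1 : ℝ) ^ k • α := by
  rw [star_star, par_eq h]

lemma star_mem {k l : ℕ} (hkl : k + l = 10) {α : E} (h : α ∈ Deg k) : star α ∈ Deg l := by
  intro S hS
  rw [co_star, h, mul_zero]
  have h1 : Sᶜ.card = 10 - S.card := by rw [card_compl, Fintype.card_fin]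
  have h2 : S.card ≤ 10 := by simpa using card_le_univ S
  omega

theorem inner_star_star (α β : E) : inner ℝ (star α) (star β) = inner ℝ α β := by
  rw [inner_eq, inner_eq]
  refine sum_bij' (fun S _ => Sᶜ) (fun S _ => Sᶜ) (fun _ _ => mem_univ _) (fun _ _ => mem_univ _)
    (fun S _ => compl_compl S) (fun S _ => compl_compl S) ?_
  intro S _
  rw [co_star, co_star]
  have := sgn_sq Sᶜ S
  linear_combination (co α Sᶜ * co β Sᶜ) * this

lemma norm_star (α : E) : ‖star α‖ = ‖α‖ := by
  rw [← sq_eq_sq₀ (norm_nonneg _) (norm_nonneg _), ← real_inner_self_eq_norm_sq,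
    ← real_inner_self_eq_norm_sq, inner_star_star]

lemma star_par (α : E) : star (par α) = par (star α) := by
  rw [← star_star, ← star_star]

/-- The adjoint of the star. -/
lemma inner_star (α β : E) : inner ℝ (star α) β = inner ℝ α (star (par β)) := by
  rw [← inner_star_star α (star (par β)), star_star, par_par]

lemma top_mul_comm_deg {k l : ℕ} {α β : E} (ha : α ∈ Deg k) (hb : β ∈ Deg l) :
    top (α * β) = (-1 : ℝ) ^ (k * l) * top (β * α) := by
  rw [mul_comm_deg ha hb, map_smul, smul_eq_mul]

lemma J_W (α : E) : J (W α) = W (J α) := by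
  have h1 : (Lop : Module.End ℝ E) * J = J * Lop := LinearMap.ext fun α => (J_Lop α).symm
  have h2 : (Λop : Module.End ℝ E) * J = J * Λop := LinearMap.ext fun α => (J_Λop α).symm
  have h3 : (-Λop : Module.End ℝ E) * J = J * (-Λop) := by
    rw [neg_mul, h2, mul_neg]
  have h4 : (W : Module.End ℝ E) * J = J * W := by
    rw [W_def]
    unfold wey
    rw [mul_assoc, nexp_commute h1, mul_assoc, ← mul_assoc _ J, nexp_commute h3, mul_assoc,
      ← mul_assoc _ J, nexp_commute h1, mul_assoc, mul_assoc]
  exact (LinearMap.congr_fun h4 α).symm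

lemma J_eps (α : E) : J (eps α) = eps (J α) := by
  ext S
  rw [co_J, co_eps, co_eps, card_image_sw, co_J]; ring

theorem star_J (α : E) : star (J α) = J (star α) := by
  rw [star_eq, star_eq, ← J_eps, ← J_W]

lemma eq_zero_of_top {α : E} (h : ∀ β, top (β * α) = 0) : α = 0 := by
  have h1 : star (star (par α)) = α := by rw [star_star, par_par]
  have h2 : star (par α) = 0 := by
    have := h (star (par α))
    rw [← h1] at this
    rw [h1] at this
    have h3 : top (star (par α) * star (star (par α))) = 0 := by rw [h1]; exact this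
    rw [top_mul_star] at h3
    exact inner_self_eq_zero.mp h3
  rw [← h1, h2, map_zero]

end EH
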