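import Pool.Agent.Work.MP_9eee85_co.EH.GCut
import Pool.Agent.Work.MP_9eee85_co.EH.GComp
import Pool.Agent.Work.MP_9eee85_co.EH.DX
import Pool.Agent.Work.MP_9eee85_co.EH.JStar

/-!
# The core, part A: the two weak hypotheses in scalar form

If `v` is orthogonal to `star dG star α` for all test forms then `d (G v) = 0` weakly, and if `v` is
orthogonal to all `dG α` then `d (G (star v)) = 0` weakly, both tested with scalar functions.
-/

set_option linter.unusedSectionVars false

noncomputable section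

namespace EH

open MeasureTheory Filter Topology Set EHPos
open scoped ContDiff

/-! ### Algebra -/

lemma top_par (α : E) : top (par α) = top α := by
  rw [top_apply, co_par, top_apply, Finset.card_univ, Fintype.card_fin]
  norm_num

/-- `par` as an algebra homomorphism -/
def parA : E →ₐ[ℝ] E := AlgHom.ofLinearMap par par_one par_mul

lemma ext_par (A : RV →ₗ[ℝ] RV) (α : E) : ext A (par α) = par (ext A α) := by
  have h : (ext A).comp parA = parA.comp (ext A) := by
    apply algHom_ext
    intro v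
    change ext A (par (gen v)) = par (ext A (gen v))
    rw [ext_gen, par_eq (gen_mem_Deg v), par_eq (gen_mem_Deg (A v)), map_smul, ext_gen]
  exact congrArg (fun f => f α) h

lemma mul_e (γ : E) (a : Fin 10) : γ * e a = e a * par γ := by
  have h : LinearMap.mulRight ℝ (e a) = LinearMap.mulLeft ℝ (e a) ∘ₗ par := by
    have key : ∀ S, mono S * e a = e a * par (mono S) := by
      intro S
      rw [par_eq (mono_mem_Deg S), mul_smul_comm]
      exact e_mul_of_Deg (mono_mem_Deg S) a
    ext1 γ
    rw [← sum_mono γ, map_sum, map_sum]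
    refine Finset.sum_congr rfl fun S _ => ?_
    rw [map_smul, map_smul]
    congr 1
    exact key S
  exact LinearMap.congr_fun h γ

lemma mul_cov (γ : E) (l : Bs →L[ℝ] ℝ) : γ * cov l = cov l * par γ := by
  rw [cov, Finset.mul_sum, Finset.sum_mul]
  refine Finset.sum_congr rfl fun a _ => ?_
  rw [mul_smul_comm, mul_e, smul_mul_assoc]

lemma inner_star_right (α β : E) : inner ℝ α (star β) = top (par α * β) := by
  rw [← top_mul_star, star_star, ← top_par, par_mul, par_par]

lemma co_eq_top (u : E) (S : Finset (Fin 10)) : co u S = top (u * star (mono S)) := by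
  rw [top_mul_star, inner_eq, Finset.sum_eq_single S]
  · simp
  · intro T _ hT; simp [hT]
  · intro h; exact absurd (Finset.mem_univ S) h

lemma top_star_mono_mul (u : E) (S : Finset (Fin 10)) :
    top (star (mono S) * u) = (-1) ^ S.card * co u S := by
  have h : u = star (star (par u)) := by rw [star_star, par_par]
  conv_lhs => rw [h]
  rw [top_mul_star, inner_star_star, inner_eq, Finset.sum_eq_single S]
  · simp
  · intro T _ hT; simp [hT]
  · intro h; exact absurd (Finset.mem_univ S) h

section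

variable {X : Type} [TopologicalSpace X] {π : X → Bs} {hπ : IsLocalHomeomorph π}

lemma Gauge.Gi_par {w : X → E} (g : Gauge hπ w) (x : X) (a : E) :
    g.Gi x (par a) = par (g.Gi x a) := by
  rw [g.Gi_ext, g.Gi_ext, ext_par]

lemma Gauge.G_par {w : X → E} (g : Gauge hπ w) (x : X) (a : E) :
    g.G x (par a) = par (g.G x a) := by
  rw [g.G_ext, g.G_ext, ext_par]

lemma Gauge.Gi_mul_right {w : X → E} (g : Gauge hπ w) (x : X) (a b : E) :
    a * g.Gi x b = g.Gi x (g.G x a * b) := by
  rw [g.Gi_mul, g.Gi_G]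

lemma Gauge.Gi_mul_left {w : X → E} (g : Gauge hπ w) (x : X) (a b : E) :
    g.Gi x a * b = g.Gi x (a * g.G x b) := by
  rw [g.Gi_mul, g.Gi_G]

lemma int_eq_zero_of_co [MeasurableSpace X] {μ : Measure X} {f : X → E}
    (h : ∀ S, ∫ x, co (f x) S ∂μ = 0) : ∫ x, f x ∂μ = 0 := by
  by_cases hf : Integrable f μ
  · ext S
    have h1 := (coB S).integral_comp_comm hf
    rw [← coB_apply, ← h1, co_zero]
    exact h S
  · exact integral_undef hf

variable [T2Space X] [SecondCountableTopology X] [MeasurableSpace X] [BorelSpace X]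
  {ν : Measure X}

lemma tst_smul {φ : X → ℝ} (hφ : LSm hπ ⊤ φ) (hc : HasCompactSupport φ) (T : X → E)
    (hT : LSm hπ ⊤ T) : (fun y => φ y • T y) ∈ Tst hπ :=
  ⟨hφ.smul hπ hT, hc.smul_right⟩

/-- the derivative in the gauge of `Gi (φ γ)` -/
lemma Gauge.dG_Gi_smul {w : X → E} (g : Gauge hπ w) {φ : X → ℝ} (hφ : LSm hπ ⊤ φ) (γ : E) (x : X) :
    g.dG (fun y => g.Gi y (φ y • γ)) x = g.Gi x (cov (LD hπ φ x) * γ) := by
  rw [Gauge.dG]
  congr 1
  have h1 : (fun y => g.G y (g.Gi y (φ y • γ))) = fun y => φ y • γ := by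
    funext y; rw [g.G_Gi]
  rw [h1, dX_smul hπ (hφ.mono hπ le_top) (LSm.const hπ 1 γ), dX_const, smul_zero, add_zero]

lemma Gauge.Gi_smul_mem {w : X → E} (g : Gauge hπ w) {φ : X → ℝ} (hφ : LSm hπ ⊤ φ)
    (hc : HasCompactSupport φ) (γ : E) : (fun y => g.Gi y (φ y • γ)) ∈ Tst hπ := by
  refine ⟨g.sm_Gi (hφ.smul hπ (LSm.const hπ ⊤ γ)), ?_⟩
  refine hc.mono fun y hy => ?_
  intro h0
  apply hy
  simp only at h0 ⊢
  rw [h0, zero_smul, map_zero]

/-- weak closedness of `G v` -/
theorem Gauge.weak_one {w : X → E} (g : Gauge hπ w) {v : X → E}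
    (h2 : ∀ α ∈ Tst hπ, ∫ x, inner ℝ (v x) (star (g.dG (fun y => star (α y)) x)) ∂(g.mu ν) = 0)
    {φ : X → ℝ} (hφ : LSm hπ ⊤ φ) (hc : HasCompactSupport φ) :
    ∫ x, cov (LD hπ φ x) * g.G x (v x) ∂ν = 0 := by
  apply int_eq_zero_of_co
  intro S
  have hmem := g.Gi_smul_mem hφ hc (star (mono S))
  have hst : (fun y => par (star (g.Gi y (φ y • star (mono S))))) ∈ Tst hπ := by
    refine ⟨(hmem.1.linear hπ star).linear hπ par, ?_⟩
    refine hmem.2.mono fun y hy => ?_
    intro h0
    apply hy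
    simp only at h0 ⊢
    rw [h0, map_zero, map_zero]
  have h := h2 _ hst
  have e1 : (fun y => star (par (star (g.Gi y (φ y • star (mono S)))))) =
      fun y => g.Gi y (φ y • star (mono S)) := by
    funext y
    rw [star_par, star_star, par_par]
  rw [e1] at h
  have e2 : ∫ x, co (cov (LD hπ φ x) * g.G x (v x)) S ∂ν =
      ∫ x, top ((cov (LD hπ φ x) * g.G x (v x)) * star (mono S)) ∂ν := by
    simp only [co_eq_top]
  rw [← h, e2, ← g.integral_top]
  refine integral_congr_ae (Eventually.of_forall fun x => ?_)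
  simp only
  rw [g.dG_Gi_smul hφ, inner_star_right, g.Gi_mul_right, g.G_par, ← mul_assoc, mul_cov, par_par]

/-- weak closedness of `G (star v)` -/
theorem Gauge.weak_two {w : X → E} (g : Gauge hπ w) {v : X → E}
    (h1 : ∀ α ∈ Tst hπ, ∫ x, inner ℝ (v x) (g.dG α x) ∂(g.mu ν) = 0)
    {φ : X → ℝ} (hφ : LSm hπ ⊤ φ) (hc : HasCompactSupport φ) :
    ∫ x, cov (LD hπ φ x) * g.G x (star (v x)) ∂ν = 0 := by
  apply int_eq_zero_of_co
  intro S
  have hmem := g.Gi_smul_mem hφ hc (par (star (mono S)))
  have h := h1 _ hmem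
  have e2 : ∫ x, co (cov (LD hπ φ x) * g.G x (star (v x))) S ∂ν =
      ∫ x, (-1) ^ S.card * top (star (mono S) * (cov (LD hπ φ x) * g.G x (star (v x)))) ∂ν := by
    refine integral_congr_ae (Eventually.of_forall fun x => ?_)
    simp only
    rw [top_star_mono_mul, ← mul_assoc, ← mul_pow]
    norm_num
  rw [e2, integral_const_mul, ← g.integral_top]
  have e3 : ∫ x, top (g.Gi x (star (mono S) * (cov (LD hπ φ x) * g.G x (star (v x))))) ∂(g.mu ν) =
      ∫ x, inner ℝ (v x) (g.dG (fun y => g.Gi y (φ y • par (star (mono S)))) x) ∂(g.mu ν) := by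
    refine integral_congr_ae (Eventually.of_forall fun x => ?_)
    simp only
    rw [g.dG_Gi_smul hφ, real_inner_comm, ← top_mul_star, g.Gi_mul_left, ← mul_cov, mul_assoc]
  rw [e3, h, mul_zero]

end

end EH
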