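import Pool.Agent.Work.MP_9eee85_co.EH.LCalc
import Pool.Agent.Work.MP_9eee85_co.EH.ConstX

/-!
# Cutoffs, partitions of unity and integration by parts on `X`

`π : X → V` a local homeomorphism, `V` finite dimensional, `X` Hausdorff.

* `exists_bump`, `exists_cutoff`, `exists_smooth_partition`, `exists_decomp`;
* `ext0`: a function with compact support in a chart, read on `V`;
* `integrable_of_compact`: continuous functions with compact support are integrable for the lifted
  measure; `integral_LD_eq_zero`, `integral_bilin_LD`, `integral_smul_LD`, `integral_mul_LD`.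
-/

set_option linter.unusedSectionVars false

noncomputable section

namespace EH

open MeasureTheory Filter Topology Set Metric
open scoped ContDiff

section Cut

variable {V : Type*} [NormedAddCommGroup V] [NormedSpace ℝ V] [FiniteDimensional ℝ V]
variable {X : Type*} [TopologicalSpace X] [T2Space X] {π : X → V} (hπ : IsLocalHomeomorph π)
variable {W : Type*} [NormedAddCommGroup W] [NormedSpace ℝ W]

/-- A smooth bump at `x`, supported in a given neighbourhood and in the chart at `x`. -/
theorem exists_bump (x : X) {O : Set X} (hO : O ∈ 𝓝 x) :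
    ∃ β : X → ℝ, LSm hπ ⊤ β ∧ HasCompactSupport β ∧ tsupport β ⊆ O ∧
      tsupport β ⊆ (lchart hπ x).source ∧ (∀ y, 0 ≤ β y) ∧ (∀ y, β y ≤ 1) ∧
      ∀ᶠ y in 𝓝 x, β y = 1 := by
  classical
  set φ := lchart hπ x with hφdef
  have hφ : ⇑φ = π := lchart_eq hπ x
  have hxs : x ∈ φ.source := mem_lchart hπ x
  obtain ⟨O', hO'O, hO'o, hxO'⟩ := mem_nhds_iff.mp hO
  -- the image of the neighbourhood
  have hopen : IsOpen (φ.target ∩ φ.symm ⁻¹' O') := φ.isOpen_inter_preimage_symm hO'o
  have hmem : π x ∈ φ.target ∩ φ.symm ⁻¹' O' := by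
    refine ⟨by rw [← hφ]; exact φ.map_source hxs, ?_⟩
    rw [mem_preimage, ← hφ, φ.left_inv hxs]; exact hxO'
  obtain ⟨r, hr, hrs⟩ := Metric.isOpen_iff.mp hopen _ hmem
  let f : ContDiffBump (π x) := ⟨r / 4, r / 2, by positivity, by linarith⟩
  have hfs : tsupport f ⊆ φ.target ∩ φ.symm ⁻¹' O' := by
    rw [f.tsupport_eq]
    refine (closedBall_subset_ball ?_).trans hrs
    show r / 2 < r
    linarith
  set K : Set X := φ.symm '' tsupport f with hK
  have hKc : IsCompact K := f.hasCompactSupport.isCompact.image_of_continuousOn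
    (φ.continuousOn_symm.mono fun y hy => (hfs hy).1)
  have hKs : K ⊆ φ.source := by
    rintro _ ⟨y, hy, rfl⟩
    exact φ.map_target (hfs hy).1
  have hKO : K ⊆ O := by
    rintro _ ⟨y, hy, rfl⟩
    exact hO'O (hfs hy).2
  set β : X → ℝ := fun y => if y ∈ φ.source then f (φ y) else 0 with hβ
  have h0 : ∀ y, y ∉ K → β y = 0 := by
    intro y hy
    simp only [hβ]
    split_ifs with h
    · by_contra hne
      exact hy ⟨φ y, subset_tsupport _ hne, φ.left_inv h⟩
    · rfl
  have htK : tsupport β ⊆ K := by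
    refine closure_minimal ?_ hKc.isClosed
    intro y hy
    by_contra hcon
    exact hy (h0 y hcon)
  refine ⟨β, fun y => ?_, HasCompactSupport.intro hKc h0, htK.trans hKO, htK.trans hKs, ?_, ?_, ?_⟩
  · by_cases hy : y ∈ φ.source
    · have h1 : (β ∘ lsec hπ y) =ᶠ[𝓝 (π y)] f := by
        filter_upwards [eventually_lsec hπ (φ.open_source.mem_nhds hy),
          pi_lsec hπ y] with v h1 h2
        have h1' : lsec hπ y v ∈ φ.source := h1
        simp only [Function.comp_apply, hβ]
        rw [if_pos h1', hφ, h2]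
      exact (f.contDiff.contDiffAt).congr_of_eventuallyEq h1
    · have hy' : y ∉ K := fun h => hy (hKs h)
      have h1 : (β ∘ lsec hπ y) =ᶠ[𝓝 (π y)] fun _ => (0 : ℝ) := by
        filter_upwards [eventually_lsec hπ (hKc.isClosed.isOpen_compl.mem_nhds hy')] with v hv
        exact h0 _ hv
      exact ContDiffAt.congr_of_eventuallyEq contDiffAt_const h1
  · intro y
    simp only [hβ]
    split_ifs
    · exact f.nonneg
    · exact le_rfl
  · intro y
    simp only [hβ]
    split_ifs
    · exact f.le_one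
    · exact zero_le_one
  · have h1 : ∀ᶠ v in 𝓝 (π x), f v = 1 := f.eventuallyEq_one
    filter_upwards [φ.open_source.mem_nhds hxs, hπ.continuous.continuousAt.eventually h1]
      with y hy hy1
    simp only [hβ]
    rw [if_pos hy, hφ]
    exact hy1

lemma LSm.one_sub {n : ℕ∞} {f : X → ℝ} (hf : LSm hπ n f) : LSm hπ n (fun x => 1 - f x) :=
  (LSm.const hπ n (1 : ℝ)).sub hπ hf

lemma LSm.prod_fun {n : ℕ∞} {ι : Type*} {s : Finset ι} {f : ι → X → ℝ}
    (hf : ∀ i ∈ s, LSm hπ n (f i)) : LSm hπ n (fun x => ∏ i ∈ s, f i x) := by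
  classical
  induction s using Finset.induction_on with
  | empty =>
    simp only [Finset.prod_empty]
    exact LSm.const hπ n 1
  | insert i s hi ih =>
    simp only [Finset.prod_insert hi]
    exact (hf i (Finset.mem_insert_self i s)).mul hπ
      (ih fun j hj => hf j (Finset.mem_insert_of_mem hj))

/-- **Partition of unity** near a compact set, subordinate to the charts and to given
neighbourhoods. -/
theorem exists_smooth_partition {K : Set X} (hK : IsCompact K) (U : X → Set X)
    (hU : ∀ x ∈ K, U x ∈ 𝓝 x) :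
    ∃ (n : ℕ) (c : Fin n → X) (ψ : Fin n → X → ℝ),
      (∀ i, c i ∈ K) ∧ (∀ i, LSm hπ ⊤ (ψ i)) ∧ (∀ i, HasCompactSupport (ψ i)) ∧
      (∀ i, tsupport (ψ i) ⊆ U (c i)) ∧ (∀ i, tsupport (ψ i) ⊆ (lchart hπ (c i)).source) ∧
      (∀ i y, 0 ≤ ψ i y) ∧ (∀ y, ∑ i, ψ i y ≤ 1) ∧
      ∃ N : Set X, IsOpen N ∧ K ⊆ N ∧ ∀ y ∈ N, ∑ i, ψ i y = 1 := by
  classical
  choose! β hβ1 hβ2 hβ3 hβ4 hβ5 hβ6 hβ7 using fun (x : X) (hx : x ∈ K) =>
    exists_bump hπ x (hU x hx)
  obtain ⟨t, htK, htc⟩ := hK.elim_nhds_subcover (fun x => {y | β x y = 1} )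
    (fun x hx => hβ7 x hx)
  -- use the interiors
  obtain ⟨t, htK, htc⟩ := hK.elim_nhds_subcover (fun x => interior {y | β x y = 1})
    (fun x hx => interior_mem_nhds.mpr (hβ7 x hx))
  set n := t.card
  let e : Fin n ≃ t := (Finset.equivFin t).symm
  let c : Fin n → X := fun i => (e i : X)
  have hc : ∀ i, c i ∈ K := fun i => htK _ (e i).2
  have hprod : ∀ i : Fin n, ∀ y, 0 ≤ ∏ j ∈ Finset.univ.filter (fun j => j < i), (1 - β (c j) y) :=
    fun i y => Finset.prod_nonneg fun j _ => sub_nonneg.mpr (hβ6 _ (hc j) y)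
  have hsum : ∀ y, ∑ i : Fin n, β (c i) y *
      ∏ j ∈ Finset.univ.filter (fun j => j < i), (1 - β (c j) y) = 1 - ∏ i, (1 - β (c i) y) := by
    intro y
    have h := Finset.prod_one_sub_ordered (Finset.univ : Finset (Fin n)) (fun i => β (c i) y)
    rw [h]; ring
  refine ⟨n, c, fun i y => β (c i) y *
    ∏ j ∈ Finset.univ.filter (fun j => j < i), (1 - β (c j) y), hc, ?_, ?_, ?_, ?_, ?_, ?_, ?_⟩
  · intro i
    exact (hβ1 _ (hc i)).mul hπ (LSm.prod_fun hπ fun j _ => (hβ1 _ (hc j)).one_sub hπ)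
  · intro i
    exact (hβ2 _ (hc i)).mul_right
  · intro i
    exact (tsupport_mul_subset_left).trans (hβ3 _ (hc i))
  · intro i
    exact (tsupport_mul_subset_left).trans (hβ4 _ (hc i))
  · intro i y
    exact mul_nonneg (hβ5 _ (hc i) y) (hprod i y)
  · intro y
    rw [hsum y]
    have : 0 ≤ ∏ i, (1 - β (c i) y) :=
      Finset.prod_nonneg fun j _ => sub_nonneg.mpr (hβ6 _ (hc j) y)
    linarith
  · refine ⟨⋃ x ∈ t, interior {y | β x y = 1}, isOpen_biUnion fun x _ => isOpen_interior,
      htc, ?_⟩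
    intro y hy
    rw [hsum y]
    simp only [mem_iUnion] at hy
    obtain ⟨x, hx, hy⟩ := hy
    have h1 : β x y = 1 := by
      have : y ∈ {y | β x y = 1} := interior_subset hy
      exact this
    have h2 : ∏ i : Fin n, (1 - β (c i) y) = 0 := by
      refine Finset.prod_eq_zero (Finset.mem_univ (e.symm ⟨x, hx⟩)) ?_
      have : c (e.symm ⟨x, hx⟩) = x := by
        show ((e (e.symm ⟨x, hx⟩) : t) : X) = x
        rw [Equiv.apply_symm_apply]
      rw [this, h1]; ring
    rw [h2]; ring

/-- **Cutoff**: `χ = 1` near `K`, support in `O`. -/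
theorem exists_cutoff {K O : Set X} (hK : IsCompact K) (hO : IsOpen O) (hKO : K ⊆ O) :
    ∃ χ : X → ℝ, LSm hπ ⊤ χ ∧ HasCompactSupport χ ∧ tsupport χ ⊆ O ∧ (∀ y, 0 ≤ χ y) ∧
      (∀ y, χ y ≤ 1) ∧ ∃ N : Set X, IsOpen N ∧ K ⊆ N ∧ ∀ y ∈ N, χ y = 1 := by
  obtain ⟨n, c, ψ, hc, h1, h2, h3, h4, h5, h6, N, hN, hKN, hN1⟩ :=
    exists_smooth_partition hπ hK (fun _ => O) (fun x hx => hO.mem_nhds (hKO hx))
  have hcomp : IsCompact (⋃ i, tsupport (ψ i)) := isCompact_iUnion fun i => h2 i
  have h0 : ∀ y, y ∉ ⋃ i, tsupport (ψ i) → ∑ i, ψ i y = 0 := by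
    intro y hy
    refine Finset.sum_eq_zero fun i _ => image_eq_zero_of_notMem_tsupport fun h => hy ?_
    exact mem_iUnion.mpr ⟨i, h⟩
  refine ⟨fun y => ∑ i, ψ i y, LSm.sum hπ fun i _ => h1 i, HasCompactSupport.intro hcomp h0, ?_,
    fun y => Finset.sum_nonneg fun i _ => h5 i y, h6, N, hN, hKN, hN1⟩
  refine (closure_minimal ?_ hcomp.isClosed).trans (iUnion_subset h3)
  intro y hy
  by_contra hcon
  exact hy (h0 y hcon)

/-- Decomposition of a function with compact support in pieces supported in charts. -/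
theorem exists_decomp {K : Set X} (hK : IsCompact K) :
    ∃ (n : ℕ) (c : Fin n → X) (ψ : Fin n → X → ℝ), (∀ i, LSm hπ ⊤ (ψ i)) ∧
      (∀ i, HasCompactSupport (ψ i)) ∧ (∀ i, tsupport (ψ i) ⊆ (lchart hπ (c i)).source) ∧
      (∀ i y, 0 ≤ ψ i y) ∧ (∀ y, ∑ i, ψ i y ≤ 1) ∧
      ∀ (F : X → W), tsupport F ⊆ K → ∀ y, F y = ∑ i, ψ i y • F y := by
  obtain ⟨n, c, ψ, hc, h1, h2, h3, h4, h5, h6, N, hN, hKN, hN1⟩ :=
    exists_smooth_partition hπ hK (fun _ => univ) (fun x _ => univ_mem)
  refine ⟨n, c, ψ, h1, h2, h4, h5, h6, fun F hF y => ?_⟩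
  rw [← Finset.sum_smul]
  by_cases hy : y ∈ tsupport F
  · rw [hN1 y (hKN (hF hy)), one_smul]
  · rw [image_eq_zero_of_notMem_tsupport hy, smul_zero]

/-! ### Functions supported in a chart, read on `V` -/

/-- The function on `V` corresponding to a function supported in the chart at `c`. -/
def ext0 (c : X) (g : X → W) (v : V) : W :=
  open Classical in if v ∈ (lchart hπ c).target then g (lsec hπ c v) else 0

lemma ext0_of_mem {c : X} {g : X → W} {v : V} (hv : v ∈ (lchart hπ c).target) :
    ext0 hπ c g v = g (lsec hπ c v) := by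
  rw [ext0, if_pos hv]

lemma ext0_eventually {c : X} {g : X → W} {v : V} (hv : v ∈ (lchart hπ c).target) :
    ext0 hπ c g =ᶠ[𝓝 v] g ∘ lsec hπ c := by
  filter_upwards [(lchart hπ c).open_target.mem_nhds hv] with w hw using ext0_of_mem hπ hw

include hπ in
/-- the image of the support -/
lemma isCompact_image_tsupport {g : X → W} (hg : HasCompactSupport g) :
    IsCompact (π '' tsupport g) := hg.isCompact.image hπ.continuous

lemma ext0_eq_zero {c : X} {g : X → W} {v : V} (hv : v ∉ π '' tsupport g) :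
    ext0 hπ c g v = 0 := by
  rw [ext0]
  split_ifs with h
  · by_contra hne
    exact hv ⟨lsec hπ c v, subset_tsupport _ hne, pi_lsec_of_mem hπ h⟩
  · rfl

lemma image_subset_target {c : X} {g : X → W} (hs : tsupport g ⊆ (lchart hπ c).source) :
    π '' tsupport g ⊆ (lchart hπ c).target := by
  rintro _ ⟨x, hx, rfl⟩
  have := (lchart hπ c).map_source (hs hx)
  rwa [lchart_eq] at this

lemma ext0_hasCompactSupport {c : X} {g : X → W} (hg : HasCompactSupport g) :
    HasCompactSupport (ext0 hπ c g) :=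
  HasCompactSupport.intro (isCompact_image_tsupport hπ hg) fun _ hv => ext0_eq_zero hπ hv

lemma ext0_eventually_zero {c : X} {g : X → W} (hg : HasCompactSupport g)
    {v : V} (hv : v ∉ π '' tsupport g) : ext0 hπ c g =ᶠ[𝓝 v] fun _ => 0 := by
  filter_upwards [(isCompact_image_tsupport hπ hg).isClosed.isOpen_compl.mem_nhds hv]
    with w hw using ext0_eq_zero hπ hw

lemma ext0_contDiff {n : ℕ∞} {c : X} {g : X → W} (h : LSm hπ n g) (hg : HasCompactSupport g)
    (hs : tsupport g ⊆ (lchart hπ c).source) : ContDiff ℝ n (ext0 hπ c g) := by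
  rw [contDiff_iff_contDiffAt]
  intro v
  by_cases hv : v ∈ (lchart hπ c).target
  · exact (h.contDiffAt_of_mem hπ hv).congr_of_eventuallyEq (ext0_eventually hπ hv)
  · have hv' : v ∉ π '' tsupport g := fun h => hv (image_subset_target hπ hs h)
    exact contDiffAt_const.congr_of_eventuallyEq (ext0_eventually_zero hπ hg hv')

lemma continuous_ext0 {c : X} {g : X → W} (h : Continuous g) (hg : HasCompactSupport g)
    (hs : tsupport g ⊆ (lchart hπ c).source) : Continuous (ext0 hπ c g) := by
  rw [continuous_iff_continuousAt]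
  intro v
  by_cases hv : v ∈ (lchart hπ c).target
  · have h1 : ContinuousAt (g ∘ lsec hπ c) v :=
      h.continuousAt.comp (continuousAt_lsec_of_mem hπ hv)
    exact h1.congr (ext0_eventually hπ hv).symm
  · have hv' : v ∉ π '' tsupport g := fun h => hv (image_subset_target hπ hs h)
    exact continuousAt_const.congr (ext0_eventually_zero hπ hg hv').symm

lemma fderiv_ext0 {c : X} {g : X → W} {v : V} (hv : v ∈ (lchart hπ c).target) :
    fderiv ℝ (ext0 hπ c g) v = LD hπ g (lsec hπ c v) := by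
  rw [(ext0_eventually hπ hv).fderiv_eq, LD_of_mem hπ hv]

/-- `ext0` of a derivative. -/
lemma fderiv_ext0_eq {c : X} {g : X → W} (hg : HasCompactSupport g)
    (hs : tsupport g ⊆ (lchart hπ c).source) :
    fderiv ℝ (ext0 hπ c g) = ext0 hπ c (LD hπ g) := by
  funext v
  by_cases hv : v ∈ (lchart hπ c).target
  · rw [fderiv_ext0 hπ hv, ext0_of_mem hπ hv]
  · have hv' : v ∉ π '' tsupport g := fun h => hv (image_subset_target hπ hs h)
    rw [(ext0_eventually_zero hπ hg hv').fderiv_eq, ext0, if_neg hv]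
    simp

end Cut

section Int

variable {V : Type*} [NormedAddCommGroup V] [NormedSpace ℝ V] [FiniteDimensional ℝ V]
variable {X : Type*} [TopologicalSpace X] [T2Space X] {π : X → V} (hπ : IsLocalHomeomorph π)
variable {W : Type*} [NormedAddCommGroup W] [NormedSpace ℝ W]
variable {W₁ : Type*} [NormedAddCommGroup W₁] [NormedSpace ℝ W₁]
variable {W₂ : Type*} [NormedAddCommGroup W₂] [NormedSpace ℝ W₂]
variable [MeasurableSpace V] [BorelSpace V] [MeasurableSpace X] [BorelSpace X]
variable {μ : Measure V} {ν : Measure X}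

/-- Transfer of the integral of a function supported in a chart. -/
lemma integral_ext0 (hν : IsLift π μ ν) {c : X} {g : X → W}
    (hs : tsupport g ⊆ (lchart hπ c).source) : ∫ x, g x ∂ν = ∫ v, ext0 hπ c g v ∂μ := by
  have h1 : ∫ x, g x ∂ν = ∫ x in (lchart hπ c).source, g x ∂ν := by
    rw [setIntegral_eq_integral_of_forall_compl_eq_zero]
    intro x hx
    exact image_eq_zero_of_notMem_tsupport fun h => hx (hs h)
  rw [h1, setIntegral_chart hν hπ.continuous (lchart hπ c) (lchart_eq hπ c) g]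
  have h2 : ∫ v, ext0 hπ c g v ∂μ = ∫ v in (lchart hπ c).target, ext0 hπ c g v ∂μ := by
    rw [setIntegral_eq_integral_of_forall_compl_eq_zero]
    intro v hv
    rw [ext0, if_neg hv]
  rw [h2]
  refine setIntegral_congr_fun (lchart hπ c).open_target.measurableSet fun v hv => ?_
  rw [ext0_of_mem hπ hv]; rfl

lemma integrable_ext0 (hν : IsLift π μ ν) {c : X} {g : X → W}
    (hs : tsupport g ⊆ (lchart hπ c).source) (hi : Integrable (ext0 hπ c g) μ) :
    Integrable g ν := by
  have h1 : IntegrableOn g (lchart hπ c).source ν := by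
    rw [integrableOn_chart hν hπ.continuous (lchart hπ c) (lchart_eq hπ c) g]
    refine (hi.integrableOn (s := (lchart hπ c).target)).congr_fun ?_
      (lchart hπ c).open_target.measurableSet
    intro v hv
    rw [ext0_of_mem hπ hv]; rfl
  refine (integrableOn_iff_integrable_of_support_subset ?_).mp h1
  exact (subset_tsupport g).trans hs

include hπ

/-- Continuous functions with compact support are integrable for the lifted measure. -/
theorem integrable_of_compact [IsFiniteMeasureOnCompacts μ] (hν : IsLift π μ ν) {f : X → W}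
    (hf : Continuous f) (hc : HasCompactSupport f) : Integrable f ν := by
  obtain ⟨n, c, ψ, h1, h2, h3, h4, h5, h6⟩ := exists_decomp hπ (W := W) hc.isCompact
  have h7 : f = fun y => ∑ i, ψ i y • f y := funext fun y => h6 f subset_rfl y
  rw [h7]
  refine integrable_finsetSum _ fun i _ => ?_
  have hcont : Continuous fun y => ψ i y • f y := ((h1 i).continuous hπ).smul hf
  have hcs : HasCompactSupport fun y => ψ i y • f y := (h2 i).smul_right
  have hss : tsupport (fun y => ψ i y • f y) ⊆ (lchart hπ (c i)).source :=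
    (tsupport_smul_subset_left (ψ i) f).trans (h3 i)
  exact integrable_ext0 hπ hν hss ((continuous_ext0 hπ hcont hcs hss).integrable_of_hasCompactSupport
    (ext0_hasCompactSupport hπ hcs))

/-- The lifted measure is finite on compact sets. -/
theorem isFiniteMeasureOnCompacts_lift [IsFiniteMeasureOnCompacts μ] (hν : IsLift π μ ν) :
    IsFiniteMeasureOnCompacts ν := by
  constructor
  intro K hK
  obtain ⟨χ, h1, h2, h3, h4, h5, N, hN, hKN, hN1⟩ :=
    exists_cutoff hπ hK isOpen_univ (subset_univ K)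
  have hi : Integrable χ ν := integrable_of_compact hπ hν (h1.continuous hπ) h2
  have h6 : ν K ≤ ∫⁻ x, ‖χ x‖ₑ ∂ν := by
    calc ν K = ∫⁻ x in K, 1 ∂ν := by simp
      _ ≤ ∫⁻ x in K, ‖χ x‖ₑ ∂ν := by
        refine setLIntegral_mono' hK.measurableSet fun x hx => ?_
        rw [hN1 x (hKN hx)]; simp
      _ ≤ ∫⁻ x, ‖χ x‖ₑ ∂ν := setLIntegral_le_lintegral _ _
  exact h6.trans_lt hi.2

variable [μ.IsAddHaarMeasure]

omit hπ in
lemma integral_fderiv_zero {G : V → W} (hG : ContDiff ℝ 1 G) (hc : HasCompactSupport G) (v : V) :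
    ∫ y, fderiv ℝ G y v ∂μ = 0 := by
  have hd : Continuous fun y => fderiv ℝ G y v := (hG.continuous_fderiv (by norm_num)).clm_apply
    continuous_const
  have hdc : HasCompactSupport fun y => fderiv ℝ G y v := hc.fderiv_apply ℝ v
  have h := integral_bilinear_hasFDerivAt_right_eq_neg_left_of_integrable (μ := μ) (f := G)
    (f' := fderiv ℝ G) (g := fun _ : V => (1 : ℝ)) (g' := fun _ => 0) (v := v)
    (B := (ContinuousLinearMap.lsmul ℝ ℝ (E := W)).flip)
    (by simpa using hd.integrable_of_hasCompactSupport hdc) (by simp)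
    (by simpa using hG.continuous.integrable_of_hasCompactSupport hc)
    (fun x _ => (hG.differentiable (by norm_num) x).hasFDerivAt)
    (fun x _ => hasFDerivAt_const _ _)
  have h2 : (0 : W) = -∫ y, fderiv ℝ G y v ∂μ := by simpa using h
  rw [← neg_neg (∫ y, fderiv ℝ G y v ∂μ), ← h2, neg_zero]

/-- **Stokes**: the integral of a derivative of a `C^1` function with compact support. -/
theorem integral_LD_eq_zero (hν : IsLift π μ ν) {f : X → W} (hf : LSm hπ 1 f)
    (hc : HasCompactSupport f) (v : V) : ∫ x, LD hπ f x v ∂ν = 0 := by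
  obtain ⟨n, c, ψ, h1, h2, h3, h4, h5, h6⟩ := exists_decomp hπ (W := W) hc.isCompact
  have h7 : f = fun y => ∑ i, ψ i y • f y := funext fun y => h6 f subset_rfl y
  have hsm : ∀ i, LSm hπ 1 fun y => ψ i y • f y := fun i =>
    ((h1 i).mono hπ le_top).smul hπ hf
  have hcs : ∀ i, HasCompactSupport fun y => ψ i y • f y := fun i => (h2 i).smul_right
  have hss : ∀ i, tsupport (fun y => ψ i y • f y) ⊆ (lchart hπ (c i)).source := fun i =>
    (tsupport_smul_subset_left (ψ i) f).trans (h3 i)
  have h8 : ∀ x, LD hπ f x v = ∑ i, LD hπ (fun y => ψ i y • f y) x v := by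
    intro x
    conv_lhs => rw [h7]
    rw [LD_sum hπ fun i _ => hsm i]
    simp
  have h9 : ∀ i, HasCompactSupport fun x => LD hπ (fun y => ψ i y • f y) x v := fun i =>
    (hasCompactSupport_LD hπ (hcs i)).comp_left (g := fun T : V →L[ℝ] W => T v) (by simp)
  have h10 : ∀ i, Continuous fun x => LD hπ (fun y => ψ i y • f y) x v := fun i =>
    ((hsm i).LD_apply hπ (m := 0) (by norm_num) v).continuous hπ
  simp_rw [h8]
  rw [integral_finsetSum _ fun i _ => integrable_of_compact hπ hν (h10 i) (h9 i)]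
  refine Finset.sum_eq_zero fun i _ => ?_
  have h11 : tsupport (fun x => LD hπ (fun y => ψ i y • f y) x v) ⊆ (lchart hπ (c i)).source := by
    refine (closure_minimal ?_ (isClosed_tsupport _)).trans (hss i)
    intro x hx
    by_contra hcon
    exact hx (by show LD hπ (fun y => ψ i y • f y) x v = 0; rw [LD_eq_zero_of_notMem hπ hcon]; rfl)
  rw [integral_ext0 hπ hν h11]
  have h12 : ext0 hπ (c i) (fun x => LD hπ (fun y => ψ i y • f y) x v) =
      fun y => fderiv ℝ (ext0 hπ (c i) fun y => ψ i y • f y) y v := by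
    funext y
    rw [fderiv_ext0_eq hπ (hcs i) (hss i)]
    unfold ext0
    split_ifs <;> rfl
  rw [h12]
  exact integral_fderiv_zero (ext0_contDiff hπ (hsm i) (hcs i) (hss i))
    (ext0_hasCompactSupport hπ (hcs i)) v

/-- **Integration by parts** on `X`, bilinear version; one of the functions has compact support. -/
theorem integral_bilin_LD (hν : IsLift π μ ν) {f : X → W} {g : X → W₁} (hf : LSm hπ 1 f)
    (hg : LSm hπ 1 g) (hc : HasCompactSupport f ∨ HasCompactSupport g)
    (B : W →L[ℝ] W₁ →L[ℝ] W₂) (v : V) :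
    ∫ x, B (f x) (LD hπ g x v) ∂ν = -∫ x, B (LD hπ f x v) (g x) ∂ν := by
  have hB : LSm hπ 1 fun x => B (f x) (g x) := hf.bilin hπ hg B
  have hmono : ∀ {p : X → W} {q : X → W₁}, (∀ x, x ∉ tsupport f → p x = 0) →
      (∀ x, x ∉ tsupport g → q x = 0) → HasCompactSupport fun x => B (p x) (q x) := by
    intro p q hp hq
    rcases hc with h | h
    · exact HasCompactSupport.intro h.isCompact fun x hx => by rw [hp x hx]; simp
    · exact HasCompactSupport.intro h.isCompact fun x hx => by rw [hq x hx]; simp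
  have hcB : HasCompactSupport fun x => B (f x) (g x) :=
    hmono (fun x hx => image_eq_zero_of_notMem_tsupport hx)
      (fun x hx => image_eq_zero_of_notMem_tsupport hx)
  have h0 := integral_LD_eq_zero hπ hν hB hcB v
  simp_rw [LD_bilin hπ hf hg B _ v] at h0
  have hcf : Continuous fun x => B (LD hπ f x v) (g x) :=
    B.isBoundedBilinearMap.continuous.comp
      (((hf.LD_apply hπ (m := 0) (by norm_num) v).continuous hπ).prodMk (hg.continuous hπ))
  have hcg : Continuous fun x => B (f x) (LD hπ g x v) :=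
    B.isBoundedBilinearMap.continuous.comp
      ((hf.continuous hπ).prodMk ((hg.LD_apply hπ (m := 0) (by norm_num) v).continuous hπ))
  have hsf : HasCompactSupport fun x => B (LD hπ f x v) (g x) :=
    hmono (fun x hx => by rw [LD_eq_zero_of_notMem hπ hx]; rfl)
      (fun x hx => image_eq_zero_of_notMem_tsupport hx)
  have hsg : HasCompactSupport fun x => B (f x) (LD hπ g x v) :=
    hmono (fun x hx => image_eq_zero_of_notMem_tsupport hx)
      (fun x hx => by rw [LD_eq_zero_of_notMem hπ hx]; rfl)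
  rw [integral_add (integrable_of_compact hπ hν hcf hsf)
    (integrable_of_compact hπ hν hcg hsg)] at h0
  exact eq_neg_of_add_eq_zero_right h0

theorem integral_smul_LD (hν : IsLift π μ ν) {f : X → ℝ} {g : X → W} (hf : LSm hπ 1 f)
    (hg : LSm hπ 1 g) (hc : HasCompactSupport f ∨ HasCompactSupport g) (v : V) :
    ∫ x, f x • LD hπ g x v ∂ν = -∫ x, LD hπ f x v • g x ∂ν := by
  have h := integral_bilin_LD hπ hν hf hg hc (ContinuousLinearMap.lsmul ℝ ℝ) v
  simpa using h

theorem integral_mul_LD (hν : IsLift π μ ν) {f g : X → ℝ} (hf : LSm hπ 1 f)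
    (hg : LSm hπ 1 g) (hc : HasCompactSupport f ∨ HasCompactSupport g) (v : V) :
    ∫ x, f x * LD hπ g x v ∂ν = -∫ x, LD hπ f x v * g x ∂ν := by
  have h := integral_smul_LD hπ hν hf hg hc v
  simpa using h

end Int

end EH
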