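import Pool.Agent.Work.MP_9eee85_co.EH.CoreA
import Pool.Agent.Work.MP_9eee85_co.EH.LPart
import Pool.Agent.Work.MP_9eee85_co.EH.LMeas

/-!
# The core, part B: the measure of a gauge on compact sets, operators
-/

set_option linter.unusedSectionVars false

noncomputable section

namespace EH.Cr

open MeasureTheory Filter Topology Set EHPos
open scoped ContDiff ENNReal

variable {X : Type} [TopologicalSpace X] [T2Space X] [SecondCountableTopology X]
  [MeasurableSpace X] [BorelSpace X] {π : X → Bs} {hπ : IsLocalHomeomorph π} {ν : Measure X}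
  {w : X → E} (g : Gauge hπ w)

lemma det_cont : Continuous g.det := g.sm_det.continuous hπ

lemma dens_meas : Measurable fun x => ENNReal.ofReal (g.det x) :=
  (det_cont g).measurable.ennreal_ofReal

lemma ac : ν ≪ g.mu ν :=
  withDensity_absolutelyContinuous' (dens_meas g).aemeasurable
    (Eventually.of_forall fun x => by simpa using g.det_pos x)

lemma ac' : g.mu ν ≪ ν := withDensity_absolutelyContinuous _ _

/-- the lifted measure is bounded by the measure of the gauge on compact sets -/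
lemma restrict_le_mu {K : Set X} (hK : IsCompact K) :
    ∃ c : ℝ≥0∞, c ≠ ⊤ ∧ ν.restrict K ≤ c • g.mu ν := by
  have hKm : MeasurableSet K := hK.isClosed.measurableSet
  obtain ⟨C, hC⟩ := hK.exists_bound_of_continuousOn
    (((det_cont g).inv₀ fun x => (g.det_pos x).ne').continuousOn (s := K))
  refine ⟨ENNReal.ofReal C, ENNReal.ofReal_ne_top, ?_⟩
  rw [Measure.le_iff]
  intro s hs
  rw [Measure.restrict_apply hs, Measure.smul_apply, Gauge.mu, withDensity_apply _ hs,
    smul_eq_mul, ← lintegral_const_mul _ (dens_meas g)]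
  calc ν (s ∩ K) = ∫⁻ _ in s ∩ K, 1 ∂ν := by rw [setLIntegral_one]
    _ ≤ ∫⁻ x in s ∩ K, ENNReal.ofReal C * ENNReal.ofReal (g.det x) ∂ν := by
        refine setLIntegral_mono' (hs.inter hKm) fun x hx => ?_
        have h1 := hC x hx.2
        have h2 := g.det_pos x
        rw [Pi.inv_apply, Real.norm_of_nonneg (inv_nonneg.mpr h2.le)] at h1
        have hC0 : 0 ≤ C := le_trans (inv_nonneg.mpr h2.le) h1
        rw [← ENNReal.ofReal_mul hC0, ← ENNReal.ofReal_one]
        refine ENNReal.ofReal_le_ofReal ?_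
        rw [inv_le_iff_one_le_mul₀ h2] at h1
        exact h1
    _ ≤ ∫⁻ x in s, ENNReal.ofReal C * ENNReal.ofReal (g.det x) ∂ν :=
        lintegral_mono_set inter_subset_left

lemma mu_restrict_le {K : Set X} (hK : IsCompact K) :
    ∃ c : ℝ≥0∞, c ≠ ⊤ ∧ (g.mu ν).restrict K ≤ c • ν.restrict K := by
  have hKm : MeasurableSet K := hK.isClosed.measurableSet
  obtain ⟨C, hC⟩ := hK.exists_bound_of_continuousOn ((det_cont g).continuousOn (s := K))
  refine ⟨ENNReal.ofReal C, ENNReal.ofReal_ne_top, ?_⟩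
  rw [Measure.le_iff]
  intro s hs
  rw [Measure.restrict_apply hs, Measure.smul_apply, Gauge.mu,
    withDensity_apply _ (hs.inter hKm), Measure.restrict_apply hs, smul_eq_mul]
  calc ∫⁻ x in s ∩ K, ENNReal.ofReal (g.det x) ∂ν
      ≤ ∫⁻ _ in s ∩ K, ENNReal.ofReal C ∂ν := by
        refine setLIntegral_mono' (hs.inter hKm) fun x hx => ?_
        refine ENNReal.ofReal_le_ofReal ?_
        exact (Real.le_norm_self _).trans (hC x hx.2)
    _ = ENNReal.ofReal C * ν (s ∩ K) := by rw [setLIntegral_const]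

/-- local square integrability -/
lemma memLp_loc {v : X → E} (hv : MemLp v 2 (g.mu ν)) {K : Set X} (hK : IsCompact K) :
    MemLp v 2 (ν.restrict K) := by
  obtain ⟨c, hc, hle⟩ := restrict_le_mu (ν := ν) g hK
  exact (hv.smul_measure hc).mono_measure hle

lemma int_sq {μ : Measure X} {f : X → E} (hf : MemLp f 2 μ) :
    Integrable (fun x => ‖f x‖ ^ 2) μ := (memLp_two_iff_integrable_sq_norm hf.1).1 hf

/-- integrals over compact sets, in the two measures -/
lemma exists_int_le {K : Set X} (hK : IsCompact K) : ∃ M : ℝ, 0 ≤ M ∧ ∀ f : X → E,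
    (∀ x ∉ K, f x = 0) → MemLp f 2 (ν.restrict K) →
    ∫ x, ‖f x‖ ^ 2 ∂(g.mu ν) ≤ M * ∫ x in K, ‖f x‖ ^ 2 ∂ν := by
  obtain ⟨c, hc, hle⟩ := mu_restrict_le (ν := ν) g hK
  refine ⟨c.toReal, ENNReal.toReal_nonneg, fun f hf hm => ?_⟩
  have h1 : ∫ x, ‖f x‖ ^ 2 ∂(g.mu ν) = ∫ x in K, ‖f x‖ ^ 2 ∂(g.mu ν) := by
    rw [setIntegral_eq_integral_of_forall_compl_eq_zero]
    intro x hx
    rw [hf x hx]; simp
  rw [h1]
  have h2 := integral_mono_measure hle (Eventually.of_forall fun x => sq_nonneg ‖f x‖)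
    ((int_sq hm).smul_measure hc)
  rw [integral_smul_measure, smul_eq_mul] at h2
  exact h2

/-- a linear map as a continuous one, in coordinates -/
lemma toCLM_eq_sum (T : E →ₗ[ℝ] E) :
    LinearMap.toContinuousLinearMap T = ∑ S, (coB S).smulRight (T (mono S)) := by
  ext1 α
  conv_lhs => rw [← sum_mono α, map_sum]
  simp

/-- the frame as a smooth function with values in the operators -/
lemma sm_op {G : X → E →ₗ[ℝ] E} (h : ∀ c : E, LSm hπ ⊤ (fun x => G x c)) :
    LSm hπ ⊤ (fun x => LinearMap.toContinuousLinearMap (G x)) := by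
  simp only [toCLM_eq_sum]
  refine LSm.sum hπ fun S _ => ?_
  exact (h (mono S)).clm hπ (ContinuousLinearMap.smulRightL ℝ E E (coB S))

/-- operators bounded on compact sets -/
lemma exists_op_bound {A : X → E →L[ℝ] E} (hA : Continuous A) {K : Set X} (hK : IsCompact K) :
    ∃ B : ℝ, 0 ≤ B ∧ ∀ x ∈ K, ∀ u, ‖A x u‖ ≤ B * ‖u‖ := by
  obtain ⟨B, hB⟩ := hK.exists_bound_of_continuousOn (hA.continuousOn (s := K))
  refine ⟨max B 0, le_max_right _ _, fun x hx u => ?_⟩
  refine ((A x).le_opNorm u).trans ?_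
  gcongr
  exact (hB x hx).trans (le_max_left _ _)

lemma memLp_op_apply {A : X → E →L[ℝ] E} (hA : Continuous A) {K : Set X} (hK : IsCompact K)
    {f : X → E} (hf : MemLp f 2 (ν.restrict K)) : MemLp (fun x => A x (f x)) 2 (ν.restrict K) := by
  obtain ⟨B, hB0, hB⟩ := exists_op_bound hA hK
  have hKm : MeasurableSet K := hK.isClosed.measurableSet
  refine hf.of_le_mul (c := B) ?_ ?_
  · exact isBoundedBilinearMap_apply.continuous.comp_aestronglyMeasurable
      (hA.aestronglyMeasurable.prodMk hf.1)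
  · rw [ae_restrict_iff' hKm]
    exact Eventually.of_forall fun x hx => hB x hx _

/-- the operators `v ↦ e_a G (T v)` -/
def Aop (T : E →ₗ[ℝ] E) (a : Fin 10) (x : X) : E →L[ℝ] E :=
  (mulB (e a)) ∘L LinearMap.toContinuousLinearMap (g.G x ∘ₗ T)

lemma Aop_apply (T : E →ₗ[ℝ] E) (a : Fin 10) (x : X) (u : E) :
    Aop g T a x u = e a * g.G x (T u) := rfl

lemma sm_Aop (T : E →ₗ[ℝ] E) (a : Fin 10) : LSm hπ ⊤ (Aop g T a) := by
  have h1 : LSm hπ ⊤ (fun x => LinearMap.toContinuousLinearMap (g.G x ∘ₗ T)) :=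
    sm_op fun c => g.sm_G (LSm.const hπ ⊤ (T c))
  exact h1.clm hπ (ContinuousLinearMap.compL ℝ E E E (mulB (e a)))

/-- the divergence form is the exterior derivative -/
lemma sum_Aop (T : E →ₗ[ℝ] E) {s : X → E} (hs : LSm hπ ⊤ s) (x : X) :
    ∑ a, LD hπ (fun y => Aop g T a y (s y)) x (bv a) = dX hπ (fun y => g.G y (T (s y))) x := by
  rw [dX]
  refine Finset.sum_congr rfl fun a _ => ?_
  exact LD_const_mulE hπ (e a) ((g.sm_G (hs.linear hπ T)).mono hπ le_top) x (bv a)

lemma sum_smul_Aop (T : E →ₗ[ℝ] E) (χ : X → ℝ) (v : X → E) (x : X) :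
    ∑ a, LD hπ χ x (bv a) • Aop g T a x (v x) = cov (LD hπ χ x) * g.G x (T (v x)) := by
  rw [cov_mul]
  rfl

end EH.Cr
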