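import Pool.Agent.Work.MP_9eee85_co.EH.CoreB

/-!
# The core, part C: the final estimate, from Friedrichs' lemma on `X` (as a hypothesis)
-/

set_option linter.unusedSectionVars false

noncomputable section

namespace EH.Cr

open MeasureTheory Filter Topology Set EHPos
open scoped ContDiff ENNReal

variable {X : Type} [TopologicalSpace X] [T2Space X] [SecondCountableTopology X]
  [MeasurableSpace X] [BorelSpace X] {π : X → Bs} {hπ : IsLocalHomeomorph π} {ν : Measure X}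
  {w : X → E}

lemma memLp_tst (hν : IsLift π volume ν) (g : Gauge hπ w) {f : X → E} (hf : Continuous f)
    (hc : HasCompactSupport f) : MemLp f 2 (g.mu ν) := by
  have h1 : IsFiniteMeasureOnCompacts ν := isFiniteMeasureOnCompacts_lift hπ hν
  obtain ⟨c, hc', hle⟩ := mu_restrict_le (ν := ν) g hc.isCompact
  have h2 : MemLp f 2 ν := hf.memLp_of_hasCompactSupport hc
  have h3 : MemLp f 2 ((g.mu ν).restrict (tsupport f)) :=
    ((h2.restrict (tsupport f)).smul_measure hc').mono_measure hle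
  have h4 : MemLp ((tsupport f).indicator f) 2 (g.mu ν) :=
    (memLp_indicator_iff_restrict hc.isCompact.isClosed.measurableSet).mpr h3
  have h5 : (tsupport f).indicator f = f := by
    rw [indicator_eq_self]
    exact subset_tsupport f
  rwa [h5] at h4

/-- `‖f‖² ≤ 2 ‖f - h‖² + 2 ‖h‖²` -/
lemma int_le_two {μ : Measure X} {f h : X → E} (hf : MemLp f 2 μ) (hh : MemLp h 2 μ) :
    ∫ x, ‖f x‖ ^ 2 ∂μ ≤ 2 * ∫ x, ‖f x - h x‖ ^ 2 ∂μ + 2 * ∫ x, ‖h x‖ ^ 2 ∂μ := by
  rw [← integral_const_mul, ← integral_const_mul, ← integral_add]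
  · refine integral_mono (int_sq hf) (((int_sq (hf.sub hh)).const_mul 2).add
      ((int_sq hh).const_mul 2)) fun x => ?_
    have h1 : ‖f x‖ ≤ ‖f x - h x‖ + ‖h x‖ := by
      have := norm_add_le (f x - h x) (h x)
      rwa [sub_add_cancel] at this
    have h2 : 0 ≤ (‖f x - h x‖ - ‖h x‖) ^ 2 := sq_nonneg _
    have h3 : ‖f x‖ ^ 2 ≤ (‖f x - h x‖ + ‖h x‖) ^ 2 := pow_le_pow_left₀ (norm_nonneg _) h1 2
    simp only
    nlinarith
  · exact (int_sq (hf.sub hh)).const_mul 2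
  · exact (int_sq hh).const_mul 2

/-- the operator `Gi` -/
def GiL (g : Gauge hπ w) (x : X) : E →L[ℝ] E := LinearMap.toContinuousLinearMap (g.Gi x)

lemma GiL_cont (g : Gauge hπ w) : Continuous (GiL g) :=
  (sm_op (hπ := hπ) fun c => g.sm_Gi (LSm.const hπ ⊤ c)).continuous hπ

/-- the operator `G ∘ T` -/
def GTL (g : Gauge hπ w) (T : E →ₗ[ℝ] E) (x : X) : E →L[ℝ] E :=
  LinearMap.toContinuousLinearMap (g.G x ∘ₗ T)

lemma GTL_cont (g : Gauge hπ w) (T : E →ₗ[ℝ] E) : Continuous (GTL g T) :=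
  (sm_op (hπ := hπ) (G := fun x => g.G x ∘ₗ T)
    fun c => g.sm_G (LSm.const hπ ⊤ (T c))).continuous hπ

/-- the symbol term -/
def sym (g : Gauge hπ w) (T : E →ₗ[ℝ] E) (χ : X → ℝ) (v : X → E) (x : X) : E :=
  cov (LD hπ χ x) * g.G x (T (v x))

lemma Gi_sym (g : Gauge hπ w) (T : E →ₗ[ℝ] E) (χ : X → ℝ) (v : X → E) (x : X) :
    g.Gi x (sym g T χ v x) = g.Gi x (dfn hπ χ x) * T (v x) := by
  rw [sym, g.Gi_mul, g.Gi_G]
  rfl

lemma cov_LD_cont {χ : X → ℝ} (hχ : LSm hπ ⊤ χ) : Continuous (fun x => cov (LD hπ χ x)) := by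
  unfold cov
  refine continuous_finsetSum _ fun a _ => ?_
  exact (((hχ.LD_apply hπ (m := ⊤) le_top (bv a)).continuous hπ)).smul continuous_const

lemma memLp_Gi_sym (g : Gauge hπ w) (T : E →ₗ[ℝ] E) (hT : ∀ u, ‖T u‖ = ‖u‖) {χ : X → ℝ}
    (hχ : LSm hπ ⊤ χ) {δ : ℝ} (hδ : ∀ x, ‖g.Gi x (dfn hπ χ x)‖ ≤ δ) {C : ℝ}
    (hC0 : 0 ≤ C) (hC : ∀ α β : E, ‖α * β‖ ≤ C * ‖α‖ * ‖β‖) {v : X → E} (hv : MemLp v 2 (g.mu ν)) :
    MemLp (fun x => g.Gi x (sym g T χ v x)) 2 (g.mu ν) ∧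
      ∫ x, ‖g.Gi x (sym g T χ v x)‖ ^ 2 ∂(g.mu ν) ≤ (C * δ) ^ 2 * ∫ x, ‖v x‖ ^ 2 ∂(g.mu ν) := by
  have hb : ∀ x, ‖g.Gi x (sym g T χ v x)‖ ≤ (C * δ) * ‖v x‖ := by
    intro x
    rw [Gi_sym]
    refine (hC _ _).trans ?_
    rw [hT]
    gcongr
    exact hδ x
  have hm : AEStronglyMeasurable (fun x => g.Gi x (sym g T χ v x)) (g.mu ν) := by
    simp only [Gi_sym]
    have h1 : Continuous fun x => g.Gi x (dfn hπ χ x) := by
      have : Continuous fun x => GiL g x (dfn hπ χ x) :=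
        (GiL_cont g).clm_apply (cov_LD_cont hχ)
      exact this
    have h2 : AEStronglyMeasurable (fun x => T (v x)) (g.mu ν) :=
      (LinearMap.toContinuousLinearMap T).continuous.comp_aestronglyMeasurable hv.1
    exact mulB.aestronglyMeasurable_comp₂ h1.aestronglyMeasurable h2
  have hmem : MemLp (fun x => g.Gi x (sym g T χ v x)) 2 (g.mu ν) :=
    hv.of_le_mul hm (Eventually.of_forall hb)
  refine ⟨hmem, ?_⟩
  rw [← integral_const_mul]
  refine integral_mono (int_sq hmem) ((int_sq hv).const_mul _) fun x => ?_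
  simp only
  rw [← mul_pow]
  exact pow_le_pow_left₀ (norm_nonneg _) (hb x) 2

lemma sym_memLp (g : Gauge hπ w) (T : E →ₗ[ℝ] E) {χ : X → ℝ} (hχ : LSm hπ ⊤ χ) {v : X → E}
    (hv : MemLp v 2 (g.mu ν)) {K : Set X} (hK : IsCompact K) :
    MemLp (sym g T χ v) 2 (ν.restrict K) := by
  have h : Continuous fun x => (mulB (cov (LD hπ χ x))) ∘L GTL g T x :=
    (mulB.continuous.comp (cov_LD_cont hχ)).clm_comp (GTL_cont g T)
  exact memLp_op_apply h hK (memLp_loc g hv hK)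

lemma sym_zero (g : Gauge hπ w) (T : E →ₗ[ℝ] E) {χ : X → ℝ} (v : X → E) {x : X}
    (hx : x ∉ tsupport χ) : sym g T χ v x = 0 := by
  rw [sym, LD_eq_zero_of_notMem hπ hx]
  simp [cov]

/-- the two operators: the identity and the star -/
def Tj (j : Fin 2) : E →ₗ[ℝ] E := if j = 0 then LinearMap.id else star

lemma norm_Tj (j : Fin 2) (u : E) : ‖Tj j u‖ = ‖u‖ := by
  unfold Tj
  split_ifs
  · rfl
  · exact norm_star u

lemma sm_dXG (g : Gauge hπ w) (T : E →ₗ[ℝ] E) {s : X → E} (hs : LSm hπ ⊤ s) :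
    LSm hπ ⊤ (dX hπ (fun y => g.G y (T (s y)))) :=
  (g.sm_G (hs.linear hπ T)).dX hπ le_top

lemma tsupport_dXG (g : Gauge hπ w) (T : E →ₗ[ℝ] E) (s : X → E) :
    tsupport (dX hπ (fun y => g.G y (T (s y)))) ⊆ tsupport s := by
  refine (tsupport_dX_subset hπ _).trans ?_
  refine closure_mono fun x hx => ?_
  intro h0
  apply hx
  simp only at h0 ⊢
  rw [h0, map_zero, map_zero]

/-- **The core, from Friedrichs' lemma.** -/
theorem core_of_fx (K : KForm hπ ν) (g : Gauge hπ K.w) {v : X → E}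
    (hv : MemLp v 2 (g.mu ν))
    (hfx : ∀ χ : X → ℝ, LSm hπ ⊤ χ → HasCompactSupport χ → ∃ K' : Set X, IsCompact K' ∧
      tsupport χ ⊆ K' ∧ ∃ s : ℕ → X → E, (∀ n, LSm hπ ⊤ (s n) ∧ tsupport (s n) ⊆ K') ∧
      Tendsto (fun n => ∫ x in K', ‖s n x - χ x • v x‖ ^ 2 ∂ν) atTop (𝓝 0) ∧
      ∀ j : Fin 2, Tendsto (fun n => ∫ x in K',
        ‖dX hπ (fun y => g.G y (Tj j (s n y))) x - sym g (Tj j) χ v x‖ ^ 2 ∂ν) atTop (𝓝 0))
    {ε : ℝ} (hε : 0 < ε) :
    ∃ s ∈ Tst hπ, ∫ x, ‖s x - v x‖ ^ 2 ∂(g.mu ν) < ε ∧ ∫ x, ‖g.dG s x‖ ^ 2 ∂(g.mu ν) < ε ∧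
      ∫ x, ‖star (g.dG (fun y => star (s y)) x)‖ ^ 2 ∂(g.mu ν) < ε := by
  obtain ⟨C, hC0, hC⟩ := exists_norm_mul_le
  obtain ⟨χ, c1, c2, c3, c4, c5, c6⟩ := K.exists_cutoffs g
  set N := ∫ x, ‖v x‖ ^ 2 ∂(g.mu ν) with hN
  have hχv : ∀ m, MemLp (fun x => χ m x • v x) 2 (g.mu ν) := by
    intro m
    refine hv.of_le_mul (c := 1) (((c1 m).continuous hπ).aestronglyMeasurable.smul hv.1)
      (Eventually.of_forall fun x => ?_)
    rw [norm_smul, Real.norm_of_nonneg (c3 m x)]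
    exact mul_le_mul_of_nonneg_right (c4 m x) (norm_nonneg _)
  have T1 : Tendsto (fun m => ∫ x, ‖χ m x • v x - v x‖ ^ 2 ∂(g.mu ν)) atTop (𝓝 0) := by
    have h0 : (0 : ℝ) = ∫ _, (0 : ℝ) ∂(g.mu ν) := by simp
    rw [h0]
    refine tendsto_integral_of_dominated_convergence (fun x => ‖v x‖ ^ 2)
      (fun m => (int_sq ((hχv m).sub hv)).1) (int_sq hv)
      (fun m => Eventually.of_forall fun x => ?_) (Eventually.of_forall fun x => ?_)
    · rw [Real.norm_of_nonneg (sq_nonneg _)]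
      refine pow_le_pow_left₀ (norm_nonneg _) ?_ 2
      have h1 : χ m x • v x - v x = (χ m x - 1) • v x := by rw [sub_smul, one_smul]
      rw [h1, norm_smul]
      have h2 : ‖χ m x - 1‖ ≤ 1 := by
        rw [Real.norm_eq_abs, abs_le]
        constructor
        · linarith [c3 m x]
        · linarith [c4 m x]
      calc ‖χ m x - 1‖ * ‖v x‖ ≤ 1 * ‖v x‖ := by gcongr
        _ = ‖v x‖ := one_mul _
    · refine tendsto_const_nhds.congr' ?_
      filter_upwards [c5 x] with m hm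
      rw [hm, one_smul, sub_self, norm_zero]
      norm_num
  have T2 : Tendsto (fun m : ℕ => (C * (1 / ((m : ℝ) + 1))) ^ 2 * N) atTop (𝓝 0) := by
    have h1 := ((tendsto_one_div_add_atTop_nhds_zero_nat (𝕜 := ℝ)).const_mul C).pow 2
    have h2 := h1.mul_const N
    simpa using h2
  obtain ⟨m, hm1, hm2⟩ := ((T1.eventually_lt_const (by positivity : (0:ℝ) < ε / 4)).and
    (T2.eventually_lt_const (by positivity : (0:ℝ) < ε / 4))).exists
  obtain ⟨K', hK', hsub, s, hs, hs1, hs2⟩ := hfx (χ m) (c1 m) (c2 m)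
  obtain ⟨M, hM0, hM⟩ := exists_int_le (ν := ν) g hK'
  obtain ⟨B, hB0, hB⟩ := exists_op_bound (GiL_cont g) hK'
  have hK'm : MeasurableSet K' := hK'.isClosed.measurableSet
  have hfin : IsFiniteMeasureOnCompacts ν := isFiniteMeasureOnCompacts_lift hπ K.lift
  have hsc : ∀ n, HasCompactSupport (s n) := fun n =>
    hK'.of_isClosed_subset (isClosed_tsupport _) (hs n).2
  have hsm : ∀ n, MemLp (s n) 2 (g.mu ν) := fun n =>
    memLp_tst K.lift g ((hs n).1.continuous hπ) (hsc n)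
  have s_out : ∀ n, ∀ x ∉ K', s n x = 0 := fun n x hx =>
    image_eq_zero_of_notMem_tsupport fun h => hx ((hs n).2 h)
  -- the three errors
  have F0 : Tendsto (fun n => ∫ x, ‖s n x - χ m x • v x‖ ^ 2 ∂(g.mu ν)) atTop (𝓝 0) := by
    have h1 := hs1.const_mul M
    rw [mul_zero] at h1
    refine squeeze_zero (fun n => integral_nonneg fun x => sq_nonneg _) (fun n => ?_) h1
    refine hM (fun x => s n x - χ m x • v x) (fun x hx => ?_) ?_
    · have h2 : χ m x = 0 := image_eq_zero_of_notMem_tsupport fun h => hx (hsub h)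
      rw [s_out n x hx, h2, zero_smul, sub_zero]
    · exact memLp_loc g ((hsm n).sub (hχv m)) hK'
  have P1 : ∀ n (j : Fin 2),
      HasCompactSupport (dX hπ (fun y => g.G y (Tj j (s n y)))) := fun n j =>
    (hsc n).of_isClosed_subset (isClosed_tsupport _) (tsupport_dXG g (Tj j) (s n))
  have P2 : ∀ n (j : Fin 2),
      Continuous (dX hπ (fun y => g.G y (Tj j (s n y)))) := fun n j =>
    (sm_dXG g (Tj j) (hs n).1).continuous hπ
  have P3 : ∀ n (j : Fin 2), MemLp (fun x => dX hπ (fun y => g.G y (Tj j (s n y))) x -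
      sym g (Tj j) (χ m) v x) 2 (ν.restrict K') := by
    intro n j
    have h1 : MemLp (dX hπ (fun y => g.G y (Tj j (s n y)))) 2 ν :=
      (P2 n j).memLp_of_hasCompactSupport (P1 n j)
    exact (h1.restrict K').sub (sym_memLp g (Tj j) (c1 m) hv hK')
  have P4 : ∀ n (j : Fin 2), MemLp (fun x => g.Gi x (dX hπ (fun y => g.G y (Tj j (s n y))) x))
      2 (g.mu ν) := by
    intro n j
    refine memLp_tst K.lift g ((GiL_cont g).clm_apply (P2 n j)) ((P1 n j).mono fun x hx => ?_)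
    intro h0
    apply hx
    simp only at h0 ⊢
    rw [h0, map_zero]
  have P5 := fun j : Fin 2 => memLp_Gi_sym g (Tj j) (norm_Tj j) (c1 m) (c6 m) hC0.le hC hv
  have F1 : ∀ j : Fin 2, Tendsto (fun n => ∫ x, ‖g.Gi x (dX hπ (fun y => g.G y (Tj j (s n y))) x) -
      g.Gi x (sym g (Tj j) (χ m) v x)‖ ^ 2 ∂(g.mu ν)) atTop (𝓝 0) := by
    intro j
    have h1 := ((hs2 j).const_mul (B ^ 2)).const_mul M
    rw [mul_zero, mul_zero] at h1
    refine squeeze_zero (fun n => integral_nonneg fun x => sq_nonneg _) (fun n => ?_) h1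
    have h2 := hM (fun x => g.Gi x (dX hπ (fun y => g.G y (Tj j (s n y))) x) -
      g.Gi x (sym g (Tj j) (χ m) v x)) (fun x hx => ?_)
      (memLp_loc g ((P4 n j).sub (P5 j).1) hK')
    · refine h2.trans (mul_le_mul_of_nonneg_left ?_ hM0)
      rw [← integral_const_mul]
      refine integral_mono_ae (int_sq (memLp_loc g ((P4 n j).sub (P5 j).1) hK'))
        ((int_sq (P3 n j)).const_mul _) ?_
      rw [EventuallyLE, ae_restrict_iff' hK'm]
      refine Eventually.of_forall fun x hx => ?_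
      rw [← map_sub, ← mul_pow]
      exact pow_le_pow_left₀ (norm_nonneg _) (hB x hx _) 2
    · rw [sym_zero g (Tj j) v (fun h => hx (hsub h)), map_zero, sub_zero,
        image_eq_zero_of_notMem_tsupport (fun h => hx ((hs n).2 (tsupport_dXG g (Tj j) (s n) h))),
        map_zero]
  obtain ⟨n, ⟨hn0, hn1⟩, hn2⟩ := ((F0.eventually_lt_const (by positivity : (0:ℝ) < ε / 4)).and
    ((F1 0).eventually_lt_const (by positivity : (0:ℝ) < ε / 4))).and
    ((F1 1).eventually_lt_const (by positivity : (0:ℝ) < ε / 4)) |>.exists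
  have key : ∀ j : Fin 2, (∫ x, ‖g.Gi x (dX hπ (fun y => g.G y (Tj j (s n y))) x) -
      g.Gi x (sym g (Tj j) (χ m) v x)‖ ^ 2 ∂(g.mu ν) < ε / 4) →
      ∫ x, ‖g.Gi x (dX hπ (fun y => g.G y (Tj j (s n y))) x)‖ ^ 2 ∂(g.mu ν) < ε := by
    intro j hj
    have h1 := int_le_two (P4 n j) (P5 j).1
    have h2 := (P5 j).2
    rw [← hN] at h2
    linarith
  refine ⟨s n, ⟨(hs n).1, hsc n⟩, ?_, ?_, ?_⟩
  · have h1 := int_le_two ((hsm n).sub hv) ((hχv m).sub hv)
    have h2 : ∀ x, (s n - v) x - ((fun x => χ m x • v x) - v) x = s n x - χ m x • v x := by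
      intro x
      simp only [Pi.sub_apply]
      abel
    simp only [h2] at h1
    simp only [Pi.sub_apply] at h1
    linarith
  · have h1 := key 0 hn1
    exact h1
  · have h1 := key 1 hn2
    have h2 : ∀ x, ‖star (g.dG (fun y => star (s n y)) x)‖ =
        ‖g.Gi x (dX hπ (fun y => g.G y (Tj 1 (s n y))) x)‖ := by
      intro x
      rw [norm_star]
      rfl
    simp only [h2]
    exact h1

end EH.Cr
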