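import Pool.Agent.Work.MP_9eee85_co.EH.CoreC

/-!
# The core, part D: the weak hypotheses of Friedrichs' lemma
-/

set_option linter.unusedSectionVars false

noncomputable section

namespace EH.Cr

open MeasureTheory Filter Topology Set EHPos
open scoped ContDiff ENNReal

variable {X : Type} [TopologicalSpace X] [T2Space X] [SecondCountableTopology X]
  [MeasurableSpace X] [BorelSpace X] {π : X → Bs} {hπ : IsLocalHomeomorph π} {ν : Measure X}
  {w : X → E}

lemma integrable_term (hν : IsLift π volume ν) (g : Gauge hπ w) (T : E →ₗ[ℝ] E) {v : X → E}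
    (hv : MemLp v 2 (g.mu ν)) {φ : X → ℝ} (hφ : LSm hπ ⊤ φ) (hc : HasCompactSupport φ)
    (a : Fin 10) :
    Integrable (fun x => (LD hπ φ x (bv a)) • Aop g T a x (v x)) ν := by
  have hfin : IsFiniteMeasureOnCompacts ν := isFiniteMeasureOnCompacts_lift hπ hν
  have hK : IsCompact (tsupport φ) := hc.isCompact
  have h1 : Continuous fun x => (LD hπ φ x (bv a)) • Aop g T a x :=
    ((hφ.LD_apply hπ (m := ⊤) le_top (bv a)).continuous hπ).smul ((sm_Aop g T a).continuous hπ)
  have h2 := memLp_op_apply h1 hK (memLp_loc g hv hK)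
  have h3 : IsFiniteMeasure (ν.restrict (tsupport φ)) :=
    ⟨by rw [Measure.restrict_apply_univ]; exact hK.measure_lt_top⟩
  have h4 : IntegrableOn (fun x => (LD hπ φ x (bv a)) • Aop g T a x (v x)) (tsupport φ) ν :=
    h2.integrable (by norm_num)
  refine (integrableOn_iff_integrable_of_support_subset ?_).mp h4
  intro x hx
  by_contra hcon
  apply hx
  simp only
  rw [LD_eq_zero_of_notMem hπ hcon]
  simp

/-- the weak hypotheses in divergence form -/
theorem weak_sum (hν : IsLift π volume ν) (g : Gauge hπ w) {v : X → E}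
    (hv : MemLp v 2 (g.mu ν))
    (h1 : ∀ α ∈ Tst hπ, ∫ x, inner ℝ (v x) (g.dG α x) ∂(g.mu ν) = 0)
    (h2 : ∀ α ∈ Tst hπ, ∫ x, inner ℝ (v x) (star (g.dG (fun y => star (α y)) x)) ∂(g.mu ν) = 0)
    (j : Fin 2) {φ : X → ℝ} (hφ : LSm hπ ⊤ φ) (hc : HasCompactSupport φ) :
    ∑ a, ∫ x, (LD hπ φ x (bv a)) • Aop g (Tj j) a x (v x) ∂ν = 0 := by
  rw [← integral_finsetSum _ fun a _ => integrable_term hν g (Tj j) hv hφ hc a]
  simp only [sum_smul_Aop]
  fin_cases j
  · exact g.weak_one h2 hφ hc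
  · exact g.weak_two h1 hφ hc

end EH.Cr
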