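import Mathlib

/-!
Exterior derivative of functions with values in a normed algebra `A` in which the real covectors
act by elements `e α` of square zero (`A` = operators on the exterior algebra, or the exterior
algebra itself): `dx e F x = ∑ k, e (coord k) * D_k F x`.

* `dx_smul`, `dx_e_mul`, `dx_comm_mul`: product rules;
* `dx_e_fderiv`: `d d φ = 0` for real `φ` of class `C²`.
-/

namespace EH

open scoped ContDiff Topology
open Module

section

variable {V : Type*} [NormedAddCommGroup V] [NormedSpace ℝ V] [FiniteDimensional ℝ V]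
variable {A : Type*} [NormedRing A] [NormedAlgebra ℝ A]

/-- the continuous coordinates of a basis of a finite dimensional space -/
noncomputable def crd {κ : Type*} [Fintype κ] (b : Basis κ ℝ V) (k : κ) : V →L[ℝ] ℝ :=
  (b.coord k).toContinuousLinearMap

lemma crd_apply {κ : Type*} [Fintype κ] (b : Basis κ ℝ V) (k : κ) (v : V) :
    crd b k v = b.repr v k := rfl

lemma sum_crd {κ : Type*} [Fintype κ] (b : Basis κ ℝ V) {W : Type*} [NormedAddCommGroup W]
    [NormedSpace ℝ W] (T : V →L[ℝ] W) : ∑ k, (crd b k).smulRight (T (b k)) = T := by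
  ext v
  simp only [sum_apply, ContinuousLinearMap.smulRight_apply, crd_apply]
  conv_rhs => rw [← b.sum_repr v, map_sum]
  simp

/-- the principal symbol of the exterior derivative: `L ↦ ∑ k, e (coord k) * L (b k)` -/
noncomputable def sy (e : (V →L[ℝ] ℝ) →L[ℝ] A) {κ : Type*} [Fintype κ] (b : Basis κ ℝ V)
    (T : V →L[ℝ] A) : A := ∑ k, e (crd b k) * T (b k)

variable (e : (V →L[ℝ] ℝ) →L[ℝ] A) {κ : Type*} [Fintype κ] (b : Basis κ ℝ V)

lemma sy_add (S T : V →L[ℝ] A) : sy e b (S + T) = sy e b S + sy e b T := by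
  simp [sy, mul_add, Finset.sum_add_distrib]

lemma sy_smul (c : ℝ) (T : V →L[ℝ] A) : sy e b (c • T) = c • sy e b T := by
  simp [sy, Finset.smul_sum]

lemma sy_zero : sy e b (0 : V →L[ℝ] A) = 0 := by simp [sy]

lemma sy_sum {ι : Type*} (s : Finset ι) (T : ι → V →L[ℝ] A) :
    sy e b (∑ i ∈ s, T i) = ∑ i ∈ s, sy e b (T i) := by
  classical
  induction s using Finset.induction_on with
  | empty => simp [sy_zero]
  | insert i s hi ih => rw [Finset.sum_insert hi, Finset.sum_insert hi, sy_add, ih]

lemma sy_smulRight (α : V →L[ℝ] ℝ) (a : A) : sy e b (α.smulRight a) = e α * a := by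
  have h : α = ∑ k, α (b k) • crd b k := by
    have := sum_crd b α
    conv_lhs => rw [← this]
    refine Finset.sum_congr rfl fun k _ => ?_
    ext v
    simp [mul_comm]
  conv_rhs => rw [h]
  simp [sy, map_sum, Finset.sum_mul]

/-- the exterior derivative -/
noncomputable def dx (F : V → A) (x : V) : A := sy e b (fderiv ℝ F x)

lemma dx_congr {F G : V → A} {x : V} (h : F =ᶠ[𝓝 x] G) : dx e b F x = dx e b G x := by
  rw [dx, dx, h.fderiv_eq]

lemma dx_add {F G : V → A} {x : V} (hF : DifferentiableAt ℝ F x) (hG : DifferentiableAt ℝ G x) :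
    dx e b (fun y => F y + G y) x = dx e b F x + dx e b G x := by
  rw [dx, dx, dx, fderiv_fun_add hF hG, sy_add]

lemma dx_sum {ι : Type*} {s : Finset ι} {F : ι → V → A} {x : V}
    (hF : ∀ i ∈ s, DifferentiableAt ℝ (F i) x) :
    dx e b (fun y => ∑ i ∈ s, F i y) x = ∑ i ∈ s, dx e b (F i) x := by
  rw [dx, fderiv_fun_sum hF, sy_sum]
  rfl

lemma dx_sub {F G : V → A} {x : V} (hF : DifferentiableAt ℝ F x) (hG : DifferentiableAt ℝ G x) :
    dx e b (fun y => F y - G y) x = dx e b F x - dx e b G x := by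
  rw [dx, dx, dx, fderiv_fun_sub hF hG, sub_eq_add_neg, sy_add, ← neg_one_smul ℝ, sy_smul,
    neg_one_smul, sub_eq_add_neg]

lemma dx_const_smul {F : V → A} {x : V} (c : ℝ) (hF : DifferentiableAt ℝ F x) :
    dx e b (fun y => c • F y) x = c • dx e b F x := by
  rw [dx, dx, fderiv_fun_const_smul hF, sy_smul]

lemma dx_smul {φ : V → ℝ} {F : V → A} {x : V} (hφ : DifferentiableAt ℝ φ x)
    (hF : DifferentiableAt ℝ F x) :
    dx e b (fun y => φ y • F y) x = e (fderiv ℝ φ x) * F x + φ x • dx e b F x := by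
  rw [dx, dx, fderiv_fun_smul hφ hF, sy_add, sy_smul, sy_smulRight, add_comm]

/-- product rule, odd factor -/
lemma dx_e_mul (he : ∀ α, e α * e α = 0) {α : V → V →L[ℝ] ℝ} {F : V → A} {x : V}
    (hα : DifferentiableAt ℝ α x) (hF : DifferentiableAt ℝ F x) :
    dx e b (fun y => e (α y) * F y) x =
      dx e b (fun y => e (α y)) x * F x - e (α x) * dx e b F x := by
  have hanti : ∀ α β, e α * e β = -(e β * e α) := by
    intro α β
    have h := he (α + β)
    rw [map_add, add_mul, mul_add, mul_add, he, he, zero_add, add_zero] at h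
    exact eq_neg_of_add_eq_zero_left h
  have h1 : DifferentiableAt ℝ (fun y => e (α y)) x := e.differentiableAt.comp x hα
  rw [dx, fderiv_fun_mul' h1 hF, sy_add]
  have h2 : sy e b (e (α x) • fderiv ℝ F x) = -(e (α x) * dx e b F x) := by
    simp only [dx, sy, Finset.mul_sum, ← Finset.sum_neg_distrib]
    refine Finset.sum_congr rfl fun k _ => ?_
    rw [smul_apply, smul_eq_mul, ← mul_assoc, hanti, neg_mul, mul_assoc]
  have h3 : sy e b (MulOpposite.op (F x) • fderiv ℝ (fun y => e (α y)) x) =
      dx e b (fun y => e (α y)) x * F x := by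
    simp only [dx, sy, Finset.sum_mul]
    refine Finset.sum_congr rfl fun k _ => ?_
    rw [smul_apply, MulOpposite.smul_eq_mul_unop, MulOpposite.unop_op,
      mul_assoc]
  rw [h2, h3]
  abel

/-- product rule, factor commuting with all covectors -/
lemma dx_comm_mul {G F : V → A} {x : V} (hc : ∀ α, e α * G x = G x * e α)
    (hG : DifferentiableAt ℝ G x) (hF : DifferentiableAt ℝ F x) :
    dx e b (fun y => G y * F y) x = dx e b G x * F x + G x * dx e b F x := by
  rw [dx, fderiv_fun_mul' hG hF, sy_add, add_comm]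
  congr 1
  · simp only [dx, sy, Finset.sum_mul]
    refine Finset.sum_congr rfl fun k _ => ?_
    rw [smul_apply, MulOpposite.smul_eq_mul_unop, MulOpposite.unop_op,
      mul_assoc]
  · simp only [dx, sy, Finset.mul_sum]
    refine Finset.sum_congr rfl fun k _ => ?_
    rw [smul_apply, smul_eq_mul, ← mul_assoc, hc, mul_assoc]

/-- `d d φ = 0` -/
lemma dx_e_fderiv (he : ∀ α, e α * e α = 0) {φ : V → ℝ} {x : V} (hφ : ContDiffAt ℝ 2 φ x) :
    dx e b (fun y => e (fderiv ℝ φ y)) x = 0 := by
  classical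
  have hanti : ∀ α β, e α * e β = -(e β * e α) := by
    intro α β
    have h := he (α + β)
    rw [map_add, add_mul, mul_add, mul_add, he, he, zero_add, add_zero] at h
    exact eq_neg_of_add_eq_zero_left h
  have hd : DifferentiableAt ℝ (fderiv ℝ φ) x :=
    (hφ.fderiv_right (m := 1) (by norm_num)).differentiableAt (by norm_num)
  have hsymm : ∀ v w, fderiv ℝ (fderiv ℝ φ) x v w = fderiv ℝ (fderiv ℝ φ) x w v := by
    intro v w
    exact (hφ.isSymmSndFDerivAt (by simp)).eq v w
  have h1 : fderiv ℝ (fun y => e (fderiv ℝ φ y)) x = e.comp (fderiv ℝ (fderiv ℝ φ) x) := by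
    exact (e.hasFDerivAt.comp x hd.hasFDerivAt).fderiv
  have h2 : ∀ k, e (fderiv ℝ (fderiv ℝ φ) x (b k)) =
      ∑ l, (fderiv ℝ (fderiv ℝ φ) x (b k) (b l)) • e (crd b l) := by
    intro k
    have h := sum_crd b (fderiv ℝ (fderiv ℝ φ) x (b k))
    have h' : fderiv ℝ (fderiv ℝ φ) x (b k) =
        ∑ l, (fderiv ℝ (fderiv ℝ φ) x (b k) (b l)) • crd b l := by
      conv_lhs => rw [← h]
      refine Finset.sum_congr rfl fun l _ => ?_
      ext v
      simp [mul_comm]
    conv_lhs => rw [h']
    simp [map_sum]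
  have key : dx e b (fun y => e (fderiv ℝ φ y)) x =
      ∑ k, ∑ l, (fderiv ℝ (fderiv ℝ φ) x (b k) (b l)) • (e (crd b k) * e (crd b l)) := by
    rw [dx, h1, sy]
    refine Finset.sum_congr rfl fun k _ => ?_
    rw [ContinuousLinearMap.comp_apply, h2, Finset.mul_sum]
    simp
  have key2 : dx e b (fun y => e (fderiv ℝ φ y)) x =
      -dx e b (fun y => e (fderiv ℝ φ y)) x := by
    conv_lhs => rw [key, Finset.sum_comm]
    rw [key, ← Finset.sum_neg_distrib]
    refine Finset.sum_congr rfl fun k _ => ?_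
    rw [← Finset.sum_neg_distrib]
    refine Finset.sum_congr rfl fun l _ => ?_
    rw [hsymm, hanti, smul_neg]
  have h3 : (2 : ℝ) • dx e b (fun y => e (fderiv ℝ φ y)) x = 0 := by
    rw [two_smul]
    conv_lhs =>
      arg 2
      rw [key2]
    simp
  exact (smul_eq_zero.mp h3).resolve_left two_ne_zero

end

end EH
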