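import Pool.Agent.Work.MP_9eee85_co.EH.DXDefs

/-!
DX1: specialisation of a parameter. If the dimension of `⟨1,X⟩^q W` is at least `(q+1) R` for all
large `q`, then `W(τ)` has dimension at least `R` for all but finitely many `τ`: otherwise, for
`s = q + c + 1` bad values, evaluation at these values embeds `⟨1,X⟩^q W` (whose elements have
degree less than `s`) in a space of dimension at most `s (R - 1)`.
-/

namespace EH.DX

open Module Submodule EurHuh

section

variable {K F : Type*} [Field K] [Field F] [Algebra K F]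

lemma evl_apply (τ : K) (p : Polynomial F) : evl K τ p = p.eval (algebraMap K F τ) := by
  simp [evl, Polynomial.aeval_def, Polynomial.eval₂_eq_eval_map]

/-- polynomials of degree at most `n`, as a `K`-subspace -/
noncomputable def dle (K : Type*) (F : Type*) [Field K] [Field F] [Algebra K F] (n : ℕ) :
    Submodule K (Polynomial F) :=
  (Polynomial.degreeLE F n).restrictScalars K

lemma mem_dle {n : ℕ} {p : Polynomial F} : p ∈ dle K F n ↔ p.natDegree ≤ n := by
  rw [dle, Submodule.restrictScalars_mem, Polynomial.mem_degreeLE, Polynomial.natDegree_le_iff_degree_le]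

lemma dle_mul (a b : ℕ) : dle K F a * dle K F b ≤ dle K F (a + b) := by
  rw [Submodule.mul_le]
  intro p hp q hq
  rw [mem_dle] at *
  exact Polynomial.natDegree_mul_le.trans (add_le_add hp hq)

lemma pen_le_dle (q : ℕ) : (span K {(1 : Polynomial F), Polynomial.X}) ^ q ≤ dle K F q := by
  induction q with
  | zero =>
    rw [pow_zero, Submodule.one_le, mem_dle]
    simp
  | succ q ih =>
    rw [pow_succ]
    refine (mul_le_mul' ih ?_).trans (dle_mul q 1)
    rw [span_le]
    rintro p (rfl | rfl)
    · rw [SetLike.mem_coe, mem_dle]; simp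
    · rw [SetLike.mem_coe, mem_dle]; simp

lemma fg_le_dle (W : Submodule K (Polynomial F)) (hW : W.FG) : ∃ c, W ≤ dle K F c := by
  obtain ⟨s, rfl⟩ := hW
  refine ⟨s.sup Polynomial.natDegree, ?_⟩
  rw [span_le]
  intro p hp
  rw [SetLike.mem_coe, mem_dle]
  exact Finset.le_sup (f := Polynomial.natDegree) hp

lemma map_evl_le (W : Submodule K (Polynomial F)) (q : ℕ) (τ : K) :
    (((span K {(1 : Polynomial F), Polynomial.X}) ^ q * W : Submodule K (Polynomial F))).map
      (evl K τ) ≤ W.map (evl K τ) := by
  let φ : Polynomial F →ₐ[K] F :=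
    (Polynomial.aeval (algebraMap K F τ) : Polynomial F →ₐ[F] F).restrictScalars K
  have hφ : evl K τ = φ.toLinearMap := rfl
  rw [hφ, Submodule.map_mul, Submodule.map_pow]
  have h1 : (span K {(1 : Polynomial F), Polynomial.X}).map φ.toLinearMap ≤ 1 := by
    rw [Submodule.map_span, span_le]
    rintro _ ⟨p, hp, rfl⟩
    rcases hp with rfl | rfl
    · rw [SetLike.mem_coe, Submodule.mem_one]
      exact ⟨1, by simp⟩
    · rw [SetLike.mem_coe, Submodule.mem_one]
      exact ⟨τ, by simp [φ]⟩
  calc (span K {(1 : Polynomial F), Polynomial.X}).map φ.toLinearMap ^ q * W.map φ.toLinearMap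
      ≤ 1 ^ q * W.map φ.toLinearMap := by gcongr
    _ = W.map φ.toLinearMap := by rw [one_pow, one_mul]

theorem specialise_aux (W : Submodule K (Polynomial F)) (hW : W.FG) (d : ℕ) (c : ℕ)
    (hc : W ≤ dle K F c) (q : ℕ) (τ : Fin (q + c + 1) → K) (hτ : Function.Injective τ)
    (hd : ∀ j, finrank K (W.map (evl K (τ j))) ≤ d) :
    finrank K ((span K {(1 : Polynomial F), Polynomial.X}) ^ q * W : Submodule K (Polynomial F)) ≤
      (q + c + 1) * d := by
  set Z : Submodule K (Polynomial F) := (span K {(1 : Polynomial F), Polynomial.X}) ^ q * W with hZ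
  have hdeg : Z ≤ dle K F (q + c) := (mul_le_mul' (pen_le_dle q) hc).trans (dle_mul q c)
  have : ∀ j, FiniteDimensional K (W.map (evl K (τ j))) := fun j =>
    Module.Finite.iff_fg.mpr (hW.map _)
  let f : Z →ₗ[K] ((j : Fin (q + c + 1)) → W.map (evl K (τ j))) :=
    LinearMap.pi fun j => ((evl K (τ j)).comp Z.subtype).codRestrict (W.map (evl K (τ j)))
      (fun z => map_evl_le W q (τ j) (Submodule.mem_map_of_mem z.2))
  have hf : Function.Injective f := by
    rw [← LinearMap.ker_eq_bot, LinearMap.ker_eq_bot']
    intro z hz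
    have h1 : ∀ j, (z : Polynomial F).eval (algebraMap K F (τ j)) = 0 := by
      intro j
      have h2 := congrArg Subtype.val (congrFun hz j)
      rw [← evl_apply]
      exact h2
    have h3 : (z : Polynomial F) = 0 := by
      refine Polynomial.eq_zero_of_natDegree_lt_card_of_eval_eq_zero _
        (f := fun j => algebraMap K F (τ j)) ?_ h1 ?_
      · exact (algebraMap K F).injective.comp hτ
      · rw [Fintype.card_fin]
        exact Nat.lt_succ_of_le (mem_dle.mp (hdeg z.2))
    exact Subtype.ext h3
  calc finrank K Z ≤ finrank K ((j : Fin (q + c + 1)) → W.map (evl K (τ j))) :=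
        LinearMap.finrank_le_finrank_of_injective hf
    _ = ∑ j : Fin (q + c + 1), finrank K (W.map (evl K (τ j))) := Module.finrank_pi_fintype K
    _ ≤ ∑ _j : Fin (q + c + 1), d := Finset.sum_le_sum fun j _ => hd j
    _ = (q + c + 1) * d := by simp

end

/-- DX1 -/
theorem specialise (K : Type*) (F : Type*) [Field K] [Field F] [Algebra K F] :
    Specialise K F := by
  intro W hW R q0 h
  by_contra hinf
  rw [← Set.Infinite] at hinf
  obtain ⟨c, hc⟩ := fg_le_dle W hW
  rcases Nat.eq_zero_or_pos R with rfl | hR
  · simp at hinf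
  set q := max q0 (c * R) with hq
  obtain ⟨t, ht, htc⟩ := hinf.exists_subset_card_eq (q + c + 1)
  let e := t.equivFin
  rw [htc] at e
  let τ : Fin (q + c + 1) → K := fun j => (e.symm j : K)
  have hτ : Function.Injective τ := fun i j hij => e.symm.injective (Subtype.ext hij)
  have hd : ∀ j, finrank K (W.map (evl K (τ j))) ≤ R - 1 := fun j => by
    have := ht (e.symm j).2
    simp only [Set.mem_ofPred_eq] at this
    change finrank K (W.map (evl K ((e.symm j : K)))) ≤ R - 1
    omega
  have h1 := specialise_aux W hW (R - 1) c hc q τ hτ hd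
  have h2 := h q (le_max_left _ _)
  have h3 : c * R ≤ q := le_max_right _ _
  have h4 := h2.trans h1
  obtain ⟨r, rfl⟩ : ∃ r, R = r + 1 := ⟨R - 1, by omega⟩
  simp only [Nat.add_sub_cancel] at h4
  nlinarith

end EH.DX
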