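import Pool.Agent.Work.MP_9eee85_co.EH.DX1

/-!
DX2: the pencil `⟨1, U(t)⟩`, `U(t) = ∑ t^j v_j` (`v_j` spanning `A i0`), over `K(t)`: the relation
`Q = X - U(Y)` has coefficient span `A i0`, so `uniform_div` and `count_formula` apply in a field
`E ⊇ F(t)`.
-/

namespace EH.DX

open Module Submodule EurHuh Polynomial

variable {K F : Type*} [Field K] [Field F] [Algebra K F]

lemma prd_map {E : Type*} [Field E] [Algebra K E] {ι : Type*} [Fintype ι] (j : F →ₐ[K] E)
    (A : ι → Submodule K F) (m : ι → ℕ) :
    prd (fun i => (A i).map j.toLinearMap) m = (prd A m).map j.toLinearMap := by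
  have h := map_prod (Submodule.mapHom j) (fun i => A i ^ m i) Finset.univ
  have h2 : ∀ S : Submodule K F, Submodule.mapHom j S = S.map j.toLinearMap := fun _ => rfl
  rw [h2] at h
  unfold prd
  rw [h]
  refine Finset.prod_congr rfl fun i _ => ?_
  rw [map_pow, h2]

lemma finrank_map_alg {E E' : Type*} [CommRing E'] [Algebra K E'] [Field E] [Algebra K E]
    (j : E' →ₐ[K] E) (hj : Function.Injective j) (S : Submodule K E') :
    finrank K (S.map j.toLinearMap) = finrank K S :=
  finrank_map_of_inj _ hj S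

lemma lift_two {E : Type*} [Field E] [Algebra F E] (G : E[X][X])
    (h : ∀ i j, (G.coeff i).coeff j ∈ Set.range (algebraMap F E)) :
    ∃ G0 : F[X][X], G0.map (mapRingHom (algebraMap F E)) = G := by
  have h1 : G ∈ Polynomial.lifts (mapRingHom (algebraMap F E)) := by
    rw [Polynomial.lifts_iff_coeff_lifts]
    intro i
    have h2 : G.coeff i ∈ Polynomial.lifts (algebraMap F E) := by
      rw [Polynomial.lifts_iff_coeff_lifts]
      exact h i
    obtain ⟨q, hq⟩ := h2
    exact ⟨q, hq⟩
  obtain ⟨G0, hG0⟩ := h1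
  exact ⟨G0, hG0⟩

section

variable {E : Type*} [Field E] [Algebra K E] [Algebra F E] [IsScalarTower K F E]

/-- the relation `X - U(Y)` -/
noncomputable def rel (U : F[X]) : F[X][X] := C X - U.map C

lemma swap_rel (U : F[X]) : Bivariate.swap (rel U) = X - C U := by
  rw [rel, map_sub, Bivariate.swap_X, Bivariate.swap_map_C]

lemma rel_ne_zero (U : F[X]) : rel U ≠ 0 := by
  intro h
  have h1 := swap_rel U
  rw [h, map_zero] at h1
  exact (X_sub_C_ne_zero U) h1.symm

lemma coeff_rel (U : F[X]) (i j : ℕ) :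
    ((rel U).coeff i).coeff j = (if j = 1 ∧ i = 0 then 1 else 0) - if j = 0 then U.coeff i else 0 := by
  rw [← coeff_swap, swap_rel, coeff_sub, coeff_sub, coeff_X, coeff_C]
  by_cases h0 : j = 0
  · subst h0
    simp
  · by_cases h1 : j = 1
    · subst h1
      by_cases hi : i = 0
      · simp [hi]
      · simp [hi, coeff_one]
    · rw [if_neg h0, if_neg (fun h => h1 h.symm), if_neg (fun h => h1 h.1), if_neg h0]
      simp

lemma cont_rel (U : F[X]) : cont K (rel U) = span K ({1} ∪ Set.range U.coeff) := by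
  apply le_antisymm
  · rw [cont, span_le]
    rintro _ ⟨i, j, rfl⟩
    rw [coeff_rel]
    refine sub_mem ?_ ?_
    · split_ifs
      · exact subset_span (by simp)
      · exact zero_mem _
    · split_ifs
      · exact subset_span (Or.inr ⟨i, rfl⟩)
      · exact zero_mem _
  · rw [span_le]
    rintro x (hx | ⟨i, rfl⟩)
    · rw [Set.mem_singleton_iff] at hx
      subst hx
      have h := coeff_mem_cont (K := K) (rel U) 0 1
      rw [coeff_rel] at h
      simpa using h
    · have h := coeff_mem_cont (K := K) (rel U) i 0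
      rw [coeff_rel] at h
      simpa using h

lemma natDegree_rel_le (U : F[X]) : (rel U).natDegree ≤ U.natDegree := by
  rw [natDegree_le_iff_coeff_eq_zero]
  intro i hi
  ext j
  rw [coeff_rel, coeff_zero, if_neg (fun h => by omega), coeff_eq_zero_of_natDegree_lt hi]
  simp

lemma evalEval_rel (U : F[X]) (c t : F) : evalEval c t (rel U) = c - U.eval t := by
  rw [rel, evalEval_sub, evalEval_C, eval_X, evalEval_map_C]

omit [Algebra F E] in
lemma swap_map (f : F →+* E) (G : F[X][X]) :
    Bivariate.swap (G.map (mapRingHom f)) = (Bivariate.swap G).map (mapRingHom f) := by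
  ext i j
  rw [coeff_swap, coeff_map, coe_mapRingHom, coeff_map, coeff_map, coe_mapRingHom, coeff_map,
    coeff_swap]

omit [Algebra F E] in
lemma rel_map (f : F →+* E) (U : F[X]) : rel (U.map f) = (rel U).map (mapRingHom f) := by
  ext i j
  rw [coeff_rel, coeff_map, coeff_map, coe_mapRingHom, coeff_map, coeff_rel]
  split_ifs <;> simp

/-- evaluation of `G` at `(U(t), t)` -/
lemma eval_two (t : E) (U : F[X]) (G : F[X][X]) :
    evalEval (aeval t U) t (G.map (mapRingHom (algebraMap F E))) =
      aeval t ((Bivariate.swap G).eval U) := by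
  let φ1 : F[X][X] →+* E :=
    ((aeval t : F[X] →ₐ[F] E).toRingHom.comp (evalRingHom U)).comp
      (Bivariate.swap (R := F)).toRingEquiv.toRingHom
  let φ2 : F[X][X] →+* E :=
    (evalEvalRingHom (aeval t U) t).comp (mapRingHom (mapRingHom (algebraMap F E)))
  have h : φ2 = φ1 := by
    apply Polynomial.ringHom_ext'
    · apply Polynomial.ringHom_ext'
      · ext a
        simp [φ1, φ2, Bivariate.swap_C_C]
      · simp [φ1, φ2, Bivariate.swap_X]
    · simp [φ1, φ2, Bivariate.swap_Y]
  exact congrArg (fun f : F[X][X] →+* E => f G) h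

theorem rel_dvd (t : E) (ht : Transcendental F t) (U : F[X]) {ι : Type*} (A : ι → Submodule K F)
    (G : E[X][X])
    (hG : ∀ i j, (G.coeff i).coeff j ∈ IntermediateField.adjoin K
      (⋃ i, (((A i).map (IsScalarTower.toAlgHom K F E).toLinearMap : Submodule K E) : Set E)))
    (h0 : evalEval (aeval t U) t G = 0) : rel (U.map (algebraMap F E)) ∣ G := by
  have h1 : IntermediateField.adjoin K
      (⋃ i, (((A i).map (IsScalarTower.toAlgHom K F E).toLinearMap : Submodule K E) : Set E)) ≤
      (IsScalarTower.toAlgHom K F E).fieldRange := by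
    rw [IntermediateField.adjoin_le_iff]
    intro x hx
    obtain ⟨i, hi⟩ := Set.mem_iUnion.mp hx
    obtain ⟨y, -, rfl⟩ := hi
    exact ⟨y, rfl⟩
  obtain ⟨G0, rfl⟩ := lift_two G (fun i j => by
    obtain ⟨y, hy⟩ := h1 (hG i j)
    exact ⟨y, hy⟩)
  rw [eval_two] at h0
  have h2 : (Bivariate.swap G0).eval U = 0 := (transcendental_iff_injective.mp ht) (by
    rw [h0, map_zero])
  obtain ⟨g, hg⟩ := dvd_iff_isRoot.mpr h2
  rw [rel_map]
  refine ⟨(Bivariate.swap g).map (mapRingHom (algebraMap F E)), ?_⟩
  rw [← Polynomial.map_mul]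
  congr 1
  have h3 := congrArg Bivariate.swap hg
  rw [Bivariate.swap_swap_apply, map_mul] at h3
  rw [h3]
  congr 1
  rw [← swap_rel, Bivariate.swap_swap_apply]

theorem countE {ι : Type*} [Fintype ι] [DecidableEq ι] (t : E) (ht : Transcendental F t)
    (A : ι → Submodule K F) (hA : Adm K A) (i0 : ι) (U : F[X])
    (hU : A i0 = span K ({1} ∪ Set.range U.coeff)) :
    ∃ l0 : ℕ, ∀ m : ι → ℕ, l0 ≤ m i0 → ∀ p q : ℕ, 1 ≤ p → U.natDegree ≤ q →
      (p + 1) * (q + 1) * finrank K (prd A (m + Pi.single i0 1)) ≤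
        finrank K ((span K {(1 : F[X]), X}) ^ q *
          ((prd A (m + Pi.single i0 1)).map (IsScalarTower.toAlgHom K F F[X]).toLinearMap *
            (span K {(1 : F[X]), U}) ^ p) : Submodule K F[X]) +
        p * (q + 1) * finrank K (prd A m) := by
  set j : F →ₐ[K] E := IsScalarTower.toAlgHom K F E with hj
  have hjinj : Function.Injective j := j.toRingHom.injective
  set A' : ι → Submodule K E := fun i => (A i).map j.toLinearMap with hA'
  have hAdm : Adm K A' := fun i => ⟨(hA i).1.map _, ⟨1, (hA i).2, by simp⟩⟩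
  set c : E := aeval t U with hc
  set Q : E[X][X] := rel (U.map (algebraMap F E)) with hQ
  have hW : A' i0 = cont K Q := by
    rw [hQ, cont_rel, hA']
    simp only
    rw [hU, Submodule.map_span]
    congr 1
    ext x
    constructor
    · rintro ⟨y, hy | ⟨i, rfl⟩, rfl⟩
      · rw [Set.mem_singleton_iff] at hy
        subst hy
        left; simp
      · right
        exact ⟨i, by rw [coeff_map]; rfl⟩
    · rintro (hx | ⟨i, rfl⟩)
      · rw [Set.mem_singleton_iff] at hx
        subst hx
        exact ⟨1, Or.inl rfl, by simp⟩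
      · exact ⟨U.coeff i, Or.inr ⟨i, rfl⟩, by rw [coeff_map]; rfl⟩
  have hQ0 : evalEval c t Q = 0 := by
    rw [hQ, evalEval_rel, hc, aeval_def, eval₂_eq_eval_map, sub_self]
  obtain ⟨l0, hl0⟩ := uniform_div A' hAdm i0 Q (rel_ne_zero _) hW c t
    (fun G hG h0 => rel_dvd t ht U A G hG h0)
  refine ⟨l0, ?_⟩
  intro m hm p q hp hq
  have hβ : (Bivariate.swap Q).natDegree = 1 := by rw [hQ, swap_rel, natDegree_X_sub_C]
  have hα : Q.natDegree ≤ U.natDegree := (natDegree_rel_le _).trans natDegree_map_le
  have h := count_formula A' hAdm i0 Q (rel_ne_zero _) hW c t hQ0 m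
    (fun G hG h0 => hl0 m hm G hG h0) p q (by rw [hβ]; exact hp) (hα.trans hq)
  have e1 : ∀ m : ι → ℕ, finrank K (prd A' m) = finrank K (prd A m) := fun m => by
    rw [hA', prd_map, finrank_map_alg j hjinj]
  rw [e1, e1, hβ] at h
  let ψ : F[X] →ₐ[K] E := (aeval t : F[X] →ₐ[F] E).restrictScalars K
  have hψ : Function.Injective ψ := transcendental_iff_injective.mp ht
  have e2 : finrank K (prd A' (m + Pi.single i0 1) * pen K c ^ p * pen K t ^ q : Submodule K E) =
      finrank K ((span K {(1 : F[X]), X}) ^ q *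
          ((prd A (m + Pi.single i0 1)).map (IsScalarTower.toAlgHom K F F[X]).toLinearMap *
            (span K {(1 : F[X]), U}) ^ p) : Submodule K F[X]) := by
    rw [← finrank_map_alg ψ hψ]
    have e3 : ((span K {(1 : F[X]), X}) ^ q *
          ((prd A (m + Pi.single i0 1)).map (IsScalarTower.toAlgHom K F F[X]).toLinearMap *
            (span K {(1 : F[X]), U}) ^ p)).map ψ.toLinearMap =
        prd A' (m + Pi.single i0 1) * pen K c ^ p * pen K t ^ q := by
      rw [Submodule.map_mul, Submodule.map_mul, Submodule.map_pow, Submodule.map_pow,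
        Submodule.map_span, Submodule.map_span, ← Submodule.map_comp, hA', prd_map, mul_comm]
      have e4 : ψ.toLinearMap ∘ₗ (IsScalarTower.toAlgHom K F F[X]).toLinearMap =
          j.toLinearMap := by
        ext x
        simp [ψ, hj]
      have e5 : (⇑ψ.toLinearMap '' {(1 : F[X]), X}) = {1, t} := by
        rw [Set.image_pair]
        simp [ψ]
      have e6 : (⇑ψ.toLinearMap '' {(1 : F[X]), U}) = {1, c} := by
        rw [Set.image_pair]
        simp [ψ, hc]
      rw [e4, e5, e6]
      rfl
    rw [e3]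
  rw [e2] at h
  have h3 : (p - 1 + 1) * (q - Q.natDegree + 1) * finrank K (prd A m) ≤
      p * (q + 1) * finrank K (prd A m) := by
    gcongr
    · omega
    · omega
  omega

end

end EH.DX
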