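import Pool.Agent.Work.MP_9eee85_co.EH.DX2

/-!
DX3: the generic pencil lemma. For a very general `u` in `A i0` the volume polynomial of
`(A, ⟨1,u⟩)` is `P + w_u * ∂P/∂w_i0`.
-/

namespace EH.DX

open Module Submodule EurHuh

variable {K F : Type*} [Field K] [Field F] [Algebra K F]

/-- the upper bound, for every `u` in `A i0` -/
theorem upper {ι : Type*} [Fintype ι] [DecidableEq ι] (A : ι → Submodule K F) (hA : Adm K A)
    (i0 : ι) (u : F) (hu : u ∈ A i0) (m : ι → ℕ) (p : ℕ) :
    finrank K (prd A (m + Pi.single i0 1) * pen K u ^ p : Submodule K F) +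
      p * finrank K (prd A m) ≤ (p + 1) * finrank K (prd A (m + Pi.single i0 1)) := by
  have hfg : ∀ m : ι → ℕ, (prd A m).FG := fun m => prd_fg (fun i => (hA i).1) _
  set B := prd A (m + Pi.single i0 1) with hB
  have hmono : finrank K (prd A m) ≤ finrank K B :=
    finrank_le_of_le (hfg _) (prd_mono hA (by intro i; simp))
  by_cases hu0 : u = 0
  · have h1 : pen K u = 1 := by
      rw [pen, hu0, Submodule.one_eq_span]
      apply le_antisymm
      · rw [span_le]
        rintro x (rfl | rfl)
        · exact subset_span rfl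
        · exact zero_mem _
      · exact span_mono (by simp)
    rw [h1, one_pow, mul_one, add_mul, one_mul, add_comm]
    gcongr
  induction p with
  | zero => rw [pow_zero, mul_one, zero_mul, add_zero, zero_add, one_mul]
  | succ p ih =>
    set S := B * pen K u ^ p with hS
    set T := B.map (LinearMap.mulLeft K (u ^ (p + 1))) with hT
    have hSfg : S.FG := (hfg _).mul ((pen_fg u).pow p)
    have hTfg : T.FG := (hfg _).map _
    have hpen : pen K u ^ (p + 1) ≤ pen K u ^ p ⊔ span K {u ^ (p + 1)} := by
      rw [pen_pow, span_le]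
      rintro _ ⟨j, rfl⟩
      by_cases hj : (j : ℕ) = p + 1
      · rw [SetLike.mem_coe]
        refine Submodule.mem_sup_right ?_
        change u ^ (j : ℕ) ∈ _
        rw [hj]
        exact subset_span rfl
      · refine Submodule.mem_sup_left ?_
        rw [pen_pow]
        exact subset_span ⟨⟨j, by omega⟩, rfl⟩
    have hle : B * pen K u ^ (p + 1) ≤ S ⊔ T := by
      refine (mul_le_mul' le_rfl hpen).trans ?_
      rw [Submodule.mul_sup]
      refine sup_le_sup le_rfl ?_
      rw [Submodule.mul_le]
      intro b hb x hx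
      obtain ⟨c, rfl⟩ := Submodule.mem_span_singleton.mp hx
      refine ⟨c • b, Submodule.smul_mem _ _ hb, ?_⟩
      rw [LinearMap.mulLeft_apply]
      simp only [Algebra.mul_smul_comm]
      rw [mul_comm]
    have hle2 : (prd A m).map (LinearMap.mulLeft K (u ^ (p + 1))) ≤ S ⊓ T := by
      refine le_inf ?_ (Submodule.map_mono (prd_mono hA (by intro i; simp)))
      rintro _ ⟨b, hb, rfl⟩
      rw [LinearMap.mulLeft_apply, pow_succ, mul_assoc, mul_comm (u ^ p)]
      refine Submodule.mul_mem_mul ?_ (Submodule.pow_mem_pow _ (mem_pen u) _)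
      rw [hB, prd_add, prd_single_one, mul_comm u]
      exact Submodule.mul_mem_mul hb hu
    have : FiniteDimensional K S := Module.Finite.iff_fg.mpr hSfg
    have : FiniteDimensional K T := Module.Finite.iff_fg.mpr hTfg
    have h1 := Submodule.finrank_sup_add_finrank_inf_eq S T
    have h2 : finrank K (B * pen K u ^ (p + 1) : Submodule K F) ≤ finrank K (S ⊔ T : Submodule K F) :=
      finrank_le_of_le (hSfg.sup hTfg) hle
    have h3 : finrank K (prd A m) ≤ finrank K (S ⊓ T : Submodule K F) := by
      rw [← finrank_map_mulLeft (pow_ne_zero (p + 1) hu0) (prd A m)]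
      exact finrank_le_of_le (fg_of_le hSfg inf_le_left) hle2
    have h4 : finrank K T = finrank K B := finrank_map_mulLeft (pow_ne_zero (p + 1) hu0) B
    have h5 : (p + 1) * finrank K (prd A m) = p * finrank K (prd A m) + finrank K (prd A m) := by
      ring
    have h6 : (p + 1 + 1) * finrank K B = (p + 1) * finrank K B + finrank K B := by ring
    rw [h5, h6]
    omega

lemma exists_coeff_span (S : Submodule K F) (hS : S.FG) (h1 : (1 : F) ∈ S) :
    ∃ U : Polynomial F, S = span K ({1} ∪ Set.range U.coeff) := by
  classical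
  obtain ⟨s, hs⟩ := hS
  let v : ℕ → F := fun i => if h : i < s.card then (s.equivFin.symm ⟨i, h⟩ : F) else 0
  let U : Polynomial F := ∑ i ∈ Finset.range s.card, Polynomial.monomial i (v i)
  have hc : ∀ i, U.coeff i = v i := by
    intro i
    simp only [U, Polynomial.finsetSum_coeff, Polynomial.coeff_monomial]
    rw [Finset.sum_ite_eq' (Finset.range s.card) i v]
    by_cases h : i < s.card
    · rw [if_pos (Finset.mem_range.mpr h)]
    · rw [if_neg (fun h' => h (Finset.mem_range.mp h'))]
      simp [v, h]
  refine ⟨U, le_antisymm ?_ ?_⟩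
  · rw [← hs, span_le]
    intro x hx
    refine subset_span (Or.inr ⟨(s.equivFin ⟨x, hx⟩ : ℕ), ?_⟩)
    rw [hc]
    simp [v]
  · rw [span_le]
    rintro x (hx | ⟨i, rfl⟩)
    · rw [Set.mem_singleton_iff] at hx
      rw [hx]
      exact h1
    · rw [hc]
      simp only [v]
      split_ifs with h
      · rw [SetLike.mem_coe, ← hs]
        exact subset_span (s.equivFin.symm ⟨i, h⟩).2
      · exact zero_mem _

/-- the lower bound, for a very general `u` in `A i0` -/
theorem lower [Uncountable K] {ι : Type*} [Fintype ι] [DecidableEq ι] (A : ι → Submodule K F)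
    (hA : Adm K A) (i0 : ι) : ∃ u ∈ A i0, ∃ l0 : ℕ, ∀ m : ι → ℕ, l0 ≤ m i0 → ∀ p : ℕ, 1 ≤ p →
      (p + 1) * finrank K (prd A (m + Pi.single i0 1)) ≤
        finrank K (prd A (m + Pi.single i0 1) * pen K u ^ p : Submodule K F) +
          p * finrank K (prd A m) := by
  obtain ⟨U, hU⟩ := exists_coeff_span (A i0) (hA i0).1 (hA i0).2
  have htr : Transcendental F (RatFunc.X : RatFunc F) := RatFunc.transcendental_X
  obtain ⟨l0, hl0⟩ := countE (E := RatFunc F) RatFunc.X htr A hA i0 U hU
  let W : (ι → ℕ) → ℕ → Submodule K (Polynomial F) := fun m p =>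
    (prd A (m + Pi.single i0 1)).map (IsScalarTower.toAlgHom K F (Polynomial F)).toLinearMap *
      (span K {(1 : Polynomial F), U}) ^ p
  let R : (ι → ℕ) → ℕ → ℕ := fun m p =>
    (p + 1) * finrank K (prd A (m + Pi.single i0 1)) - p * finrank K (prd A m)
  let bad : (ι → ℕ) × ℕ → Set K := fun x =>
    if l0 ≤ x.1 i0 ∧ 1 ≤ x.2 then {τ : K | finrank K ((W x.1 x.2).map (evl K τ)) < R x.1 x.2} else ∅
  have hbad : ∀ x, (bad x).Countable := by
    intro x
    simp only [bad]
    split_ifs with h
    · apply Set.Finite.countable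
      refine specialise K F (W x.1 x.2) ?_ (R x.1 x.2) U.natDegree ?_
      · exact ((prd_fg (fun i => (hA i).1) _).map _).mul ((Submodule.fg_span (Set.toFinite _)).pow _)
      · intro q hq
        have h1 := hl0 x.1 h.1 x.2 q h.2 hq
        simp only [R, W]
        rw [Nat.mul_sub, tsub_le_iff_right]
        refine le_trans (le_of_eq ?_) (h1.trans (le_of_eq ?_))
        · ring
        · ring
    · exact Set.countable_empty
  have hunion : (⋃ x, bad x).Countable := Set.countable_iUnion hbad
  obtain ⟨τ, hτ⟩ : ∃ τ : K, τ ∉ ⋃ x, bad x := by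
    by_contra hcon
    push Not at hcon
    have : (Set.univ : Set K).Countable := hunion.mono fun τ _ => hcon τ
    exact Set.not_countable_univ this
  refine ⟨evl K τ U, ?_, l0, ?_⟩
  · rw [hU, evl_apply, Polynomial.eval_eq_sum_range]
    refine sum_mem fun i _ => ?_
    rw [← map_pow, mul_comm, ← Algebra.smul_def]
    exact Submodule.smul_mem _ _ (subset_span (Or.inr ⟨i, rfl⟩))
  · intro m hm p hp
    have h1 : τ ∉ bad (m, p) := fun h => hτ (Set.mem_iUnion.mpr ⟨_, h⟩)
    simp only [bad] at h1
    rw [if_pos ⟨hm, hp⟩, Set.mem_ofPred_eq, not_lt] at h1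
    have h2 : (W m p).map (evl K τ) =
        prd A (m + Pi.single i0 1) * pen K (evl K τ U) ^ p := by
      let φ : Polynomial F →ₐ[K] F :=
        (Polynomial.aeval (algebraMap K F τ) : Polynomial F →ₐ[F] F).restrictScalars K
      have hφ : evl K τ = φ.toLinearMap := rfl
      rw [hφ, Submodule.map_mul, Submodule.map_pow, Submodule.map_span, ← Submodule.map_comp]
      have e4 : φ.toLinearMap ∘ₗ (IsScalarTower.toAlgHom K F (Polynomial F)).toLinearMap =
          LinearMap.id := by
        ext x
        simp [φ]
      have e5 : (⇑φ.toLinearMap '' {(1 : Polynomial F), U}) = {1, φ.toLinearMap U} := by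
        rw [Set.image_pair]
        simp
      rw [e4, e5, Submodule.map_id]
      rfl
    rw [h2] at h1
    simp only [R] at h1
    rw [tsub_le_iff_right] at h1
    exact h1

open MvPolynomial in
/-- DX3, the generic pencil lemma -/
theorem gen_pencil [Uncountable K] {ι : Type*} [Fintype ι] [DecidableEq ι]
    (A : ι → Submodule K F) (hA : Adm K A) (i0 : ι) {n : ℕ} {P : MvPolynomial ι ℝ}
    (hP : IsVol K n A P) : ∃ u ∈ A i0, IsVol K n (fun o : Option ι => o.elim (pen K u) A)
      (rename some P + X none * rename some (pderiv i0 P)) := by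
  obtain ⟨u, hu, l0, hl0⟩ := lower A hA i0
  refine ⟨u, hu, ?_⟩
  obtain ⟨H, N, h1, rfl, h3⟩ := hP
  obtain ⟨hH0, hH1, R, hR, hτ⟩ := sh_of_totalDegree i0 H h1
  set Y : MvPolynomial (Option ι) ℝ := X none with hY
  set r : MvPolynomial ι ℝ →ₐ[ℝ] MvPolynomial (Option ι) ℝ := rename some with hr
  have hdec : (Y + 1) * r H - Y * r (shiftHom i0 H) =
      (r H + Y * r (pderiv i0 H)) - Y * r R := by
    rw [hτ, map_add, map_sub]
    ring
  have lY : Low 0 1 Y := Low.X _
  have lH : Low 0 n (r H) := hH0.rename _
  have lD : Low 0 n (Y * r (pderiv i0 H)) := by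
    have h6 := lY.mul (hH1.rename some : Low 1 n (r (pderiv i0 H)))
    exact Low.pred (j := 1) (h6.mono (by omega) (by omega))
  have lR : Low 1 n (Y * r R) := by
    have h6 := lY.mul (hR.rename some : Low 2 n (r R))
    exact Low.pred (j := 1) (h6.mono (by omega) (by omega))
  have cR : homogeneousComponent n (Y * r R) = 0 := by
    rcases lR with h | h
    · rw [h, map_zero]
    · exact homogeneousComponent_eq_zero _ _ (by omega)
  have cD : homogeneousComponent n (Y * r (pderiv i0 H)) =
      Y * r (pderiv i0 (homogeneousComponent n H)) := by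
    rcases Nat.eq_zero_or_pos n with rfl | hn
    · have h5 : pderiv i0 H = 0 := by
        rcases hH1 with h | h
        · exact h
        · omega
      rw [h5, homogeneousComponent_zero H, pderiv_C, map_zero, mul_zero, map_zero]
    · have h5 : Y.IsHomogeneous 1 := isHomogeneous_X ℝ _
      have h6 : n = 1 + (n - 1) := by omega
      have h7 := homogeneousComponent_mul_of_isHomogeneous h5 (R := r (pderiv i0 H)) (n - 1)
      rw [← h6, hr, homogeneousComponent_rename, component_pderiv i0 H hn] at h7
      exact h7
  refine ⟨(Y + 1) * r H - Y * r (shiftHom i0 H), max (N + 1) (l0 + 1), ?_, ?_, ?_⟩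
  · rw [hdec]
    exact ((lH.add lD).sub (lR.mono (Nat.zero_le _) le_rfl)).totalDegree_le
  · rw [hdec, map_sub, map_add, cR, cD, sub_zero, hr, homogeneousComponent_rename]
  · intro m hm
    set m0 : ι → ℕ := fun i => m (some i) with hm0
    set m' : ι → ℕ := m0 - Pi.single i0 1 with hm'
    set p := m none with hp
    have hN : ∀ i, N + 1 ≤ m0 i := fun i => (le_max_left _ _).trans (hm (some i))
    have hl : l0 + 1 ≤ m0 i0 := (le_max_right _ _).trans (hm (some i0))
    have hp1 : 1 ≤ p := by
      have := (le_max_left _ _).trans (hm none)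
      omega
    have hmm : m' + Pi.single i0 1 = m0 := by
      funext i
      by_cases hi : i = i0
      · subst hi
        simp only [hm', Pi.add_apply, Pi.sub_apply, Pi.single_eq_same]
        have := hN i
        omega
      · simp [hm', Pi.single_eq_of_ne hi]
    have hm'N : ∀ i, N ≤ m' i := by
      intro i
      by_cases hi : i = i0
      · subst hi
        simp only [hm', Pi.sub_apply, Pi.single_eq_same]
        have := hN i
        omega
      · simp only [hm', Pi.sub_apply, Pi.single_eq_of_ne hi]
        have := hN i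
        omega
    have hm'l : l0 ≤ m' i0 := by
      simp only [hm', Pi.sub_apply, Pi.single_eq_same]
      omega
    have hlow := hl0 m' hm'l p hp1
    have hup := upper A hA i0 u hu m' p
    rw [hmm] at hlow hup
    have hcount := le_antisymm hup hlow
    have hprd : prd (fun o : Option ι => o.elim (pen K u) A) m = prd A m0 * pen K u ^ p := by
      unfold prd
      rw [Fintype.prod_option, mul_comm]
      rfl
    rw [hprd]
    have e1 : eval (fun i => (m i : ℝ)) (r H) = (finrank K (prd A m0) : ℝ) := by
      rw [hr, eval_rename, h3 m0 (fun i => (Nat.le_succ N).trans (hN i))]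
      rfl
    have e2 : eval (fun i => (m i : ℝ)) (r (shiftHom i0 H)) = (finrank K (prd A m') : ℝ) := by
      rw [hr, eval_rename, eval_shiftHom, h3 m' hm'N]
      congr 2
      funext i
      by_cases hi : i = i0
      · subst hi
        have h5 := hN i
        simp only [Function.comp_apply, if_true, hm', Pi.sub_apply, Pi.single_eq_same]
        rw [Nat.cast_sub (by omega)]
        simp [hm0]
      · simp [hm', hi, hm0]
    have hc' : (finrank K (prd A m0 * pen K u ^ p : Submodule K F) : ℝ) +
        (p : ℝ) * (finrank K (prd A m') : ℝ) = ((p : ℝ) + 1) * (finrank K (prd A m0) : ℝ) := by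
      exact_mod_cast hcount
    have e5 : eval (fun i => (m i : ℝ)) Y = (p : ℝ) := by rw [hY, eval_X]
    simp only [map_sub, map_mul, map_add, map_one, e1, e2, e5]
    linarith

end EH.DX
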