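import Pool.Agent.Work.MP_9eee85_co.EH.DX3

/-!
DX4: several generic pencils. The coefficients of the volume polynomial of
`(A, ⟨1,u_1⟩, …, ⟨1,u_k⟩)`, `u_j` very general in `A (σ j)`.
-/

namespace EH.DX

open Module Submodule EurHuh MvPolynomial

variable {K F : Type*} [Field K] [Field F] [Algebra K F]

/-- the product of the factorials of the exponents -/
noncomputable def fac {ι : Type*} [Fintype ι] (ν : ι →₀ ℕ) : ℝ :=
  ((∏ i, (ν i).factorial : ℕ) : ℝ)

lemma fac_add_single {ι : Type*} [Fintype ι] [DecidableEq ι] (ν : ι →₀ ℕ) (i0 : ι) :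
    fac (ν + Finsupp.single i0 1) = ((ν i0 : ℝ) + 1) * fac ν := by
  unfold fac
  have e1 := Finset.mul_prod_erase Finset.univ
    (fun i => ((ν + Finsupp.single i0 1 : ι →₀ ℕ) i).factorial) (Finset.mem_univ i0)
  have e2 := Finset.mul_prod_erase Finset.univ (fun i => (ν i).factorial) (Finset.mem_univ i0)
  rw [← e1, ← e2]
  have h5 : ∏ i ∈ Finset.univ.erase i0, ((ν + Finsupp.single i0 1 : ι →₀ ℕ) i).factorial =
      ∏ i ∈ Finset.univ.erase i0, (ν i).factorial := by
    refine Finset.prod_congr rfl fun i hi => ?_
    rw [Finsupp.add_apply, Finsupp.single_eq_of_ne (Finset.ne_of_mem_erase hi), add_zero]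
  rw [h5]
  simp only [Finsupp.add_apply, Finsupp.single_eq_same, Nat.factorial_succ]
  push_cast
  ring

theorem gen_pencils [Uncountable K] {ι : Type} [Fintype ι] [DecidableEq ι]
    (A : ι → Submodule K F) (hA : Adm K A) {n : ℕ} {P : MvPolynomial ι ℝ}
    (hP : IsVol K n A P) : ∀ (k : ℕ) (σ : Fin k → ι),
    ∃ (κ : Type) (_ : Fintype κ) (_ : DecidableEq κ) (A' : κ → Submodule K F)
      (P' : MvPolynomial κ ℝ) (a : ι → κ) (b : Fin k → κ) (u : Fin k → F),
      Adm K A' ∧ IsVol K n A' P' ∧ Function.Injective a ∧ Function.Injective b ∧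
      (∀ i j, a i ≠ b j) ∧ (∀ i, A' (a i) = A i) ∧ (∀ j, A' (b j) = pen K (u j)) ∧
      (∀ j, u j ∈ A (σ j)) ∧ (∀ x, ∃ i, A' x ≤ A i) ∧
      ∀ (ν : ι →₀ ℕ) (S : Finset (Fin k)),
        fac ν * coeff (ν.mapDomain a + ∑ j ∈ S, Finsupp.single (b j) 1) P' =
        fac (ν + ∑ j ∈ S, Finsupp.single (σ j) 1) *
          coeff (ν + ∑ j ∈ S, Finsupp.single (σ j) 1) P := by
  intro k
  induction k with
  | zero =>
    intro σ
    refine ⟨ι, inferInstance, inferInstance, A, P, id, Fin.elim0, Fin.elim0, hA, hP,
      Function.injective_id, fun i => i.elim0, fun _ j => j.elim0, fun _ => rfl,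
      fun j => j.elim0, fun j => j.elim0, fun x => ⟨x, le_rfl⟩, ?_⟩
    intro ν S
    have hS : S = ∅ := Finset.eq_empty_of_forall_notMem fun j => j.elim0
    subst hS
    simp
  | succ k ih =>
    intro σ
    obtain ⟨κ, _, _, A', P', a, b, u, hA', hP', ha, hb, hab, haA, hbA, hu, hle, hco⟩ :=
      ih (fun j => σ j.castSucc)
    set i0 : ι := σ (Fin.last k) with hi0
    obtain ⟨v, hv, hvol⟩ := gen_pencil A' hA' (a i0) hP'
    rw [haA] at hv
    have hsome : Function.Injective (some : κ → Option κ) := Option.some_injective κ
    refine ⟨Option κ, inferInstance, inferInstance, fun o => o.elim (pen K v) A',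
      rename some P' + X none * rename some (pderiv (a i0) P'), fun i => some (a i),
      Fin.snoc (α := fun _ => Option κ) (fun j => some (b j)) none,
      Fin.snoc (α := fun _ => F) u v, ?_, hvol, ?_, ?_, ?_, ?_, ?_, ?_, ?_, ?_⟩
    · rintro (_ | x)
      · exact ⟨pen_fg v, one_mem_pen v⟩
      · exact hA' x
    · intro i j hij
      exact ha (hsome hij)
    · intro i j
      refine Fin.lastCases ?_ (fun i => ?_) i
      · refine Fin.lastCases ?_ (fun j => ?_) j
        · intro _; rfl
        · intro h
          rw [Fin.snoc_last, Fin.snoc_castSucc] at h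
          exact absurd h (by simp)
      · refine Fin.lastCases ?_ (fun j => ?_) j
        · intro h
          rw [Fin.snoc_last, Fin.snoc_castSucc] at h
          exact absurd h (by simp)
        · intro h
          rw [Fin.snoc_castSucc, Fin.snoc_castSucc] at h
          rw [hb (hsome h)]
    · intro i j
      refine Fin.lastCases ?_ (fun j => ?_) j
      · rw [Fin.snoc_last]; simp
      · rw [Fin.snoc_castSucc]
        intro h
        exact hab i j (hsome h)
    · intro i
      exact haA i
    · intro j
      refine Fin.lastCases ?_ (fun j => ?_) j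
      · rw [Fin.snoc_last, Fin.snoc_last]; rfl
      · rw [Fin.snoc_castSucc, Fin.snoc_castSucc]
        exact hbA j
    · intro j
      refine Fin.lastCases ?_ (fun j => ?_) j
      · rw [Fin.snoc_last]; exact hv
      · rw [Fin.snoc_castSucc]
        exact hu j
    · rintro (_ | x)
      · exact ⟨i0, pen_le (hA i0).2 hv⟩
      · exact hle x
    · intro ν S
      -- split `S`
      set S0 : Finset (Fin k) := Finset.univ.filter (fun j => j.castSucc ∈ S) with hS0
      have hsum : ∀ {M : Type} [AddCommMonoid M] (f : Fin (k + 1) → M),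
          ∑ j ∈ S, f j = (∑ j ∈ S0, f j.castSucc) + if Fin.last k ∈ S then f (Fin.last k) else 0 := by
        intro M _ f
        have h1 : ∑ j ∈ S, f j = ∑ j, if j ∈ S then f j else 0 := by
          rw [← Finset.sum_filter]
          simp
        rw [h1, Fin.sum_univ_castSucc, hS0, Finset.sum_filter]
      rw [hsum, hsum]
      simp only [Fin.snoc_castSucc, Fin.snoc_last]
      set E : κ →₀ ℕ := ν.mapDomain a + ∑ j ∈ S0, Finsupp.single (b j) 1 with hE
      have hEmap : ν.mapDomain (fun i => some (a i)) +
          ∑ j ∈ S0, Finsupp.single (some (b j)) 1 = E.mapDomain some := by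
        rw [hE, Finsupp.mapDomain_add, ← Finsupp.mapDomain_comp]
        congr 1
        rw [Finsupp.mapDomain_finsetSum]
        refine Finset.sum_congr rfl fun j _ => ?_
        rw [Finsupp.mapDomain_single]
      have hnone : (E.mapDomain some : Option κ →₀ ℕ) none = 0 := by
        rw [Finsupp.mapDomain_of_notMem_range]
        rintro ⟨x, hx⟩
        exact absurd hx (by simp)
      by_cases hl : Fin.last k ∈ S
      · rw [if_pos hl, if_pos hl, ← add_assoc, ← add_assoc, hEmap]
        have h1 : coeff (E.mapDomain some + Finsupp.single none 1)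
            (rename some P' : MvPolynomial (Option κ) ℝ) = 0 := by
          apply coeff_rename_eq_zero
          intro x hx
          exfalso
          have h2 := DFunLike.congr_fun hx none
          rw [Finsupp.add_apply, hnone, Finsupp.single_eq_same, Finsupp.mapDomain_of_notMem_range] at h2
          · omega
          · rintro ⟨y, hy⟩
            exact absurd hy (by simp)
        rw [coeff_add, h1, zero_add, add_comm (E.mapDomain some) (Finsupp.single none 1),
          coeff_X_mul, coeff_rename_mapDomain _ hsome, coeff_pderiv]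
        have hEa : E (a i0) = ν i0 := by
          rw [hE, Finsupp.add_apply, Finsupp.mapDomain_apply ha, Finsupp.finsetSum_apply]
          rw [Finset.sum_eq_zero, add_zero]
          intro j _
          rw [Finsupp.single_eq_of_ne (hab i0 j)]
        have hE2 : E + Finsupp.single (a i0) 1 =
            (ν + Finsupp.single i0 1).mapDomain a + ∑ j ∈ S0, Finsupp.single (b j) 1 := by
          rw [hE, Finsupp.mapDomain_add, Finsupp.mapDomain_single]
          abel
        have h3 := hco (ν + Finsupp.single i0 1) S0
        rw [hE2]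
        have h4 : fac (ν + Finsupp.single i0 1) = ((ν i0 : ℝ) + 1) * fac ν :=
          fac_add_single ν i0
        rw [h4] at h3
        have h6 : ν + Finsupp.single i0 1 + ∑ j ∈ S0, Finsupp.single (σ j.castSucc) 1 =
            ν + ∑ j ∈ S0, Finsupp.single (σ j.castSucc) 1 + Finsupp.single (σ (Fin.last k)) 1 := by
          rw [← hi0]; abel
        rw [h6] at h3
        rw [hEa, ← h3]
        ring
      · rw [if_neg hl, if_neg hl, add_zero, add_zero, hEmap]
        have h1 : coeff (E.mapDomain some)
            (X none * rename some (pderiv (a i0) P') : MvPolynomial (Option κ) ℝ) = 0 := by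
          rw [coeff_X_mul', if_neg]
          rw [Finsupp.mem_support_iff, not_not]
          exact hnone
        rw [coeff_add, h1, add_zero, coeff_rename_mapDomain _ hsome]
        exact hco ν S0

end EH.DX
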