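import Pool.Agent.Work.MP_9eee85_co.EH.DX4

/-!
DX5: the data. From a semiample volume polynomial close to the basis generating polynomial of the
example to five letters and `M` generic functions, whose degrees are close to the numbers.
-/

namespace EH.DX

open Module Submodule EurHuh MvPolynomial Filter Topology

/-- the class of the variable -/
def sg {M : ℕ} : Fin 5 ⊕ Fin M → Option (Fin 5)
  | Sum.inl i => some i
  | Sum.inr _ => none

/-- the exponent of five indices -/
noncomputable def mu {M : ℕ} (t : Fin 5 → Fin 5 ⊕ Fin M) : Option (Fin 5) →₀ ℕ :=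
  ∑ j, Finsupp.single (sg (t j)) 1

/-- the exponent of a subset -/
noncomputable def muT (T : Finset (Fin 5)) : Option (Fin 5) →₀ ℕ :=
  Finsupp.single none (5 - T.card) + ∑ i ∈ T, Finsupp.single (some i) 1

/-- the number in terms of the counts -/
def numC (c : Fin 7 → ℕ) : ℤ :=
  if 0 < c 6 ∨ 1 < c 1 ∨ 1 < c 2 ∨ 1 < c 3 ∨ 1 < c 4 ∨ 1 < c 5 then 0 else
    match c 0 with
    | 0 => 1
    | 1 => 1
    | 2 => 2
    | 3 => if (c 1 = 1 ∧ c 2 = 1) ∨ (c 3 = 1 ∧ c 4 = 1) then 0 else 6
    | _ => 0

lemma numZ_eq (t : Fin 5 → Fin 7) : numZ t = numC (cnt t) := rfl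

lemma cnt_eq (t : Fin 5 → Fin 7) (s : Fin 7) :
    cnt t s = (Finset.univ.filter (fun j => t j = s)).card := by
  unfold cnt
  rw [List.ofFn_eq_map, List.filter_map, List.length_map]
  have h1 : (Finset.univ.filter (fun j => t j = s)).card =
      ((List.finRange 5).filter (fun j => t j = s)).length := by
    rw [← List.toFinset_card_of_nodup ((List.nodup_finRange 5).filter _)]
    congr 1
    ext j
    simp
  rw [h1]
  rfl

lemma mu_apply {M : ℕ} (t : Fin 5 → Fin 5 ⊕ Fin M) (o : Option (Fin 5)) :
    mu t o = (Finset.univ.filter (fun j => sg (t j) = o)).card := by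
  unfold mu
  rw [Finsupp.finsetSum_apply, Finset.card_filter]
  refine Finset.sum_congr rfl fun j _ => ?_
  rw [Finsupp.single_apply]

/-- the letters among the indices -/
def letters {M : ℕ} (t : Fin 5 → Fin 5 ⊕ Fin M) : Finset (Fin 5) :=
  Finset.univ.filter (fun i => ∃ j, t j = Sum.inl i)

lemma muT_some (T : Finset (Fin 5)) (i : Fin 5) : muT T (some i) = if i ∈ T then 1 else 0 := by
  classical
  unfold muT
  rw [Finsupp.add_apply, Finsupp.single_eq_of_ne (by simp), zero_add, Finsupp.finsetSum_apply]
  simp only [Finsupp.single_apply, Option.some.injEq]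
  rw [Finset.sum_ite_eq' T i (fun _ => 1)]

lemma muT_none (T : Finset (Fin 5)) : muT T none = 5 - T.card := by
  unfold muT
  rw [Finsupp.add_apply, Finsupp.single_eq_same, Finsupp.finsetSum_apply, Finset.sum_eq_zero,
    add_zero]
  intro i _
  rw [Finsupp.single_eq_of_ne (by simp)]

lemma mu_eq {M : ℕ} (t : Fin 5 → Fin 5 ⊕ Fin M) (ht : Function.Injective t) :
    mu t = muT (letters t) := by
  classical
  have hsome : ∀ i, mu t (some i) = if i ∈ letters t then 1 else 0 := by
    intro i
    rw [mu_apply]
    have h0 : ∀ j, sg (t j) = some i ↔ t j = Sum.inl i := by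
      intro j
      rcases h : t j with a | a
      · simp [sg]
      · simp [sg]
    simp only [h0]
    by_cases hi : i ∈ letters t
    · rw [if_pos hi]
      obtain ⟨j, hj⟩ := (Finset.mem_filter.mp hi).2
      rw [Finset.card_eq_one]
      refine ⟨j, ?_⟩
      ext j'
      simp only [Finset.mem_filter, Finset.mem_univ, true_and, Finset.mem_singleton]
      constructor
      · intro h
        exact ht (h.trans hj.symm)
      · rintro rfl
        exact hj
    · rw [if_neg hi, Finset.card_eq_zero, Finset.filter_eq_empty_iff]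
      intro j _ hj
      exact hi (Finset.mem_filter.mpr ⟨Finset.mem_univ _, j, hj⟩)
  have htot : mu t none + ∑ i, mu t (some i) = 5 := by
    have h1 : ∑ o, mu t o = 5 := by
      unfold mu
      simp only [Finsupp.finsetSum_apply]
      rw [Finset.sum_comm]
      have h2 : ∀ j, ∑ o, (Finsupp.single (sg (t j)) 1 : Option (Fin 5) →₀ ℕ) o = 1 := by
        intro j
        rw [Finset.sum_eq_single (sg (t j))]
        · simp
        · intro o _ ho
          rw [Finsupp.single_eq_of_ne ho]
        · simp
      simp only [h2]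
      simp
    rw [Fintype.sum_option] at h1
    exact h1
  ext o
  cases o with
  | some i => rw [hsome, muT_some]
  | none =>
    rw [muT_none]
    have h3 : ∑ i, mu t (some i) = (letters t).card := by
      simp only [hsome]
      rw [Finset.sum_ite_mem]
      simp
    omega

/-- the counts of a subset -/
def cT (T : Finset (Fin 5)) : Fin 7 → ℕ :=
  ![5 - T.card, if 0 ∈ T then 1 else 0, if 1 ∈ T then 1 else 0, if 2 ∈ T then 1 else 0,
    if 3 ∈ T then 1 else 0, if 4 ∈ T then 1 else 0, 0]

lemma cnt_typ {M : ℕ} (t : Fin 5 → Fin 5 ⊕ Fin M) (ht : Function.Injective t) :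
    cnt (fun j => typ (t j)) = cT (letters t) := by
  classical
  have h0 : cnt (fun j => typ (t j)) 0 = mu t none := by
    rw [cnt_eq, mu_apply]
    congr 1
    ext j
    simp only [Finset.mem_filter, Finset.mem_univ, true_and]
    rcases t j with a | a
    · simp only [typ, sg, reduceCtorEq, iff_false]
      intro h
      have := congrArg Fin.val h
      simp at this
    · simp [typ, sg]
  have hs : ∀ i : Fin 5, cnt (fun j => typ (t j)) ⟨i.1 + 1, by omega⟩ = mu t (some i) := by
    intro i
    rw [cnt_eq, mu_apply]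
    congr 1
    ext j
    simp only [Finset.mem_filter, Finset.mem_univ, true_and]
    rcases t j with a | a
    · simp only [typ, sg, Option.some.injEq]
      constructor
      · intro h
        have := congrArg Fin.val h
        simp only [Nat.add_right_cancel_iff] at this
        exact Fin.ext this
      · rintro rfl; rfl
    · simp only [typ, sg, reduceCtorEq, iff_false]
      intro h
      have := congrArg Fin.val h
      simp at this
  have h6 : cnt (fun j => typ (t j)) 6 = 0 := by
    rw [cnt_eq, Finset.card_eq_zero, Finset.filter_eq_empty_iff]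
    intro j _
    rcases t j with a | a
    · simp only [typ]
      intro h
      have := congrArg Fin.val h
      have := a.2
      simp at *
      omega
    · simp [typ]
  have hm := mu_eq t ht
  funext s
  have h1 := hs 0
  have h2 := hs 1
  have h3 := hs 2
  have h4 := hs 3
  have h5 := hs 4
  rw [hm, muT_some] at h1 h2 h3 h4 h5
  rw [hm, muT_none] at h0
  fin_cases s
  · exact h0
  · exact h1
  · exact h2
  · exact h3
  · exact h4
  · exact h5
  · exact h6

lemma num_table : ∀ T : Finset (Fin 5), numC (cT T) =
    ((5 - T.card).factorial : ℤ) * if 2 ≤ (T.image exφ).card then 1 else 0 := by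
  decide

lemma fac_muT (T : Finset (Fin 5)) : fac (muT T) = ((5 - T.card).factorial : ℝ) := by
  unfold fac
  rw [Fintype.prod_option, muT_none]
  have : ∏ i, (muT T (some i)).factorial = 1 := by
    apply Finset.prod_eq_one
    intro i _
    rw [muT_some]
    split_ifs <;> rfl
  rw [this, mul_one]

lemma muT_injective : Function.Injective muT := by
  intro S T h
  ext i
  have := DFunLike.congr_fun h (some i)
  rw [muT_some, muT_some] at this
  by_cases h1 : i ∈ S <;> by_cases h2 : i ∈ T <;> simp [h1, h2] at this ⊢

lemma coeff_basisPoly (T : Finset (Fin 5)) :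
    coeff (muT T) (basisPoly (Matroid.freeOn Set.univ) exM' exφ) =
      if 2 ≤ (T.image exφ).card then 1 else 0 := by
  classical
  unfold basisPoly
  have h1 : ∀ S : Finset (Fin 5),
      (X none ^ (Fintype.card (Fin 5) - S.card) * ∏ f ∈ S, X (some f) :
        MvPolynomial (Option (Fin 5)) ℚ) = monomial (muT S) 1 := by
    intro S
    have h2 : (∏ f ∈ S, X (some f) : MvPolynomial (Option (Fin 5)) ℚ) =
        monomial (∑ f ∈ S, Finsupp.single (some f) 1) 1 := by
      rw [monomial_sum_one]
      rfl
    rw [h2, X_pow_eq_monomial, monomial_mul, mul_one, Fintype.card_fin]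
    rfl
  simp only [h1]
  rw [coeff_sum]
  simp only [coeff_monomial]
  rw [Finset.sum_ite]
  simp only [Finset.sum_const_zero, add_zero, Finset.sum_const, nsmul_eq_mul, mul_one]
  by_cases hT : 2 ≤ (T.image exφ).card
  · rw [if_pos hT]
    have : ((Finset.univ.filter (fun T => IsMorphismBasis (Matroid.freeOn Set.univ) exM' exφ T)).filter
        (fun S => muT S = muT T)) = {T} := by
      ext S
      simp only [Finset.mem_filter, Finset.mem_univ, true_and, Finset.mem_singleton]
      constructor
      · rintro ⟨-, h⟩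
        exact muT_injective h
      · rintro rfl
        exact ⟨(ex_morphismBasis S).mpr hT, rfl⟩
    rw [this]
    simp
  · rw [if_neg hT]
    have : ((Finset.univ.filter (fun T => IsMorphismBasis (Matroid.freeOn Set.univ) exM' exφ T)).filter
        (fun S => muT S = muT T)) = ∅ := by
      ext S
      simp only [Finset.mem_filter, Finset.mem_univ, true_and, Finset.notMem_empty, iff_false]
      rintro ⟨h, h'⟩
      rw [muT_injective h'] at h
      exact hT ((ex_morphismBasis T).mp h)
    rw [this]
    simp

/-- the numbers of the example are the coefficients of the basis generating polynomial -/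
lemma num_eq {M : ℕ} (t : Fin 5 → Fin 5 ⊕ Fin M) (ht : Function.Injective t) :
    fac (mu t) * ((coeff (mu t) (basisPoly (Matroid.freeOn Set.univ) exM' exφ) : ℚ) : ℝ) =
      numZ (fun j => typ (t j)) := by
  rw [numZ_eq, cnt_typ t ht, num_table, mu_eq t ht, fac_muT, coeff_basisPoly]
  push_cast
  split_ifs <;> simp

theorem dataExists (hS : SemiampleData.{0, 0} ℂ)
    (hD : ∀ (F : Type) [Field F] [Algebra ℂ F], DegCoeff ℂ F) : DataExists := by
  classical
  rintro ⟨s, hs, hlim⟩ M η hM hη
  set p : MvPolynomial (Option (Fin 5)) ℚ := basisPoly (Matroid.freeOn Set.univ) exM' exφ with hp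
  -- the monomial of the letters
  have h0 : ((coeff (muT Finset.univ) p : ℚ) : ℝ) = 1 := by
    rw [hp, coeff_basisPoly, if_pos (by decide)]
    simp
  have hdeg : (muT Finset.univ).degree = 5 := by
    rw [Finsupp.degree_eq_sum, Fintype.sum_option, muT_none]
    simp only [muT_some]
    simp
  have hne : ∀ᶠ n in atTop, coeff (muT Finset.univ) (s n) ≠ 0 := by
    have h1 := hlim (muT Finset.univ)
    rw [h0] at h1
    have h3 := h1.eventually_ne (one_ne_zero)
    filter_upwards [h3] with n hn h2
    rw [h2] at hn
    simp at hn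
  have hclose : ∀ t : Fin 5 → Fin 5 ⊕ Fin M, ∀ᶠ n in atTop,
      |fac (mu t) * ((coeff (mu t) (s n) : ℚ) : ℝ) -
        fac (mu t) * ((coeff (mu t) p : ℚ) : ℝ)| ≤ η := by
    intro t
    have h1 := (hlim (mu t)).const_mul (fac (mu t))
    have h2 := (Metric.tendsto_nhds.mp h1) η hη
    filter_upwards [h2] with n hn
    rw [Real.dist_eq] at hn
    exact hn.le
  obtain ⟨n, hn1, hn2⟩ := (hne.and (eventually_all.mpr hclose)).exists
  obtain ⟨L, _, _, V, P, C0, hV, hrk, hfin, hfn, hvol, hC, hP⟩ := hS (hs n) _ hn1
  rw [hdeg] at hrk hfn hvol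
  let e : Fin 5 ⊕ Fin M ≃ Fin (5 + M) := finSumFinEquiv
  have : Uncountable ℂ := by
    rw [← Cardinal.aleph0_lt_mk_iff, Cardinal.mk_complex]
    exact Cardinal.aleph0_lt_continuum
  obtain ⟨κ, _, _, A', P', a, b, u, hA', hP', ha, hb, hab, haA, hbA, hu, hle, hco⟩ :=
    gen_pencils V hV hvol (5 + M) (fun j => sg (e.symm j))
  have hU : (⋃ i, (A' i : Set L)) = ⋃ i, (V i : Set L) := by
    apply le_antisymm
    · refine Set.iUnion_subset fun x => ?_
      obtain ⟨i, hi⟩ := hle x
      exact (show (A' x : Set L) ⊆ V i from hi).trans (Set.subset_iUnion (fun i => (V i : Set L)) i)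
    · refine Set.iUnion_subset fun i => ?_
      rw [← haA i]
      exact Set.subset_iUnion (fun i => (A' i : Set L)) (a i)
  set r := finrank (IntermediateField.adjoin ℂ (⋃ i, (V i : Set L))) L with hr
  have hr0 : (0 : ℝ) < r := by
    have : 0 < r := finrank_pos
    exact_mod_cast this
  refine ⟨L, inferInstance, inferInstance, fun x => u (e x), (r * C0)⁻¹, hfn, by positivity, ?_⟩
  intro t ht
  have hinj : Function.Injective (fun j => b (e (t j))) := hb.comp (e.injective.comp ht)
  have h1 := hD L A' hA' (n := 5) (by rw [hU]; exact hrk) hP' (by rw [hU]; exact hfin)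
    (fun j => b (e (t j))) hinj (fun j => u (e (t j))) (fun j => hbA _)
  have h2 := hco 0 (Finset.univ.image (fun j => e (t j)))
  have hinj2 : Function.Injective (fun j => e (t j)) := e.injective.comp ht
  rw [Finset.sum_image (fun i _ j _ h => hinj2 h), Finset.sum_image (fun i _ j _ h => hinj2 h)] at h2
  simp only [Equiv.symm_apply_apply, zero_add, Finsupp.mapDomain_zero] at h2
  have h3 : fac (0 : Option (Fin 5) →₀ ℕ) = 1 := by simp [fac]
  have h4 : (∑ j, Finsupp.single (sg (t j)) 1 : Option (Fin 5) →₀ ℕ) = mu t := rfl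
  rw [h3, one_mul, h4, hP, coeff_C_mul, coeff_map] at h2
  rw [h1, hU, h2, ← num_eq t ht]
  have h5 : (↑r * C0)⁻¹ * (↑r * (fac (mu t) * (C0 * (algebraMap ℚ ℝ) (coeff (mu t) (s n))))) =
      fac (mu t) * ((coeff (mu t) (s n) : ℚ) : ℝ) := by
    have : (algebraMap ℚ ℝ) (coeff (mu t) (s n)) = ((coeff (mu t) (s n) : ℚ) : ℝ) := rfl
    rw [this]
    field_simp
  rw [h5]
  exact hn2 t

end EH.DX
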