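import Pool.Agent.Work.MP_9eee85_co.EH.HodgeDefs

/-!
# Calculus interface on a local homeomorphism `π : X → V`

`V` is a finite dimensional real normed space (in the application `Fin 5 → ℂ`), `π : X → V` a local
homeomorphism. Regularity and derivatives of `f : X → W` are those of `f ∘ s` for the local
section `s = lsec hπ x` of `π` at `π x`. The measure on `X` is characterized by `IsLift`.
-/

noncomputable section

namespace EH

open MeasureTheory Filter Topology Set
open scoped ContDiff

section Calc

variable {V : Type*} [NormedAddCommGroup V] [NormedSpace ℝ V]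
variable {X : Type*} [TopologicalSpace X] {π : X → V}
variable {W : Type*} [NormedAddCommGroup W] [NormedSpace ℝ W]

/-- A local homeomorphism with source containing `x` which coincides with `π`. -/
def lchart (hπ : IsLocalHomeomorph π) (x : X) : OpenPartialHomeomorph X V := (hπ x).choose

lemma mem_lchart (hπ : IsLocalHomeomorph π) (x : X) : x ∈ (lchart hπ x).source :=
  (hπ x).choose_spec.1

lemma lchart_eq (hπ : IsLocalHomeomorph π) (x : X) : ⇑(lchart hπ x) = π :=
  (hπ x).choose_spec.2.symm

/-- The local section of `π` through `x`. -/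
def lsec (hπ : IsLocalHomeomorph π) (x : X) : V → X := (lchart hπ x).symm

lemma lsec_self (hπ : IsLocalHomeomorph π) (x : X) : lsec hπ x (π x) = x := by
  have h := (lchart hπ x).left_inv (mem_lchart hπ x)
  rw [lchart_eq] at h
  exact h

/-- `f` is of class `C^n` at every point of `X`. -/
def LSm (hπ : IsLocalHomeomorph π) (n : ℕ∞) (f : X → W) : Prop :=
  ∀ x, ContDiffAt ℝ n (f ∘ lsec hπ x) (π x)

/-- The derivative of `f` at `x`. -/
def LD (hπ : IsLocalHomeomorph π) (f : X → W) (x : X) : V →L[ℝ] W :=
  fderiv ℝ (f ∘ lsec hπ x) (π x)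

/-- `ν` is the measure on `X` for which `π` is locally measure preserving. -/
def IsLift [MeasurableSpace V] [MeasurableSpace X] (π : X → V) (μ : Measure V) (ν : Measure X) :
    Prop :=
  ∀ s : Set X, MeasurableSet s → InjOn π s → ν s = μ (π '' s)

end Calc

/-- The base space. -/
abbrev Bs : Type := Fin 5 → ℂ

/-- The real directions of the base: `bv (2j) = e_j`, `bv (2j+1) = i e_j`. -/
def bv (a : Fin 10) : Bs :=
  Pi.single (⟨a.val / 2, by omega⟩ : Fin 5) (if a.val % 2 = 0 then 1 else Complex.I)

/-- The covector `ℓ` as an element of degree one of `E`. -/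
def cov (l : Bs →L[ℝ] ℝ) : E := ∑ a, l (bv a) • e a

section Forms

variable {X : Type*} [TopologicalSpace X] {π : X → Bs} (hπ : IsLocalHomeomorph π)

/-- The exterior derivative of forms on `X`. -/
def dX (F : X → E) (x : X) : E := ∑ a, e a * LD hπ F x (bv a)

/-- Smooth forms with compact support. -/
def Tst : Set (X → E) := {F | LSm hπ ⊤ F ∧ HasCompactSupport F}

/-- Weakly closed forms (`ν` the lift of the Lebesgue measure). -/
def WClosed [MeasurableSpace X] (ν : Measure X) (v : X → E) : Prop :=
  ∀ α ∈ Tst hπ, ∫ x, top (v x * dX hπ α x) ∂ν = 0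

end Forms

/-- The algebra endomorphism given by a complex matrix: `dz_i ↦ ∑ j, A i j dz_j`, as a real
endomorphism of `ℝ^10` (covectors), `dx_i ↦ Re ∑ A i j dz_j`, `dy_i ↦ Im ∑ A i j dz_j`. -/
def rmat (A : Fin 5 → Fin 5 → ℂ) : EuclideanSpace ℝ (Fin 10) →ₗ[ℝ] EuclideanSpace ℝ (Fin 10) :=
  Matrix.toEuclideanLin (Matrix.of fun a b : Fin 10 =>
    -- coefficient of `e_a` in the image of `e_b`
    if b.val % 2 = 0 then
      (if a.val % 2 = 0 then (A ⟨b.val / 2, by omega⟩ ⟨a.val / 2, by omega⟩).re
        else -(A ⟨b.val / 2, by omega⟩ ⟨a.val / 2, by omega⟩).im)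
    else
      (if a.val % 2 = 0 then (A ⟨b.val / 2, by omega⟩ ⟨a.val / 2, by omega⟩).im
        else (A ⟨b.val / 2, by omega⟩ ⟨a.val / 2, by omega⟩).re))

end EH
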