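import Pool.Agent.Work.MP_9eee85_co.EH.Lef
import Pool.Agent.Work.MP_9eee85_co.EH.LefDeg

/-!
EH, block E3: the Lefschetz decomposition of the `J`-invariant elements of degree 2 and 4 of `E`,
with the star operator and the top degree pairings.

* degree 2: `v = u2 v + c2 v • om`;
* degree 4: `v = p4 v + om * u4 v + c4 v • om ^ 2`;
* `S9`, `S7`: right inverses of `om ^ 4 *` (degree 1 to 9) and `om ^ 2 *` (degree 3 to 7).
-/

noncomputable section

namespace EH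

open Finset

/-- The facts of block E2 used here. -/
structure E2Facts : Prop where
  trip : Trip 6 (Lop : Module.End ℝ E) Λop Hop
  star_eq : ∀ k : ℕ, ∀ a ∈ Deg k, star a = (-1 : ℝ) ^ (k * (k + 1) / 2) • J (wey 6 Lop Λop a)
  J_L : ∀ a, J (om * a) = om * J a
  J_Λ : ∀ a, J (Λop a) = Λop (J a)
  J_one : J 1 = 1

/-- primitive part in degree 2 -/
def u2 : E →ₗ[ℝ] E := lefU2 Lop Λop
/-- scalar part in degree 2 -/
def c2 : E →ₗ[ℝ] ℝ := coL ∅ ∘ₗ (lefW2 Λop : Module.End ℝ E)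
/-- primitive part in degree 4 -/
def p4 : E →ₗ[ℝ] E := lefP4 Lop Λop
/-- degree 2 part in degree 4 -/
def u4 : E →ₗ[ℝ] E := lefU4 Lop Λop
/-- scalar part in degree 4 -/
def c4 : E →ₗ[ℝ] ℝ := coL ∅ ∘ₗ (lefW4 Λop : Module.End ℝ E)
/-- right inverse of `om ^ 4 *` on degree 9 -/
def S9 : E →ₗ[ℝ] E := R4 (Λop : Module.End ℝ E)
/-- right inverse of `om ^ 2 *` on degree 7 -/
def S7 : E →ₗ[ℝ] E := R2 (Lop : Module.End ℝ E) Λop

lemma H_of {k : ℕ} {a : E} (ha : a ∈ Deg k) (c : ℝ) (hc : (k : ℝ) - 5 = c) : Hop a = c • a := by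
  rw [Hop_apply_of ha, hc]

variable {v : E}

/-! ### degree 2 -/

lemma W2_mem (hv : v ∈ Deg 2) : (lefW2 Λop : Module.End ℝ E) v ∈ Deg 0 := by
  simp only [lefW2, LinearMap.smul_apply]
  exact Submodule.smul_mem _ _ (Λop_mem_Deg hv)

lemma W2_eq (hv : v ∈ Deg 2) : (lefW2 Λop : Module.End ℝ E) v = c2 v • (1 : E) :=
  eq_smul_one (W2_mem hv)

lemma ΛΛ2 (hv : v ∈ Deg 2) : Λop (Λop v) = 0 := Λop_eq_zero (by norm_num) (Λop_mem_Deg hv)

/-- the decomposition in degree 2 -/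
theorem dec2 (hv : v ∈ Deg 2) : v = u2 v + c2 v • om := by
  have h : v = u2 v + Lop ((lefW2 Λop : Module.End ℝ E) v) := Trip.lef2
  rw [W2_eq hv, map_smul, Lop_apply, mul_one] at h
  exact h

theorem u2_mem (hv : v ∈ Deg 2) : u2 v ∈ Deg 2 := by
  have h : u2 v = v - c2 v • om := by
    rw [eq_sub_iff_add_eq]; exact (dec2 hv).symm
  rw [h]
  exact Submodule.sub_mem _ hv (Submodule.smul_mem _ _ om_mem_Deg)

theorem Λ_u2 (f : E2Facts) (hv : v ∈ Deg 2) : Λop (u2 v) = 0 :=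
  f.trip.lefU2_Λ (H_of hv _ (by norm_num)) (ΛΛ2 hv)

theorem J_om (f : E2Facts) : J om = om := by
  have := f.J_L 1
  rwa [mul_one, f.J_one, mul_one] at this

theorem J_om_pow (f : E2Facts) (n : ℕ) : J (om ^ n) = om ^ n := by
  induction n with
  | zero => rw [pow_zero]; exact f.J_one
  | succ n ih => rw [pow_succ', f.J_L, ih]

theorem J_om_pow_mul (f : E2Facts) (n : ℕ) (a : E) : J (om ^ n * a) = om ^ n * J a := by
  induction n with
  | zero => simp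
  | succ n ih => rw [pow_succ', mul_assoc, f.J_L, ih, ← mul_assoc]

theorem J_u2 (f : E2Facts) (hv : v ∈ Deg 2) (hJ : J v = v) : J (u2 v) = u2 v := by
  have h : u2 v = v - c2 v • om := by
    rw [eq_sub_iff_add_eq]; exact (dec2 hv).symm
  rw [h, map_sub, map_smul, J_om f, hJ]

/-- `u` primitive of degree 2 -/
theorem om4_mul_prim (f : E2Facts) {u : E} (hu : u ∈ Deg 2) (hΛ : Λop u = 0) :
    om ^ 4 * u = 0 := by
  have := f.trip.L4 hΛ (H_of hu _ (by norm_num))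
  rwa [Lop_pow_apply] at this

/-- the star of a primitive invariant element of degree 2 -/
theorem star_prim2 (f : E2Facts) {u : E} (hu : u ∈ Deg 2) (hΛ : Λop u = 0) (hJ : J u = u) :
    star u = -((6 : ℝ)⁻¹ • (om ^ 3 * u)) := by
  rw [f.star_eq 2 u hu, f.trip.wey2 le_rfl hΛ (H_of hu _ (by norm_num)), Lop_pow_apply, map_smul,
    J_om_pow_mul f, hJ]
  norm_num

lemma Lop_one : Lop (1 : E) = om := mul_one om

lemma Lop_Lop_one : Lop (Lop (1 : E)) = om ^ 2 := by rw [Lop_one, sq]; rfl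

lemma Lop_pow_one (n : ℕ) : (Lop ^ n : Module.End ℝ E) 1 = om ^ n := by
  rw [Lop_pow_apply, mul_one]

theorem star_om (f : E2Facts) : star om = (24 : ℝ)⁻¹ • om ^ 4 := by
  have h0 : Λop (1 : E) = 0 := Λop_eq_zero (by norm_num) one_mem_Deg
  have h1 := f.trip.wey0L le_rfl h0 (H_of one_mem_Deg _ (by norm_num))
  have h2 : wey 6 (Lop : Module.End ℝ E) Λop om = wey 6 (Lop : Module.End ℝ E) Λop (Lop 1) :=
    congrArg _ Lop_one.symm
  have : wey 6 (Lop : Module.End ℝ E) Λop om = -((24 : ℝ)⁻¹ • om ^ 4) := by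
    rw [h2, h1, Lop_pow_one]
  rw [f.star_eq 2 om om_mem_Deg, this, map_neg, map_smul, J_om_pow f]
  norm_num

theorem star_dec2 (f : E2Facts) (hv : v ∈ Deg 2) (hJ : J v = v) :
    star v = -((6 : ℝ)⁻¹ • (om ^ 3 * u2 v)) + (c2 v / 24) • om ^ 4 := by
  conv_lhs => rw [dec2 hv]
  rw [map_add, map_smul, star_prim2 f (u2_mem hv) (Λ_u2 f hv) (J_u2 f hv hJ), star_om f,
    smul_smul]
  rfl

theorem star_one (f : E2Facts) : star (1 : E) = (120 : ℝ)⁻¹ • om ^ 5 := by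
  have h0 : Λop (1 : E) = 0 := Λop_eq_zero (by norm_num) one_mem_Deg
  have := f.trip.wey0 le_rfl h0 (H_of one_mem_Deg _ (by norm_num))
  rw [Lop_pow_apply, mul_one] at this
  rw [f.star_eq 0 1 one_mem_Deg, this, map_smul, J_om_pow f]
  norm_num

lemma inner_one_one : inner ℝ (1 : E) (1 : E) = 1 := by
  rw [one_def, inner_mono, co_mono, if_pos rfl]

theorem top_om5 (f : E2Facts) : top (om ^ 5) = 120 := by
  have h1 : top (1 * star (1 : E)) = 1 := by rw [top_mul_star, inner_one_one]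
  rw [one_mul, star_one f, map_smul, smul_eq_mul] at h1
  linarith

/-- `u` primitive of degree 2 -/
theorem top_om3_sq (f : E2Facts) {u : E} (hu : u ∈ Deg 2) (hΛ : Λop u = 0) (hJ : J u = u) :
    top (om ^ 3 * u * u) = -6 * ‖u‖ ^ 2 := by
  have h1 : top (u * star u) = ‖u‖ ^ 2 := by
    rw [top_mul_star, real_inner_self_eq_norm_sq]
  have h2 : om ^ 3 * u * u = u * (om ^ 3 * u) :=
    mul_comm_even (k := 8) ⟨4, rfl⟩ (mul_mem_Deg (om_pow_mem_Deg 3) hu) u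
  rw [star_prim2 f hu hΛ hJ, mul_neg, mul_smul_comm, map_neg, map_smul, smul_eq_mul, ← h2] at h1
  linarith

theorem top_om4_mul (f : E2Facts) (hv : v ∈ Deg 2) : top (om ^ 4 * v) = 120 * c2 v := by
  conv_lhs => rw [dec2 hv]
  rw [mul_add, om4_mul_prim f (u2_mem hv) (Λ_u2 f hv), zero_add, mul_smul_comm, ← pow_succ,
    map_smul, top_om5 f, smul_eq_mul, mul_comm]

theorem top_om3_mul_sq (f : E2Facts) (hv : v ∈ Deg 2) (hJ : J v = v) :
    top (om ^ 3 * v * v) = -6 * ‖u2 v‖ ^ 2 + 120 * c2 v ^ 2 := by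
  have h4 := om4_mul_prim f (u2_mem hv) (Λ_u2 f hv)
  have e : om ^ 3 * v * v = om ^ 3 * u2 v * u2 v + (c2 v * c2 v) • om ^ 5 := by
    conv_lhs => rw [dec2 hv]
    have c1 : om ^ 3 * om * u2 v = 0 := by rw [← pow_succ, h4]
    have c3 : om ^ 3 * u2 v * om = 0 := by
      rw [mul_assoc, ← om_comm, ← mul_assoc, c1]
    have c4 : om ^ 3 * om * om = om ^ 5 := by rw [← pow_succ, ← pow_succ]
    simp only [mul_add, add_mul, mul_smul_comm, smul_mul_assoc, c1, c3, c4, smul_zero, add_zero,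
      zero_add, smul_smul]
  rw [e, map_add, map_smul, top_om3_sq f (u2_mem hv) (Λ_u2 f hv) (J_u2 f hv hJ), top_om5 f,
    smul_eq_mul]
  ring

/-! ### degree 4 -/

lemma W4_mem (hv : v ∈ Deg 4) : (lefW4 Λop : Module.End ℝ E) v ∈ Deg 0 := by
  have e : (lefW4 Λop : Module.End ℝ E) v = (40 : ℝ)⁻¹ • Λop (Λop v) := rfl
  rw [e]
  exact Submodule.smul_mem _ _ (Λop_mem_Deg (Λop_mem_Deg hv))

lemma W4_eq (hv : v ∈ Deg 4) : (lefW4 Λop : Module.End ℝ E) v = c4 v • (1 : E) :=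
  eq_smul_one (W4_mem hv)

lemma ΛΛΛ4 (hv : v ∈ Deg 4) : Λop (Λop (Λop v)) = 0 :=
  Λop_eq_zero (by norm_num) (Λop_mem_Deg (Λop_mem_Deg hv))

/-- the decomposition in degree 4 -/
theorem dec4 (hv : v ∈ Deg 4) : v = p4 v + om * u4 v + c4 v • om ^ 2 := by
  have h : v = p4 v + Lop (u4 v) + Lop (Lop ((lefW4 Λop : Module.End ℝ E) v)) := Trip.lef4
  rw [W4_eq hv, map_smul, map_smul, Lop_apply, Lop_apply, Lop_apply, mul_one, ← sq] at h
  exact h

theorem u4_mem (hv : v ∈ Deg 4) : u4 v ∈ Deg 2 := by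
  have e : u4 v = (3 : ℝ)⁻¹ • Λop (v - Lop (Lop ((lefW4 Λop : Module.End ℝ E) v))) := rfl
  rw [e]
  exact Submodule.smul_mem _ _ (Λop_mem_Deg (Submodule.sub_mem _ hv
    (Lop_mem_Deg (Lop_mem_Deg (W4_mem hv)))))

theorem p4_mem (hv : v ∈ Deg 4) : p4 v ∈ Deg 4 := by
  have e : p4 v = v - Lop (Lop ((lefW4 Λop : Module.End ℝ E) v)) - Lop (u4 v) := rfl
  rw [e]
  exact Submodule.sub_mem _ (Submodule.sub_mem _ hv (Lop_mem_Deg (Lop_mem_Deg (W4_mem hv))))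
    (Lop_mem_Deg (u4_mem hv))

theorem Λ_u4 (f : E2Facts) (hv : v ∈ Deg 4) : Λop (u4 v) = 0 :=
  f.trip.lefU4_Λ (H_of hv _ (by norm_num)) (ΛΛΛ4 hv)

theorem Λ_p4 (f : E2Facts) (hv : v ∈ Deg 4) : Λop (p4 v) = 0 :=
  f.trip.lefP4_Λ (H_of hv _ (by norm_num)) (ΛΛΛ4 hv)

theorem J_u4 (f : E2Facts) (hJ : J v = v) : J (u4 v) = u4 v :=
  Trip.lefU4_J (L := Lop) (Λ := Λop) (LinearMap.ext fun x => (f.J_L x).symm)
    (LinearMap.ext fun x => (f.J_Λ x).symm) hJ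

theorem J_p4 (f : E2Facts) (hJ : J v = v) : J (p4 v) = p4 v :=
  Trip.lefP4_J (L := Lop) (Λ := Λop) (LinearMap.ext fun x => (f.J_L x).symm)
    (LinearMap.ext fun x => (f.J_Λ x).symm) hJ

/-- `p` primitive of degree 4 -/
theorem om2_mul_prim (f : E2Facts) {p : E} (hp : p ∈ Deg 4) (hΛ : Λop p = 0) :
    om ^ 2 * p = 0 := by
  have := f.trip.L2 hΛ (H_of hp _ (by norm_num))
  rwa [Lop_pow_apply] at this

theorem star_prim4 (f : E2Facts) {p : E} (hp : p ∈ Deg 4) (hΛ : Λop p = 0) (hJ : J p = p) :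
    star p = om * p := by
  rw [f.star_eq 4 p hp, f.trip.wey4 le_rfl hΛ (H_of hp _ (by norm_num)), Lop_apply, f.J_L, hJ]
  norm_num

theorem star_om_prim2 (f : E2Facts) {u : E} (hu : u ∈ Deg 2) (hΛ : Λop u = 0) (hJ : J u = u) :
    star (om * u) = -((2 : ℝ)⁻¹ • (om ^ 2 * u)) := by
  have h1 := f.trip.wey2L le_rfl hΛ (H_of hu _ (by norm_num))
  have h2 : wey 6 (Lop : Module.End ℝ E) Λop (om * u) = wey 6 (Lop : Module.End ℝ E) Λop (Lop u) :=
    congrArg _ (Lop_apply u).symm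
  have h : wey 6 (Lop : Module.End ℝ E) Λop (om * u) = -((2 : ℝ)⁻¹ • (om ^ 2 * u)) := by
    rw [h2, h1, Lop_pow_apply]
  rw [f.star_eq 4 _ (mul_mem_Deg om_mem_Deg hu), h, map_neg, map_smul, J_om_pow_mul f, hJ]
  norm_num

theorem star_om2 (f : E2Facts) : star (om ^ 2) = (3 : ℝ)⁻¹ • om ^ 3 := by
  have h0 : Λop (1 : E) = 0 := Λop_eq_zero (by norm_num) one_mem_Deg
  have h1 := f.trip.wey0LL le_rfl h0 (H_of one_mem_Deg _ (by norm_num))
  have h2 : wey 6 (Lop : Module.End ℝ E) Λop (om ^ 2)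
      = wey 6 (Lop : Module.End ℝ E) Λop (Lop (Lop 1)) := congrArg _ Lop_Lop_one.symm
  have : wey 6 (Lop : Module.End ℝ E) Λop (om ^ 2) = (3 : ℝ)⁻¹ • om ^ 3 := by
    rw [h2, h1, Lop_pow_one]
  rw [f.star_eq 4 _ (om_pow_mem_Deg 2), this, map_smul, J_om_pow f]
  norm_num

theorem star_dec4 (f : E2Facts) (hv : v ∈ Deg 4) (hJ : J v = v) :
    star v = om * p4 v - (2 : ℝ)⁻¹ • (om ^ 2 * u4 v) + (c4 v / 3) • om ^ 3 := by
  conv_lhs => rw [dec4 hv]
  rw [map_add, map_add, map_smul, star_prim4 f (p4_mem hv) (Λ_p4 f hv) (J_p4 f hJ),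
    star_om_prim2 f (u4_mem hv) (Λ_u4 f hv) (J_u4 f hJ), star_om2 f, smul_smul, sub_eq_add_neg]
  rfl

/-- `p` primitive invariant of degree 4 -/
theorem top_om_sq (f : E2Facts) {p : E} (hp : p ∈ Deg 4) (hΛ : Λop p = 0) (hJ : J p = p) :
    top (om * p * p) = ‖p‖ ^ 2 := by
  have h1 : top (p * star p) = ‖p‖ ^ 2 := by
    rw [top_mul_star, real_inner_self_eq_norm_sq]
  have h2 : om * p * p = p * (om * p) :=
    mul_comm_even (k := 6) ⟨3, rfl⟩ (mul_mem_Deg om_mem_Deg hp) p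
  rw [star_prim4 f hp hΛ hJ, ← h2] at h1
  exact h1

theorem om2_mul (f : E2Facts) (hv : v ∈ Deg 4) :
    om ^ 2 * v = om ^ 3 * u4 v + c4 v • om ^ 4 := by
  conv_lhs => rw [dec4 hv]
  rw [mul_add, mul_add, om2_mul_prim f (p4_mem hv) (Λ_p4 f hv), zero_add, mul_smul_comm,
    ← mul_assoc, ← pow_succ, ← pow_add]

/-- `∫ ω² φ u` -/
theorem top_om2_mul_u4 (f : E2Facts) (hv : v ∈ Deg 4) (hJ : J v = v) :
    top (om ^ 2 * v * u4 v) = -6 * ‖u4 v‖ ^ 2 := by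
  rw [om2_mul f hv, add_mul, smul_mul_assoc, om4_mul_prim f (u4_mem hv) (Λ_u4 f hv), smul_zero,
    add_zero, top_om3_sq f (u4_mem hv) (Λ_u4 f hv) (J_u4 f hJ)]

/-- `∫ ω² φ w`, `w` any element of degree 2 -/
theorem top_om2_mul_two (f : E2Facts) (hv : v ∈ Deg 4) {w : E} (hw : w ∈ Deg 2)
    (hΛ : Λop w = 0) : top (om ^ 2 * v * w) = top (om ^ 3 * u4 v * w) := by
  rw [om2_mul f hv, add_mul, smul_mul_assoc, om4_mul_prim f hw hΛ, smul_zero, add_zero]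

/-- `∫ ω φ²` -/
theorem top_om_mul_sq (f : E2Facts) (hv : v ∈ Deg 4) (hJ : J v = v) :
    top (om * v * v) = ‖p4 v‖ ^ 2 - 6 * ‖u4 v‖ ^ 2 + 120 * c4 v ^ 2 := by
  set p := p4 v with hp
  set u := u4 v with hu
  set c := c4 v with hc
  have hp0 : om ^ 2 * p = 0 := om2_mul_prim f (p4_mem hv) (Λ_p4 f hv)
  have hu0 : om ^ 4 * u = 0 := om4_mul_prim f (u4_mem hv) (Λ_u4 f hv)
  have hpu : om * (om * p) = 0 := by rw [← mul_assoc, ← sq, hp0]
  have e1 : om * v * v = om * p * p + om ^ 3 * u * u + (c * c) • om ^ 5 := by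
    have hv' : v = p + om * u + c • om ^ 2 := dec4 hv
    conv_lhs => rw [hv']
    have z1 : om * p * (om * u) = 0 := by
      rw [mul_assoc, ← mul_assoc p, ← om_comm p, mul_assoc, ← mul_assoc om, ← sq, ← mul_assoc,
        hp0, zero_mul]
    have z2 : om * p * om ^ 2 = 0 := by
      rw [mul_assoc, ← mul_comm_even (k := 4) ⟨2, rfl⟩ (om_pow_mem_Deg 2) p, hp0, mul_zero]
    have z3 : om * (om * u) * p = 0 := by
      rw [← mul_assoc om, ← sq, mul_comm_even (k := 6) ⟨3, rfl⟩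
        (mul_mem_Deg (om_pow_mem_Deg 2) (u4_mem hv)) p, ← mul_assoc,
        ← mul_comm_even (k := 4) ⟨2, rfl⟩ (om_pow_mem_Deg 2) p, hp0, zero_mul]
    have z4 : om * (om * u) * (om * u) = om ^ 3 * u * u := by
      rw [← mul_assoc om, ← mul_assoc (om * om * u), mul_assoc (om * om) u om, ← om_comm u,
        ← mul_assoc (om * om) om u]
      have e3 : om * om * om = om ^ 3 := by rw [← sq, ← pow_succ]
      rw [e3]
    have z5 : om * (om * u) * om ^ 2 = 0 := by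
      rw [← mul_comm_even (k := 4) ⟨2, rfl⟩ (om_pow_mem_Deg 2), ← mul_assoc, ← mul_assoc,
        ← pow_succ, ← pow_succ, hu0]
    have z6 : om * om ^ 2 * p = 0 := by
      rw [mul_assoc, hp0, mul_zero]
    have z7 : om * om ^ 2 * (om * u) = 0 := by
      rw [← pow_succ', ← mul_assoc, ← pow_succ, hu0]
    have z8 : om * om ^ 2 * om ^ 2 = om ^ 5 := by
      rw [← pow_succ', ← pow_add]
    simp only [mul_add, add_mul, mul_smul_comm, smul_mul_assoc, z1, z2, z3, z4, z5, z6, z7, z8,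
      smul_zero, add_zero, zero_add, smul_smul]
  rw [e1, map_add, map_add, map_smul, top_om_sq f (p4_mem hv) (Λ_p4 f hv) (J_p4 f hJ),
    top_om3_sq f (u4_mem hv) (Λ_u4 f hv) (J_u4 f hJ), top_om5 f, smul_eq_mul]
  ring

theorem top_om_mul_sq_ge (f : E2Facts) (hv : v ∈ Deg 4) (hJ : J v = v) :
    -6 * ‖u4 v‖ ^ 2 ≤ top (om * v * v) := by
  rw [top_om_mul_sq f hv hJ]
  nlinarith [sq_nonneg ‖p4 v‖, sq_nonneg (c4 v)]

/-! ### inverses -/

theorem S9_mem {η : E} (hη : η ∈ Deg 9) : S9 η ∈ Deg 1 := by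
  have e : S9 η = (576 : ℝ)⁻¹ • Λop (Λop (Λop (Λop η))) := rfl
  rw [e]
  exact Submodule.smul_mem _ _ (Λop_mem_Deg (Λop_mem_Deg (Λop_mem_Deg (Λop_mem_Deg hη))))

theorem om4_S9 (f : E2Facts) {η : E} (hη : η ∈ Deg 9) : om ^ 4 * S9 η = η := by
  have h0 : (Lop : Module.End ℝ E) η = 0 := eq_zero_of_Deg (by norm_num) (Lop_mem_Deg hη)
  have := f.trip.L4_R4 h0 (H_of hη _ (by norm_num))
  rwa [Lop_pow_apply] at this

theorem S9_om4 (f : E2Facts) {a : E} (ha : a ∈ Deg 1) : S9 (om ^ 4 * a) = a := by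
  have := f.trip.R4_L4 (Λop_eq_zero (by norm_num) ha) (H_of ha _ (by norm_num))
  rwa [Lop_pow_apply] at this

theorem S7_mem {η : E} (hη : η ∈ Deg 7) : S7 η ∈ Deg 3 := by
  have e : S7 η = (144 : ℝ)⁻¹ • ((40 : ℝ) • Λop (Λop η) -
    Λop (Λop (Lop (Lop (Λop (Λop η)))))) := rfl
  rw [e]
  have h3 := Λop_mem_Deg (Λop_mem_Deg hη)
  exact Submodule.smul_mem _ _ (Submodule.sub_mem _ (Submodule.smul_mem _ _ h3)
    (Λop_mem_Deg (Λop_mem_Deg (Lop_mem_Deg (Lop_mem_Deg h3)))))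

theorem om2_S7 (f : E2Facts) {η : E} (hη : η ∈ Deg 7) : om ^ 2 * S7 η = η := by
  have h0 : (Lop : Module.End ℝ E) (Lop η) = 0 :=
    eq_zero_of_Deg (by norm_num) (Lop_mem_Deg (Lop_mem_Deg hη))
  have := f.trip.L2_R2 (H_of hη _ (by norm_num)) h0
  rwa [Lop_pow_apply] at this

theorem S7_om2 (f : E2Facts) {a : E} (ha : a ∈ Deg 3) : S7 (om ^ 2 * a) = a := by
  have := f.trip.R2_L2 (H_of ha _ (by norm_num))
    (Λop_eq_zero (by norm_num) (Λop_mem_Deg ha))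
  rwa [Lop_pow_apply] at this

end EH
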