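import Pool.Agent.Work.MP_9eee85_co.EH.JStar
import Pool.Agent.Work.MP_9eee85_co.EH.LefE

/-!
The facts on `J`, the star and the Lefschetz triple, as needed by `LefE`.
-/

namespace EH

theorem e2facts : E2Facts where
  trip := trip
  star_eq := fun _ _ h => star_eq_wey h
  J_L := fun a => J_Lop a
  J_Λ := fun a => J_Λop a
  J_one := J_one

end EH
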