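import Pool.Agent.Work.MP_9eee85_co.EH.XConnC

/-!
# The exhaustion function of the affine model (EH cell, MP_9eee85_co)

* `Coer g` : the boxes `{x | ∀ k, ‖g k x‖ ≤ R}` of a finite family of functions are compact;
* `XData.isCompact_box`, `XData.coer` : the functions `z_i`, `1/h` on the affine model;
* `exA g x = ∑ k, log (1 + ‖g k x‖²)`, `exR g = log (1 + exA g)` and compactness of their
  sublevel sets;
* `chi : ℝ → ℝ` a smooth cutoff (`1` on `t ≤ 1`, `0` on `2 ≤ t`) and the cutoffs
  `exC g R x = chi (exR g x / R)`.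
-/

open Topology Filter ContDiff

namespace EHX

section coer

variable {X κ : Type*}

/-- The boxes of the family are compact. -/
def Coer [TopologicalSpace X] (g : κ → X → ℂ) : Prop := ∀ R : ℝ, IsCompact {x | ∀ k, ‖g k x‖ ≤ R}

/-- A family with a coercive subfamily is coercive. -/
theorem Coer.of_sub [TopologicalSpace X] {κ' : Type*} {g : κ → X → ℂ} {g' : κ' → X → ℂ} (hg : Coer g')
    (hc : ∀ k, Continuous (g k)) (h : ∀ k', ∃ k, g k = g' k') : Coer g := by
  intro R
  have h1 : IsClosed {x | ∀ k, ‖g k x‖ ≤ R} := by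
    simp only [Set.ofPred_forall]
    exact isClosed_iInter fun k => isClosed_le ((hc k).norm) continuous_const
  refine (hg R).of_isClosed_subset h1 ?_
  intro x hx k'
  obtain ⟨k, hk⟩ := h k'
  rw [← hk]
  exact hx k

variable [Fintype κ]

/-- The exhaustion function `∑ k, log (1 + ‖g k x‖²)`. -/
noncomputable def exA (g : κ → X → ℂ) (x : X) : ℝ := ∑ k, Real.log (1 + ‖g k x‖ ^ 2)

theorem exA_nonneg (g : κ → X → ℂ) (x : X) : 0 ≤ exA g x :=
  Finset.sum_nonneg fun k _ => Real.log_nonneg (by nlinarith [norm_nonneg (g k x)])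

theorem one_add_exA_pos (g : κ → X → ℂ) (x : X) : 0 < 1 + exA g x := by
  linarith [exA_nonneg g x]

theorem continuous_exA [TopologicalSpace X] {g : κ → X → ℂ} (hc : ∀ k, Continuous (g k)) : Continuous (exA g) := by
  refine continuous_finsetSum _ fun k _ => ?_
  refine Continuous.log (by fun_prop) fun x => ?_
  have : 0 < 1 + ‖g k x‖ ^ 2 := by positivity
  exact this.ne'

theorem norm_le_of_exA_le {g : κ → X → ℂ} {x : X} {R : ℝ} (h : exA g x ≤ R) (k : κ) :
    ‖g k x‖ ≤ Real.exp R := by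
  have h1 : Real.log (1 + ‖g k x‖ ^ 2) ≤ R := by
    refine le_trans ?_ h
    exact Finset.single_le_sum (f := fun k => Real.log (1 + ‖g k x‖ ^ 2))
      (fun k _ => Real.log_nonneg (by nlinarith [norm_nonneg (g k x)])) (Finset.mem_univ k)
  have h2 : 1 + ‖g k x‖ ^ 2 ≤ Real.exp R := by
    have h3 : 0 < 1 + ‖g k x‖ ^ 2 := by positivity
    rw [← Real.exp_log h3]
    exact Real.exp_le_exp.mpr h1
  nlinarith [norm_nonneg (g k x), sq_nonneg (‖g k x‖ - 1)]

/-- The sublevel sets of the exhaustion function are compact. -/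
theorem isCompact_exA [TopologicalSpace X] {g : κ → X → ℂ} (hg : Coer g) (hc : ∀ k, Continuous (g k)) (R : ℝ) :
    IsCompact {x | exA g x ≤ R} := by
  refine (hg (Real.exp R)).of_isClosed_subset
    (isClosed_le (continuous_exA hc) continuous_const) ?_
  intro x hx k
  exact norm_le_of_exA_le hx k

/-- The function `ρ = log (1 + A)`. -/
noncomputable def exR (g : κ → X → ℂ) (x : X) : ℝ := Real.log (1 + exA g x)

theorem exR_nonneg (g : κ → X → ℂ) (x : X) : 0 ≤ exR g x :=
  Real.log_nonneg (by linarith [exA_nonneg g x])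

theorem continuous_exR [TopologicalSpace X] {g : κ → X → ℂ} (hc : ∀ k, Continuous (g k)) : Continuous (exR g) :=
  (continuous_const.add (continuous_exA hc)).log fun x => (one_add_exA_pos g x).ne'

theorem isCompact_exR [TopologicalSpace X] {g : κ → X → ℂ} (hg : Coer g) (hc : ∀ k, Continuous (g k)) (R : ℝ) :
    IsCompact {x | exR g x ≤ R} := by
  have : {x | exR g x ≤ R} = {x | exA g x ≤ Real.exp R - 1} := by
    ext x
    simp only [Set.mem_ofPred_eq, exR]
    rw [Real.log_le_iff_le_exp (one_add_exA_pos g x)]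
    constructor <;> intro h <;> linarith
  rw [this]
  exact isCompact_exA hg hc _

end coer

section chi

/-- A smooth cutoff function: `1` for `t ≤ 1`, `0` for `2 ≤ t`. -/
noncomputable def chi (t : ℝ) : ℝ := Real.smoothTransition (2 - t)

theorem contDiff_chi {m : WithTop ℕ∞} (hm : m ≤ ∞) : ContDiff ℝ m chi := by
  have h : ContDiff ℝ ∞ Real.smoothTransition := Real.smoothTransition.contDiff
  exact (h.comp (contDiff_const.sub contDiff_id)).of_le hm

theorem chi_nonneg (t : ℝ) : 0 ≤ chi t := Real.smoothTransition.nonneg _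
theorem chi_le_one (t : ℝ) : chi t ≤ 1 := Real.smoothTransition.le_one _
theorem chi_one {t : ℝ} (h : t ≤ 1) : chi t = 1 :=
  Real.smoothTransition.one_of_one_le (by linarith)
theorem chi_zero {t : ℝ} (h : 2 ≤ t) : chi t = 0 :=
  Real.smoothTransition.zero_of_nonpos (by linarith)

theorem deriv_chi_zero {t : ℝ} (h : t < 1 ∨ 2 < t) : deriv chi t = 0 := by
  rcases h with h | h
  · have : chi =ᶠ[𝓝 t] fun _ => 1 := by
      filter_upwards [Iio_mem_nhds h] with s hs using chi_one (le_of_lt hs)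
    rw [this.deriv_eq, deriv_const]
  · have : chi =ᶠ[𝓝 t] fun _ => 0 := by
      filter_upwards [Ioi_mem_nhds h] with s hs using chi_zero (le_of_lt hs)
    rw [this.deriv_eq, deriv_const]

/-- The derivative of the cutoff is bounded. -/
theorem exists_chi_bound : ∃ C : ℝ, 0 < C ∧ ∀ t, |deriv chi t| ≤ C := by
  have hc : Continuous (deriv chi) :=
    (contDiff_chi (m := 1) (by norm_num)).continuous_deriv le_rfl
  obtain ⟨C, hC⟩ := (isCompact_Icc (a := (1:ℝ)) (b := 2)).exists_bound_of_continuousOn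
    hc.continuousOn
  refine ⟨max C 1, by positivity, fun t => ?_⟩
  by_cases ht : t ∈ Set.Icc (1:ℝ) 2
  · exact (hC t ht).trans (le_max_left _ _)
  · rw [deriv_chi_zero, abs_zero]
    · positivity
    · rw [Set.mem_Icc, not_and_or, not_le, not_le] at ht
      exact ht

end chi

section cutoff

variable {X κ : Type*} [Fintype κ]

/-- The cutoffs. -/
noncomputable def exC (g : κ → X → ℂ) (R : ℝ) (x : X) : ℝ := chi (exR g x / R)

theorem exC_nonneg (g : κ → X → ℂ) (R : ℝ) (x : X) : 0 ≤ exC g R x := chi_nonneg _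
theorem exC_le_one (g : κ → X → ℂ) (R : ℝ) (x : X) : exC g R x ≤ 1 := chi_le_one _

theorem exC_eq_one {g : κ → X → ℂ} {R : ℝ} (hR : 0 < R) {x : X} (h : exR g x ≤ R) :
    exC g R x = 1 := chi_one (by rwa [div_le_one hR])

theorem exC_eq_zero {g : κ → X → ℂ} {R : ℝ} (hR : 0 < R) {x : X} (h : 2 * R ≤ exR g x) :
    exC g R x = 0 := chi_zero (by rwa [le_div_iff₀ hR])

theorem continuous_exC [TopologicalSpace X] {g : κ → X → ℂ} (hc : ∀ k, Continuous (g k)) (R : ℝ) :
    Continuous (exC g R) :=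
  (contDiff_chi (m := 0) (by simp)).continuous.comp ((continuous_exR hc).div_const R)

theorem tsupport_exC_subset [TopologicalSpace X] {g : κ → X → ℂ} (hc : ∀ k, Continuous (g k)) {R : ℝ} (hR : 0 < R) :
    tsupport (exC g R) ⊆ {x | exR g x ≤ 2 * R} := by
  refine closure_minimal ?_ (isClosed_le (continuous_exR hc) continuous_const)
  intro x hx
  by_contra h
  exact hx (exC_eq_zero hR (le_of_lt (not_le.mp h)))

theorem hasCompactSupport_exC [TopologicalSpace X] {g : κ → X → ℂ} (hg : Coer g) (hc : ∀ k, Continuous (g k)) {R : ℝ}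
    (hR : 0 < R) : HasCompactSupport (exC g R) :=
  (isCompact_exR hg hc (2 * R)).of_isClosed_subset (isClosed_tsupport _)
    (tsupport_exC_subset hc hR)

/-- The cutoffs are eventually one at every point. -/
theorem exC_eventually_one (g : κ → X → ℂ) (x : X) : ∀ᶠ R : ℝ in atTop, exC g R x = 1 := by
  filter_upwards [eventually_gt_atTop 0, eventually_ge_atTop (exR g x)] with R h1 h2
    using exC_eq_one h1 h2

/-- The cutoffs are eventually one on every compact set. -/
theorem exC_eventually_one_on [TopologicalSpace X] {g : κ → X → ℂ} (hc : ∀ k, Continuous (g k)) {K : Set X}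
    (hK : IsCompact K) : ∀ᶠ R : ℝ in atTop, ∀ x ∈ K, exC g R x = 1 := by
  obtain ⟨C, hC⟩ := hK.exists_bound_of_continuousOn (continuous_exR hc).continuousOn
  filter_upwards [eventually_gt_atTop 0, eventually_ge_atTop C] with R h1 h2 x hx
  exact exC_eq_one h1 ((le_abs_self _).trans ((hC x hx).trans h2))

theorem tendsto_exC (g : κ → X → ℂ) (x : X) : Tendsto (fun R => exC g R x) atTop (𝓝 1) :=
  tendsto_const_nhds.congr' ((exC_eventually_one g x).mono fun _ h => h.symm)

end cutoff

namespace XData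

variable {n : ℕ} (D : XData n)

/-- The boxes of the functions `z_i`, `1/h` on the affine model are compact. -/
theorem isCompact_box (R : ℝ) : IsCompact {x : D.X | (∀ i, ‖D.proj x i‖ ≤ R) ∧
    ‖(MvPolynomial.eval (D.proj x) D.h)⁻¹‖ ≤ R} := by
  rw [Subtype.isCompact_iff]
  have himage : (Subtype.val '' {x : D.X | (∀ i, ‖D.proj x i‖ ≤ R) ∧
      ‖(MvPolynomial.eval (D.proj x) D.h)⁻¹‖ ≤ R}) =
      {v : (Fin n → ℂ) × ℂ | (∀ i, ‖v.1 i‖ ≤ R) ∧ 1 ≤ R * ‖MvPolynomial.eval v.1 D.h‖ ∧
        D.G v = 0} := by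
    ext v
    constructor
    · rintro ⟨x, ⟨h1, h2⟩, rfl⟩
      refine ⟨h1, ?_, x.2.2⟩
      have h0 : MvPolynomial.eval x.1.1 D.h ≠ 0 := x.2.1
      have h3 : 0 < ‖MvPolynomial.eval x.1.1 D.h‖ := norm_pos_iff.mpr h0
      rw [norm_inv] at h2
      exact (inv_le_iff_one_le_mul₀ h3).mp h2
    · rintro ⟨h1, h2, h3⟩
      have h0 : MvPolynomial.eval v.1 D.h ≠ 0 := by
        intro h
        rw [h, norm_zero, mul_zero] at h2
        linarith
      refine ⟨⟨v, h0, h3⟩, ⟨h1, ?_⟩, rfl⟩
      have h4 : 0 < ‖MvPolynomial.eval v.1 D.h‖ := norm_pos_iff.mpr h0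
      show ‖(MvPolynomial.eval v.1 D.h)⁻¹‖ ≤ R
      rw [norm_inv, inv_le_iff_one_le_mul₀ h4]
      exact h2
  rw [himage]
  obtain ⟨B, ⟨C, hC, M, hB⟩, -, hy⟩ := D.fib_growth
  refine Metric.isCompact_of_isClosed_isBounded ?_ ?_
  · have e : {v : (Fin n → ℂ) × ℂ | (∀ i, ‖v.1 i‖ ≤ R) ∧ 1 ≤ R * ‖MvPolynomial.eval v.1 D.h‖ ∧
        D.G v = 0} = (⋂ i, {v : (Fin n → ℂ) × ℂ | ‖v.1 i‖ ≤ R}) ∩
        ({v | 1 ≤ R * ‖MvPolynomial.eval v.1 D.h‖} ∩ {v | D.G v = 0}) := by
      ext v
      simp only [Set.mem_ofPred_eq, Set.mem_inter_iff, Set.mem_iInter]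
    rw [e]
    refine (isClosed_iInter fun i => isClosed_le (by fun_prop) continuous_const).inter
      (IsClosed.inter (isClosed_le continuous_const ?_)
        (isClosed_eq D.contDiff_G.continuous continuous_const))
    exact continuous_const.mul ((MvPolynomial.continuous_eval D.h).comp continuous_fst).norm
  · rw [isBounded_iff_forall_norm_le]
    refine ⟨max |R| (C * (1 + |R|) ^ M), ?_⟩
    rintro v ⟨h1, h2, h3⟩
    have h4 : ‖v.1‖ ≤ |R| := by
      rw [pi_norm_le_iff_of_nonneg (abs_nonneg _)]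
      exact fun i => (h1 i).trans (le_abs_self _)
    have h5 : ‖v.2‖ ≤ C * (1 + |R|) ^ M := by
      refine (hy v.1 v.2 (D.mem_fib.mpr h3)).trans ((hB v.1).trans ?_)
      gcongr
    rw [Prod.norm_def]
    exact max_le_max h4 h5

/-- The exhausting functions: `z_i` and `1/h`. -/
noncomputable def exg : Option (Fin n) → D.X → ℂ
  | none => fun x => (MvPolynomial.eval (D.proj x) D.h)⁻¹
  | some i => fun x => D.proj x i

theorem continuous_exg (k : Option (Fin n)) : Continuous (D.exg k) := by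
  cases k with
  | none =>
    exact ((MvPolynomial.continuous_eval D.h).comp D.continuous_proj).inv₀ fun x => x.2.1
  | some i => exact (continuous_apply i).comp D.continuous_proj

theorem coer_exg : Coer D.exg := by
  intro R
  have e : {x : D.X | ∀ k, ‖D.exg k x‖ ≤ R} = {x : D.X | (∀ i, ‖D.proj x i‖ ≤ R) ∧
      ‖(MvPolynomial.eval (D.proj x) D.h)⁻¹‖ ≤ R} := by
    ext x
    constructor
    · exact fun h => ⟨fun i => h (some i), h none⟩
    · rintro ⟨h1, h2⟩ (_ | i)
      · exact h2
      · exact h1 i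
  rw [e]
  exact D.isCompact_box R

end XData

end EHX
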