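import Pool.Agent.Work.MP_9eee85_co.EH.ExhA
import Pool.Agent.Work.MP_9eee85_co.EH.Defs

/-!
# The exhaustion function on `X`: smoothness, derivatives, cutoffs (EH cell, MP_9eee85_co)

For a local homeomorphism `π : X → V` and a coercive family of smooth functions `g : κ → X → ℂ`:
`exists_cutoffs` : smooth cutoffs with compact support, equal to one on a given compact set, the
derivative of which is as small as one likes, measured by any absolutely homogeneous function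
which is bounded on `d log (1 + A)`.
-/

noncomputable section

namespace EH.Exh

open MeasureTheory Filter Topology Set EHX
open scoped ContDiff

section

variable {V : Type*} [NormedAddCommGroup V] [NormedSpace ℝ V]
variable {X : Type*} [TopologicalSpace X] {π : X → V} (hπ : IsLocalHomeomorph π)
variable {W : Type*} [NormedAddCommGroup W] [NormedSpace ℝ W]
variable {W' : Type*} [NormedAddCommGroup W'] [NormedSpace ℝ W']

omit [NormedAddCommGroup W] [NormedSpace ℝ W] in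
lemma comp_lsec_self (f : X → W) (x : X) : (f ∘ lsec hπ x) (π x) = f x := by
  rw [Function.comp_apply, lsec_self]

/-- Composition with a smooth function. -/
lemma LSm_comp {n : ℕ∞} {f : X → W} (hf : LSm hπ n f) {φ : W → W'} (hφ : ContDiff ℝ n φ) :
    LSm hπ n (fun x => φ (f x)) := fun x =>
  (hφ.contDiffAt (x := (f ∘ lsec hπ x) (π x))).comp (π x) (hf x)

lemma LSm_compAt {n : ℕ∞} {f : X → W} (hf : LSm hπ n f) {φ : W → W'}
    (hφ : ∀ x, ContDiffAt ℝ n φ (f x)) :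
    LSm hπ n (fun x => φ (f x)) := fun x => by
  have h := hφ x
  rw [← comp_lsec_self hπ f x] at h
  exact h.comp (π x) (hf x)

lemma LSm_sum {n : ℕ∞} {κ : Type*} {s : Finset κ} {f : κ → X → W}
    (hf : ∀ k ∈ s, LSm hπ n (f k)) : LSm hπ n (fun x => ∑ k ∈ s, f k x) := fun x => by
  have h := ContDiffAt.sum (s := s) (f := fun k => f k ∘ lsec hπ x) fun k hk => hf k hk x
  have e : (fun x => ∑ k ∈ s, f k x) ∘ lsec hπ x = fun v => ∑ k ∈ s, (f k ∘ lsec hπ x) v := rfl
  rw [e]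
  exact h

lemma differentiableAt_lsec {n : ℕ∞} (hn : 1 ≤ n) {f : X → W} (hf : LSm hπ n f) (x : X) :
    DifferentiableAt ℝ (f ∘ lsec hπ x) (π x) :=
  (hf x).differentiableAt (by
    intro h
    have h' : n = 0 := by exact_mod_cast h
    rw [h'] at hn
    exact absurd hn (by norm_num))

/-- The chain rule for functions of a real function. -/
lemma LD_comp_real {f : X → ℝ} {x : X} (hf : DifferentiableAt ℝ (f ∘ lsec hπ x) (π x))
    {φ : ℝ → ℝ} (hφ : DifferentiableAt ℝ φ (f x)) :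
    LD hπ (fun y => φ (f y)) x = deriv φ (f x) • LD hπ f x := by
  have h1 : HasDerivAt φ (deriv φ (f x)) ((f ∘ lsec hπ x) (π x)) := by
    rw [comp_lsec_self]; exact hφ.hasDerivAt
  exact (h1.comp_hasFDerivAt (π x) hf.hasFDerivAt).fderiv

end

/-- the function `log (1 + |w|²)` -/
def lg (w : ℂ) : ℝ := Real.log (1 + ‖w‖ ^ 2)

lemma contDiff_lg {m : WithTop ℕ∞} : ContDiff ℝ m lg := by
  refine ContDiff.log (contDiff_const.add (contDiff_norm_sq ℝ)) fun w => ?_
  have : 0 < 1 + ‖w‖ ^ 2 := by positivity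
  exact this.ne'

section

variable {V : Type*} [NormedAddCommGroup V] [NormedSpace ℝ V]
variable {X : Type*} [TopologicalSpace X] {π : X → V} (hπ : IsLocalHomeomorph π)
variable {κ : Type*} [Fintype κ] {g : κ → X → ℂ}

lemma LSm_exA {n : ℕ∞} (hg : ∀ k, LSm hπ n (g k)) : LSm hπ n (exA g) :=
  LSm_sum hπ fun k _ => LSm_comp hπ (hg k) contDiff_lg

lemma LSm_exR {n : ℕ∞} (hg : ∀ k, LSm hπ n (g k)) : LSm hπ n (exR g) := by
  refine LSm_compAt hπ (LSm_exA hπ hg) (φ := fun t => Real.log (1 + t)) fun x => ?_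
  exact ContDiffAt.log (contDiffAt_const.add contDiffAt_id) (one_add_exA_pos g x).ne'

lemma LSm_exC {n : ℕ∞} (hg : ∀ k, LSm hπ n (g k)) (R : ℝ) : LSm hπ n (exC g R) := by
  refine LSm_comp hπ (LSm_exR hπ hg) (φ := fun t => chi (t / R)) ?_
  exact (contDiff_chi (by exact_mod_cast le_top)).comp (contDiff_id.div_const R)

lemma LD_exR (hg : ∀ k, LSm hπ 1 (g k)) (x : X) :
    LD hπ (exR g) x = (1 + exA g x)⁻¹ • LD hπ (exA g) x := by
  have h0 : DifferentiableAt ℝ (exA g ∘ lsec hπ x) (π x) :=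
    differentiableAt_lsec hπ le_rfl (LSm_exA hπ hg) x
  have h1 : HasDerivAt (fun t : ℝ => Real.log (1 + t)) (1 + exA g x)⁻¹ (exA g x) := by
    have h2 : HasDerivAt (fun t : ℝ => 1 + t) 1 (exA g x) := (hasDerivAt_id _).const_add 1
    have h3 := h2.log (one_add_exA_pos g x).ne'
    rwa [one_div] at h3
  have h := LD_comp_real hπ h0 h1.differentiableAt
  rw [h1.deriv] at h
  exact h

lemma LD_exC (hg : ∀ k, LSm hπ 1 (g k)) (R : ℝ) (x : X) :
    LD hπ (exC g R) x = (deriv chi (exR g x / R) / R) • LD hπ (exR g) x := by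
  have h0 : DifferentiableAt ℝ (exR g ∘ lsec hπ x) (π x) :=
    differentiableAt_lsec hπ le_rfl (LSm_exR hπ hg) x
  have hd : Differentiable ℝ chi :=
    (contDiff_chi (m := 1) (by norm_num)).differentiable (by norm_num)
  have h1 : HasDerivAt (fun t : ℝ => chi (t / R)) (deriv chi (exR g x / R) / R) (exR g x) := by
    have h2 : HasDerivAt (fun t : ℝ => t / R) (1 / R) (exR g x) := (hasDerivAt_id _).div_const R
    have h3 : HasDerivAt chi (deriv chi (exR g x / R)) (exR g x / R) := (hd _).hasDerivAt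
    have h4 := h3.comp (exR g x) h2
    rwa [mul_one_div] at h4
  have h := LD_comp_real hπ h0 h1.differentiableAt
  rw [h1.deriv] at h
  exact h

/-- **Cutoffs with small derivative.** -/
theorem exists_cutoffs (hg : ∀ k, LSm hπ ⊤ (g k)) (hgc : ∀ k, Continuous (g k)) (hc : Coer g)
    {N : X → (V →L[ℝ] ℝ) → ℝ} (hN : ∀ (x : X) (c : ℝ) (l : V →L[ℝ] ℝ), N x (c • l) = |c| * N x l)
    {C : ℝ} (hC : ∀ x, N x (LD hπ (exR g) x) ≤ C) {K : Set X} (hK : IsCompact K) {ε : ℝ}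
    (hε : 0 < ε) :
    ∃ χ : X → ℝ, LSm hπ ⊤ χ ∧ HasCompactSupport χ ∧ (∀ x, 0 ≤ χ x) ∧ (∀ x, χ x ≤ 1) ∧
      (∀ x ∈ K, χ x = 1) ∧ ∀ x, N x (LD hπ χ x) ≤ ε := by
  obtain ⟨C₁, hC₁, hb⟩ := exists_chi_bound
  have h1 := exC_eventually_one_on hgc hK
  obtain ⟨R, hR1, hR2, hR3⟩ :=
    (h1.and ((eventually_gt_atTop 0).and (eventually_ge_atTop (C₁ * |C| / ε)))).exists
  have hg1 : ∀ k, LSm hπ 1 (g k) := fun k x => (hg k x).of_le (by exact_mod_cast le_top)
  refine ⟨exC g R, LSm_exC hπ hg R, hasCompactSupport_exC hc hgc hR2, exC_nonneg g R,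
    exC_le_one g R, hR1, fun x => ?_⟩
  rw [LD_exC hπ hg1, hN]
  have h2 : |deriv chi (exR g x / R) / R| ≤ C₁ / R := by
    rw [abs_div, abs_of_pos hR2]
    gcongr
    exact hb _
  have h3 : N x (LD hπ (exR g) x) ≤ |C| := (hC x).trans (le_abs_self C)
  have h4 : C₁ / R * |C| ≤ ε := by
    rw [div_le_iff₀ hε] at hR3
    rw [div_mul_eq_mul_div, div_le_iff₀ hR2]
    linarith
  calc |deriv chi (exR g x / R) / R| * N x (LD hπ (exR g) x)
      ≤ |deriv chi (exR g x / R) / R| * |C| := by gcongr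
    _ ≤ C₁ / R * |C| := by gcongr
    _ ≤ ε := h4

/-- The sequence form: cutoffs `χ k` with derivative at most `1 / (k + 1)`, tending to one. -/
theorem exists_cutoff_seq (hg : ∀ k, LSm hπ ⊤ (g k)) (hgc : ∀ k, Continuous (g k)) (hc : Coer g)
    {N : X → (V →L[ℝ] ℝ) → ℝ} (hN : ∀ (x : X) (c : ℝ) (l : V →L[ℝ] ℝ), N x (c • l) = |c| * N x l)
    {C : ℝ} (hC : ∀ x, N x (LD hπ (exR g) x) ≤ C) :
    ∃ χ : ℕ → X → ℝ, (∀ m, LSm hπ ⊤ (χ m)) ∧ (∀ m, HasCompactSupport (χ m)) ∧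
      (∀ m x, 0 ≤ χ m x) ∧ (∀ m x, χ m x ≤ 1) ∧ (∀ x, ∀ᶠ m in atTop, χ m x = 1) ∧
      ∀ m x, N x (LD hπ (χ m) x) ≤ 1 / ((m : ℝ) + 1) := by
  have h := fun m : ℕ => exists_cutoffs hπ hg hgc hc hN hC
    (isCompact_exR hc hgc (m : ℝ)) (ε := 1 / ((m : ℝ) + 1)) (by positivity)
  choose χ h1 h2 h3 h4 h5 h6 using h
  refine ⟨χ, h1, h2, h3, h4, fun x => ?_, h6⟩
  filter_upwards [eventually_ge_atTop ⌈exR g x⌉₊] with m hm
  refine h5 m x ?_
  show exR g x ≤ (m : ℝ)
  exact (Nat.le_ceil _).trans (by exact_mod_cast hm)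

end

end EH.Exh
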