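import Pool.Agent.Work.MP_9eee85_co.EH.Ext
import Pool.Agent.Work.MP_9eee85_co.EH.Chol
import Pool.Agent.Work.MP_9eee85_co.EH.Cone

/-!
# The real (1,1)-form of a Hermitian matrix, and the gauge

Conventions.  Base space `Fin 5 → ℂ`, `dz_j = dx_j + i dy_j`, `dx_j = e (xi j)`, `dy_j = e (yi j)`.
* `cv v` is the real covector with complex coordinates `v`: `∑ Re v_j dx_j + Im v_j dy_j`;
* for a row `a`, `ζ = ∑ a_j dz_j`, `zre a = Re ζ`, `zim a = Im ζ`;
* `herm2 H = (i/2) ∑ H_jk dz_j dz̄_k` for a Hermitian matrix `H`;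
* `cplx A` is the endomorphism of the real covectors with `dz_i ↦ ζ^i = ∑ A_ij dz_j`.
-/

noncomputable section

namespace EH

open Finset ComplexConjugate

/-! ### products of generators -/

lemma co_mono_mul_mono (S T U : Finset (Fin 10)) :
    co (mono S * mono T) U = if S ⊆ U ∧ U \ S = T then sgn S T else 0 := by
  rw [co_mul]
  by_cases h : S ⊆ U ∧ U \ S = T
  · rw [if_pos h, Finset.sum_eq_single S]
    · simp [h.2]
    · intro S' _ hne; simp [hne]
    · intro h'; exact absurd (mem_powerset.mpr h.1) h'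
  · rw [if_neg h]
    apply Finset.sum_eq_zero
    intro S' hS'
    by_cases h1 : S' = S
    · subst h1
      have : U \ S' ≠ T := fun h2 => h ⟨mem_powerset.mp hS', h2⟩
      simp [this]
    · simp [h1]

lemma e_mul_self (a : Fin 10) : e a * e a = 0 := by
  ext U
  rw [e, co_mono_mul_mono, if_neg]
  · rfl
  · rintro ⟨_, h2⟩
    have : a ∈ U \ {a} := by rw [h2]; simp
    simp at this

lemma e_anti (a b : Fin 10) : e a * e b = -(e b * e a) := by
  by_cases hab : a = b
  · subst hab; rw [e_mul_self]; simp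
  · ext U
    rw [co_neg, e, e, co_mono_mul_mono, co_mono_mul_mono]
    have h1 : (({a} : Finset (Fin 10)) ⊆ U ∧ U \ {a} = {b}) ↔ U = {a, b} := by
      constructor
      · rintro ⟨h1, h2⟩
        have : U = {a} ∪ (U \ {a}) := (union_sdiff_of_subset h1).symm
        rw [this, h2]; rfl
      · rintro rfl
        refine ⟨by simp, ?_⟩
        ext c
        simp only [mem_sdiff, mem_insert, mem_singleton]
        constructor
        · rintro ⟨h1, h2⟩; exact h1.resolve_left h2
        · rintro rfl; exact ⟨Or.inr rfl, fun h => hab h.symm⟩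
    have h2 : (({b} : Finset (Fin 10)) ⊆ U ∧ U \ {b} = {a}) ↔ U = {a, b} := by
      constructor
      · rintro ⟨h1, h2⟩
        have : U = {b} ∪ (U \ {b}) := (union_sdiff_of_subset h1).symm
        rw [this, h2, union_comm]; rfl
      · rintro rfl
        refine ⟨by simp, ?_⟩
        ext c
        simp only [mem_sdiff, mem_insert, mem_singleton]
        constructor
        · rintro ⟨h1, h2⟩; exact h1.resolve_right h2
        · rintro rfl; exact ⟨Or.inl rfl, hab⟩
    simp only [h1, h2]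
    by_cases hU : U = {a, b}
    · rw [if_pos hU, if_pos hU]
      rcases lt_or_gt_of_ne hab with h | h
      · have e1 : inv {a} {b} = 0 := by
          simp [inv, filter_singleton, not_lt.mpr h.le]
        have e2 : inv {b} {a} = 1 := by
          simp [inv, filter_singleton, h]
        simp [sgn, e1, e2]
      · have e1 : inv {b} {a} = 0 := by
          simp [inv, filter_singleton, not_lt.mpr h.le]
        have e2 : inv {a} {b} = 1 := by
          simp [inv, filter_singleton, h]
        simp [sgn, e1, e2]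
    · rw [if_neg hU, if_neg hU]; simp

lemma gen_eq (v : EuclideanSpace ℝ (Fin 10)) : gen v = ∑ a, v a • e a := rfl

lemma gen_anti (v w : EuclideanSpace ℝ (Fin 10)) : gen v * gen w = -(gen w * gen v) := by
  rw [gen_eq, gen_eq, Finset.sum_mul_sum, Finset.sum_mul_sum, Finset.sum_comm,
    ← Finset.sum_neg_distrib]
  refine Finset.sum_congr rfl fun b _ => ?_
  rw [← Finset.sum_neg_distrib]
  refine Finset.sum_congr rfl fun a _ => ?_
  rw [smul_mul_smul_comm, smul_mul_smul_comm, e_anti, smul_neg, mul_comm]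

lemma gen_sq (v : EuclideanSpace ℝ (Fin 10)) : gen v * gen v = 0 := by
  have h := gen_anti v v
  have h2 : (2 : ℝ) • (gen v * gen v) = 0 := by
    rw [two_smul]
    exact eq_neg_iff_add_eq_zero.mp h
  exact (smul_eq_zero.mp h2).resolve_left two_ne_zero

/-! ### real covectors and complex coordinates -/

/-- The index `xi j` or `yi j`. -/
lemma fin10_cases (a : Fin 10) : (∃ j, a = xi j) ∨ ∃ j, a = yi j := by
  have ha := a.2
  rcases Nat.even_or_odd' a.val with ⟨k, hk | hk⟩
  · left; exact ⟨⟨k, by omega⟩, Fin.ext hk⟩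
  · right; exact ⟨⟨k, by omega⟩, Fin.ext hk⟩

/-- Complex coordinates of the real covectors. -/
def cv : (Fin 5 → ℂ) ≃ₗ[ℝ] EuclideanSpace ℝ (Fin 10) where
  toFun v := WithLp.toLp 2 (fun a : Fin 10 =>
    if a.val % 2 = 0 then (v ⟨a.val / 2, by omega⟩).re else (v ⟨a.val / 2, by omega⟩).im)
  map_add' v w := by
    ext a; simp only [Pi.add_apply, Complex.add_re, Complex.add_im, PiLp.add_apply]; split_ifs <;> rfl
  map_smul' c v := by
    ext a
    simp only [Pi.smul_apply, Complex.real_smul, Complex.re_ofReal_mul, Complex.im_ofReal_mul,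
      PiLp.smul_apply, RingHom.id_apply, smul_eq_mul]
    split_ifs <;> rfl
  invFun w := fun j => ⟨w (xi j), w (yi j)⟩
  left_inv v := by
    funext j
    have h1 : (xi j).val % 2 = 0 := by simp [xi]
    have h2 : ¬ (yi j).val % 2 = 0 := by simp only [yi]; omega
    have h3 : (xi j).val / 2 = j.val := by simp [xi]
    have h4 : (yi j).val / 2 = j.val := by simp only [yi]; omega
    apply Complex.ext
    · simp only [h1, if_true, h3]
    · simp only [h2, if_false, h4]
  right_inv w := by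
    ext a
    rcases fin10_cases a with ⟨j, rfl⟩ | ⟨j, rfl⟩
    · have h1 : (xi j).val % 2 = 0 := by simp [xi]
      have h3 : (xi j).val / 2 = j.val := by simp [xi]
      simp only [h1, if_true, h3]
    · have h2 : ¬ (yi j).val % 2 = 0 := by simp only [yi]; omega
      have h4 : (yi j).val / 2 = j.val := by simp only [yi]; omega
      simp only [h2, if_false, h4]

@[simp] lemma cv_xi (v : Fin 5 → ℂ) (j : Fin 5) : cv v (xi j) = (v j).re := by
  have h1 : (xi j).val % 2 = 0 := by simp [xi]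
  have h3 : (xi j).val / 2 = j.val := by simp [xi]
  simp only [cv, LinearEquiv.coe_mk, LinearMap.coe_mk, AddHom.coe_mk, h1, if_true, h3]

@[simp] lemma cv_yi (v : Fin 5 → ℂ) (j : Fin 5) : cv v (yi j) = (v j).im := by
  have h2 : ¬ (yi j).val % 2 = 0 := by simp only [yi]; omega
  have h4 : (yi j).val / 2 = j.val := by simp only [yi]; omega
  simp only [cv, LinearEquiv.coe_mk, LinearMap.coe_mk, AddHom.coe_mk, h2, if_false, h4]

@[simp] lemma cv_symm_apply (w : EuclideanSpace ℝ (Fin 10)) (j : Fin 5) :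
    cv.symm w j = ⟨w (xi j), w (yi j)⟩ := rfl

lemma sum_fin10 {M : Type*} [AddCommMonoid M] (f : Fin 10 → M) :
    ∑ a, f a = ∑ j, (f (xi j) + f (yi j)) := by
  simp only [Fin.sum_univ_succ, Fin.sum_univ_zero]
  simp only [xi, yi]
  simp [add_assoc]

/-- The degree one form with given complex coordinates. -/
def ic : (Fin 5 → ℂ) →ₗ[ℝ] E := gen ∘ₗ cv.toLinearMap

lemma ic_apply (v : Fin 5 → ℂ) : ic v = gen (cv v) := rfl

lemma ic_eq (v : Fin 5 → ℂ) : ic v = ∑ j, ((v j).re • e (xi j) + (v j).im • e (yi j)) := by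
  rw [ic_apply, gen_eq, sum_fin10]
  simp

lemma ic_sq (v : Fin 5 → ℂ) : ic v * ic v = 0 := gen_sq _

lemma ic_anti (v w : Fin 5 → ℂ) : ic v * ic w = -(ic w * ic v) := gen_anti _ _

/-- `Re ζ`, `ζ = ∑ a_j dz_j`. -/
def zre (a : Fin 5 → ℂ) : E := ic (fun j => conj (a j))
/-- `Im ζ`, `ζ = ∑ a_j dz_j`. -/
def zim (a : Fin 5 → ℂ) : E := ic (fun j => Complex.I * conj (a j))

lemma zre_eq (a : Fin 5 → ℂ) : zre a = ∑ j, ((a j).re • e (xi j) - (a j).im • e (yi j)) := by
  rw [zre, ic_eq]
  refine Finset.sum_congr rfl fun j _ => ?_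
  simp [sub_eq_add_neg]

lemma zim_eq (a : Fin 5 → ℂ) : zim a = ∑ j, ((a j).im • e (xi j) + (a j).re • e (yi j)) := by
  rw [zim, ic_eq]
  refine Finset.sum_congr rfl fun j _ => ?_
  simp

lemma zre_mul_zim (a : Fin 5 → ℂ) :
    zre a * zim a = EHPos.pair ic (fun j => conj (a j)) := rfl

/-! ### the form of a Hermitian matrix -/

/-- `herm2 H = (i/2) ∑ H_jk dz_j dz̄_k` (`H` Hermitian). -/
def herm2 : (Fin 5 → Fin 5 → ℂ) →ₗ[ℝ] E where
  toFun H := ∑ j, ∑ k, (((H j k).re / 2) • (e (xi j) * e (yi k) - e (yi j) * e (xi k)) -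
    ((H j k).im / 2) • (e (xi j) * e (xi k) + e (yi j) * e (yi k)))
  map_add' H K := by
    simp only [Pi.add_apply, Complex.add_re, Complex.add_im, add_div, add_smul,
      ← Finset.sum_add_distrib]
    refine Finset.sum_congr rfl fun j _ => Finset.sum_congr rfl fun k _ => ?_
    abel
  map_smul' c H := by
    simp only [Pi.smul_apply, Complex.real_smul, Complex.re_ofReal_mul, Complex.im_ofReal_mul,
      RingHom.id_apply, Finset.smul_sum, smul_sub, smul_smul, mul_div_assoc]

lemma herm2_apply (H : Fin 5 → Fin 5 → ℂ) : herm2 H =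
    ∑ j, ∑ k, (((H j k).re / 2) • (e (xi j) * e (yi k) - e (yi j) * e (xi k)) -
      ((H j k).im / 2) • (e (xi j) * e (xi k) + e (yi j) * e (yi k))) := rfl

/-- The form of a rank one matrix. -/
theorem herm2_rankone (a : Fin 5 → ℂ) :
    herm2 (fun j k => a j * conj (a k)) = zre a * zim a := by
  have h2 : ∀ v : E, v = (2 : ℝ)⁻¹ • (v + v) := by
    intro v; rw [← two_smul ℝ v, smul_smul]; norm_num
  have key : zre a * zim a + zre a * zim a = zre a * zim a - zim a * zre a := by
    rw [sub_eq_add_neg]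
    congr 1
    exact ic_anti _ _
  rw [h2 (zre a * zim a), key, zre_eq, zim_eq, Finset.sum_mul_sum, Finset.sum_mul_sum,
    herm2_apply, ← Finset.sum_sub_distrib, Finset.smul_sum]
  refine Finset.sum_congr rfl fun j _ => ?_
  rw [← Finset.sum_sub_distrib, Finset.smul_sum]
  refine Finset.sum_congr rfl fun k _ => ?_
  simp only [sub_mul, mul_add, add_mul, mul_sub, smul_mul_smul_comm, smul_sub, smul_add, smul_smul,
    Complex.mul_re, Complex.mul_im, Complex.conj_re, Complex.conj_im]
  module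

lemma herm2_sum_rows {m : ℕ} (A : Fin m → Fin 5 → ℂ) :
    herm2 (fun j k => ∑ i, A i j * conj (A i k)) = ∑ i, zre (A i) * zim (A i) := by
  have : (fun j k => ∑ i, A i j * conj (A i k)) =
      ∑ i, fun j k => A i j * conj (A i k) := by
    funext j k; simp
  rw [this, map_sum]
  exact Finset.sum_congr rfl fun i _ => herm2_rankone (A i)

lemma om_eq : om = herm2 (fun j k => if j = k then 1 else 0) := by
  have h := herm2_sum_rows (fun i j => if i = j then (1 : ℂ) else 0)
  have e1 : (fun j k : Fin 5 => ∑ i : Fin 5, (if i = j then (1 : ℂ) else 0) *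
      conj (if i = k then (1 : ℂ) else 0)) = fun j k => if j = k then 1 else 0 := by
    funext j k
    rw [Finset.sum_eq_single j]
    · by_cases h : j = k <;> simp [h]
    · intro b _ hb; simp [hb]
    · simp
  rw [e1] at h
  rw [h, om]
  refine Finset.sum_congr rfl fun i _ => ?_
  rw [zre_eq, zim_eq]
  congr 1
  · rw [Finset.sum_eq_single i]
    · simp
    · intro b _ hb; simp [Ne.symm hb]
    · simp
  · rw [Finset.sum_eq_single i]
    · simp
    · intro b _ hb; simp [Ne.symm hb]
    · simp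

/-! ### complex linear maps of the real covectors -/

/-- `v ↦ (∑ v_i conj A_ij)_j`. -/
def conjL (A : Fin 5 → Fin 5 → ℂ) : (Fin 5 → ℂ) →ₗ[ℂ] (Fin 5 → ℂ) where
  toFun v := fun j => ∑ i, v i * conj (A i j)
  map_add' v w := by
    funext j; simp [add_mul, Finset.sum_add_distrib]
  map_smul' c v := by
    funext j; simp [Finset.mul_sum, mul_assoc]

lemma conjL_apply (A : Fin 5 → Fin 5 → ℂ) (v : Fin 5 → ℂ) (j : Fin 5) :
    conjL A v j = ∑ i, v i * conj (A i j) := rfl

/-- The endomorphism of the real covectors with `dz_i ↦ ∑_j A_ij dz_j`. -/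
def cplx : (Fin 5 → Fin 5 → ℂ) →ₗ[ℝ]
    (EuclideanSpace ℝ (Fin 10) →ₗ[ℝ] EuclideanSpace ℝ (Fin 10)) where
  toFun A := cv.toLinearMap ∘ₗ ((conjL A).restrictScalars ℝ) ∘ₗ cv.symm.toLinearMap
  map_add' A B := by
    apply LinearMap.ext
    intro w
    simp only [LinearMap.comp_apply, LinearMap.add_apply, LinearEquiv.coe_coe, ← map_add]
    congr 1
    funext j
    simp [conjL_apply, mul_add, Finset.sum_add_distrib]
  map_smul' c A := by
    apply LinearMap.ext
    intro w
    simp only [LinearMap.comp_apply, LinearMap.smul_apply, LinearEquiv.coe_coe, RingHom.id_apply]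
    rw [← map_smul]
    congr 1
    funext j
    simp only [LinearMap.coe_restrictScalars, conjL_apply, Pi.smul_apply, Finset.smul_sum]
    refine Finset.sum_congr rfl fun i _ => ?_
    simp only [Complex.real_smul, map_mul, Complex.conj_ofReal]
    ring

@[simp] lemma cplx_cv (A : Fin 5 → Fin 5 → ℂ) (v : Fin 5 → ℂ) :
    cplx A (cv v) = cv (conjL A v) := by
  change cv (conjL A (cv.symm (cv v))) = _
  rw [LinearEquiv.symm_apply_apply]

lemma e_xi (j : Fin 5) : e (xi j) = ic (Pi.single j 1) := by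
  rw [ic_eq, Finset.sum_eq_single j]
  · simp
  · intro b _ hb; simp [hb]
  · simp

lemma e_yi (j : Fin 5) : e (yi j) = ic (Pi.single j Complex.I) := by
  rw [ic_eq, Finset.sum_eq_single j]
  · simp
  · intro b _ hb; simp [hb]
  · simp

lemma gen_cplx_xi (A : Fin 5 → Fin 5 → ℂ) (i : Fin 5) :
    gen (cplx A (cv (Pi.single i 1))) = zre (A i) := by
  rw [cplx_cv, ← ic_apply, zre]
  congr 1
  funext j
  rw [conjL_apply, Finset.sum_eq_single i]
  · simp
  · intro b _ hb; simp [hb]
  · simp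

lemma gen_cplx_yi (A : Fin 5 → Fin 5 → ℂ) (i : Fin 5) :
    gen (cplx A (cv (Pi.single i Complex.I))) = zim (A i) := by
  rw [cplx_cv, ← ic_apply, zim]
  congr 1
  funext j
  rw [conjL_apply, Finset.sum_eq_single i]
  · simp
  · intro b _ hb; simp [hb]
  · simp

/-- The image of the standard form under the algebra homomorphism induced by `A`. -/
theorem hom_om (A : Fin 5 → Fin 5 → ℂ) (φ : E →ₐ[ℝ] E) (hφ : ∀ v, φ (gen v) = gen (cplx A v)) :
    φ om = herm2 (fun j k => ∑ i, A i j * conj (A i k)) := by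
  rw [herm2_sum_rows, om, map_sum]
  refine Finset.sum_congr rfl fun i _ => ?_
  rw [map_mul, e_xi, e_yi, ic_apply, ic_apply, hφ, hφ, gen_cplx_xi, gen_cplx_yi]

lemma cplx_comp (A B : Fin 5 → Fin 5 → ℂ) :
    cplx A ∘ₗ cplx B = cplx (fun i k => ∑ j, B i j * A j k) := by
  apply LinearMap.ext
  intro w
  obtain ⟨v, rfl⟩ := cv.surjective w
  rw [LinearMap.comp_apply, cplx_cv, cplx_cv, cplx_cv]
  congr 1
  funext k
  simp only [conjL_apply, map_sum, map_mul, Finset.mul_sum, Finset.sum_mul]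
  rw [Finset.sum_comm]
  exact Finset.sum_congr rfl fun i _ => Finset.sum_congr rfl fun j _ => by ring

lemma cplx_one : cplx (fun i j => if i = j then 1 else 0) = LinearMap.id := by
  apply LinearMap.ext
  intro w
  obtain ⟨v, rfl⟩ := cv.surjective w
  rw [cplx_cv, LinearMap.id_apply]
  congr 1
  funext k
  rw [conjL_apply, Finset.sum_eq_single k]
  · simp
  · intro b _ hb; simp [hb]
  · simp

/-- The real determinant. -/
lemma cplx_det (A : Fin 5 → Fin 5 → ℂ) :
    LinearMap.det (cplx A) = Complex.normSq (Matrix.of A).det := by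
  have h1 : LinearMap.det (cplx A) = LinearMap.det ((conjL A).restrictScalars ℝ) := by
    have := LinearMap.det_conj ((conjL A).restrictScalars ℝ) cv
    rw [← this]
    rfl
  rw [h1, LinearMap.det_restrictScalars, Algebra.norm_complex_apply]
  have h2 : LinearMap.det (conjL A) = conj (Matrix.of A).det := by
    rw [← LinearMap.det_toMatrix (Pi.basisFun ℂ (Fin 5)), RingHom.map_det,
      ← Matrix.det_transpose]
    congr 1
    ext i j
    rw [Matrix.transpose_apply, LinearMap.toMatrix_apply]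
    simp [conjL_apply, Pi.single_apply]
  rw [h2, Complex.normSq_conj]

/-! ### the gauge matrix -/

/-- The upper triangular matrix `A` with positive diagonal and `H_jk = ∑ A_ij conj A_ik`. -/
def gmat (H : Fin 5 → Fin 5 → ℂ) : Fin 5 → Fin 5 → ℂ := fun i j => chol 5 H j i

lemma gmat_spec {H : Fin 5 → Fin 5 → ℂ} (h : PD H) :
    (fun j k => ∑ i, gmat H i j * conj (gmat H i k)) = H := by
  funext j k
  exact chol_mul 5 h j k

/-- **The gauge turns the standard form into the form of `H`.** -/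
theorem gauge_om {H : Fin 5 → Fin 5 → ℂ} (h : PD H) (φ : E →ₐ[ℝ] E)
    (hφ : ∀ v, φ (gen v) = gen (cplx (gmat H) v)) : φ om = herm2 H := by
  rw [hom_om _ φ hφ, gmat_spec h]

lemma gmat_det {H : Fin 5 → Fin 5 → ℂ} (h : PD H) :
    ∃ r : ℝ, 0 < r ∧ (Matrix.of (gmat H)).det = (r : ℂ) := by
  obtain ⟨r, hr, he⟩ := chol_det h
  refine ⟨r, hr, ?_⟩
  rw [← he, ← Matrix.det_transpose]
  rfl

lemma gmat_det_ne {H : Fin 5 → Fin 5 → ℂ} (h : PD H) : (Matrix.of (gmat H)).det ≠ 0 := by
  obtain ⟨r, hr, he⟩ := gmat_det h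
  rw [he]
  exact Complex.ofReal_ne_zero.mpr hr.ne'

/-- `|det A|² = det H`. -/
lemma gmat_normSq_det {H : Fin 5 → Fin 5 → ℂ} (h : PD H) :
    ((Complex.normSq (Matrix.of (gmat H)).det : ℝ) : ℂ) = (Matrix.of H).det := by
  have e1 : Matrix.of H = (Matrix.of (gmat H)).transpose * (Matrix.of (gmat H)).map conj := by
    ext j k
    rw [Matrix.mul_apply]
    exact (congrFun (congrFun (gmat_spec h) j) k).symm
  rw [e1, Matrix.det_mul, Matrix.det_transpose, ← RingHom.mapMatrix_apply, ← RingHom.map_det,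
    Complex.mul_conj]

theorem gmat_contDiffAt {m : WithTop ℕ∞} {H : Fin 5 → Fin 5 → ℂ} (h : PD H) :
    ContDiffAt ℝ m gmat H := by
  have h1 := chol_contDiffAt (m := m) 5 h
  rw [contDiffAt_pi]
  intro i
  rw [contDiffAt_pi]
  intro j
  exact (contDiffAt_pi.mp ((contDiffAt_pi.mp h1) j)) i

/-- The inverse of the gauge matrix. -/
def gmatInv (H : Fin 5 → Fin 5 → ℂ) : Fin 5 → Fin 5 → ℂ :=
  fun i j => ((Matrix.of (gmat H))⁻¹ : Matrix (Fin 5) (Fin 5) ℂ) i j

lemma gmatInv_mul {H : Fin 5 → Fin 5 → ℂ} (h : PD H) (i k : Fin 5) :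
    ∑ j, gmatInv H i j * gmat H j k = if i = k then 1 else 0 := by
  have h1 : (Matrix.of (gmat H))⁻¹ * Matrix.of (gmat H) = 1 :=
    Matrix.nonsing_inv_mul _ (isUnit_iff_ne_zero.mpr (gmat_det_ne h))
  have h2 := congrFun (congrFun h1 i) k
  rw [Matrix.mul_apply] at h2
  rw [Matrix.one_apply] at h2
  exact h2

lemma mul_gmatInv {H : Fin 5 → Fin 5 → ℂ} (h : PD H) (i k : Fin 5) :
    ∑ j, gmat H i j * gmatInv H j k = if i = k then 1 else 0 := by
  have h1 : Matrix.of (gmat H) * (Matrix.of (gmat H))⁻¹ = 1 :=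
    Matrix.mul_nonsing_inv _ (isUnit_iff_ne_zero.mpr (gmat_det_ne h))
  have h2 := congrFun (congrFun h1 i) k
  rw [Matrix.mul_apply] at h2
  rw [Matrix.one_apply] at h2
  exact h2

lemma cplx_gmat_comp_inv {H : Fin 5 → Fin 5 → ℂ} (h : PD H) :
    cplx (gmat H) ∘ₗ cplx (gmatInv H) = LinearMap.id := by
  rw [cplx_comp, ← cplx_one]
  congr 1
  funext i k
  exact gmatInv_mul h i k

lemma cplx_gmatInv_comp {H : Fin 5 → Fin 5 → ℂ} (h : PD H) :
    cplx (gmatInv H) ∘ₗ cplx (gmat H) = LinearMap.id := by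
  rw [cplx_comp, ← cplx_one]
  congr 1
  funext i k
  exact mul_gmatInv h i k

/-- The determinant is smooth. -/
lemma contDiff_det {n : ℕ} {m : WithTop ℕ∞} :
    ContDiff ℝ m (fun A : Fin n → Fin n → ℂ => (Matrix.of A).det) := by
  have : (fun A : Fin n → Fin n → ℂ => (Matrix.of A).det) =
      fun A => ∑ σ : Equiv.Perm (Fin n), ((Equiv.Perm.sign σ : ℤ) : ℝ) • ∏ i, A (σ i) i := by
    funext A
    rw [Matrix.det_apply]
    refine Finset.sum_congr rfl fun σ _ => ?_
    rw [Units.smul_def]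
    simp
  rw [this]
  refine ContDiff.sum fun σ _ => ?_
  refine ContDiff.const_smul _ ?_
  refine contDiff_prod fun i _ => ?_
  fun_prop

/-- The matrix inverse is smooth. -/
lemma contDiffAt_matInv {n : ℕ} {m : WithTop ℕ∞} {A : Fin n → Fin n → ℂ}
    (h : (Matrix.of A).det ≠ 0) :
    ContDiffAt ℝ m (fun (B : Fin n → Fin n → ℂ) (i j : Fin n) =>
      ((Matrix.of B)⁻¹ : Matrix (Fin n) (Fin n) ℂ) i j) A := by
  rw [contDiffAt_pi]
  intro i
  rw [contDiffAt_pi]
  intro j
  have e1 : (fun B : Fin n → Fin n → ℂ => ((Matrix.of B)⁻¹ : Matrix (Fin n) (Fin n) ℂ) i j) =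
      fun B => ((Matrix.of B).det)⁻¹ * (Matrix.of (fun k l : Fin n =>
        if k = j then (Pi.single i 1 : Fin n → ℂ) l else B k l)).det := by
    funext B
    have : ((Matrix.of B)⁻¹ : Matrix (Fin n) (Fin n) ℂ) i j =
        ((Matrix.of B).det)⁻¹ * (Matrix.of B).adjugate i j := by
      rw [Matrix.inv_def, Matrix.smul_apply, Ring.inverse_eq_inv', smul_eq_mul]
    refine this.trans ?_
    rw [Matrix.adjugate_apply]
    congr 2
    ext k l
    rw [Matrix.updateRow_apply]
    rfl
  rw [e1]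
  refine ContDiffAt.mul (ContDiffAt.inv contDiff_det.contDiffAt h) ?_
  have h2 : ContDiff ℝ m (fun B : Fin n → Fin n → ℂ => fun k l : Fin n =>
      if k = j then (Pi.single i 1 : Fin n → ℂ) l else B k l) := by
    rw [contDiff_pi]
    intro k
    rw [contDiff_pi]
    intro l
    by_cases hk : k = j
    · simp only [hk, if_true]; exact contDiff_const
    · simp only [hk, if_false]; fun_prop
  exact (contDiff_det.comp h2).contDiffAt

theorem gmatInv_contDiffAt {m : WithTop ℕ∞} {H : Fin 5 → Fin 5 → ℂ} (h : PD H) :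
    ContDiffAt ℝ m gmatInv H :=
  (contDiffAt_matInv (m := m) (gmat_det_ne h)).comp H (gmat_contDiffAt h)

/-- `cplx` as a continuous linear map. -/
def cplxL : (Fin 5 → Fin 5 → ℂ) →L[ℝ]
    (EuclideanSpace ℝ (Fin 10) →L[ℝ] EuclideanSpace ℝ (Fin 10)) :=
  LinearMap.toContinuousLinearMap ((LinearMap.toContinuousLinearMap :
    (EuclideanSpace ℝ (Fin 10) →ₗ[ℝ] EuclideanSpace ℝ (Fin 10)) ≃ₗ[ℝ] _).toLinearMap ∘ₗ cplx)

@[simp] lemma cplxL_apply (A : Fin 5 → Fin 5 → ℂ) (v : EuclideanSpace ℝ (Fin 10)) :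
    cplxL A v = cplx A v := rfl

theorem gauge_contDiffAt {m : WithTop ℕ∞} {H : Fin 5 → Fin 5 → ℂ} (h : PD H) :
    ContDiffAt ℝ m (fun K => cplxL (gmat K)) H :=
  cplxL.contDiff.contDiffAt.comp H (gmat_contDiffAt h)

theorem gaugeInv_contDiffAt {m : WithTop ℕ∞} {H : Fin 5 → Fin 5 → ℂ} (h : PD H) :
    ContDiffAt ℝ m (fun K => cplxL (gmatInv K)) H :=
  cplxL.contDiff.contDiffAt.comp H (gmatInv_contDiffAt h)

end EH
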