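import Pool.Agent.Work.MP_9eee85_co.EH.E1S
import Pool.Agent.Work.MP_9eee85_co.EH.Herm2
import Pool.Agent.Work.MP_9eee85_co.EH.Defs

/-!
# The gauge of a smooth positive definite Hermitian matrix

`rmat A = cplx A`; the algebra endomorphism `ext (rmat A)` of `E`, its inverse, determinant,
action on `om`, and its smoothness in the sense of `LSm`.
-/

noncomputable section

namespace EH

open Finset ComplexConjugate

lemma rmat_eq_cplx (A : Fin 5 → Fin 5 → ℂ) : rmat A = cplx A := by
  have key : ∀ (w : EuclideanSpace ℝ (Fin 10)) (a : Fin 10), rmat A w a = ∑ b,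
      (if b.val % 2 = 0 then
        (if a.val % 2 = 0 then (A ⟨b.val / 2, by omega⟩ ⟨a.val / 2, by omega⟩).re
          else -(A ⟨b.val / 2, by omega⟩ ⟨a.val / 2, by omega⟩).im)
      else
        (if a.val % 2 = 0 then (A ⟨b.val / 2, by omega⟩ ⟨a.val / 2, by omega⟩).im
          else (A ⟨b.val / 2, by omega⟩ ⟨a.val / 2, by omega⟩).re)) * w b := by
    intro w a
    rfl
  have x1 : ∀ j : Fin 5, (xi j).val % 2 = 0 := fun j => by simp [xi]
  have x2 : ∀ j : Fin 5, (xi j).val / 2 = j.val := fun j => by simp [xi]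
  have y1 : ∀ j : Fin 5, ¬ (yi j).val % 2 = 0 := fun j => by simp only [yi]; omega
  have y2 : ∀ j : Fin 5, (yi j).val / 2 = j.val := fun j => by simp only [yi]; omega
  apply LinearMap.ext
  intro w
  ext a
  rw [key, sum_fin10]
  have hc : cplx A w = cv (conjL A (cv.symm w)) := rfl
  rw [hc]
  rcases fin10_cases a with ⟨j, rfl⟩ | ⟨j, rfl⟩
  · rw [cv_xi, conjL_apply, Complex.re_sum]
    refine Finset.sum_congr rfl fun i _ => ?_
    simp only [x1, x2, y1, y2, if_true, if_false, cv_symm_apply, Complex.mul_re, Complex.conj_re,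
      Complex.conj_im]
    ring
  · rw [cv_yi, conjL_apply, Complex.im_sum]
    refine Finset.sum_congr rfl fun i _ => ?_
    simp only [x1, x2, y1, y2, if_true, if_false, cv_symm_apply, Complex.mul_im, Complex.conj_re,
      Complex.conj_im]
    ring

/-- `rmat A ∘ rmat B = rmat (B * A)`. -/
lemma rmat_comp (A B : Fin 5 → Fin 5 → ℂ) :
    rmat A ∘ₗ rmat B = rmat (fun i k => ∑ j, B i j * A j k) := by
  rw [rmat_eq_cplx, rmat_eq_cplx, rmat_eq_cplx, cplx_comp]

lemma rmat_one : rmat (fun i j => if i = j then 1 else 0) = LinearMap.id := by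
  rw [rmat_eq_cplx, cplx_one]

/-- The real determinant of a complex matrix. -/
lemma rmat_det (A : Fin 5 → Fin 5 → ℂ) :
    LinearMap.det (rmat A) = Complex.normSq (Matrix.of A).det := by
  rw [rmat_eq_cplx, cplx_det]

/-- The inverse matrix. -/
def minv (A : Fin 5 → Fin 5 → ℂ) : Fin 5 → Fin 5 → ℂ :=
  fun i j => ((Matrix.of A)⁻¹ : Matrix (Fin 5) (Fin 5) ℂ) i j

lemma minv_gmat (H : Fin 5 → Fin 5 → ℂ) : minv (gmat H) = gmatInv H := rfl

lemma minv_mul {A : Fin 5 → Fin 5 → ℂ} (h : (Matrix.of A).det ≠ 0) (i k : Fin 5) :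
    ∑ j, minv A i j * A j k = if i = k then 1 else 0 := by
  have h1 : (Matrix.of A)⁻¹ * Matrix.of A = 1 :=
    Matrix.nonsing_inv_mul _ (isUnit_iff_ne_zero.mpr h)
  have h2 := congrFun (congrFun h1 i) k
  rw [Matrix.mul_apply, Matrix.one_apply] at h2
  exact h2

lemma mul_minv {A : Fin 5 → Fin 5 → ℂ} (h : (Matrix.of A).det ≠ 0) (i k : Fin 5) :
    ∑ j, A i j * minv A j k = if i = k then 1 else 0 := by
  have h1 : Matrix.of A * (Matrix.of A)⁻¹ = 1 :=
    Matrix.mul_nonsing_inv _ (isUnit_iff_ne_zero.mpr h)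
  have h2 := congrFun (congrFun h1 i) k
  rw [Matrix.mul_apply, Matrix.one_apply] at h2
  exact h2

lemma rmat_comp_minv {A : Fin 5 → Fin 5 → ℂ} (h : (Matrix.of A).det ≠ 0) :
    rmat A ∘ₗ rmat (minv A) = LinearMap.id := by
  rw [rmat_comp, ← rmat_one]
  congr 1
  funext i k
  exact minv_mul h i k

lemma rmat_minv_comp {A : Fin 5 → Fin 5 → ℂ} (h : (Matrix.of A).det ≠ 0) :
    rmat (minv A) ∘ₗ rmat A = LinearMap.id := by
  rw [rmat_comp, ← rmat_one]
  congr 1
  funext i k
  exact mul_minv h i k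

lemma ext_rmat_minv {A : Fin 5 → Fin 5 → ℂ} (h : (Matrix.of A).det ≠ 0) (α : E) :
    ext (rmat A) (ext (rmat (minv A)) α) = α :=
  ext_left_inv (rmat_comp_minv h) α

lemma ext_minv_rmat {A : Fin 5 → Fin 5 → ℂ} (h : (Matrix.of A).det ≠ 0) (α : E) :
    ext (rmat (minv A)) (ext (rmat A) α) = α :=
  ext_left_inv (rmat_minv_comp h) α

lemma top_ext_rmat (A : Fin 5 → Fin 5 → ℂ) (α : E) :
    top (ext (rmat A) α) = Complex.normSq (Matrix.of A).det * top α := by
  rw [top_ext, rmat_det]

/-- The image of the standard form. -/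
theorem ext_rmat_om (A : Fin 5 → Fin 5 → ℂ) :
    ext (rmat A) om = herm2 (fun j k => ∑ i, A i j * conj (A i k)) :=
  hom_om A (ext (rmat A)) fun v => by rw [ext_gen, rmat_eq_cplx]

/-- **The gauge turns the standard form into the form of `H`.** -/
theorem ext_gmat_om {H : Fin 5 → Fin 5 → ℂ} (h : PD H) : ext (rmat (gmat H)) om = herm2 H := by
  rw [ext_rmat_om, gmat_spec h]

/-! ### smoothness -/

lemma extL_cplxL (A : Fin 5 → Fin 5 → ℂ) (α : E) : extL (cplxL A) α = ext (rmat A) α := by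
  rw [extL_apply, rmat_eq_cplx]
  rfl

lemma contDiff_gauge {m : WithTop ℕ∞} :
    ContDiff ℝ m (fun A : Fin 5 → Fin 5 → ℂ => extL (cplxL A)) :=
  contDiff_extL.comp cplxL.contDiff

section LSm

variable {V : Type*} [NormedAddCommGroup V] [NormedSpace ℝ V]
variable {X : Type*} [TopologicalSpace X] {π : X → V} {hπ : IsLocalHomeomorph π}

/-- Composition with a function that is smooth at the values. -/
theorem LSm.comp_contDiffAt {W W' : Type*} [NormedAddCommGroup W] [NormedSpace ℝ W]
    [NormedAddCommGroup W'] [NormedSpace ℝ W'] {n : ℕ∞} {f : X → W} {g : W → W'}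
    (hf : LSm hπ n f) (hg : ∀ x, ContDiffAt ℝ n g (f x)) : LSm hπ n (fun x => g (f x)) := by
  intro x
  have h1 : ContDiffAt ℝ n g ((f ∘ lsec hπ x) (π x)) := hg _
  exact ContDiffAt.comp (f := f ∘ lsec hπ x) (π x) h1 (hf x)

/-- The gauge of a smooth matrix applied to a smooth form. -/
theorem LSm.ext_rmat {n : ℕ∞} {A : X → Fin 5 → Fin 5 → ℂ} {F : X → E} (hA : LSm hπ n A)
    (hF : LSm hπ n F) : LSm hπ n (fun x => ext (rmat (A x)) (F x)) := by
  intro x
  have h0 : LSm hπ n (fun x => extL (cplxL (A x))) :=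
    hA.comp_contDiffAt (g := fun B => extL (cplxL B)) fun x => contDiff_gauge.contDiffAt
  have h2 := (h0 x).clm_apply (hF x)
  refine h2.congr_of_eventuallyEq (Filter.Eventually.of_forall fun y => ?_)
  exact (extL_cplxL _ _).symm

/-- The inverse of a smooth matrix. -/
theorem LSm.minv {n : ℕ∞} {A : X → Fin 5 → Fin 5 → ℂ} (hA : LSm hπ n A)
    (h : ∀ x, (Matrix.of (A x)).det ≠ 0) : LSm hπ n (fun x => EH.minv (A x)) :=
  hA.comp_contDiffAt (g := EH.minv) fun x => contDiffAt_matInv (h x)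

/-- The inverse gauge of a smooth matrix applied to a smooth form. -/
theorem LSm.ext_rmat_minv {n : ℕ∞} {A : X → Fin 5 → Fin 5 → ℂ} {F : X → E} (hA : LSm hπ n A)
    (h : ∀ x, (Matrix.of (A x)).det ≠ 0) (hF : LSm hπ n F) :
    LSm hπ n (fun x => ext (rmat (EH.minv (A x))) (F x)) :=
  LSm.ext_rmat (hA.minv h) hF

/-- The gauge matrix of a smooth positive definite Hermitian matrix. -/
theorem LSm.gmat {n : ℕ∞} {H : X → Fin 5 → Fin 5 → ℂ} (hH : LSm hπ n H)
    (h : ∀ x, PD (H x)) : LSm hπ n (fun x => EH.gmat (H x)) :=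
  hH.comp_contDiffAt (g := EH.gmat) fun x => gmat_contDiffAt (h x)

/-- The form of a smooth Hermitian matrix is smooth. -/
theorem LSm.herm2 {n : ℕ∞} {H : X → Fin 5 → Fin 5 → ℂ} (hH : LSm hπ n H) :
    LSm hπ n (fun x => EH.herm2 (H x)) :=
  hH.comp_contDiffAt (g := fun K => EH.herm2 K) fun _ =>
    (LinearMap.toContinuousLinearMap EH.herm2).contDiff.contDiffAt

end LSm

/-! ### positive definite matrices -/

lemma hform_add {n : ℕ} (H K : Fin n → Fin n → ℂ) (x : Fin n → ℂ) :
    hform (H + K) x = hform H x + hform K x := by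
  simp only [hform, Pi.add_apply, add_mul, mul_add, Finset.sum_add_distrib]

lemma hform_smul {n : ℕ} (c : ℝ) (H : Fin n → Fin n → ℂ) (x : Fin n → ℂ) :
    hform (c • H) x = c * hform H x := by
  simp only [hform, Pi.smul_apply, Complex.real_smul, Finset.mul_sum]
  exact Finset.sum_congr rfl fun i _ => Finset.sum_congr rfl fun j _ => by ring

lemma Herm.add {n : ℕ} {H K : Fin n → Fin n → ℂ} (h : Herm H) (k : Herm K) : Herm (H + K) := by
  intro i j
  rw [Pi.add_apply, Pi.add_apply, Pi.add_apply, Pi.add_apply, star_add, h i j, k i j]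

lemma Herm.smul {n : ℕ} {H : Fin n → Fin n → ℂ} (h : Herm H) (c : ℝ) : Herm (c • H) := by
  intro i j
  rw [Pi.smul_apply, Pi.smul_apply, Pi.smul_apply, Pi.smul_apply, Complex.real_smul,
    Complex.real_smul, star_mul', h i j]
  congr 1
  exact Complex.conj_ofReal c

lemma PSD.add {n : ℕ} {H K : Fin n → Fin n → ℂ} (h : PSD H) (k : PSD K) : PSD (H + K) :=
  ⟨h.1.add k.1, fun x => by
    rw [hform_add, Complex.add_re]; exact add_nonneg (h.2 x) (k.2 x)⟩

lemma PD.add_PSD {n : ℕ} {H K : Fin n → Fin n → ℂ} (h : PD H) (k : PSD K) : PD (H + K) :=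
  ⟨h.1.add k.1, fun x hx => by
    rw [hform_add, Complex.add_re]; exact add_pos_of_pos_of_nonneg (h.2 x hx) (k.2 x)⟩

lemma PSD.smul {n : ℕ} {H : Fin n → Fin n → ℂ} (h : PSD H) {c : ℝ} (hc : 0 ≤ c) :
    PSD (c • H) :=
  ⟨h.1.smul c, fun x => by
    rw [hform_smul, Complex.re_ofReal_mul]; exact mul_nonneg hc (h.2 x)⟩

lemma PD.smul {n : ℕ} {H : Fin n → Fin n → ℂ} (h : PD H) {c : ℝ} (hc : 0 < c) :
    PD (c • H) :=
  ⟨h.1.smul c, fun x hx => by
    rw [hform_smul, Complex.re_ofReal_mul]; exact mul_pos hc (h.2 x hx)⟩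

lemma PSD.zero {n : ℕ} : PSD (0 : Fin n → Fin n → ℂ) :=
  ⟨fun i j => by simp, fun x => by simp [hform]⟩

lemma PSD.sum {n : ℕ} {ι : Type*} (s : Finset ι) {H : ι → Fin n → Fin n → ℂ}
    (h : ∀ i ∈ s, PSD (H i)) : PSD (∑ i ∈ s, H i) := by
  classical
  induction s using Finset.induction_on with
  | empty => simpa using PSD.zero
  | insert a s ha ih =>
    rw [Finset.sum_insert ha]
    exact (h a (Finset.mem_insert_self a s)).add
      (ih fun i hi => h i (Finset.mem_insert_of_mem hi))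

/-- Rank one matrices. -/
lemma psd_rankone {n : ℕ} (a : Fin n → ℂ) : PSD (fun j k => a j * conj (a k)) := by
  refine ⟨fun i j => ?_, fun x => ?_⟩
  · rw [star_mul']
    change conj (a i) * conj (conj (a j)) = _
    rw [Complex.conj_conj, mul_comm]
  · have : hform (fun j k => a j * conj (a k)) x =
        (∑ i, conj (x i) * a i) * conj (∑ i, conj (x i) * a i) := by
      rw [hform, map_sum, Finset.sum_mul]
      refine Finset.sum_congr rfl fun i _ => ?_
      rw [Finset.mul_sum, Finset.mul_sum]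
      refine Finset.sum_congr rfl fun j _ => ?_
      rw [map_mul, Complex.conj_conj]
      change conj (x i) * _ = _
      ring
    rw [this, Complex.mul_conj, Complex.ofReal_re]
    exact Complex.normSq_nonneg _

/-- Diagonal matrices with positive entries. -/
lemma pd_diag {n : ℕ} (c : Fin n → ℝ) (hc : ∀ i, 0 < c i) :
    PD (fun j k : Fin n => if j = k then ((c j : ℝ) : ℂ) else 0) := by
  refine ⟨fun i j => ?_, fun x hx => ?_⟩
  · by_cases h : i = j
    · subst h
      simp only [if_true]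
      exact Complex.conj_ofReal _
    · simp [h, Ne.symm h]
  · have : hform (fun j k : Fin n => if j = k then ((c j : ℝ) : ℂ) else 0) x =
        ((∑ i, c i * Complex.normSq (x i) : ℝ) : ℂ) := by
      rw [hform, Complex.ofReal_sum]
      refine Finset.sum_congr rfl fun i _ => ?_
      rw [Finset.sum_eq_single i]
      · simp only [if_true]
        change conj (x i) * _ = _
        rw [Complex.ofReal_mul, ← Complex.mul_conj]
        ring
      · intro b _ hb; simp [Ne.symm hb]
      · simp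
    rw [this, Complex.ofReal_re]
    obtain ⟨i, hi⟩ := Function.ne_iff.mp hx
    refine Finset.sum_pos' (fun j _ => mul_nonneg (hc j).le (Complex.normSq_nonneg _))
      ⟨i, Finset.mem_univ i, mul_pos (hc i) (Complex.normSq_pos.mpr hi)⟩

end EH
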