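import Pool.Agent.Work.MP_9eee85_co.EH.Defs

/-!
# Pointwise calculus on a local homeomorphism

Coherence of the local sections, rules for `LSm` and `LD`.
-/

set_option linter.unusedSectionVars false

noncomputable section

namespace EH

open MeasureTheory Filter Topology Set
open scoped ContDiff

variable {V : Type*} [NormedAddCommGroup V] [NormedSpace ℝ V]
variable {X : Type*} [TopologicalSpace X] {π : X → V} (hπ : IsLocalHomeomorph π)
variable {W : Type*} [NormedAddCommGroup W] [NormedSpace ℝ W]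
variable {W₁ : Type*} [NormedAddCommGroup W₁] [NormedSpace ℝ W₁]
variable {W₂ : Type*} [NormedAddCommGroup W₂] [NormedSpace ℝ W₂]

lemma target_mem (x : X) : (lchart hπ x).target ∈ 𝓝 (π x) := by
  apply (lchart hπ x).open_target.mem_nhds
  have h := (lchart hπ x).map_source (mem_lchart hπ x)
  rwa [lchart_eq] at h

lemma pi_lsec_of_mem {x : X} {v : V} (hv : v ∈ (lchart hπ x).target) : π (lsec hπ x v) = v := by
  have h := (lchart hπ x).right_inv hv
  rw [lchart_eq] at h
  exact h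

lemma pi_lsec (x : X) : ∀ᶠ v in 𝓝 (π x), π (lsec hπ x v) = v := by
  filter_upwards [target_mem hπ x] with v hv using pi_lsec_of_mem hπ hv

lemma continuousAt_lsec_of_mem {x : X} {v : V} (hv : v ∈ (lchart hπ x).target) :
    ContinuousAt (lsec hπ x) v :=
  (lchart hπ x).continuousAt_symm hv

lemma continuousAt_lsec (x : X) : ContinuousAt (lsec hπ x) (π x) :=
  continuousAt_lsec_of_mem hπ (mem_of_mem_nhds (target_mem hπ x))



/-- A continuous local section coincides with `lsec`. -/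
lemma lsec_unique {x : X} {s : V → X} (hs : ContinuousAt s (π x)) (hx : s (π x) = x)
    (hr : ∀ᶠ v in 𝓝 (π x), π (s v) = v) : s =ᶠ[𝓝 (π x)] lsec hπ x := by
  have h1 : ∀ᶠ v in 𝓝 (π x), s v ∈ (lchart hπ x).source := by
    apply hs
    rw [hx]
    exact (lchart hπ x).open_source.mem_nhds (mem_lchart hπ x)
  filter_upwards [h1, hr] with v hv hv'
  have h := (lchart hπ x).left_inv hv
  rw [lchart_eq, hv'] at h
  exact h.symm

lemma lsec_coh_of_mem {x : X} {v : V} (hv : v ∈ (lchart hπ x).target) :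
    lsec hπ x =ᶠ[𝓝 v] lsec hπ (lsec hπ x v) := by
  have h1 : π (lsec hπ x v) = v := pi_lsec_of_mem hπ hv
  have h := lsec_unique hπ (x := lsec hπ x v) (s := lsec hπ x)
    (by rw [h1]; exact continuousAt_lsec_of_mem hπ hv) (by rw [h1])
    (by
      rw [h1]
      filter_upwards [(lchart hπ x).open_target.mem_nhds hv] with w hw using pi_lsec_of_mem hπ hw)
  rwa [h1] at h

/-- The section at `x` coincides near `x` with the sections at the neighbouring points. -/
lemma lsec_coh (x : X) :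
    ∀ᶠ v in 𝓝 (π x), π (lsec hπ x v) = v ∧ lsec hπ x =ᶠ[𝓝 v] lsec hπ (lsec hπ x v) := by
  filter_upwards [target_mem hπ x] with v hv
  exact ⟨pi_lsec_of_mem hπ hv, lsec_coh_of_mem hπ hv⟩

/-- `lsec` maps neighbourhoods to neighbourhoods: an eventual property on `X` at `x` gives one
on `V`. -/
lemma eventually_lsec {x : X} {p : X → Prop} (h : ∀ᶠ y in 𝓝 x, p y) :
    ∀ᶠ v in 𝓝 (π x), p (lsec hπ x v) := by
  have hc := continuousAt_lsec hπ x
  rw [ContinuousAt, lsec_self] at hc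
  exact hc.eventually h

lemma eventually_of_lsec {x : X} {p : X → Prop} (h : ∀ᶠ v in 𝓝 (π x), p (lsec hπ x v)) :
    ∀ᶠ y in 𝓝 x, p y := by
  have h1 : ∀ᶠ y in 𝓝 x, p (lsec hπ x (π y)) := hπ.continuous.continuousAt.eventually h
  filter_upwards [h1, (lchart hπ x).open_source.mem_nhds (mem_lchart hπ x)] with y hy hy'
  have h2 := (lchart hπ x).left_inv hy'
  rw [lchart_eq] at h2
  have h3 : lsec hπ x (π y) = y := h2
  rwa [h3] at hy

lemma LD_congr {f g : X → W} {x : X} (h : f =ᶠ[𝓝 x] g) : LD hπ f x = LD hπ g x := by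
  have h1 : (f ∘ lsec hπ x) =ᶠ[𝓝 (π x)] (g ∘ lsec hπ x) := eventually_lsec hπ h
  exact h1.fderiv_eq

lemma LSm.at {n : ℕ∞} {f : X → W} (hf : LSm hπ n f) (x : X) :
    ContDiffAt ℝ n (f ∘ lsec hπ x) (π x) := hf x

/-- Smoothness of `f ∘ lsec` at all points of the target of the chart. -/
lemma LSm.contDiffAt_of_mem {n : ℕ∞} {f : X → W} (hf : LSm hπ n f) {x : X} {v : V}
    (hv : v ∈ (lchart hπ x).target) : ContDiffAt ℝ n (f ∘ lsec hπ x) v := by
  have h := hf (lsec hπ x v)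
  rw [pi_lsec_of_mem hπ hv] at h
  refine h.congr_of_eventuallyEq ?_
  filter_upwards [lsec_coh_of_mem hπ hv] with w hw
  simp only [Function.comp_apply, hw]

lemma LD_of_mem {f : X → W} {x : X} {v : V} (hv : v ∈ (lchart hπ x).target) :
    LD hπ f (lsec hπ x v) = fderiv ℝ (f ∘ lsec hπ x) v := by
  rw [LD, pi_lsec_of_mem hπ hv]
  apply Filter.EventuallyEq.fderiv_eq
  filter_upwards [lsec_coh_of_mem hπ hv] with w hw
  simp only [Function.comp_apply, hw]

/-- Coherence: the derivative read in the section at `x`. -/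
lemma LD_comp_lsec (f : X → W) (x : X) :
    (LD hπ f ∘ lsec hπ x) =ᶠ[𝓝 (π x)] fderiv ℝ (f ∘ lsec hπ x) := by
  filter_upwards [target_mem hπ x] with v hv using LD_of_mem hπ hv

lemma LSm.mono {n m : ℕ∞} {f : X → W} (hf : LSm hπ n f) (h : m ≤ n) : LSm hπ m f :=
  fun x => (hf x).of_le (by exact_mod_cast h)

lemma LSm.diff {n : ℕ∞} {f : X → W} (hf : LSm hπ n f) (hn : 1 ≤ n) (x : X) :
    DifferentiableAt ℝ (f ∘ lsec hπ x) (π x) :=
  (hf x).differentiableAt (by
    intro h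
    have : n = 0 := by exact_mod_cast h
    rw [this] at hn
    exact absurd hn (by norm_num))

lemma LSm.continuous {n : ℕ∞} {f : X → W} (hf : LSm hπ n f) : Continuous f := by
  rw [continuous_iff_continuousAt]
  intro x
  have h1 : ContinuousAt (f ∘ lsec hπ x) (π x) := (hf x).continuousAt
  have h2 : ContinuousAt ((f ∘ lsec hπ x) ∘ π) x := h1.comp hπ.continuous.continuousAt
  refine h2.congr ?_
  filter_upwards [(lchart hπ x).open_source.mem_nhds (mem_lchart hπ x)] with y hy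
  have h3 := (lchart hπ x).left_inv hy
  rw [lchart_eq] at h3
  have h4 : lsec hπ x (π y) = y := h3
  simp only [Function.comp_apply, h4]

lemma LSm.const (n : ℕ∞) (c : W) : LSm hπ n (fun _ : X => c) := fun _ => contDiffAt_const

lemma LSm.pi (n : ℕ∞) : LSm hπ n π := by
  intro x
  have : (π ∘ lsec hπ x) =ᶠ[𝓝 (π x)] id := by
    filter_upwards [pi_lsec hπ x] with v hv using hv
  exact contDiffAt_id.congr_of_eventuallyEq this

lemma LD_pi (x : X) : LD hπ π x = ContinuousLinearMap.id ℝ V := by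
  have : (π ∘ lsec hπ x) =ᶠ[𝓝 (π x)] id := by
    filter_upwards [pi_lsec hπ x] with v hv using hv
  rw [LD, this.fderiv_eq, fderiv_id]

lemma LSm.add {n : ℕ∞} {f g : X → W} (hf : LSm hπ n f) (hg : LSm hπ n g) :
    LSm hπ n (fun x => f x + g x) := fun x => (hf x).add (hg x)

lemma LSm.sub {n : ℕ∞} {f g : X → W} (hf : LSm hπ n f) (hg : LSm hπ n g) :
    LSm hπ n (fun x => f x - g x) := fun x => (hf x).sub (hg x)

lemma LSm.neg {n : ℕ∞} {f : X → W} (hf : LSm hπ n f) : LSm hπ n (fun x => -f x) :=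
  fun x => (hf x).neg

lemma LSm.sum {n : ℕ∞} {ι : Type*} {s : Finset ι} {f : ι → X → W}
    (hf : ∀ i ∈ s, LSm hπ n (f i)) : LSm hπ n (fun x => ∑ i ∈ s, f i x) := by
  intro x
  have := ContDiffAt.sum (𝕜 := ℝ) (n := n) (s := s) (f := fun i => f i ∘ lsec hπ x) (x := π x)
    (fun i hi => hf i hi x)
  refine this.congr_of_eventuallyEq (Eventually.of_forall fun v => ?_)
  simp

/-- Composition with a smooth map. -/
lemma LSm.comp_smooth {n : ℕ∞} {f : X → W} (hf : LSm hπ n f) {φ : W → W₁}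
    (hφ : ∀ x, ContDiffAt ℝ n φ (f x)) : LSm hπ n (fun x => φ (f x)) := by
  intro x
  have h : ContDiffAt ℝ n φ ((f ∘ lsec hπ x) (π x)) := by
    rw [Function.comp_apply, lsec_self]; exact hφ x
  exact h.comp (π x) (hf x)

lemma LSm.clm {n : ℕ∞} {f : X → W} (hf : LSm hπ n f) (T : W →L[ℝ] W₁) :
    LSm hπ n (fun x => T (f x)) :=
  hf.comp_smooth hπ fun _ => T.contDiff.contDiffAt

lemma LSm.linear [FiniteDimensional ℝ W] {n : ℕ∞} {f : X → W} (hf : LSm hπ n f)
    (T : W →ₗ[ℝ] W₁) : LSm hπ n (fun x => T (f x)) :=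
  hf.clm hπ (LinearMap.toContinuousLinearMap T)

lemma LSm.prod {n : ℕ∞} {f : X → W} {g : X → W₁} (hf : LSm hπ n f) (hg : LSm hπ n g) :
    LSm hπ n (fun x => (f x, g x)) := fun x => (hf x).prodMk (hg x)

/-- Composition with a continuous bilinear map. -/
lemma LSm.bilin {n : ℕ∞} {f : X → W} {g : X → W₁} (hf : LSm hπ n f) (hg : LSm hπ n g)
    (B : W →L[ℝ] W₁ →L[ℝ] W₂) : LSm hπ n (fun x => B (f x) (g x)) := by
  intro x
  exact (B.isBoundedBilinearMap.contDiff.contDiffAt (n := n)).comp (π x)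
    ((hf x).prodMk (hg x))

lemma LSm.smul {n : ℕ∞} {f : X → ℝ} {g : X → W} (hf : LSm hπ n f) (hg : LSm hπ n g) :
    LSm hπ n (fun x => f x • g x) := fun x => (hf x).smul (hg x)

lemma LSm.mul {n : ℕ∞} {f g : X → ℝ} (hf : LSm hπ n f) (hg : LSm hπ n g) :
    LSm hπ n (fun x => f x * g x) := fun x => (hf x).mul (hg x)

/-- The derivative is smooth. -/
lemma LSm.LD {n m : ℕ∞} {f : X → W} (hf : LSm hπ n f) (hm : m + 1 ≤ n) :
    LSm hπ m (fun x => EH.LD hπ f x) := by
  intro x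
  have h : ContDiffAt ℝ m (fderiv ℝ (f ∘ lsec hπ x)) (π x) :=
    (hf x).fderiv_right (by exact_mod_cast hm)
  exact h.congr_of_eventuallyEq (LD_comp_lsec hπ f x)

lemma LSm.LD_apply {n m : ℕ∞} {f : X → W} (hf : LSm hπ n f) (hm : m + 1 ≤ n) (v : V) :
    LSm hπ m (fun x => EH.LD hπ f x v) :=
  (hf.LD hπ hm).clm hπ (ContinuousLinearMap.apply ℝ W v)

/-! ### Rules for `LD` -/

lemma LD_const (c : W) (x : X) : LD hπ (fun _ : X => c) x = 0 := by
  have : ((fun _ : X => c) ∘ lsec hπ x) = fun _ => c := rfl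
  rw [LD, this]
  simp

lemma LD_add {f g : X → W} (hf : LSm hπ 1 f) (hg : LSm hπ 1 g) (x : X) :
    LD hπ (fun y => f y + g y) x = LD hπ f x + LD hπ g x :=
  fderiv_add (hf.diff hπ le_rfl x) (hg.diff hπ le_rfl x)

lemma LD_sub {f g : X → W} (hf : LSm hπ 1 f) (hg : LSm hπ 1 g) (x : X) :
    LD hπ (fun y => f y - g y) x = LD hπ f x - LD hπ g x :=
  fderiv_sub (hf.diff hπ le_rfl x) (hg.diff hπ le_rfl x)

lemma LD_neg (f : X → W) (x : X) : LD hπ (fun y => -f y) x = -LD hπ f x := fderiv_neg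

lemma LD_sum {ι : Type*} {s : Finset ι} {f : ι → X → W} (hf : ∀ i ∈ s, LSm hπ 1 (f i)) (x : X) :
    LD hπ (fun y => ∑ i ∈ s, f i y) x = ∑ i ∈ s, LD hπ (f i) x := by
  have h := fderiv_fun_sum (𝕜 := ℝ) (u := s) (A := fun i v => f i (lsec hπ x v)) (x := π x)
    (fun i hi => (hf i hi).diff hπ le_rfl x)
  exact h

lemma LD_const_smul (c : ℝ) {f : X → W} (hf : LSm hπ 1 f) (x : X) :
    LD hπ (fun y => c • f y) x = c • LD hπ f x :=
  fderiv_const_smul (hf.diff hπ le_rfl x) c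

lemma LD_clm {f : X → W} (hf : LSm hπ 1 f) (T : W →L[ℝ] W₁) (x : X) :
    LD hπ (fun y => T (f y)) x = T.comp (LD hπ f x) :=
  (T.hasFDerivAt.comp (π x) (hf.diff hπ le_rfl x).hasFDerivAt).fderiv

lemma LD_clm_apply {f : X → W} (hf : LSm hπ 1 f) (T : W →L[ℝ] W₁) (x : X) (v : V) :
    LD hπ (fun y => T (f y)) x v = T (LD hπ f x v) := by
  rw [LD_clm hπ hf]; rfl

lemma LD_linear_apply [FiniteDimensional ℝ W] {f : X → W} (hf : LSm hπ 1 f) (T : W →ₗ[ℝ] W₁)
    (x : X) (v : V) : LD hπ (fun y => T (f y)) x v = T (LD hπ f x v) :=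
  LD_clm_apply hπ hf (LinearMap.toContinuousLinearMap T) x v

lemma LD_bilin {f : X → W} {g : X → W₁} (hf : LSm hπ 1 f) (hg : LSm hπ 1 g)
    (B : W →L[ℝ] W₁ →L[ℝ] W₂) (x : X) (v : V) :
    LD hπ (fun y => B (f y) (g y)) x v = B (LD hπ f x v) (g x) + B (f x) (LD hπ g x v) := by
  have h := B.fderiv_of_bilinear (hf.diff hπ le_rfl x) (hg.diff hπ le_rfl x)
  have h2 : LD hπ (fun y => B (f y) (g y)) x =
      fderiv ℝ (fun y => B ((f ∘ lsec hπ x) y) ((g ∘ lsec hπ x) y)) (π x) := rfl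
  rw [h2, h]
  simp only [ContinuousLinearMap.precompR, ContinuousLinearMap.precompL, LD,
    Function.comp_apply, lsec_self]
  simp [add_comm]

lemma LD_smul_apply {f : X → ℝ} {g : X → W} (hf : LSm hπ 1 f) (hg : LSm hπ 1 g) (x : X) (v : V) :
    LD hπ (fun y => f y • g y) x v = LD hπ f x v • g x + f x • LD hπ g x v := by
  have h := LD_bilin hπ hf hg (ContinuousLinearMap.lsmul ℝ ℝ) x v
  simpa using h

/-- Symmetry of the second derivative. -/
lemma LD_LD_symm {f : X → W} (hf : LSm hπ 2 f) (x : X) (v w : V) :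
    LD hπ (fun y => LD hπ f y v) x w = LD hπ (fun y => LD hπ f y w) x v := by
  have hs : IsSymmSndFDerivAt ℝ (f ∘ lsec hπ x) (π x) :=
    (hf x).isSymmSndFDerivAt (by simp)
  have h1 : ∀ u : V, LD hπ (fun y => LD hπ f y u) x =
      fderiv ℝ (fun y => fderiv ℝ (f ∘ lsec hπ x) y u) (π x) := by
    intro u
    apply Filter.EventuallyEq.fderiv_eq
    filter_upwards [LD_comp_lsec hπ f x] with y hy
    have := congrArg (fun T => T u) hy
    exact this
  have hd : DifferentiableAt ℝ (fderiv ℝ (f ∘ lsec hπ x)) (π x) :=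
    ((hf x).fderiv_right (m := 1) (by norm_num)).differentiableAt (by norm_num)
  have h2 : ∀ u : V, fderiv ℝ (fun y => fderiv ℝ (f ∘ lsec hπ x) y u) (π x) =
      (fderiv ℝ (fderiv ℝ (f ∘ lsec hπ x)) (π x)).flip u := by
    intro u
    rw [fderiv_clm_apply hd (differentiableAt_const u)]
    simp
  rw [h1, h1, h2, h2, ContinuousLinearMap.flip_apply, ContinuousLinearMap.flip_apply]
  exact hs.eq w v

/-! ### Supports -/

lemma LD_eq_zero_of_notMem {f : X → W} {x : X} (hx : x ∉ tsupport f) : LD hπ f x = 0 := by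
  have h : f =ᶠ[𝓝 x] fun _ => 0 := notMem_tsupport_iff_eventuallyEq.mp hx
  rw [LD_congr hπ h, LD_const]

lemma tsupport_LD_subset (f : X → W) : tsupport (LD hπ f) ⊆ tsupport f := by
  apply closure_minimal _ (isClosed_tsupport f)
  intro x hx
  by_contra hcon
  exact hx (LD_eq_zero_of_notMem hπ hcon)

lemma hasCompactSupport_LD {f : X → W} (hf : HasCompactSupport f) :
    HasCompactSupport (LD hπ f) :=
  hf.of_isClosed_subset (isClosed_tsupport _) (tsupport_LD_subset hπ f)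

end EH
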