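import Pool.Agent.Work.MP_9eee85_co.EH.ExhB
import Pool.Agent.Work.MP_9eee85_co.EH.ExhP
import Pool.Agent.Work.MP_9eee85_co.EH.ConeE
import Pool.Agent.Work.MP_9eee85_co.EH.GaugeMat
import Pool.Agent.Work.MP_9eee85_co.EH.LCalc

/-!
# Cutoffs in the gauge of a Hermitian matrix field (EH cell, MP_9eee85_co)

* `norm_ic_sq` : the norm of a covector;
* `cov_eq_ic` : the covector of a real linear form;
* `gauge_bound` : if `herm2 H - c pair w` is semipositive then `c |G⁻¹ w|² ≤ 5`;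
* `exists_gauge_cutoffs` : cutoffs with `|G⁻¹ dχ_m| ≤ 1 / (m + 1)`.
-/

noncomputable section

namespace EH.Exh

open MeasureTheory Filter Topology Set EHX EHPos Finset
open scoped ContDiff

lemma std_eq_om : std ic = om := om_eq_pair.symm

lemma co_e (a : Fin 10) (S : Finset (Fin 10)) : co (e a) S = if S = {a} then 1 else 0 := rfl

/-- The norm of a covector. -/
lemma norm_gen_sq (v : RV) : ‖gen v‖ ^ 2 = ∑ a, v a ^ 2 := by
  classical
  have h1 : ∀ a b, inner ℝ (e a) (e b) = if a = b then (1 : ℝ) else 0 := by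
    intro a b
    rw [inner_eq, Finset.sum_eq_single {a}]
    · simp only [co_e, if_true, one_mul, Finset.singleton_inj]
    · intro S _ hS; simp [co_e, hS]
    · intro h; exact absurd (Finset.mem_univ _) h
  rw [← real_inner_self_eq_norm_sq, gen_eq, sum_inner]
  refine Finset.sum_congr rfl fun a _ => ?_
  rw [inner_sum, Finset.sum_eq_single a]
  · rw [real_inner_smul_left, real_inner_smul_right, h1, if_pos rfl]; ring
  · intro b _ hb
    rw [real_inner_smul_left, real_inner_smul_right, h1, if_neg (Ne.symm hb)]; ring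
  · intro h; exact absurd (Finset.mem_univ _) h

lemma norm_ic_sq (u : Fin 5 → ℂ) : ‖ic u‖ ^ 2 = ∑ j, ‖u j‖ ^ 2 := by
  rw [ic_apply, norm_gen_sq, sum_fin10]
  refine Finset.sum_congr rfl fun j _ => ?_
  rw [cv_xi, cv_yi, ← Complex.normSq_eq_norm_sq, Complex.normSq_apply]
  ring

/-- The complex coordinates of a real linear form. -/
def cvec (l : Bs →L[ℝ] ℝ) : Fin 5 → ℂ := fun j => ⟨l (Pi.single j 1), l (Pi.single j Complex.I)⟩

lemma bv_xi (j : Fin 5) : bv (xi j) = Pi.single j 1 := by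
  have h1 : (xi j).val % 2 = 0 := by simp [xi]
  have h3 : (⟨(xi j).val / 2, by omega⟩ : Fin 5) = j := by ext; simp [xi]
  simp only [bv, h1, if_true, h3]

lemma bv_yi (j : Fin 5) : bv (yi j) = Pi.single j Complex.I := by
  have h2 : ¬ (yi j).val % 2 = 0 := by simp only [yi]; omega
  have h4 : (⟨(yi j).val / 2, by omega⟩ : Fin 5) = j := by ext; simp only [yi]; omega
  simp only [bv, h2, if_false, h4]

lemma cov_eq_ic (l : Bs →L[ℝ] ℝ) : cov l = ic (cvec l) := by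
  rw [cov, sum_fin10, ic_eq]
  refine Finset.sum_congr rfl fun j _ => ?_
  rw [bv_xi, bv_yi]
  rfl

lemma cov_smul (c : ℝ) (l : Bs →L[ℝ] ℝ) : cov (c • l) = c • cov l := by
  simp only [cov, smul_apply, smul_eq_mul, mul_smul, Finset.smul_sum]

/-- The action of the gauge on covectors. -/
lemma ext_rmat_ic (A : Fin 5 → Fin 5 → ℂ) (v : Fin 5 → ℂ) :
    ext (rmat A) (ic v) = ic (conjL A v) := by
  rw [ic_apply, ext_gen, rmat_eq_cplx, cplx_cv, ic_apply]

/-- The inverse gauge of the form of the matrix. -/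
lemma ext_minv_herm2 {H : Fin 5 → Fin 5 → ℂ} (h : PD H) :
    ext (rmat (minv (gmat H))) (herm2 H) = om := by
  rw [← ext_gmat_om h, ext_minv_rmat (gmat_det_ne h)]

/-- The gauge preserves the cone. -/
lemma ext_rmat_cone (A : Fin 5 → Fin 5 → ℂ) {x : E} (hx : x ∈ cone ic) :
    ext (rmat A) x ∈ cone ic :=
  map_cone (ext (rmat A)) (conjL A) (ext_rmat_ic A) hx

/-- **The length of a covector in the gauge.** -/
theorem gauge_bound {H : Fin 5 → Fin 5 → ℂ} (hH : PD H) {c : ℝ} (hc : 0 ≤ c) {w : Fin 5 → ℂ}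
    (h : herm2 H - c • pair ic w ∈ cone ic) :
    c * ‖ext (rmat (minv (gmat H))) (ic w)‖ ^ 2 ≤ 5 := by
  set B := conjL (minv (gmat H)) with hB
  have h1 : std ic - pair ic (Real.sqrt c • B w) ∈ cone ic := by
    have h2 := ext_rmat_cone (minv (gmat H)) h
    rw [map_sub, map_smul, ext_minv_herm2 hH,
      map_pair (ext (rmat (minv (gmat H)))) B (ext_rmat_ic _)] at h2
    rw [std_eq_om, pair_smul, Real.sq_sqrt hc]
    exact h2
  have h3 := coord_le_of_mem ic_sq top (by rw [top_std]; norm_num) h1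
  rw [ext_rmat_ic, norm_ic_sq, Finset.mul_sum]
  have h4 : ∀ j, c * ‖B w j‖ ^ 2 ≤ 1 := by
    intro j
    have h5 := h3 j
    rw [Pi.smul_apply, norm_smul, Real.norm_of_nonneg (Real.sqrt_nonneg c)] at h5
    have h6 : c * ‖B w j‖ ^ 2 = (Real.sqrt c * ‖B w j‖) ^ 2 := by
      rw [mul_pow, Real.sq_sqrt hc]
    rw [h6]
    exact pow_le_one₀ (by positivity) h5
  calc ∑ j, c * ‖B w j‖ ^ 2 ≤ ∑ _j : Fin 5, (1 : ℝ) := Finset.sum_le_sum fun j _ => h4 j
    _ = 5 := by simp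

/-- The norm of the multiplication by a covector in the gauge. -/
lemma gauge_bound' {H : Fin 5 → Fin 5 → ℂ} (hH : PD H) {c : ℝ} (hc : 0 < c) {w : Fin 5 → ℂ}
    (h : herm2 H - c • pair ic w ∈ cone ic) :
    ‖ext (rmat (minv (gmat H))) (ic w)‖ ≤ Real.sqrt (5 / c) := by
  apply Real.le_sqrt_of_sq_le
  rw [le_div_iff₀ hc, mul_comm]
  exact gauge_bound hH hc.le h

section

variable {X : Type*} [TopologicalSpace X] {π : X → Bs} (hπ : IsLocalHomeomorph π)
variable {κ : Type*} [Fintype κ] {g : κ → X → ℂ}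

/-- **Cutoffs with small differential in the gauge.** -/
theorem exists_gauge_cutoffs (hg : ∀ k, LSm hπ ⊤ (g k)) (hc : Coer g)
    {H : X → Fin 5 → Fin 5 → ℂ} (hH : ∀ x, PD (H x)) {c : ℝ} (hc0 : 0 < c)
    (h : ∀ x, herm2 (H x) - c • pair ic (cvec (LD hπ (exR g) x)) ∈ cone ic) :
    ∃ χ : ℕ → X → ℝ, (∀ m, LSm hπ ⊤ (χ m)) ∧ (∀ m, HasCompactSupport (χ m)) ∧
      (∀ m x, 0 ≤ χ m x) ∧ (∀ m x, χ m x ≤ 1) ∧ (∀ x, ∀ᶠ m in atTop, χ m x = 1) ∧
      ∀ m x, ‖ext (rmat (minv (gmat (H x)))) (cov (LD hπ (χ m) x))‖ ≤ 1 / ((m : ℝ) + 1) := by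
  refine exists_cutoff_seq hπ hg (fun k => (hg k).continuous) hc
    (N := fun x l => ‖ext (rmat (minv (gmat (H x)))) (cov l)‖) (C := Real.sqrt (5 / c)) ?_ ?_
  · intro x a l
    simp only [cov_smul, map_smul, norm_smul, Real.norm_eq_abs]
  · intro x
    simp only [cov_eq_ic]
    exact gauge_bound' (hH x) hc0 (h x)

/-- The same for a single cutoff equal to one on a compact set. -/
theorem exists_gauge_cutoff (hg : ∀ k, LSm hπ ⊤ (g k)) (hc : Coer g)
    {H : X → Fin 5 → Fin 5 → ℂ} (hH : ∀ x, PD (H x)) {c : ℝ} (hc0 : 0 < c)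
    (h : ∀ x, herm2 (H x) - c • pair ic (cvec (LD hπ (exR g) x)) ∈ cone ic)
    {K : Set X} (hK : IsCompact K) {ε : ℝ} (hε : 0 < ε) :
    ∃ χ : X → ℝ, LSm hπ ⊤ χ ∧ HasCompactSupport χ ∧ (∀ x, 0 ≤ χ x) ∧ (∀ x, χ x ≤ 1) ∧
      (∀ x ∈ K, χ x = 1) ∧ ∀ x, ‖ext (rmat (minv (gmat (H x)))) (cov (LD hπ χ x))‖ ≤ ε := by
  refine exists_cutoffs hπ hg (fun k => (hg k).continuous) hc
    (N := fun x l => ‖ext (rmat (minv (gmat (H x)))) (cov l)‖) (C := Real.sqrt (5 / c)) ?_ ?_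
    hK hε
  · intro x a l
    simp only [cov_smul, map_smul, norm_smul, Real.norm_eq_abs]
  · intro x
    simp only [cov_eq_ic]
    exact gauge_bound' (hH x) hc0 (h x)

end

end EH.Exh
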