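import Pool.Agent.Work.MP_9eee85_co.EH.ExhC

/-!
# Positive definiteness of sums of rank one matrices, and the cone (EH cell, MP_9eee85_co)

* `rk1 a` : the matrix `a_j conj a_k`; `herm2 (rk1 a) = pair ic (conj a)`;
* `pd_sum` : `∑ c_i rk1 (a i)` is positive definite when all `e_j` occur with positive weight;
* `herm2_sum_mem` : its form is in the cone, and domination by single terms.
-/

noncomputable section

namespace EH.Exh

open EHPos Finset ComplexConjugate

/-- The rank one matrix of a row. -/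
def rk1 (a : Fin 5 → ℂ) : Fin 5 → Fin 5 → ℂ := fun j k => a j * conj (a k)

lemma herm2_rk1 (a : Fin 5 → ℂ) : herm2 (rk1 a) = pair ic (fun j => conj (a j)) := by
  have h := herm2_rankone a
  rw [zre_mul_zim] at h
  exact h

lemma herm2_rk1_conj (a : Fin 5 → ℂ) : herm2 (rk1 fun j => conj (a j)) = pair ic a := by
  rw [herm2_rk1]
  congr 1
  funext j
  exact Complex.conj_conj (a j)

lemma rk1_psd (a : Fin 5 → ℂ) : PSD (rk1 a) := psd_rankone a

lemma hform_sum {ι : Type*} (s : Finset ι) (H : ι → Fin 5 → Fin 5 → ℂ) (x : Fin 5 → ℂ) :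
    hform (∑ i ∈ s, H i) x = ∑ i ∈ s, hform (H i) x := by
  classical
  induction s using Finset.induction_on with
  | empty => simp [hform]
  | insert a s ha ih => rw [Finset.sum_insert ha, Finset.sum_insert ha, hform_add, ih]

lemma hform_rk1_single (j : Fin 5) (x : Fin 5 → ℂ) :
    hform (rk1 (Pi.single j 1)) x = ((‖x j‖ ^ 2 : ℝ) : ℂ) := by
  have e : ∀ i : Fin 5, Star.star (x i) * ∑ k, rk1 (Pi.single j 1) i k * x k =
      if i = j then Star.star (x j) * x j else 0 := by
    intro i
    by_cases hi : i = j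
    · subst hi
      rw [if_pos rfl, Finset.sum_eq_single i]
      · simp [rk1]
      · intro k _ hk; simp [rk1, hk]
      · intro h; exact absurd (Finset.mem_univ _) h
    · rw [if_neg hi]
      simp [rk1, hi]
  rw [hform, Finset.sum_congr rfl fun i _ => e i, Finset.sum_ite_eq' Finset.univ j,
    if_pos (Finset.mem_univ j)]
  have := Complex.conj_mul' (x j)
  exact_mod_cast this

variable {ι : Type*} [Fintype ι]

/-- A sum of rank one matrices is positive definite when it contains all basis vectors. -/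
theorem pd_sum (c : ι → ℝ) (a : ι → Fin 5 → ℂ) (hc : ∀ i, 0 ≤ c i) (z : Fin 5 → ι)
    (hz : ∀ j, 0 < c (z j)) (ha : ∀ j, a (z j) = Pi.single j 1) :
    PD (∑ i, c i • rk1 (a i)) := by
  have hpsd : ∀ i, PSD (c i • rk1 (a i)) := fun i => (rk1_psd (a i)).smul (hc i)
  refine ⟨(PSD.sum Finset.univ fun i _ => hpsd i).1, fun x hx => ?_⟩
  obtain ⟨j, hj⟩ := Function.ne_iff.mp hx
  rw [hform_sum, Complex.re_sum]
  refine Finset.sum_pos' (fun i _ => (hpsd i).2 x) ⟨z j, Finset.mem_univ _, ?_⟩
  rw [hform_smul, ha, hform_rk1_single, ← Complex.ofReal_mul, Complex.ofReal_re]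
  exact mul_pos (hz j) (by
    have : 0 < ‖x j‖ := norm_pos_iff.mpr hj
    positivity)

/-- The form of a sum of rank one matrices. -/
lemma herm2_sum_rk1 (c : ι → ℝ) (a : ι → Fin 5 → ℂ) :
    herm2 (∑ i, c i • rk1 (a i)) = ∑ i, c i • pair ic (fun j => conj (a i j)) := by
  rw [map_sum]
  refine Finset.sum_congr rfl fun i _ => ?_
  rw [map_smul, herm2_rk1]

theorem herm2_sum_mem (c : ι → ℝ) (a : ι → Fin 5 → ℂ) (hc : ∀ i, 0 ≤ c i) :
    herm2 (∑ i, c i • rk1 (a i)) ∈ cone ic := by
  rw [herm2_sum_rk1]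
  exact sum_mem fun i _ => smul_pair_mem ic (hc i) _

/-- Monotonicity in the weights. -/
theorem herm2_sum_sub_mem (c c' : ι → ℝ) (a : ι → Fin 5 → ℂ) (hc : ∀ i, c i ≤ c' i) :
    herm2 (∑ i, c' i • rk1 (a i)) - herm2 (∑ i, c i • rk1 (a i)) ∈ cone ic := by
  rw [herm2_sum_rk1, herm2_sum_rk1, ← Finset.sum_sub_distrib]
  refine sum_mem fun i _ => ?_
  rw [← sub_smul]
  exact smul_pair_mem ic (sub_nonneg.mpr (hc i)) _

/-- The standard form is dominated near a point: if the basis vectors have weights `≥ m` then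
`herm2 H - m om` is semipositive. -/
theorem herm2_sub_om_mem (c : ι → ℝ) (a : ι → Fin 5 → ℂ) (hc : ∀ i, 0 ≤ c i) (z : Fin 5 → ι)
    {m : ℝ} (hz : ∀ j, m ≤ c (z j)) (ha : ∀ j, a (z j) = Pi.single j 1) :
    herm2 (∑ i, c i • rk1 (a i)) - m • om ∈ cone ic := by
  classical
  have hinj : Function.Injective z := by
    intro j k h
    have h1 : (Pi.single j 1 : Fin 5 → ℂ) = Pi.single k 1 := by rw [← ha j, ← ha k, h]
    by_contra hjk
    have h2 := congrFun h1 j
    rw [Pi.single_eq_same, Pi.single_eq_of_ne hjk] at h2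
    exact one_ne_zero h2
  have hpair : ∀ j, pair ic (fun k => conj (a (z j) k)) = pair ic (Pi.single j 1) := by
    intro j
    congr 1
    funext k
    rw [ha]
    by_cases hk : k = j
    · subst hk; simp
    · simp [hk]
  rw [herm2_sum_rk1, om_eq_pair, Finset.smul_sum]
  have e : ∑ i, c i • pair ic (fun j => conj (a i j)) =
      (∑ i ∈ (Finset.univ.image z)ᶜ, c i • pair ic (fun j => conj (a i j))) +
      ∑ j, c (z j) • pair ic (Pi.single j 1 : Fin 5 → ℂ) := by
    rw [← Finset.sum_compl_add_sum (Finset.univ.image z)]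
    congr 1
    rw [Finset.sum_image fun j _ k _ h => hinj h]
    exact Finset.sum_congr rfl fun j _ => by rw [hpair]
  rw [e, add_sub_assoc, ← Finset.sum_sub_distrib]
  refine add_mem (sum_mem fun i _ => smul_pair_mem ic (hc i) _) (sum_mem fun j _ => ?_)
  rw [← sub_smul]
  exact smul_pair_mem ic (sub_nonneg.mpr (hz j)) _

end EH.Exh
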