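import Pool.Agent.Work.MP_9eee85_co.EH.JStar
import Pool.Agent.Work.MP_9eee85_co.EH.GaugeMat

/-!
# The complex structure and the algebra endomorphism of a complex linear map

* `J_ic : J (ic v) = ic (-i v)`;
* `ext_cplx_J`, `ext_rmat_J` : `ext (cplx A)` commutes with `J`, hence with `Jinv`;
* the versions for `extL (cplxL A)`.
-/

noncomputable section

namespace EH

open Finset ComplexConjugate

/-- `J` as an algebra endomorphism. -/
def JA : E →ₐ[ℝ] E := AlgHom.ofLinearMap J J_one J_mul

@[simp] lemma JA_apply (α : E) : JA α = J α := rfl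

/-- `J` on real covectors is `v ↦ -i v` on complex coordinates. -/
theorem J_ic (v : Fin 5 → ℂ) : J (ic v) = ic (fun j => -Complex.I * v j) := by
  rw [ic_eq, ic_eq, map_sum]
  refine Finset.sum_congr rfl fun j _ => ?_
  rw [map_add, map_smul, map_smul, J_e, J_e, sw_xi, sw_yi, js_xi, js_yi]
  have h1 : (-Complex.I * v j).re = (v j).im := by simp
  have h2 : (-Complex.I * v j).im = -(v j).re := by simp
  rw [h1, h2, one_smul, smul_smul, add_comm]
  simp

lemma Jinv_ic (v : Fin 5 → ℂ) : Jinv (ic v) = ic (fun j => Complex.I * v j) := by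
  have h : J (ic (fun j => Complex.I * v j)) = ic v := by
    rw [J_ic]
    congr 1
    funext j
    rw [← mul_assoc, neg_mul, Complex.I_mul_I, neg_neg, one_mul]
  rw [← h, Jinv_J]

/-- Every generator is an `ic`. -/
lemma gen_eq_ic (w : EuclideanSpace ℝ (Fin 10)) : gen w = ic (cv.symm w) := by
  rw [ic_apply, LinearEquiv.apply_symm_apply]

lemma ext_cplx_ic (A : Fin 5 → Fin 5 → ℂ) (v : Fin 5 → ℂ) :
    ext (cplx A) (ic v) = ic (conjL A v) := by
  rw [ic_apply, ext_gen, cplx_cv, ic_apply]

/-- The endomorphism of a complex linear map commutes with the complex structure. -/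
theorem ext_cplx_J (A : Fin 5 → Fin 5 → ℂ) (α : E) :
    ext (cplx A) (J α) = J (ext (cplx A) α) := by
  have h : (ext (cplx A)).comp JA = JA.comp (ext (cplx A)) := by
    apply algHom_ext
    intro w
    simp only [AlgHom.comp_apply, JA_apply]
    rw [gen_eq_ic, J_ic, ext_cplx_ic, ext_cplx_ic, J_ic]
    congr 1
    have : (fun j => -Complex.I * (cv.symm w) j) = (-Complex.I) • (cv.symm w) := rfl
    rw [this, map_smul]
    rfl
  exact DFunLike.congr_fun h α

theorem ext_rmat_J (A : Fin 5 → Fin 5 → ℂ) (α : E) :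
    ext (rmat A) (J α) = J (ext (rmat A) α) := by
  rw [rmat_eq_cplx]; exact ext_cplx_J A α

lemma ext_cplx_Jinv (A : Fin 5 → Fin 5 → ℂ) (α : E) :
    ext (cplx A) (Jinv α) = Jinv (ext (cplx A) α) := by
  simp only [Jinv, LinearMap.comp_apply, ext_cplx_J]

lemma ext_rmat_Jinv (A : Fin 5 → Fin 5 → ℂ) (α : E) :
    ext (rmat A) (Jinv α) = Jinv (ext (rmat A) α) := by
  rw [rmat_eq_cplx]; exact ext_cplx_Jinv A α

lemma extL_cplxL_J (A : Fin 5 → Fin 5 → ℂ) (α : E) :
    extL (cplxL A) (J α) = J (extL (cplxL A) α) := by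
  rw [extL_cplxL, extL_cplxL, ext_rmat_J]

lemma extL_cplxL_Jinv (A : Fin 5 → Fin 5 → ℂ) (α : E) :
    extL (cplxL A) (Jinv α) = Jinv (extL (cplxL A) α) := by
  rw [extL_cplxL, extL_cplxL, ext_rmat_Jinv]

/-- A product `ic v * ic (i v)` is `J`-invariant. -/
lemma J_ic_mul_ic (v : Fin 5 → ℂ) :
    J (ic v * ic (fun j => Complex.I * v j)) = ic v * ic (fun j => Complex.I * v j) := by
  have h : (fun j => -Complex.I * (Complex.I * v j)) = v := by
    funext j
    rw [← mul_assoc, neg_mul, Complex.I_mul_I, neg_neg, one_mul]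
  have h2 : ic (fun j => -Complex.I * v j) = -ic (fun j => Complex.I * v j) := by
    rw [← map_neg]; congr 1; funext j; simp
  rw [J_mul, J_ic, J_ic, h, h2, ic_anti]
  simp

end EH
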