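import Mathlib

/-!
# Friedrichs' lemma on a finite dimensional real vector space

`mol μ ε v`: mollification of `v`.  `Weak μ e A v g`: the identity `∑ D_a (A_a v) = g` in the sense
of distributions.  `friedrichs`: if `v`, `g` are in `L²` then `∑ D_a (A_a v_ε) → g` in `L²`.
-/

set_option linter.unusedSectionVars false

open MeasureTheory Filter Topology Set Metric
open scoped ENNReal NNReal ContDiff

namespace EH.Fr

section Young

variable {E : Type*} [NormedAddCommGroup E] [NormedSpace ℝ E] [FiniteDimensional ℝ E]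
  [MeasurableSpace E] [BorelSpace E] (μ : Measure E) [μ.IsAddHaarMeasure]

theorem young {κ f : E → ℝ≥0∞} (hκ : Measurable κ) (hf : AEMeasurable f μ) :
    ∫⁻ x, (∫⁻ y, κ (x - y) * f y ∂μ) ^ (2 : ℝ) ∂μ
      ≤ (∫⁻ x, κ x ∂μ) ^ (2 : ℝ) * ∫⁻ x, f x ^ (2 : ℝ) ∂μ := by
  have hs : ∀ x : E, Measurable fun y => κ (x - y) := fun x => hκ.comp (measurable_const.sub measurable_id)
  have hI : ∀ x : E, ∫⁻ y, κ (x - y) ∂μ = ∫⁻ y, κ y ∂μ := fun x =>
    lintegral_sub_left_eq_self κ x
  have h1 : ∀ x : E, (∫⁻ y, κ (x - y) * f y ∂μ) ^ (2 : ℝ)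
      ≤ (∫⁻ y, κ y ∂μ) * ∫⁻ y, κ (x - y) * f y ^ (2 : ℝ) ∂μ := by
    intro x
    have h2 := ENNReal.lintegral_mul_le_Lp_mul_Lq μ (p := 2) (q := 2)
      (by constructor <;> norm_num) (f := fun y => κ (x - y) ^ (1 / 2 : ℝ))
      (g := fun y => κ (x - y) ^ (1 / 2 : ℝ) * f y) ((hs x).pow_const _).aemeasurable
      (((hs x).pow_const _).aemeasurable.mul hf)
    have h3 : ∀ y, ((fun y => κ (x - y) ^ (1 / 2 : ℝ)) *
        (fun y => κ (x - y) ^ (1 / 2 : ℝ) * f y)) y = κ (x - y) * f y := by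
      intro y
      simp only [Pi.mul_apply]
      rw [← mul_assoc, ← ENNReal.rpow_add_of_nonneg _ _ (by norm_num) (by norm_num)]
      norm_num
    simp only [h3] at h2
    have h4 : ∀ y, (κ (x - y) ^ (1 / 2 : ℝ)) ^ (2 : ℝ) = κ (x - y) := by
      intro y
      rw [← ENNReal.rpow_mul]
      norm_num
    have h5 : ∀ y, (κ (x - y) ^ (1 / 2 : ℝ) * f y) ^ (2 : ℝ) = κ (x - y) * f y ^ (2 : ℝ) := by
      intro y
      rw [ENNReal.mul_rpow_of_nonneg _ _ (by norm_num), h4]
    simp only [h4, h5, hI] at h2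
    calc (∫⁻ y, κ (x - y) * f y ∂μ) ^ (2 : ℝ)
        ≤ ((∫⁻ y, κ y ∂μ) ^ (1 / 2 : ℝ) * (∫⁻ y, κ (x - y) * f y ^ (2 : ℝ) ∂μ) ^ (1 / 2 : ℝ))
          ^ (2 : ℝ) := ENNReal.rpow_le_rpow h2 (by norm_num)
      _ = _ := by
          rw [ENNReal.mul_rpow_of_nonneg _ _ (by norm_num), ← ENNReal.rpow_mul,
            ← ENNReal.rpow_mul]
          norm_num
  calc ∫⁻ x, (∫⁻ y, κ (x - y) * f y ∂μ) ^ (2 : ℝ) ∂μ
      ≤ ∫⁻ x, (∫⁻ y, κ y ∂μ) * ∫⁻ y, κ (x - y) * f y ^ (2 : ℝ) ∂μ ∂μ := lintegral_mono h1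
    _ = (∫⁻ y, κ y ∂μ) * ∫⁻ x, ∫⁻ y, κ (x - y) * f y ^ (2 : ℝ) ∂μ ∂μ := by
        apply lintegral_const_mul''
        apply AEMeasurable.lintegral_prod_right' (f := fun z : E × E => κ (z.1 - z.2) * f z.2 ^ (2 : ℝ))
        exact ((hκ.comp (measurable_fst.sub measurable_snd)).aemeasurable).mul
          ((hf.comp_quasiMeasurePreserving Measure.quasiMeasurePreserving_snd).pow_const _)
    _ = (∫⁻ y, κ y ∂μ) * ∫⁻ y, ∫⁻ x, κ (x - y) * f y ^ (2 : ℝ) ∂μ ∂μ := by
        congr 1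
        apply lintegral_lintegral_swap
        exact ((hκ.comp (measurable_fst.sub measurable_snd)).aemeasurable).mul
          ((hf.comp_quasiMeasurePreserving Measure.quasiMeasurePreserving_snd).pow_const _)
    _ = (∫⁻ y, κ y ∂μ) * ∫⁻ y, (∫⁻ x, κ x ∂μ) * f y ^ (2 : ℝ) ∂μ := by
        congr 1
        apply lintegral_congr
        intro y
        have h6 : Measurable fun x : E => κ (x - y) := hκ.comp (measurable_id.sub measurable_const)
        rw [lintegral_mul_const'' _ h6.aemeasurable, lintegral_sub_right_eq_self κ y]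
    _ = _ := by
        rw [lintegral_const_mul'' _ (hf.pow_const _), ← mul_assoc]
        congr 1
        rw [← sq]
        norm_cast

theorem young_norm {V W : Type*} [NormedAddCommGroup V] [NormedAddCommGroup W]
    {κ : E → ℝ≥0∞} (hκ : Measurable κ) {v : E → V} (hv : AEStronglyMeasurable v μ) {F : E → W}
    (hF : ∀ x, ‖F x‖ₑ ≤ ∫⁻ y, κ (x - y) * ‖v y‖ₑ ∂μ) :
    eLpNorm F 2 μ ≤ (∫⁻ x, κ x ∂μ) * eLpNorm v 2 μ := by
  have h2 : (2 : ℝ≥0∞) ≠ 0 := by norm_num
  have h2' : (2 : ℝ≥0∞) ≠ ⊤ := by norm_num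
  rw [eLpNorm_eq_lintegral_rpow_enorm_toReal h2 h2', eLpNorm_eq_lintegral_rpow_enorm_toReal h2 h2']
  simp only [ENNReal.toReal_ofNat]
  have h3 := young μ hκ hv.enorm
  calc (∫⁻ x, ‖F x‖ₑ ^ (2 : ℝ) ∂μ) ^ (1 / 2 : ℝ)
      ≤ (∫⁻ x, (∫⁻ y, κ (x - y) * ‖v y‖ₑ ∂μ) ^ (2 : ℝ) ∂μ) ^ (1 / 2 : ℝ) := by
        apply ENNReal.rpow_le_rpow _ (by norm_num)
        exact lintegral_mono fun x => ENNReal.rpow_le_rpow (hF x) (by norm_num)
    _ ≤ ((∫⁻ x, κ x ∂μ) ^ (2 : ℝ) * ∫⁻ x, ‖v x‖ₑ ^ (2 : ℝ) ∂μ) ^ (1 / 2 : ℝ) :=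
        ENNReal.rpow_le_rpow h3 (by norm_num)
    _ = _ := by
        rw [ENNReal.mul_rpow_of_nonneg _ _ (by norm_num), ← ENNReal.rpow_mul]
        norm_num

end Young

section Mollifier

variable {E : Type*} [NormedAddCommGroup E] [NormedSpace ℝ E] [FiniteDimensional ℝ E]
  [MeasurableSpace E] [BorelSpace E] (μ : Measure E) [μ.IsAddHaarMeasure]

/-- the standard bump function -/
noncomputable def bump0 (E : Type*) [NormedAddCommGroup E] [NormedSpace ℝ E] : ContDiffBump (0 : E) :=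
  ⟨1 / 2, 1, by norm_num, by norm_num⟩

/-- the mollifier of radius `ε` -/
noncomputable def rho (ε : ℝ) (x : E) : ℝ :=
  (ε ^ Module.finrank ℝ E)⁻¹ * (bump0 E).normed μ (ε⁻¹ • x)

variable {ε : ℝ}

theorem rho_contDiff (ε : ℝ) : ContDiff ℝ ∞ (rho μ ε) := by
  unfold rho
  exact contDiff_const.mul ((bump0 E).contDiff_normed.comp (contDiff_const_smul _))

theorem rho_nonneg (hε : 0 < ε) (x : E) : 0 ≤ rho μ ε x := by
  unfold rho
  have h := (bump0 E).nonneg_normed (μ := μ) (ε⁻¹ • x)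
  positivity

theorem rho_support (hε : 0 < ε) : Function.support (rho μ ε) = ball (0 : E) ε := by
  ext x
  have h := (bump0 E).support_normed_eq (μ := μ)
  have h1 : x ∈ Function.support (rho μ ε) ↔ ε⁻¹ • x ∈ Function.support ((bump0 E).normed μ) := by
    simp only [Function.mem_support, rho, ne_eq, mul_eq_zero, inv_eq_zero, pow_eq_zero_iff',
      hε.ne', false_and, false_or]
  rw [h1, h, mem_ball_zero_iff, mem_ball_zero_iff, norm_smul, norm_inv, Real.norm_eq_abs,
    abs_of_pos hε, inv_mul_lt_iff₀ hε]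
  simp [bump0]

theorem rho_tsupport (hε : 0 < ε) : tsupport (rho μ ε) = closedBall (0 : E) ε := by
  rw [tsupport, rho_support μ hε, closure_ball _ hε.ne']

theorem rho_compact (hε : 0 < ε) : HasCompactSupport (rho μ ε : E → ℝ) := by
  rw [HasCompactSupport, rho_tsupport μ hε]
  exact isCompact_closedBall 0 ε

theorem rho_integral (hε : 0 < ε) : ∫ x, rho μ ε x ∂μ = 1 := by
  unfold rho
  rw [integral_const_mul, Measure.integral_comp_inv_smul_of_nonneg μ _ hε.le,
    (bump0 E).integral_normed, smul_eq_mul, mul_one]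
  exact inv_mul_cancel₀ (pow_pos hε _).ne'

theorem rho_integrable (hε : 0 < ε) : Integrable (rho μ ε) μ :=
  (rho_contDiff μ ε).continuous.integrable_of_hasCompactSupport (rho_compact μ hε)

theorem rho_lint (hε : 0 < ε) : ∫⁻ x, ‖rho μ ε x‖ₑ ∂μ = 1 := by
  have h := ofReal_integral_eq_lintegral_ofReal (rho_integrable μ hε)
    (ae_of_all _ (rho_nonneg μ hε))
  rw [rho_integral μ hε, ENNReal.ofReal_one] at h
  rw [h]
  apply lintegral_congr
  intro x
  rw [← ofReal_norm, Real.norm_of_nonneg (rho_nonneg μ hε x)]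

theorem rho_fderiv (ε : ℝ) (x : E) : fderiv ℝ (rho μ ε) x
    = ((ε ^ Module.finrank ℝ E)⁻¹ * ε⁻¹) • fderiv ℝ ((bump0 E).normed μ) (ε⁻¹ • x) := by
  have hd : DifferentiableAt ℝ ((bump0 E).normed μ) (ε⁻¹ • x) :=
    ((bump0 E).contDiff_normed (n := 1)).differentiable (by norm_num) _
  have h1 : HasFDerivAt (fun y : E => ε⁻¹ • y) (ε⁻¹ • ContinuousLinearMap.id ℝ E) x :=
    (hasFDerivAt_id x).const_smul _
  have h2 := (hd.hasFDerivAt.comp x h1).const_mul ((ε ^ Module.finrank ℝ E)⁻¹)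
  have h3 : HasFDerivAt (rho μ ε) _ x := h2
  rw [h3.fderiv, mul_smul]
  congr 1
  ext y
  simp

/-- the constant of the commutator estimate -/
noncomputable def KK : ℝ := ∫ x : E, ‖x‖ * ‖fderiv ℝ ((bump0 E).normed μ) x‖ ∂μ

theorem KK_nonneg : 0 ≤ KK μ := integral_nonneg fun x => by positivity

theorem rho_K (hε : 0 < ε) : ∫⁻ x : E, ‖x‖ₑ * ‖fderiv ℝ (rho μ ε) x‖ₑ ∂μ = ENNReal.ofReal (KK μ) := by
  have h1 : ∫ x : E, ‖x‖ * ‖fderiv ℝ (rho μ ε) x‖ ∂μ = KK μ := by
    have h2 : ∀ x : E, ‖x‖ * ‖fderiv ℝ (rho μ ε) x‖ = (ε ^ Module.finrank ℝ E)⁻¹ *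
        (‖ε⁻¹ • x‖ * ‖fderiv ℝ ((bump0 E).normed μ) (ε⁻¹ • x)‖) := by
      intro x
      rw [rho_fderiv, norm_smul, norm_smul, norm_mul, norm_inv, norm_inv, norm_pow,
        Real.norm_of_nonneg hε.le]
      ring
    simp only [h2]
    rw [integral_const_mul, Measure.integral_comp_inv_smul_of_nonneg μ
      (fun x : E => ‖x‖ * ‖fderiv ℝ ((bump0 E).normed μ) x‖) hε.le, smul_eq_mul, ← mul_assoc,
      inv_mul_cancel₀ (pow_pos hε _).ne', one_mul]
    rfl
  have hc : Continuous fun x : E => ‖x‖ * ‖fderiv ℝ (rho μ ε) x‖ :=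
    continuous_norm.mul ((rho_contDiff μ ε).continuous_fderiv (by norm_num)).norm
  have hs : HasCompactSupport fun x : E => ‖x‖ * ‖fderiv ℝ (rho μ ε) x‖ :=
    ((rho_compact μ hε).fderiv (𝕜 := ℝ)).norm.mul_left
  rw [← h1, ofReal_integral_eq_lintegral_ofReal (hc.integrable_of_hasCompactSupport hs)
    (ae_of_all _ fun x => by positivity)]
  apply lintegral_congr
  intro x
  rw [ENNReal.ofReal_mul (norm_nonneg _), ofReal_norm, ofReal_norm]

variable {V : Type*} [NormedAddCommGroup V] [NormedSpace ℝ V]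

/-- mollification -/
noncomputable def mol (ε : ℝ) (v : E → V) (x : E) : V := ∫ y, rho μ ε (x - y) • v y ∂μ

theorem mol_eq (ε : ℝ) (v : E → V) :
    mol μ ε v = convolution (rho μ ε) v (ContinuousLinearMap.lsmul ℝ ℝ) μ := by
  ext x
  rw [convolution_lsmul_swap]
  rfl

theorem int_smul (hε : 0 < ε) {v : E → V} (hv : LocallyIntegrable v μ) (x : E) :
    Integrable (fun y => rho μ ε (x - y) • v y) μ := by
  have h1 : Continuous fun y => rho μ ε (x - y) :=
    (rho_contDiff μ ε).continuous.comp (continuous_const.sub continuous_id)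
  have h2 : HasCompactSupport fun y => rho μ ε (x - y) :=
    (rho_compact μ hε).comp_homeomorph (Homeomorph.subLeft x)
  exact hv.integrable_smul_left_of_hasCompactSupport h1 h2

theorem mol_contDiff (hε : 0 < ε) {v : E → V} (hv : LocallyIntegrable v μ) :
    ContDiff ℝ ∞ (mol μ ε v) := by
  rw [mol_eq]
  exact (rho_compact μ hε).contDiff_convolution_left _ (n := ⊤) (rho_contDiff μ ε) hv

theorem mol_fderiv [CompleteSpace V] (hε : 0 < ε) {v : E → V} (hv : LocallyIntegrable v μ) (x e : E) :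
    fderiv ℝ (mol μ ε v) x e = ∫ y, (fderiv ℝ (rho μ ε) (x - y) e) • v y ∂μ := by
  have h := (rho_compact μ hε).hasFDerivAt_convolution_left (ContinuousLinearMap.lsmul ℝ ℝ)
    ((rho_contDiff μ ε).of_le (by exact_mod_cast le_top)) hv x
  rw [← mol_eq] at h
  rw [h.fderiv, convolution_eq_swap]
  have hi : Integrable (fun t => ((ContinuousLinearMap.lsmul ℝ ℝ).precompL E)
      (fderiv ℝ (rho μ ε) (x - t)) (v t)) μ := by
    have := ((rho_compact μ hε).fderiv (𝕜 := ℝ)).convolutionExists_left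
      ((ContinuousLinearMap.lsmul ℝ ℝ : ℝ →L[ℝ] V →L[ℝ] V).precompL E)
      ((rho_contDiff μ ε).continuous_fderiv (by norm_num)) hv x
    exact this.integrable_swap
  rw [ContinuousLinearMap.integral_apply hi]
  rfl

end Mollifier

section Conv

variable {E : Type*} [NormedAddCommGroup E] [NormedSpace ℝ E] [FiniteDimensional ℝ E]
  [MeasurableSpace E] [BorelSpace E] (μ : Measure E) [μ.IsAddHaarMeasure]
variable {V W : Type*} [NormedAddCommGroup V] [NormedSpace ℝ V] [CompleteSpace V]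
  [NormedAddCommGroup W] [NormedSpace ℝ W] [CompleteSpace W]
variable {ε : ℝ}

theorem mol_enorm (ε : ℝ) (v : E → V) (x : E) :
    ‖mol μ ε v x‖ₑ ≤ ∫⁻ y, ‖rho μ ε (x - y)‖ₑ * ‖v y‖ₑ ∂μ := by
  unfold mol
  refine (enorm_integral_le_lintegral_enorm _).trans (lintegral_mono fun y => ?_)
  rw [enorm_smul]

theorem mol_eLpNorm (hε : 0 < ε) {v : E → V} (hv : AEStronglyMeasurable v μ) :
    eLpNorm (mol μ ε v) 2 μ ≤ eLpNorm v 2 μ := by
  have h := young_norm μ (κ := fun z => ‖rho μ ε z‖ₑ)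
    ((rho_contDiff μ ε).continuous.enorm.measurable) hv (mol_enorm μ ε v)
  rwa [rho_lint μ hε, one_mul] at h

theorem mol_sub (hε : 0 < ε) {v w : E → V} (hv : LocallyIntegrable v μ)
    (hw : LocallyIntegrable w μ) : mol μ ε (v - w) = mol μ ε v - mol μ ε w := by
  ext x
  simp only [mol, Pi.sub_apply, smul_sub]
  exact integral_sub (int_smul μ hε hv x) (int_smul μ hε hw x)

theorem mol_eq_zero (hε : 0 < ε) {v : E → V} {K : Set E} (hK : ∀ y, y ∉ K → v y = 0) {x : E}
    (hx : ∀ y ∈ K, ε ≤ dist x y) : mol μ ε v x = 0 := by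
  unfold mol
  rw [← integral_zero E V]
  congr 1
  ext y
  by_cases hy : y ∈ K
  · have : x - y ∉ Function.support (rho μ ε) := by
      rw [rho_support μ hε, mem_ball_zero_iff, not_lt, ← dist_eq_norm]
      exact hx y hy
    rw [Function.notMem_support.1 this, zero_smul]
  · rw [hK y hy, smul_zero]

theorem mol_support (hε : 0 < ε) (v : E → V) :
    Function.support (mol μ ε v) ⊆ thickening ε (tsupport v) := by
  intro x hx
  by_contra h
  apply hx
  apply mol_eq_zero μ hε (K := tsupport v) (fun y hy => image_eq_zero_of_notMem_tsupport hy)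
  intro y hy
  by_contra h2
  exact h (mem_thickening_iff.2 ⟨y, hy, not_le.1 h2⟩)

theorem mol_compact (hε : 0 < ε) {v : E → V} (hv : HasCompactSupport v) :
    HasCompactSupport (mol μ ε v) := by
  apply HasCompactSupport.of_support_subset_isCompact (hv.isCompact.cthickening (r := ε))
  exact (mol_support μ hε v).trans (thickening_subset_cthickening _ _)

theorem mol_dist (hε : 0 < ε) {w : E → V} (hw : Continuous w) {δ : ℝ} {x : E}
    (h : ∀ y, dist y x < ε → dist (w y) (w x) ≤ δ) (hδ : 0 ≤ δ) : dist (mol μ ε w x) (w x) ≤ δ := by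
  rw [mol_eq]
  apply dist_convolution_le hδ
  · intro y hy
    have := rho_support (E := E) μ hε
    exact this.subset hy
  · exact rho_nonneg μ hε
  · exact rho_integral μ hε
  · exact hw.aestronglyMeasurable
  · intro y hy
    exact h y (mem_ball.1 hy)

/-- mollifications converge, smooth case -/
theorem mol_tendsto_smooth {w : E → V} (hw : Continuous w) (hc : HasCompactSupport w) :
    Tendsto (fun ε => eLpNorm (mol μ ε w - w) 2 μ) (𝓝[>] 0) (𝓝 0) := by
  have hu : UniformContinuous w := hc.uniformContinuous_of_continuous hw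
  have hK : IsCompact (cthickening 1 (tsupport w)) := hc.isCompact.cthickening
  have hfin : μ (cthickening 1 (tsupport w)) ≠ ⊤ := hK.measure_lt_top.ne
  rw [ENNReal.tendsto_nhds_zero]
  intro δ hδ
  set m : ℝ≥0∞ := μ (cthickening 1 (tsupport w)) ^ (1 / (2 : ℝ≥0∞).toReal) with hm
  have hmt : m ≠ ⊤ := ENNReal.rpow_ne_top_of_nonneg (by norm_num) hfin
  obtain ⟨c, hc0, hcδ⟩ : ∃ c : ℝ, 0 < c ∧ ENNReal.ofReal c * m ≤ δ := by
    rcases eq_or_ne δ ⊤ with rfl | hδt
    · exact ⟨1, one_pos, le_top⟩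
    · have hδr : 0 < δ.toReal := ENNReal.toReal_pos hδ.ne' hδt
      refine ⟨δ.toReal / (m.toReal + 1), by positivity, ?_⟩
      rw [← ENNReal.ofReal_toReal hmt, ← ENNReal.ofReal_mul (by positivity),
        ← ENNReal.ofReal_toReal hδt]
      apply ENNReal.ofReal_le_ofReal
      rw [ENNReal.toReal_ofReal hδr.le, ENNReal.toReal_ofReal ENNReal.toReal_nonneg,
        div_mul_eq_mul_div, div_le_iff₀ (by positivity)]
      nlinarith [ENNReal.toReal_nonneg (a := m)]
  obtain ⟨r, hr, hr'⟩ := Metric.uniformContinuous_iff.1 hu c hc0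
  have hev : ∀ᶠ ε in 𝓝[>] (0 : ℝ), 0 < ε ∧ ε ≤ r ∧ ε ≤ 1 := by
    have h1 : ∀ᶠ ε in 𝓝[>] (0 : ℝ), 0 < ε := eventually_mem_nhdsWithin
    have h2 : ∀ᶠ ε in 𝓝[>] (0 : ℝ), ε < min r 1 :=
      nhdsWithin_le_nhds (Iio_mem_nhds (lt_min hr one_pos))
    filter_upwards [h1, h2] with ε h1 h2
    exact ⟨h1, (h2.trans_le (min_le_left _ _)).le, (h2.trans_le (min_le_right _ _)).le⟩
  filter_upwards [hev] with ε ⟨h0, h1, h2⟩
  have hsupp : Function.support (mol μ ε w - w) ⊆ cthickening 1 (tsupport w) := by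
    intro x hx
    by_contra h
    apply hx
    have h3 : w x = 0 := by
      apply image_eq_zero_of_notMem_tsupport
      intro h4
      exact h (self_subset_cthickening _ h4)
    have h4 : mol μ ε w x = 0 := by
      by_contra h5
      have h6 := mol_support μ h0 w (show x ∈ Function.support (mol μ ε w) from h5)
      exact h ((thickening_subset_cthickening _ _) (thickening_mono h2 _ h6))
    rw [Pi.sub_apply, h3, h4, sub_zero]
  refine le_trans (eLpNorm_sub_le_of_dist_bdd μ (by norm_num) hK.measurableSet hc0.le ?_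
    ((Function.support_subset_iff'.2 fun x hx => ?_)) ?_) hcδ
  · intro x
    exact mol_dist μ h0 hw (fun y hy => (hr' (lt_of_lt_of_le hy h1)).le) hc0.le
  · by_contra h5
    have h6 := mol_support μ h0 w (show x ∈ Function.support (mol μ ε w) from h5)
    exact hx ((thickening_subset_cthickening _ _) (thickening_mono h2 _ h6))
  · exact (subset_tsupport w).trans (self_subset_cthickening _)

theorem mol_memLp (hε : 0 < ε) {v : E → V} (hv : MemLp v 2 μ) : MemLp (mol μ ε v) 2 μ := by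
  refine ⟨(mol_contDiff μ hε (hv.locallyIntegrable (by norm_num))).continuous.aestronglyMeasurable,
    (mol_eLpNorm μ hε hv.1).trans_lt hv.2⟩

/-- **mollifications converge in `L²`** -/
theorem mol_tendsto {v : E → V} (hv : MemLp v 2 μ) :
    Tendsto (fun ε => eLpNorm (mol μ ε v - v) 2 μ) (𝓝[>] 0) (𝓝 0) := by
  rw [ENNReal.tendsto_nhds_zero]
  intro δ hδ
  obtain ⟨c, hc0, hcδ⟩ : ∃ c : ℝ, 0 < c ∧ ENNReal.ofReal c ≤ δ / 3 := by
    have h3 : (0 : ℝ≥0∞) < δ / 3 := ENNReal.div_pos hδ.ne' (by norm_num)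
    rcases eq_or_ne (δ / 3) ⊤ with h | h
    · exact ⟨1, one_pos, by rw [h]; exact le_top⟩
    · exact ⟨(δ / 3).toReal, ENNReal.toReal_pos h3.ne' h, by rw [ENNReal.ofReal_toReal h]⟩
  obtain ⟨w, hw1, hw2, hw3⟩ := hv.exist_eLpNorm_sub_le (by norm_num) (by norm_num) hc0
  have hw : MemLp w 2 μ := hw2.continuous.memLp_of_hasCompactSupport hw1
  have h1 := (ENNReal.tendsto_nhds_zero.1 (mol_tendsto_smooth μ hw2.continuous hw1)) (δ / 3)
    (ENNReal.div_pos hδ.ne' (by norm_num))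
  have h0 : ∀ᶠ ε in 𝓝[>] (0 : ℝ), 0 < ε := eventually_mem_nhdsWithin
  filter_upwards [h1, h0] with ε h1 h0
  have e1 : mol μ ε v - v = mol μ ε (v - w) + (mol μ ε w - w) + (w - v) := by
    rw [mol_sub μ h0 (hv.locallyIntegrable (by norm_num)) (hw.locallyIntegrable (by norm_num))]
    abel
  have m1 : MemLp (mol μ ε (v - w)) 2 μ := mol_memLp μ h0 (hv.sub hw)
  have m2 : MemLp (mol μ ε w - w) 2 μ := (mol_memLp μ h0 hw).sub hw
  rw [e1]
  calc eLpNorm (mol μ ε (v - w) + (mol μ ε w - w) + (w - v)) 2 μ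
      ≤ eLpNorm (mol μ ε (v - w) + (mol μ ε w - w)) 2 μ + eLpNorm (w - v) 2 μ :=
        eLpNorm_add_le (m1.add m2).1 (hw.sub hv).1 (by norm_num)
    _ ≤ (eLpNorm (mol μ ε (v - w)) 2 μ + eLpNorm (mol μ ε w - w) 2 μ) + eLpNorm (w - v) 2 μ := by
        gcongr
        exact eLpNorm_add_le m1.1 m2.1 (by norm_num)
    _ ≤ (δ / 3 + δ / 3) + δ / 3 := by
        gcongr
        · exact (mol_eLpNorm μ h0 (hv.sub hw).1).trans (hw3.trans hcδ)
        · rw [eLpNorm_sub_comm]
          exact hw3.trans hcδ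
    _ = δ := ENNReal.add_thirds δ

end Conv

section Commutator

variable {E : Type*} [NormedAddCommGroup E] [NormedSpace ℝ E] [FiniteDimensional ℝ E]
  [MeasurableSpace E] [BorelSpace E] (μ : Measure E) [μ.IsAddHaarMeasure]
variable {V W : Type*} [NormedAddCommGroup V] [NormedSpace ℝ V] [CompleteSpace V]
  [NormedAddCommGroup W] [NormedSpace ℝ W] [CompleteSpace W]
variable {ε : ℝ}

/-- the commutator of the mollifier with the operator `v ↦ D_e (A v)` -/
noncomputable def com (A : E → V →L[ℝ] W) (e : E) (ε : ℝ) (v : E → V) (x : E) : W :=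
  (fderiv ℝ A x e) (mol μ ε v x)
    + ∫ y, (fderiv ℝ (rho μ ε) (x - y) e) • (A x - A y) (v y) ∂μ

variable {A : E → V →L[ℝ] W} {L B : ℝ≥0}

theorem drho_cont (ε : ℝ) (e : E) : Continuous fun z : E => fderiv ℝ (rho μ ε) z e :=
  ((rho_contDiff μ ε).continuous_fderiv (by norm_num)).clm_apply continuous_const

theorem drho_compact (hε : 0 < ε) (e : E) : HasCompactSupport fun z : E => fderiv ℝ (rho μ ε) z e := by
  have := (rho_compact μ hε).fderiv (𝕜 := ℝ)
  exact this.comp_left (g := fun l : E →L[ℝ] ℝ => l e) rfl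

theorem int_drho (hε : 0 < ε) (e : E) {v : E → V} (hv : LocallyIntegrable v μ) (x : E) :
    Integrable (fun y => (fderiv ℝ (rho μ ε) (x - y) e) • v y) μ := by
  have h1 : Continuous fun y => fderiv ℝ (rho μ ε) (x - y) e :=
    (drho_cont μ ε e).comp (continuous_const.sub continuous_id)
  have h2 : HasCompactSupport fun y => fderiv ℝ (rho μ ε) (x - y) e :=
    (drho_compact μ hε e).comp_homeomorph (Homeomorph.subLeft x)
  exact hv.integrable_smul_left_of_hasCompactSupport h1 h2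

theorem locInt_apply (hA : Continuous A) {v : E → V} (hv : LocallyIntegrable v μ) :
    LocallyIntegrable (fun y => A y (v y)) μ := by
  rw [locallyIntegrable_iff] at hv ⊢
  intro K hK
  obtain ⟨C, hC⟩ := hK.exists_bound_of_continuousOn hA.continuousOn
  refine Integrable.mono' ((hv K hK).norm.const_mul C) ?_ ?_
  · exact (ContinuousLinearMap.apply ℝ W : V →L[ℝ] (V →L[ℝ] W) →L[ℝ] W).aestronglyMeasurable_comp₂
      (hv K hK).aestronglyMeasurable hA.aestronglyMeasurable
  · filter_upwards [ae_restrict_mem hK.measurableSet] with y hy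
    exact ((A y).le_opNorm _).trans (by gcongr; exact hC y hy)

theorem int_com (hε : 0 < ε) (hA : Continuous A) (e : E) {v : E → V} (hv : LocallyIntegrable v μ)
    (x : E) : Integrable (fun y => (fderiv ℝ (rho μ ε) (x - y) e) • (A x - A y) (v y)) μ :=
  int_drho μ hε e (locInt_apply μ (continuous_const.sub hA) hv) x

theorem fderiv_apply_le (hA : LipschitzWith L A) (x e : E) : ‖fderiv ℝ A x e‖ ≤ L * ‖e‖ :=
  ((fderiv ℝ A x).le_opNorm e).trans (by
    gcongr
    exact norm_fderiv_le_of_lipschitz ℝ hA)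

theorem com_enorm (hA : LipschitzWith L A) (e : E) (ε : ℝ) (v : E → V) (x : E) :
    ‖com μ A e ε v x‖ₑ ≤ ∫⁻ y, ((L : ℝ≥0∞) * ‖e‖ₑ * (‖rho μ ε (x - y)‖ₑ
      + ‖x - y‖ₑ * ‖fderiv ℝ (rho μ ε) (x - y)‖ₑ)) * ‖v y‖ₑ ∂μ := by
  have hL : ‖(L : ℝ)‖ₑ = (L : ℝ≥0∞) := by
    rw [← ofReal_norm, Real.norm_of_nonneg L.coe_nonneg, ENNReal.ofReal_coe_nnreal]
  have h1 : ‖(fderiv ℝ A x e) (mol μ ε v x)‖ₑ
      ≤ ∫⁻ y, (L : ℝ≥0∞) * ‖e‖ₑ * (‖rho μ ε (x - y)‖ₑ * ‖v y‖ₑ) ∂μ := by
    rw [lintegral_const_mul' _ _ (ENNReal.mul_ne_top ENNReal.coe_ne_top enorm_ne_top)]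
    refine ((fderiv ℝ A x e).le_opENorm _).trans ?_
    gcongr
    · have h := fderiv_apply_le hA x e
      rw [← hL, ← ofReal_norm, ← ofReal_norm, ← ofReal_norm, ← ENNReal.ofReal_mul (norm_nonneg _),
        Real.norm_of_nonneg L.coe_nonneg]
      exact ENNReal.ofReal_le_ofReal h
    · exact mol_enorm μ ε v x
  have h2 : ‖∫ y, (fderiv ℝ (rho μ ε) (x - y) e) • (A x - A y) (v y) ∂μ‖ₑ
      ≤ ∫⁻ y, (L : ℝ≥0∞) * ‖e‖ₑ * ((‖x - y‖ₑ * ‖fderiv ℝ (rho μ ε) (x - y)‖ₑ) * ‖v y‖ₑ) ∂μ := by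
    refine (enorm_integral_le_lintegral_enorm _).trans (lintegral_mono fun y => ?_)
    have h3 : ‖(fderiv ℝ (rho μ ε) (x - y) e) • (A x - A y) (v y)‖
        ≤ (L * ‖e‖) * ((‖x - y‖ * ‖fderiv ℝ (rho μ ε) (x - y)‖) * ‖v y‖) := by
      rw [norm_smul]
      have h4 := (fderiv ℝ (rho μ ε) (x - y)).le_opNorm e
      have h5 := (A x - A y).le_opNorm (v y)
      have h6 : ‖A x - A y‖ ≤ L * ‖x - y‖ := by
        have := hA.dist_le_mul x y
        rwa [dist_eq_norm, dist_eq_norm] at this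
      calc ‖(fderiv ℝ (rho μ ε) (x - y)) e‖ * ‖(A x - A y) (v y)‖
          ≤ (‖fderiv ℝ (rho μ ε) (x - y)‖ * ‖e‖) * ((L * ‖x - y‖) * ‖v y‖) := by
            gcongr
            exact h5.trans (by gcongr)
        _ = _ := by ring
    have h7 : (L : ℝ≥0∞) * ‖e‖ₑ * ((‖x - y‖ₑ * ‖fderiv ℝ (rho μ ε) (x - y)‖ₑ) * ‖v y‖ₑ)
        = ENNReal.ofReal ((L * ‖e‖) * ((‖x - y‖ * ‖fderiv ℝ (rho μ ε) (x - y)‖) * ‖v y‖)) := by
      rw [ENNReal.ofReal_mul (by positivity), ENNReal.ofReal_mul L.coe_nonneg,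
        ENNReal.ofReal_mul (by positivity), ENNReal.ofReal_mul (by positivity), ofReal_norm,
        ofReal_norm, ofReal_norm, ofReal_norm, ENNReal.ofReal_coe_nnreal]
    rw [h7, ← ofReal_norm]
    exact ENNReal.ofReal_le_ofReal h3
  unfold com
  refine (enorm_add_le _ _).trans ((add_le_add h1 h2).trans ?_)
  rw [← hL]
  refine (le_lintegral_add _ _).trans (lintegral_mono fun y => le_of_eq ?_)
  ring

theorem com_eLpNorm (hε : 0 < ε) (hA : LipschitzWith L A) (e : E) {v : E → V}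
    (hv : AEStronglyMeasurable v μ) : eLpNorm (com μ A e ε v) 2 μ
      ≤ ((L : ℝ≥0∞) * ‖e‖ₑ * (1 + ENNReal.ofReal (KK μ))) * eLpNorm v 2 μ := by
  have hm1 : Measurable fun z : E => ‖rho μ ε z‖ₑ := (rho_contDiff μ ε).continuous.enorm.measurable
  have hm2 : Measurable fun z : E => ‖z‖ₑ * ‖fderiv ℝ (rho μ ε) z‖ₑ :=
    (continuous_enorm.measurable).mul
      ((rho_contDiff μ ε).continuous_fderiv (by norm_num)).enorm.measurable
  have h := young_norm μ (κ := fun z => (L : ℝ≥0∞) * ‖e‖ₑ * (‖rho μ ε z‖ₑ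
    + ‖z‖ₑ * ‖fderiv ℝ (rho μ ε) z‖ₑ)) ((hm1.add hm2).const_mul _) hv (com_enorm μ hA e ε v)
  refine h.trans (le_of_eq ?_)
  have h8 : Measurable fun z : E => ‖rho μ ε z‖ₑ + ‖z‖ₑ * ‖fderiv ℝ (rho μ ε) z‖ₑ := hm1.add hm2
  rw [lintegral_const_mul _ h8, lintegral_add_left hm1, rho_lint μ hε, rho_K μ hε]

end Commutator

section Friedrichs

variable {E : Type*} [NormedAddCommGroup E] [NormedSpace ℝ E] [FiniteDimensional ℝ E]
  [MeasurableSpace E] [BorelSpace E] (μ : Measure E) [μ.IsAddHaarMeasure]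
variable {V W : Type*} [NormedAddCommGroup V] [NormedSpace ℝ V] [CompleteSpace V]
  [NormedAddCommGroup W] [NormedSpace ℝ W] [CompleteSpace W]
variable {ε : ℝ} {A : E → V →L[ℝ] W} {L B : ℝ≥0}

theorem mol_fderiv_smooth (hε : 0 < ε) {w : E → V} (hw : ContDiff ℝ 1 w) (hc : HasCompactSupport w)
    (x e : E) : fderiv ℝ (mol μ ε w) x e = mol μ ε (fun y => fderiv ℝ w y e) x := by
  have h := hc.hasFDerivAt_convolution_right (ContinuousLinearMap.lsmul ℝ ℝ)
    (rho_integrable μ hε).locallyIntegrable hw x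
  rw [← mol_eq] at h
  rw [h.fderiv]
  have hi : Integrable (fun t => ((ContinuousLinearMap.lsmul ℝ ℝ).precompR E)
      (rho μ ε t) (fderiv ℝ w (x - t))) μ := by
    have := (hc.fderiv (𝕜 := ℝ)).convolutionExists_right
      ((ContinuousLinearMap.lsmul ℝ ℝ : ℝ →L[ℝ] V →L[ℝ] V).precompR E)
      (rho_integrable μ hε).locallyIntegrable (hw.continuous_fderiv (by norm_num)) x
    exact this
  rw [convolution_def, ContinuousLinearMap.integral_apply hi, mol_eq, convolution_def]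
  rfl

theorem com_smooth (hε : 0 < ε) (hA : ContDiff ℝ 1 A) (e : E) {w : E → V} (hw : ContDiff ℝ ∞ w)
    (hc : HasCompactSupport w) (x : E) : com μ A e ε w x =
      (fderiv ℝ A x e) (mol μ ε w x - w x)
        + (A x) (mol μ ε (fun y => fderiv ℝ w y e) x - fderiv ℝ w x e)
        - (mol μ ε (fun y => fderiv ℝ (fun z => A z (w z)) y e) x
          - fderiv ℝ (fun z => A z (w z)) x e) := by
  have hw1 : ContDiff ℝ 1 w := hw.of_le (by exact_mod_cast le_top)
  have hwl : LocallyIntegrable w μ := hw.continuous.locallyIntegrable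
  have hAw : ContDiff ℝ 1 (fun z => A z (w z)) := hA.clm_apply hw1
  have hAwc : HasCompactSupport (fun z => A z (w z)) := by
    apply HasCompactSupport.of_support_subset_isCompact hc
    intro y hy
    apply subset_tsupport
    intro h
    apply hy
    simp [h]
  have h1 : ∫ y, (fderiv ℝ (rho μ ε) (x - y) e) • (A x - A y) (w y) ∂μ
      = A x (mol μ ε (fun y => fderiv ℝ w y e) x)
        - mol μ ε (fun y => fderiv ℝ (fun z => A z (w z)) y e) x := by
    rw [← mol_fderiv_smooth μ hε hw1 hc, ← mol_fderiv_smooth μ hε hAw hAwc,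
      mol_fderiv μ hε hwl, mol_fderiv μ hε hAw.continuous.locallyIntegrable,
      ← ContinuousLinearMap.integral_comp_comm _ (int_drho μ hε e hwl x),
      ← integral_sub]
    · congr 1
      ext y
      simp [smul_sub]
    · exact (A x).integrable_comp (int_drho μ hε e hwl x)
    · exact int_drho μ hε e hAw.continuous.locallyIntegrable x
  have h2 : fderiv ℝ (fun z => A z (w z)) x e = (fderiv ℝ A x e) (w x) + A x (fderiv ℝ w x e) := by
    have hd := (hA.differentiable (by norm_num) x).hasFDerivAt.clm_apply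
      (hw1.differentiable (by norm_num) x).hasFDerivAt
    rw [hd.fderiv]
    simp [add_comm]
  unfold com
  rw [h1, h2, map_sub, map_sub]
  abel

theorem com_tendsto_smooth (hA : ContDiff ℝ 1 A) (hAL : LipschitzWith L A) (hAB : ∀ x, ‖A x‖ ≤ B)
    (e : E) {w : E → V} (hw : ContDiff ℝ ∞ w) (hc : HasCompactSupport w) :
    Tendsto (fun ε => eLpNorm (com μ A e ε w) 2 μ) (𝓝[>] 0) (𝓝 0) := by
  have hw1 : ContDiff ℝ 1 w := hw.of_le (by exact_mod_cast le_top)
  have hwm : MemLp w 2 μ := hw.continuous.memLp_of_hasCompactSupport hc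
  have hdw : Continuous fun y => fderiv ℝ w y e :=
    (hw1.continuous_fderiv (by norm_num)).clm_apply continuous_const
  have hdc : HasCompactSupport fun y => fderiv ℝ w y e :=
    (hc.fderiv (𝕜 := ℝ)).comp_left (g := fun l : E →L[ℝ] V => l e) rfl
  have hdm : MemLp (fun y => fderiv ℝ w y e) 2 μ := hdw.memLp_of_hasCompactSupport hdc
  have hAw : ContDiff ℝ 1 (fun z => A z (w z)) := hA.clm_apply hw1
  have hAwc : HasCompactSupport (fun z => A z (w z)) := by
    apply HasCompactSupport.of_support_subset_isCompact hc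
    intro y hy
    apply subset_tsupport
    intro h
    apply hy
    simp [h]
  have hdAw : Continuous fun y => fderiv ℝ (fun z => A z (w z)) y e :=
    (hAw.continuous_fderiv (by norm_num)).clm_apply continuous_const
  have hdAc : HasCompactSupport fun y => fderiv ℝ (fun z => A z (w z)) y e :=
    (hAwc.fderiv (𝕜 := ℝ)).comp_left (g := fun l : E →L[ℝ] W => l e) rfl
  have hdAm : MemLp (fun y => fderiv ℝ (fun z => A z (w z)) y e) 2 μ :=
    hdAw.memLp_of_hasCompactSupport hdAc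
  have t1 := mol_tendsto μ hwm
  have t2 := mol_tendsto μ hdm
  have t3 := mol_tendsto μ hdAm
  have t : Tendsto (fun ε => ENNReal.ofReal (L * ‖e‖) * eLpNorm (mol μ ε w - w) 2 μ
      + ENNReal.ofReal B * eLpNorm (mol μ ε (fun y => fderiv ℝ w y e) - fun y => fderiv ℝ w y e) 2 μ
      + eLpNorm (mol μ ε (fun y => fderiv ℝ (fun z => A z (w z)) y e)
        - fun y => fderiv ℝ (fun z => A z (w z)) y e) 2 μ) (𝓝[>] 0) (𝓝 0) := by
    have := ((ENNReal.Tendsto.const_mul (a := ENNReal.ofReal (L * ‖e‖)) t1 (Or.inr ENNReal.ofReal_ne_top)).add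
      (ENNReal.Tendsto.const_mul (a := ENNReal.ofReal B) t2 (Or.inr ENNReal.ofReal_ne_top))).add t3
    simpa using this
  refine tendsto_of_tendsto_of_tendsto_of_le_of_le' tendsto_const_nhds t
    (Eventually.of_forall fun _ => zero_le) ?_
  filter_upwards [eventually_mem_nhdsWithin] with ε (h0 : 0 < ε)
  have c1 : Continuous fun x => fderiv ℝ A x e :=
    (hA.continuous_fderiv (by norm_num)).clm_apply continuous_const
  have s1 : AEStronglyMeasurable (fun x => (fderiv ℝ A x e) (mol μ ε w x - w x)) μ :=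
    (c1.clm_apply ((mol_contDiff μ h0 (hwm.locallyIntegrable (by norm_num))).continuous.sub
      hw.continuous)).aestronglyMeasurable
  have s2 : AEStronglyMeasurable (fun x => (A x) (mol μ ε (fun y => fderiv ℝ w y e) x
      - fderiv ℝ w x e)) μ :=
    (hA.continuous.clm_apply ((mol_contDiff μ h0 (hdm.locallyIntegrable (by norm_num))).continuous.sub
      hdw)).aestronglyMeasurable
  have s3 : AEStronglyMeasurable (fun x => mol μ ε (fun y => fderiv ℝ (fun z => A z (w z)) y e) x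
          - fderiv ℝ (fun z => A z (w z)) x e) μ :=
    ((mol_contDiff μ h0 (hdAm.locallyIntegrable (by norm_num))).continuous.sub
      hdAw).aestronglyMeasurable
  have e1 : com μ A e ε w = (fun x => (fderiv ℝ A x e) (mol μ ε w x - w x))
      + (fun x => (A x) (mol μ ε (fun y => fderiv ℝ w y e) x - fderiv ℝ w x e))
      - (fun x => mol μ ε (fun y => fderiv ℝ (fun z => A z (w z)) y e) x
          - fderiv ℝ (fun z => A z (w z)) x e) := by
    ext x
    rw [com_smooth μ h0 hA e hw hc]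
    rfl
  rw [e1]
  refine (eLpNorm_sub_le (s1.add s2) s3 (by norm_num)).trans (add_le_add
    ((eLpNorm_add_le s1 s2 (by norm_num)).trans (add_le_add ?_ ?_)) le_rfl)
  · apply eLpNorm_le_mul_eLpNorm_of_ae_le_mul (ae_of_all _ fun x => ?_)
    refine ((fderiv ℝ A x e).le_opNorm _).trans ?_
    rw [Pi.sub_apply]
    gcongr
    exact fderiv_apply_le hAL x e
  · apply eLpNorm_le_mul_eLpNorm_of_ae_le_mul (ae_of_all _ fun x => ?_)
    refine ((A x).le_opNorm _).trans ?_
    rw [Pi.sub_apply]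
    gcongr
    exact hAB x

theorem com_sub (hε : 0 < ε) (hA : Continuous A) (e : E) {v w : E → V} (hv : LocallyIntegrable v μ)
    (hw : LocallyIntegrable w μ) : com μ A e ε (v - w) = com μ A e ε v - com μ A e ε w := by
  ext x
  simp only [com, Pi.sub_apply, mol_sub μ hε hv hw, map_sub, smul_sub]
  rw [integral_sub (int_com μ hε hA e hv x) (int_com μ hε hA e hw x)]
  abel

theorem com_meas (hε : 0 < ε) (hA : ContDiff ℝ 1 A) (e : E) {v : E → V}
    (hv : LocallyIntegrable v μ) : Continuous (com μ A e ε v) := by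
  have c1 : Continuous fun x => fderiv ℝ A x e :=
    (hA.continuous_fderiv (by norm_num)).clm_apply continuous_const
  have hvA := locInt_apply μ hA.continuous hv
  have h1 : com μ A e ε v = fun x => (fderiv ℝ A x e) (mol μ ε v x)
      + ((A x) (fderiv ℝ (mol μ ε v) x e) - fderiv ℝ (mol μ ε (fun y => A y (v y))) x e) := by
    ext x
    rw [mol_fderiv μ hε hv, mol_fderiv μ hε hvA,
      ← ContinuousLinearMap.integral_comp_comm _ (int_drho μ hε e hv x), ← integral_sub]
    · unfold com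
      congr 2
      ext y
      simp [smul_sub]
    · exact (A x).integrable_comp (int_drho μ hε e hv x)
    · exact int_drho μ hε e hvA x
  rw [h1]
  have m1 := mol_contDiff μ hε hv
  have m2 := mol_contDiff μ hε hvA
  exact (c1.clm_apply m1.continuous).add ((hA.continuous.clm_apply
    ((m1.continuous_fderiv (by norm_num)).clm_apply continuous_const)).sub
    ((m2.continuous_fderiv (by norm_num)).clm_apply continuous_const))

/-- **the commutator tends to zero in `L²`** -/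
theorem com_tendsto (hA : ContDiff ℝ 1 A) (hAL : LipschitzWith L A) (hAB : ∀ x, ‖A x‖ ≤ B)
    (e : E) {v : E → V} (hv : MemLp v 2 μ) :
    Tendsto (fun ε => eLpNorm (com μ A e ε v) 2 μ) (𝓝[>] 0) (𝓝 0) := by
  rw [ENNReal.tendsto_nhds_zero]
  intro δ hδ
  set C : ℝ≥0∞ := (L : ℝ≥0∞) * ‖e‖ₑ * (1 + ENNReal.ofReal (KK μ)) with hC
  have hCt : C ≠ ⊤ := by
    rw [hC]
    exact ENNReal.mul_ne_top (ENNReal.mul_ne_top ENNReal.coe_ne_top enorm_ne_top)
      (ENNReal.add_ne_top.2 ⟨ENNReal.one_ne_top, ENNReal.ofReal_ne_top⟩)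
  obtain ⟨c, hc0, hcδ⟩ : ∃ c : ℝ, 0 < c ∧ C * ENNReal.ofReal c ≤ δ / 2 := by
    have h3 : (0 : ℝ≥0∞) < δ / 2 := ENNReal.div_pos hδ.ne' (by norm_num)
    rcases eq_or_ne (δ / 2) ⊤ with h | h
    · exact ⟨1, one_pos, by rw [h]; exact le_top⟩
    · have h4 : 0 < (δ / 2).toReal := ENNReal.toReal_pos h3.ne' h
      refine ⟨(δ / 2).toReal / (C.toReal + 1), by positivity, ?_⟩
      rw [← ENNReal.ofReal_toReal hCt, ← ENNReal.ofReal_mul ENNReal.toReal_nonneg,
        ← ENNReal.ofReal_toReal h]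
      apply ENNReal.ofReal_le_ofReal
      rw [ENNReal.toReal_ofReal h4.le, ENNReal.toReal_ofReal ENNReal.toReal_nonneg,
        mul_div_assoc', div_le_iff₀ (by positivity)]
      nlinarith [ENNReal.toReal_nonneg (a := C)]
  obtain ⟨w, hw1, hw2, hw3⟩ := hv.exist_eLpNorm_sub_le (by norm_num) (by norm_num) hc0
  have hw : MemLp w 2 μ := hw2.continuous.memLp_of_hasCompactSupport hw1
  have h1 := (ENNReal.tendsto_nhds_zero.1 (com_tendsto_smooth μ hA hAL hAB e hw2 hw1)) (δ / 2)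
    (ENNReal.div_pos hδ.ne' (by norm_num))
  have h0 : ∀ᶠ ε in 𝓝[>] (0 : ℝ), 0 < ε := eventually_mem_nhdsWithin
  filter_upwards [h1, h0] with ε h1 h0
  have hvl := hv.locallyIntegrable (μ := μ) (by norm_num)
  have hwl := hw.locallyIntegrable (μ := μ) (by norm_num)
  have e1 : com μ A e ε v = com μ A e ε (v - w) + com μ A e ε w := by
    rw [com_sub μ h0 hA.continuous e hvl hwl]
    abel
  rw [e1]
  calc eLpNorm (com μ A e ε (v - w) + com μ A e ε w) 2 μ
      ≤ eLpNorm (com μ A e ε (v - w)) 2 μ + eLpNorm (com μ A e ε w) 2 μ :=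
        eLpNorm_add_le (com_meas μ h0 hA e (hvl.sub hwl)).aestronglyMeasurable
          (com_meas μ h0 hA e hwl).aestronglyMeasurable (by norm_num)
    _ ≤ δ / 2 + δ / 2 := by
        gcongr
        refine (com_eLpNorm μ h0 hAL e (hv.sub hw).1).trans ((?_ : _ ≤ C * ENNReal.ofReal c).trans hcδ)
        gcongr
    _ = δ := ENNReal.add_halves δ

variable {ι : Type*} [Fintype ι]

/-- the weak identity `g = ∑ D_a (A_a v)` -/
def Weak (e : ι → E) (A : ι → E → V →L[ℝ] W) (v : E → V) (g : E → W) : Prop :=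
  ∀ φ : E → ℝ, ContDiff ℝ ∞ φ → HasCompactSupport φ →
    ∫ x, φ x • g x ∂μ = - ∑ a, ∫ x, (fderiv ℝ φ x (e a)) • (A a x) (v x) ∂μ

/-- **Friedrichs' lemma**: if `∑ D_a (A_a v) = g` weakly, `v` and `g` in `L²`, then
`∑ D_a (A_a v_ε) → g` in `L²` for the mollifications `v_ε` of `v`. -/
theorem friedrichs {e : ι → E} {A : ι → E → V →L[ℝ] W} {L B : ι → ℝ≥0}
    (hA : ∀ a, ContDiff ℝ 1 (A a)) (hAL : ∀ a, LipschitzWith (L a) (A a))
    (hAB : ∀ a x, ‖A a x‖ ≤ B a) {v : E → V} (hv : MemLp v 2 μ) {g : E → W} (hg : MemLp g 2 μ)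
    (hw : Weak μ e A v g) :
    Tendsto (fun ε => eLpNorm (fun x =>
      ∑ a, fderiv ℝ (fun y => A a y (mol μ ε v y)) x (e a) - g x) 2 μ) (𝓝[>] 0) (𝓝 0) := by
  have hvl := hv.locallyIntegrable (μ := μ) (by norm_num)
  have hgl := hg.locallyIntegrable (μ := μ) (by norm_num)
  have t : Tendsto (fun ε => ∑ a, eLpNorm (com μ (A a) (e a) ε v) 2 μ
      + eLpNorm (mol μ ε g - g) 2 μ) (𝓝[>] 0) (𝓝 0) := by
    have := (tendsto_finsetSum Finset.univ (fun a _ =>
      com_tendsto μ (hA a) (hAL a) (hAB a) (e a) hv)).add (mol_tendsto μ hg)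
    simpa using this
  refine tendsto_of_tendsto_of_tendsto_of_le_of_le' tendsto_const_nhds t
    (Eventually.of_forall fun _ => zero_le) ?_
  filter_upwards [eventually_mem_nhdsWithin] with ε (h0 : 0 < ε)
  have key : (fun x => ∑ a, fderiv ℝ (fun y => A a y (mol μ ε v y)) x (e a) - g x)
      = (∑ a, com μ (A a) (e a) ε v) + (mol μ ε g - g) := by
    ext x
    rw [Pi.add_apply, Finset.sum_apply, Pi.sub_apply]
    -- weak identity with `φ y = ρ (x - y)`
    have h1 := hw (fun y => rho μ ε (x - y)) ((rho_contDiff μ ε).comp (contDiff_const.sub contDiff_id))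
      ((rho_compact μ h0).comp_homeomorph (Homeomorph.subLeft x))
    have h2 : ∀ y e', fderiv ℝ (fun y => rho μ ε (x - y)) y e' = - fderiv ℝ (rho μ ε) (x - y) e' := by
      intro y e'
      have hd : HasFDerivAt (fun y => x - y) (-(ContinuousLinearMap.id ℝ E)) y :=
        (hasFDerivAt_id y).const_sub x
      have hr := (((rho_contDiff μ ε).differentiable (by simp)) (x - y)).hasFDerivAt.comp y hd
      have hr' : HasFDerivAt (fun y => rho μ ε (x - y)) _ y := hr
      rw [hr'.fderiv]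
      simp
    simp only [h2, neg_smul, integral_neg, Finset.sum_neg_distrib, neg_neg] at h1
    have h3 : mol μ ε g x = ∑ a, ∫ y, (fderiv ℝ (rho μ ε) (x - y) (e a)) • (A a y) (v y) ∂μ := h1
    have h4 : ∀ a, fderiv ℝ (fun y => A a y (mol μ ε v y)) x (e a)
        = com μ (A a) (e a) ε v x
          + ∫ y, (fderiv ℝ (rho μ ε) (x - y) (e a)) • (A a y) (v y) ∂μ := by
      intro a
      have hm := mol_contDiff μ h0 hvl
      have hd := ((hA a).differentiable (by norm_num) x).hasFDerivAt.clm_apply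
        (hm.differentiable (by simp) x).hasFDerivAt
      rw [hd.fderiv]
      have h5 : (A a x) (fderiv ℝ (mol μ ε v) x (e a))
          = ∫ y, (fderiv ℝ (rho μ ε) (x - y) (e a)) • (A a x - A a y) (v y) ∂μ
            + ∫ y, (fderiv ℝ (rho μ ε) (x - y) (e a)) • (A a y) (v y) ∂μ := by
        rw [mol_fderiv μ h0 hvl, ← ContinuousLinearMap.integral_comp_comm _
          (int_drho μ h0 (e a) hvl x), ← integral_add (int_com μ h0 (hA a).continuous (e a) hvl x)
          (int_drho μ h0 (e a) (locInt_apply μ (hA a).continuous hvl) x)]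
        congr 1
        ext y
        simp [smul_sub]
      simp only [_root_.add_apply, ContinuousLinearMap.comp_apply,
        ContinuousLinearMap.flip_apply]
      unfold com
      rw [h5]
      abel
    rw [h3]
    simp only [h4, Finset.sum_add_distrib]
    abel
  rw [key]
  have hmeas : ∀ a, AEStronglyMeasurable (com μ (A a) (e a) ε v) μ := fun a =>
    (com_meas μ h0 (hA a) (e a) hvl).aestronglyMeasurable
  refine (eLpNorm_add_le (Finset.aestronglyMeasurable_sum _ fun a _ => hmeas a)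
    ((mol_memLp μ h0 hg).sub hg).1 (by norm_num)).trans (add_le_add ?_ le_rfl)
  exact eLpNorm_sum_le (fun a _ => hmeas a) (by norm_num)

end Friedrichs

end EH.Fr
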