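import Pool.Agent.Work.MP_9eee85_co.EH.LPart
import Pool.Agent.Work.MP_9eee85_co.EH.LMeas
import Pool.Agent.Work.MP_9eee85_co.EH.Fried

/-!
# Friedrichs' lemma on `X`

`π : X → V` a local homeomorphism, `ν` the lift of a Haar measure of `V`.
`LocL2 ν F`: `F` is square integrable on every compact set.
`fried_X`: if `∑ D_a (A_{j,a} v) = h_j` weakly (finitely many `j`, smooth coefficients, `v` and
`h_j` locally square integrable) and `χ` is a cutoff, then `χ v` is a limit of smooth functions
`s_n` supported in one compact set with `∑ D_a (A_{j,a} s_n) → χ h_j + ∑ (D_a χ) A_{j,a} v`.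
-/

set_option linter.unusedSectionVars false

noncomputable section

namespace EH

open MeasureTheory Filter Topology Set Metric
open scoped ContDiff ENNReal NNReal

section FX

variable {V : Type*} [NormedAddCommGroup V] [NormedSpace ℝ V] [FiniteDimensional ℝ V]
variable {X : Type*} [TopologicalSpace X] [T2Space X] [SecondCountableTopology X] {π : X → V}
variable (hπ : IsLocalHomeomorph π)
variable {U W : Type*} [NormedAddCommGroup U] [NormedSpace ℝ U] [CompleteSpace U]
  [NormedAddCommGroup W] [NormedSpace ℝ W] [CompleteSpace W]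
variable [MeasurableSpace V] [BorelSpace V] [MeasurableSpace X] [BorelSpace X]
variable {μ : Measure V} {ν : Measure X}

/-- square integrable on compact sets -/
def LocL2 (ν : Measure X) (F : X → U) : Prop := ∀ K : Set X, IsCompact K → MemLp F 2 (ν.restrict K)

/-- smooth coefficients applied to a locally square integrable function -/
lemma LocL2.clm {F : X → U} (hF : LocL2 ν F) {A : X → U →L[ℝ] W} (hA : Continuous A) :
    LocL2 ν (fun x => A x (F x)) := by
  intro K hK
  obtain ⟨C, hC⟩ := hK.exists_bound_of_continuousOn hA.continuousOn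
  refine (hF K hK).of_le_mul (c := C) ?_ ?_
  · exact (ContinuousLinearMap.apply ℝ W : U →L[ℝ] (U →L[ℝ] W) →L[ℝ] W).aestronglyMeasurable_comp₂
      (hF K hK).aestronglyMeasurable hA.aestronglyMeasurable
  · filter_upwards [ae_restrict_mem hK.measurableSet] with y hy
    exact ((A y).le_opNorm _).trans (by gcongr; exact hC y hy)

lemma LocL2.add {F G : X → U} (hF : LocL2 ν F) (hG : LocL2 ν G) :
    LocL2 ν (fun x => F x + G x) := fun K hK => (hF K hK).add (hG K hK)

lemma LocL2.sum {ι : Type*} {s : Finset ι} {F : ι → X → U} (hF : ∀ i ∈ s, LocL2 ν (F i)) :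
    LocL2 ν (fun x => ∑ i ∈ s, F i x) := fun K hK => memLp_finsetSum _ fun i hi => hF i hi K hK

lemma LocL2.smul_cont {F : X → U} (hF : LocL2 ν F) {c : X → ℝ} (hc : Continuous c) :
    LocL2 ν (fun x => c x • F x) := by
  have h := hF.clm (A := fun x => c x • ContinuousLinearMap.id ℝ U) (by fun_prop)
  simpa using h

/-- a cut off is square integrable -/
lemma LocL2.memLp_smul {F : X → U} (hF : LocL2 ν F) {c : X → ℝ} (hc : Continuous c)
    (hcs : HasCompactSupport c) : MemLp (fun x => c x • F x) 2 ν := by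
  have h := hF.smul_cont hc _ hcs.isCompact
  have h2 : (fun x => c x • F x) = (tsupport c).indicator (fun x => c x • F x) := by
    symm
    refine indicator_eq_self.2 fun x hx => ?_
    by_contra h
    exact hx (by simp only [image_eq_zero_of_notMem_tsupport h, zero_smul])
  rw [h2]
  exact (memLp_indicator_iff_restrict (isClosed_tsupport c).measurableSet).2 h

lemma LocL2.integrable_smul [IsFiniteMeasureOnCompacts ν] {F : X → U} (hF : LocL2 ν F) {c : X → ℝ}
    (hc : Continuous c) (hcs : HasCompactSupport c) : Integrable (fun x => c x • F x) ν := by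
  have h := hF.smul_cont hc _ hcs.isCompact
  have : IsFiniteMeasure (ν.restrict (tsupport c)) :=
    ⟨by rw [Measure.restrict_apply_univ]; exact hcs.isCompact.measure_lt_top⟩
  have h3 : IntegrableOn (fun x => c x • F x) (tsupport c) ν := h.integrable (by norm_num)
  refine (integrableOn_iff_integrable_of_support_subset ?_).1 h3
  intro x hx
  by_contra h
  exact hx (by simp only [image_eq_zero_of_notMem_tsupport h, zero_smul])

/-! ### Transfer of the `L²` norm -/

include hπ in
lemma eLpNorm_ext0 (hν : IsLift π μ ν) {c : X} {G : X → U}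
    (hs : ∀ x ∉ (lchart hπ c).source, G x = 0) : eLpNorm (ext0 hπ c G) 2 μ = eLpNorm G 2 ν := by
  have hinj : InjOn π (lchart hπ c).source := by
    have h := (lchart hπ c).injOn
    rwa [lchart_eq] at h
  have himg : π '' (lchart hπ c).source = (lchart hπ c).target := by
    have h := (lchart hπ c).image_source_eq_target
    rwa [lchart_eq] at h
  have hm := (lchart hπ c).open_source.measurableSet
  have h := hν.eLpNorm_image hπ 2 hm hinj (ext0 hπ c G)
  rw [himg] at h
  have h1 : eLpNorm (ext0 hπ c G) 2 (μ.restrict (lchart hπ c).target)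
      = eLpNorm (ext0 hπ c G) 2 μ := by
    rw [← eLpNorm_indicator_eq_eLpNorm_restrict (lchart hπ c).open_target.measurableSet]
    congr 1
    refine indicator_eq_self.2 fun v hv => ?_
    by_contra h
    exact hv (by rw [ext0, if_neg h])
  have h2 : eLpNorm (fun x => ext0 hπ c G (π x)) 2 (ν.restrict (lchart hπ c).source)
      = eLpNorm G 2 ν := by
    have e : (lchart hπ c).source.indicator (fun x => ext0 hπ c G (π x)) = G := by
      funext x
      by_cases hx : x ∈ (lchart hπ c).source
      · rw [indicator_of_mem hx, ext0_of_mem hπ (by rw [← himg]; exact mem_image_of_mem _ hx)]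
        congr 1
        have := (lchart hπ c).left_inv hx
        rwa [lchart_eq] at this
      · rw [indicator_of_notMem hx, hs x hx]
    rw [← eLpNorm_indicator_eq_eLpNorm_restrict hm, e]
  rw [← h1, h, h2]

include hπ in
lemma memLp_ext0 (hν : IsLift π μ ν) {c : X} {G : X → U} (hG : MemLp G 2 ν) : MemLp (ext0 hπ c G) 2 μ := by
  have hinj : InjOn π (lchart hπ c).source := by
    have h := (lchart hπ c).injOn
    rwa [lchart_eq] at h
  have himg : π '' (lchart hπ c).source = (lchart hπ c).target := by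
    have h := (lchart hπ c).image_source_eq_target
    rwa [lchart_eq] at h
  have hm := (lchart hπ c).open_source.measurableSet
  have h := hν.memLp_image hπ 2 hm hinj (ext0 hπ c G)
  rw [himg] at h
  have h2 : MemLp (fun x => ext0 hπ c G (π x)) 2 (ν.restrict (lchart hπ c).source) := by
    refine (memLp_congr_ae ?_).1 (hG.restrict _)
    filter_upwards [ae_restrict_mem hm] with x hx
    rw [ext0_of_mem hπ (by rw [← himg]; exact mem_image_of_mem _ hx)]
    congr 1
    have := (lchart hπ c).left_inv hx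
    rw [lchart_eq] at this
    exact this.symm
  have h3 := (memLp_indicator_iff_restrict (lchart hπ c).open_target.measurableSet).2 (h.2 h2)
  have e : (lchart hπ c).target.indicator (ext0 hπ c G) = ext0 hπ c G := by
    refine indicator_eq_self.2 fun v hv => ?_
    by_contra h
    exact hv (by rw [ext0, if_neg h])
  rwa [e] at h3


/-! ### Functions pulled back from the base -/

lemma LSm.comp_pi {φ : V → U} (hφ : ContDiff ℝ ∞ φ) : LSm hπ ⊤ (fun x => φ (π x)) :=
  (LSm.pi hπ ⊤).comp_smooth hπ fun _ => hφ.contDiffAt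

lemma LD_comp_pi (φ : V → U) (x : X) : LD hπ (fun x => φ (π x)) x = fderiv ℝ φ (π x) := by
  have h : ((fun x => φ (π x)) ∘ lsec hπ x) =ᶠ[𝓝 (π x)] φ := by
    filter_upwards [pi_lsec hπ x] with v hv
    simp only [Function.comp_apply, hv]
  rw [LD, h.fderiv_eq]

/-! ### One chart -/

variable {ι κ : Type*} [Fintype ι]

/-- the weak identity `∑ D_a (A_a v) = h` on `X` -/
def WeakX (ν : Measure X) (e : ι → V) (A : ι → X → U →L[ℝ] W) (v : X → U) (h : X → W) : Prop :=
  ∀ φ : X → ℝ, LSm hπ ⊤ φ → HasCompactSupport φ →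
    ∑ a, ∫ x, (LD hπ φ x (e a)) • A a x (v x) ∂ν = -∫ x, φ x • h x ∂ν

/-- the right hand side for a cut off -/
def cutR (e : ι → V) (A : ι → X → U →L[ℝ] W) (v : X → U) (h : X → W) (η : X → ℝ) (x : X) : W :=
  η x • h x + ∑ a, LD hπ η x (e a) • A a x (v x)

/-- the operator -/
def opX (e : ι → V) (A : ι → X → U →L[ℝ] W) (s : X → U) (x : X) : W :=
  ∑ a, LD hπ (fun y => A a y (s y)) x (e a)

lemma cutR_eq_zero (e : ι → V) (A : ι → X → U →L[ℝ] W) (v : X → U) (h : X → W) {η : X → ℝ} {x : X}
    (hx : x ∉ tsupport η) : cutR hπ e A v h η x = 0 := by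
  rw [cutR, image_eq_zero_of_notMem_tsupport hx, LD_eq_zero_of_notMem hπ hx]
  simp

lemma memLp_cutR (e : ι → V) {A : ι → X → U →L[ℝ] W} (hA : ∀ a, LSm hπ ⊤ (A a)) {v : X → U}
    {h : X → W} (hv : LocL2 ν v) (hh : LocL2 ν h) {η : X → ℝ} (hη : LSm hπ ⊤ η)
    (hηc : HasCompactSupport η) : MemLp (cutR hπ e A v h η) 2 ν := by
  refine (hh.memLp_smul (hη.continuous hπ) hηc).add (memLp_finsetSum _ fun a _ => ?_)
  refine (hv.clm ((hA a).continuous hπ)).memLp_smul
    ((hη.LD_apply hπ (m := ⊤) le_top (e a)).continuous hπ) ?_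
  exact (hasCompactSupport_LD hπ hηc).comp_left (g := fun l : V →L[ℝ] ℝ => l (e a)) rfl

lemma tsupport_cutR (e : ι → V) (A : ι → X → U →L[ℝ] W) (v : X → U) (h : X → W) (η : X → ℝ) :
    tsupport (cutR hπ e A v h η) ⊆ tsupport η := by
  refine closure_minimal ?_ (isClosed_tsupport _)
  intro x hx
  by_contra hcon
  exact hx (cutR_eq_zero hπ e A v h hcon)

variable [μ.IsAddHaarMeasure]

/-- the weak identity on the base for a cut off in a chart -/
theorem weak_chart (hν : IsLift π μ ν) (e : ι → V) {A : ι → X → U →L[ℝ] W}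
    (hA : ∀ a, LSm hπ ⊤ (A a)) {v : X → U} {h : X → W} (hv : LocL2 ν v) (hh : LocL2 ν h)
    (hw : WeakX hπ ν e A v h) {c : X} {η θ : X → ℝ} (hη : LSm hπ ⊤ η) (hηc : HasCompactSupport η)
    (hηs : tsupport η ⊆ (lchart hπ c).source) (hθη : ∀ x, θ x * η x = η x) :
    Fr.Weak μ e (fun a => ext0 hπ c (fun x => θ x • A a x)) (ext0 hπ c (fun x => η x • v x))
      (ext0 hπ c (cutR hπ e A v h η)) := by
  intro φ hφ hφc
  have hfin : IsFiniteMeasureOnCompacts ν := isFiniteMeasureOnCompacts_lift hπ hν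
  have hηcont := hη.continuous hπ
  have hφcont : Continuous fun x => φ (π x) := hφ.continuous.comp hπ.continuous
  have hDφ : ∀ a, Continuous fun x => fderiv ℝ φ (π x) (e a) := fun a =>
    (((hφ.continuous_fderiv (by norm_num)).clm_apply continuous_const)).comp hπ.continuous
  have hDη : ∀ a, Continuous fun x => LD hπ η x (e a) := fun a =>
    (hη.LD_apply hπ (m := ⊤) le_top (e a)).continuous hπ
  have hDηc : ∀ a, HasCompactSupport fun x => LD hπ η x (e a) := fun a =>
    (hasCompactSupport_LD hπ hηc).comp_left (g := fun l : V →L[ℝ] ℝ => l (e a)) rfl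
  -- left side
  have hL : ∫ y, φ y • ext0 hπ c (cutR hπ e A v h η) y ∂μ
      = ∫ x, φ (π x) • cutR hπ e A v h η x ∂ν := by
    rw [integral_ext0 hπ hν (c := c) (g := fun x => φ (π x) • cutR hπ e A v h η x)
      ((tsupport_smul_subset_right (fun x => φ (π x)) _).trans
        ((tsupport_cutR hπ e A v h η).trans hηs))]
    refine integral_congr_ae (Eventually.of_forall fun y => ?_)
    simp only [ext0]
    split_ifs with hy
    · rw [pi_lsec_of_mem hπ hy]
    · rw [smul_zero]
  -- right side
  have hR : ∀ a, ∫ y, (fderiv ℝ φ y (e a)) • (ext0 hπ c (fun x => θ x • A a x) y)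
      (ext0 hπ c (fun x => η x • v x) y) ∂μ
      = ∫ x, (η x * fderiv ℝ φ (π x) (e a)) • A a x (v x) ∂ν := by
    intro a
    have hs : tsupport (fun x => (η x * fderiv ℝ φ (π x) (e a)) • A a x (v x))
        ⊆ (lchart hπ c).source :=
      ((tsupport_smul_subset_left (fun x => η x * fderiv ℝ φ (π x) (e a)) _).trans
        tsupport_mul_subset_left).trans hηs
    rw [integral_ext0 hπ hν hs]
    refine integral_congr_ae (Eventually.of_forall fun y => ?_)
    simp only [ext0]
    split_ifs with hy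
    · rw [pi_lsec_of_mem hπ hy]
      simp only [_root_.smul_apply, map_smul, smul_smul]
      congr 1
      linear_combination (fderiv ℝ φ y (e a)) * hθη (lsec hπ c y)
    · simp
  rw [hL]
  simp only [hR]
  -- the test function
  have hΦ : LSm hπ ⊤ (fun x => η x * φ (π x)) := hη.mul hπ (LSm.comp_pi hπ hφ)
  have h1 := hw _ hΦ hηc.mul_right
  have h2 : ∀ a x, LD hπ (fun x => η x * φ (π x)) x (e a)
      = LD hπ η x (e a) * φ (π x) + η x * fderiv ℝ φ (π x) (e a) := by
    intro a x
    have h3 := LD_smul_apply hπ (f := η) (g := fun x => φ (π x)) (hη.mono hπ le_top)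
      ((LSm.comp_pi hπ hφ).mono hπ le_top) x (e a)
    rw [LD_comp_pi] at h3
    exact h3
  have i1 : ∀ a, Integrable (fun x => (LD hπ η x (e a) * φ (π x)) • A a x (v x)) ν := fun a =>
    (hv.clm ((hA a).continuous hπ)).integrable_smul ((hDη a).mul hφcont) (hDηc a).mul_right
  have i2 : ∀ a, Integrable (fun x => (η x * fderiv ℝ φ (π x) (e a)) • A a x (v x)) ν := fun a =>
    (hv.clm ((hA a).continuous hπ)).integrable_smul (hηcont.mul (hDφ a)) hηc.mul_right
  have i3 : Integrable (fun x => (η x * φ (π x)) • h x) ν :=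
    hh.integrable_smul (hηcont.mul hφcont) hηc.mul_right
  simp only [h2, add_smul] at h1
  have h4 : ∀ a, ∫ x, (LD hπ η x (e a) * φ (π x)) • A a x (v x)
      + (η x * fderiv ℝ φ (π x) (e a)) • A a x (v x) ∂ν
      = ∫ x, (LD hπ η x (e a) * φ (π x)) • A a x (v x) ∂ν
        + ∫ x, (η x * fderiv ℝ φ (π x) (e a)) • A a x (v x) ∂ν := fun a =>
    integral_add (i1 a) (i2 a)
  simp only [h4, Finset.sum_add_distrib] at h1
  have h5 : ∫ x, φ (π x) • cutR hπ e A v h η x ∂ν
      = ∫ x, (η x * φ (π x)) • h x ∂ν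
        + ∑ a, ∫ x, (LD hπ η x (e a) * φ (π x)) • A a x (v x) ∂ν := by
    rw [← integral_finsetSum _ fun a _ => i1 a, ← integral_add i3 (integrable_finsetSum _ fun a _ => i1 a)]
    refine integral_congr_ae (Eventually.of_forall fun x => ?_)
    simp only [cutR, smul_add, smul_smul, Finset.smul_sum]
    rw [mul_comm (φ (π x))]
    congr 1
    exact Finset.sum_congr rfl fun a _ => by rw [mul_comm]
  rw [h5]
  have h6 := eq_sub_of_add_eq' h1
  rw [h6]
  abel


theorem fried_chart (hν : IsLift π μ ν) (e : ι → V) {A : κ → ι → X → U →L[ℝ] W}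
    (hA : ∀ j a, LSm hπ ⊤ (A j a)) {v : X → U} {h : κ → X → W} (hv : LocL2 ν v)
    (hh : ∀ j, LocL2 ν (h j)) (hw : ∀ j, WeakX hπ ν e (A j) v (h j)) {c : X} {η : X → ℝ}
    (hη : LSm hπ ⊤ η) (hηc : HasCompactSupport η) (hηs : tsupport η ⊆ (lchart hπ c).source) :
    ∃ K : Set X, IsCompact K ∧ ∃ s : ℕ → X → U, (∀ n, LSm hπ ⊤ (s n) ∧ tsupport (s n) ⊆ K) ∧
      Tendsto (fun n => eLpNorm (fun x => s n x - η x • v x) 2 ν) atTop (𝓝 0) ∧
      ∀ j, Tendsto (fun n => eLpNorm (fun x => opX hπ e (A j) (s n) x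
        - cutR hπ e (A j) v (h j) η x) 2 ν) atTop (𝓝 0) := by
  obtain ⟨θ, hθ, hθc, hθs, hθ0, hθ1, N, -, hKN, hN1⟩ :=
    exists_cutoff hπ hηc.isCompact (lchart hπ c).open_source hηs
  have hθη : ∀ x, θ x * η x = η x := by
    intro x
    by_cases hx : x ∈ tsupport η
    · rw [hN1 x (hKN hx), one_mul]
    · rw [image_eq_zero_of_notMem_tsupport hx, mul_zero]
  have hout : ∀ x ∉ (lchart hπ c).source, x ∉ tsupport θ := fun x hx h => hx (hθs h)
  have hηout : ∀ x ∉ (lchart hπ c).source, x ∉ tsupport η := fun x hx h => hx (hηs h)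
  set vV : V → U := ext0 hπ c (fun x => η x • v x) with hvV
  have mv : MemLp (fun x => η x • v x) 2 ν := hv.memLp_smul (hη.continuous hπ) hηc
  have mvV : MemLp vV 2 μ := memLp_ext0 hπ hν mv
  have hvVl := mvV.locallyIntegrable (μ := μ) (by norm_num)
  -- the sequence
  set ε : ℕ → ℝ := fun n => 1 / ((n : ℝ) + 1) with hε
  have hε0 : ∀ n, 0 < ε n := fun n => by positivity
  have hεt : Tendsto ε atTop (𝓝[>] 0) :=
    tendsto_nhdsWithin_iff.2 ⟨tendsto_one_div_add_atTop_nhds_zero_nat,
      Eventually.of_forall fun n => hε0 n⟩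
  set s : ℕ → X → U := fun n x => θ x • Fr.mol μ (ε n) vV (π x) with hs
  have hsm : ∀ n, LSm hπ ⊤ (s n) := fun n =>
    hθ.smul hπ (LSm.comp_pi hπ (Fr.mol_contDiff μ (hε0 n) hvVl))
  have hss : ∀ n, tsupport (s n) ⊆ tsupport θ := fun n => tsupport_smul_subset_left θ _
  refine ⟨tsupport θ, hθc, s, fun n => ⟨hsm n, hss n⟩, ?_, fun j => ?_⟩
  · have t := (Fr.mol_tendsto μ mvV).comp hεt
    refine tendsto_of_tendsto_of_tendsto_of_le_of_le tendsto_const_nhds t (fun _ => zero_le)
      fun n => ?_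
    have e1 : eLpNorm (fun x => s n x - η x • v x) 2 ν
        = eLpNorm (ext0 hπ c (fun x => s n x - η x • v x)) 2 μ := by
      refine (eLpNorm_ext0 hπ hν fun x hx => ?_).symm
      rw [image_eq_zero_of_notMem_tsupport (hηout x hx),
        image_eq_zero_of_notMem_tsupport (fun h => hout x hx (hss n h))]
      simp
    rw [e1]
    simp only [Function.comp_apply]
    refine eLpNorm_mono fun y => ?_
    simp only [ext0, Pi.sub_apply]
    split_ifs with hy
    · have e2 : s n (lsec hπ c y) - η (lsec hπ c y) • v (lsec hπ c y)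
          = θ (lsec hπ c y) • (Fr.mol μ (ε n) vV y - vV y) := by
        rw [smul_sub]
        simp only [hs, hvV]
        rw [pi_lsec_of_mem hπ hy, ext0_of_mem hπ hy, smul_smul, hθη]
      rw [e2, norm_smul, Real.norm_of_nonneg (hθ0 _)]
      exact mul_le_of_le_one_left (norm_nonneg _) (hθ1 _)
    · simp
  · -- the coefficients on the base
    set AV : ι → V → U →L[ℝ] W := fun a => ext0 hπ c (fun x => θ x • A j a x) with hAV
    have hθA : ∀ a, LSm hπ ⊤ (fun x => θ x • A j a x) := fun a => hθ.smul hπ (hA j a)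
    have hθAc : ∀ a, HasCompactSupport (fun x => θ x • A j a x) := fun a => hθc.smul_right
    have hθAs : ∀ a, tsupport (fun x => θ x • A j a x) ⊆ (lchart hπ c).source := fun a =>
      (tsupport_smul_subset_left θ _).trans hθs
    have hAVs : ∀ a, ContDiff ℝ 1 (AV a) := fun a =>
      (ext0_contDiff hπ (hθA a) (hθAc a) (hθAs a)).of_le (by norm_num)
    have hAVc : ∀ a, HasCompactSupport (AV a) := fun a => ext0_hasCompactSupport hπ (hθAc a)
    choose L hL using fun a => (hAVs a).lipschitzWith_of_hasCompactSupport (hAVc a) (by norm_num)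
    choose B hB using fun a => (hAVc a).exists_bound_of_continuous (hAVs a).continuous
    have hB' : ∀ a x, ‖AV a x‖ ≤ (B a).toNNReal := fun a x => (hB a x).trans (Real.le_coe_toNNReal _)
    have mg : MemLp (ext0 hπ c (cutR hπ e (A j) v (h j) η)) 2 μ :=
      memLp_ext0 hπ hν (memLp_cutR hπ e (hA j) hv (hh j) hη hηc)
    have t := (Fr.friedrichs μ hAVs hL hB' mvV mg
      (weak_chart hπ hν e (hA j) hv (hh j) (hw j) hη hηc hηs hθη)).comp hεt
    refine t.congr fun n => ?_
    simp only [Function.comp_apply]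
    have e1 : eLpNorm (fun x => opX hπ e (A j) (s n) x - cutR hπ e (A j) v (h j) η x) 2 ν
        = eLpNorm (ext0 hπ c (fun x => opX hπ e (A j) (s n) x
          - cutR hπ e (A j) v (h j) η x)) 2 μ := by
      refine (eLpNorm_ext0 hπ hν fun x hx => ?_).symm
      rw [cutR_eq_zero hπ e (A j) v (h j) (hηout x hx), sub_zero, opX]
      refine Finset.sum_eq_zero fun a _ => ?_
      rw [LD_eq_zero_of_notMem hπ (f := fun y => A j a y (s n y)) (x := x)]
      · rfl
      · intro hx'
        refine hout x hx (closure_minimal ?_ (isClosed_tsupport θ) hx')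
        intro y hy
        by_contra hcon
        exact hy (by
          simp only [image_eq_zero_of_notMem_tsupport (fun h => hcon (hss n h)), map_zero])
    rw [e1]
    congr 1
    funext y
    have e3 : ∀ a, (fun y => (AV a y) (Fr.mol μ (ε n) vV y))
        = ext0 hπ c (fun x => A j a x (s n x)) := by
      intro a
      funext y
      simp only [hAV, ext0]
      split_ifs with hy
      · simp only [hs, _root_.smul_apply, map_smul]
        rw [pi_lsec_of_mem hπ hy]
      · simp
    have e4 : ∀ a, HasCompactSupport (fun x => A j a x (s n x)) := fun a =>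
      HasCompactSupport.intro hθc fun x hx => by
        rw [image_eq_zero_of_notMem_tsupport (fun h => hx (hss n h)), map_zero]
    have e5 : ∀ a, tsupport (fun x => A j a x (s n x)) ⊆ (lchart hπ c).source := fun a =>
      (closure_minimal (fun x hx => by
        by_contra hcon
        exact hx (by
          simp only [image_eq_zero_of_notMem_tsupport (fun h => hcon (hss n h)), map_zero]))
        (isClosed_tsupport θ)).trans hθs
    have e6 : ∀ a, fderiv ℝ (fun y => (AV a y) (Fr.mol μ (ε n) vV y)) y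
        = ext0 hπ c (LD hπ (fun x => A j a x (s n x))) y := by
      intro a
      rw [e3, fderiv_ext0_eq hπ (e4 a) (e5 a)]
    simp only [e6]
    simp only [ext0]
    split_ifs with hy
    · rfl
    · simp

/-! ### Global statement -/

theorem fried_X (hν : IsLift π μ ν) (e : ι → V) {A : κ → ι → X → U →L[ℝ] W}
    (hA : ∀ j a, LSm hπ ⊤ (A j a)) {v : X → U} {h : κ → X → W} (hv : LocL2 ν v)
    (hh : ∀ j, LocL2 ν (h j)) (hw : ∀ j, WeakX hπ ν e (A j) v (h j)) {χ : X → ℝ}
    (hχ : LSm hπ ⊤ χ) (hχc : HasCompactSupport χ) :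
    ∃ K : Set X, IsCompact K ∧ tsupport χ ⊆ K ∧ ∃ s : ℕ → X → U,
      (∀ n, LSm hπ ⊤ (s n) ∧ tsupport (s n) ⊆ K) ∧
      Tendsto (fun n => eLpNorm (fun x => s n x - χ x • v x) 2 ν) atTop (𝓝 0) ∧
      ∀ j, Tendsto (fun n => eLpNorm (fun x => opX hπ e (A j) (s n) x
        - cutR hπ e (A j) v (h j) χ x) 2 ν) atTop (𝓝 0) := by
  obtain ⟨n, c, ψ, h1, h2, h3, -, -, h6⟩ := exists_decomp hπ (W := ℝ) hχc.isCompact
  set η : Fin n → X → ℝ := fun i x => ψ i x * χ x with hηd
  have hη : ∀ i, LSm hπ ⊤ (η i) := fun i => (h1 i).mul hπ hχ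
  have hηc : ∀ i, HasCompactSupport (η i) := fun i => (h2 i).mul_right
  have hηs : ∀ i, tsupport (η i) ⊆ (lchart hπ (c i)).source := fun i =>
    tsupport_mul_subset_left.trans (h3 i)
  have hsum : ∀ x, χ x = ∑ i, η i x := fun x => h6 χ subset_rfl x
  choose K hK s hs t1 t2 using fun i => fried_chart hπ hν e hA hv hh hw (hη i) (hηc i) (hηs i)
  refine ⟨tsupport χ ∪ ⋃ i, K i, hχc.isCompact.union (isCompact_iUnion hK), subset_union_left,
    fun m x => ∑ i, s i m x, fun m => ⟨LSm.sum hπ fun i _ => (hs i m).1, ?_⟩, ?_, fun j => ?_⟩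
  · refine closure_minimal ?_ (hχc.isCompact.union (isCompact_iUnion hK)).isClosed
    intro x hx
    by_contra hcon
    refine hx (Finset.sum_eq_zero fun i _ => image_eq_zero_of_notMem_tsupport fun h => hcon ?_)
    exact Or.inr (mem_iUnion.2 ⟨i, (hs i m).2 h⟩)
  · have t := tendsto_finsetSum Finset.univ (fun i _ => t1 i)
    simp only [Finset.sum_const_zero] at t
    refine tendsto_of_tendsto_of_tendsto_of_le_of_le tendsto_const_nhds t (fun _ => zero_le)
      fun m => ?_
    have e1 : (fun x => (∑ i, s i m x) - χ x • v x)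
        = ∑ i, (fun x => s i m x - η i x • v x) := by
      funext x
      rw [Finset.sum_apply, Finset.sum_sub_distrib, ← Finset.sum_smul, ← hsum]
    rw [e1]
    refine eLpNorm_sum_le (fun i _ => ?_) (by norm_num)
    exact ((hs i m).1.continuous hπ).aestronglyMeasurable.sub
      (hv.memLp_smul ((hη i).continuous hπ) (hηc i)).1
  · have t := tendsto_finsetSum Finset.univ (fun i _ => t2 i j)
    simp only [Finset.sum_const_zero] at t
    refine tendsto_of_tendsto_of_tendsto_of_le_of_le tendsto_const_nhds t (fun _ => zero_le)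
      fun m => ?_
    have hAs : ∀ i a, LSm hπ ⊤ (fun y => A j a y (s i m y)) := fun i a =>
      ((hA j a).bilin hπ (hs i m).1 (ContinuousLinearMap.id ℝ (U →L[ℝ] W)))
    have e1 : (fun x => opX hπ e (A j) (fun x => ∑ i, s i m x) x - cutR hπ e (A j) v (h j) χ x)
        = ∑ i, (fun x => opX hπ e (A j) (s i m) x - cutR hπ e (A j) v (h j) (η i) x) := by
      funext x
      rw [Finset.sum_apply, Finset.sum_sub_distrib]
      congr 1
      · simp only [opX, map_sum]
        rw [Finset.sum_comm]
        refine Finset.sum_congr rfl fun a _ => ?_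
        rw [LD_sum hπ (fun i _ => (hAs i a).mono hπ le_top)]
        simp
      · have e2 : LD hπ χ x = ∑ i, LD hπ (η i) x := by
          rw [← LD_sum hπ (fun i _ => (hη i).mono hπ le_top)]
          congr 1
          funext y
          exact hsum y
        simp only [cutR, e2, Finset.sum_add_distrib]
        rw [hsum x, Finset.sum_smul]
        congr 1
        rw [Finset.sum_comm]
        refine Finset.sum_congr rfl fun a _ => ?_
        rw [← Finset.sum_smul]
        congr 1
        simp
    rw [e1]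
    refine eLpNorm_sum_le (fun i _ => ?_) (by norm_num)
    refine AEStronglyMeasurable.sub ?_ (memLp_cutR hπ e (hA j) hv (hh j) (hη i) (hηc i)).1
    refine Continuous.aestronglyMeasurable ?_
    exact continuous_finsetSum _ fun a _ =>
      ((hAs i a).LD_apply hπ (m := ⊤) le_top (e a)).continuous hπ


/-! ### The version with integrals of squares -/

omit [TopologicalSpace X] [T2Space X] [SecondCountableTopology X] [BorelSpace X]
  [NormedSpace ℝ U] [CompleteSpace U] in
lemma integral_sq_eq {ρ : Measure X} {f : X → U} (hf : MemLp f 2 ρ) :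
    ∫ x, ‖f x‖ ^ 2 ∂ρ = (eLpNorm f 2 ρ).toReal ^ 2 := by
  have h := hf.eLpNorm_eq_integral_rpow_norm (by norm_num) (by norm_num)
  have h0 : 0 ≤ ∫ x, ‖f x‖ ^ (2 : ℝ≥0∞).toReal ∂ρ := integral_nonneg fun x => by positivity
  rw [h, ENNReal.toReal_ofReal (Real.rpow_nonneg h0 _), ← Real.rpow_natCast,
    ← Real.rpow_mul h0]
  simp

omit [TopologicalSpace X] [T2Space X] [SecondCountableTopology X] [BorelSpace X]
  [NormedSpace ℝ U] [CompleteSpace U] in
lemma tendsto_integral_sq {f : ℕ → X → U} (hm : ∀ n, AEStronglyMeasurable (f n) ν)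
    (t : Tendsto (fun n => eLpNorm (f n) 2 ν) atTop (𝓝 0)) (K : Set X) :
    Tendsto (fun n => ∫ x in K, ‖f n x‖ ^ 2 ∂ν) atTop (𝓝 0) := by
  have t' : Tendsto (fun n => (eLpNorm (f n) 2 ν).toReal ^ 2) atTop (𝓝 0) := by
    have h := ((ENNReal.tendsto_toReal (a := 0) (by norm_num)).comp t).pow 2
    simpa using h
  refine tendsto_of_tendsto_of_tendsto_of_le_of_le' tendsto_const_nhds t'
    (Eventually.of_forall fun n => integral_nonneg fun x => by positivity) ?_
  have hlt : ∀ᶠ n in atTop, eLpNorm (f n) 2 ν < ⊤ :=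
    (tendsto_order.1 t).2 ⊤ (by norm_num)
  filter_upwards [hlt] with n hn
  have m : MemLp (f n) 2 ν := ⟨hm n, hn⟩
  rw [integral_sq_eq (m.restrict K)]
  exact pow_le_pow_left₀ ENNReal.toReal_nonneg
    (ENNReal.toReal_mono hn.ne (eLpNorm_restrict_le (f n) 2 ν K)) 2

/-- Friedrichs' lemma on `X`, with integrals of squares over a compact set. -/
theorem fried_X_int (hν : IsLift π μ ν) (e : ι → V) {A : κ → ι → X → U →L[ℝ] W}
    (hA : ∀ j a, LSm hπ ⊤ (A j a)) {v : X → U} {h : κ → X → W}
    (hv : ∀ K : Set X, IsCompact K → MemLp v 2 (ν.restrict K))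
    (hh : ∀ j, ∀ K : Set X, IsCompact K → MemLp (h j) 2 (ν.restrict K))
    (hw : ∀ j, ∀ φ : X → ℝ, LSm hπ ⊤ φ → HasCompactSupport φ →
      ∑ a, ∫ x, (LD hπ φ x (e a)) • A j a x (v x) ∂ν = -∫ x, φ x • h j x ∂ν)
    {χ : X → ℝ} (hχ : LSm hπ ⊤ χ) (hχc : HasCompactSupport χ) :
    ∃ K : Set X, IsCompact K ∧ tsupport χ ⊆ K ∧ ∃ s : ℕ → X → U,
      (∀ n, LSm hπ ⊤ (s n) ∧ tsupport (s n) ⊆ K) ∧
      Tendsto (fun n => ∫ x in K, ‖s n x - χ x • v x‖ ^ 2 ∂ν) atTop (𝓝 0) ∧
      ∀ j, Tendsto (fun n => ∫ x in K, ‖(∑ a, LD hπ (fun y => A j a y (s n y)) x (e a))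
        - (χ x • h j x + ∑ a, LD hπ χ x (e a) • A j a x (v x))‖ ^ 2 ∂ν) atTop (𝓝 0) := by
  obtain ⟨K, hK, hχK, s, hs, t1, t2⟩ := fried_X hπ hν e hA hv hh hw hχ hχc
  refine ⟨K, hK, hχK, s, hs, ?_, fun j => ?_⟩
  · refine tendsto_integral_sq (fun n => ?_) t1 K
    exact ((hs n).1.continuous hπ).aestronglyMeasurable.sub
      (LocL2.memLp_smul hv (hχ.continuous hπ) hχc).1
  · refine tendsto_integral_sq (fun n => ?_) (t2 j) K
    refine AEStronglyMeasurable.sub ?_ (memLp_cutR hπ e (hA j) hv (hh j) hχ hχc).1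
    refine Continuous.aestronglyMeasurable ?_
    exact continuous_finsetSum _ fun a _ =>
      (((hA j a).bilin hπ (hs n).1 (ContinuousLinearMap.id ℝ (U →L[ℝ] W))).LD_apply hπ (m := ⊤)
        le_top (e a)).continuous hπ

end FX

end EH
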