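import Pool.Agent.Work.MP_9eee85_co.EH.XConnC

/-!
# Models of a function field (EH cell, MP_9eee85_co)

`Model n F` is an `XData n` together with generators `z_1..z_n, y` of `F` satisfying `P(z, y) = 0`.
`M.A = ℂ[z, y, 1/h]`; `M.ev x : M.A →ₐ[ℂ] ℂ` the value at the point `x` of `X`;
`M.pointEquiv : M.X ≃ (M.A →ₐ[ℂ] ℂ)`.
-/

open Topology Filter ContDiff

namespace EHX

/-- A model of a function field. -/
structure Model (n : ℕ) (F : Type*) [Field F] [Algebra ℂ F] extends XData n where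
  z : Fin n → F
  y : F
  hz : AlgebraicIndependent ℂ z
  hy : P.eval₂ (MvPolynomial.aeval z : MvPolynomial (Fin n) ℂ →ₐ[ℂ] F).toRingHom y = 0
  gen : IntermediateField.adjoin ℂ (Set.range z ∪ {y}) = ⊤

variable {n : ℕ} {F : Type*} [Field F] [Algebra ℂ F]

/-- Substitution of `z`, as a ring homomorphism. -/
noncomputable def subz (z : Fin n → F) : MvPolynomial (Fin n) ℂ →+* F :=
  (MvPolynomial.aeval z : MvPolynomial (Fin n) ℂ →ₐ[ℂ] F).toRingHom

theorem subz_inj {z : Fin n → F} (hz : AlgebraicIndependent ℂ z) : Function.Injective (subz z) := hz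

/-- A monic irreducible polynomial with root `y` divides every polynomial with root `y`. -/
theorem dvd_of_root {z : Fin n → F} (hz : AlgebraicIndependent ℂ z)
    {P : Polynomial (MvPolynomial (Fin n) ℂ)} (hm : P.Monic) (hi : Irreducible P) {y : F}
    (hy : P.eval₂ (subz z) y = 0) {Q : Polynomial (MvPolynomial (Fin n) ℂ)}
    (hQ : Q.eval₂ (subz z) y = 0) : P ∣ Q := by
  let _ : Algebra (MvPolynomial (Fin n) ℂ) F := (subz z).toAlgebra
  have _ : FaithfulSMul (MvPolynomial (Fin n) ℂ) F :=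
    (faithfulSMul_iff_algebraMap_injective _ _).mpr (subz_inj hz)
  have hint : IsIntegral (MvPolynomial (Fin n) ℂ) y := ⟨P, hm, hy⟩
  have h1 : minpoly (MvPolynomial (Fin n) ℂ) y ∣ P := minpoly.isIntegrallyClosed_dvd hint hy
  have h2 : minpoly (MvPolynomial (Fin n) ℂ) y ∣ Q := minpoly.isIntegrallyClosed_dvd hint hQ
  have h3 : Associated (minpoly (MvPolynomial (Fin n) ℂ) y) P := by
    rcases hi.dvd_iff.mp h1 with hu | hu
    · exact absurd hu (minpoly.not_isUnit _ _)
    · exact hu.symm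
  exact h3.dvd_iff_dvd_left.mp h2

namespace Model

variable (M : Model n F)

/-- `ℂ[z][Y] → F`. -/
noncomputable def evY : Polynomial (MvPolynomial (Fin n) ℂ) →+* F :=
  Polynomial.eval₂RingHom (subz M.z) M.y

/-- `ℂ[z][Y] → ℂ`, the value at a point. -/
noncomputable def evX (v : (Fin n → ℂ) × ℂ) : Polynomial (MvPolynomial (Fin n) ℂ) →+* ℂ :=
  Polynomial.eval₂RingHom (MvPolynomial.eval v.1) v.2

@[simp] theorem evX_C (v : (Fin n → ℂ) × ℂ) (p : MvPolynomial (Fin n) ℂ) :
    evX v (Polynomial.C p) = MvPolynomial.eval v.1 p := by simp [evX]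

@[simp] theorem evX_X (v : (Fin n → ℂ) × ℂ) : evX (n := n) v Polynomial.X = v.2 := by simp [evX]

@[simp] theorem evY_C (p : MvPolynomial (Fin n) ℂ) : M.evY (Polynomial.C p) = subz M.z p := by
  simp [evY]

@[simp] theorem evY_X : M.evY Polynomial.X = M.y := by simp [evY]

theorem evY_P : M.evY M.P = 0 := M.hy

theorem evX_P {v : (Fin n → ℂ) × ℂ} (hv : v ∈ M.XSet) : evX v M.P = 0 := by
  have := hv.2
  rw [XData.at_, Polynomial.eval_map] at this
  exact this

/-- `h` in `F`. -/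
noncomputable def hF : F := subz M.z M.h

theorem hF_ne : M.hF ≠ 0 := fun h0 => M.h0 (subz_inj M.hz (by rw [map_zero]; exact h0))

/-- `a = Q(z, y) / h(z)^k`. -/
def Rep (a : F) (Q : Polynomial (MvPolynomial (Fin n) ℂ)) (k : ℕ) : Prop :=
  a * M.hF ^ k = M.evY Q

variable {M}

theorem Rep.mul {a b : F} {Q R : Polynomial (MvPolynomial (Fin n) ℂ)} {k l : ℕ}
    (ha : M.Rep a Q k) (hb : M.Rep b R l) : M.Rep (a * b) (Q * R) (k + l) := by
  unfold Rep at *
  rw [map_mul, ← ha, ← hb]; ring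

theorem Rep.add {a b : F} {Q R : Polynomial (MvPolynomial (Fin n) ℂ)} {k l : ℕ}
    (ha : M.Rep a Q k) (hb : M.Rep b R l) :
    M.Rep (a + b) (Q * Polynomial.C M.h ^ l + R * Polynomial.C M.h ^ k) (k + l) := by
  unfold Rep at *
  rw [map_add, map_mul, map_mul, map_pow, map_pow, evY_C, ← ha, ← hb, hF]; ring

theorem Rep.const (c : ℂ) : M.Rep (algebraMap ℂ F c) (Polynomial.C (MvPolynomial.C c)) 0 := by
  unfold Rep
  rw [evY_C, pow_zero, mul_one, subz]
  exact ((MvPolynomial.aeval M.z : MvPolynomial (Fin n) ℂ →ₐ[ℂ] F).commutes c).symm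

theorem Rep.unique {a : F} {Q R : Polynomial (MvPolynomial (Fin n) ℂ)} {k l : ℕ}
    (ha : M.Rep a Q k) (hb : M.Rep a R l) {v : (Fin n → ℂ) × ℂ} (hv : v ∈ M.XSet) :
    evX v Q * MvPolynomial.eval v.1 M.h ^ l = evX v R * MvPolynomial.eval v.1 M.h ^ k := by
  have h1 : (Q * Polynomial.C M.h ^ l - R * Polynomial.C M.h ^ k).eval₂ (subz M.z) M.y = 0 := by
    show M.evY _ = 0
    unfold Rep at *
    rw [map_sub, map_mul, map_mul, map_pow, map_pow, evY_C, ← ha, ← hb, hF]; ring
  obtain ⟨S, hS⟩ := dvd_of_root M.hz M.monic M.irr M.hy h1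
  have h2 := congrArg (evX v) hS
  rw [map_mul, M.evX_P hv, zero_mul, map_sub, map_mul, map_mul, map_pow, map_pow, evX_C,
    sub_eq_zero] at h2
  exact h2

variable (M)

/-- The ring `ℂ[z, y, 1/h]`. -/
noncomputable def A : Subalgebra ℂ F where
  carrier := {a | ∃ (Q : Polynomial (MvPolynomial (Fin n) ℂ)) (k : ℕ), M.Rep a Q k}
  mul_mem' := by rintro a b ⟨Q, k, ha⟩ ⟨R, l, hb⟩; exact ⟨_, _, ha.mul hb⟩
  add_mem' := by rintro a b ⟨Q, k, ha⟩ ⟨R, l, hb⟩; exact ⟨_, _, ha.add hb⟩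
  algebraMap_mem' := fun c => ⟨_, _, Rep.const c⟩

theorem mem_A {a : F} : a ∈ M.A ↔ ∃ (Q : Polynomial (MvPolynomial (Fin n) ℂ)) (k : ℕ),
    M.Rep a Q k := Iff.rfl

theorem z_rep (i : Fin n) : M.Rep (M.z i) (Polynomial.C (MvPolynomial.X i)) 0 := by
  unfold Rep; rw [evY_C, pow_zero, mul_one, subz]; simp

theorem y_rep : M.Rep M.y Polynomial.X 0 := by
  unfold Rep; rw [evY_X, pow_zero, mul_one]

theorem subz_rep (p : MvPolynomial (Fin n) ℂ) : M.Rep (subz M.z p) (Polynomial.C p) 0 := by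
  unfold Rep; rw [evY_C, pow_zero, mul_one]

theorem hinv_rep : M.Rep (M.hF⁻¹) 1 1 := by
  unfold Rep; rw [map_one, pow_one, inv_mul_cancel₀ M.hF_ne]

theorem evY_rep (Q : Polynomial (MvPolynomial (Fin n) ℂ)) : M.Rep (M.evY Q) Q 0 := by
  unfold Rep; rw [pow_zero, mul_one]

theorem z_mem (i : Fin n) : M.z i ∈ M.A := ⟨_, _, M.z_rep i⟩
theorem y_mem : M.y ∈ M.A := ⟨_, _, M.y_rep⟩
theorem hinv_mem : M.hF⁻¹ ∈ M.A := ⟨_, _, M.hinv_rep⟩
theorem subz_mem (p : MvPolynomial (Fin n) ℂ) : subz M.z p ∈ M.A := ⟨_, _, M.subz_rep p⟩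
theorem hF_mem : M.hF ∈ M.A := M.subz_mem _

/-- The value of `a ∈ A` at a point of `ℂⁿ × ℂ`, through a chosen representation. -/
noncomputable def fn (a : M.A) (v : (Fin n → ℂ) × ℂ) : ℂ :=
  evX v a.2.choose / MvPolynomial.eval v.1 M.h ^ a.2.choose_spec.choose

theorem fn_spec (a : M.A) {Q : Polynomial (MvPolynomial (Fin n) ℂ)} {k : ℕ}
    (ha : M.Rep (a : F) Q k) {v : (Fin n → ℂ) × ℂ} (hv : v ∈ M.XSet) :
    M.fn a v * MvPolynomial.eval v.1 M.h ^ k = evX v Q := by
  have h0 : MvPolynomial.eval v.1 M.h ≠ 0 := hv.1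
  have h1 := Rep.unique ha a.2.choose_spec.choose_spec hv
  rw [fn, div_mul_eq_mul_div, div_eq_iff (pow_ne_zero _ h0), h1]

theorem fn_unique (a : M.A) {Q : Polynomial (MvPolynomial (Fin n) ℂ)} {k : ℕ}
    (ha : M.Rep (a : F) Q k) {v : (Fin n → ℂ) × ℂ} (hv : v ∈ M.XSet) {w : ℂ}
    (hw : w * MvPolynomial.eval v.1 M.h ^ k = evX v Q) : M.fn a v = w := by
  have h0 : MvPolynomial.eval v.1 M.h ≠ 0 := hv.1
  rw [← M.fn_spec a ha hv] at hw
  exact (mul_right_cancel₀ (pow_ne_zero _ h0) hw).symm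

/-- The value at a point of `X`, as an algebra homomorphism. -/
noncomputable def ev (x : M.X) : M.A →ₐ[ℂ] ℂ where
  toFun a := M.fn a x.1
  map_one' := M.fn_unique 1 (Q := 1) (k := 0) (by unfold Rep; simp) x.2 (by simp)
  map_zero' := M.fn_unique 0 (Q := 0) (k := 0) (by unfold Rep; simp) x.2 (by simp)
  map_mul' a b := by
    obtain ⟨Q, k, ha⟩ := a.2
    obtain ⟨R, l, hb⟩ := b.2
    refine M.fn_unique (a * b) (ha.mul hb) x.2 ?_
    rw [map_mul, ← M.fn_spec a ha x.2, ← M.fn_spec b hb x.2]; ring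
  map_add' a b := by
    obtain ⟨Q, k, ha⟩ := a.2
    obtain ⟨R, l, hb⟩ := b.2
    refine M.fn_unique (a + b) (ha.add hb) x.2 ?_
    rw [map_add, map_mul, map_mul, map_pow, map_pow, evX_C, ← M.fn_spec a ha x.2,
      ← M.fn_spec b hb x.2]; ring
  commutes' c := M.fn_unique (algebraMap ℂ M.A c) (Rep.const c) x.2 (by simp)

theorem ev_eq (x : M.X) (a : M.A) : M.ev x a = M.fn a x.1 := rfl

theorem ev_spec (x : M.X) (a : M.A) {Q : Polynomial (MvPolynomial (Fin n) ℂ)} {k : ℕ}
    (ha : M.Rep (a : F) Q k) :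
    M.ev x a * MvPolynomial.eval (M.proj x) M.h ^ k = evX x.1 Q := M.fn_spec a ha x.2

theorem ev_z (x : M.X) (i : Fin n) : M.ev x ⟨M.z i, M.z_mem i⟩ = M.proj x i := by
  have := M.ev_spec x ⟨M.z i, M.z_mem i⟩ (M.z_rep i)
  rw [pow_zero, mul_one, evX_C, MvPolynomial.eval_X] at this
  exact this

theorem ev_y (x : M.X) : M.ev x ⟨M.y, M.y_mem⟩ = M.yc x := by
  have := M.ev_spec x ⟨M.y, M.y_mem⟩ M.y_rep
  rw [pow_zero, mul_one, evX_X] at this
  exact this

theorem ev_subz (x : M.X) (p : MvPolynomial (Fin n) ℂ) :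
    M.ev x ⟨subz M.z p, M.subz_mem p⟩ = MvPolynomial.eval (M.proj x) p := by
  have := M.ev_spec x ⟨subz M.z p, M.subz_mem p⟩ (M.subz_rep p)
  rw [pow_zero, mul_one, evX_C] at this
  exact this

/-- The value function of `a ∈ A` is analytic on `U × ℂ`. -/
theorem contDiffAt_fn (a : M.A) {v : (Fin n → ℂ) × ℂ} (hv : v.1 ∈ M.U) :
    ContDiffAt ℂ ω (M.fn a) v := by
  have h1 : ∀ Q : Polynomial (MvPolynomial (Fin n) ℂ),
      ContDiff ℂ ω (fun v : (Fin n → ℂ) × ℂ => evX v Q) := by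
    intro Q
    have : (fun v : (Fin n → ℂ) × ℂ => evX v Q) = fun v => ∑ i ∈ Finset.range (Q.natDegree + 1),
        MvPolynomial.eval v.1 (Q.coeff i) * v.2 ^ i := by
      funext v
      simp only [evX, Polynomial.coe_eval₂RingHom]
      rw [Polynomial.eval₂_eq_sum_range]
    rw [this]
    apply ContDiff.sum
    intro i _
    exact ((XData.contDiff_evalMv _).comp contDiff_fst).mul (contDiff_snd.pow i)
  exact (h1 _).contDiffAt.div (((XData.contDiff_evalMv _).comp contDiff_fst).pow _).contDiffAt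
    (pow_ne_zero _ hv)

theorem continuous_ev (a : M.A) : Continuous fun x : M.X => M.ev x a := by
  rw [continuous_iff_continuousAt]
  intro x
  exact (M.contDiffAt_fn a x.2.1).continuousAt.comp (continuous_subtype_val.continuousAt)

/-- `evY` with values in `A`. -/
noncomputable def evYA : Polynomial (MvPolynomial (Fin n) ℂ) →+* M.A :=
  M.evY.codRestrict M.A fun Q => ⟨Q, 0, M.evY_rep Q⟩

theorem hom_evYA (φ : M.A →ₐ[ℂ] ℂ) (Q : Polynomial (MvPolynomial (Fin n) ℂ)) :
    φ (M.evYA Q) = evX (fun i => φ ⟨M.z i, M.z_mem i⟩, φ ⟨M.y, M.y_mem⟩) Q := by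
  have h1 : (φ : M.A →+* ℂ).comp M.evYA =
      evX (fun i => φ ⟨M.z i, M.z_mem i⟩, φ ⟨M.y, M.y_mem⟩) := by
    apply Polynomial.ringHom_ext'
    · apply MvPolynomial.ringHom_ext
      · intro c
        have e : M.evYA (Polynomial.C (MvPolynomial.C c)) = algebraMap ℂ M.A c := by
          apply Subtype.ext
          show M.evY _ = algebraMap ℂ F c
          rw [evY_C, subz]
          exact (MvPolynomial.aeval M.z : MvPolynomial (Fin n) ℂ →ₐ[ℂ] F).commutes c
        simp only [RingHom.comp_apply, e, evX_C, MvPolynomial.eval_C]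
        exact φ.commutes c
      · intro i
        have e : M.evYA (Polynomial.C (MvPolynomial.X i)) = ⟨M.z i, M.z_mem i⟩ := by
          apply Subtype.ext
          show M.evY _ = M.z i
          rw [evY_C, subz]; simp
        simp only [RingHom.comp_apply, e, evX_C, MvPolynomial.eval_X]
        rfl
    · have e : M.evYA Polynomial.X = ⟨M.y, M.y_mem⟩ := by
        apply Subtype.ext
        show M.evY _ = M.y
        rw [evY_X]
      simp only [RingHom.comp_apply, e, evX_X]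
      rfl
  exact congrArg (fun f : Polynomial (MvPolynomial (Fin n) ℂ) →+* ℂ => f Q) h1

theorem hom_hF (φ : M.A →ₐ[ℂ] ℂ) :
    φ ⟨M.hF, M.hF_mem⟩ = MvPolynomial.eval (fun i => φ ⟨M.z i, M.z_mem i⟩) M.h := by
  have e : M.evYA (Polynomial.C M.h) = ⟨M.hF, M.hF_mem⟩ := by
    apply Subtype.ext
    show M.evY _ = M.hF
    rw [evY_C, hF]
  rw [← e, hom_evYA, evX_C]

/-- The point of a homomorphism. -/
noncomputable def toPoint (φ : M.A →ₐ[ℂ] ℂ) : M.X :=
  ⟨(fun i => φ ⟨M.z i, M.z_mem i⟩, φ ⟨M.y, M.y_mem⟩), by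
    constructor
    · show MvPolynomial.eval (fun i => φ ⟨M.z i, M.z_mem i⟩) M.h ≠ 0
      rw [← hom_hF]
      intro h0
      have h1 : (⟨M.hF, M.hF_mem⟩ : M.A) * ⟨M.hF⁻¹, M.hinv_mem⟩ = 1 :=
        Subtype.ext (mul_inv_cancel₀ M.hF_ne)
      have h2 := congrArg φ h1
      rw [map_mul, h0, zero_mul, map_one] at h2
      exact zero_ne_one h2
    · have h1 := M.hom_evYA φ M.P
      have h2 : M.evYA M.P = 0 := Subtype.ext M.evY_P
      rw [h2, map_zero] at h1
      show (M.toXData.at_ _).eval _ = 0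
      rw [XData.at_, Polynomial.eval_map]
      exact h1.symm⟩

/-- The points of `X` are the algebra homomorphisms `A → ℂ`. -/
noncomputable def pointEquiv : M.X ≃ (M.A →ₐ[ℂ] ℂ) where
  toFun := M.ev
  invFun := M.toPoint
  left_inv x := by
    apply Subtype.ext
    apply Prod.ext
    · funext i; exact M.ev_z x i
    · exact M.ev_y x
  right_inv φ := by
    ext a
    obtain ⟨Q, k, ha⟩ := a.2
    refine M.fn_unique a ha (M.toPoint φ).2 ?_
    have h1 : a * ⟨M.hF, M.hF_mem⟩ ^ k = M.evYA Q := Subtype.ext ha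
    have h2 := congrArg φ h1
    rw [map_mul, map_pow, hom_hF, hom_evYA] at h2
    exact h2

@[simp] theorem pointEquiv_apply (x : M.X) : M.pointEquiv x = M.ev x := rfl

theorem evY_mem_adjoin (Q : Polynomial (MvPolynomial (Fin n) ℂ)) :
    M.evY Q ∈ Algebra.adjoin ℂ (Set.range M.z ∪ {M.y}) := by
  have hC : ∀ p : MvPolynomial (Fin n) ℂ,
      subz M.z p ∈ Algebra.adjoin ℂ (Set.range M.z ∪ {M.y}) := by
    intro p
    induction p using MvPolynomial.induction_on with
    | C a =>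
      have : subz M.z (MvPolynomial.C a) = algebraMap ℂ F a :=
        (MvPolynomial.aeval M.z : MvPolynomial (Fin n) ℂ →ₐ[ℂ] F).commutes a
      rw [this]; exact Subalgebra.algebraMap_mem _ _
    | add p q hp hq => rw [map_add]; exact add_mem hp hq
    | mul_X p i hp =>
      rw [map_mul]
      refine mul_mem hp ?_
      have : subz M.z (MvPolynomial.X i) = M.z i := by simp [subz]
      rw [this]
      exact Algebra.subset_adjoin (Or.inl ⟨i, rfl⟩)
  induction Q using Polynomial.induction_on' with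
  | add p q hp hq => rw [map_add]; exact add_mem hp hq
  | monomial k a =>
    rw [← Polynomial.C_mul_X_pow_eq_monomial, map_mul, map_pow, evY_C, evY_X]
    exact mul_mem (hC a) (pow_mem (show M.y ∈ Algebra.adjoin ℂ (Set.range M.z ∪ {M.y}) from
      Algebra.subset_adjoin (Or.inr rfl)) k)

theorem mem_adjoin_iff (a : F) : a ∈ Algebra.adjoin ℂ (Set.range M.z ∪ {M.y}) ↔
    ∃ Q, M.evY Q = a := by
  constructor
  · intro ha
    induction ha using Algebra.adjoin_induction with
    | mem x hx =>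
      rcases hx with ⟨i, rfl⟩ | hx
      · exact ⟨Polynomial.C (MvPolynomial.X i), by rw [evY_C]; simp [subz]⟩
      · exact ⟨Polynomial.X, by rw [evY_X]; exact hx.symm⟩
    | algebraMap r =>
      exact ⟨Polynomial.C (MvPolynomial.C r), by
        rw [evY_C]
        exact (MvPolynomial.aeval M.z : MvPolynomial (Fin n) ℂ →ₐ[ℂ] F).commutes r⟩
    | add x y _ _ hx hy =>
      obtain ⟨p, rfl⟩ := hx
      obtain ⟨q, rfl⟩ := hy
      exact ⟨p + q, map_add _ _ _⟩
    | mul x y _ _ hx hy =>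
      obtain ⟨p, rfl⟩ := hx
      obtain ⟨q, rfl⟩ := hy
      exact ⟨p * q, map_mul _ _ _⟩
  · rintro ⟨Q, rfl⟩; exact M.evY_mem_adjoin Q

theorem A_eq_adjoin : M.A = Algebra.adjoin ℂ (Set.range M.z ∪ {M.y, M.hF⁻¹}) := by
  apply le_antisymm
  · rintro a ⟨Q, k, ha⟩
    have h1 : a = M.evY Q * (M.hF⁻¹) ^ k := by
      unfold Rep at ha
      rw [← ha, mul_assoc, ← mul_pow, mul_inv_cancel₀ M.hF_ne, one_pow, mul_one]
    rw [h1]
    refine mul_mem ?_ (pow_mem (show M.hF⁻¹ ∈ Algebra.adjoin ℂ (Set.range M.z ∪ {M.y, M.hF⁻¹}) from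
      Algebra.subset_adjoin (Or.inr (Or.inr rfl))) k)
    refine Algebra.adjoin_mono ?_ (M.evY_mem_adjoin Q)
    rintro x (hx | hx)
    · exact Or.inl hx
    · exact Or.inr (Or.inl hx)
  · rw [Algebra.adjoin_le_iff]
    rintro x (⟨i, rfl⟩ | (rfl | rfl))
    · exact M.z_mem i
    · exact M.y_mem
    · exact M.hinv_mem

theorem A_fg : M.A.FG := by
  rw [Subalgebra.fg_def]
  exact ⟨_, (Set.finite_range M.z).union (Set.toFinite _), M.A_eq_adjoin.symm⟩

/-- For an integral (algebraic) element there is a multiple in `ℂ[z]`. -/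
theorem exists_mul_eq {z : Fin n → F} {b : F} (hb : b ≠ 0)
    (halg : @IsAlgebraic (MvPolynomial (Fin n) ℂ) F _ _ (subz z).toAlgebra b) :
    ∃ (c : Polynomial (MvPolynomial (Fin n) ℂ)) (q : MvPolynomial (Fin n) ℂ), q ≠ 0 ∧
      b * c.eval₂ (subz z) b = subz z q := by
  let _ : Algebra (MvPolynomial (Fin n) ℂ) F := (subz z).toAlgebra
  obtain ⟨t, ht, r, hr, htr⟩ :=
    halg.exists_nonzero_eq_adjoin_mul (mem_nonZeroDivisors_of_ne_zero hb)
  rw [Algebra.adjoin_singleton_eq_range_aeval] at ht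
  obtain ⟨c, rfl⟩ := ht
  exact ⟨c, r, hr, htr⟩

theorem evY_isIntegral (Q : Polynomial (MvPolynomial (Fin n) ℂ)) :
    @IsAlgebraic (MvPolynomial (Fin n) ℂ) F _ _ (subz M.z).toAlgebra (M.evY Q) := by
  let _ : Algebra (MvPolynomial (Fin n) ℂ) F := (subz M.z).toAlgebra
  have hint : IsIntegral (MvPolynomial (Fin n) ℂ) M.y := ⟨M.P, M.monic, M.hy⟩
  have h1 : M.evY Q ∈ Algebra.adjoin (MvPolynomial (Fin n) ℂ) {M.y} := by
    rw [Algebra.adjoin_singleton_eq_range_aeval]
    exact ⟨Q, rfl⟩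
  have h2 : IsIntegral (MvPolynomial (Fin n) ℂ) (M.evY Q) :=
    (Algebra.adjoin_le (S := integralClosure (MvPolynomial (Fin n) ℂ) F)
      (by rintro x rfl; exact hint)) h1
  exact h2.isAlgebraic

/-- The values of `evY Q` with `Q(z, y) ≠ 0` vanish only over a proper closed subset. -/
theorem exists_mul_evY {Q : Polynomial (MvPolynomial (Fin n) ℂ)} (hQ : M.evY Q ≠ 0) :
    ∃ (c : Polynomial (MvPolynomial (Fin n) ℂ)) (q : MvPolynomial (Fin n) ℂ), q ≠ 0 ∧
      M.evY Q * M.evY c = subz M.z q := by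
  obtain ⟨c, q, hq, h⟩ := exists_mul_eq hQ (M.evY_isIntegral Q)
  refine ⟨c.eval₂ Polynomial.C Q, q, hq, ?_⟩
  rw [← h, Polynomial.hom_eval₂]
  congr 2
  ext p <;> simp

/-- Zeros of a non-zero element of `A` lie over `{q = 0}`, `q ≠ 0`. -/
theorem exists_zero_bound {a : M.A} (ha : a ≠ 0) :
    ∃ q : MvPolynomial (Fin n) ℂ, q ≠ 0 ∧
      ∀ x : M.X, M.ev x a = 0 → MvPolynomial.eval (M.proj x) q = 0 := by
  obtain ⟨Q, k, hQ⟩ := a.2
  have ha' : (a : F) ≠ 0 := fun h => ha (Subtype.ext h)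
  have h1 : M.evY Q ≠ 0 := by
    unfold Rep at hQ
    rw [← hQ]
    exact mul_ne_zero ha' (pow_ne_zero _ M.hF_ne)
  obtain ⟨c, q, hq, h⟩ := M.exists_mul_evY h1
  refine ⟨q, hq, fun x hx => ?_⟩
  have h2 := M.ev_spec x a hQ
  rw [hx, zero_mul] at h2
  have h3 : M.evYA Q * M.evYA c = ⟨subz M.z q, M.subz_mem q⟩ := Subtype.ext h
  have h4 := congrArg (M.ev x) h3
  rw [ev_subz, map_mul] at h4
  have h5 : M.ev x (M.evYA Q) = evX x.1 Q := by
    have := M.ev_spec x (M.evYA Q) (M.evY_rep Q)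
    rwa [pow_zero, mul_one] at this
  rw [h5, ← h2, zero_mul] at h4
  exact h4.symm

/-- `f ∈ F` is `Q(z, y) / s(z)`. -/
theorem exists_repF (f : F) : ∃ (Q : Polynomial (MvPolynomial (Fin n) ℂ))
    (s : MvPolynomial (Fin n) ℂ), s ≠ 0 ∧ f * subz M.z s = M.evY Q := by
  have hf : f ∈ IntermediateField.adjoin ℂ (Set.range M.z ∪ {M.y}) := by rw [M.gen]; trivial
  obtain ⟨a, ha, b, hb, rfl⟩ := IntermediateField.mem_adjoin_iff_div.mp hf
  obtain ⟨Q, rfl⟩ := (M.mem_adjoin_iff a).mp ha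
  obtain ⟨R, rfl⟩ := (M.mem_adjoin_iff b).mp hb
  by_cases hR : M.evY R = 0
  · exact ⟨0, 1, one_ne_zero, by rw [hR]; simp⟩
  · obtain ⟨c, q, hq, h⟩ := M.exists_mul_evY hR
    refine ⟨Q * c, q, hq, ?_⟩
    rw [← h, map_mul]
    field_simp

theorem exists_quot (f : F) : ∃ a b : M.A, b ≠ 0 ∧ f = a / b := by
  obtain ⟨Q, s, hs, h⟩ := M.exists_repF f
  have hs' : subz M.z s ≠ 0 := fun h0 => hs (subz_inj M.hz (by rw [map_zero]; exact h0))
  refine ⟨M.evYA Q, ⟨subz M.z s, M.subz_mem s⟩, fun h0 => hs' (congrArg Subtype.val h0), ?_⟩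
  show f = M.evY Q / subz M.z s
  rw [eq_div_iff hs', h]

/-- Enlarging `h`. -/
noncomputable def enlarge (g : MvPolynomial (Fin n) ℂ) (hg : g ≠ 0) : Model n F :=
  { M with
    h := M.h * g
    h0 := mul_ne_zero M.h0 hg
    sep := fun z hz => M.sep z fun h0 => hz (by rw [map_mul, h0, zero_mul]) }

end Model

open Polynomial in
/-- Separability away from a hypersurface. -/
theorem exists_sep {z : Fin n → F} (hz : AlgebraicIndependent ℂ z)
    {P : Polynomial (MvPolynomial (Fin n) ℂ)} (hm : P.Monic) (hi : Irreducible P) {y : F}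
    (hy : P.eval₂ (subz z) y = 0) :
    ∃ h : MvPolynomial (Fin n) ℂ, h ≠ 0 ∧
      ∀ w : Fin n → ℂ, MvPolynomial.eval w h ≠ 0 → (P.map (MvPolynomial.eval w)).Separable := by
  have hdeg : P.natDegree ≠ 0 := by
    intro h0
    have := hm.natDegree_eq_zero.mp h0
    exact hi.not_isUnit (by rw [this]; exact isUnit_one)
  have hne : P.derivative.eval₂ (subz z) y ≠ 0 := by
    intro h0
    have hdvd := dvd_of_root hz hm hi hy h0
    have hd0 : P.derivative ≠ 0 := fun h => hdeg (Polynomial.derivative_eq_zero.mp h)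
    have h1 := Polynomial.natDegree_le_of_dvd hdvd hd0
    have h2 := Polynomial.natDegree_derivative_lt hdeg
    omega
  have halg : @IsAlgebraic (MvPolynomial (Fin n) ℂ) F _ _ (subz z).toAlgebra
      (P.derivative.eval₂ (subz z) y) := by
    let _ : Algebra (MvPolynomial (Fin n) ℂ) F := (subz z).toAlgebra
    have hint : IsIntegral (MvPolynomial (Fin n) ℂ) y := ⟨P, hm, hy⟩
    have h1 : P.derivative.eval₂ (subz z) y ∈ Algebra.adjoin (MvPolynomial (Fin n) ℂ) {y} := by
      rw [Algebra.adjoin_singleton_eq_range_aeval]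
      exact ⟨P.derivative, rfl⟩
    have h2 : IsIntegral (MvPolynomial (Fin n) ℂ) (P.derivative.eval₂ (subz z) y) :=
      (Algebra.adjoin_le (S := integralClosure (MvPolynomial (Fin n) ℂ) F)
        (by rintro x rfl; exact hint)) h1
    exact h2.isAlgebraic
  obtain ⟨c, q, hq, h⟩ := Model.exists_mul_eq hne halg
  have hroot : (P.derivative * c.eval₂ C P.derivative - C q).eval₂ (subz z) y = 0 := by
    have h3 : (c.eval₂ C P.derivative).eval₂ (subz z) y = c.eval₂ (subz z) (P.derivative.eval₂ (subz z) y) := by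
      show Polynomial.eval₂RingHom (subz z) y _ = c.eval₂ (subz z) (Polynomial.eval₂RingHom (subz z) y _)
      rw [Polynomial.hom_eval₂]
      congr 1
      ext p <;> simp
    rw [Polynomial.eval₂_sub, Polynomial.eval₂_mul, h3, h, Polynomial.eval₂_C, sub_self]
  obtain ⟨S, hS⟩ := dvd_of_root hz hm hi hy hroot
  refine ⟨q, hq, fun w hw => ?_⟩
  have h4 := congrArg (Polynomial.map (MvPolynomial.eval w)) hS
  rw [Polynomial.map_sub, Polynomial.map_mul, Polynomial.map_mul, Polynomial.map_C] at h4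
  refine ⟨-S.map (MvPolynomial.eval w) * C (MvPolynomial.eval w q)⁻¹,
    (c.eval₂ C P.derivative).map (MvPolynomial.eval w) * C (MvPolynomial.eval w q)⁻¹, ?_⟩
  rw [← Polynomial.derivative_map] at h4
  have h5 : C (MvPolynomial.eval w q) * C (MvPolynomial.eval w q)⁻¹ = (1 : ℂ[X]) := by
    rw [← C_mul, mul_inv_cancel₀ hw, C_1]
  linear_combination (C (MvPolynomial.eval w q)⁻¹) * h4 + h5

/-- Every element of a finite extension of `ℂ(z)` is algebraic over `ℂ[z]`. -/
theorem isAlgebraic_of_finite {z : Fin n → F} (hz : AlgebraicIndependent ℂ z)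
    [FiniteDimensional (IntermediateField.adjoin ℂ (Set.range z)) F] (b : F) :
    @IsAlgebraic (MvPolynomial (Fin n) ℂ) F _ _ (subz z).toAlgebra b := by
  let _ : Algebra (MvPolynomial (Fin n) ℂ) F := (subz z).toAlgebra
  set K := IntermediateField.adjoin ℂ (Set.range z) with hK
  have hmem : ∀ p : MvPolynomial (Fin n) ℂ, subz z p ∈ K := by
    intro p
    rw [hK, IntermediateField.mem_adjoin_range_iff]
    exact ⟨p, 1, by simp [subz]⟩
  let j : MvPolynomial (Fin n) ℂ →+* K := (subz z).codRestrict K hmem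
  let _ : Algebra (MvPolynomial (Fin n) ℂ) K := j.toAlgebra
  have _ : IsScalarTower (MvPolynomial (Fin n) ℂ) K F := IsScalarTower.of_algebraMap_eq fun p => rfl
  have _ : FaithfulSMul (MvPolynomial (Fin n) ℂ) K :=
    (faithfulSMul_iff_algebraMap_injective _ _).mpr fun p q hpq =>
      subz_inj hz (congrArg Subtype.val hpq)
  have _ : IsFractionRing (MvPolynomial (Fin n) ℂ) K := by
    refine .of_field _ _ fun x => ?_
    obtain ⟨r, s, h⟩ := (IntermediateField.mem_adjoin_range_iff ℂ z x.1).mp x.2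
    exact ⟨r, s, Subtype.ext h⟩
  have h1 : IsAlgebraic K b := Algebra.IsAlgebraic.isAlgebraic b
  exact (IsFractionRing.isAlgebraic_iff (MvPolynomial (Fin n) ℂ) K F).mpr h1

/-- Existence of models: any finite set of elements of `F` can be made regular. -/
theorem exists_model {z : Fin n → F} (hz : AlgebraicIndependent ℂ z)
    [FiniteDimensional (IntermediateField.adjoin ℂ (Set.range z)) F] (S : Finset F) :
    ∃ M : Model n F, M.z = z ∧ ∀ f ∈ S, f ∈ M.A := by
  classical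
  -- the first model
  obtain ⟨M₀, hM₀⟩ : ∃ M : Model n F, M.z = z := by
    let _ : Algebra (MvPolynomial (Fin n) ℂ) F := (subz z).toAlgebra
    have _ : FaithfulSMul (MvPolynomial (Fin n) ℂ) F :=
      (faithfulSMul_iff_algebraMap_injective _ _).mpr (subz_inj hz)
    have _ : CharZero F := charZero_of_injective_algebraMap (algebraMap ℂ F).injective
    have _ : CharZero (IntermediateField.adjoin ℂ (Set.range z)) :=
      charZero_of_injective_algebraMap
        (algebraMap ℂ (IntermediateField.adjoin ℂ (Set.range z))).injective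
    obtain ⟨α, hα⟩ := Field.exists_primitive_element (IntermediateField.adjoin ℂ (Set.range z)) F
    obtain ⟨r, hr, hint⟩ := (isAlgebraic_of_finite hz α).exists_integral_multiple
    have hr' : subz z r ≠ 0 := fun h0 => hr (subz_inj hz (by rw [map_zero]; exact h0))
    set y : F := subz z r * α with hy
    have hint' : IsIntegral (MvPolynomial (Fin n) ℂ) y := by
      have : r • α = y := rfl
      rw [← this]; exact hint
    have hroot : (minpoly (MvPolynomial (Fin n) ℂ) y).eval₂ (subz z) y = 0 := minpoly.aeval _ y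
    obtain ⟨h, h0, hsep⟩ := exists_sep hz (minpoly.monic hint') (minpoly.irreducible hint') hroot
    refine ⟨{ P := minpoly (MvPolynomial (Fin n) ℂ) y, h := h, monic := minpoly.monic hint',
              irr := minpoly.irreducible hint', h0 := h0, sep := hsep, z := z, y := y, hz := hz,
              hy := hroot, gen := ?_ }, rfl⟩
    have h1 : IntermediateField.adjoin ℂ (Set.range z ∪ {α}) = ⊤ := by
      rw [← IntermediateField.adjoin_adjoin_left, hα]
      rfl
    rw [eq_top_iff, ← h1, IntermediateField.adjoin_le_iff]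
    have hz' : ∀ p : MvPolynomial (Fin n) ℂ,
        subz z p ∈ IntermediateField.adjoin ℂ (Set.range z ∪ {y}) := by
      intro p
      have h2 : subz z p ∈ IntermediateField.adjoin ℂ (Set.range z) := by
        rw [IntermediateField.mem_adjoin_range_iff]
        exact ⟨p, 1, by simp [subz]⟩
      exact IntermediateField.adjoin.mono _ _ _ Set.subset_union_left h2
    rintro x (hx | hx)
    · exact IntermediateField.subset_adjoin _ _ (Or.inl hx)
    · have h3 : x = y / subz z r := by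
        rw [hx, hy]; field_simp
      rw [h3]
      exact div_mem (IntermediateField.subset_adjoin _ _ (Or.inr rfl)) (hz' r)
  subst hM₀
  choose Q s hs hrep using M₀.exists_repF
  have hprod : ∏ f ∈ S, s f ≠ 0 := Finset.prod_ne_zero_iff.mpr fun f _ => hs f
  refine ⟨M₀.enlarge (∏ f ∈ S, s f) hprod, rfl, fun f hf => ?_⟩
  refine ⟨Q f * Polynomial.C (M₀.h * ∏ g ∈ S.erase f, s g), 1, ?_⟩
  show f * (subz M₀.z (M₀.h * ∏ f ∈ S, s f)) ^ 1 = M₀.evY _
  rw [pow_one, map_mul M₀.evY, Model.evY_C, ← hrep f, ← Finset.mul_prod_erase S s hf]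
  simp only [map_mul]
  ring

end EHX
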