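import Pool.Agent.Work.MP_9eee85_co.EH.LCalc
import Pool.Agent.Work.MP_9eee85_co.EH.XModel
import Pool.Agent.Work.MP_9eee85_co.EH.Area
import Pool.Agent.Work.MP_9eee85_co.EH.AreaRho

/-!
# Regular functions on the model `X` in the calculus of `Defs.lean` (EH cell, MP_9eee85_co)
-/

set_option linter.unusedSectionVars false

noncomputable section

namespace EHX

open MeasureTheory Filter Topology Set EH
open scoped ContDiff ENNReal

variable {n : ℕ} {F : Type*} [Field F] [Algebra ℂ F]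

namespace XData

variable (D : XData n)

/-- The projection is a local homeomorphism. -/
theorem hπ : IsLocalHomeomorph D.proj := D.isLocalHomeomorph_proj

/-- The chosen section is the graph of a holomorphic function. -/
theorem lsec_eq (x : D.X) : ∃ ψ : (Fin n → ℂ) → ℂ, ContDiffAt ℂ ω ψ (D.proj x) ∧
    ψ (D.proj x) = D.yc x ∧ ∀ᶠ z in 𝓝 (D.proj x), (lsec D.hπ x z).1 = (z, ψ z) := by
  classical
  obtain ⟨ψ, hc, h0, h1, h2⟩ := D.exists_section x.2
  refine ⟨ψ, hc, h0, ?_⟩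
  have hx : (D.proj x, ψ (D.proj x)) = x.1 := Prod.ext rfl h0
  let s : (Fin n → ℂ) → D.X := fun z => if hz : (z, ψ z) ∈ D.XSet then ⟨(z, ψ z), hz⟩ else x
  have hs : ∀ z (hz : (z, ψ z) ∈ D.XSet), s z = ⟨(z, ψ z), hz⟩ := fun z hz => dif_pos hz
  have hsx : s (D.proj x) = x := by
    have : (D.proj x, ψ (D.proj x)) ∈ D.XSet := by rw [hx]; exact x.2
    rw [hs _ this]
    exact Subtype.ext hx
  have hcont : ContinuousAt s (D.proj x) := by
    rw [ContinuousAt, tendsto_subtype_rng, hsx, ← hx]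
    have h3 : Tendsto (fun z => (z, ψ z)) (𝓝 (D.proj x)) (𝓝 (D.proj x, ψ (D.proj x))) :=
      continuousAt_id.prodMk hc.continuousAt
    refine h3.congr' ?_
    filter_upwards [h2] with z hz
    rw [hs z hz]
  have hr : ∀ᶠ v in 𝓝 (D.proj x), D.proj (s v) = v := by
    filter_upwards [h2] with v hv
    rw [hs v hv]; rfl
  filter_upwards [lsec_unique D.hπ hcont hsx hr, h2] with z hz hz2
  rw [← hz, hs z hz2]

variable {W : Type*} [NormedAddCommGroup W] [NormedSpace ℂ W]

/-- A function `Φ(z, y)` restricted to `X`, in the section at `x`. -/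
theorem comp_lsec (x : D.X) : ∃ ψ : (Fin n → ℂ) → ℂ, ContDiffAt ℂ ω ψ (D.proj x) ∧
    (D.proj x, ψ (D.proj x)) = x.1 ∧ ∀ Φ : (Fin n → ℂ) × ℂ → W,
      (fun y : D.X => Φ y.1) ∘ lsec D.hπ x =ᶠ[𝓝 (D.proj x)] fun z => Φ (z, ψ z) := by
  obtain ⟨ψ, hc, h0, h1⟩ := D.lsec_eq x
  refine ⟨ψ, hc, Prod.ext rfl h0, fun Φ => ?_⟩
  filter_upwards [h1] with z hz
  rw [Function.comp_apply, hz]

theorem contDiffAt_comp_lsec {Φ : (Fin n → ℂ) × ℂ → W} {x : D.X} (h : ContDiffAt ℂ ω Φ x.1) :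
    ContDiffAt ℂ ω ((fun y : D.X => Φ y.1) ∘ lsec D.hπ x) (D.proj x) := by
  obtain ⟨ψ, hc, h0, h1⟩ := D.comp_lsec (W := W) x
  refine ContDiffAt.congr_of_eventuallyEq ?_ (h1 Φ)
  have h2 : ContDiffAt ℂ ω (fun z => (z, ψ z)) (D.proj x) := contDiffAt_id.prodMk hc
  exact ContDiffAt.comp (D.proj x) (by rw [h0]; exact h) h2

/-- Restrictions of holomorphic functions are smooth. -/
theorem lsm_restrict {Φ : (Fin n → ℂ) × ℂ → W} (h : ∀ x : D.X, ContDiffAt ℂ ω Φ x.1) (k : ℕ∞) :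
    LSm D.hπ k (fun y : D.X => Φ y.1) := by
  intro x
  exact ((D.contDiffAt_comp_lsec (h x)).restrict_scalars ℝ).of_le (by exact_mod_cast le_top)

/-- The derivative is complex linear. -/
theorem LD_restrict {Φ : (Fin n → ℂ) × ℂ → W} {x : D.X} (h : ContDiffAt ℂ ω Φ x.1) :
    LD D.hπ (fun y : D.X => Φ y.1) x =
      (fderiv ℂ ((fun y : D.X => Φ y.1) ∘ lsec D.hπ x) (D.proj x)).restrictScalars ℝ := by
  rw [LD]
  exact ((D.contDiffAt_comp_lsec h).differentiableAt (by simp)).fderiv_restrictScalars ℝ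

end XData

/-- The real determinant of a complex linear map is `|det|²`. -/
theorem det_restrictScalars_eq (L : (Fin n → ℂ) →L[ℂ] (Fin n → ℂ)) :
    (L.restrictScalars ℝ).det = ‖LinearMap.det (L : (Fin n → ℂ) →ₗ[ℂ] (Fin n → ℂ))‖ ^ 2 := by
  have h1 : (L.restrictScalars ℝ).det =
      LinearMap.det ((L : (Fin n → ℂ) →ₗ[ℂ] (Fin n → ℂ)).restrictScalars ℝ) := rfl
  rw [h1, LinearMap.det_restrictScalars, Algebra.norm_complex_apply, Complex.normSq_eq_norm_sq]

section

variable {V : Type*} [NormedAddCommGroup V] [NormedSpace ℝ V] [FiniteDimensional ℝ V]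
variable {X : Type*} [TopologicalSpace X] {π : X → V} (hπ : IsLocalHomeomorph π)

omit [FiniteDimensional ℝ V] in
/-- Smooth maps have a derivative through the local sections in the sense of `Area.lean`. -/
theorem hasSecDeriv_of_LSm {G : X → V} (hG : LSm hπ 1 G) : HasSecDeriv π G (LD hπ G) := by
  intro x
  refine ⟨lchart hπ x, mem_lchart hπ x, fun y _ => by rw [lchart_eq], ?_⟩
  intro z hz
  have h1 := hG.contDiffAt_of_mem hπ hz
  have h2 : LD hπ G ((lchart hπ x).symm z) = fderiv ℝ (G ∘ lsec hπ x) z := LD_of_mem hπ hz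
  rw [h2]
  exact h1.hasStrictFDerivAt (by norm_num)

theorem continuous_det_LD {G : X → V} (hG : LSm hπ 1 G) : Continuous fun x => (LD hπ G x).det := by
  have h1 : LSm hπ 0 (fun x => LD hπ G x) := hG.LD hπ (by norm_num)
  exact ContinuousLinearMap.continuous_det.comp (h1.continuous hπ)

end

namespace Model

variable (M : Model n F)

/-- The map `X → ℂⁿ` given by `n` regular functions. -/
def mp (f : Fin n → M.A) (x : M.X) : Fin n → ℂ := fun i => M.ev x (f i)

theorem lsm_ev (a : M.A) (k : ℕ∞) : LSm M.hπ k (fun x => M.ev x a) :=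
  M.lsm_restrict (Φ := M.fn a) (fun x => M.contDiffAt_fn a x.2.1) k

theorem contDiffAt_mp (f : Fin n → M.A) {v : (Fin n → ℂ) × ℂ} (hv : v.1 ∈ M.U) :
    ContDiffAt ℂ ω (fun v => fun i => M.fn (f i) v) v :=
  contDiffAt_pi.mpr fun i => M.contDiffAt_fn (f i) hv

theorem lsm_mp (f : Fin n → M.A) (k : ℕ∞) : LSm M.hπ k (M.mp f) :=
  M.lsm_restrict (Φ := fun v => fun i => M.fn (f i) v) (fun x => M.contDiffAt_mp f x.2.1) k

theorem det_mp_nonneg (f : Fin n → M.A) (x : M.X) : 0 ≤ (LD M.hπ (M.mp f) x).det := by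
  have h := M.LD_restrict (Φ := fun v => fun i => M.fn (f i) v) (M.contDiffAt_mp f x.2.1)
  have h2 : LD M.hπ (M.mp f) x = _ := h
  rw [h2, det_restrictScalars_eq]
  positivity

/-- **Mass = number of solutions**, as a lower integral. -/
theorem lintegral_mass (f : Fin n → M.A) {ν : Measure M.X} (hν : IsLift M.proj volume ν) {N : ℕ}
    (hN : ∀ᵐ w : Fin n → ℂ, (M.mp f ⁻¹' {w}).encard = N) :
    ∫⁻ x, ENNReal.ofReal ((LD M.hπ (M.mp f) x).det * rho (M.mp f x)) ∂ν = N := by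
  have hsm := M.lsm_mp f 1
  have h1 := area_const (ν := (volume : Measure (Fin n → ℂ))) (π := M.proj) (μ := ν) hν
    (hasSecDeriv_of_LSm M.hπ hsm) (hsm.continuous M.hπ).measurable
    (continuous_det_LD M.hπ hsm).measurable
    (g := fun w => ENNReal.ofReal (rho w)) (continuous_rho.measurable.ennreal_ofReal) hN
  rw [lintegral_rho, mul_one] at h1
  rw [← h1]
  apply lintegral_congr
  intro x
  rw [abs_of_nonneg (M.det_mp_nonneg f x), ENNReal.ofReal_mul (M.det_mp_nonneg f x)]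

/-- **Mass = number of solutions.** -/
theorem integral_mass (f : Fin n → M.A) {ν : Measure M.X} (hν : IsLift M.proj volume ν) {N : ℕ}
    (hN : ∀ᵐ w : Fin n → ℂ, (M.mp f ⁻¹' {w}).encard = N) :
    Integrable (fun x => (LD M.hπ (M.mp f) x).det * rho (M.mp f x)) ν ∧
      ∫ x, (LD M.hπ (M.mp f) x).det * rho (M.mp f x) ∂ν = N := by
  have h0 : ∀ x, 0 ≤ (LD M.hπ (M.mp f) x).det * rho (M.mp f x) :=
    fun x => mul_nonneg (M.det_mp_nonneg f x) (rho_nonneg _)
  have hsm := M.lsm_mp f 1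
  have hc : Continuous fun x => (LD M.hπ (M.mp f) x).det * rho (M.mp f x) :=
    (continuous_det_LD M.hπ hsm).mul (continuous_rho.comp (hsm.continuous M.hπ))
  have h1 := M.lintegral_mass f hν hN
  refine ⟨⟨hc.aestronglyMeasurable, ?_⟩, ?_⟩
  · rw [hasFiniteIntegral_iff_ofReal (Eventually.of_forall h0), h1]
    exact ENNReal.natCast_lt_top N
  · rw [integral_eq_lintegral_of_nonneg_ae (Eventually.of_forall h0) hc.aestronglyMeasurable, h1]
    simp

end Model

end EHX
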