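import Pool.Agent.Work.MP_9eee85_co.EH.E1
import Pool.Agent.Work.MP_9eee85_co.EH.Herm2
import Pool.Agent.Work.MP_9eee85_co.EH.Defs

/-!
# The top degree part of a product of ten covectors is a determinant (EH cell, MP_9eee85_co)
-/

noncomputable section

namespace EHX

open Finset EH

/-- The covector as a vector of `ℝ^10`. -/
def covv (l : Bs →L[ℝ] ℝ) : RV := WithLp.toLp 2 fun a => l (bv a)

lemma cov_eq_gen (l : Bs →L[ℝ] ℝ) : cov l = gen (covv l) := by
  rw [gen_apply, cov]; rfl

/-- The real basis of `Bs`. -/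
lemma bv_xi (j : Fin 5) : bv (xi j) = Pi.single j 1 := by
  have h1 : (xi j).val = 2 * j.val := rfl
  have h2 : (⟨(xi j).val / 2, by omega⟩ : Fin 5) = j := Fin.ext (by simp [h1])
  unfold bv
  rw [h2, if_pos (by rw [h1]; omega)]

lemma bv_yi (j : Fin 5) : bv (yi j) = Pi.single j Complex.I := by
  have h1 : (yi j).val = 2 * j.val + 1 := rfl
  have h2 : (⟨(yi j).val / 2, by omega⟩ : Fin 5) = j := Fin.ext (by simp only [h1]; omega)
  unfold bv
  rw [h2, if_neg (by rw [h1]; omega)]

lemma cv_bv (b : Fin 10) : cv (bv b) = EuclideanSpace.single b 1 := by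
  rcases fin10_cases b with ⟨j, rfl⟩ | ⟨j, rfl⟩
  · rw [bv_xi]
    ext a
    rcases fin10_cases a with ⟨k, rfl⟩ | ⟨k, rfl⟩
    · rw [cv_xi, PiLp.single_apply]
      by_cases h : k = j
      · subst h; simp
      · have : xi k ≠ xi j := fun h' => h (Fin.ext (by have := congrArg Fin.val h'; simp [xi] at this; omega))
        simp [h, this]
    · rw [cv_yi, PiLp.single_apply]
      have : yi k ≠ xi j := fun h' => by
        have := congrArg Fin.val h'; simp only [xi, yi] at this; omega
      by_cases h : k = j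
      · subst h; simp [this]
      · simp [h, this]
  · rw [bv_yi]
    ext a
    rcases fin10_cases a with ⟨k, rfl⟩ | ⟨k, rfl⟩
    · rw [cv_xi, PiLp.single_apply]
      have : xi k ≠ yi j := fun h' => by
        have := congrArg Fin.val h'; simp only [xi, yi] at this; omega
      by_cases h : k = j
      · subst h; simp [this]
      · simp [h, this]
    · rw [cv_yi, PiLp.single_apply]
      by_cases h : k = j
      · subst h; simp
      · have : yi k ≠ yi j := fun h' => h (Fin.ext (by have := congrArg Fin.val h'; simp [yi] at this; omega))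
        simp [h, this]

/-- `Re l ∧ Im l`. -/
def th2 (l : Bs →L[ℝ] ℂ) : E := cov (Complex.reCLM.comp l) * cov (Complex.imCLM.comp l)

/-- The covectors `Re l_0, Im l_0, …, Re l_4, Im l_4`. -/
def rows (l : Fin 5 → Bs →L[ℝ] ℂ) (a : Fin 10) : RV :=
  WithLp.toLp 2 fun b => cv (fun i => l i (bv b)) a

lemma rows_xi (l : Fin 5 → Bs →L[ℝ] ℂ) (j : Fin 5) :
    gen (rows l (xi j)) = cov (Complex.reCLM.comp (l j)) := by
  rw [cov_eq_gen]
  congr 1
  ext b
  show cv (fun i => l i (bv b)) (xi j) = _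
  rw [cv_xi]; rfl

lemma rows_yi (l : Fin 5 → Bs →L[ℝ] ℂ) (j : Fin 5) :
    gen (rows l (yi j)) = cov (Complex.imCLM.comp (l j)) := by
  rw [cov_eq_gen]
  congr 1
  ext b
  show cv (fun i => l i (bv b)) (yi j) = _
  rw [cv_yi]; rfl

lemma det_rows (l : Fin 5 → Bs →L[ℝ] ℂ) :
    (EuclideanSpace.basisFun (Fin 10) ℝ).toBasis.det (rows l) = (ContinuousLinearMap.pi l).det := by
  set L : Bs →ₗ[ℝ] Bs := ((ContinuousLinearMap.pi l : Bs →L[ℝ] Bs) : Bs →ₗ[ℝ] Bs) with hL
  have h1 : (ContinuousLinearMap.pi l).det = LinearMap.det L := rfl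
  have h2 := LinearMap.det_conj L cv
  rw [h1, ← h2, ← LinearMap.det_toMatrix (EuclideanSpace.basisFun (Fin 10) ℝ).toBasis,
    Module.Basis.det_apply, ← Matrix.det_transpose]
  congr 1
  ext a b
  rw [Matrix.transpose_apply, Module.Basis.toMatrix_apply, LinearMap.toMatrix_apply]
  have h3 : cv.symm ((EuclideanSpace.basisFun (Fin 10) ℝ).toBasis b) = bv b := by
    rw [LinearEquiv.symm_apply_eq, cv_bv, OrthonormalBasis.coe_toBasis,
      EuclideanSpace.basisFun_apply]
  simp only [LinearMap.comp_apply, LinearEquiv.coe_coe]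
  rw [h3]
  rfl

/-- **The top coefficient of `θ_0 ⋯ θ_4` is the real Jacobian.** -/
theorem top_prod_th2 (l : Fin 5 → Bs →L[ℝ] ℂ) :
    top (th2 (l 0) * th2 (l 1) * th2 (l 2) * th2 (l 3) * th2 (l 4)) =
      (ContinuousLinearMap.pi l).det := by
  rw [← det_rows, ← top_prod_gen]
  congr 1
  simp only [List.ofFn_succ, List.ofFn_zero, List.prod_cons, List.prod_nil, mul_one, th2,
    ← rows_xi, ← rows_yi]
  simp only [mul_assoc]
  rfl

end EHX
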