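import Pool.Agent.Work.MP_9eee85_co.EH.Geo
import Pool.Agent.Work.MP_9eee85_co.EH.XTop
import Pool.Agent.Work.MP_9eee85_co.EH.XAna

/-!
The area formula: the integral of `theta f_0 ⋯ theta f_4` is the number of points of the general
fibre (helper94).
-/

noncomputable section

namespace EH

open MeasureTheory Filter Topology Set EHPos
open scoped ContDiff

section pointwise

variable {X : Type} [TopologicalSpace X] {π : X → Bs} {hπ : IsLocalHomeomorph π}

/-- the derivative of a holomorphic function in terms of the complex gradient -/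
theorem Hol.LD_eq {f : X → ℂ} (hf : Hol hπ f) (x : X) (v : Bs) :
    LD hπ f x v = ∑ j, v j * LD hπ f x (bv (xi j)) := by
  have h1 : v = ∑ j, ((v j).re • (Pi.single j (1 : ℂ) : Bs) +
      (v j).im • (Pi.single j Complex.I : Bs)) := by
    funext k
    rw [Finset.sum_apply, Finset.sum_eq_single k]
    · apply Complex.ext
      · simp
      · simp
    · intro j _ hjk
      simp [Pi.single_eq_of_ne (Ne.symm hjk)]
    · intro h; exact absurd (Finset.mem_univ k) h
  conv_lhs => rw [h1]
  rw [map_sum]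
  apply Finset.sum_congr rfl
  intro j _
  have h2 := hf.cr x j
  rw [EHX.bv_xi, EHX.bv_yi] at h2
  rw [map_add, map_smul, map_smul, EHX.bv_xi, h2]
  simp only [Complex.real_smul]
  conv_rhs => rw [← Complex.re_add_im (v j)]
  ring

/-- `d(re f) d(im f)` through the conjugate gradient -/
theorem Hol.th2_eq {f : X → ℂ} (hf : Hol hπ f) (x : X) :
    EHX.th2 (LD hπ f x) = pair ic (cgrad hπ f x) := by
  have h3 : ∀ l : Bs →L[ℝ] ℝ, cov l =
      ic (fun j => (⟨l (Pi.single j 1), l (Pi.single j Complex.I)⟩ : ℂ)) := by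
    intro l
    rw [cov, sum_fin10, ic_eq]
    refine Finset.sum_congr rfl fun j _ => ?_
    rw [EHX.bv_xi, EHX.bv_yi]
  rw [EHX.th2, pair, h3, h3]
  congr 2
  · funext j
    have h2 := hf.cr x j
    rw [EHX.bv_xi, EHX.bv_yi] at h2
    apply Complex.ext
    · simp [cgrad, EHX.bv_xi]
    · simp [cgrad, EHX.bv_xi, h2]
  · funext j
    have h2 := hf.cr x j
    rw [EHX.bv_xi, EHX.bv_yi] at h2
    apply Complex.ext
    · simp [cgrad, EHX.bv_xi]
    · simp [cgrad, EHX.bv_xi, h2]

/-- the real Jacobian of five holomorphic functions -/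
theorem det_nonneg {f : Fin 5 → X → ℂ} (hf : ∀ i, Hol hπ (f i)) (x : X) :
    0 ≤ (ContinuousLinearMap.pi fun i => LD hπ (f i) x : Bs →L[ℝ] Bs).det := by
  let L : Bs →L[ℂ] Bs := LinearMap.toContinuousLinearMap
    (LinearMap.pi fun i => ∑ j, (LD hπ (f i) x (bv (xi j))) • (LinearMap.proj j : Bs →ₗ[ℂ] ℂ))
  have hL : (ContinuousLinearMap.pi fun i => LD hπ (f i) x : Bs →L[ℝ] Bs) =
      L.restrictScalars ℝ := by
    ext v i
    show LD hπ (f i) x v = (∑ j, (LD hπ (f i) x (bv (xi j))) • (LinearMap.proj j : Bs →ₗ[ℂ] ℂ)) v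
    rw [(hf i).LD_eq x v, LinearMap.sum_apply]
    apply Finset.sum_congr rfl
    intro j _
    simp [mul_comm]
  rw [hL, EHX.det_restrictScalars_eq]
  positivity

theorem top_theta {f : Fin 5 → X → ℂ} (hf : ∀ i, Hol hπ (f i)) (x : X) :
    top (prod5 fun i => theta hπ (f i) x) =
      (LD hπ (fun x i => f i x) x).det * EHX.rho (fun i => f i x) := by
  have h1 : LD hπ (fun x i => f i x) x = ContinuousLinearMap.pi fun i => LD hπ (f i) x := by
    rw [LD]
    have h2 : (fun x i => f i x) ∘ lsec hπ x = fun v i => (f i ∘ lsec hπ x) v := rfl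
    rw [h2, fderiv_pi fun i => ((hf i).sm x).differentiableAt (by simp)]
    rfl
  rw [h1, ← EHX.top_prod_th2]
  simp only [prod5, theta, (hf _).th2_eq]
  simp only [smul_mul_smul_comm, map_smul, smul_eq_mul]
  rw [EHX.rho, Fin.prod_univ_five, mul_comm]
  congr 1
  simp only [EHX.rho1, mul_inv]

end pointwise

variable {X : Type} [TopologicalSpace X] [T2Space X] [SecondCountableTopology X]
  [MeasurableSpace X] [BorelSpace X] {π : X → Bs} {hπ : IsLocalHomeomorph π} {ν : Measure X}

theorem integral_theta (hν : IsLift π volume ν) {f : Fin 5 → X → ℂ} (hf : ∀ i, Hol hπ (f i))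
    {N : ℕ} {Z : Set Bs} (hZ : volume Z = 0) (hN : ∀ w ∉ Z, {x : X | ∀ i, f i x = w i}.Finite ∧
      {x : X | ∀ i, f i x = w i}.ncard = N) :
    Integrable (fun x => top (prod5 fun i => theta hπ (f i) x)) ν ∧
    ∫ x, top (prod5 fun i => theta hπ (f i) x) ∂ν = N := by
  set F : X → Bs := fun x i => f i x with hF
  have hsm : LSm hπ 1 F := fun x => contDiffAt_pi.mpr fun i =>
    ((hf i).sm x).of_le (by exact_mod_cast le_top)
  have hfun : (fun x => top (prod5 fun i => theta hπ (f i) x)) =
      fun x => (LD hπ F x).det * EHX.rho (F x) := funext fun x => top_theta hf x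
  have hdet : ∀ x, 0 ≤ (LD hπ F x).det := by
    intro x
    have h1 : LD hπ F x = ContinuousLinearMap.pi fun i => LD hπ (f i) x := by
      rw [LD]
      have h2 : F ∘ lsec hπ x = fun v i => (f i ∘ lsec hπ x) v := rfl
      rw [h2, fderiv_pi fun i => ((hf i).sm x).differentiableAt (by simp)]
      rfl
    rw [h1]
    exact det_nonneg hf x
  have hN' : ∀ᵐ w : Bs, (F ⁻¹' {w}).encard = N := by
    have h1 : ∀ᵐ w : Bs, w ∉ Z := measure_eq_zero_iff_ae_notMem.mp hZ
    filter_upwards [h1] with w hw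
    have h2 : F ⁻¹' {w} = {x : X | ∀ i, f i x = w i} := by
      ext x
      exact ⟨fun h i => congrFun h i, fun h => funext h⟩
    obtain ⟨h3, h4⟩ := hN w hw
    rw [h2, ← h4, h3.cast_ncard_eq]
  have hl : ∫⁻ x, ENNReal.ofReal ((LD hπ F x).det * EHX.rho (F x)) ∂ν = N := by
    have h1 := EHX.area_const (ν := (volume : Measure Bs)) (π := π) (μ := ν) hν
      (EHX.hasSecDeriv_of_LSm hπ hsm) (hsm.continuous hπ).measurable
      (EHX.continuous_det_LD hπ hsm).measurable
      (g := fun w => ENNReal.ofReal (EHX.rho w))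
      (EHX.continuous_rho.measurable.ennreal_ofReal) hN'
    rw [EHX.lintegral_rho, mul_one] at h1
    rw [← h1]
    apply lintegral_congr
    intro x
    rw [abs_of_nonneg (hdet x), ENNReal.ofReal_mul (hdet x)]
  have h0 : ∀ x, 0 ≤ (LD hπ F x).det * EHX.rho (F x) :=
    fun x => mul_nonneg (hdet x) (EHX.rho_nonneg _)
  have hc : Continuous fun x => (LD hπ F x).det * EHX.rho (F x) :=
    (EHX.continuous_det_LD hπ hsm).mul (EHX.continuous_rho.comp (hsm.continuous hπ))
  rw [hfun]
  refine ⟨⟨hc.aestronglyMeasurable, ?_⟩, ?_⟩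
  · rw [hasFiniteIntegral_iff_ofReal (Eventually.of_forall h0), hl]
    exact ENNReal.natCast_lt_top N
  · rw [integral_eq_lintegral_of_nonneg_ae (Eventually.of_forall h0) hc.aestronglyMeasurable, hl]
    simp

end EH
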