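import Pool.Agent.Work.MP_9eee85_co.EH.GFrame
import Pool.Agent.Work.MP_9eee85_co.EH.ConstX
import Pool.Agent.Work.MP_9eee85_co.EH.LMeas
import Pool.Agent.Work.MP_9eee85_co.EH.LCalc

/-!
Functions with vanishing weak derivative.
-/

noncomputable section

namespace EH

open MeasureTheory Filter Topology Set EHPos
open scoped ContDiff ENNReal

variable {X : Type} [TopologicalSpace X] [T2Space X] [SecondCountableTopology X]
  [MeasurableSpace X] [BorelSpace X] {π : X → Bs} {hπ : IsLocalHomeomorph π} {ν : Measure X}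

/-- the gauge maps test forms to test forms -/
theorem Gauge.Gi_tst {w : X → E} (g : Gauge hπ w) {F : X → E} (hF : F ∈ Tst hπ) :
    (fun x => g.Gi x (F x)) ∈ Tst hπ := by
  refine ⟨g.sm_Gi hF.1, HasCompactSupport.intro (K := tsupport F) hF.2 fun x hx => ?_⟩
  rw [image_eq_zero_of_notMem_tsupport hx, map_zero]

theorem Gauge.G_tst {w : X → E} (g : Gauge hπ w) {F : X → E} (hF : F ∈ Tst hπ) :
    (fun x => g.G x (F x)) ∈ Tst hπ := by
  refine ⟨g.sm_G hF.1, HasCompactSupport.intro (K := tsupport F) hF.2 fun x hx => ?_⟩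
  rw [image_eq_zero_of_notMem_tsupport hx, map_zero]

theorem Gauge.continuous_det {w : X → E} (g : Gauge hπ w) : Continuous g.det :=
  g.sm_det.continuous

/-- integrals against the measure of the gauge -/
theorem Gauge.integral_mu {w : X → E} (g : Gauge hπ w) {G : Type*} [NormedAddCommGroup G]
    [NormedSpace ℝ G] (f : X → G) :
    ∫ x, f x ∂(g.mu ν) = ∫ x, g.det x • f x ∂ν := by
  rw [Gauge.mu]
  have h1 : (fun x => ENNReal.ofReal (g.det x)) = fun x => ((g.det x).toNNReal : ℝ≥0∞) := rfl
  rw [h1, integral_withDensity_eq_integral_smul g.continuous_det.measurable.real_toNNReal]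
  refine integral_congr_ae (Eventually.of_forall fun x => ?_)
  simp only [NNReal.smul_def]
  rw [Real.coe_toNNReal _ (g.det_pos x).le]

theorem Gauge.top_Gi {w : X → E} (g : Gauge hπ w) (x : X) (a : E) :
    g.det x * top (g.Gi x a) = top a := by
  rw [← g.top_G, g.G_Gi]

/-- the measure of the gauge and the lifted measure have the same null sets -/
theorem Gauge.ac_mu {w : X → E} (g : Gauge hπ w) : ν ≪ g.mu ν := by
  refine withDensity_absolutelyContinuous' g.continuous_det.measurable.ennreal_ofReal.aemeasurable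
    (Eventually.of_forall fun x => ?_)
  have := g.det_pos x
  simp [this]

omit [T2Space X] [SecondCountableTopology X] [BorelSpace X] in
theorem Gauge.mu_ac {w : X → E} (g : Gauge hπ w) : g.mu ν ≪ ν :=
  withDensity_absolutelyContinuous _ _

/-- on a compact set the lifted measure is at most a multiple of the measure of the gauge -/
theorem Gauge.restrict_le {w : X → E} (g : Gauge hπ w) {K : Set X} (hK : IsCompact K) :
    ∃ C : ℝ≥0∞, C ≠ ⊤ ∧ ν.restrict K ≤ C • (g.mu ν).restrict K := by
  rcases K.eq_empty_or_nonempty with rfl | hne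
  · exact ⟨1, by simp, by simp⟩
  obtain ⟨x0, -, hmin⟩ := hK.exists_isMinOn hne g.continuous_det.continuousOn
  have h0 := g.det_pos x0
  refine ⟨(ENNReal.ofReal (g.det x0))⁻¹, ?_, ?_⟩
  · rw [Ne, ENNReal.inv_eq_top]
    simpa using h0
  · rw [Measure.le_iff]
    intro s hs
    rw [Measure.smul_apply, smul_eq_mul, Measure.restrict_apply hs, Measure.restrict_apply hs,
      Gauge.mu, withDensity_apply _ (hs.inter hK.measurableSet)]
    have h1 : ENNReal.ofReal (g.det x0) * ν (s ∩ K) ≤
        ∫⁻ x in s ∩ K, ENNReal.ofReal (g.det x) ∂ν := by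
      rw [← setLIntegral_const]
      refine setLIntegral_mono' (hs.inter hK.measurableSet) fun x hx => ?_
      exact ENNReal.ofReal_le_ofReal (hmin hx.2)
    calc ν (s ∩ K) = (ENNReal.ofReal (g.det x0))⁻¹ * (ENNReal.ofReal (g.det x0) * ν (s ∩ K)) := by
          rw [← mul_assoc, ENNReal.inv_mul_cancel (by simpa using h0) ENNReal.ofReal_ne_top,
            one_mul]
      _ ≤ _ := by gcongr

omit [T2Space X] [SecondCountableTopology X] [MeasurableSpace X] [BorelSpace X] in
/-- compact neighbourhoods -/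
theorem exists_compact_nhds (hπ : IsLocalHomeomorph π) (x : X) :
    ∃ K : Set X, IsCompact K ∧ K ∈ 𝓝 x := by
  obtain ⟨φ, hx, hφ⟩ := hπ x
  obtain ⟨r, hr, hrs⟩ := Metric.nhds_basis_closedBall.mem_iff.1
    (φ.open_target.mem_nhds (φ.map_source hx))
  refine ⟨φ.symm '' Metric.closedBall (φ x) r, ?_, ?_⟩
  · exact (isCompact_closedBall _ _).image_of_continuousOn (φ.continuousOn_symm.mono hrs)
  · have h1 : φ.source ∩ φ ⁻¹' Metric.ball (φ x) r ∈ 𝓝 x :=
      inter_mem (φ.open_source.mem_nhds hx)
        (φ.continuousAt hx (Metric.ball_mem_nhds _ hr))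
    refine mem_of_superset h1 ?_
    rintro y ⟨hy, hyb⟩
    exact ⟨φ y, Metric.ball_subset_closedBall hyb, φ.left_inv hy⟩

/-- square integrable functions with vanishing weak derivative are constant -/
theorem Gauge.const [PreconnectedSpace X] (hν : IsLift π volume ν) {w : X → E}
    (g : Gauge hπ w) (c : X → ℝ) (hc : MemLp c 2 (g.mu ν))
    (h : ∀ α ∈ Tst hπ, ∫ x, c x * top (g.dG α x) ∂(g.mu ν) = 0) :
    ∃ c₀ : ℝ, c =ᵐ[g.mu ν] fun _ => c₀ := by
  have hlf : IsLocallyFiniteMeasure ν := hν.isLocallyFiniteMeasure hπ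
  -- local integrability
  have hci : LocallyIntegrable c ν := by
    intro x
    obtain ⟨K, hK, hKx⟩ := exists_compact_nhds hπ x
    refine ⟨K, hKx, ?_⟩
    obtain ⟨C, hC, hle⟩ := g.restrict_le (ν := ν) hK
    have h1 : MemLp c 2 (C • (g.mu ν).restrict K) := (hc.restrict K).smul_measure hC
    have h2 : MemLp c 2 (ν.restrict K) := h1.mono_measure hle
    have h3 : IsFiniteMeasure (ν.restrict K) := ⟨by
      rw [Measure.restrict_apply_univ]
      exact hK.measure_lt_top⟩
    exact h2.integrable (by norm_num)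
  obtain ⟨c₀, hc₀⟩ := const_of_weak hπ hν hci (fun F hF => by
    have h1 := h _ (g.Gi_tst hF)
    rw [g.integral_mu] at h1
    rw [← h1]
    refine integral_congr_ae (Eventually.of_forall fun x => ?_)
    simp only [Gauge.dG, smul_eq_mul]
    have h2 : (fun y => g.G y (g.Gi y (F y))) = F := by
      funext y
      exact g.G_Gi y (F y)
    rw [h2]
    have h3 := g.top_Gi x (dX hπ F x)
    rw [← h3]
    ring)
  exact ⟨c₀, g.mu_ac hc₀⟩

end EH
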