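import Pool.Agent.Work.MP_9eee85_co.EH.GCore
import Pool.Agent.Work.MP_9eee85_co.EH.GConst
import Pool.Agent.Work.MP_9eee85_co.EH.DX
import Pool.Agent.Work.MP_9eee85_co.EH.JStar
import Pool.Agent.Work.MP_9eee85_co.EH.LPart

/-!
The Hodge calculus of a complete Kaehler form of finite volume.
-/

set_option linter.unusedSectionVars false

noncomputable section

namespace EH

open MeasureTheory Filter Topology Set EHPos
open scoped ContDiff

section tst

variable {X : Type*} [TopologicalSpace X] {π : X → Bs} (hπ : IsLocalHomeomorph π)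

/-- The test forms as a submodule. -/
def TstS : Submodule ℝ (X → E) where
  carrier := Tst hπ
  add_mem' hF hG := ⟨hF.1.add hπ hG.1, hF.2.add hG.2⟩
  zero_mem' := ⟨LSm.const hπ ⊤ 0, HasCompactSupport.zero⟩
  smul_mem' c F hF := ⟨hF.1.clm hπ (c • ContinuousLinearMap.id ℝ E), by
    refine hF.2.mono' ?_
    intro x hx
    apply subset_tsupport
    intro h0
    apply hx
    simp [h0]⟩

lemma mem_TstS {F : X → E} : F ∈ TstS hπ ↔ F ∈ Tst hπ := Iff.rfl

/-- A smooth function vanishing where a test form vanishes is a test form. -/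
lemma Tst.of_zero {F G : X → E} (hF : F ∈ Tst hπ) (hG : LSm hπ ⊤ G)
    (h : ∀ x, F x = 0 → G x = 0) : G ∈ Tst hπ := by
  refine ⟨hG, hF.2.mono' ?_⟩
  intro x hx
  apply subset_tsupport
  intro h0
  exact hx (h x h0)

lemma Tst_op (T : E →ₗ[ℝ] E) {F : X → E} (hF : F ∈ Tst hπ) : (fun x => T (F x)) ∈ Tst hπ :=
  Tst.of_zero hπ hF (hF.1.linear hπ T) fun x h => by simp only [h, map_zero]

lemma Tst_dX {F : X → E} (hF : F ∈ Tst hπ) : dX hπ F ∈ Tst hπ :=
  ⟨hF.1.dX hπ le_top, hF.2.of_isClosed_subset (isClosed_tsupport _) (tsupport_dX_subset hπ F)⟩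

lemma Tst.sm1 {F : X → E} (hF : F ∈ Tst hπ) : LSm hπ 1 F := hF.1.mono hπ le_top

lemma Tst.sm2 {F : X → E} (hF : F ∈ Tst hπ) : LSm hπ 2 F := hF.1.mono hπ le_top

lemma Jinv_mul (a b : E) : Jinv (a * b) = Jinv a * Jinv b := by
  have h : ∀ c : E, Jinv c = J (J (J c)) := fun _ => rfl
  rw [h, h, h, J_mul, J_mul, J_mul]

lemma Jinv_mem {k : ℕ} {α : E} (h : α ∈ Deg k) : Jinv α ∈ Deg k := J_mem (J_mem (J_mem h))

/-- Stokes for test forms. -/
theorem integral_top_dX [T2Space X] [MeasurableSpace X] [BorelSpace X] {ν : Measure X}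
    (hν : IsLift π volume ν) {F : X → E} (hF : F ∈ Tst hπ) : ∫ x, top (dX hπ F x) ∂ν = 0 := by
  have h1 : ∀ a : Fin 10, (fun x => e a * F x) ∈ Tst hπ := fun a =>
    Tst.of_zero hπ hF (hF.1.const_mulE hπ (e a)) fun x h => by simp only [h, mul_zero]
  have h2 : ∀ x, top (dX hπ F x) =
      ∑ a : Fin 10, LD hπ (fun y => top (e a * F y)) x (bv a) := by
    intro x
    rw [dX, map_sum]
    refine Finset.sum_congr rfl fun a _ => ?_
    rw [LD_linear_apply hπ (Tst.sm1 hπ (h1 a)) top x (bv a), LD_const_mulE hπ (e a) (Tst.sm1 hπ hF)]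
  have h3 : ∀ a : Fin 10, LSm hπ ⊤ (fun y => top (e a * F y)) := fun a =>
    (h1 a).1.linear hπ top
  have h4 : ∀ a : Fin 10, HasCompactSupport (fun y => top (e a * F y)) := by
    intro a
    refine (h1 a).2.mono' ?_
    intro x hx
    apply subset_tsupport
    intro h0
    apply hx
    simp only [h0, map_zero]
  have hfin : IsFiniteMeasureOnCompacts ν := isFiniteMeasureOnCompacts_lift hπ hν
  simp only [h2]
  rw [integral_finsetSum]
  · refine Finset.sum_eq_zero fun a _ => ?_
    exact integral_LD_eq_zero hπ hν ((h3 a).mono hπ le_top) (h4 a) (bv a)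
  · intro a _
    have hc : Continuous fun x => LD hπ (fun y => top (e a * F y)) x (bv a) :=
      ((h3 a).LD_apply hπ (m := ⊤) le_top (bv a)).continuous hπ
    refine integrable_of_compact hπ hν hc ((h4 a).mono' ?_)
    intro x hx
    apply tsupport_LD_subset hπ
    apply subset_tsupport
    intro h0
    apply hx
    simp [h0]

end tst

variable {X : Type} [TopologicalSpace X] [T2Space X] [SecondCountableTopology X]
  [MeasurableSpace X] [BorelSpace X] {π : X → Bs} {hπ : IsLocalHomeomorph π} {ν : Measure X}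

namespace Gauge

variable {w : X → E} (g : Gauge hπ w)

lemma Tst_G {F : X → E} (hF : F ∈ Tst hπ) : (fun x => g.G x (F x)) ∈ Tst hπ :=
  Tst.of_zero hπ hF (g.sm_G hF.1) fun x h => by simp only [h, map_zero]

lemma Tst_Gi {F : X → E} (hF : F ∈ Tst hπ) : (fun x => g.Gi x (F x)) ∈ Tst hπ :=
  Tst.of_zero hπ hF (g.sm_Gi hF.1) fun x h => by simp only [h, map_zero]

lemma Tst_dG {F : X → E} (hF : F ∈ Tst hπ) : g.dG F ∈ Tst hπ :=
  g.Tst_Gi (Tst_dX hπ (g.Tst_G hF))

lemma G_dG (F : X → E) : (fun x => g.G x (g.dG F x)) = dX hπ (fun y => g.G y (F y)) := by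
  funext x
  exact g.G_Gi x _

lemma G_Gi_fun (F : X → E) : (fun x => g.G x (g.Gi x (F x))) = F := by
  funext x; exact g.G_Gi x _

lemma dG_add {F G : X → E} (hF : F ∈ Tst hπ) (hG : G ∈ Tst hπ) :
    g.dG (F + G) = g.dG F + g.dG G := by
  have h1 : (fun y => g.G y ((F + G) y)) = fun y => g.G y (F y) + g.G y (G y) := by
    funext y; exact map_add _ _ _
  funext x
  have h2 := dX_add hπ (Tst.sm1 hπ (g.Tst_G hF)) (Tst.sm1 hπ (g.Tst_G hG)) x
  rw [dG, h1, h2, map_add]
  rfl

lemma dG_smul (c : ℝ) {F : X → E} (hF : F ∈ Tst hπ) : g.dG (c • F) = c • g.dG F := by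
  have h1 : (fun y => g.G y ((c • F) y)) = fun y => c • g.G y (F y) := by
    funext y; exact map_smul (g.G y) c (F y)
  funext x
  have h2 := dX_const_smul hπ c (Tst.sm1 hπ (g.Tst_G hF)) x
  rw [dG, h1, h2, map_smul]
  rfl

lemma dG_deg {k : ℕ} {F : X → E} (hF : F ∈ Tst hπ) (hk : IsDeg k F) : IsDeg (k + 1) (g.dG F) :=
  fun x => g.Gi_deg (dX_mem_Deg hπ (Tst.sm1 hπ (g.Tst_G hF)) (fun y => g.G_deg (hk y) y) x) x

lemma dG_dG {F : X → E} (hF : F ∈ Tst hπ) : g.dG (g.dG F) = 0 := by
  funext x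
  rw [dG, g.G_dG, dX_dX hπ (Tst.sm2 hπ (g.Tst_G hF)), map_zero]
  rfl

lemma dG_L (hw : LSm hπ ⊤ w) (hc : ∀ x, dX hπ w x = 0) {F : X → E} (hF : F ∈ Tst hπ) :
    g.dG (fun x => Lop (F x)) = fun x => Lop (g.dG F x) := by
  have h1 : (fun y => g.G y (Lop (F y))) = fun y => w y * g.G y (F y) := by
    funext y
    rw [show Lop (F y) = om * F y from rfl, g.G_mul, g.map_om]
  have hw2 : IsDeg 2 w := by
    intro y
    rw [← g.map_om y]
    exact g.G_deg om_mem_Deg y
  funext x
  have h2 := dX_mul hπ (hw.mono hπ le_top) (Tst.sm1 hπ (g.Tst_G hF)) hw2 x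
  rw [dG, h1, h2, hc x, zero_mul, zero_add]
  norm_num
  rw [g.Gi_mul, g.Gi_w]
  rfl

lemma dG_dc {F : X → E} (hF : F ∈ Tst hπ) :
    g.dG (fun x => Jinv (g.dG (fun y => J (F y)) x)) +
      (fun x => Jinv (g.dG (fun y => J (g.dG F y)) x)) = 0 := by
  have hJi : ∀ (x : X) (a : E), g.G x (Jinv a) = Jinv (g.G x a) := by
    intro x a
    have h : ∀ c : E, Jinv c = J (J (J c)) := fun _ => rfl
    rw [h, h, g.G_J, g.G_J, g.G_J]
  have hJi' : ∀ (x : X) (a : E), g.Gi x (Jinv a) = Jinv (g.Gi x a) := by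
    intro x a
    have h : ∀ c : E, Jinv c = J (J (J c)) := fun _ => rfl
    rw [h, h, g.Gi_J, g.Gi_J, g.Gi_J]
  have e1 : (fun y => g.G y (J (F y))) = fun y => J (g.G y (F y)) := by
    funext y; exact g.G_J _ _
  have e2 : (fun y => g.G y (Jinv (g.dG (fun y => J (F y)) y))) =
      fun y => Jinv (dX hπ (fun z => J (g.G z (F z))) y) := by
    funext y
    rw [hJi]
    congr 1
    have h3 : g.G y (g.dG (fun y => J (F y)) y) = dX hπ (fun y => g.G y (J (F y))) y :=
      congrFun (g.G_dG (fun y => J (F y))) y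
    rw [h3, e1]
  have e3 : (fun y => g.G y (J (g.dG F y))) = fun y => J (dX hπ (fun z => g.G z (F z)) y) := by
    funext y
    rw [g.G_J]
    congr 1
    exact congrFun (g.G_dG F) y
  funext x
  have key := dX_dc hπ J Jinv Jinv_mul Jinv_J (fun a => Jinv_mem (e_mem_Deg a))
    (Tst.sm2 hπ (g.Tst_G hF)) x
  change g.Gi x (dX hπ (fun y => g.G y (Jinv (g.dG (fun y => J (F y)) y))) x) +
    Jinv (g.Gi x (dX hπ (fun y => g.G y (J (g.dG F y))) x)) = 0
  rw [e2, e3, ← hJi', ← map_add, key, map_zero]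

lemma measurable_det : Measurable fun x => ENNReal.ofReal (g.det x) :=
  (g.sm_det.continuous hπ).measurable.ennreal_ofReal

lemma integral_muF (f : X → ℝ) : ∫ x, f x ∂(g.mu ν) = ∫ x, g.det x * f x ∂ν := by
  rw [mu, integral_withDensity_eq_integral_toReal_smul g.measurable_det
    (Eventually.of_forall fun x => ENNReal.ofReal_lt_top)]
  refine integral_congr_ae (Eventually.of_forall fun x => ?_)
  simp only [smul_eq_mul]
  rw [ENNReal.toReal_ofReal (g.det_pos x).le]

lemma integral_top' (v : X → E) : ∫ x, top (v x) ∂(g.mu ν) = ∫ x, top (g.G x (v x)) ∂ν := by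
  rw [g.integral_muF]
  refine integral_congr_ae (Eventually.of_forall fun x => ?_)
  simp only [g.top_G]

lemma memLp_Tst (hν : IsLift π volume ν) {F : X → E} (hF : F ∈ Tst hπ) : MemLp F 2 (g.mu ν) := by
  have h0 : IsFiniteMeasureOnCompacts ν := isFiniteMeasureOnCompacts_lift hπ hν
  have h1 : IsFiniteMeasureOnCompacts (g.mu ν) := by
    constructor
    intro K hK
    obtain ⟨M, hM⟩ := hK.bddAbove_image (g.sm_det.continuous hπ).continuousOn
    rw [mu, withDensity_apply _ hK.measurableSet]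
    calc ∫⁻ x in K, ENNReal.ofReal (g.det x) ∂ν
        ≤ ∫⁻ _ in K, ENNReal.ofReal M ∂ν := by
          refine setLIntegral_mono measurable_const fun x hx => ?_
          exact ENNReal.ofReal_le_ofReal (hM (mem_image_of_mem _ hx))
      _ = ENNReal.ofReal M * ν K := by rw [setLIntegral_const]
      _ < ⊤ := ENNReal.mul_lt_top ENNReal.ofReal_lt_top hK.measure_lt_top
  exact (hF.1.continuous hπ).memLp_of_hasCompactSupport hF.2

end Gauge

/-- the Hodge calculus of a complete Kaehler form of finite volume -/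
theorem exists_calc [PreconnectedSpace X] (K : KForm hπ ν)
    (g : Gauge hπ K.w) : ∃ C : HodgeCalc (g.mu ν), (∀ v, v ∈ C.D ↔ v ∈ Tst hπ) ∧
      ∀ (v : C.D) x, (C.d v : X → E) x = g.dG v x := by
  have hst : ∀ F ∈ Tst hπ, ∫ x, top (dX hπ F x) ∂ν = 0 := fun F hF =>
    integral_top_dX hπ K.lift hF
  refine ⟨
    { D := TstS hπ
      memLp := fun v hv => g.memLp_Tst K.lift hv
      op_mem := fun T v hv => Tst_op hπ T hv
      d :=
        { toFun := fun v => ⟨g.dG v, g.Tst_dG v.2⟩
          map_add' := fun v w => Subtype.ext (g.dG_add v.2 w.2)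
          map_smul' := fun c v => Subtype.ext (g.dG_smul c v.2) }
      d_deg := fun k v hk => g.dG_deg v.2 hk
      d_d := fun v => Subtype.ext (g.dG_dG v.2)
      d_L := fun v => Subtype.ext (g.dG_L K.sm K.closed v.2)
      d_dc := fun v => Subtype.ext (g.dG_dc v.2)
      stokes0 := ?_
      stokes := ?_
      core := ?_
      const := ?_ }, fun v => Iff.rfl, fun v x => rfl⟩
  · intro v
    change ∫ x, top (g.dG v x) ∂(g.mu ν) = 0
    rw [g.integral_top']
    have h := hst _ (g.Tst_G v.2)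
    rw [← g.G_dG] at h
    exact h
  · intro k α β hk
    change ∫ x, top (g.dG α x * (β : X → E) x) ∂(g.mu ν) =
      -(-1) ^ k * ∫ x, top ((α : X → E) x * g.dG β x) ∂(g.mu ν)
    have hα := g.Tst_G α.2
    have hβ := g.Tst_G β.2
    have e1 : ∀ x, g.G x (g.dG α x * (β : X → E) x) =
        dX hπ (fun y => g.G y ((α : X → E) y)) x * g.G x ((β : X → E) x) := by
      intro x
      rw [g.G_mul]
      congr 1
      exact congrFun (g.G_dG α) x
    have e2 : ∀ x, g.G x ((α : X → E) x * g.dG β x) =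
        g.G x ((α : X → E) x) * dX hπ (fun y => g.G y ((β : X → E) y)) x := by
      intro x
      rw [g.G_mul]
      congr 1
      exact congrFun (g.G_dG β) x
    rw [g.integral_top', g.integral_top']
    simp only [e1, e2]
    have hp : (fun x => g.G x ((α : X → E) x) * g.G x ((β : X → E) x)) ∈ Tst hπ :=
      Tst.of_zero hπ hα (hα.1.mulE hπ hβ.1) fun x h => by simp only [h, zero_mul]
    have h := hst _ hp
    have h2 : ∀ x, top (dX hπ (fun y => g.G y ((α : X → E) y) * g.G y ((β : X → E) y)) x) =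
        top (dX hπ (fun y => g.G y ((α : X → E) y)) x * g.G x ((β : X → E) x)) +
        (-1) ^ k * top (g.G x ((α : X → E) x) * dX hπ (fun y => g.G y ((β : X → E) y)) x) := by
      intro x
      rw [dX_mul hπ (Tst.sm1 hπ hα) (Tst.sm1 hπ hβ) (fun y => g.G_deg (hk y) y) x, map_add,
        map_smul, smul_eq_mul]
    simp only [h2] at h
    have i1 : Integrable (fun x => top (dX hπ (fun y => g.G y ((α : X → E) y)) x *
        g.G x ((β : X → E) x))) ν := by
      have hc : Continuous fun x => top (dX hπ (fun y => g.G y ((α : X → E) y)) x *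
          g.G x ((β : X → E) x)) :=
        topB.continuous.comp (((Tst_dX hπ hα).1.continuous hπ).mulE (hβ.1.continuous hπ))
      refine integrable_of_compact hπ K.lift hc (hβ.2.mono' ?_)
      intro x hx
      apply subset_tsupport
      intro h0
      apply hx
      simp only [h0, mul_zero, map_zero]
    have i2 : Integrable (fun x => (-1 : ℝ) ^ k * top (g.G x ((α : X → E) x) *
        dX hπ (fun y => g.G y ((β : X → E) y)) x)) ν := by
      have hc : Continuous fun x => (-1 : ℝ) ^ k * top (g.G x ((α : X → E) x) *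
          dX hπ (fun y => g.G y ((β : X → E) y)) x) :=
        continuous_const.mul
          (topB.continuous.comp ((hα.1.continuous hπ).mulE ((Tst_dX hπ hβ).1.continuous hπ)))
      refine integrable_of_compact hπ K.lift hc (hα.2.mono' ?_)
      intro x hx
      apply subset_tsupport
      intro h0
      apply hx
      simp only [h0, zero_mul, map_zero, mul_zero]
    rw [integral_add i1 i2, integral_const_mul] at h
    linarith
  · intro v hv h1 h2 ε hε
    obtain ⟨s, hs, h3, h4, h5⟩ :=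
      Gauge.core K g v hv (fun F hF => h1 ⟨F, hF⟩) (fun F hF => h2 ⟨F, hF⟩) ε hε
    exact ⟨⟨s, hs⟩, h3, h4, h5⟩
  · intro c hc h
    exact g.const K.lift c hc fun F hF => h ⟨F, hF⟩

end EH
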