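import Pool.Agent.Work.MP_9eee85_co.EH.CoreD
import Pool.Agent.Work.MP_9eee85_co.EH.FX

/-!
The core: Friedrichs and completeness.
-/

noncomputable section

namespace EH

open MeasureTheory Filter Topology Set EHPos
open scoped ContDiff

variable {X : Type} [TopologicalSpace X] [T2Space X] [SecondCountableTopology X]
  [MeasurableSpace X] [BorelSpace X] {π : X → Bs} {hπ : IsLocalHomeomorph π} {ν : Measure X}

/-- the core: Friedrichs and completeness -/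
theorem Gauge.core (K : KForm hπ ν) (g : Gauge hπ K.w) (v : X → E)
    (hv : MemLp v 2 (g.mu ν))
    (h1 : ∀ α ∈ Tst hπ, ∫ x, inner ℝ (v x) (g.dG α x) ∂(g.mu ν) = 0)
    (h2 : ∀ α ∈ Tst hπ, ∫ x, inner ℝ (v x) (star (g.dG (fun y => star (α y)) x)) ∂(g.mu ν) = 0)
    (ε : ℝ) (hε : 0 < ε) :
    ∃ s ∈ Tst hπ, ∫ x, ‖s x - v x‖ ^ 2 ∂(g.mu ν) < ε ∧ ∫ x, ‖g.dG s x‖ ^ 2 ∂(g.mu ν) < ε ∧
      ∫ x, ‖star (g.dG (fun y => star (s y)) x)‖ ^ 2 ∂(g.mu ν) < ε := by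
  refine Cr.core_of_fx K g hv (fun χ hχ hc => ?_) hε
  obtain ⟨K', hK', hsub, s, hs, hs1, hs2⟩ := fried_X_int hπ K.lift bv (κ := Fin 2)
    (A := fun j => Cr.Aop g (Cr.Tj j)) (fun j a => Cr.sm_Aop g (Cr.Tj j) a) (v := v)
    (h := fun _ _ => 0) (fun K' hK' => Cr.memLp_loc g hv hK')
    (fun _ _ _ => MemLp.zero) (fun j φ hφ hcφ => by
      rw [Cr.weak_sum K.lift g hv h1 h2 j hφ hcφ]; simp) hχ hc
  refine ⟨K', hK', hsub, s, hs, hs1, fun j => ?_⟩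
  refine (hs2 j).congr fun n => ?_
  refine integral_congr_ae (Eventually.of_forall fun x => ?_)
  simp only
  rw [Cr.sum_Aop g (Cr.Tj j) (hs n).1 x, Cr.sum_smul_Aop, smul_zero, zero_add]
  rfl

end EH
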