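import Pool.Agent.Work.MP_9eee85_co.EH.GFrame
import Pool.Agent.Work.MP_9eee85_co.EH.ExhC
import Pool.Agent.Work.MP_9eee85_co.EH.ExtJ

/-!
# Cutoffs of a complete Kaehler form (EH cell, MP_9eee85_co)

* `dfn_mul_dcfn` : `df dcf = pair (covector of df)`;
* `exists_cutoff_seq_rho` : cutoffs of a proper function;
* `KForm.exists_cutoffs` : smooth compactly supported `χ m : X → [0,1]`, eventually one at every
  point, with `‖Gi (d χ m)‖ ≤ 1 / (m + 1)`;
* `KForm.exists_cutoff` : one cutoff, equal to one on a given compact set.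
-/

noncomputable section

namespace EH

open MeasureTheory Filter Topology Set EHPos EH.Exh EHX
open scoped ContDiff

section

variable {X : Type} [TopologicalSpace X] {π : X → Bs} {hπ : IsLocalHomeomorph π}

lemma dfn_eq (f : X → ℝ) (x : X) : dfn hπ f x = ic (cvec (LD hπ f x)) := cov_eq_ic _

lemma dcfn_eq (f : X → ℝ) (x : X) : dcfn hπ f x = ic (Complex.I • cvec (LD hπ f x)) := by
  rw [dcfn, dfn_eq, Jinv_ic]
  rfl

/-- `df dcf` -/
lemma dfn_mul_dcfn (f : X → ℝ) (x : X) :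
    dfn hπ f x * dcfn hπ f x = pair ic (cvec (LD hπ f x)) := by
  rw [dfn_eq, dcfn_eq]; rfl

/-- the action of the inverse frame on covectors -/
lemma Gauge.Gi_ic {w : X → E} (g : Gauge hπ w) (x : X) (v : Fin 5 → ℂ) :
    g.Gi x (ic v) = ic (conjL (g.Ai x) v) := by
  rw [ic_apply, g.Gi_eq, rmat_eq_cplx, cplx_cv, ic_apply]

lemma Gauge.G_ic {w : X → E} (g : Gauge hπ w) (x : X) (v : Fin 5 → ℂ) :
    g.G x (ic v) = ic (conjL (g.A x) v) := by
  rw [ic_apply, g.G_eq, rmat_eq_cplx, cplx_cv, ic_apply]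

lemma Gauge.Gi_pair {w : X → E} (g : Gauge hπ w) (x : X) (v : Fin 5 → ℂ) :
    g.Gi x (pair ic v) = pair ic (conjL (g.Ai x) v) := by
  rw [pair, g.Gi_mul, g.Gi_ic, g.Gi_ic, map_smul]
  rfl

end

section

variable {V : Type*} [NormedAddCommGroup V] [NormedSpace ℝ V]
variable {X : Type*} [TopologicalSpace X] {π : X → V} (hπ : IsLocalHomeomorph π)

/-- **Cutoffs of a proper function, equal to one on a compact set.** -/
theorem exists_cutoff_rho {rho : X → ℝ} (sm : LSm hπ ⊤ rho)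
    (proper : ∀ c : ℝ, IsCompact {x : X | rho x ≤ c})
    {N : X → (V →L[ℝ] ℝ) → ℝ} (hN : ∀ (x : X) (c : ℝ) (l : V →L[ℝ] ℝ), N x (c • l) = |c| * N x l)
    {C : ℝ} (hC : ∀ x, N x (LD hπ rho x) ≤ C) (c₀ : ℝ) {ε : ℝ} (hε : 0 < ε) :
    ∃ χ : X → ℝ, LSm hπ ⊤ χ ∧ HasCompactSupport χ ∧ (∀ x, 0 ≤ χ x) ∧ (∀ x, χ x ≤ 1) ∧
      (∀ x, rho x ≤ c₀ → χ x = 1) ∧ ∀ x, N x (LD hπ χ x) ≤ ε := by
  obtain ⟨C₁, hC₁, hb⟩ := exists_chi_bound
  obtain ⟨R, hR1, hR2, hR3⟩ := ((eventually_ge_atTop c₀).and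
    ((eventually_gt_atTop (0:ℝ)).and (eventually_ge_atTop (C₁ * |C| / ε)))).exists
  have hd : Differentiable ℝ chi :=
    (contDiff_chi (m := 1) (by norm_num)).differentiable (by norm_num)
  have hsm : LSm hπ ⊤ (fun x => chi (rho x / R)) := by
    refine LSm_comp hπ sm (φ := fun t => chi (t / R)) ?_
    exact (contDiff_chi (by exact_mod_cast le_top)).comp (contDiff_id.div_const R)
  have hcl : IsClosed {x : X | rho x ≤ 2 * R} :=
    isClosed_le (sm.continuous hπ) continuous_const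
  have hLD : ∀ x, LD hπ (fun x => chi (rho x / R)) x =
      (deriv chi (rho x / R) / R) • LD hπ rho x := by
    intro x
    have h0 : DifferentiableAt ℝ (rho ∘ lsec hπ x) (π x) :=
      differentiableAt_lsec hπ le_top sm x
    have h1 : HasDerivAt (fun t : ℝ => chi (t / R)) (deriv chi (rho x / R) / R) (rho x) := by
      have h2 : HasDerivAt (fun t : ℝ => t / R) (1 / R) (rho x) := (hasDerivAt_id _).div_const R
      have h3 : HasDerivAt chi (deriv chi (rho x / R)) (rho x / R) := (hd _).hasDerivAt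
      have h4 := h3.comp (rho x) h2
      rwa [mul_one_div] at h4
    have h := LD_comp_real hπ h0 h1.differentiableAt
    rw [h1.deriv] at h
    exact h
  refine ⟨fun x => chi (rho x / R), hsm, ?_, fun x => chi_nonneg _, fun x => chi_le_one _,
    fun x hx => chi_one ((div_le_one hR2).mpr (hx.trans hR1)), fun x => ?_⟩
  · refine (proper (2 * R)).of_isClosed_subset (isClosed_tsupport _) (closure_minimal ?_ hcl)
    intro x hx
    by_contra h
    have h2 : 2 * R < rho x := not_le.mp h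
    exact hx (chi_zero ((le_div_iff₀ hR2).mpr h2.le))
  · rw [hLD, hN]
    have h2 : |deriv chi (rho x / R) / R| ≤ C₁ / R := by
      rw [abs_div, abs_of_pos hR2]
      gcongr
      exact hb _
    have h3 : N x (LD hπ rho x) ≤ |C| := (hC x).trans (le_abs_self C)
    have h4 : C₁ / R * |C| ≤ ε := by
      rw [div_le_iff₀ hε] at hR3
      rw [div_mul_eq_mul_div, div_le_iff₀ hR2]
      linarith
    calc |deriv chi (rho x / R) / R| * N x (LD hπ rho x)
        ≤ |deriv chi (rho x / R) / R| * |C| := by gcongr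
      _ ≤ C₁ / R * |C| := by gcongr
      _ ≤ ε := h4

end

namespace KForm

variable {X : Type} [TopologicalSpace X] [T2Space X] [SecondCountableTopology X]
  [MeasurableSpace X] [BorelSpace X] {π : X → Bs} {hπ : IsLocalHomeomorph π} {ν : Measure X}

/-- the length of `dρ` in the gauge -/
theorem norm_Gi_drho_le (K : KForm hπ ν) (g : Gauge hπ K.w) (x : X) :
    ‖g.Gi x (dfn hπ K.rho x)‖ ≤ Real.sqrt (5 / K.c) := by
  have hc := K.c_pos
  set w := cvec (LD hπ K.rho x) with hw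
  set B := conjL (g.Ai x) with hB
  have h0 := K.complete x
  rw [dfn_mul_dcfn] at h0
  have h1 := g.Gi_cone h0 x
  rw [map_sub, map_smul, g.Gi_w, g.Gi_pair] at h1
  have h2 : std ic - pair ic (Real.sqrt K.c • B w) ∈ cone ic := by
    rw [std_eq_om, pair_smul, Real.sq_sqrt hc.le]
    exact h1
  have h3 := coord_le_of_mem ic_sq top (by rw [top_std]; norm_num) h2
  rw [dfn_eq, g.Gi_ic]
  apply Real.le_sqrt_of_sq_le
  rw [le_div_iff₀ hc, mul_comm, norm_ic_sq, Finset.mul_sum]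
  have h4 : ∀ j, K.c * ‖B w j‖ ^ 2 ≤ 1 := by
    intro j
    have h5 := h3 j
    rw [Pi.smul_apply, norm_smul, Real.norm_of_nonneg (Real.sqrt_nonneg K.c)] at h5
    have h6 : K.c * ‖B w j‖ ^ 2 = (Real.sqrt K.c * ‖B w j‖) ^ 2 := by
      rw [mul_pow, Real.sq_sqrt hc.le]
    rw [h6]
    exact pow_le_one₀ (by positivity) h5
  calc ∑ j, K.c * ‖B w j‖ ^ 2 ≤ ∑ _j : Fin 5, (1 : ℝ) := Finset.sum_le_sum fun j _ => h4 j
    _ = 5 := by simp

/-- **One cutoff, equal to one where `ρ ≤ c₀`, with small differential in the gauge.** -/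
theorem exists_cutoff (K : KForm hπ ν) (g : Gauge hπ K.w) (c₀ : ℝ) {ε : ℝ} (hε : 0 < ε) :
    ∃ χ : X → ℝ, LSm hπ ⊤ χ ∧ HasCompactSupport χ ∧ (∀ x, 0 ≤ χ x) ∧ (∀ x, χ x ≤ 1) ∧
      (∀ x, K.rho x ≤ c₀ → χ x = 1) ∧ ∀ x, ‖g.Gi x (dfn hπ χ x)‖ ≤ ε := by
  refine exists_cutoff_rho hπ K.smrho K.proper
    (N := fun x l => ‖g.Gi x (cov l)‖) (C := Real.sqrt (5 / K.c)) ?_ ?_ c₀ hε
  · intro x a l
    simp only [cov_smul, map_smul, norm_smul, Real.norm_eq_abs]
  · intro x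
    exact K.norm_Gi_drho_le g x

/-- **Cutoffs with small differential in the gauge.** -/
theorem exists_cutoffs (K : KForm hπ ν) (g : Gauge hπ K.w) :
    ∃ χ : ℕ → X → ℝ, (∀ m, LSm hπ ⊤ (χ m)) ∧ (∀ m, HasCompactSupport (χ m)) ∧
      (∀ m x, 0 ≤ χ m x) ∧ (∀ m x, χ m x ≤ 1) ∧ (∀ x, ∀ᶠ m in atTop, χ m x = 1) ∧
      ∀ m x, ‖g.Gi x (dfn hπ (χ m) x)‖ ≤ 1 / ((m : ℝ) + 1) := by
  have h := fun m : ℕ => K.exists_cutoff g (m : ℝ) (ε := 1 / ((m : ℝ) + 1)) (by positivity)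
  choose χ h1 h2 h3 h4 h5 h6 using h
  refine ⟨χ, h1, h2, h3, h4, fun x => ?_, h6⟩
  filter_upwards [eventually_ge_atTop ⌈K.rho x⌉₊] with m hm
  refine h5 m x ?_
  exact (Nat.le_ceil _).trans (by exact_mod_cast hm)

end KForm

end EH
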