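import Pool.Agent.Work.MP_9eee85_co.EH.GFrame

/-!
Existence of smooth frames is in `GFrame.lean`.
-/
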