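import Pool.Agent.Work.MP_9eee85_co.EH.GaugeMat
import Pool.Agent.Work.MP_9eee85_co.EH.ExtJ
import Pool.Agent.Work.MP_9eee85_co.EH.ConeE

/-!
# The Hermitian matrix of a real (1,1)-form

`hmat : E →ₗ[ℝ] (Fin 5 → Fin 5 → ℂ)` is a left inverse of `herm2` on Hermitian matrices.
The forms of the cone are the forms `herm2 H`, `H` positive semidefinite.
-/

noncomputable section

namespace EH

open Finset EHPos ComplexConjugate

lemma co_ee {a b c d : Fin 10} (h : c < d) :
    co (e a * e b) {c, d} = (if a = c ∧ b = d then 1 else 0) - (if a = d ∧ b = c then 1 else 0) := by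
  rw [e, e, co_mono_mul_mono]
  have hcd : c ≠ d := h.ne
  by_cases h1 : a = c
  · subst h1
    have e1 : ({a, d} : Finset (Fin 10)) \ {a} = {d} := by
      ext x
      simp only [mem_sdiff, mem_insert, mem_singleton]
      constructor
      · rintro ⟨h1, h2⟩; exact h1.resolve_left h2
      · rintro rfl; exact ⟨Or.inr rfl, fun h => hcd h.symm⟩
    have e2 : ({a} : Finset (Fin 10)) ⊆ {a, d} := by simp
    rw [e1]
    by_cases h2 : b = d
    · subst h2
      have e3 : inv {a} {b} = 0 := by
        simp [inv, filter_singleton, not_lt.mpr h.le]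
      simp [sgn, e3, hcd]
    · have h3 : ¬ (({a} : Finset (Fin 10)) ⊆ {a, d} ∧ ({d} : Finset (Fin 10)) = {b}) := by
        rintro ⟨_, h4⟩
        exact h2 (singleton_injective h4).symm
      rw [if_neg h3]
      simp [h2, hcd]
  · by_cases h1' : a = d
    · subst h1'
      have e1 : ({c, a} : Finset (Fin 10)) \ {a} = {c} := by
        ext x
        simp only [mem_sdiff, mem_insert, mem_singleton]
        constructor
        · rintro ⟨h1, h2⟩; exact h1.resolve_right h2
        · rintro rfl; exact ⟨Or.inl rfl, hcd⟩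
      rw [e1]
      by_cases h2 : b = c
      · subst h2
        have e3 : inv {a} {b} = 1 := by
          simp [inv, filter_singleton, h]
        simp [sgn, e3, h1]
      · have h3 : ¬ (({a} : Finset (Fin 10)) ⊆ {c, a} ∧ ({c} : Finset (Fin 10)) = {b}) := by
          rintro ⟨_, h4⟩
          exact h2 (singleton_injective h4).symm
        rw [if_neg h3]
        simp [h1, h2]
    · have h3 : ¬ (({a} : Finset (Fin 10)) ⊆ {c, d} ∧ ({c, d} : Finset (Fin 10)) \ {a} = {b}) := by
        rintro ⟨h4, _⟩
        have : a ∈ ({c, d} : Finset (Fin 10)) := h4 (mem_singleton_self a)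
        simp only [mem_insert, mem_singleton] at this
        rcases this with h5 | h5
        · exact h1 h5
        · exact h1' h5
      rw [if_neg h3]
      simp [h1, h1']

lemma xi_eq_iff {j k : Fin 5} : xi j = xi k ↔ j = k := by
  constructor
  · intro h
    have := congrArg Fin.val h
    simp only [xi] at this
    exact Fin.ext (by omega)
  · rintro rfl; rfl

lemma yi_eq_iff {j k : Fin 5} : yi j = yi k ↔ j = k := by
  constructor
  · intro h
    have := congrArg Fin.val h
    simp only [yi] at this
    exact Fin.ext (by omega)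
  · rintro rfl; rfl

lemma xi_eq_yi_iff {j k : Fin 5} : xi j = yi k ↔ False := by
  constructor
  · intro h
    have := congrArg Fin.val h
    simp only [xi, yi] at this
    omega
  · intro h; exact h.elim

lemma yi_eq_xi_iff {j k : Fin 5} : yi j = xi k ↔ False := by
  rw [eq_comm, xi_eq_yi_iff]

/-- The Hermitian matrix of a form. -/
def hmat : E →ₗ[ℝ] (Fin 5 → Fin 5 → ℂ) where
  toFun α := fun j k =>
    ⟨if j ≤ k then co α {xi j, yi k} else co α {xi k, yi j},
      if j < k then -co α {xi j, xi k} else if k < j then co α {xi k, xi j} else 0⟩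
  map_add' α β := by
    funext j k
    apply Complex.ext
    · simp only [co_add, Pi.add_apply, Complex.add_re]
      split_ifs <;> rfl
    · simp only [co_add, Pi.add_apply, Complex.add_im]
      split_ifs <;> ring
  map_smul' c α := by
    funext j k
    apply Complex.ext
    · simp only [co_smul, Pi.smul_apply, Complex.real_smul, Complex.re_ofReal_mul,
        RingHom.id_apply]
      split_ifs <;> rfl
    · simp only [co_smul, Pi.smul_apply, Complex.real_smul, Complex.im_ofReal_mul,
        RingHom.id_apply]
      split_ifs <;> ring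

lemma hmat_re (α : E) (j k : Fin 5) :
    (hmat α j k).re = if j ≤ k then co α {xi j, yi k} else co α {xi k, yi j} := rfl

lemma hmat_im (α : E) (j k : Fin 5) :
    (hmat α j k).im = if j < k then -co α {xi j, xi k} else
      if k < j then co α {xi k, xi j} else 0 := rfl

lemma co_herm2 (H : Fin 5 → Fin 5 → ℂ) (U : Finset (Fin 10)) : co (herm2 H) U =
    ∑ j, ∑ k, (((H j k).re / 2) * (co (e (xi j) * e (yi k)) U - co (e (yi j) * e (xi k)) U) -
      ((H j k).im / 2) * (co (e (xi j) * e (xi k)) U + co (e (yi j) * e (yi k)) U)) := by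
  rw [herm2_apply, co_sum]
  refine Finset.sum_congr rfl fun j _ => ?_
  rw [co_sum]
  refine Finset.sum_congr rfl fun k _ => ?_
  rw [co_sub, co_smul, co_smul, co_sub, co_add]

lemma co_herm2_xy {H : Fin 5 → Fin 5 → ℂ} (h : Herm H) {j k : Fin 5} (hjk : j ≤ k) :
    co (herm2 H) {xi j, yi k} = (H j k).re := by
  have hlt : xi j < yi k := by
    rw [Fin.lt_def]; simp only [xi, yi]; have := Fin.le_def.mp hjk; omega
  have hre : (H k j).re = (H j k).re := by
    rw [← h j k]; exact Complex.conj_re _
  rw [co_herm2]
  simp only [co_ee hlt, xi_eq_iff, yi_eq_iff, xi_eq_yi_iff, yi_eq_xi_iff, and_false, false_and, if_false,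
    sub_zero, zero_sub, add_zero, mul_zero, sub_neg_eq_add]
  simp only [mul_add, Finset.sum_add_distrib, mul_ite, mul_one, mul_zero]
  have e1 : ∑ x : Fin 5, ∑ y : Fin 5, (if x = j ∧ y = k then (H x y).re / 2 else 0) =
      (H j k).re / 2 := by
    rw [Finset.sum_eq_single j]
    · rw [Finset.sum_eq_single k]
      · simp
      · intro b _ hb; simp [hb]
      · simp
    · intro b _ hb; simp [hb]
    · simp
  have e2 : ∑ x : Fin 5, ∑ y : Fin 5, (if x = k ∧ y = j then (H x y).re / 2 else 0) =
      (H k j).re / 2 := by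
    rw [Finset.sum_eq_single k]
    · rw [Finset.sum_eq_single j]
      · simp
      · intro b _ hb; simp [hb]
      · simp
    · intro b _ hb; simp [hb]
    · simp
  rw [e1, e2, hre]
  ring

lemma co_herm2_xx {H : Fin 5 → Fin 5 → ℂ} (h : Herm H) {j k : Fin 5} (hjk : j < k) :
    co (herm2 H) {xi j, xi k} = -(H j k).im := by
  have hlt : xi j < xi k := by
    rw [Fin.lt_def]; simp only [xi]; have := Fin.lt_def.mp hjk; omega
  have him : (H k j).im = -(H j k).im := by
    rw [← h j k]; exact Complex.conj_im _
  rw [co_herm2]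
  simp only [co_ee hlt, xi_eq_iff, yi_eq_iff, xi_eq_yi_iff, yi_eq_xi_iff, and_false, false_and, if_false,
    sub_zero, zero_sub, add_zero, mul_zero, sub_self]
  simp only [mul_sub, mul_ite, mul_one, mul_zero, neg_sub, Finset.sum_sub_distrib]
  have e1 : ∑ x : Fin 5, ∑ y : Fin 5, (if x = j ∧ y = k then (H x y).im / 2 else 0) =
      (H j k).im / 2 := by
    rw [Finset.sum_eq_single j]
    · rw [Finset.sum_eq_single k]
      · simp
      · intro b _ hb; simp [hb]
      · simp
    · intro b _ hb; simp [hb]
    · simp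
  have e2 : ∑ x : Fin 5, ∑ y : Fin 5, (if x = k ∧ y = j then (H x y).im / 2 else 0) =
      (H k j).im / 2 := by
    rw [Finset.sum_eq_single k]
    · rw [Finset.sum_eq_single j]
      · simp
      · intro b _ hb; simp [hb]
      · simp
    · intro b _ hb; simp [hb]
    · simp
  rw [e1, e2, him]
  ring

/-- `hmat` is a left inverse of `herm2` on Hermitian matrices. -/
theorem hmat_herm2 {H : Fin 5 → Fin 5 → ℂ} (h : Herm H) : hmat (herm2 H) = H := by
  have hre : ∀ j k, (H k j).re = (H j k).re := fun j k => by
    rw [← h j k]; exact Complex.conj_re _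
  have him : ∀ j k, (H k j).im = -(H j k).im := fun j k => by
    rw [← h j k]; exact Complex.conj_im _
  funext j k
  apply Complex.ext
  · rw [hmat_re]
    split_ifs with h1
    · exact co_herm2_xy h h1
    · rw [co_herm2_xy h (le_of_not_ge h1), hre]
  · rw [hmat_im]
    split_ifs with h1 h2
    · rw [co_herm2_xx h h1, neg_neg]
    · rw [co_herm2_xx h h2, him, neg_neg]
    · have : j = k := le_antisymm (not_lt.mp h2) (not_lt.mp h1)
      subst this
      have := him j j
      linarith

/-- A generator of the cone is the form of a rank one matrix. -/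
lemma pair_eq_herm2 (v : Fin 5 → ℂ) : pair ic v = herm2 (fun j k => conj (v j) * v k) := by
  have h := herm2_rankone (fun j => conj (v j))
  rw [zre_mul_zim] at h
  simp only [Complex.conj_conj] at h
  exact h.symm

lemma psd_pair (v : Fin 5 → ℂ) : PSD (fun j k => conj (v j) * v k) := by
  have h := psd_rankone (fun j => conj (v j))
  simp only [Complex.conj_conj] at h
  exact h

/-- The forms of the cone are the forms of positive semidefinite matrices. -/
theorem exists_psd_of_cone {N : E} (h : N ∈ cone ic) :
    ∃ H : Fin 5 → Fin 5 → ℂ, PSD H ∧ N = herm2 H := by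
  induction h using AddSubmonoid.closure_induction with
  | mem x hx =>
    obtain ⟨v, rfl⟩ := hx
    exact ⟨_, psd_pair v, pair_eq_herm2 v⟩
  | zero => exact ⟨0, PSD.zero, (map_zero herm2).symm⟩
  | add x y _ _ hx hy =>
    obtain ⟨H, hH, rfl⟩ := hx
    obtain ⟨K, hK, rfl⟩ := hy
    exact ⟨H + K, hH.add hK, (map_add herm2 H K).symm⟩

lemma psd_hmat {N : E} (h : N ∈ cone ic) : PSD (hmat N) ∧ herm2 (hmat N) = N := by
  obtain ⟨H, hH, rfl⟩ := exists_psd_of_cone h
  rw [hmat_herm2 hH.1]
  exact ⟨hH, rfl⟩

/-- A form bounded below by a positive multiple of `om` is the form of a positive definite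
matrix. -/
theorem pd_hmat {N : E} {c : ℝ} (hc : 0 < c) (h : N - c • om ∈ cone ic) :
    PD (hmat N) ∧ herm2 (hmat N) = N := by
  have h1 : PD (fun j k : Fin 5 => if j = k then ((c : ℝ) : ℂ) else 0) := pd_diag _ fun _ => hc
  have h2 : herm2 (fun j k : Fin 5 => if j = k then ((c : ℝ) : ℂ) else 0) = c • om := by
    rw [om_eq, ← map_smul]
    congr 1
    funext j k
    by_cases hjk : j = k <;> simp [hjk]
  obtain ⟨K, hK, hN⟩ := exists_psd_of_cone h
  have h3 : N = herm2 ((fun j k : Fin 5 => if j = k then ((c : ℝ) : ℂ) else 0) + K) := by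
    rw [map_add, h2, ← hN]
    abel
  have h4 : PD ((fun j k : Fin 5 => if j = k then ((c : ℝ) : ℂ) else 0) + K) := h1.add_PSD hK
  rw [h3, hmat_herm2 h4.1]
  exact ⟨h4, rfl⟩

/-- Conversely, the form of a positive definite matrix is in the cone. -/
theorem herm2_mem_cone {H : Fin 5 → Fin 5 → ℂ} (h : PD H) : herm2 H ∈ cone ic := by
  rw [← gmat_spec h, herm2_sum_rows]
  exact sum_mem fun i _ => by rw [zre_mul_zim]; exact pair_mem ic _

end EH
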