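import Pool.Agent.Work.MP_9eee85_co.EH.Geo
import Pool.Agent.Work.MP_9eee85_co.EH.HMat
import Pool.Agent.Work.MP_9eee85_co.EH.LCalc

/-!
Smooth frames of a Kaehler form: existence and properties.
-/

noncomputable section

namespace EH

open MeasureTheory Filter Topology Set EHPos
open scoped ContDiff

variable {X : Type} [TopologicalSpace X] {π : X → Bs} {hπ : IsLocalHomeomorph π}

/-- smooth frames exist -/
theorem exists_gauge {w : X → E} (sm : LSm hπ ⊤ w) (pos : ∀ x, ∃ c : ℝ, 0 < c ∧ w x - c • om ∈ cone ic) :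
    Nonempty (Gauge hπ w) := by
  have hH : ∀ x, PD (hmat (w x)) ∧ herm2 (hmat (w x)) = w x := fun x => by
    obtain ⟨c, hc, h⟩ := pos x
    exact pd_hmat hc h
  have smH : LSm hπ ⊤ (fun x => hmat (w x)) := sm.linear hπ hmat
  have smA : LSm hπ ⊤ (fun x => gmat (hmat (w x))) := smH.gmat fun x => (hH x).1
  have hdet : ∀ x, (Matrix.of (gmat (hmat (w x)))).det ≠ 0 := fun x => gmat_det_ne (hH x).1
  refine ⟨{
    A := fun x => gmat (hmat (w x))
    Ai := fun x => minv (gmat (hmat (w x)))
    smA := smA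
    smAi := smA.minv hdet
    mul_inv := fun x => Matrix.mul_nonsing_inv _ (isUnit_iff_ne_zero.mpr (hdet x))
    G := fun x => (ext (rmat (gmat (hmat (w x))))).toLinearMap
    Gi := fun x => (ext (rmat (minv (gmat (hmat (w x)))))).toLinearMap
    G_eq := fun x v => ext_gen _ v
    Gi_eq := fun x v => ext_gen _ v
    G_one := fun x => map_one (ext _)
    Gi_one := fun x => map_one (ext _)
    G_mul := fun x a b => map_mul (ext _) a b
    Gi_mul := fun x a b => map_mul (ext _) a b
    map_om := fun x => ?_ }⟩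
  exact (ext_gmat_om (hH x).1).trans (hH x).2

namespace Gauge

variable {w : X → E} (g : Gauge hπ w)

/-- the frame is the algebra endomorphism of its matrix -/
theorem G_ext (x : X) (a : E) : g.G x a = ext (rmat (g.A x)) a := by
  have h : AlgHom.ofLinearMap (g.G x) (g.G_one x) (g.G_mul x) = ext (rmat (g.A x)) := by
    apply algHom_ext
    intro v
    rw [ext_gen]
    exact g.G_eq x v
  exact congrArg (fun f => f a) h

theorem Gi_ext (x : X) (a : E) : g.Gi x a = ext (rmat (g.Ai x)) a := by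
  have h : AlgHom.ofLinearMap (g.Gi x) (g.Gi_one x) (g.Gi_mul x) = ext (rmat (g.Ai x)) := by
    apply algHom_ext
    intro v
    rw [ext_gen]
    exact g.Gi_eq x v
  exact congrArg (fun f => f a) h

theorem mul_inv_apply (x : X) (i k : Fin 5) :
    ∑ j, g.A x i j * g.Ai x j k = if i = k then 1 else 0 := by
  have h := congrFun (congrFun (g.mul_inv x) i) k
  rw [Matrix.mul_apply, Matrix.one_apply] at h
  exact h

theorem inv_mul_apply (x : X) (i k : Fin 5) :
    ∑ j, g.Ai x i j * g.A x j k = if i = k then 1 else 0 := by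
  have h1 : Matrix.of (g.Ai x) * Matrix.of (g.A x) = 1 := mul_eq_one_comm.mp (g.mul_inv x)
  have h := congrFun (congrFun h1 i) k
  rw [Matrix.mul_apply, Matrix.one_apply] at h
  exact h

theorem Gi_G (x : X) (a : E) : g.Gi x (g.G x a) = a := by
  rw [Gi_ext, G_ext]
  apply ext_left_inv
  rw [rmat_comp, ← rmat_one]
  congr 1
  funext i k
  exact g.mul_inv_apply x i k

theorem G_Gi (x : X) (a : E) : g.G x (g.Gi x a) = a := by
  rw [Gi_ext, G_ext]
  apply ext_left_inv
  rw [rmat_comp, ← rmat_one]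
  congr 1
  funext i k
  exact g.inv_mul_apply x i k

theorem G_deg {k : ℕ} {a : E} (h : a ∈ Deg k) (x : X) : g.G x a ∈ Deg k := by
  rw [G_ext]; exact ext_mem_Deg _ h

theorem Gi_deg {k : ℕ} {a : E} (h : a ∈ Deg k) (x : X) : g.Gi x a ∈ Deg k := by
  rw [Gi_ext]; exact ext_mem_Deg _ h

theorem G_J (x : X) (a : E) : g.G x (J a) = J (g.G x a) := by
  rw [G_ext, G_ext]; exact ext_rmat_J _ a

theorem Gi_J (x : X) (a : E) : g.Gi x (J a) = J (g.Gi x a) := by
  rw [Gi_ext, Gi_ext]; exact ext_rmat_J _ a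

theorem ext_rmat_cone (A : Fin 5 → Fin 5 → ℂ) {a : E} (h : a ∈ cone ic) :
    ext (rmat A) a ∈ cone ic := by
  induction h using AddSubmonoid.closure_induction with
  | mem y hy =>
    obtain ⟨v, rfl⟩ := hy
    have : ext (rmat A) (pair ic v) = pair ic (conjL A v) := by
      rw [pair, pair, map_mul, rmat_eq_cplx, ext_cplx_ic, ext_cplx_ic, map_smul]
    rw [this]
    exact pair_mem ic _
  | zero => rw [map_zero]; exact zero_mem _
  | add y z _ _ hy hz => rw [map_add]; exact add_mem hy hz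

theorem G_cone {a : E} (h : a ∈ cone ic) (x : X) : g.G x a ∈ cone ic := by
  rw [G_ext]; exact ext_rmat_cone _ h

theorem Gi_cone {a : E} (h : a ∈ cone ic) (x : X) : g.Gi x a ∈ cone ic := by
  rw [Gi_ext]; exact ext_rmat_cone _ h

theorem Gi_w (x : X) : g.Gi x (w x) = om := by
  rw [← g.map_om x, Gi_G]

theorem det_eq (x : X) : g.det x = Complex.normSq (Matrix.of (g.A x)).det := by
  rw [det, G_ext, top_ext_rmat, top_mono_univ, mul_one]

theorem matrix_det_ne (x : X) : (Matrix.of (g.A x)).det ≠ 0 := by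
  intro h
  have h1 := congrArg Matrix.det (g.mul_inv x)
  rw [Matrix.det_mul, h, zero_mul, Matrix.det_one] at h1
  exact zero_ne_one h1

theorem det_pos (x : X) : 0 < g.det x := by
  rw [det_eq]
  exact Complex.normSq_pos.mpr (g.matrix_det_ne x)

theorem top_G (x : X) (a : E) : top (g.G x a) = g.det x * top a := by
  rw [G_ext, top_ext_rmat, det_eq]

theorem sm_G {v : X → E} (hv : LSm hπ ⊤ v) : LSm hπ ⊤ (fun x => g.G x (v x)) := by
  have h := LSm.ext_rmat g.smA hv
  have e : (fun x => g.G x (v x)) = fun x => ext (rmat (g.A x)) (v x) := by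
    funext x; exact g.G_ext x _
  rw [e]; exact h

theorem sm_Gi {v : X → E} (hv : LSm hπ ⊤ v) : LSm hπ ⊤ (fun x => g.Gi x (v x)) := by
  have h := LSm.ext_rmat g.smAi hv
  have e : (fun x => g.Gi x (v x)) = fun x => ext (rmat (g.Ai x)) (v x) := by
    funext x; exact g.Gi_ext x _
  rw [e]; exact h

theorem sm_det : LSm hπ ⊤ g.det :=
  (g.sm_G (LSm.const hπ ⊤ (mono Finset.univ))).linear hπ top

theorem top_pow (x : X) : top (w x ^ 5) = 120 * g.det x := by
  have h : w x ^ 5 = g.G x (om ^ 5) := by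
    have h2 : ∀ a : E, g.G x (a ^ 5) = g.G x a ^ 5 := fun a => by
      rw [G_ext, G_ext, map_pow]
    rw [h2, g.map_om]
  rw [h, top_G, top_om_pow_five, mul_comm]

end Gauge

end EH
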