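import Pool.Agent.Work.MP_9eee85_co.EH.Hodge
import Pool.Agent.Work.MP_9eee85_co.EH.E2

/-!
# The Hodge-Riemann relations, without hypotheses
-/

namespace EH

theorem hfacts : HFacts where
  e2 := e2facts
  JJ := J_J
  J_norm := norm_J
  J_mem := fun _ _ h => J_mem h
  star_star := star_star
  star_mem := fun k a h => by
    rcases Nat.lt_or_ge 10 k with hk | hk
    · rw [eq_zero_of_Deg hk h, map_zero]
      exact Submodule.zero_mem _
    · exact star_mem (by omega) h

theorem hr1_proved : HR1Stmt := hr1Stmt hfacts

theorem hr2_proved : HR2Stmt := hr2Stmt hfacts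

end EH
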