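import Pool.Agent.Work.MP_9eee85_co.EH.GInt
import Pool.Agent.Work.MP_9eee85_co.EH.GCalc
import Pool.Agent.Work.MP_9eee85_co.EH.HodgeFin

/-!
The Hodge-Riemann relations of a family of holomorphic functions.
-/

noncomputable section

namespace EH

open MeasureTheory Filter Topology Set EHPos
open scoped ContDiff

/-- the Hodge-Riemann relations of the abstract Hodge calculus, file Hodge.lean -/
theorem hr1_stmt : HR1Stmt := hr1_proved

theorem hr2_stmt : HR2Stmt := hr2_proved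

section

variable {X : Type} [TopologicalSpace X] [T2Space X] [SecondCountableTopology X]
  [MeasurableSpace X] [BorelSpace X] {π : X → Bs} {hπ : IsLocalHomeomorph π} {ν : Measure X}

omit [T2Space X] [SecondCountableTopology X] [MeasurableSpace X] [BorelSpace X] in
theorem Gauge.Gi_pow {w : X → E} (g : Gauge hπ w) (x : X) (a : E) (n : ℕ) :
    g.Gi x (a ^ n) = g.Gi x a ^ n := by
  rw [g.Gi_ext, g.Gi_ext, map_pow]

/-- the pairing with an exact form, in the gauge -/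
theorem Gauge.integral_dG {w : X → E} (g : Gauge hπ w) (v α : X → E) :
    ∫ x, top (g.Gi x (v x) * g.dG α x) ∂(g.mu ν) =
      ∫ x, top (v x * dX hπ (fun y => g.G y (α y)) x) ∂ν := by
  rw [← g.integral_top (ν := ν)]
  refine integral_congr_ae (Eventually.of_forall fun x => ?_)
  simp only [Gauge.dG, g.Gi_mul]

/-- Hodge-Riemann in degree two for a Kaehler form -/
theorem KForm.hr1 [PreconnectedSpace X] (K : KForm hπ ν) (g : Gauge hπ K.w) {D : X → E}
    (hD : IsU g ν D) :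
    (∫ x, top (K.w x ^ 5) ∂ν) * (∫ x, top (K.w x ^ 3 * D x * D x) ∂ν) ≤
      (∫ x, top (K.w x ^ 4 * D x) ∂ν) ^ 2 := by
  obtain ⟨C, hC, hd⟩ := exists_calc K g
  have := K.finite_mu g
  have h := hr1_stmt (g.mu ν) C (fun x => g.Gi x (D x))
    ⟨hD.l2, fun x => g.Gi_deg (hD.deg x) x, fun x => by rw [← g.Gi_J, hD.inv]⟩ (fun α => by
      simp only [hd]
      rw [g.integral_dG]
      exact hD.closed _ (g.G_tst ((hC _).1 α.2)))
  have e1 : ∫ _x : X, top (om ^ 5) ∂(g.mu ν) = ∫ x, top (K.w x ^ 5) ∂ν := by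
    rw [← g.integral_top (ν := ν)]
    simp only [g.Gi_pow, g.Gi_w]
  have e2 : ∫ x, top (om ^ 3 * g.Gi x (D x) * g.Gi x (D x)) ∂(g.mu ν) =
      ∫ x, top (K.w x ^ 3 * D x * D x) ∂ν := by
    rw [← g.integral_top (ν := ν)]
    simp only [g.Gi_mul, g.Gi_pow, g.Gi_w]
  have e3 : ∫ x, top (om ^ 4 * g.Gi x (D x)) ∂(g.mu ν) = ∫ x, top (K.w x ^ 4 * D x) ∂ν := by
    rw [← g.integral_top (ν := ν)]
    simp only [g.Gi_mul, g.Gi_pow, g.Gi_w]
  rwa [e1, e2, e3] at h

/-- Hodge-Riemann in degree four for a Kaehler form -/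
theorem KForm.hr2 [PreconnectedSpace X] (K : KForm hπ ν) (g : Gauge hπ K.w) {φ : X → E}
    (hdeg : ∀ x, φ x ∈ Deg 4) (hinv : ∀ x, J (φ x) = φ x) (hL : g.L2 ν φ)
    (hcl : WClosed hπ ν φ) :
    ∃ u : X → E, MemLp u 2 (g.mu ν) ∧ IsU g ν (fun x => g.G x (u x)) ∧
      (∫ x, top (K.w x ^ 2 * φ x * g.G x (u x)) ∂ν = -6 * ∫ x, ‖u x‖ ^ 2 ∂(g.mu ν)) ∧
      (-6 * ∫ x, ‖u x‖ ^ 2 ∂(g.mu ν) ≤ ∫ x, top (K.w x * φ x * φ x) ∂ν) := by
  obtain ⟨C, hC, hd⟩ := exists_calc K g
  have := K.finite_mu g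
  obtain ⟨u, hu, hcu, -, -, h1, h2⟩ := hr2_stmt (g.mu ν) C (fun x => g.Gi x (φ x))
    ⟨hL, fun x => g.Gi_deg (hdeg x) x, fun x => by rw [← g.Gi_J, hinv]⟩ (fun α => by
      simp only [hd]
      rw [g.integral_dG]
      exact hcl _ (g.G_tst ((hC _).1 α.2)))
  refine ⟨u, hu.memLp, ⟨fun x => g.G_deg (hu.deg x) x, fun x => by rw [← g.G_J, hu.inv], ?_, ?_⟩,
    ?_, ?_⟩
  · have e : (fun x => g.Gi x (g.G x (u x))) = u := funext fun x => g.Gi_G x (u x)
    rw [Gauge.L2, e]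
    exact hu.memLp
  · intro α hα
    have h3 := hcu ⟨fun x => g.Gi x (α x), (hC _).2 (g.Gi_tst hα)⟩
    simp only [hd] at h3
    have e1 : ∫ x, top (u x * g.dG (fun y => g.Gi y (α y)) x) ∂(g.mu ν) =
        ∫ x, top (g.Gi x (g.G x (u x)) * g.dG (fun y => g.Gi y (α y)) x) ∂(g.mu ν) := by
      simp only [g.Gi_G]
    rw [e1, g.integral_dG] at h3
    simpa only [g.G_Gi] using h3
  · rw [← h1, ← g.integral_top (ν := ν)]
    simp only [g.Gi_mul, g.Gi_pow, g.Gi_w, g.Gi_G]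
  · refine h2.trans_eq ?_
    rw [← g.integral_top (ν := ν)]
    simp only [g.Gi_mul, g.Gi_w]

end

section

variable {X : Type} [TopologicalSpace X] [T2Space X] [SecondCountableTopology X]
  [MeasurableSpace X] [BorelSpace X] [PreconnectedSpace X] {π : X → Bs}
  {hπ : IsLocalHomeomorph π} {ν : Measure X} {J : Type} [Fintype J]
  (A : Fam hπ ν J) {ι : Type} [Fintype ι] (e : ι → J)

/-- Hodge-Riemann in degree two -/
theorem Fam.hr1 {w : Option ι → ℝ} (hw : ∀ i, 0 ≤ w i) (h0 : 0 < w none) {D : X → E}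
    (hD : IsU A.g0 ν D) :
    (∫ x, top (A.omW e w x ^ 5) ∂ν) * (∫ x, top (A.omW e w x ^ 3 * D x * D x) ∂ν) ≤
      (∫ x, top (A.omW e w x ^ 4 * D x) ∂ν) ^ 2 := by
  obtain ⟨K, hK⟩ := A.exists_kform e hw h0
  obtain ⟨g⟩ := exists_gauge K.sm K.pos
  have h := A.isU_iff e hw h0
  rw [← hK] at h ⊢
  exact K.hr1 g ((h g D).2 hD)

omit [PreconnectedSpace X] in
theorem Fam.smul_th_below {w : Option ι → ℝ} (hw : ∀ i, 0 ≤ w i) (i : ι) :
    Below (A.omW e w) (fun x => w none • A.th (some (e i)) x) := by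
  intro x
  refine ⟨smul_mem ic (hw none) (A.th_cone _ x), ?_⟩
  have : A.omW e w x - w none • A.th (some (e i)) x =
      w none • (A.th none x - A.th (some (e i)) x) + ∑ j, w (some j) • A.th (some (e j)) x := by
    rw [Fam.omW, Fintype.sum_option, smul_sub]
    exact add_sub_right_comm _ _ _
  rw [this]
  exact add_mem (smul_mem ic (hw none) (A.th_le _ x).2)
    (sum_mem fun j _ => smul_mem ic (hw _) (A.th_cone _ x))

/-- Hodge-Riemann in degree four -/
theorem Fam.hr2 {w : Option ι → ℝ} (hw : ∀ i, 0 ≤ w i) (h0 : 0 < w none) (c : ι → ι → ℝ) :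
    ∃ (g : Gauge hπ (A.omW e w)) (u : X → E), MemLp u 2 (g.mu ν) ∧
      IsU g ν (fun x => g.G x (u x)) ∧
      (∫ x, top (A.omW e w x ^ 2 * (∑ i, ∑ j, c i j • (A.th (some (e i)) x *
        A.th (some (e j)) x)) * g.G x (u x)) ∂ν = -6 * ∫ x, ‖u x‖ ^ 2 ∂(g.mu ν)) ∧
      (-6 * ∫ x, ‖u x‖ ^ 2 ∂(g.mu ν) ≤ ∫ x, top (A.omW e w x *
        (∑ i, ∑ j, c i j • (A.th (some (e i)) x * A.th (some (e j)) x)) *
        (∑ i, ∑ j, c i j • (A.th (some (e i)) x * A.th (some (e j)) x))) ∂ν) := by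
  obtain ⟨K, hK⟩ := A.exists_kform e hw h0
  have hb : ∀ i, Below K.w (fun x => w none • A.th (some (e i)) x) := by
    rw [hK]
    exact A.smul_th_below e hw
  rw [← hK]
  obtain ⟨g⟩ := exists_gauge K.sm K.pos
  have hsm : ∀ i j, LSm hπ ⊤ (fun x => A.th (some (e i)) x * A.th (some (e j)) x) := fun i j =>
    LSm.mulE hπ (A.sm_th _) (A.sm_th _)
  have hdeg : ∀ i j x, A.th (some (e i)) x * A.th (some (e j)) x ∈ Deg 4 := fun i j x =>
    mul_mem_Deg (cone_deg (A.th_cone _ x)) (cone_deg (A.th_cone _ x))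
  have hinv : ∀ i j x, EH.J (A.th (some (e i)) x * A.th (some (e j)) x) =
      A.th (some (e i)) x * A.th (some (e j)) x := fun i j x => by
    rw [J_mul, cone_J (A.th_cone _ x), cone_J (A.th_cone _ x)]
  have hL : ∀ i j, g.L2 ν (fun x => A.th (some (e i)) x * A.th (some (e j)) x) := by
    intro i j
    have h1 := K.L2_mul_of_below g
      (LSm.smul hπ (LSm.const hπ ⊤ (w none)) (A.sm_th (some (e i))))
      (LSm.smul hπ (LSm.const hπ ⊤ (w none)) (A.sm_th (some (e j)))) (hb i) (hb j)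
    have h2 := MemLp.const_smul h1 ((w none)⁻¹ * (w none)⁻¹)
    have h3 : ((w none)⁻¹ * (w none)⁻¹) • (fun x => g.Gi x ((w none • A.th (some (e i)) x) *
        (w none • A.th (some (e j)) x))) =
        fun x => g.Gi x (A.th (some (e i)) x * A.th (some (e j)) x) := by
      funext x
      rw [Pi.smul_apply, smul_mul_smul_comm, map_smul, smul_smul]
      have : (w none)⁻¹ * (w none)⁻¹ * (w none * w none) = 1 := by
        field_simp
      rw [this, one_smul]
    rw [h3] at h2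
    exact h2
  have hcl : ∀ i j x, dX hπ (fun x => A.th (some (e i)) x * A.th (some (e j)) x) x = 0 := by
    intro i j x
    rw [dX_mul hπ ((A.sm_th _).mono hπ le_top) ((A.sm_th _).mono hπ le_top)
      (fun y => cone_deg (A.th_cone _ y)), A.th_closed, A.th_closed]
    simp
  refine ⟨g, K.hr2 g ?_ ?_ ?_ ?_⟩
  · intro x
    exact sum_mem fun i _ => sum_mem fun j _ => Submodule.smul_mem _ _ (hdeg i j x)
  · intro x
    simp only [map_sum, map_smul, hinv]
  · rw [Gauge.L2]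
    simp only [map_sum, map_smul]
    exact memLp_finsetSum _ fun i _ => memLp_finsetSum _ fun j _ =>
      MemLp.const_smul (hL i j) (c i j)
  · refine WClosed.of_smooth A.lift (k := 4) ?_ ?_ ?_
    · exact LSm.sum hπ fun i _ => LSm.sum hπ fun j _ =>
        LSm.smul hπ (LSm.const hπ ⊤ (c i j)) (hsm i j)
    · intro x
      exact sum_mem fun i _ => sum_mem fun j _ => Submodule.smul_mem _ _ (hdeg i j x)
    · intro x
      have h1 : ∀ i j, LSm hπ 1 (fun x => A.th (some (e i)) x * A.th (some (e j)) x) :=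
        fun i j => (hsm i j).mono hπ le_top
      have h2 : ∀ i j, LSm hπ 1 (fun x => c i j • (A.th (some (e i)) x * A.th (some (e j)) x)) :=
        fun i j => LSm.smul hπ (LSm.const hπ 1 (c i j)) (h1 i j)
      rw [dX_sum hπ (fun i _ => LSm.sum hπ fun j _ => h2 i j)]
      refine Finset.sum_eq_zero fun i _ => ?_
      rw [dX_sum hπ (fun j _ => h2 i j)]
      refine Finset.sum_eq_zero fun j _ => ?_
      rw [dX_const_smul hπ _ (h1 i j), hcl, smul_zero]

end

end EH
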