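import Pool.Agent.Work.MP_9eee85_co.EH.GMass

/-!
The Kaehler forms of a family.
-/

noncomputable section

namespace EH

open MeasureTheory Filter Topology Set EHPos
open scoped ContDiff

variable {X : Type} [TopologicalSpace X] [T2Space X] [SecondCountableTopology X]
  [MeasurableSpace X] [BorelSpace X] {π : X → Bs} {hπ : IsLocalHomeomorph π} {ν : Measure X}
  {J : Type} [Fintype J]

/-- the Kaehler forms of a family -/
theorem Fam.exists_kform (A : Fam hπ ν J) {ι : Type} [Fintype ι]
    (e : ι → J) {w : Option ι → ℝ} (hw : ∀ i, 0 ≤ w i) (h0 : 0 < w none) :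
    ∃ K : KForm hπ ν, K.w = A.omW e w := by
  -- the form dominates `w none` times the complete form
  have hge : ∀ x, A.omW e w x - w none • omP hπ A.g x ∈ cone ic := by
    intro x
    have h1 : A.omW e w x = ∑ i, w (some i) • A.th ((some i).map e) x +
        w none • omP hπ A.g x := by
      rw [Fam.omW, Fintype.sum_option, add_comm]
      rfl
    rw [h1, add_sub_cancel_right]
    exact sum_mem fun i _ => smul_mem ic (hw (some i)) (A.th_cone ((some i).map e) x)
  refine ⟨{
    lift := A.lift
    w := A.omW e w
    sm := A.sm_omW' e w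
    closed := A.omW_closed e w
    mem := A.omW_cone e hw
    pos := ?_
    rho := fun x => Real.log (1 + ∑ j, psi (A.g j) x)
    smrho := sm_rho A.hol
    proper := ?_
    c := w none
    c_pos := h0
    complete := ?_
    fin := ?_ }, rfl⟩
  · intro x
    obtain ⟨c, hc, h⟩ := sum_theta_pos (hπ := hπ) (z := fun k => A.g (A.z k)) A.gz x
    refine ⟨w none * (4 * Real.pi / 5) * c, by positivity, ?_⟩
    have h1 := A.omP_sub_sum_z x
    have e1 : A.omW e w x - (w none * (4 * Real.pi / 5) * c) • om =
        (A.omW e w x - w none • omP hπ A.g x) +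
        w none • (omP hπ A.g x - (4 * Real.pi / 5) • ∑ k : Fin 5, theta hπ (A.g (A.z k)) x) +
        (w none * (4 * Real.pi / 5)) • (∑ k : Fin 5, theta hπ (A.g (A.z k)) x - c • om) := by
      module
    rw [e1]
    exact add_mem (add_mem (hge x) (smul_mem ic h0.le h1))
      (smul_mem ic (by positivity) h)
  · intro c
    have e1 : {x : X | Real.log (1 + ∑ j, psi (A.g j) x) ≤ c} =
        {x : X | ∑ j, psi (A.g j) x ≤ Real.exp c - 1} := by
      ext x
      have h1 : 0 < 1 + ∑ j, psi (A.g j) x := by
        have : 0 ≤ ∑ j, psi (A.g j) x := Finset.sum_nonneg fun j _ => psi_nonneg _ x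
        linarith
      show Real.log (1 + ∑ j, psi (A.g j) x) ≤ c ↔ ∑ j, psi (A.g j) x ≤ Real.exp c - 1
      rw [Real.log_le_iff_le_exp h1]
      constructor <;> intro h <;> linarith
    rw [e1]
    exact A.proper _
  · intro x
    have h1 := omP_complete A.hol x
    have e1 : A.omW e w x - w none • (dfn hπ (fun y => Real.log (1 + ∑ j, psi (A.g j) y)) x *
        dcfn hπ (fun y => Real.log (1 + ∑ j, psi (A.g j) y)) x) =
        (A.omW e w x - w none • omP hπ A.g x) +
        w none • (omP hπ A.g x - dfn hπ (fun y => Real.log (1 + ∑ j, psi (A.g j) y)) x *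
        dcfn hπ (fun y => Real.log (1 + ∑ j, psi (A.g j) y)) x) := by
      module
    show A.omW e w x - w none • (dfn hπ (fun y => Real.log (1 + ∑ j, psi (A.g j) y)) x *
        dcfn hπ (fun y => Real.log (1 + ∑ j, psi (A.g j) y)) x) ∈ cone ic
    rw [e1]
    exact add_mem (hge x) (smul_mem ic h0.le h1)
  · have h1 := A.integrable_prod5 A.integrable_th e (fun _ => w)
    have e1 : (fun x => top (A.omW e w x ^ 5)) =
        fun x => top (EH.prod5 fun _ : Fin 5 => A.omW e w x) := by
      funext x; rw [pow5_eq_prod5]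
    rw [e1]
    exact h1

end EH
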