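import Pool.Agent.Work.MP_9eee85_co.EH.GComp

/-!
Square integrability and integrability of products.
-/

noncomputable section

namespace EH

open MeasureTheory Filter Topology Set EHPos
open scoped ContDiff

variable {X : Type} [TopologicalSpace X] [T2Space X] [SecondCountableTopology X]
  [MeasurableSpace X] [BorelSpace X] {π : X → Bs} {hπ : IsLocalHomeomorph π} {ν : Measure X}

omit [T2Space X] [SecondCountableTopology X] [MeasurableSpace X] [BorelSpace X] in
/-- a form at most `w` is between `0` and `om` in the gauge -/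
theorem Gauge.unit1_Gi {w : X → E} (g : Gauge hπ w) {N : X → E} (h : Below w N) (x : X) :
    Unit1 (g.Gi x (N x)) := by
  refine ⟨g.Gi_cone (h x).1 x, ?_⟩
  have h2 := g.Gi_cone (h x).2 x
  rwa [map_sub, g.Gi_w] at h2

omit [T2Space X] [SecondCountableTopology X] in
/-- smooth forms are measurable in the gauge -/
theorem Gauge.aesm_Gi {w : X → E} (g : Gauge hπ w) {N : X → E} (m : LSm hπ ⊤ N)
    (μ : Measure X) : AEStronglyMeasurable (fun x => g.Gi x (N x)) μ :=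
  ((g.sm_Gi m).continuous hπ).aestronglyMeasurable

omit [TopologicalSpace X] [T2Space X] [SecondCountableTopology X] [BorelSpace X] in
theorem aesm_mulE {μ : Measure X} {a b : X → E} (ha : AEStronglyMeasurable a μ)
    (hb : AEStronglyMeasurable b μ) : AEStronglyMeasurable (fun x => a x * b x) μ :=
  continuous_mulE.comp_aestronglyMeasurable (ha.prodMk hb)

omit [TopologicalSpace X] [T2Space X] [SecondCountableTopology X] [BorelSpace X] in
theorem aesm_topE {μ : Measure X} {a : X → E} (ha : AEStronglyMeasurable a μ) :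
    AEStronglyMeasurable (fun x => top (a x)) μ :=
  (LinearMap.continuous_of_finiteDimensional top).comp_aestronglyMeasurable ha

/-- products of forms at most `w` with square integrable forms are integrable -/
theorem KForm.integrable_mul (K : KForm hπ ν) (g : Gauge hπ K.w) {N₁ N₂ N₃ : X → E}
    (m₁ : LSm hπ ⊤ N₁) (m₂ : LSm hπ ⊤ N₂) (m₃ : LSm hπ ⊤ N₃)
    (h₁ : Below K.w N₁) (h₂ : Below K.w N₂) (h₃ : Below K.w N₃) {D D' : X → E}
    (hD : g.L2 ν D) (hD' : g.L2 ν D') :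
    Integrable (fun x => top (N₁ x * N₂ x * N₃ x * D x * D' x)) ν := by
  obtain ⟨C, hC, hb, -⟩ := exists_pt_bound
  rw [← g.integrable_top]
  have hG : ∀ x, g.Gi x (N₁ x * N₂ x * N₃ x * D x * D' x) =
      g.Gi x (N₁ x) * g.Gi x (N₂ x) * g.Gi x (N₃ x) * g.Gi x (D x) * g.Gi x (D' x) := by
    intro x; simp only [g.Gi_mul]
  simp only [hG]
  have hDD : Integrable (fun x => C * (‖g.Gi x (D x)‖ * ‖g.Gi x (D' x)‖)) (g.mu ν) :=
    (MemLp.integrable_mul (p := 2) (q := 2) hD.norm hD'.norm).const_mul C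
  refine hDD.mono' ?_ (Eventually.of_forall fun x => ?_)
  · exact aesm_topE (aesm_mulE (aesm_mulE (aesm_mulE (aesm_mulE (g.aesm_Gi m₁ _)
      (g.aesm_Gi m₂ _)) (g.aesm_Gi m₃ _)) hD.aestronglyMeasurable) hD'.aestronglyMeasurable)
  · rw [Real.norm_eq_abs, ← mul_assoc]
    exact hb _ _ _ (g.unit1_Gi h₁ x) (g.unit1_Gi h₂ x) (g.unit1_Gi h₃ x) _ _

/-- smooth forms at most `w` are square integrable, and so are their products -/
theorem KForm.L2_of_below (K : KForm hπ ν) (g : Gauge hπ K.w) {N : X → E} (m : LSm hπ ⊤ N)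
    (h : Below K.w N) : g.L2 ν N := by
  obtain ⟨C, hC, -, -, -, hb⟩ := exists_pt_bound
  haveI := K.finite_mu g
  exact MemLp.of_bound (g.aesm_Gi m _) C (Eventually.of_forall fun x => hb _ (g.unit1_Gi h x))

theorem KForm.L2_mul_of_below (K : KForm hπ ν) (g : Gauge hπ K.w) {N N' : X → E}
    (m : LSm hπ ⊤ N) (m' : LSm hπ ⊤ N') (h : Below K.w N) (h' : Below K.w N') :
    g.L2 ν (fun x => N x * N' x) := by
  obtain ⟨C, hC, -, -, hb, -⟩ := exists_pt_bound
  haveI := K.finite_mu g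
  have hG : ∀ x, g.Gi x (N x * N' x) = g.Gi x (N x) * g.Gi x (N' x) := fun x => g.Gi_mul x _ _
  refine MemLp.of_bound (C := C) ?_ (Eventually.of_forall fun x => ?_)
  · simp only [hG]
    exact aesm_mulE (g.aesm_Gi m _) (g.aesm_Gi m' _)
  · rw [hG]
    exact hb _ _ (g.unit1_Gi h x) (g.unit1_Gi h' x)

/-- the volume through the form -/
theorem KForm.mu_univ (K : KForm hπ ν) (g : Gauge hπ K.w) :
    120 * (g.mu ν).real univ = ∫ x, top (K.w x ^ 5) ∂ν := by
  haveI := K.finite_mu g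
  rw [← g.integral_top]
  have hG : ∀ x, top (g.Gi x (K.w x ^ 5)) = 120 := by
    intro x
    rw [g.Gi_ext, map_pow, ← g.Gi_ext, g.Gi_w, top_om_pow_five]
  simp only [hG]
  rw [integral_const, smul_eq_mul, mul_comm]

omit [TopologicalSpace X] [T2Space X] [SecondCountableTopology X] [BorelSpace X] in
/-- Cauchy-Schwarz -/
theorem integral_norm_le_sqrt {μ : Measure X} [IsFiniteMeasure μ] {u : X → E} (hu : MemLp u 2 μ) :
    ∫ x, ‖u x‖ ∂μ ≤ √(∫ x, ‖u x‖ ^ 2 ∂μ) * √(μ.real univ) := by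
  have h := integral_mul_le_Lp_mul_Lq_of_nonneg (μ := μ) Real.HolderConjugate.two_two
    (f := fun x => ‖u x‖) (g := fun _ => (1 : ℝ)) (Eventually.of_forall fun x => norm_nonneg _)
    (Eventually.of_forall fun x => zero_le_one) (by simpa using hu.norm) (memLp_const _)
  simp only [mul_one, Real.one_rpow, integral_const, smul_eq_mul] at h
  rw [Real.sqrt_eq_rpow, Real.sqrt_eq_rpow]
  have h2 : ∀ x, ‖u x‖ ^ (2 : ℝ) = ‖u x‖ ^ 2 := fun x => by
    rw [← Real.rpow_natCast]; norm_num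
  simp only [h2] at h
  exact h

/-- pointwise bounds give bounds of integrals -/
theorem KForm.exists_bound : ∃ C : ℝ, 0 < C ∧ ∀ {X : Type} [TopologicalSpace X] [T2Space X]
    [SecondCountableTopology X] [MeasurableSpace X] [BorelSpace X] {π : X → Bs}
    {hπ : IsLocalHomeomorph π} {ν : Measure X} (K : KForm hπ ν) (g : Gauge hπ K.w)
    {N₁ N₂ N₃ N₄ : X → E} (_ : LSm hπ ⊤ N₁) (_ : LSm hπ ⊤ N₂) (_ : LSm hπ ⊤ N₃) (_ : LSm hπ ⊤ N₄)
    (_ : Below K.w N₁) (_ : Below K.w N₂) (_ : Below K.w N₃) (_ : Below K.w N₄) {u : X → E}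
    (_ : MemLp u 2 (g.mu ν)),
    |∫ x, top (N₁ x * N₂ x * N₃ x * g.G x (u x) * g.G x (u x)) ∂ν| ≤
        C * ∫ x, ‖u x‖ ^ 2 ∂(g.mu ν) ∧
      |∫ x, top (N₁ x * N₂ x * N₃ x * N₄ x * g.G x (u x)) ∂ν| ≤
        C * √(∫ x, ‖u x‖ ^ 2 ∂(g.mu ν)) * √(∫ x, top (K.w x ^ 5) ∂ν) := by
  obtain ⟨C, hC, hb, hb', -⟩ := exists_pt_bound
  refine ⟨C, hC, ?_⟩
  intro X _ _ _ _ _ π hπ ν K g N₁ N₂ N₃ N₄ m₁ m₂ m₃ m₄ h₁ h₂ h₃ h₄ u hu
  haveI := K.finite_mu g
  constructor
  · rw [← g.integral_top]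
    have hG : ∀ x, g.Gi x (N₁ x * N₂ x * N₃ x * g.G x (u x) * g.G x (u x)) =
        g.Gi x (N₁ x) * g.Gi x (N₂ x) * g.Gi x (N₃ x) * u x * u x := by
      intro x; simp only [g.Gi_mul, g.Gi_G]
    simp only [hG]
    have hi : Integrable (fun x => C * ‖u x‖ ^ 2) (g.mu ν) :=
      (hu.integrable_norm_pow (by norm_num)).const_mul C
    have h := norm_integral_le_of_norm_le (μ := g.mu ν) hi
      (f := fun x => top (g.Gi x (N₁ x) * g.Gi x (N₂ x) * g.Gi x (N₃ x) * u x * u x))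
      (Eventually.of_forall fun x => by
        rw [Real.norm_eq_abs]
        refine (hb _ _ _ (g.unit1_Gi h₁ x) (g.unit1_Gi h₂ x) (g.unit1_Gi h₃ x) _ _).trans_eq ?_
        ring)
    rwa [integral_const_mul, Real.norm_eq_abs] at h
  · rw [← g.integral_top]
    have hG : ∀ x, g.Gi x (N₁ x * N₂ x * N₃ x * N₄ x * g.G x (u x)) =
        g.Gi x (N₁ x) * g.Gi x (N₂ x) * g.Gi x (N₃ x) * g.Gi x (N₄ x) * u x := by
      intro x; simp only [g.Gi_mul, g.Gi_G]
    simp only [hG]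
    have hi : Integrable (fun x => C * ‖u x‖) (g.mu ν) :=
      ((hu.integrable (by norm_num)).norm).const_mul C
    have h := norm_integral_le_of_norm_le (μ := g.mu ν) hi
      (f := fun x => top (g.Gi x (N₁ x) * g.Gi x (N₂ x) * g.Gi x (N₃ x) * g.Gi x (N₄ x) * u x))
      (Eventually.of_forall fun x => by
        rw [Real.norm_eq_abs]
        exact hb' _ _ _ _ (g.unit1_Gi h₁ x) (g.unit1_Gi h₂ x) (g.unit1_Gi h₃ x)
          (g.unit1_Gi h₄ x) _)
    rw [integral_const_mul, Real.norm_eq_abs] at h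
    have hcs := integral_norm_le_sqrt hu
    have hv := K.mu_univ g
    have hv0 : 0 ≤ (g.mu ν).real univ := measureReal_nonneg
    have hle : √((g.mu ν).real univ) ≤ √(∫ x, top (K.w x ^ 5) ∂ν) := by
      apply Real.sqrt_le_sqrt
      rw [← hv]; linarith
    calc _ ≤ C * ∫ x, ‖u x‖ ∂(g.mu ν) := h
      _ ≤ C * (√(∫ x, ‖u x‖ ^ 2 ∂(g.mu ν)) * √((g.mu ν).real univ)) := by gcongr
      _ ≤ C * (√(∫ x, ‖u x‖ ^ 2 ∂(g.mu ν)) * √(∫ x, top (K.w x ^ 5) ∂ν)) := by gcongr
      _ = _ := by ring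

end EH
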