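import Mathlib

/-!
The joint between the analytic half and the algebraic half: the quantitative Kaehler package of a
finite family of functions `f i`, `i : ι`, on a field of transcendence degree five over `ℂ`.

`θ (some i)` is the class of the closed `(1,1)` form `theta_{f i}` (whose square is zero),
`θ none` the class of the complete metric form `omega_P`. `T i j k D D'` is the integral of
`theta_i theta_j theta_k D D'`. `mix T a b c` is the form `theta_a theta_b theta_c` for the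
combinations `theta_a = ∑ a i theta_i`.
-/

namespace EH

open Module

/-- the combination `∑ w i • θ i` -/
noncomputable def comb {κ U : Type*} [Fintype κ] [AddCommGroup U] [Module ℝ U] (θ : κ → U)
    (w : κ → ℝ) : U := ∑ i, w i • θ i

/-- the bilinear form `∑ a i * b j * c k * T i j k` -/
noncomputable def mix {κ U : Type*} [Fintype κ] [AddCommGroup U] [Module ℝ U]
    (T : κ → κ → κ → U →ₗ[ℝ] U →ₗ[ℝ] ℝ) (a b c : κ → ℝ) : U →ₗ[ℝ] U →ₗ[ℝ] ℝ :=
  ∑ i, ∑ j, ∑ k, (a i * b j * c k) • T i j k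

/-- the quantitative Kaehler package: `deg t` is the number of the five classes `t 0, …, t 4`, and
`C` is a constant (an absolute one in the application). -/
structure QKP (ι : Type) [Fintype ι] (deg : (Fin 5 → ι) → ℝ) (C : ℝ) where
  /-- closed square integrable real `(1,1)` forms -/
  U : Type
  [acg : AddCommGroup U]
  [mod : Module ℝ U]
  /-- the classes -/
  θ : Option ι → U
  /-- the forms -/
  T : Option ι → Option ι → Option ι → U →ₗ[ℝ] U →ₗ[ℝ] ℝ
  swap12 : ∀ i j k, T i j k = T j i k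
  swap23 : ∀ i j k, T i j k = T i k j
  symm : ∀ i j k D D', T i j k D D' = T i j k D' D
  exch : ∀ i j k l D, T i j k (θ l) D = T i j l (θ k) D
  sq : ∀ (i : ι) (j : Option ι), T (some i) (some i) j = 0
  num : ∀ t : Fin 5 → ι,
    T (some (t 0)) (some (t 1)) (some (t 2)) (θ (some (t 3))) (θ (some (t 4))) = deg t
  /-- Hodge-Riemann in degree two: `(∫ ω^4 D)^2 ≥ (∫ ω^5) (∫ ω^3 D^2)` -/
  hr1 : ∀ w : Option ι → ℝ, (∀ i, 0 < w i) → ∀ D : U,
    mix T w w w (comb θ w) (comb θ w) * mix T w w w D D ≤ (mix T w w w (comb θ w) D) ^ 2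
  /-- Hodge-Riemann in degree four, for `φ = ∑ c i j θ i θ j`: `∫ ω^2 φ u = -ν^2`,
  `∫ ω φ^2 ≥ -ν^2` and the two bounds for combinations of classes between `0` and `ω` -/
  hr2 : ∀ w : Option ι → ℝ, (∀ i, 0 < w i) → ∀ c : ι → ι → ℝ, ∃ (u : U) (ν : ℝ), 0 ≤ ν ∧
    (∑ k, ∑ l, ∑ i, ∑ j, (w k * w l * c i j) * T k l (some i) (θ (some j)) u = -ν ^ 2) ∧
    (-ν ^ 2 ≤ ∑ m, ∑ i, ∑ j, ∑ k, ∑ l, (w m * c i j * c k l) *
      T m (some i) (some j) (θ (some k)) (θ (some l))) ∧
    (∀ a b c : Option ι → ℝ, (∀ i, 0 ≤ a i ∧ a i ≤ w i) → (∀ i, 0 ≤ b i ∧ b i ≤ w i) →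
      (∀ i, 0 ≤ c i ∧ c i ≤ w i) → |mix T a b c u u| ≤ C * ν ^ 2) ∧
    (∀ a b c d : Option ι → ℝ, (∀ i, 0 ≤ a i ∧ a i ≤ w i) → (∀ i, 0 ≤ b i ∧ b i ≤ w i) →
      (∀ i, 0 ≤ c i ∧ c i ≤ w i) → (∀ i, 0 ≤ d i ∧ d i ≤ w i) →
      |mix T a b c (comb θ d) u| ≤ C * ν * √(mix T w w w (comb θ w) (comb θ w)))

attribute [instance] QKP.acg QKP.mod

/-- THE JOINT: what the analytic half proves and the algebraic half uses. The degree of five
functions is `[F : ℂ(f_1, …, f_5)]` (zero if it is not finite). The hypothesis on `F` is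
`EurHuh.FnField ℂ F 5`. -/
def QKPTheorem : Prop :=
  ∃ C : ℝ, ∀ (F : Type) [Field F] [Algebra ℂ F],
    (∃ x : Fin 5 → F, AlgebraicIndependent ℂ x ∧
      FiniteDimensional (IntermediateField.adjoin ℂ (Set.range x)) F) →
    ∀ (ι : Type) [Fintype ι] (f : ι → F),
      Nonempty (QKP ι (fun t => (finrank (IntermediateField.adjoin ℂ
        (Set.range fun j => f (t j))) F : ℝ)) C)

end EH
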