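import Pool.Agent.Work.MP_9eee85_co.EH.GU
import Pool.Agent.Work.MP_9eee85_co.EH.GL2
import Pool.Agent.Work.MP_9eee85_co.EH.GKForm
import Pool.Agent.Work.MP_9eee85_co.EH.GExG
import Pool.Agent.Work.MP_9eee85_co.EH.QKPDefs
import Pool.Agent.Work.MP_9eee85_co.EH.LCalc

/-!
The bilinear forms `T i j k` of a family, and their combinations.
-/

noncomputable section

namespace EH

open MeasureTheory Filter Topology Set EHPos
open scoped ContDiff

variable {X : Type} [TopologicalSpace X] [T2Space X] [SecondCountableTopology X]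
  [MeasurableSpace X] [BorelSpace X] {π : X → Bs} {hπ : IsLocalHomeomorph π} {ν : Measure X}
  {J : Type} [Fintype J] (A : Fam hπ ν J)

/-- the base metric of a family: `omP` -/
theorem Fam.exists_base : ∃ K : KForm hπ ν, K.w = A.th none := by
  obtain ⟨K, hK⟩ := A.exists_kform (ι := Empty) (fun i => i.elim) (w := fun _ => 1)
    (fun _ => zero_le_one) zero_lt_one
  refine ⟨K, hK.trans ?_⟩
  funext x
  rw [Fam.omW, Fintype.sum_option, Fintype.sum_empty, add_zero, one_smul]
  rfl

/-- the base metric -/
def Fam.K0 : KForm hπ ν := A.exists_base.choose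

theorem Fam.K0_w : A.K0.w = A.th none := A.exists_base.choose_spec

/-- its gauge -/
def Fam.g0 : Gauge hπ A.K0.w := (exists_gauge A.K0.sm A.K0.pos).some

/-- the space `U` of the family -/
abbrev Fam.U : Type := USub A.lift A.g0

theorem Fam.K0_below (i : Option J) : Below A.K0.w (A.th i) := by
  rw [A.K0_w]
  exact A.th_le i

theorem Fam.isU_th (i : Option J) : IsU A.g0 ν (A.th i) where
  deg x := cone_deg (A.th_cone i x)
  inv x := cone_J (A.th_cone i x)
  l2 := A.K0.L2_of_below A.g0 (A.sm_th i) (A.K0_below i)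
  closed := WClosed.of_smooth A.lift (A.sm_th i) (fun x => cone_deg (A.th_cone i x))
    (A.th_closed i)

/-- the class of a form of the family -/
def Fam.cls (i : Option J) : A.U := ⟨A.th i, A.isU_th i⟩

@[simp] theorem Fam.cls_coe (i : Option J) : ((A.cls i : A.U) : X → E) = A.th i := rfl

/-- the integrals are well defined -/
theorem Fam.integrable_T (i j k : Option J) (D D' : A.U) :
    Integrable (fun x => top (A.th i x * A.th j x * A.th k x * (D : X → E) x * (D' : X → E) x))
      ν :=
  A.K0.integrable_mul A.g0 (A.sm_th i) (A.sm_th j) (A.sm_th k) (A.K0_below i) (A.K0_below j)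
    (A.K0_below k) (show IsU A.g0 ν _ from D.2).l2 (show IsU A.g0 ν _ from D'.2).l2

/-- the bilinear form `∫ theta_i theta_j theta_k D D'` -/
def Fam.T (i j k : Option J) : A.U →ₗ[ℝ] A.U →ₗ[ℝ] ℝ :=
  LinearMap.mk₂ ℝ
    (fun D D' => ∫ x, top (A.th i x * A.th j x * A.th k x * (D : X → E) x * (D' : X → E) x) ∂ν)
    (fun D₁ D₂ D' => by
      rw [← integral_add (A.integrable_T i j k D₁ D') (A.integrable_T i j k D₂ D')]
      refine integral_congr_ae (Eventually.of_forall fun x => ?_)
      simp only [Submodule.coe_add, Pi.add_apply, mul_add, add_mul, map_add])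
    (fun c D D' => by
      rw [smul_eq_mul, ← integral_const_mul]
      refine integral_congr_ae (Eventually.of_forall fun x => ?_)
      simp only [Submodule.coe_smul, Pi.smul_apply, mul_smul_comm, smul_mul_assoc, map_smul,
        smul_eq_mul])
    (fun D D₁ D₂ => by
      rw [← integral_add (A.integrable_T i j k D D₁) (A.integrable_T i j k D D₂)]
      refine integral_congr_ae (Eventually.of_forall fun x => ?_)
      simp only [Submodule.coe_add, Pi.add_apply, mul_add, map_add])
    (fun c D D' => by
      rw [smul_eq_mul, ← integral_const_mul]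
      refine integral_congr_ae (Eventually.of_forall fun x => ?_)
      simp only [Submodule.coe_smul, Pi.smul_apply, mul_smul_comm, map_smul, smul_eq_mul])

theorem Fam.T_apply (i j k : Option J) (D D' : A.U) : A.T i j k D D' =
    ∫ x, top (A.th i x * A.th j x * A.th k x * (D : X → E) x * (D' : X → E) x) ∂ν := rfl

variable {ι : Type} [Fintype ι] (e : ι → J)

/-- combinations of classes -/
theorem Fam.comb_coe (w : Option ι → ℝ) :
    ((comb (fun i : Option ι => A.cls (i.map e)) w : A.U) : X → E) = A.omW e w := by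
  funext x
  rw [comb, Submodule.coe_sum, Finset.sum_apply]
  rfl

/-- expansion of a product of three combinations -/
theorem sum3 {κ : Type*} [Fintype κ] (a b c : κ → ℝ) (P Q R : κ → E) (D D' : E) :
    (∑ i, a i • P i) * (∑ j, b j • Q j) * (∑ k, c k • R k) * D * D' =
      ∑ i, ∑ j, ∑ k, (a i * b j * c k) • (P i * Q j * R k * D * D') := by
  rw [Finset.sum_mul, Finset.sum_mul, Finset.sum_mul, Finset.sum_mul]
  refine Finset.sum_congr rfl fun i _ => ?_
  rw [Finset.mul_sum Finset.univ (fun j => b j • Q j), Finset.sum_mul, Finset.sum_mul,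
    Finset.sum_mul]
  refine Finset.sum_congr rfl fun j _ => ?_
  rw [Finset.mul_sum, Finset.sum_mul, Finset.sum_mul]
  refine Finset.sum_congr rfl fun k _ => ?_
  rw [smul_mul_smul_comm, smul_mul_smul_comm, smul_mul_assoc, smul_mul_assoc]

/-- combinations of the bilinear forms -/
theorem Fam.mix_apply (a b c : Option ι → ℝ) (D D' : A.U) :
    mix (fun i j k : Option ι => A.T (i.map e) (j.map e) (k.map e)) a b c D D' =
      ∫ x, top (A.omW e a x * A.omW e b x * A.omW e c x * (D : X → E) x * (D' : X → E) x) ∂ν := by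
  have h1 : mix (fun i j k : Option ι => A.T (i.map e) (j.map e) (k.map e)) a b c D D' =
      ∑ i, ∑ j, ∑ k, (a i * b j * c k) * A.T (i.map e) (j.map e) (k.map e) D D' := by
    rw [mix]
    simp only [LinearMap.sum_apply, LinearMap.smul_apply, smul_eq_mul]
  have h2 : ∀ x, top (A.omW e a x * A.omW e b x * A.omW e c x * (D : X → E) x * (D' : X → E) x) =
      ∑ i, ∑ j, ∑ k, (a i * b j * c k) * top (A.th (Option.map e i) x * A.th (Option.map e j) x *
        A.th (Option.map e k) x * (D : X → E) x * (D' : X → E) x) := by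
    intro x
    rw [Fam.omW, Fam.omW, Fam.omW, sum3]
    simp only [map_sum, map_smul, smul_eq_mul]
  have hi : ∀ i j k : Option ι, Integrable (fun x => (a i * b j * c k) *
      top (A.th (Option.map e i) x * A.th (Option.map e j) x *
        A.th (Option.map e k) x * (D : X → E) x * (D' : X → E) x)) ν := fun i j k =>
    (A.integrable_T _ _ _ D D').const_mul _
  rw [h1, integral_congr_ae (Eventually.of_forall h2), integral_finsetSum]
  · refine Finset.sum_congr rfl fun i _ => ?_
    rw [integral_finsetSum]
    · refine Finset.sum_congr rfl fun j _ => ?_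
      rw [integral_finsetSum]
      · refine Finset.sum_congr rfl fun k _ => ?_
        rw [integral_const_mul]
        rfl
      · exact fun k _ => hi i j k
    · exact fun j _ => integrable_finsetSum _ fun k _ => hi i j k
  · exact fun i _ => integrable_finsetSum _ fun j _ => integrable_finsetSum _ fun k _ => hi i j k

/-- combinations between `0` and `w` are smooth and below `omW w` -/
theorem Fam.below (a w : Option ι → ℝ) (h : ∀ i, 0 ≤ a i ∧ a i ≤ w i) :
    Below (A.omW e w) (A.omW e a) := by
  intro x
  refine ⟨?_, ?_⟩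
  · exact sum_mem fun i _ => smul_mem ic (h i).1 (A.th_cone _ x)
  · have : A.omW e w x - A.omW e a x = ∑ i, (w i - a i) • A.th (Option.map e i) x := by
      rw [Fam.omW, Fam.omW, ← Finset.sum_sub_distrib]
      exact Finset.sum_congr rfl fun i _ => (sub_smul _ _ _).symm
    rw [this]
    exact sum_mem fun i _ => smul_mem ic (sub_nonneg.mpr (h i).2) (A.th_cone _ x)

theorem Fam.sm_omW (a : Option ι → ℝ) : LSm hπ ⊤ (A.omW e a) :=
  LSm.sum hπ fun i _ => LSm.smul hπ (LSm.const hπ ⊤ (a i)) (A.sm_th _)

/-- membership in `U` does not depend on the metric -/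
theorem Fam.isU_iff {w : Option ι → ℝ} (hw : ∀ i, 0 ≤ w i) (h0 : 0 < w none)
    (g : Gauge hπ (A.omW e w)) (v : X → E) : IsU g ν v ↔ IsU A.g0 ν v := by
  have c1 : ∀ x, (∑ i, w i) • A.th none x - A.omW e w x ∈ cone ic := by
    intro x
    have : (∑ i, w i) • A.th none x - A.omW e w x =
        ∑ i, w i • (A.th none x - A.th (Option.map e i) x) := by
      rw [Finset.sum_smul, Fam.omW, ← Finset.sum_sub_distrib]
      exact Finset.sum_congr rfl fun i _ => (smul_sub _ _ _).symm
    rw [this]
    exact sum_mem fun i _ => smul_mem ic (hw i) (A.th_le _ x).2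
  have c2 : ∀ x, (w none)⁻¹ • A.omW e w x - A.th none x ∈ cone ic := by
    intro x
    have : (w none)⁻¹ • A.omW e w x - A.th none x =
        (w none)⁻¹ • ∑ i, w (some i) • A.th (some (e i)) x := by
      rw [Fam.omW, Fintype.sum_option, smul_add, smul_smul, inv_mul_cancel₀ h0.ne', one_smul]
      exact add_sub_cancel_left _ _
    rw [this]
    exact smul_mem ic (inv_nonneg.mpr h0.le)
      (sum_mem fun i _ => smul_mem ic (hw _) (A.th_cone _ x))
  have hbig : ∀ {r s : ℝ} {a b : E}, r ≤ s → a ∈ cone ic → r • a - b ∈ cone ic →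
      s • a - b ∈ cone ic := by
    intro r s a b hrs ha hab
    have : s • a - b = (s - r) • a + (r • a - b) := by rw [sub_smul]; abel
    rw [this]
    exact add_mem (smul_mem ic (sub_nonneg.mpr hrs) ha) hab
  have hwc : ∀ x, A.omW e w x ∈ cone ic := fun x =>
    sum_mem fun i _ => smul_mem ic (hw i) (A.th_cone _ x)
  set r : ℝ := max (∑ i, w i) ((w none)⁻¹) with hr
  have d1 : ∀ x, r • A.K0.w x - A.omW e w x ∈ cone ic := fun x => by
    rw [A.K0_w]
    exact hbig (le_max_left _ _) (A.th_cone _ x) (c1 x)
  have d2 : ∀ x, r • A.omW e w x - A.K0.w x ∈ cone ic := fun x => by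
    rw [A.K0_w]
    exact hbig (le_max_right _ _) (hwc x) (c2 x)
  constructor
  · rintro ⟨h1, h2, h3, h4⟩
    exact ⟨h1, h2, Gauge.compare g A.g0 d1 d2 h3, h4⟩
  · rintro ⟨h1, h2, h3, h4⟩
    exact ⟨h1, h2, Gauge.compare A.g0 g d2 d1 h3, h4⟩

end EH
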