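import Pool.Agent.Work.MP_9eee85_co.EH.GThA
import Pool.Agent.Work.MP_9eee85_co.EH.LPart
import Pool.Agent.Work.MP_9eee85_co.EH.ExhB

/-!
# Finiteness of the masses of a family (EH cell, MP_9eee85_co)

With `A = ∑ psi (g j)`, `S = ∑ theta (g j)`, `D = dA dcA` the complete form is at most
`8 π S + (1 + A)⁻² D`; since `D² = 0` and `S` is closed with `ddc A = 4 π S`, the mass of
`(1 + A)⁻² D S⁴` is at most `4 π` times the mass of `S⁵` by Stokes, applied to the compactly
supported form `χ(A/R) (1 + A)⁻¹ dcA S⁴`.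
-/

set_option linter.unusedSectionVars false

noncomputable section

namespace EH.MassI

open MeasureTheory Filter Topology Set EHPos EHX EH
open scoped ContDiff

/-! ### Algebra -/

lemma add_pow_of_sq_zero {R : Type*} [Ring R] {s d : R} (h : d * s = s * d) (hd : d * d = 0)
    (n : ℕ) : (s + d) ^ (n + 1) = s ^ (n + 1) + (n + 1) • (s ^ n * d) := by
  induction n with
  | zero => simp
  | succ n ih =>
    have h1 : s ^ n * d * s = s ^ (n + 1) * d := by
      rw [mul_assoc, h, ← mul_assoc, ← pow_succ]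
    have h2 : s ^ n * d * d = 0 := by rw [mul_assoc, hd, mul_zero]
    rw [pow_succ (s + d), ih, add_mul, mul_add, mul_add, smul_mul_assoc, smul_mul_assoc, h1, h2,
      smul_zero, add_zero, ← pow_succ, add_assoc, add_comm (s ^ (n + 1) * d), ← succ_nsmul]

/-! ### The weight `χ(s / R) (1 + s)⁻¹` -/

lemma chi_antitone : Antitone chi := fun _ _ h => Real.smoothTransition.monotone (by linarith)

lemma deriv_chi_nonpos (t : ℝ) : deriv chi t ≤ 0 := chi_antitone.deriv_nonpos

/-- the weight -/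
def wG (R s : ℝ) : ℝ := chi (s / R) * (1 + s)⁻¹

/-- its derivative -/
def wG' (R s : ℝ) : ℝ := deriv chi (s / R) / R * (1 + s)⁻¹ - chi (s / R) * ((1 + s) ^ 2)⁻¹

lemma hasDerivAt_wG (R : ℝ) {s : ℝ} (hs : 0 ≤ s) : HasDerivAt (wG R) (wG' R s) s := by
  have hd : Differentiable ℝ chi :=
    (contDiff_chi (m := 1) (by norm_num)).differentiable (by norm_num)
  have h2 : HasDerivAt (fun t : ℝ => t / R) (1 / R) s := (hasDerivAt_id _).div_const R
  have h3 : HasDerivAt chi (deriv chi (s / R)) (s / R) := (hd _).hasDerivAt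
  have h4 : HasDerivAt (fun t : ℝ => chi (t / R)) (deriv chi (s / R) / R) s := by
    have h := h3.comp s h2
    rwa [mul_one_div] at h
  have h5 : HasDerivAt (fun t : ℝ => (1 + t)⁻¹) (-1 / (1 + s) ^ 2) s := by
    have h6 : HasDerivAt (fun t : ℝ => 1 + t) 1 s := (hasDerivAt_id _).const_add 1
    exact h6.fun_inv (by positivity)
  have h7 := h4.mul h5
  have e1 : wG' R s = deriv chi (s / R) / R * (1 + s)⁻¹ + chi (s / R) * (-1 / (1 + s) ^ 2) := by
    rw [wG', sub_eq_add_neg, neg_div, one_div, mul_neg]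
  rw [e1]
  exact h7

lemma contDiffAt_wG (R : ℝ) {s : ℝ} (hs : 0 ≤ s) : ContDiffAt ℝ ∞ (wG R) s := by
  have h1 : ContDiffAt ℝ ∞ (fun t : ℝ => chi (t / R)) s :=
    ((contDiff_chi (m := ∞) le_rfl).comp (contDiff_id.div_const R)).contDiffAt
  have h2 : ContDiffAt ℝ ∞ (fun t : ℝ => (1 + t)⁻¹) s :=
    ContDiffAt.inv (contDiffAt_const.add contDiffAt_id) (by positivity)
  exact h1.mul h2

lemma wG_nonneg (R : ℝ) {s : ℝ} (hs : 0 ≤ s) : 0 ≤ wG R s :=
  mul_nonneg (chi_nonneg _) (by positivity)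

lemma wG_le_one (R : ℝ) {s : ℝ} (hs : 0 ≤ s) : wG R s ≤ 1 := by
  have h1 : (1 + s)⁻¹ ≤ 1 := inv_le_one_of_one_le₀ (by linarith)
  exact mul_le_one₀ (chi_le_one _) (by positivity) h1

lemma chi_le_neg_wG' {R : ℝ} (hR : 0 < R) {s : ℝ} (hs : 0 ≤ s) :
    chi (s / R) * ((1 + s) ^ 2)⁻¹ ≤ -wG' R s := by
  have h1 : deriv chi (s / R) / R * (1 + s)⁻¹ ≤ 0 :=
    mul_nonpos_of_nonpos_of_nonneg (div_nonpos_of_nonpos_of_nonneg (deriv_chi_nonpos _) hR.le)
      (by positivity)
  rw [wG']
  linarith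

section calc1

variable {X : Type} [TopologicalSpace X] {π : X → Bs} {hπ : IsLocalHomeomorph π}

/-! ### Forms -/

lemma cov_smul' (c : ℝ) (l : Bs →L[ℝ] ℝ) : cov (c • l) = c • cov l := Thet.cov_smul c l

lemma cov_sum {ι : Type*} (s : Finset ι) (l : ι → Bs →L[ℝ] ℝ) :
    cov (∑ i ∈ s, l i) = ∑ i ∈ s, cov (l i) := by
  simp only [cov]
  rw [Finset.sum_comm]
  refine Finset.sum_congr rfl fun a _ => ?_
  rw [_root_.sum_apply, Finset.sum_smul]

lemma sm_dfn {f : X → ℝ} (hf : LSm hπ ⊤ f) : LSm hπ ⊤ (dfn hπ f) := by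
  have h : LSm hπ ⊤ (fun x => ∑ a ∈ (Finset.univ : Finset (Fin 10)), LD hπ f x (bv a) • e a) :=
    LSm.sum hπ fun a _ => (hf.LD_apply hπ (m := ⊤) le_top (bv a)).smul hπ (LSm.const hπ ⊤ (e a))
  exact h

lemma sm_dcfn {f : X → ℝ} (hf : LSm hπ ⊤ f) : LSm hπ ⊤ (dcfn hπ f) :=
  (sm_dfn hf).linear hπ Jinv

lemma dcfn_sum {ι : Type*} (s : Finset ι) {f : ι → X → ℝ} (hf : ∀ i ∈ s, LSm hπ 1 (f i)) (x : X) :
    dcfn hπ (fun y => ∑ i ∈ s, f i y) x = ∑ i ∈ s, dcfn hπ (f i) x := by
  simp only [dcfn, dfn]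
  rw [LD_sum hπ hf, cov_sum, map_sum]

lemma sm_pow {n : ℕ∞} {F : X → E} (hF : LSm hπ n F) (m : ℕ) : LSm hπ n (fun x => F x ^ m) := by
  induction m with
  | zero => simpa using LSm.const hπ n (1 : E)
  | succ m ih =>
    simp only [pow_succ]
    exact LSm.mulE hπ ih hF

lemma pow_Deg {N : E} (h : N ∈ Deg 2) (m : ℕ) : N ^ m ∈ Deg (2 * m) := by
  induction m with
  | zero => rw [pow_zero]; exact one_mem_Deg
  | succ m ih => rw [pow_succ]; exact mul_mem_Deg ih h

lemma pow_closed {F : X → E} (hF : LSm hπ 1 F) (hd : ∀ x, F x ∈ Deg 2) (hc : ∀ x, dX hπ F x = 0)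
    (m : ℕ) (x : X) : dX hπ (fun y => F y ^ m) x = 0 := by
  induction m with
  | zero => simp only [pow_zero]; exact dX_const hπ 1 x
  | succ m ih =>
    simp only [pow_succ]
    rw [dX_mul hπ (k := 2 * m) (sm_pow hF m) hF (fun y => pow_Deg (hd y) m), ih, hc, zero_mul,
      mul_zero, smul_zero, add_zero]

lemma sm_top {n : ℕ∞} {F : X → E} (hF : LSm hπ n F) : LSm hπ n (fun x => top (F x)) :=
  hF.linear hπ top

end calc1

section stokes

variable {X : Type} [TopologicalSpace X] [T2Space X] [SecondCountableTopology X]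
  [MeasurableSpace X] [BorelSpace X] {π : X → Bs} {hπ : IsLocalHomeomorph π} {ν : Measure X}

/-- Stokes for forms with compact support -/
theorem integral_top_dX (hν : IsLift π volume ν) {F : X → E} (hF : LSm hπ 1 F)
    (hc : HasCompactSupport F) : ∫ x, top (dX hπ F x) ∂ν = 0 := by
  have h1 : ∀ x, top (dX hπ F x) = ∑ a, LD hπ (fun y => (topB ∘L mulB (e a)) (F y)) x (bv a) := by
    intro x
    rw [dX, map_sum]
    refine Finset.sum_congr rfl fun a _ => ?_
    rw [LD_clm_apply hπ hF]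
    rfl
  have h2 : ∀ a, LSm hπ 1 (fun y => (topB ∘L mulB (e a)) (F y)) := fun a => hF.clm hπ _
  have h3 : ∀ a, HasCompactSupport (fun y => (topB ∘L mulB (e a)) (F y)) := fun a =>
    hc.comp_left (g := fun z : E => (topB ∘L mulB (e a)) z) (map_zero _)
  simp_rw [h1]
  rw [integral_finsetSum]
  · exact Finset.sum_eq_zero fun a _ => integral_LD_eq_zero hπ hν (h2 a) (h3 a) (bv a)
  · intro a _
    refine integrable_of_compact hπ hν ?_ ?_
    · exact ((h2 a).LD_apply hπ (m := 0) (by norm_num) (bv a)).continuous hπ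
    · exact (hasCompactSupport_LD hπ (h3 a)).comp_left (g := fun T : Bs →L[ℝ] ℝ => T (bv a))
        (by simp)

/-- compactly supported smooth forms have integrable differential -/
theorem integrable_top_dX (hν : IsLift π volume ν) {F : X → E} (hF : LSm hπ 1 F)
    (hc : HasCompactSupport F) : Integrable (fun x => top (dX hπ F x)) ν := by
  refine integrable_of_compact hπ hν ?_ ?_
  · exact (sm_top (hF.dX hπ (m := 0) (by norm_num))).continuous hπ
  · refine HasCompactSupport.intro hc.isCompact fun x hx => ?_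
    have h : dX hπ F x = 0 := by
      by_contra h
      exact hx (tsupport_dX_subset hπ F (subset_tsupport _ h))
    rw [h, map_zero]

end stokes

section main

variable {X : Type} [TopologicalSpace X] {π : X → Bs} {hπ : IsLocalHomeomorph π}
  [MeasurableSpace X] {ν : Measure X} {J : Type} [Fintype J] (A : Fam hπ ν J)

/-- the sum of the forms of the family -/
def S (x : X) : E := ∑ j, theta hπ (A.g j) x

/-- the form `dA dcA` -/
def D (x : X) : E := pair ic (wvec hπ A.g x)

lemma S_cone (x : X) : S A x ∈ cone ic := sum_mem fun j _ => theta_cone (A.g j) x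

lemma D_cone (x : X) : D A x ∈ cone ic := pair_mem ic _

lemma D_sq (x : X) : D A x * D A x = 0 := pair_sq ic_sq _

lemma D_comm (x : X) : D A x * S A x = S A x * D A x := cone_comm ic_sq (D_cone A x) (S_cone A x)

lemma sm_S : LSm hπ ⊤ (S A) := LSm.sum hπ fun j _ => (A.hol j).sm_theta

lemma S_closed (x : X) : dX hπ (S A) x = 0 := by
  have h := dX_sum hπ (s := Finset.univ) (F := fun j => theta hπ (A.g j))
    (fun j _ => (A.hol j).sm_theta.mono hπ le_top) x
  have h2 : dX hπ (S A) x = dX hπ (fun y => ∑ j, theta hπ (A.g j) y) x := rfl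
  rw [h2, h]
  exact Finset.sum_eq_zero fun j _ => (A.hol j).closed x

lemma sm_ex : LSm hπ ⊤ A.ex := LSm.sum hπ fun j _ => (A.hol j).sm_psi

lemma ex_nonneg (x : X) : 0 ≤ A.ex x := Finset.sum_nonneg fun j _ => psi_nonneg (A.g j) x

lemma D_eq (x : X) : D A x = dfn hπ A.ex x * dcfn hπ A.ex x := by
  have h1 : dfn hπ A.ex x = ic (wvec hπ A.g x) := dfn_sum_psi A.hol x
  have h2 : dcfn hπ A.ex x = ic (Complex.I • wvec hπ A.g x) := dcfn_sum_psi A.hol x
  rw [h1, h2]
  rfl

lemma sm_D : LSm hπ ⊤ (D A) := by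
  have h : D A = fun x => dfn hπ A.ex x * dcfn hπ A.ex x := funext (D_eq A)
  rw [h]
  exact LSm.mulE hπ (sm_dfn (sm_ex A)) (sm_dcfn (sm_ex A))

lemma ddc_ex (x : X) : dX hπ (dcfn hπ A.ex) x = (4 * Real.pi) • S A x := by
  have h1 : dcfn hπ A.ex = fun x => ∑ j, dcfn hπ (psi (A.g j)) x := by
    funext y
    exact dcfn_sum Finset.univ (fun j _ => (A.hol j).sm_psi.mono hπ le_top) y
  rw [h1, dX_sum hπ fun j _ => (sm_dcfn (A.hol j).sm_psi).mono hπ le_top, S, Finset.smul_sum]
  exact Finset.sum_congr rfl fun j _ => (A.hol j).ddc_psi x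

lemma dfn_Deg (f : X → ℝ) (x : X) : dfn hπ f x ∈ Deg 1 := cov_mem_Deg _

lemma dcfn_ex_Deg (x : X) : dcfn hπ A.ex x ∈ Deg 1 := by
  have h2 : dcfn hπ A.ex x = ic (Complex.I • wvec hπ A.g x) := dcfn_sum_psi A.hol x
  rw [h2]
  exact Thet.ic_mem_Deg _

/-- the mass of `S⁵` is finite -/
lemma integrable_S5 : Integrable (fun x => top (S A x ^ 5)) ν := by
  have h : ∀ x, top (S A x ^ 5) =
      ∑ t : Fin 5 → J, top (EH.prod5 fun i => theta hπ (A.g (t i)) x) := by
    intro x
    rw [pow5_eq_prod5, prod5_eq]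
    have h1 : (fun _ : Fin 5 => S A x) = fun _ : Fin 5 => ∑ j, theta hπ (A.g j) x := rfl
    rw [h1, MultilinearMap.map_sum, map_sum]
    exact Finset.sum_congr rfl fun t _ => by rw [prod5_eq]
  simp_rw [h]
  exact integrable_finsetSum _ fun t _ => A.fin t

lemma top_S5_nonneg (x : X) : 0 ≤ top (S A x ^ 5) := by
  rw [pow5_eq_prod5]
  exact top_prod5_nonneg fun _ => S_cone A x

lemma top_DS_nonneg (x : X) : 0 ≤ top (D A x * S A x ^ 4) := by
  have h := top5_nonneg (D_cone A x) (S_cone A x) (S_cone A x) (S_cone A x) (S_cone A x)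
  have e1 : D A x * S A x ^ 4 = D A x * S A x * S A x * S A x * S A x := by
    simp only [pow_succ, pow_zero, one_mul, mul_assoc]
  rw [e1]
  exact h

/-- the test form `χ(A/R) (1 + A)⁻¹ dcA S⁴` -/
def tf (R : ℝ) (x : X) : E := wG R (A.ex x) • (dcfn hπ A.ex x * S A x ^ 4)

lemma sm_wG (R : ℝ) : LSm hπ ⊤ (fun x => wG R (A.ex x)) :=
  (sm_ex A).comp_smooth hπ (fun x => contDiffAt_wG R (ex_nonneg A x))

lemma sm_tf (R : ℝ) : LSm hπ ⊤ (tf A R) :=
  (sm_wG A R).smul hπ (LSm.mulE hπ (sm_dcfn (sm_ex A)) (sm_pow (sm_S A) 4))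

lemma LD_wG (R : ℝ) (x : X) :
    LD hπ (fun y => wG R (A.ex y)) x = wG' R (A.ex x) • LD hπ A.ex x := by
  have h0 : DifferentiableAt ℝ (A.ex ∘ lsec hπ x) (π x) :=
    Exh.differentiableAt_lsec hπ (n := ⊤) le_top (sm_ex A) x
  have h1 := hasDerivAt_wG R (ex_nonneg A x)
  have h := Exh.LD_comp_real hπ h0 h1.differentiableAt
  rw [h1.deriv] at h
  exact h

lemma dX_tf (R : ℝ) (x : X) : dX hπ (tf A R) x =
    wG' R (A.ex x) • (D A x * S A x ^ 4) + (4 * Real.pi * wG R (A.ex x)) • S A x ^ 5 := by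
  have hc := (sm_dcfn (sm_ex A)).mono hπ (m := 1) le_top
  have hS := (sm_pow (sm_S A) 4).mono hπ (m := 1) le_top
  have h1 : dX hπ (tf A R) x = cov (LD hπ (fun y => wG R (A.ex y)) x) *
      (dcfn hπ A.ex x * S A x ^ 4) +
      wG R (A.ex x) • dX hπ (fun y => dcfn hπ A.ex y * S A y ^ 4) x :=
    dX_smul hπ ((sm_wG A R).mono hπ le_top) (LSm.mulE hπ hc hS) x
  have h2 : dX hπ (fun y => dcfn hπ A.ex y * S A y ^ 4) x = (4 * Real.pi) • S A x ^ 5 := by
    rw [dX_mul hπ (k := 1) hc hS (dcfn_ex_Deg A) x, ddc_ex,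
      pow_closed ((sm_S A).mono hπ le_top) (fun y => cone_deg (S_cone A y)) (S_closed A),
      mul_zero, smul_zero, add_zero, smul_mul_assoc, ← pow_succ']
  rw [h1, h2, LD_wG, cov_smul', smul_mul_assoc, ← mul_assoc, smul_smul]
  have h3 : cov (LD hπ A.ex x) * dcfn hπ A.ex x = D A x := (D_eq A x).symm
  rw [h3, mul_comm (wG R (A.ex x))]

/-- the upper bound `8 π S + (1 + A)⁻² D` of the complete form -/
def P (x : X) : E := (8 * Real.pi) • S A x + (((1 + A.ex x) ^ 2)⁻¹) • D A x

lemma P_sub_th (i : Option J) (x : X) : P A x - A.th i x ∈ cone ic := by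
  have h0 := ex_nonneg A x
  cases i with
  | none =>
    have h1 : A.th none x = (4 * Real.pi * (2 - (1 + A.ex x)⁻¹)) • S A x +
        (((1 + A.ex x) ^ 2)⁻¹) • D A x := rfl
    have h2 : P A x - A.th none x = (4 * Real.pi * (1 + A.ex x)⁻¹) • S A x := by
      rw [h1, P]
      module
    rw [h2]
    exact smul_mem ic (by positivity) (S_cone A x)
  | some j =>
    have h1 : A.th (some j) x = theta hπ (A.g j) x := rfl
    have h2 := A.sum_sub_theta j x
    have h3 : P A x - A.th (some j) x = (8 * Real.pi - 1) • S A x +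
        (((1 + A.ex x) ^ 2)⁻¹) • D A x + (S A x - theta hπ (A.g j) x) := by
      rw [h1, P]
      module
    rw [h3]
    refine add_mem (add_mem (smul_mem ic ?_ (S_cone A x)) (smul_mem ic ?_ (D_cone A x))) h2
    · linarith [Real.pi_gt_three]
    · positivity

lemma top_P5 (x : X) : top (P A x ^ 5) = (8 * Real.pi) ^ 5 * top (S A x ^ 5) +
    5 * (8 * Real.pi) ^ 4 * (((1 + A.ex x) ^ 2)⁻¹ * top (D A x * S A x ^ 4)) := by
  have hc : ∀ m : ℕ, S A x ^ m * D A x = D A x * S A x ^ m := fun m =>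
    ((show Commute (S A x) (D A x) from (D_comm A x).symm).pow_left m)
  have h1 := add_pow_of_sq_zero (s := (8 * Real.pi) • S A x)
    (d := (((1 + A.ex x) ^ 2)⁻¹) • D A x)
    (by rw [smul_mul_smul_comm, smul_mul_smul_comm, D_comm, mul_comm (8 * Real.pi)])
    (by rw [smul_mul_smul_comm, D_sq, smul_zero]) 4
  rw [P, h1, map_add, smul_pow, smul_pow, smul_mul_smul_comm, hc, map_nsmul, map_smul, map_smul]
  simp only [smul_eq_mul, nsmul_eq_mul]
  push_cast
  ring

end main

section mass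

variable {X : Type} [TopologicalSpace X] [T2Space X] [SecondCountableTopology X]
  [MeasurableSpace X] [BorelSpace X] {π : X → Bs} {hπ : IsLocalHomeomorph π} {ν : Measure X}
  {J : Type} [Fintype J] (A : Fam hπ ν J)

lemma hasCompactSupport_tf {R : ℝ} (hR : 0 < R) : HasCompactSupport (tf A R) := by
  refine HasCompactSupport.intro (A.proper (2 * R)) fun x hx => ?_
  have h1 : 2 * R < A.ex x := not_le.mp hx
  have h2 : chi (A.ex x / R) = 0 := chi_zero ((le_div_iff₀ hR).mpr h1.le)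
  rw [tf, wG, h2, zero_mul, zero_smul]

/-- the density of `(1 + A)⁻² D S⁴` -/
def den (x : X) : ℝ := ((1 + A.ex x) ^ 2)⁻¹ * top (D A x * S A x ^ 4)

lemma den_nonneg (x : X) : 0 ≤ den A x :=
  mul_nonneg (by positivity) (top_DS_nonneg A x)

lemma continuous_ex : Continuous A.ex := (sm_ex A).continuous hπ

lemma continuous_den : Continuous (den A) := by
  have h1 : Continuous fun x => top (D A x * S A x ^ 4) :=
    (sm_top (LSm.mulE hπ (sm_D A) (sm_pow (sm_S A) 4))).continuous hπ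
  have h2 : Continuous fun x => ((1 + A.ex x) ^ 2)⁻¹ :=
    ((continuous_const.add (continuous_ex A)).pow 2).inv₀ fun x => by
      have h3 := ex_nonneg A x
      have h4 : 0 < 1 + A.ex x := by linarith
      exact (pow_pos h4 2).ne'
  exact h2.mul h1

lemma integrable_chi_den {R : ℝ} (hR : 0 < R) :
    Integrable (fun x => chi (A.ex x / R) * den A x) ν := by
  refine integrable_of_compact hπ A.lift ?_ ?_
  · exact ((contDiff_chi (m := 0) (by simp)).continuous.comp
      ((continuous_ex A).div_const R)).mul (continuous_den A)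
  · refine HasCompactSupport.intro (A.proper (2 * R)) fun x hx => ?_
    have h1 : 2 * R < A.ex x := not_le.mp hx
    have h2 : chi (A.ex x / R) = 0 := chi_zero ((le_div_iff₀ hR).mpr h1.le)
    rw [h2, zero_mul]

/-- the bound of the cut off mass -/
lemma integral_chi_den_le {R : ℝ} (hR : 0 < R) :
    ∫ x, chi (A.ex x / R) * den A x ∂ν ≤ 4 * Real.pi * ∫ x, top (S A x ^ 5) ∂ν := by
  have h0 := integral_top_dX A.lift ((sm_tf A R).mono hπ (m := 1) le_top)
    (hasCompactSupport_tf A hR)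
  have hi := integrable_top_dX A.lift ((sm_tf A R).mono hπ (m := 1) le_top)
    (hasCompactSupport_tf A hR)
  have h5 := (integrable_S5 A).const_mul (4 * Real.pi)
  have h1 : ∫ x, (4 * Real.pi * top (S A x ^ 5) - top (dX hπ (tf A R) x)) ∂ν =
      4 * Real.pi * ∫ x, top (S A x ^ 5) ∂ν := by
    rw [integral_sub h5 hi, h0, sub_zero, integral_const_mul]
  rw [← h1]
  refine integral_mono (integrable_chi_den A hR) (h5.sub hi) fun x => ?_
  have hx := ex_nonneg A x
  have h2 : top (dX hπ (tf A R) x) = wG' R (A.ex x) * top (D A x * S A x ^ 4) +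
      4 * Real.pi * wG R (A.ex x) * top (S A x ^ 5) := by
    rw [dX_tf, map_add, map_smul, map_smul, smul_eq_mul, smul_eq_mul]
  have h3 := mul_le_mul_of_nonneg_right (chi_le_neg_wG' hR hx) (top_DS_nonneg A x)
  have h4 : 4 * Real.pi * wG R (A.ex x) * top (S A x ^ 5) ≤ 4 * Real.pi * top (S A x ^ 5) := by
    have := mul_le_mul_of_nonneg_right (wG_le_one R hx) (top_S5_nonneg A x)
    have hp : 0 ≤ 4 * Real.pi := by positivity
    calc 4 * Real.pi * wG R (A.ex x) * top (S A x ^ 5)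
        = 4 * Real.pi * (wG R (A.ex x) * top (S A x ^ 5)) := by ring
      _ ≤ 4 * Real.pi * (1 * top (S A x ^ 5)) := mul_le_mul_of_nonneg_left this hp
      _ = _ := by ring
  show chi (A.ex x / R) * den A x ≤ 4 * Real.pi * top (S A x ^ 5) - top (dX hπ (tf A R) x)
  rw [h2, den, ← mul_assoc]
  linarith

/-- **the mass of `(1 + A)⁻² D S⁴` is finite** -/
theorem integrable_den : Integrable (den A) ν := by
  have hm : ∀ n : ℕ, MeasurableSet {x | A.ex x ≤ (n : ℝ) + 1} := fun n =>
    (isClosed_le (continuous_ex A) continuous_const).measurableSet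
  have hcov : AECover ν atTop fun n : ℕ => {x | A.ex x ≤ (n : ℝ) + 1} := by
    refine ⟨Eventually.of_forall fun x => ?_, hm⟩
    filter_upwards [eventually_ge_atTop ⌈A.ex x⌉₊] with n hn
    have h1 : A.ex x ≤ (n : ℝ) := (Nat.le_ceil _).trans (by exact_mod_cast hn)
    show A.ex x ≤ (n : ℝ) + 1
    linarith
  have hR : ∀ n : ℕ, (0 : ℝ) < (n : ℝ) + 1 := fun n => by positivity
  have he : ∀ n : ℕ, EqOn (fun x => chi (A.ex x / ((n : ℝ) + 1)) * den A x) (den A)
      {x | A.ex x ≤ (n : ℝ) + 1} := by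
    intro n x hx
    have h1 : chi (A.ex x / ((n : ℝ) + 1)) = 1 := chi_one ((div_le_one (hR n)).mpr hx)
    show chi (A.ex x / ((n : ℝ) + 1)) * den A x = den A x
    rw [h1, one_mul]
  refine hcov.integrable_of_integral_bounded_of_nonneg_ae
    (4 * Real.pi * ∫ x, top (S A x ^ 5) ∂ν) (fun n => ?_)
    (Eventually.of_forall fun x => den_nonneg A x) (Eventually.of_forall fun n => ?_)
  · exact (integrable_chi_den A (hR n)).integrableOn.congr_fun (he n) (hm n)
  · rw [← setIntegral_congr_fun (hm n) (he n)]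
    refine (setIntegral_le_integral (integrable_chi_den A (hR n))
      (Eventually.of_forall fun x => ?_)).trans (integral_chi_den_le A (hR n))
    exact mul_nonneg (chi_nonneg _) (den_nonneg A x)

/-- **the masses of products of the forms of a family are finite** -/
theorem integrable_prod5 (t : Fin 5 → Option J) :
    Integrable (fun x => top (EH.prod5 fun i => A.th (t i) x)) ν := by
  have hb : Integrable (fun x => (8 * Real.pi) ^ 5 * top (S A x ^ 5) +
      5 * (8 * Real.pi) ^ 4 * den A x) ν :=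
    ((integrable_S5 A).const_mul _).add ((integrable_den A).const_mul _)
  have hc : Continuous fun x => top (EH.prod5 fun i => A.th (t i) x) :=
    (sm_top (LSm.prod5 fun k => A.sm_th' (t k))).continuous hπ
  refine hb.mono' hc.aestronglyMeasurable (Eventually.of_forall fun x => ?_)
  have h1 : 0 ≤ top (EH.prod5 fun i => A.th (t i) x) :=
    top_prod5_nonneg fun k => A.th_cone' (t k) x
  have h2 : top (EH.prod5 fun i => A.th (t i) x) ≤ top (EH.prod5 fun _ => P A x) :=
    top_prod5_mono (fun k => A.th_cone' (t k) x) (fun k => P_sub_th A (t k) x)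
  rw [Real.norm_of_nonneg h1]
  refine h2.trans (le_of_eq ?_)
  rw [← pow5_eq_prod5, top_P5]
  rfl

end mass

end EH.MassI
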