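import Pool.Agent.Work.MP_9eee85_co.EH.GTh
import Pool.Agent.Work.MP_9eee85_co.EH.GMassI

/-!
Finiteness of all the mixed masses of a family.
-/

noncomputable section

namespace EH

open MeasureTheory Filter Topology Set EHPos
open scoped ContDiff

variable {X : Type} [TopologicalSpace X] [T2Space X] [SecondCountableTopology X]
  [MeasurableSpace X] [BorelSpace X] {π : X → Bs} {hπ : IsLocalHomeomorph π} {ν : Measure X}
  {J : Type} [Fintype J]

/-- the masses of products of the forms of a family are finite -/
theorem Fam.integrable_th (A : Fam hπ ν J) (t : Fin 5 → Option J) :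
    Integrable (fun x => top (prod5 fun i => A.th (t i) x)) ν :=
  MassI.integrable_prod5 A t

end EH
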