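import Pool.Agent.Work.MP_9eee85_co.EH.GTheta
import Pool.Agent.Work.MP_9eee85_co.EH.DX
import Pool.Agent.Work.MP_9eee85_co.EH.ExhC
import Pool.Agent.Work.MP_9eee85_co.EH.ExtJ

/-!
The complete form `omP` of a family.
-/

noncomputable section

namespace EH

open MeasureTheory Filter Topology Set EHPos
open scoped ContDiff

set_option linter.unusedSectionVars false

variable {X : Type} [TopologicalSpace X] {π : X → Bs} {hπ : IsLocalHomeomorph π}

section omP

variable {J : Type} [Fintype J] {g : J → X → ℂ} (hg : ∀ j, Hol hπ (g j))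

theorem psi_nonneg (f : X → ℂ) (x : X) : 0 ≤ psi f x :=
  Real.log_nonneg (by nlinarith [sq_nonneg ‖f x‖])

private theorem sum_psi_nonneg (g : J → X → ℂ) (x : X) : 0 ≤ ∑ j, psi (g j) x :=
  Finset.sum_nonneg fun j _ => psi_nonneg (g j) x

private theorem inv_le (g : J → X → ℂ) (x : X) : (1 + ∑ j, psi (g j) x)⁻¹ ≤ 1 :=
  inv_le_one_of_one_le₀ (by linarith [sum_psi_nonneg g x])

private theorem sum_theta_cone (g : J → X → ℂ) (x : X) :
    ∑ j, theta hπ (g j) x ∈ cone ic :=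
  sum_mem fun j _ => theta_cone (g j) x

theorem omP_cone (g : J → X → ℂ) (x : X) : omP hπ g x ∈ cone ic := by
  have h1 := inv_le g x
  have hp := Real.pi_pos
  refine add_mem (smul_mem ic ?_ (sum_theta_cone g x)) (smul_pair_mem ic ?_ _)
  · exact mul_nonneg (by positivity) (by linarith)
  · exact inv_nonneg.2 (sq_nonneg _)

theorem omP_ge (g : J → X → ℂ) (x : X) :
    omP hπ g x - (4 * Real.pi) • ∑ j, theta hπ (g j) x ∈ cone ic := by
  have h1 := inv_le g x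
  have hp := Real.pi_pos
  have h2 : omP hπ g x - (4 * Real.pi) • ∑ j, theta hπ (g j) x =
      (4 * Real.pi * (1 - (1 + ∑ j, psi (g j) x)⁻¹)) • (∑ j, theta hπ (g j) x) +
        (((1 + ∑ j, psi (g j) x) ^ 2)⁻¹) • pair ic (wvec hπ g x) := by
    rw [omP, add_sub_right_comm, ← sub_smul]
    congr 2
    ring
  rw [h2]
  refine add_mem (smul_mem ic ?_ (sum_theta_cone g x)) (smul_pair_mem ic ?_ _)
  · exact mul_nonneg (by positivity) (by linarith)
  · exact inv_nonneg.2 (sq_nonneg _)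

include hg

private theorem sm_A : LSm hπ ⊤ (fun y => ∑ j, psi (g j) y) :=
  LSm.sum hπ fun j _ => (hg j).sm_psi

private theorem sm_inv : LSm hπ ⊤ (fun y => (1 + ∑ j, psi (g j) y)⁻¹) := by
  refine (sm_A hg).comp_smooth hπ (φ := fun t : ℝ => (1 + t)⁻¹) fun x => ?_
  refine ContDiffAt.inv (contDiffAt_const.add contDiffAt_id) ?_
  have := sum_psi_nonneg g x
  show 1 + ∑ j, psi (g j) x ≠ 0
  linarith

private theorem one_A_pos (x : X) : 0 < 1 + ∑ j, psi (g j) x := by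
  linarith [sum_psi_nonneg g x]

/-- the derivative of `psi` -/
private theorem LD_psi (j : J) (x : X) (v : Bs) : LD hπ (psi (g j)) x v =
    2 * (1 + ‖g j x‖ ^ 2)⁻¹ * (starRingEnd ℂ (g j x) * LD hπ (g j) x v).re := by
  have h1 : LSm hπ 1 (g j) := (hg j).sm.mono hπ (by norm_num)
  have h2 : HasFDerivAt (g j ∘ lsec hπ x) (LD hπ (g j) x) (π x) := (h1.diff hπ le_rfl x).hasFDerivAt
  have h3 : (g j ∘ lsec hπ x) (π x) = g j x := by rw [Function.comp_apply, lsec_self]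
  have h4 := h2.norm_sq
  have h5 : HasFDerivAt (fun v => 1 + ‖(g j ∘ lsec hπ x) v‖ ^ 2)
      (2 • (innerSL ℝ ((g j ∘ lsec hπ x) (π x))).comp (LD hπ (g j) x)) (π x) := h4.const_add 1
  have h6 := h5.log (by
    have : (0 : ℝ) < 1 + ‖(g j ∘ lsec hπ x) (π x)‖ ^ 2 := by positivity
    exact this.ne')
  have h7 : LD hπ (psi (g j)) x = (1 + ‖(g j ∘ lsec hπ x) (π x)‖ ^ 2)⁻¹ •
      (2 • (innerSL ℝ ((g j ∘ lsec hπ x) (π x))).comp (LD hπ (g j) x)) := h6.fderiv
  rw [h7, h3]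
  simp only [smul_apply, ContinuousLinearMap.comp_apply, innerSL_apply_apply,
    smul_eq_mul, nsmul_eq_mul, Complex.inner]
  rw [mul_comm (LD hπ (g j) x v)]
  push_cast
  ring

/-- `dA = ic w`, `dcA = ic (i w)` -/
theorem dfn_sum_psi (x : X) : dfn hπ (fun y => ∑ j, psi (g j) y) x = ic (wvec hπ g x) := by
  have h0 : LD hπ (fun y => ∑ j, psi (g j) y) x = ∑ j, LD hπ (psi (g j)) x :=
    LD_sum hπ (fun j _ => (hg j).sm_psi.mono hπ (by norm_num)) x
  rw [dfn, h0, Exh.cov_eq_ic]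
  congr 1
  funext k
  have h1 : ∀ v : Bs, (∑ j, LD hπ (psi (g j)) x) v = ∑ j, LD hπ (psi (g j)) x v := fun v => by
    simp
  simp only [Exh.cvec, wvec, Finset.sum_apply, Pi.smul_apply, cgrad, smul_eq_mul]
  apply Complex.ext
  · rw [Complex.re_sum]
    show (∑ j, LD hπ (psi (g j)) x) (Pi.single k 1) = _
    rw [h1]
    refine Finset.sum_congr rfl fun j _ => ?_
    rw [LD_psi hg, ← Exh.bv_xi, Complex.real_smul, Complex.re_ofReal_mul]
    congr 1
    simp
  · rw [Complex.im_sum]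
    show (∑ j, LD hπ (psi (g j)) x) (Pi.single k Complex.I) = _
    rw [h1]
    refine Finset.sum_congr rfl fun j _ => ?_
    rw [LD_psi hg, ← Exh.bv_yi, (hg j).cr, Complex.real_smul, Complex.im_ofReal_mul]
    congr 1
    simp

theorem dcfn_sum_psi (x : X) :
    dcfn hπ (fun y => ∑ j, psi (g j) y) x = ic (Complex.I • wvec hπ g x) := by
  rw [dcfn, dfn_sum_psi hg, Jinv_ic]
  rfl

theorem sm_rho : LSm hπ ⊤ (fun y => Real.log (1 + ∑ j, psi (g j) y)) := by
  refine (sm_A hg).comp_smooth hπ (φ := fun t : ℝ => Real.log (1 + t)) fun x => ?_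
  exact ContDiffAt.log (contDiffAt_const.add contDiffAt_id) (one_A_pos hg x).ne'

/-- the differential of a smooth function is smooth -/
private theorem sm_dfn {f : X → ℝ} (hf : LSm hπ ⊤ f) : LSm hπ ⊤ (dfn hπ f) := by
  have h : dfn hπ f = fun x => ∑ a, LD hπ f x (bv a) • e a := rfl
  rw [h]
  exact LSm.sum hπ fun a _ => (hf.LD_apply hπ (by simp) (bv a)).smul hπ (LSm.const hπ ⊤ (e a))

private theorem sm_dcfn {f : X → ℝ} (hf : LSm hπ ⊤ f) : LSm hπ ⊤ (dcfn hπ f) :=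
  (sm_dfn hg hf).linear hπ Jinv

/-- `dρ = (1 + A)⁻¹ dA` -/
private theorem dfn_rho (x : X) : dfn hπ (fun y => Real.log (1 + ∑ j, psi (g j) y)) x =
    (1 + ∑ j, psi (g j) x)⁻¹ • dfn hπ (fun y => ∑ j, psi (g j) y) x := by
  have h0 : DifferentiableAt ℝ ((fun y => ∑ j, psi (g j) y) ∘ lsec hπ x) (π x) :=
    ((sm_A hg).mono hπ (by norm_num)).diff hπ le_rfl x
  have h1 : HasDerivAt (fun t : ℝ => Real.log (1 + t)) (1 + ∑ j, psi (g j) x)⁻¹
      (∑ j, psi (g j) x) := by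
    have h2 : HasDerivAt (fun t : ℝ => 1 + t) 1 (∑ j, psi (g j) x) :=
      (hasDerivAt_id _).const_add 1
    have h3 := h2.log (one_A_pos hg x).ne'
    rwa [one_div] at h3
  have h := Exh.LD_comp_real hπ h0 h1.differentiableAt
  rw [h1.deriv] at h
  rw [dfn, h, Exh.cov_smul]
  rfl

private theorem LD_inv (x : X) : LD hπ (fun y => (1 + ∑ j, psi (g j) y)⁻¹) x =
    (-((1 + ∑ j, psi (g j) x) ^ 2)⁻¹) • LD hπ (fun y => ∑ j, psi (g j) y) x := by
  have h0 : DifferentiableAt ℝ ((fun y => ∑ j, psi (g j) y) ∘ lsec hπ x) (π x) :=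
    ((sm_A hg).mono hπ (by norm_num)).diff hπ le_rfl x
  have h1 : HasDerivAt (fun t : ℝ => (1 + t)⁻¹) (-((1 + ∑ j, psi (g j) x) ^ 2)⁻¹)
      (∑ j, psi (g j) x) := by
    have h2 : HasDerivAt (fun t : ℝ => 1 + t) 1 (∑ j, psi (g j) x) :=
      (hasDerivAt_id _).const_add 1
    have h3 := h2.fun_inv (one_A_pos hg x).ne'
    rwa [neg_div, one_div] at h3
  have h := Exh.LD_comp_real hπ h0 h1.differentiableAt
  rw [h1.deriv] at h
  exact h

/-- the primitive of `omP` -/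
private theorem omP_eq (x : X) : omP hπ g x =
    dX hπ (fun y => (2 - (1 + ∑ j, psi (g j) y)⁻¹) • dcfn hπ (fun y => ∑ j, psi (g j) y) y) x := by
  have hs1 : LSm hπ 1 (fun y => 2 - (1 + ∑ j, psi (g j) y)⁻¹) :=
    ((LSm.const hπ ⊤ (2 : ℝ)).sub hπ (sm_inv hg)).mono hπ (by norm_num)
  have hs2 : LSm hπ 1 (dcfn hπ (fun y => ∑ j, psi (g j) y)) :=
    (sm_dcfn hg (sm_A hg)).mono hπ (by norm_num)
  have h1 := dX_smul hπ hs1 hs2 x
  have h2 : LD hπ (fun y => 2 - (1 + ∑ j, psi (g j) y)⁻¹) x =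
      (((1 + ∑ j, psi (g j) x) ^ 2)⁻¹) • LD hπ (fun y => ∑ j, psi (g j) y) x := by
    rw [LD_sub hπ (LSm.const hπ 1 (2 : ℝ)) ((sm_inv hg).mono hπ (by norm_num)), LD_const,
      LD_inv hg, neg_smul, zero_sub, neg_neg]
  have h3 : dX hπ (dcfn hπ (fun y => ∑ j, psi (g j) y)) x =
      (4 * Real.pi) • ∑ j, theta hπ (g j) x := by
    have h4 : dcfn hπ (fun y => ∑ j, psi (g j) y) = fun y => ∑ j, dcfn hπ (psi (g j)) y := by
      funext y
      have h5 : LD hπ (fun y => ∑ j, psi (g j) y) y = ∑ j, LD hπ (psi (g j)) y :=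
        LD_sum hπ (fun j _ => (hg j).sm_psi.mono hπ (by norm_num)) y
      have h6 : ∀ (s : Finset J) (l : J → Bs →L[ℝ] ℝ), cov (∑ j ∈ s, l j) = ∑ j ∈ s, cov (l j) := by
        intro s l
        simp only [cov, sum_apply, Finset.sum_smul]
        rw [Finset.sum_comm]
      simp only [dcfn, dfn]
      rw [h5, h6, map_sum]
    rw [h4, dX_sum hπ fun j _ => (sm_dcfn hg (hg j).sm_psi).mono hπ (by norm_num),
      Finset.smul_sum]
    exact Finset.sum_congr rfl fun j _ => (hg j).ddc_psi x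
  rw [h1, h2, h3, Exh.cov_smul, smul_mul_assoc, smul_smul, omP, add_comm]
  congr 1
  · have h5 : cov (LD hπ (fun y => ∑ j, psi (g j) y) x) = ic (wvec hπ g x) := dfn_sum_psi hg x
    rw [h5, dcfn_sum_psi hg]
    rfl
  · congr 1
    ring

theorem sm_omP : LSm hπ ⊤ (omP hπ g) := by
  have h : omP hπ g = dX hπ (fun y => (2 - (1 + ∑ j, psi (g j) y)⁻¹) •
      dcfn hπ (fun y => ∑ j, psi (g j) y) y) := funext fun x => omP_eq hg x
  rw [h]
  refine LSm.dX hπ (n := ⊤) ?_ (by simp)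
  exact ((LSm.const hπ ⊤ (2 : ℝ)).sub hπ (sm_inv hg)).smul hπ (sm_dcfn hg (sm_A hg))

theorem omP_closed (x : X) : dX hπ (omP hπ g) x = 0 := by
  have h : omP hπ g = dX hπ (fun y => (2 - (1 + ∑ j, psi (g j) y)⁻¹) •
      dcfn hπ (fun y => ∑ j, psi (g j) y) y) := funext fun x => omP_eq hg x
  rw [h]
  refine dX_dX hπ ?_ x
  exact (((LSm.const hπ ⊤ (2 : ℝ)).sub hπ (sm_inv hg)).smul hπ (sm_dcfn hg (sm_A hg))).mono hπ
    (by norm_num)

/-- completeness: `omP ≥ dρ dcρ` for `ρ = log (1 + A)` -/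
theorem omP_complete (x : X) :
    omP hπ g x - dfn hπ (fun y => Real.log (1 + ∑ j, psi (g j) y)) x *
      dcfn hπ (fun y => Real.log (1 + ∑ j, psi (g j) y)) x ∈ cone ic := by
  have h1 : dfn hπ (fun y => Real.log (1 + ∑ j, psi (g j) y)) x *
      dcfn hπ (fun y => Real.log (1 + ∑ j, psi (g j) y)) x =
      (((1 + ∑ j, psi (g j) x) ^ 2)⁻¹) • pair ic (wvec hπ g x) := by
    rw [dcfn, dfn_rho hg, map_smul, smul_mul_smul_comm]
    have h2 : Jinv (dfn hπ (fun y => ∑ j, psi (g j) y) x) = ic (Complex.I • wvec hπ g x) :=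
      dcfn_sum_psi hg x
    rw [h2, dfn_sum_psi hg, ← sq, inv_pow]
    rfl
  rw [h1, omP, add_sub_cancel_right]
  have h3 := inv_le g x
  have hp := Real.pi_pos
  exact smul_mem ic (mul_nonneg (by positivity) (by linarith)) (sum_theta_cone g x)

end omP

end EH
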