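import Pool.Agent.Work.MP_9eee85_co.EH.GHR

/-!
The quantitative Kaehler package of a family of holomorphic functions.
-/

noncomputable section

namespace EH

open MeasureTheory Filter Topology Set EHPos
open scoped ContDiff

namespace QKPAux

lemma pow5 (a : E) : a ^ 5 = a * a * a * a * a := by noncomm_ring
lemma pow4 (a : E) : a ^ 4 = a * a * a * a := by noncomm_ring
lemma pow3 (a : E) : a ^ 3 = a * a * a := by noncomm_ring

lemma swap3 {a b c : E} (hb : b ∈ Deg 2) : a * b * c = a * c * b := by
  rw [mul_assoc, mul_comm_even ⟨1, rfl⟩ hb c, ← mul_assoc]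

lemma top_sum4 {K I : Type} [Fintype K] [Fintype I] (w : K → ℝ) (t : K → E) (c : I → I → ℝ)
    (t' : I → E) (v : E) :
    top ((∑ k, w k • t k) ^ 2 * (∑ i, ∑ j, c i j • (t' i * t' j)) * v) =
      ∑ k, ∑ l, ∑ i, ∑ j, (w k * w l * c i j) * top (t k * t l * t' i * t' j * v) := by
  have h1 : ∀ b : E, (∑ k, w k • t k) * b = ∑ k, w k • (t k * b) := by
    intro b
    rw [Finset.sum_mul]
    exact Finset.sum_congr rfl fun k _ => smul_mul_assoc _ _ _
  have h2 : ∀ b : E, (∑ i, ∑ j, c i j • (t' i * t' j)) * b =
      ∑ i, ∑ j, c i j • (t' i * t' j * b) := by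
    intro b
    rw [Finset.sum_mul]
    refine Finset.sum_congr rfl fun i _ => ?_
    rw [Finset.sum_mul]
    exact Finset.sum_congr rfl fun j _ => smul_mul_assoc _ _ _
  rw [pow_two, mul_assoc, mul_assoc, h2, h1, map_sum]
  refine Finset.sum_congr rfl fun k _ => ?_
  rw [h1, Finset.mul_sum, map_smul, map_sum, smul_eq_mul, Finset.mul_sum]
  refine Finset.sum_congr rfl fun l _ => ?_
  rw [mul_smul_comm, map_smul, smul_eq_mul, Finset.mul_sum, Finset.mul_sum, map_sum,
    Finset.mul_sum, Finset.mul_sum]
  refine Finset.sum_congr rfl fun i _ => ?_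
  rw [Finset.mul_sum, Finset.mul_sum, map_sum, Finset.mul_sum, Finset.mul_sum]
  refine Finset.sum_congr rfl fun j _ => ?_
  rw [mul_smul_comm, mul_smul_comm, map_smul, smul_eq_mul]
  simp only [mul_assoc]

lemma top_sum5 {K I : Type} [Fintype K] [Fintype I] (w : K → ℝ) (t : K → E) (c : I → I → ℝ)
    (t' : I → E) :
    top ((∑ k, w k • t k) * (∑ i, ∑ j, c i j • (t' i * t' j)) *
      (∑ i, ∑ j, c i j • (t' i * t' j))) =
      ∑ m, ∑ i, ∑ j, ∑ k, ∑ l, (w m * c i j * c k l) *
        top (t m * t' i * t' j * t' k * t' l) := by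
  have h1 : ∀ b : E, (∑ k, w k • t k) * b = ∑ k, w k • (t k * b) := by
    intro b
    rw [Finset.sum_mul]
    exact Finset.sum_congr rfl fun k _ => smul_mul_assoc _ _ _
  have h2 : ∀ b : E, (∑ i, ∑ j, c i j • (t' i * t' j)) * b =
      ∑ i, ∑ j, c i j • (t' i * t' j * b) := by
    intro b
    rw [Finset.sum_mul]
    refine Finset.sum_congr rfl fun i _ => ?_
    rw [Finset.sum_mul]
    exact Finset.sum_congr rfl fun j _ => smul_mul_assoc _ _ _
  rw [mul_assoc, h2, h1, map_sum]
  refine Finset.sum_congr rfl fun m _ => ?_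
  rw [map_smul, smul_eq_mul, Finset.mul_sum, map_sum, Finset.mul_sum]
  refine Finset.sum_congr rfl fun i _ => ?_
  rw [Finset.mul_sum, map_sum, Finset.mul_sum]
  refine Finset.sum_congr rfl fun j _ => ?_
  rw [mul_smul_comm, map_smul, smul_eq_mul, Finset.mul_sum, Finset.mul_sum, map_sum,
    Finset.mul_sum, Finset.mul_sum]
  refine Finset.sum_congr rfl fun k _ => ?_
  rw [Finset.mul_sum, Finset.mul_sum, map_sum, Finset.mul_sum, Finset.mul_sum]
  refine Finset.sum_congr rfl fun l _ => ?_
  rw [mul_smul_comm, mul_smul_comm, map_smul, smul_eq_mul]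
  simp only [mul_assoc]

end QKPAux

open QKPAux

/-- the package, with an absolute constant -/
theorem exists_qkp : ∃ C : ℝ, ∀ {X : Type} [TopologicalSpace X] [T2Space X]
    [SecondCountableTopology X] [MeasurableSpace X] [BorelSpace X] [PreconnectedSpace X]
    {π : X → Bs} {hπ : IsLocalHomeomorph π} {ν : Measure X} {J : Type} [Fintype J]
    (A : Fam hπ ν J) (ι : Type) [Fintype ι] (e : ι → J)
    (deg : (Fin 5 → ι) → ℝ)
    (_ : ∀ t, ∫ x, top (prod5 fun i => theta hπ (A.g (e (t i))) x) ∂ν = deg t),
    Nonempty (QKP ι deg C) := by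
  obtain ⟨C, hC0, hC⟩ := KForm.exists_bound
  refine ⟨C, ?_⟩
  intro X _ _ _ _ _ _ π hπ ν J _ A ι _ e deg hdeg
  have hth : ∀ (i : Option J) x, A.th i x ∈ Deg 2 := fun i x => cone_deg (A.th_cone i x)
  have hU : ∀ (D : A.U) x, (D : X → E) x ∈ Deg 2 := fun D x => (D.2 : IsU A.g0 ν _).deg x
  -- the bounds, for a gauge of a form which is a metric
  have key : ∀ (W : X → E), (∃ K : KForm hπ ν, K.w = W) → ∀ (g : Gauge hπ W)
      {N₁ N₂ N₃ N₄ : X → E} (_ : LSm hπ ⊤ N₁) (_ : LSm hπ ⊤ N₂) (_ : LSm hπ ⊤ N₃)
      (_ : LSm hπ ⊤ N₄) (_ : Below W N₁) (_ : Below W N₂) (_ : Below W N₃) (_ : Below W N₄)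
      {u : X → E} (_ : MemLp u 2 (g.mu ν)),
      |∫ x, top (N₁ x * N₂ x * N₃ x * g.G x (u x) * g.G x (u x)) ∂ν| ≤
          C * ∫ x, ‖u x‖ ^ 2 ∂(g.mu ν) ∧
        |∫ x, top (N₁ x * N₂ x * N₃ x * N₄ x * g.G x (u x)) ∂ν| ≤
          C * √(∫ x, ‖u x‖ ^ 2 ∂(g.mu ν)) * √(∫ x, top (W x ^ 5) ∂ν) := by
    rintro W ⟨K, rfl⟩ g N₁ N₂ N₃ N₄ m₁ m₂ m₃ m₄ b₁ b₂ b₃ b₄ u hu
    exact hC K g m₁ m₂ m₃ m₄ b₁ b₂ b₃ b₄ hu
  let θ : Option ι → A.U := fun i => A.cls (i.map e)
  let T : Option ι → Option ι → Option ι → A.U →ₗ[ℝ] A.U →ₗ[ℝ] ℝ :=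
    fun i j k => A.T (i.map e) (j.map e) (k.map e)
  have hT : ∀ i j k D D', T i j k D D' = ∫ x, top (A.th (i.map e) x * A.th (j.map e) x *
      A.th (k.map e) x * (D : X → E) x * (D' : X → E) x) ∂ν := fun i j k D D' =>
    A.T_apply _ _ _ D D'
  have hθ : ∀ i, ((θ i : A.U) : X → E) = A.th (i.map e) := fun i => A.cls_coe _
  have hmix : ∀ (a b c : Option ι → ℝ) (D D' : A.U), mix T a b c D D' =
      ∫ x, top (A.omW e a x * A.omW e b x * A.omW e c x * (D : X → E) x * (D' : X → E) x) ∂ν :=
    fun a b c D D' => A.mix_apply e a b c D D'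
  have hcomb : ∀ w : Option ι → ℝ, ((comb θ w : A.U) : X → E) = A.omW e w := fun w =>
    A.comb_coe e w
  exact ⟨{
    U := A.U
    θ := θ
    T := T
    swap12 := by
      intro i j k
      refine LinearMap.ext fun D => LinearMap.ext fun D' => ?_
      rw [hT, hT]
      refine integral_congr_ae (Eventually.of_forall fun x => ?_)
      simp only
      rw [mul_comm_even ⟨1, rfl⟩ (hth (i.map e) x) (A.th (j.map e) x)]
    swap23 := by
      intro i j k
      refine LinearMap.ext fun D => LinearMap.ext fun D' => ?_
      rw [hT, hT]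
      refine integral_congr_ae (Eventually.of_forall fun x => ?_)
      simp only
      rw [swap3 (hth (j.map e) x)]
    symm := by
      intro i j k D D'
      rw [hT, hT]
      refine integral_congr_ae (Eventually.of_forall fun x => ?_)
      simp only
      rw [swap3 (hU D x)]
    exch := by
      intro i j k l D
      rw [hT, hT]
      refine integral_congr_ae (Eventually.of_forall fun x => ?_)
      simp only [hθ]
      rw [swap3 (hth (k.map e) x)]
    sq := by
      intro i j
      refine LinearMap.ext fun D => LinearMap.ext fun D' => ?_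
      rw [hT]
      have : ∀ x, top (A.th ((some i).map e) x * A.th ((some i).map e) x *
          A.th (j.map e) x * (D : X → E) x * (D' : X → E) x) = 0 := by
        intro x
        have h : A.th ((some i).map e) x * A.th ((some i).map e) x = 0 := theta_sq _ x
        rw [h]
        simp
      simp only [this, integral_zero, LinearMap.zero_apply]
    num := by
      intro t
      rw [hT, ← hdeg t]
      rfl
    hr1 := by
      intro w hw D
      have h := A.hr1 e (fun i => (hw i).le) (hw none) (D := (D : X → E)) D.2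
      rw [hmix, hmix, hmix, hcomb]
      simp only [pow5, pow4, pow3] at h
      exact h
    hr2 := by
      intro w hw c
      obtain ⟨g, u, hu, hUu, h1, h2⟩ := A.hr2 e (fun i => (hw i).le) (hw none) c
      have hK := A.exists_kform e (fun i => (hw i).le) (hw none)
      have hI : 0 ≤ ∫ x, ‖u x‖ ^ 2 ∂(g.mu ν) := integral_nonneg fun x => by positivity
      set I : ℝ := ∫ x, ‖u x‖ ^ 2 ∂(g.mu ν) with hIdef
      have hNsq : (√(6 * I)) ^ 2 = 6 * I := Real.sq_sqrt (by positivity)
      let u' : A.U := ⟨fun x => g.G x (u x),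
        (A.isU_iff e (fun i => (hw i).le) (hw none) g _).mp hUu⟩
      have hu' : (u' : X → E) = fun x => g.G x (u x) := rfl
      have hint : ∀ (i j k l : Option ι) (D : A.U), Integrable (fun x => top (A.th (i.map e) x *
          A.th (j.map e) x * A.th (k.map e) x * A.th (l.map e) x * (D : X → E) x)) ν := by
        intro i j k l D
        have := A.integrable_T (i.map e) (j.map e) (k.map e) (A.cls (l.map e)) D
        rwa [A.cls_coe] at this
      refine ⟨u', √(6 * I), Real.sqrt_nonneg _, ?_, ?_, ?_, ?_⟩
      · rw [hNsq]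
        have e1 : -(6 * I) = -6 * I := by ring
        rw [e1, ← h1]
        have e2 : ∀ x, top (A.omW e w x ^ 2 * (∑ i, ∑ j, c i j • (A.th (some (e i)) x *
            A.th (some (e j)) x)) * g.G x (u x)) = ∑ k, ∑ l, ∑ i, ∑ j, (w k * w l * c i j) *
            top (A.th (k.map e) x * A.th (l.map e) x * A.th (some (e i)) x *
              A.th (some (e j)) x * g.G x (u x)) := fun x =>
          top_sum4 w (fun k => A.th (k.map e) x) c (fun i => A.th (some (e i)) x) _
        simp only [e2]
        have hi : ∀ (k l : Option ι) (i j : ι), Integrable (fun x => (w k * w l * c i j) *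
            top (A.th (k.map e) x * A.th (l.map e) x * A.th (some (e i)) x *
              A.th (some (e j)) x * g.G x (u x))) ν := fun k l i j =>
          (hint k l (some i) (some j) u').const_mul _
        rw [integral_finsetSum _ fun k _ => integrable_finsetSum _ fun l _ =>
          integrable_finsetSum _ fun i _ => integrable_finsetSum _ fun j _ => hi k l i j]
        refine Finset.sum_congr rfl fun k _ => ?_
        rw [integral_finsetSum _ fun l _ => integrable_finsetSum _ fun i _ =>
          integrable_finsetSum _ fun j _ => hi k l i j]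
        refine Finset.sum_congr rfl fun l _ => ?_
        rw [integral_finsetSum _ fun i _ => integrable_finsetSum _ fun j _ => hi k l i j]
        refine Finset.sum_congr rfl fun i _ => ?_
        rw [integral_finsetSum _ fun j _ => hi k l i j]
        refine Finset.sum_congr rfl fun j _ => ?_
        rw [integral_const_mul, hT, hθ]
        rfl
      · rw [hNsq]
        have e1 : -(6 * I) = -6 * I := by ring
        rw [e1]
        refine h2.trans (le_of_eq ?_)
        have e2 : ∀ x, top (A.omW e w x *
            (∑ i, ∑ j, c i j • (A.th (some (e i)) x * A.th (some (e j)) x)) *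
            (∑ i, ∑ j, c i j • (A.th (some (e i)) x * A.th (some (e j)) x))) =
            ∑ m, ∑ i, ∑ j, ∑ k, ∑ l, (w m * c i j * c k l) *
            top (A.th (m.map e) x * A.th (some (e i)) x * A.th (some (e j)) x *
              A.th (some (e k)) x * A.th (some (e l)) x) := fun x =>
          top_sum5 w (fun k => A.th (k.map e) x) c (fun i => A.th (some (e i)) x)
        simp only [e2]
        have hi : ∀ (m : Option ι) (i j k l : ι), Integrable (fun x => (w m * c i j * c k l) *
            top (A.th (m.map e) x * A.th (some (e i)) x * A.th (some (e j)) x *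
              A.th (some (e k)) x * A.th (some (e l)) x)) ν := by
          intro m i j k l
          have := hint m (some i) (some j) (some k) (A.cls ((some l).map e))
          rw [A.cls_coe] at this
          exact this.const_mul _
        rw [integral_finsetSum _ fun m _ => integrable_finsetSum _ fun i _ =>
          integrable_finsetSum _ fun j _ => integrable_finsetSum _ fun k _ =>
          integrable_finsetSum _ fun l _ => hi m i j k l]
        refine Finset.sum_congr rfl fun m _ => ?_
        rw [integral_finsetSum _ fun i _ =>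
          integrable_finsetSum _ fun j _ => integrable_finsetSum _ fun k _ =>
          integrable_finsetSum _ fun l _ => hi m i j k l]
        refine Finset.sum_congr rfl fun i _ => ?_
        rw [integral_finsetSum _ fun j _ => integrable_finsetSum _ fun k _ =>
          integrable_finsetSum _ fun l _ => hi m i j k l]
        refine Finset.sum_congr rfl fun j _ => ?_
        rw [integral_finsetSum _ fun k _ => integrable_finsetSum _ fun l _ => hi m i j k l]
        refine Finset.sum_congr rfl fun k _ => ?_
        rw [integral_finsetSum _ fun l _ => hi m i j k l]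
        refine Finset.sum_congr rfl fun l _ => ?_
        rw [integral_const_mul, hT, hθ, hθ]
        rfl
      · intro a b c' ha hb hc
        rw [hmix, hNsq]
        have := (key _ hK g (A.sm_omW e a) (A.sm_omW e b) (A.sm_omW e c') (A.sm_omW e a)
          (A.below e a w ha) (A.below e b w hb) (A.below e c' w hc) (A.below e a w ha) hu).1
        refine this.trans ?_
        rw [← hIdef]
        nlinarith [mul_nonneg hC0.le hI]
      · intro a b c' d ha hb hc hd
        rw [hmix, hmix, hcomb, hcomb]
        have := (key _ hK g (A.sm_omW e a) (A.sm_omW e b) (A.sm_omW e c') (A.sm_omW e d)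
          (A.below e a w ha) (A.below e b w hb) (A.below e c' w hc) (A.below e d w hd) hu).2
        refine this.trans ?_
        rw [← hIdef]
        simp only [pow5]
        refine mul_le_mul_of_nonneg_right ?_ (Real.sqrt_nonneg _)
        refine mul_le_mul_of_nonneg_left ?_ hC0.le
        exact Real.sqrt_le_sqrt (by linarith)
  }⟩

end EH
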