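import Pool.Agent.Work.MP_9eee85_co.EH.GThA

/-!
The forms of a family: positivity, smoothness, closedness.
-/

set_option linter.unusedSectionVars false

noncomputable section

namespace EH

open MeasureTheory Filter Topology Set EHPos
open scoped ContDiff

variable {X : Type} [TopologicalSpace X] [T2Space X] [SecondCountableTopology X]
  [MeasurableSpace X] [BorelSpace X] {π : X → Bs} {hπ : IsLocalHomeomorph π} {ν : Measure X}
  {J : Type} [Fintype J]

theorem Fam.th_cone (A : Fam hπ ν J) (i : Option J) (x : X) : A.th i x ∈ cone ic :=
  A.th_cone' i x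

theorem Fam.sm_th (A : Fam hπ ν J) (i : Option J) : LSm hπ ⊤ (A.th i) :=
  A.sm_th' i

theorem Fam.th_closed (A : Fam hπ ν J) (i : Option J) (x : X) : dX hπ (A.th i) x = 0 :=
  A.th_closed' i x

/-- every `th i` is at most a multiple of `omP` -/
theorem Fam.th_le (A : Fam hπ ν J) (i : Option J) :
    Below (fun x => A.th none x) (fun x => A.th i x) :=
  A.th_le' i

end EH
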