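import Pool.Agent.Work.MP_9eee85_co.EH.GOmP
import Pool.Agent.Work.MP_9eee85_co.EH.GCut
import Pool.Agent.Work.MP_9eee85_co.EH.DX

/-!
The forms of a family: smoothness, closedness, positivity, domination by the complete form;
expansion of `prod5`.
-/

noncomputable section

namespace EH

open MeasureTheory Filter Topology Set EHPos
open scoped ContDiff

/-! ### `prod5` -/

lemma prod5_eq (a : Fin 5 → E) : prod5 a = MultilinearMap.mkPiAlgebraFin ℝ 5 E a := by
  rw [MultilinearMap.mkPiAlgebraFin_apply, prod5]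
  simp [List.ofFn_succ, mul_assoc]

/-- the product of five combinations -/
theorem prod5_sum {ι : Type*} [Fintype ι] (c : Fin 5 → ι → ℝ) (a : ι → E) :
    prod5 (fun k => ∑ i, c k i • a i) =
      ∑ t : Fin 5 → ι, (∏ k, c k (t k)) • prod5 (fun k => a (t k)) := by
  classical
  rw [prod5_eq, MultilinearMap.map_sum]
  refine Finset.sum_congr rfl fun t _ => ?_
  rw [MultilinearMap.map_smul_univ, prod5_eq]

theorem top_prod5_nonneg {a : Fin 5 → E} (h : ∀ k, a k ∈ cone ic) : 0 ≤ top (prod5 a) :=
  top5_nonneg (h 0) (h 1) (h 2) (h 3) (h 4)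

theorem top_prod5_mono {a b : Fin 5 → E} (h : ∀ k, a k ∈ cone ic) (h' : ∀ k, b k - a k ∈ cone ic) :
    top (prod5 a) ≤ top (prod5 b) :=
  top5_mono (h 0) (h 1) (h 2) (h 3) (h 4) (h' 0) (h' 1) (h' 2) (h' 3) (h' 4)

variable {X : Type} [TopologicalSpace X] {π : X → Bs} {hπ : IsLocalHomeomorph π}

/-- `prod5` of smooth forms -/
lemma LSm.prod5 {n : ℕ∞} {a : Fin 5 → X → E} (h : ∀ k, LSm hπ n (a k)) :
    LSm hπ n (fun x => EH.prod5 fun k => a k x) :=
  LSm.mulE hπ (LSm.mulE hπ (LSm.mulE hπ (LSm.mulE hπ (h 0) (h 1)) (h 2)) (h 3)) (h 4)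

variable [MeasurableSpace X] {ν : Measure X} {J : Type} [Fintype J]

theorem Fam.th_cone' (A : Fam hπ ν J) (i : Option J) (x : X) : A.th i x ∈ cone ic := by
  cases i with
  | none => exact omP_cone A.g x
  | some j => exact theta_cone (A.g j) x

theorem Fam.sm_th' (A : Fam hπ ν J) (i : Option J) : LSm hπ ⊤ (A.th i) := by
  cases i with
  | none => exact sm_omP A.hol
  | some j => exact (A.hol j).sm_theta

theorem Fam.th_closed' (A : Fam hπ ν J) (i : Option J) (x : X) : dX hπ (A.th i) x = 0 := by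
  cases i with
  | none => exact omP_closed A.hol x
  | some j => exact (A.hol j).closed x

/-- a single form of the family is below the sum -/
theorem Fam.sum_sub_theta (A : Fam hπ ν J) (j : J) (x : X) :
    ∑ j, theta hπ (A.g j) x - theta hπ (A.g j) x ∈ cone ic := by
  classical
  rw [← Finset.add_sum_erase Finset.univ (fun j => theta hπ (A.g j) x) (Finset.mem_univ j),
    add_sub_cancel_left]
  exact sum_mem fun k _ => theta_cone (A.g k) x

/-- `omP ≥ theta_j` -/
theorem Fam.omP_sub_theta (A : Fam hπ ν J) (j : J) (x : X) :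
    omP hπ A.g x - theta hπ (A.g j) x ∈ cone ic := by
  have h1 := omP_ge (hπ := hπ) A.g x
  have h2 := A.sum_sub_theta j x
  have h3 : ∑ j, theta hπ (A.g j) x ∈ cone ic := sum_mem fun k _ => theta_cone (A.g k) x
  have hpi : 0 ≤ 4 * Real.pi - 1 := by linarith [Real.pi_gt_three]
  have e : omP hπ A.g x - theta hπ (A.g j) x =
      (omP hπ A.g x - (4 * Real.pi) • ∑ j, theta hπ (A.g j) x) +
      (4 * Real.pi - 1) • (∑ j, theta hπ (A.g j) x) +
      (∑ j, theta hπ (A.g j) x - theta hπ (A.g j) x) := by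
    module
  rw [e]
  exact add_mem (add_mem h1 (smul_mem ic hpi h3)) h2

/-- every `th i` is at most `omP` -/
theorem Fam.th_le' (A : Fam hπ ν J) (i : Option J) :
    Below (fun x => A.th none x) (fun x => A.th i x) := by
  intro x
  refine ⟨A.th_cone' i x, ?_⟩
  cases i with
  | none =>
    show A.th none x - A.th none x ∈ cone ic
    rw [sub_self]; exact zero_mem _
  | some j => exact A.omP_sub_theta j x

/-- the complete form dominates a multiple of the standard form, given the same for the
coordinates -/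
theorem Fam.omP_sub_sum_z (A : Fam hπ ν J) (x : X) :
    omP hπ A.g x - (4 * Real.pi / 5) • ∑ k : Fin 5, theta hπ (A.g (A.z k)) x ∈ cone ic := by
  have h1 := omP_ge (hπ := hπ) A.g x
  have h2 : ∀ k : Fin 5, ∑ j, theta hπ (A.g j) x - theta hπ (A.g (A.z k)) x ∈ cone ic :=
    fun k => A.sum_sub_theta (A.z k) x
  have h3 : (4 * Real.pi / 5) • ∑ k : Fin 5, (∑ j, theta hπ (A.g j) x -
      theta hπ (A.g (A.z k)) x) ∈ cone ic :=
    smul_mem ic (by positivity) (sum_mem fun k _ => h2 k)
  have e : omP hπ A.g x - (4 * Real.pi / 5) • ∑ k : Fin 5, theta hπ (A.g (A.z k)) x =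
      (omP hπ A.g x - (4 * Real.pi) • ∑ j, theta hπ (A.g j) x) +
      (4 * Real.pi / 5) • ∑ k : Fin 5, (∑ j, theta hπ (A.g j) x -
        theta hπ (A.g (A.z k)) x) := by
    rw [Finset.sum_sub_distrib, Finset.sum_const, Finset.card_univ, Fintype.card_fin]
    module
  rw [e]
  exact add_mem h1 h3

/-- combinations of the forms: in the cone -/
theorem Fam.omW_cone (A : Fam hπ ν J) {ι : Type} [Fintype ι] (e : ι → J) {w : Option ι → ℝ}
    (hw : ∀ i, 0 ≤ w i) (x : X) : A.omW e w x ∈ cone ic :=
  sum_mem fun i _ => smul_mem ic (hw i) (A.th_cone' (i.map e) x)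

/-- combinations of the forms: monotone in the weights -/
theorem Fam.omW_sub_mem (A : Fam hπ ν J) {ι : Type} [Fintype ι] (e : ι → J)
    {a w : Option ι → ℝ} (h : ∀ i, a i ≤ w i) (x : X) :
    A.omW e w x - A.omW e a x ∈ cone ic := by
  have e1 : A.omW e w x - A.omW e a x = ∑ i, (w i - a i) • A.th (i.map e) x := by
    rw [Fam.omW, Fam.omW, ← Finset.sum_sub_distrib]
    exact Finset.sum_congr rfl fun i _ => (sub_smul _ _ _).symm
  rw [e1]
  exact sum_mem fun i _ => smul_mem ic (sub_nonneg.mpr (h i)) (A.th_cone' (i.map e) x)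

/-- combinations of the forms: smooth -/
theorem Fam.sm_omW' (A : Fam hπ ν J) {ι : Type} [Fintype ι] (e : ι → J) (a : Option ι → ℝ) :
    LSm hπ ⊤ (A.omW e a) :=
  LSm.sum hπ (s := Finset.univ) (f := fun i x => a i • A.th (i.map e) x) fun i _ =>
    (LSm.const hπ ⊤ (a i)).smul hπ (A.sm_th' (i.map e))

/-- combinations of the forms: closed -/
theorem Fam.omW_closed (A : Fam hπ ν J) {ι : Type} [Fintype ι] (e : ι → J) (a : Option ι → ℝ)
    (x : X) : dX hπ (A.omW e a) x = 0 := by
  have h1 : ∀ i, LSm hπ 1 (A.th i) := fun i => (A.sm_th' i).mono hπ le_top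
  have h2 := dX_sum hπ (s := Finset.univ) (F := fun (i : Option ι) x => a i • A.th (i.map e) x)
    (fun i _ => (LSm.const hπ 1 (a i)).smul hπ (h1 (i.map e))) x
  have h3 : dX hπ (A.omW e a) x =
      dX hπ (fun y => ∑ i, a i • A.th (i.map e) y) x := rfl
  rw [h3, h2]
  refine Finset.sum_eq_zero fun i _ => ?_
  rw [dX_const_smul hπ (a i) (h1 (i.map e)), A.th_closed', smul_zero]

/-- the integral of the product of five combinations is finite when the single ones are -/
theorem Fam.integrable_prod5 (A : Fam hπ ν J)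
    (hI : ∀ t : Fin 5 → Option J, Integrable (fun x => top (EH.prod5 fun i => A.th (t i) x)) ν)
    {ι : Type} [Fintype ι] (e : ι → J) (c : Fin 5 → Option ι → ℝ) :
    Integrable (fun x => top (EH.prod5 fun k => A.omW e (c k) x)) ν := by
  have e1 : (fun x => top (EH.prod5 fun k => A.omW e (c k) x)) =
      fun x => ∑ t : Fin 5 → Option ι, (∏ k, c k (t k)) *
        top (EH.prod5 fun k => A.th ((t k).map e) x) := by
    funext x
    have := prod5_sum c (fun i : Option ι => A.th (i.map e) x)
    have e2 : (EH.prod5 fun k => A.omW e (c k) x) =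
        ∑ t : Fin 5 → Option ι, (∏ k, c k (t k)) • EH.prod5 (fun k => A.th ((t k).map e) x) := this
    rw [e2, map_sum]
    exact Finset.sum_congr rfl fun t _ => by rw [map_smul, smul_eq_mul]
  rw [e1]
  exact integrable_finsetSum _ fun t _ => (hI fun k => (t k).map e).const_mul _

/-- integrals of products of combinations -/
theorem Fam.integral_prod5 (A : Fam hπ ν J)
    (hI : ∀ t : Fin 5 → Option J, Integrable (fun x => top (EH.prod5 fun i => A.th (t i) x)) ν)
    {ι : Type} [Fintype ι] (e : ι → J) (c : Fin 5 → Option ι → ℝ) :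
    ∫ x, top (EH.prod5 fun k => A.omW e (c k) x) ∂ν =
      ∑ t : Fin 5 → Option ι, (∏ k, c k (t k)) *
        ∫ x, top (EH.prod5 fun k => A.th ((t k).map e) x) ∂ν := by
  have e1 : (fun x => top (EH.prod5 fun k => A.omW e (c k) x)) =
      fun x => ∑ t : Fin 5 → Option ι, (∏ k, c k (t k)) *
        top (EH.prod5 fun k => A.th ((t k).map e) x) := by
    funext x
    have := prod5_sum c (fun i : Option ι => A.th (i.map e) x)
    have e2 : (EH.prod5 fun k => A.omW e (c k) x) =
        ∑ t : Fin 5 → Option ι, (∏ k, c k (t k)) • EH.prod5 (fun k => A.th ((t k).map e) x) := this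
    rw [e2, map_sum]
    exact Finset.sum_congr rfl fun t _ => by rw [map_smul, smul_eq_mul]
  rw [e1, integral_finsetSum _ fun t _ => (hI fun k => (t k).map e).const_mul _]
  exact Finset.sum_congr rfl fun t _ => integral_const_mul _ _

lemma pow5_eq_prod5 (a : E) : a ^ 5 = EH.prod5 fun _ => a := by
  rw [EH.prod5]
  simp only [pow_succ, pow_zero, one_mul]

end EH
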