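import Pool.Agent.Work.MP_9eee85_co.EH.Geo
import Pool.Agent.Work.MP_9eee85_co.EH.DX
import Pool.Agent.Work.MP_9eee85_co.EH.ExtJ

/-!
The forms `theta f` of holomorphic functions.
-/

set_option linter.unusedSectionVars false

noncomputable section

namespace EH

open MeasureTheory Filter Topology Set EHPos
open scoped ContDiff

variable {X : Type} [TopologicalSpace X] {π : X → Bs} {hπ : IsLocalHomeomorph π}

namespace Thet

lemma cov_add (l m : Bs →L[ℝ] ℝ) : cov (l + m) = cov l + cov m := by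
  rw [cov, cov, cov, ← Finset.sum_add_distrib]
  refine Finset.sum_congr rfl fun a _ => ?_
  rw [_root_.add_apply, add_smul]

lemma cov_smul (c : ℝ) (l : Bs →L[ℝ] ℝ) : cov (c • l) = c • cov l := by
  rw [cov, cov, Finset.smul_sum]
  refine Finset.sum_congr rfl fun a _ => ?_
  have : (c • l) (bv a) = c * l (bv a) := rfl
  rw [this, mul_smul]

lemma ic_mem_Deg (v : Fin 5 → ℂ) : ic v ∈ Deg 1 := by
  rw [ic_eq]
  exact (Deg 1).sum_mem fun j _ => (Deg 1).add_mem
    ((Deg 1).smul_mem _ (e_mem_Deg _)) ((Deg 1).smul_mem _ (e_mem_Deg _))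

lemma Jinv_icI (v : Fin 5 → ℂ) : Jinv (ic v) = ic (Complex.I • v) := EH.Jinv_ic v

lemma J_icI (v : Fin 5 → ℂ) : J (ic v) = -ic (Complex.I • v) := by
  rw [EH.J_ic, ← map_neg]
  congr 1
  funext j
  simp

/-- `d d φ = 0` -/
lemma dX_cov {φ : X → ℝ} (hφ : LSm hπ 2 φ) (x : X) :
    dX hπ (fun y => cov (LD hπ φ y)) x = 0 := by
  have h0 : LSm hπ 2 (fun y => φ y • (1 : E)) := hφ.smul hπ (LSm.const hπ 2 1)
  have h1 : dX hπ (fun y => φ y • (1 : E)) = fun y => cov (LD hπ φ y) := by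
    funext y
    rw [dX_smul hπ (hφ.mono hπ (by norm_num)) (LSm.const hπ 1 1), dX_const, smul_zero, add_zero,
      mul_one]
  rw [← h1]
  exact dX_dX hπ h0 x

/-- `f • v` in terms of real and imaginary parts -/
lemma ic_smul (z : ℂ) (v : Fin 5 → ℂ) : ic (z • v) = z.re • ic v + z.im • ic (Complex.I • v) := by
  rw [← ic.map_smul, ← ic.map_smul, ← map_add]
  congr 1
  funext j
  simp only [Pi.smul_apply, Pi.add_apply, smul_eq_mul, Complex.real_smul]
  conv_lhs => rw [← Complex.re_add_im z]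
  ring

end Thet

open Thet

section theta

variable {f : X → ℂ}

lemma one_add_normSq_pos (f : X → ℂ) (x : X) : 0 < 1 + ‖f x‖ ^ 2 := by positivity

section sm

variable {n : ℕ∞} {v : X → Fin 5 → ℂ}

lemma LSm.ic (hv : LSm hπ n v) : LSm hπ n (fun x => EH.ic (v x)) :=
  hv.linear hπ EH.ic

lemma LSm.Ismul (hv : LSm hπ n v) : LSm hπ n (fun x => Complex.I • v x) := by
  intro x
  rw [contDiffAt_pi]
  intro j
  exact contDiffAt_const.mul (contDiffAt_pi.1 (hv x) j)

lemma LSm.pair (hv : LSm hπ n v) : LSm hπ n (fun x => EHPos.pair EH.ic (v x)) :=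
  LSm.mulE hπ hv.ic hv.Ismul.ic

end sm

variable (hf : Hol hπ f)
include hf

lemma Hol.re_sm : LSm hπ ⊤ (fun x => (f x).re) := hf.sm.clm hπ Complex.reCLM
lemma Hol.im_sm : LSm hπ ⊤ (fun x => (f x).im) := hf.sm.clm hπ Complex.imCLM

lemma Hol.cov_re (x : X) : cov (LD hπ (fun y => (f y).re) x) = ic (cgrad hπ f x) := by
  have h : ∀ v, LD hπ (fun y => (f y).re) x v = (LD hπ f x v).re := fun v =>
    LD_clm_apply hπ (hf.sm.mono hπ le_top) Complex.reCLM x v
  rw [cov, sum_fin10, ic_eq]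
  refine Finset.sum_congr rfl fun j _ => ?_
  rw [h, h, hf.cr]
  simp [cgrad]

lemma Hol.cov_im (x : X) :
    cov (LD hπ (fun y => (f y).im) x) = ic (Complex.I • cgrad hπ f x) := by
  have h : ∀ v, LD hπ (fun y => (f y).im) x v = (LD hπ f x v).im := fun v =>
    LD_clm_apply hπ (hf.sm.mono hπ le_top) Complex.imCLM x v
  rw [cov, sum_fin10, ic_eq]
  refine Finset.sum_congr rfl fun j _ => ?_
  rw [h, h, hf.cr]
  simp [cgrad]

lemma Hol.cgrad_sm : LSm hπ ⊤ (cgrad hπ f) := by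
  intro x
  rw [contDiffAt_pi]
  intro j
  have h1 := (hf.sm.LD_apply hπ (m := ⊤) le_top (bv (xi j))).clm hπ
    (Complex.conjCLE : ℂ →L[ℝ] ℂ)
  exact h1 x

lemma Hol.normSq_sm : LSm hπ ⊤ (fun x => ‖f x‖ ^ 2) := by
  have h1 : (fun x => ‖f x‖ ^ 2) = fun x => (f x).re * (f x).re + (f x).im * (f x).im := by
    funext x
    rw [← Complex.normSq_eq_norm_sq, Complex.normSq_apply]
  rw [h1]
  exact (hf.re_sm.mul hπ hf.re_sm).add hπ (hf.im_sm.mul hπ hf.im_sm)

/-- smooth functions of `1+|f|^2` -/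
lemma Hol.comp_one_add_sm {φ : ℝ → ℝ} (hφ : ∀ t, 0 < t → ContDiffAt ℝ ∞ φ t) :
    LSm hπ ⊤ (fun x => φ (1 + ‖f x‖ ^ 2)) :=
  ((LSm.const hπ ⊤ (1 : ℝ)).add hπ hf.normSq_sm).comp_smooth hπ
    (fun x => hφ _ (one_add_normSq_pos f x))

lemma Hol.cov_normSq (x : X) :
    cov (LD hπ (fun y => ‖f y‖ ^ 2) x) = (2 : ℝ) • ic (f x • cgrad hπ f x) := by
  have h1 : (fun x => ‖f x‖ ^ 2) = fun x => (f x).re * (f x).re + (f x).im * (f x).im := by
    funext x
    rw [← Complex.normSq_eq_norm_sq, Complex.normSq_apply]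
  have hr := hf.re_sm.mono hπ (m := 1) le_top
  have hi := hf.im_sm.mono hπ (m := 1) le_top
  have h2 : LD hπ (fun y => ‖f y‖ ^ 2) x = (2 * (f x).re) • LD hπ (fun y => (f y).re) x +
      (2 * (f x).im) • LD hπ (fun y => (f y).im) x := by
    ext v
    rw [h1, LD_add hπ (hr.mul hπ hr) (hi.mul hπ hi), _root_.add_apply]
    have e1 := LD_smul_apply hπ hr hr x v
    have e2 := LD_smul_apply hπ hi hi x v
    simp only [smul_eq_mul] at e1 e2
    rw [e1, e2]
    simp only [_root_.add_apply, _root_.smul_apply, smul_eq_mul]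
    ring
  rw [h2, cov_add, cov_smul, cov_smul, hf.cov_re, hf.cov_im, ic_smul (f x) (cgrad hπ f x),
    smul_add, smul_smul, smul_smul]

/-- derivative of a function of `1+|f|^2` -/
lemma Hol.cov_comp_one_add {φ : ℝ → ℝ} {φ' : ℝ} {x : X}
    (hφ : HasDerivAt φ φ' (1 + ‖f x‖ ^ 2)) :
    cov (LD hπ (fun y => φ (1 + ‖f y‖ ^ 2)) x) = (2 * φ') • ic (f x • cgrad hπ f x) := by
  have hn := hf.normSq_sm.mono hπ (m := 1) le_top
  have h1 : LD hπ (fun y => φ (1 + ‖f y‖ ^ 2)) x = φ' • LD hπ (fun y => ‖f y‖ ^ 2) x := by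
    have hd := (hn.diff hπ le_rfl x).hasFDerivAt
    have hd2 : HasFDerivAt (fun v => 1 + ((fun y => ‖f y‖ ^ 2) ∘ lsec hπ x) v)
        (LD hπ (fun y => ‖f y‖ ^ 2) x) (π x) := hd.const_add 1
    have hφ' : HasDerivAt φ φ' (1 + ((fun y => ‖f y‖ ^ 2) ∘ lsec hπ x) (π x)) := by
      simpa [lsec_self] using hφ
    have := hφ'.comp_hasFDerivAt (π x) hd2
    exact this.fderiv
  rw [h1, cov_smul, hf.cov_normSq, smul_smul, mul_comm]

/-- `d (psi f) = ic (2 (1+|f|^2)⁻¹ f cgrad f)` -/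
lemma Hol.cov_psi (x : X) : cov (LD hπ (psi f) x) =
    ic ((2 * (1 + ‖f x‖ ^ 2)⁻¹) • (f x • cgrad hπ f x)) := by
  have h : psi f = fun y => Real.log (1 + ‖f y‖ ^ 2) := rfl
  rw [h, hf.cov_comp_one_add (Real.hasDerivAt_log (one_add_normSq_pos f x).ne'), ic.map_smul]

lemma Hol.dcfn_psi (x : X) : dcfn hπ (psi f) x =
    (2 * (1 + ‖f x‖ ^ 2)⁻¹) • ((f x).re • ic (Complex.I • cgrad hπ f x) -
      (f x).im • ic (cgrad hπ f x)) := by
  rw [dcfn, dfn, hf.cov_psi, ic.map_smul, map_smul, Jinv_icI]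
  congr 1
  rw [smul_comm, ic_smul (f x) (Complex.I • cgrad hπ f x), smul_smul, Complex.I_mul_I,
    neg_one_smul, map_neg, smul_neg, sub_eq_add_neg]

theorem Hol.sm_theta : LSm hπ ⊤ (theta hπ f) := by
  have h1 : LSm hπ ⊤ (fun x => (Real.pi * (1 + ‖f x‖ ^ 2) ^ 2)⁻¹) :=
    hf.comp_one_add_sm (φ := fun t => (Real.pi * t ^ 2)⁻¹)
      fun t ht => ContDiffAt.inv (contDiffAt_const.mul (contDiffAt_id.pow 2)) (by positivity)
  exact h1.smul hπ hf.cgrad_sm.pair

/-- `d (d Re f) = 0`, `d (d Im f) = 0` -/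
lemma Hol.dX_ic_cgrad (x : X) : dX hπ (fun y => ic (cgrad hπ f y)) x = 0 := by
  have h : (fun y => ic (cgrad hπ f y)) = fun y => cov (LD hπ (fun y => (f y).re) y) := by
    funext y; rw [hf.cov_re]
  rw [h]
  exact dX_cov (hf.re_sm.mono hπ le_top) x

lemma Hol.dX_ic_I_cgrad (x : X) : dX hπ (fun y => ic (Complex.I • cgrad hπ f y)) x = 0 := by
  have h : (fun y => ic (Complex.I • cgrad hπ f y)) =
      fun y => cov (LD hπ (fun y => (f y).im) y) := by
    funext y; rw [hf.cov_im]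
  rw [h]
  exact dX_cov (hf.im_sm.mono hπ le_top) x

lemma Hol.dX_pair (x : X) : dX hπ (fun y => pair ic (cgrad hπ f y)) x = 0 := by
  have h := dX_mul hπ (k := 1) (F := fun y => ic (cgrad hπ f y))
    (G := fun y => ic (Complex.I • cgrad hπ f y))
    (hf.cgrad_sm.ic.mono hπ le_top) (hf.cgrad_sm.Ismul.ic.mono hπ le_top)
    (fun y => ic_mem_Deg _) x
  have h2 : (fun y => pair ic (cgrad hπ f y)) =
      fun y => ic (cgrad hπ f y) * ic (Complex.I • cgrad hπ f y) := rfl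
  rw [h2, h, hf.dX_ic_cgrad, hf.dX_ic_I_cgrad]
  simp

theorem Hol.closed (x : X) : dX hπ (theta hπ f) x = 0 := by
  have hφ : LSm hπ 1 (fun x => (Real.pi * (1 + ‖f x‖ ^ 2) ^ 2)⁻¹) :=
    (hf.comp_one_add_sm (φ := fun t => (Real.pi * t ^ 2)⁻¹)
      fun t ht => ContDiffAt.inv (contDiffAt_const.mul (contDiffAt_id.pow 2))
        (by positivity)).mono hπ le_top
  have hp : LSm hπ 1 (fun x => pair ic (cgrad hπ f x)) := hf.cgrad_sm.pair.mono hπ le_top
  have hd : HasDerivAt (fun t : ℝ => (Real.pi * t ^ 2)⁻¹)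
      (deriv (fun t : ℝ => (Real.pi * t ^ 2)⁻¹) (1 + ‖f x‖ ^ 2)) (1 + ‖f x‖ ^ 2) := by
    apply DifferentiableAt.hasDerivAt
    have := one_add_normSq_pos f x
    exact DifferentiableAt.inv ((differentiableAt_const _).mul (differentiableAt_id.pow 2))
      (by positivity)
  have h1 : theta hπ f =
      fun x => (Real.pi * (1 + ‖f x‖ ^ 2) ^ 2)⁻¹ • pair ic (cgrad hπ f x) := rfl
  rw [h1, dX_smul hπ hφ hp, hf.dX_pair,
    hf.cov_comp_one_add (φ := fun t => (Real.pi * t ^ 2)⁻¹) hd, smul_zero, add_zero,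
    smul_mul_assoc]
  have e5 : ic (cgrad hπ f x) * pair ic (cgrad hπ f x) = 0 := by
    rw [pair, ← mul_assoc, ic_sq, zero_mul]
  have e6 : ic (Complex.I • cgrad hπ f x) * pair ic (cgrad hπ f x) = 0 := by
    rw [← pair_comm_i ic_sq, pair, mul_assoc, ic_sq, mul_zero]
  rw [ic_smul, add_mul, smul_mul_assoc, smul_mul_assoc, e5, e6]
  simp

theorem Hol.sm_psi : LSm hπ ⊤ (psi f) :=
  hf.comp_one_add_sm (φ := Real.log) fun _ ht => Real.contDiffAt_log.2 ht.ne'

/-- `ddc psi = 4 π theta` -/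
theorem Hol.ddc_psi (x : X) : dX hπ (dcfn hπ (psi f)) x = (4 * Real.pi) • theta hπ f x := by
  have hr := hf.re_sm.mono hπ (m := 1) le_top
  have hi := hf.im_sm.mono hπ (m := 1) le_top
  have hc := hf.cgrad_sm.ic.mono hπ (m := 1) le_top
  have hcI := hf.cgrad_sm.Ismul.ic.mono hπ (m := 1) le_top
  have hφ : LSm hπ 1 (fun x => 2 * (1 + ‖f x‖ ^ 2)⁻¹) :=
    (hf.comp_one_add_sm (φ := fun t => 2 * t⁻¹)
      fun _ ht => contDiffAt_const.mul (contDiffAt_inv ℝ ht.ne')).mono hπ le_top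
  set s : ℝ := 1 + ‖f x‖ ^ 2 with hs
  have hs0 : 0 < s := one_add_normSq_pos f x
  have hφd : cov (LD hπ (fun y => 2 * (1 + ‖f y‖ ^ 2)⁻¹) x) =
      (-4 * (s ^ 2)⁻¹) • ic (f x • cgrad hπ f x) := by
    have hd : HasDerivAt (fun t : ℝ => 2 * t⁻¹) (2 * -(s ^ 2)⁻¹) s :=
      (hasDerivAt_inv hs0.ne').const_mul 2
    rw [hf.cov_comp_one_add (φ := fun t => 2 * t⁻¹) hd]
    congr 1; ring
  have e0 : dcfn hπ (psi f) = fun x => (2 * (1 + ‖f x‖ ^ 2)⁻¹) •
      ((f x).re • ic (Complex.I • cgrad hπ f x) - (f x).im • ic (cgrad hπ f x)) := by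
    funext y; exact hf.dcfn_psi y
  have hA := hr.smul hπ hcI
  have hB := hi.smul hπ hc
  have e2 : dX hπ (fun y => (f y).re • ic (Complex.I • cgrad hπ f y) -
      (f y).im • ic (cgrad hπ f y)) x = (2 : ℝ) • pair ic (cgrad hπ f x) := by
    rw [dX_sub hπ hA hB, dX_smul hπ hr hcI, dX_smul hπ hi hc, hf.cov_re, hf.cov_im,
      hf.dX_ic_cgrad, hf.dX_ic_I_cgrad, ic_anti (Complex.I • cgrad hπ f x), two_smul]
    simp [pair]
  have hAB : LSm hπ 1 (fun y => (f y).re • ic (Complex.I • cgrad hπ f y) -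
      (f y).im • ic (cgrad hπ f y)) := hA.sub hπ hB
  rw [e0, dX_smul hπ hφ hAB, hφd, e2]
  have e4 : ic (f x • cgrad hπ f x) *
      ((f x).re • ic (Complex.I • cgrad hπ f x) - (f x).im • ic (cgrad hπ f x)) =
      (‖f x‖ ^ 2) • pair ic (cgrad hπ f x) := by
    rw [ic_smul, add_mul, mul_sub, mul_sub]
    simp only [smul_mul_smul_comm, ic_sq]
    rw [ic_anti (Complex.I • cgrad hπ f x), smul_zero, smul_zero, sub_zero, zero_sub, smul_neg,
      neg_neg, pair, ← add_smul]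
    congr 1
    rw [← Complex.normSq_eq_norm_sq, Complex.normSq_apply]
  rw [smul_mul_assoc, e4, theta, smul_smul, smul_smul, smul_smul, ← add_smul, ← hs]
  congr 1
  have hsq : ‖f x‖ ^ 2 = s - 1 := by rw [hs]; ring
  rw [hsq]
  have hpi := Real.pi_pos
  field_simp
  ring

end theta

/-- members of the cone are `J`-invariant of degree two -/
theorem cone_deg {N : E} (h : N ∈ cone ic) : N ∈ Deg 2 := by
  induction h using AddSubmonoid.closure_induction with
  | mem x hx =>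
    obtain ⟨v, rfl⟩ := hx
    exact mul_mem_Deg (ic_mem_Deg v) (ic_mem_Deg _)
  | zero => exact (Deg 2).zero_mem
  | add x y _ _ hx hy => exact (Deg 2).add_mem hx hy

theorem cone_J {N : E} (h : N ∈ cone ic) : J N = N := by
  induction h using AddSubmonoid.closure_induction with
  | mem x hx =>
    obtain ⟨v, rfl⟩ := hx
    rw [pair, J_mul, J_icI, J_icI, smul_smul, Complex.I_mul_I, neg_one_smul, map_neg, neg_neg,
      neg_mul, ic_anti, neg_neg]
  | zero => exact map_zero _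
  | add x y _ _ hx hy => rw [map_add, hx, hy]

theorem theta_cone (f : X → ℂ) (x : X) : theta hπ f x ∈ cone ic :=
  smul_pair_mem ic (by positivity) _

theorem theta_deg (f : X → ℂ) (x : X) : theta hπ f x ∈ Deg 2 := cone_deg (theta_cone f x)

theorem theta_J (f : X → ℂ) (x : X) : J (theta hπ f x) = theta hπ f x := cone_J (theta_cone f x)

theorem theta_sq (f : X → ℂ) (x : X) : theta hπ f x * theta hπ f x = 0 := by
  rw [theta, smul_mul_smul_comm, pair_sq ic_sq, smul_zero]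

/-- the forms of the coordinates are positive definite -/
theorem sum_theta_pos {z : Fin 5 → X → ℂ} (hz : ∀ j x, z j x = π x j) (x : X) :
    ∃ c : ℝ, 0 < c ∧ ∑ j, theta hπ (z j) x - c • om ∈ cone ic := by
  have hg : ∀ j, cgrad hπ (z j) x = Pi.single j 1 := by
    intro j
    have h1 : z j = fun y => (π y) j := by funext y; exact hz j y
    have h2 : ∀ v, LD hπ (z j) x v = v j := by
      intro v
      have h5 := LD_clm_apply hπ (LSm.pi hπ 1)
        ((ContinuousLinearMap.proj j : Bs →L[ℂ] ℂ).restrictScalars ℝ) x v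
      rw [LD_pi] at h5
      rw [h1]
      exact h5
    funext k
    rw [cgrad, h2]
    have h3 : bv (xi k) = Pi.single k 1 := by
      have h1 : (⟨(xi k).val / 2, by have := (xi k).2; omega⟩ : Fin 5) = k := by
        ext; simp [xi]
      have h2 : (xi k).val % 2 = 0 := by simp [xi]
      rw [bv, h1, if_pos h2]
    rw [h3]
    by_cases hk : j = k
    · subst hk; simp
    · rw [Pi.single_eq_of_ne hk, Pi.single_eq_of_ne (Ne.symm hk), map_zero]
  set w : Fin 5 → ℝ := fun j => (Real.pi * (1 + ‖z j x‖ ^ 2) ^ 2)⁻¹ with hw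
  have hw0 : ∀ j, 0 < w j := fun j => by simp only [hw]; positivity
  obtain ⟨c, hc0, hc⟩ : ∃ c : ℝ, 0 < c ∧ ∀ j, c ≤ w j := by
    refine ⟨Finset.univ.inf' Finset.univ_nonempty w, ?_, fun j =>
      Finset.inf'_le _ (Finset.mem_univ j)⟩
    rw [Finset.lt_inf'_iff]
    exact fun j _ => hw0 j
  refine ⟨c, hc0, ?_⟩
  have h4 : ∑ j, theta hπ (z j) x - c • om = ∑ j, (w j - c) • pair ic (Pi.single j 1) := by
    rw [om_eq_pair, Finset.smul_sum, ← Finset.sum_sub_distrib]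
    refine Finset.sum_congr rfl fun j _ => ?_
    rw [theta, hg, sub_smul]
  rw [h4]
  exact sum_mem fun j _ => smul_pair_mem ic (sub_nonneg.2 (hc j)) _

end EH
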