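import Pool.Agent.Work.MP_9eee85_co.EH.GComp
import Pool.Agent.Work.MP_9eee85_co.EH.GConst
import Pool.Agent.Work.MP_9eee85_co.EH.DX
import Pool.Agent.Work.MP_9eee85_co.EH.LPart

/-!
Closed square integrable forms.
-/

noncomputable section

namespace EH

open MeasureTheory Filter Topology Set EHPos
open scoped ContDiff

variable {X : Type} [TopologicalSpace X] [T2Space X] [SecondCountableTopology X]
  [MeasurableSpace X] [BorelSpace X] {π : X → Bs} {hπ : IsLocalHomeomorph π} {ν : Measure X}

/-- closed square integrable `J`-invariant two-forms -/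
structure IsU {w : X → E} (g : Gauge hπ w) (ν : Measure X) (v : X → E) : Prop where
  deg : ∀ x, v x ∈ Deg 2
  inv : ∀ x, J (v x) = v x
  l2 : g.L2 ν v
  closed : WClosed hπ ν v

/-- the integral of `top (dX β)` for a test form -/
lemma gu_integral_top_dX (hν : IsLift π volume ν) {β : X → E} (hβ : β ∈ Tst hπ) :
    ∫ x, top (dX hπ β x) ∂ν = 0 := by
  have hm : LSm hπ 1 β := hβ.1.mono hπ le_top
  have h1 : ∀ a : Fin 10, LSm hπ 1 (fun x => top (e a * β x)) := fun a =>
    (hm.const_mulE hπ (e a)).linear hπ top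
  have hc : ∀ a : Fin 10, HasCompactSupport (fun x => top (e a * β x)) := fun a =>
    HasCompactSupport.intro hβ.2.isCompact fun x hx => by
      rw [image_eq_zero_of_notMem_tsupport hx]; simp
  have h2 : ∀ (a : Fin 10) (x : X), LD hπ (fun y => top (e a * β y)) x (bv a) =
      top (e a * LD hπ β x (bv a)) := fun a x => by
    rw [LD_linear_apply hπ (hm.const_mulE hπ (e a)) top, LD_const_mulE hπ (e a) hm]
  have h3 : ∀ x, top (dX hπ β x) = ∑ a, LD hπ (fun y => top (e a * β y)) x (bv a) := fun x => by
    rw [dX, map_sum]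
    exact Finset.sum_congr rfl fun a _ => (h2 a x).symm
  simp_rw [h3]
  rw [integral_finsetSum]
  · exact Finset.sum_eq_zero fun a _ => integral_LD_eq_zero hπ hν (h1 a) (hc a) (bv a)
  · intro a _
    exact integrable_of_compact hπ hν
      (((h1 a).LD_apply hπ (m := 0) (by norm_num) (bv a)).continuous hπ)
      ((hasCompactSupport_LD hπ (hc a)).comp_left (g := fun T : Bs →L[ℝ] ℝ => T (bv a)) (by simp))

/-- smooth closed forms are weakly closed -/
theorem WClosed.of_smooth (hν : IsLift π volume ν) {k : ℕ} {v : X → E} (sm : LSm hπ ⊤ v)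
    (hd : ∀ x, v x ∈ Deg k) (hc : ∀ x, dX hπ v x = 0) : WClosed hπ ν v := by
  intro α hα
  have hvm : LSm hπ 1 v := sm.mono hπ le_top
  have hαm : LSm hπ 1 α := hα.1.mono hπ le_top
  have h1 : ∀ x, top (v x * dX hπ α x) =
      (-1 : ℝ) ^ k * top (dX hπ (fun y => v y * α y) x) := by
    intro x
    rw [dX_mul hπ hvm hαm hd x, hc x, zero_mul, zero_add, map_smul, smul_eq_mul, ← mul_assoc,
      ← mul_pow]
    norm_num
  have h2 : (fun y => v y * α y) ∈ Tst hπ := by
    refine ⟨sm.mulE hπ hα.1, HasCompactSupport.intro hα.2.isCompact fun x hx => ?_⟩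
    rw [image_eq_zero_of_notMem_tsupport hx, mul_zero]
  simp_rw [h1]
  rw [integral_const_mul, gu_integral_top_dX hν h2, mul_zero]

/-- the measure of a gauge is locally finite -/
theorem Gauge.isLocallyFinite_mu (hν : IsLift π volume ν) {w : X → E} (g : Gauge hπ w) :
    IsLocallyFiniteMeasure (g.mu ν) := by
  have : IsFiniteMeasureOnCompacts ν := isFiniteMeasureOnCompacts_lift hπ hν
  have : IsLocallyFiniteMeasure ν := by
    constructor
    intro x
    obtain ⟨K, hK, hKx⟩ := exists_compact_nhds hπ x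
    exact ⟨K, hKx, hK.measure_lt_top⟩
  exact IsLocallyFiniteMeasure.withDensity_ofReal g.continuous_det

/-- continuous forms with compact support are square integrable in the gauge -/
theorem Gauge.L2_of_tst (hν : IsLift π volume ν) {w : X → E} (g : Gauge hπ w) {F : X → E}
    (hF : F ∈ Tst hπ) : g.L2 ν F := by
  have := g.isLocallyFinite_mu hν
  have h := g.Gi_tst hF
  exact (h.1.continuous hπ).memLp_of_hasCompactSupport h.2

/-- the product of two square integrable forms -/
theorem gu_integrable_top_mul {μ : Measure X} {a b : X → E} (ha : MemLp a 2 μ) (hb : MemLp b 2 μ) :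
    Integrable (fun x => top (a x * b x)) μ := by
  obtain ⟨M, hM, hmul⟩ := Pt.exists_mul_bound
  have h1 : Integrable (fun x => M * (‖a x‖ * ‖b x‖)) μ :=
    (MemLp.integrable_mul (𝕜 := ℝ) ha.norm hb.norm).const_mul M
  refine h1.mono' ?_ (Eventually.of_forall fun x => ?_)
  · have hcont : Continuous fun p : E × E => top (p.1 * p.2) := by
      have h2 : Continuous fun p : E × E => p.1 * p.2 :=
        (LinearMap.toContinuousLinearMap
          ((LinearMap.toContinuousLinearMap : (E →ₗ[ℝ] E) ≃ₗ[ℝ] (E →L[ℝ] E)).toLinearMap ∘ₗ mulL) :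
            E →L[ℝ] E →L[ℝ] E).isBoundedBilinearMap.continuous
      exact (LinearMap.continuous_of_finiteDimensional top).comp h2
    exact hcont.comp_aestronglyMeasurable (ha.1.prodMk hb.1)
  · rw [Real.norm_eq_abs]
    calc |top (a x * b x)| ≤ ‖a x * b x‖ := Pt.abs_top_le _
      _ ≤ M * ‖a x‖ * ‖b x‖ := hmul _ _
      _ = M * (‖a x‖ * ‖b x‖) := by ring

/-- square integrable forms against test forms -/
theorem Gauge.integrable_top_mul_tst (hν : IsLift π volume ν) {w : X → E} (g : Gauge hπ w)
    {v F : X → E} (hv : g.L2 ν v) (hF : F ∈ Tst hπ) : Integrable (fun x => top (v x * F x)) ν := by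
  rw [← g.integrable_top]
  simp_rw [g.Gi_mul]
  exact gu_integrable_top_mul hv (g.L2_of_tst hν hF)

lemma Tst.dX_mem {F : X → E} (hF : F ∈ Tst hπ) : dX hπ F ∈ Tst hπ :=
  ⟨hF.1.dX hπ le_rfl, hF.2.of_isClosed_subset (isClosed_tsupport _) (tsupport_dX_subset hπ F)⟩

/-- the space of closed square integrable `J`-invariant two-forms -/
def USub (hν : IsLift π volume ν) {w : X → E} (g : Gauge hπ w) : Submodule ℝ (X → E) where
  carrier := {v | IsU g ν v}
  add_mem' := by
    rintro a b ha hb
    refine ⟨fun x => (Deg 2).add_mem (ha.deg x) (hb.deg x), fun x => ?_, ?_, fun α hα => ?_⟩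
    · rw [Pi.add_apply, map_add, ha.inv x, hb.inv x]
    · have h := MemLp.add ha.l2 hb.l2
      have h2 : (fun x => g.Gi x ((a + b) x)) =
          (fun x => g.Gi x (a x)) + fun x => g.Gi x (b x) := by
        funext x; simp
      show MemLp (fun x => g.Gi x ((a + b) x)) 2 (g.mu ν)
      rw [h2]; exact h
    · simp only [Pi.add_apply, add_mul, map_add]
      rw [integral_add (g.integrable_top_mul_tst hν ha.l2 (Tst.dX_mem hα))
        (g.integrable_top_mul_tst hν hb.l2 (Tst.dX_mem hα)), ha.closed α hα, hb.closed α hα,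
        add_zero]
  zero_mem' := by
    refine ⟨fun x => (Deg 2).zero_mem, fun x => by simp, ?_, fun α hα => ?_⟩
    · show MemLp (fun x => g.Gi x ((0 : X → E) x)) 2 (g.mu ν)
      simp
    · simp
  smul_mem' := by
    rintro c a ha
    refine ⟨fun x => (Deg 2).smul_mem c (ha.deg x), fun x => ?_, ?_, fun α hα => ?_⟩
    · rw [Pi.smul_apply, map_smul, ha.inv x]
    · have h := MemLp.const_smul ha.l2 c
      have h2 : (fun x => g.Gi x ((c • a) x)) = c • fun x => g.Gi x (a x) := by
        funext x; simp
      show MemLp (fun x => g.Gi x ((c • a) x)) 2 (g.mu ν)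
      rw [h2]; exact h
    · simp only [Pi.smul_apply, smul_mul_assoc, map_smul]
      rw [integral_smul, ha.closed α hα, smul_zero]

end EH
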