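import Pool.Agent.Work.MP_9eee85_co.EH.Defs
import Pool.Agent.Work.MP_9eee85_co.EH.ConeE

/-!
# Geometry on a space `X` with a local homeomorphism to `ℂ^5`: definitions

* `Hol`: holomorphic functions, `cgrad` the conjugate of the complex gradient;
* `theta f = π⁻¹ (1 + |f|²)⁻² d(re f) d(im f)`, `psi f = log (1 + |f|²)`;
* `Fam`: a finite family of holomorphic functions whose potential is proper and all whose
  numbers are finite; `Fam.ex` the exhaustion, `Fam.omP` the auxiliary complete form,
  `Fam.th : Option J → X → E` all the forms;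
* `KForm`: complete Kaehler forms of finite volume;
* `Gauge`: smooth frames of a Kaehler form, `Gauge.mu` its measure.
-/

noncomputable section

namespace EH

open MeasureTheory Filter Topology Set EHPos
open scoped ContDiff

variable {X : Type} [TopologicalSpace X] {π : X → Bs} (hπ : IsLocalHomeomorph π)

/-- holomorphic functions: smooth with the Cauchy-Riemann equations -/
structure Hol (f : X → ℂ) : Prop where
  sm : LSm hπ ⊤ f
  cr : ∀ x j, LD hπ f x (bv (yi j)) = Complex.I * LD hπ f x (bv (xi j))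

/-- the conjugate of the complex gradient -/
def cgrad (f : X → ℂ) (x : X) : Bs := fun j => starRingEnd ℂ (LD hπ f x (bv (xi j)))

/-- the form `π⁻¹ (1 + |f|²)⁻² d(re f) d(im f)` of a holomorphic function -/
def theta (f : X → ℂ) (x : X) : E := (Real.pi * (1 + ‖f x‖ ^ 2) ^ 2)⁻¹ • pair ic (cgrad hπ f x)

/-- the potential `log (1 + |f|²)`, `ddc (psi f) = 4 π theta f` -/
def psi (f : X → ℂ) (x : X) : ℝ := Real.log (1 + ‖f x‖ ^ 2)

/-- the differential of a real function, as a form -/
def dfn (f : X → ℝ) (x : X) : E := cov (LD hπ f x)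

/-- `dc f = J⁻¹ d f` for a real function `f` -/
def dcfn (f : X → ℝ) (x : X) : E := Jinv (dfn hπ f x)

/-- the vector `w` with `ic w = d (∑ psi (g j))`, for holomorphic functions `g j` -/
def wvec {J : Type} [Fintype J] (g : J → X → ℂ) (x : X) : Bs :=
  ∑ j, (2 * (1 + ‖g j x‖ ^ 2)⁻¹) • (g j x • cgrad hπ (g j) x)

/-- the complete form of a family `g` with potential `A = ∑ psi (g j)`:
`2 ddc A - ddc log (1 + A) = (2 - (1 + A)⁻¹) ddc A + (1 + A)⁻² dA dcA` -/
def omP {J : Type} [Fintype J] (g : J → X → ℂ) (x : X) : E :=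
  (4 * Real.pi * (2 - (1 + ∑ j, psi (g j) x)⁻¹)) • (∑ j, theta hπ (g j) x) +
    (((1 + ∑ j, psi (g j) x) ^ 2)⁻¹) • pair ic (wvec hπ g x)

/-- the product of five forms, integrated against `ν` in `integral5` -/
def prod5 (a : Fin 5 → E) : E := a 0 * a 1 * a 2 * a 3 * a 4

/-- a finite family of holomorphic functions, containing the coordinates, whose potential is
proper and all whose numbers are finite -/
structure Fam [MeasurableSpace X] (ν : Measure X) (J : Type) [Fintype J] where
  lift : IsLift π volume ν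
  g : J → X → ℂ
  hol : ∀ j, Hol hπ (g j)
  z : Fin 5 → J
  gz : ∀ j x, g (z j) x = π x j
  proper : ∀ c : ℝ, IsCompact {x : X | ∑ j, psi (g j) x ≤ c}
  fin : ∀ t : Fin 5 → J, Integrable (fun x => top (prod5 fun i => theta hπ (g (t i)) x)) ν

namespace Fam

variable {hπ} [MeasurableSpace X] {ν : Measure X} {J : Type} [Fintype J] (A : Fam hπ ν J)

/-- the exhaustion function -/
def ex (x : X) : ℝ := ∑ j, psi (A.g j) x

/-- the forms of the family; `none` is the complete form -/
def th (i : Option J) : X → E := i.elim (omP hπ A.g) (fun j => theta hπ (A.g j))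

/-- the form of a weight -/
def omW {ι : Type} [Fintype ι] (e : ι → J) (w : Option ι → ℝ) (x : X) : E :=
  ∑ i, w i • A.th (i.map e) x

end Fam

/-- a complete Kaehler form of finite volume -/
structure KForm [MeasurableSpace X] (ν : Measure X) where
  lift : IsLift π volume ν
  w : X → E
  sm : LSm hπ ⊤ w
  closed : ∀ x, dX hπ w x = 0
  mem : ∀ x, w x ∈ cone ic
  pos : ∀ x, ∃ c : ℝ, 0 < c ∧ w x - c • om ∈ cone ic
  rho : X → ℝ
  smrho : LSm hπ ⊤ rho
  proper : ∀ c : ℝ, IsCompact {x : X | rho x ≤ c}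
  c : ℝ
  c_pos : 0 < c
  complete : ∀ x, w x - c • (dfn hπ rho x * dcfn hπ rho x) ∈ cone ic
  fin : Integrable (fun x => top (w x ^ 5)) ν

/-- a smooth frame of a form `w`: algebra automorphisms `G x` of `E`, induced by complex linear
maps of `ℂ^5`, with `G x om = w x` -/
structure Gauge (w : X → E) where
  A : X → Fin 5 → Fin 5 → ℂ
  Ai : X → Fin 5 → Fin 5 → ℂ
  smA : LSm hπ ⊤ A
  smAi : LSm hπ ⊤ Ai
  mul_inv : ∀ x, Matrix.of (A x) * Matrix.of (Ai x) = 1
  G : X → E →ₗ[ℝ] E
  Gi : X → E →ₗ[ℝ] E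
  G_eq : ∀ x (v : EuclideanSpace ℝ (Fin 10)), G x (gen v) = gen (rmat (A x) v)
  Gi_eq : ∀ x (v : EuclideanSpace ℝ (Fin 10)), Gi x (gen v) = gen (rmat (Ai x) v)
  G_one : ∀ x, G x 1 = 1
  Gi_one : ∀ x, Gi x 1 = 1
  G_mul : ∀ x a b, G x (a * b) = G x a * G x b
  Gi_mul : ∀ x a b, Gi x (a * b) = Gi x a * Gi x b
  map_om : ∀ x, G x om = w x

namespace Gauge

variable {hπ} {w : X → E} (g : Gauge hπ w)

/-- the Jacobian of the frame: `top (G x a) = det x * top a`, `120 det = top (w ^ 5)` -/
def det (x : X) : ℝ := top (g.G x (mono Finset.univ))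

/-- the volume measure of the metric -/
def mu [MeasurableSpace X] (ν : Measure X) : Measure X :=
  ν.withDensity fun x => ENNReal.ofReal (g.det x)

/-- the exterior derivative in the gauge -/
def dG (v : X → E) (x : X) : E := g.Gi x (dX hπ (fun y => g.G y (v y)) x)

/-- square integrable forms -/
def L2 [MeasurableSpace X] (ν : Measure X) (v : X → E) : Prop :=
  MemLp (fun x => g.Gi x (v x)) 2 (g.mu ν)

end Gauge

/-- a semipositive form is at most `w` -/
def Below (w : X → E) (N : X → E) : Prop := ∀ x, N x ∈ cone ic ∧ w x - N x ∈ cone ic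

end EH
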