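import Pool.Agent.Work.MP_9eee85_co.EH.HodgeAdj

/-!
# The harmonic part of a closed form, and the Hodge-Riemann relations

`harmonic_part`, `hr1` (degree two), `hr2` (degree four).
-/

noncomputable section

namespace EH

open MeasureTheory Filter Topology Finset

namespace HodgeCalc

universe u

variable {X : Type u} [MeasurableSpace X] {μ : Measure X} (C : HodgeCalc μ)

/-- the closure of the exact forms in `L²` -/
def exactC : Set (Lp E 2 μ) := closure (Set.range fun α : C.D => C.ι (C.d α))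

/-- A closed form is orthogonal to the image of `δ`. -/
lemma closed_iff (f : HFacts) {k : ℕ} (hk : Even k) {v : X → E} (hv : MemLp v 2 μ)
    (hdeg : IsDeg k v) (hcl : C.Closed v) (α : C.D) :
    inner ℝ (hv.toLp v) (C.ι (C.δ α)) = 0 := by
  rw [ι_apply, inner_toLp]
  have h1 : ∀ x, inner ℝ (v x) ((C.δ α : X → E) x)
      = -top (v x * (C.d (opD C.D C.op_mem star α) : X → E) x) := by
    intro x
    rw [C.δ_apply, inner_neg_right, top_mul_of f (hdeg x), hk.neg_one_pow, one_mul]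
  simp only [h1]
  rw [integral_neg, hcl, neg_zero]

end HodgeCalc

lemma pr_of_ne {j k : ℕ} (h : j ≠ k) {a : E} (ha : a ∈ Deg j) : pr k a = 0 := by
  ext S
  rw [co_pr, co_zero]
  by_cases hS : S.card = k
  · rw [if_pos hS]; exact ha S (by omega)
  · rw [if_neg hS]

lemma inner_pr' (k : ℕ) (a b : E) : inner ℝ (pr k a) b = inner ℝ a (pr k b) := by
  rw [inner_eq, inner_eq]
  refine sum_congr rfl fun S _ => ?_
  rw [co_pr, co_pr]
  split_ifs <;> simp

/-- symmetrisation -/
def avg (k : ℕ) : E →ₗ[ℝ] E := (2 : ℝ)⁻¹ • ((1 : Module.End ℝ E) + J) * pr k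

lemma avg_apply (k : ℕ) (a : E) : avg k a = (2 : ℝ)⁻¹ • (pr k a + J (pr k a)) := rfl

lemma avg_mem (f : HFacts) (k : ℕ) (a : E) : avg k a ∈ Deg k := by
  rw [avg_apply]
  exact Submodule.smul_mem _ _ (Submodule.add_mem _ (pr_mem_Deg k a)
    (f.J_mem k _ (pr_mem_Deg k a)))

lemma J_avg (f : HFacts) {k : ℕ} (hk : Even k) (a : E) : J (avg k a) = avg k a := by
  rw [avg_apply, map_smul, map_add, f.JJ, par_of (pr_mem_Deg k a), hk.neg_one_pow, one_smul,
    add_comm]

lemma avg_of {k : ℕ} {a : E} (h1 : pr k a = a) (h2 : J a = a) : avg k a = a := by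
  rw [avg_apply, h1, h2, ← two_smul ℝ a, smul_smul]
  norm_num

lemma top_mul_eq_inner (f : HFacts) (a b : E) : top (a * b) = inner ℝ a (star (par b)) := by
  have h2 : star (star (par b)) = b := by
    rw [f.star_star]
    exact LinearMap.congr_fun parpar b
  conv_lhs => rw [← h2]
  rw [top_mul_star]

namespace HodgeCalc

universe u

variable {X : Type u} [MeasurableSpace X] {μ : Measure X} (C : HodgeCalc μ)

lemma pr_d (k : ℕ) (α : C.D) : ∃ β : C.D, C.opH (pr k) (C.d α) = C.d β := by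
  cases k with
  | zero =>
    refine ⟨0, ?_⟩
    have : C.opH (pr 0) * C.d = 0 := by
      refine C.hom_ext fun j _ v hv => ?_
      ext x : 2
      exact pr_of_ne (Nat.succ_ne_zero j) (C.d_deg j v hv x)
    have h := LinearMap.congr_fun this α
    rw [map_zero]
    exact h
  | succ k =>
    refine ⟨C.opH (pr k) α, ?_⟩
    have : C.opH (pr (k + 1)) * C.d = C.d * C.opH (pr k) := by
      refine C.hom_ext fun j _ v hv => ?_
      have e1 : (C.opH (pr (k + 1)) * C.d) v = C.opH (pr (k + 1)) (C.d v) := rfl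
      have e2 : (C.d * C.opH (pr k)) v = C.d (C.opH (pr k) v) := rfl
      rw [e1, e2]
      by_cases h : j = k
      · have a1 : C.opH (pr k) v = v := by
          ext x : 2
          exact pr_of_mem (h ▸ hv x)
        rw [a1]
        ext x : 2
        exact pr_of_mem (h ▸ C.d_deg j v hv x)
      · have a1 : C.opH (pr k) v = 0 := by
          ext x : 2
          exact pr_of_ne h (hv x)
        rw [a1, map_zero]
        ext x : 2
        exact pr_of_ne (by omega) (C.d_deg j v hv x)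
    exact LinearMap.congr_fun this α

/-- the projection to degree `k` preserves the closure of the exact forms -/
lemma lpOp_pr_mem (k : ℕ) {v : Lp E 2 μ} (hv : v ∈ C.exactC) : lpOp μ (pr k) v ∈ C.exactC := by
  refine map_mem_closure (lpOp μ (pr k)).continuous hv ?_
  rintro _ ⟨α, rfl⟩
  obtain ⟨β, hβ⟩ := C.pr_d k α
  refine ⟨β, ?_⟩
  simp only
  rw [← hβ, ι_apply, ι_apply, lpOp_toLp]
  rfl

lemma inner_lpOp_pr (k : ℕ) (u v : Lp E 2 μ) :
    inner ℝ (lpOp μ (pr k) u) v = inner ℝ u (lpOp μ (pr k) v) := by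
  rw [← Lp.toLp_coeFn u (Lp.memLp u), ← Lp.toLp_coeFn v (Lp.memLp v), lpOp_toLp, lpOp_toLp,
    inner_toLp, inner_toLp]
  refine integral_congr_ae (Eventually.of_forall fun x => ?_)
  exact inner_pr' k _ _

lemma inner_exact {u κ : Lp E 2 μ} (hu : ∀ α, inner ℝ u (C.ι (C.d α)) = 0)
    (hκ : κ ∈ C.exactC) : inner ℝ u κ = 0 := by
  have hcl : IsClosed {x : Lp E 2 μ | inner ℝ u x = 0} :=
    isClosed_eq (continuous_const.inner continuous_id) continuous_const
  have hsub : C.exactC ⊆ {x : Lp E 2 μ | inner ℝ u x = 0} := by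
    refine closure_minimal ?_ hcl
    rintro _ ⟨α, rfl⟩
    exact hu α
  exact hsub hκ

/-- The harmonic part of a closed invariant form of even degree. -/
theorem harmonic_part (f : HFacts) {k : ℕ} (hk : Even k) (hk10 : k ≤ 10) {φ : X → E}
    (hφ : IsInvForm μ k φ) (hcl : C.Closed φ) :
    ∃ w : X → E, IsInvForm μ k w ∧ C.Closed w ∧ C.Closed (fun x => star (w x)) ∧
      ∀ (m : ℕ) (ψ : X → E), Even m → IsDeg m ψ → MemLp ψ 2 μ → C.Closed ψ →
        ∫ x, top ((φ x - w x) * ψ x) ∂μ = 0 := by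
  obtain ⟨Φh, hharm, hex, hJ⟩ := (C.hcx f).exists_harm
    (φ := hφ.memLp.toLp φ) (fun α => C.closed_iff f hk hφ.memLp hφ.deg hcl α)
  have hΦJ : (JLp μ f) (hφ.memLp.toLp φ) = hφ.memLp.toLp φ := by
    have : (JLp μ f) (hφ.memLp.toLp φ) = lpOp μ J (hφ.memLp.toLp φ) := rfl
    rw [this, lpOp_toLp]
    exact (MemLp.toLp_eq_toLp_iff _ _).2 (Eventually.of_forall hφ.inv)
  have hJ' : lpOp μ J Φh = Φh := hJ hΦJ
  have hex' : hφ.memLp.toLp φ - Φh ∈ C.exactC := hex
  have h1 : ∀ α, inner ℝ Φh (C.ι (C.d α)) = 0 := hharm.1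
  have h2 : ∀ α, inner ℝ Φh (C.ι (C.δ α)) = 0 := hharm.2
  -- degree
  have hP : lpOp μ (pr k) Φh = Φh := by
    obtain ⟨w0, hw0⟩ : ∃ w0, w0 = Φh - lpOp μ (pr k) Φh := ⟨_, rfl⟩
    have hPφ : lpOp μ (pr k) (hφ.memLp.toLp φ) = hφ.memLp.toLp φ := by
      rw [lpOp_toLp]
      exact (MemLp.toLp_eq_toLp_iff _ _).2 (Eventually.of_forall fun x => pr_of_mem (hφ.deg x))
    have horth : ∀ κ ∈ C.exactC, inner ℝ w0 κ = 0 := by
      intro κ hκ
      rw [hw0, inner_sub_left, inner_lpOp_pr, C.inner_exact h1 hκ,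
        C.inner_exact h1 (C.lpOp_pr_mem k hκ), sub_zero]
    have e : w0 = lpOp μ (pr k) (hφ.memLp.toLp φ - Φh) - (hφ.memLp.toLp φ - Φh) := by
      rw [hw0, map_sub, hPφ]; abel
    have h3 : inner ℝ w0 w0 = (0 : ℝ) := by
      conv_lhs => rw [e]
      rw [inner_sub_left, real_inner_comm, ← e, horth _ (C.lpOp_pr_mem k hex'),
        real_inner_comm, horth _ hex', sub_zero]
    have h4 : w0 = 0 := inner_self_eq_zero.1 h3
    rw [hw0] at h4
    exact (sub_eq_zero.1 h4).symm
  -- the representative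
  obtain ⟨w, hw⟩ : ∃ w : X → E, w = fun x => avg k ((Φh : X → E) x) := ⟨_, rfl⟩
  have hwm : MemLp w 2 μ := by rw [hw]; exact memLp_op (avg k) (Lp.memLp Φh)
  have hae : w =ᵐ[μ] Φh := by
    have c1 := (LinearMap.toContinuousLinearMap (pr k)).coeFn_compLpL Φh
    have c2 := (LinearMap.toContinuousLinearMap (J : Module.End ℝ E)).coeFn_compLpL Φh
    have c1' : ((lpOp μ (pr k) Φh : Lp E 2 μ) : X → E) =ᵐ[μ] fun x => pr k ((Φh : X → E) x) := c1
    have c2' : ((lpOp μ J Φh : Lp E 2 μ) : X → E) =ᵐ[μ] fun x => J ((Φh : X → E) x) := c2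
    rw [hP] at c1'
    rw [hJ'] at c2'
    filter_upwards [c1', c2'] with x a1 a2
    rw [hw]
    exact avg_of a1.symm a2.symm
  have hwΦ : hwm.toLp w = Φh := by
    conv_rhs => rw [← Lp.toLp_coeFn Φh (Lp.memLp Φh)]
    exact (MemLp.toLp_eq_toLp_iff _ _).2 hae
  have hwd : IsDeg k w := fun x => by rw [hw]; exact avg_mem f k _
  refine ⟨w, ⟨hwm, hwd, fun x => by rw [hw]; exact J_avg f hk _⟩, ?_, ?_, ?_⟩
  · intro α
    have h3 := h2 (C.opH (star * par) α)
    rw [← hwΦ, ι_apply, inner_toLp] at h3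
    have e : ∀ x, inner ℝ (w x) ((C.δ (C.opH (star * par) α) : X → E) x)
        = -top (w x * (C.d α : X → E) x) := by
      intro x
      have e1 : opD C.D C.op_mem star (C.opH (star * par) α) = α := by
        ext y : 2
        have : (opD C.D C.op_mem star (C.opH (star * par) α) : X → E) y
            = star (star (par ((α : X → E) y))) := rfl
        rw [this, f.star_star]
        exact LinearMap.congr_fun parpar _
      rw [C.δ_apply, e1, inner_neg_right, top_mul_of f (hwd x), hk.neg_one_pow, one_mul]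
    simp only [e, integral_neg, neg_eq_zero] at h3
    exact h3
  · intro α
    have h3 := h1 α
    rw [← hwΦ, ι_apply, inner_toLp] at h3
    rw [← h3]
    refine integral_congr_ae (Eventually.of_forall fun x => ?_)
    have hm : star (w x) ∈ Deg (10 - k) := f.star_mem k _ (hwd x)
    have hev : Even (10 - k) := by
      rw [Nat.even_sub hk10]
      exact ⟨fun _ => hk, fun _ => ⟨5, rfl⟩⟩
    simp only
    rw [mul_comm_even hev hm, top_mul_star, real_inner_comm]
  · intro m ψ hm hψd hψ hψc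
    have hΨ := memLp_op (star ∘ₗ par) hψ
    have h3 : ∀ α, inner ℝ (hΨ.toLp _) (C.ι (C.d α)) = 0 := by
      intro α
      rw [ι_apply, inner_toLp, ← hψc α]
      refine integral_congr_ae (Eventually.of_forall fun x => ?_)
      simp only
      rw [mul_comm_even hm (hψd x), top_mul_eq_inner f, real_inner_comm]
      rfl
    have h4 := C.inner_exact h3 hex'
    have e : hφ.memLp.toLp φ - Φh = (hφ.memLp.sub hwm).toLp _ := by
      rw [MemLp.toLp_sub hφ.memLp hwm, hwΦ]
    rw [e, inner_toLp] at h4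
    rw [← h4]
    refine integral_congr_ae (Eventually.of_forall fun x => ?_)
    simp only
    rw [top_mul_eq_inner f, real_inner_comm]
    rfl

/-! ### closed forms -/

lemma opH_Lop_pow (n : ℕ) (v : C.D) (x : X) :
    (((C.opH Lop) ^ n) v : X → E) x = om ^ n * (v : X → E) x := by
  rw [← map_pow, C.opH_apply, Lop_pow_apply]

lemma d_Lop_pow (n : ℕ) (α : C.D) :
    C.d (((C.opH Lop) ^ n) α) = ((C.opH Lop) ^ n) (C.d α) := by
  induction n generalizing α with
  | zero => rfl
  | succ n ih =>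
    have e1 : ((C.opH Lop) ^ (n + 1)) α = ((C.opH Lop) ^ n) (C.opH Lop α) := by
      rw [pow_succ]; rfl
    have e2 : ((C.opH Lop) ^ (n + 1)) (C.d α) = ((C.opH Lop) ^ n) (C.opH Lop (C.d α)) := by
      rw [pow_succ]; rfl
    rw [e1, e2, ih]
    congr 1
    exact C.d_L α

lemma om_pow_comm (n : ℕ) (a : E) : om ^ n * a = a * om ^ n :=
  mul_comm_even (k := 2 * n) ⟨n, by ring⟩ (om_pow_mem_Deg n) a

/-- `∫ om^n v dα` -/
lemma int_om_pow (n : ℕ) (v : X → E) (α : C.D) :
    ∫ x, top (om ^ n * v x * (C.d α : X → E) x) ∂μ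
      = ∫ x, top (v x * (C.d (((C.opH Lop) ^ n) α) : X → E) x) ∂μ := by
  refine integral_congr_ae (Eventually.of_forall fun x => ?_)
  simp only
  rw [C.d_Lop_pow, C.opH_Lop_pow, om_pow_comm, mul_assoc]

lemma Closed.om_pow {v : X → E} (h : C.Closed v) (n : ℕ) : C.Closed (fun x => om ^ n * v x) := by
  intro α
  rw [C.int_om_pow]
  exact h _

lemma closed_const (n : ℕ) : C.Closed (fun _ => om ^ n) := by
  intro α
  have h := C.stokes0 (((C.opH Lop) ^ n) α)
  rw [← h]
  refine integral_congr_ae (Eventually.of_forall fun x => ?_)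
  simp only
  rw [C.d_Lop_pow, C.opH_Lop_pow]

lemma Closed.add (f : HFacts) {v w : X → E} (hv : C.Closed v) (hw : C.Closed w)
    (mv : MemLp v 2 μ) (mw : MemLp w 2 μ) : C.Closed (fun x => v x + w x) := by
  intro α
  have e : ∀ x, top ((v x + w x) * (C.d α : X → E) x)
      = top (v x * (C.d α : X → E) x) + top (w x * (C.d α : X → E) x) := by
    intro x; rw [add_mul, map_add]
  simp only [e]
  rw [integral_add (integrable_top_mul f mv (C.memLp _ (C.d α).2))
    (integrable_top_mul f mw (C.memLp _ (C.d α).2)), hv, hw, add_zero]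

/-- only one component of `α` matters in `top (a * dα)` -/
lemma top_mul_d {i j : ℕ} (hij : i + j = 9) {a : E} (ha : a ∈ Deg j) (α : C.D) (x : X) :
    top (a * (C.d α : X → E) x) = top (a * (C.d (C.opH (pr i) α) : X → E) x) := by
  have key : ((top ∘ₗ (mulL a)) ∘ₗ (LinearMap.proj x ∘ₗ C.D.subtype) ∘ₗ C.d : C.D →ₗ[ℝ] ℝ)
      = (top ∘ₗ (mulL a)) ∘ₗ (LinearMap.proj x ∘ₗ C.D.subtype) ∘ₗ C.d ∘ₗ C.opH (pr i) := by
    refine C.hom_ext fun l _ v hv => ?_
    have e1 : ((top ∘ₗ (mulL a)) ∘ₗ (LinearMap.proj x ∘ₗ C.D.subtype) ∘ₗ C.d : C.D →ₗ[ℝ] ℝ) v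
        = top (a * (C.d v : X → E) x) := rfl
    have e2 : ((top ∘ₗ (mulL a)) ∘ₗ (LinearMap.proj x ∘ₗ C.D.subtype) ∘ₗ C.d ∘ₗ C.opH (pr i)
        : C.D →ₗ[ℝ] ℝ) v = top (a * (C.d (C.opH (pr i) v) : X → E) x) := rfl
    rw [e1, e2]
    by_cases h : l = i
    · have : C.opH (pr i) v = v := by
        ext y : 2
        exact pr_of_mem (h ▸ hv y)
      rw [this]
    · have : C.opH (pr i) v = 0 := by
        ext y : 2
        exact pr_of_ne h (hv y)
      rw [this, map_zero, top_eq_zero_of_Deg (k := j + (l + 1)) (by omega)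
        (mul_mem_Deg ha (C.d_deg l v hv x))]
      have z : ((0 : C.D) : X → E) x = 0 := rfl
      rw [z, mul_zero, map_zero]
  exact LinearMap.congr_fun key α

/-- a function `c` with `c om^4` closed is constant -/
theorem const_of (f : HFacts) {c : X → ℝ} (hc : MemLp c 2 μ)
    (h : ∀ α : C.D, ∫ x, c x * top (om ^ 4 * (C.d α : X → E) x) ∂μ = 0) :
    ∃ c₀ : ℝ, c =ᵐ[μ] fun _ => c₀ := by
  refine C.const c hc fun α => ?_
  rw [← h (C.opH S9 (C.opH (pr 9) α))]
  refine integral_congr_ae (Eventually.of_forall fun x => ?_)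
  simp only
  congr 1
  have e1 : top ((C.d α : X → E) x) = top ((C.d (C.opH (pr 9) α) : X → E) x) := by
    have := C.top_mul_d (i := 9) (j := 0) rfl one_mem_Deg α x
    rwa [one_mul, one_mul] at this
  have e2 : ((C.opH Lop) ^ 4) (C.opH S9 (C.opH (pr 9) α)) = C.opH (pr 9) α := by
    ext y : 2
    rw [C.opH_Lop_pow]
    exact om4_S9 f.e2 (pr_mem_Deg 9 _)
  rw [e1, ← e2, C.d_Lop_pow, C.opH_Lop_pow, e2]

end HodgeCalc

lemma memLp_clm {X : Type*} [MeasurableSpace X] {μ : Measure X} (T : E →ₗ[ℝ] ℝ) {v : X → E}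
    (hv : MemLp v 2 μ) : MemLp (fun x => T (v x)) 2 μ :=
  (LinearMap.toContinuousLinearMap T).comp_memLp' hv

lemma memLp_om {X : Type*} [MeasurableSpace X] {μ : Measure X} (n : ℕ) {v : X → E}
    (hv : MemLp v 2 μ) : MemLp (fun x => om ^ n * v x) 2 μ :=
  memLp_op (mulL (om ^ n)) hv

lemma integrable_norm_sq {X : Type*} [MeasurableSpace X] {μ : Measure X} {v : X → E}
    (hv : MemLp v 2 μ) : Integrable (fun x => ‖v x‖ ^ 2) μ := by
  have := integrable_inner_of hv hv
  simpa only [real_inner_self_eq_norm_sq] using this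

/-- **Hodge index theorem.** -/
theorem hr1 (f : HFacts) {X : Type*} [MeasurableSpace X] (μ : Measure X) [IsFiniteMeasure μ]
    (C : HodgeCalc μ) (v : X → E) (hv : IsInvForm μ 2 v) (hcl : C.Closed v) :
    (∫ _, top (om ^ 5) ∂μ) * (∫ x, top (om ^ 3 * v x * v x) ∂μ)
      ≤ (∫ x, top (om ^ 4 * v x) ∂μ) ^ 2 := by
  obtain ⟨w, hw, hwc, hws, horth⟩ := C.harmonic_part f (k := 2) ⟨1, rfl⟩ (by norm_num) hv hcl
  have hu : MemLp (fun x => u2 (w x)) 2 μ := memLp_op u2 hw.memLp
  have hc : MemLp (fun x => c2 (w x)) 2 μ := memLp_clm c2 hw.memLp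
  -- `c` is constant
  have hB : ∀ α : C.D, ∫ x, c2 (w x) * top (om ^ 4 * (C.d α : X → E) x) ∂μ = 0 := by
    intro α
    have hd : MemLp (C.d α : X → E) 2 μ := C.memLp _ (C.d α).2
    have iA : Integrable (fun x => top (om ^ 3 * u2 (w x) * (C.d α : X → E) x)) μ :=
      integrable_top_mul f (memLp_om 3 hu) hd
    have iB : Integrable (fun x => c2 (w x) * top (om ^ 4 * (C.d α : X → E) x)) μ :=
      (memLp_clm (top ∘ₗ mulL (om ^ 4)) hd).integrable_mul hc |>.congr
        (Eventually.of_forall fun x => mul_comm _ _)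
    have h1 := hws α
    have e1 : ∀ x, top (star (w x) * (C.d α : X → E) x)
        = -(6 : ℝ)⁻¹ * top (om ^ 3 * u2 (w x) * (C.d α : X → E) x)
          + (24 : ℝ)⁻¹ * (c2 (w x) * top (om ^ 4 * (C.d α : X → E) x)) := by
      intro x
      rw [star_dec2 f.e2 (hw.deg x) (hw.inv x), add_mul, map_add, neg_mul, map_neg,
        smul_mul_assoc, map_smul, smul_mul_assoc, map_smul, smul_eq_mul, smul_eq_mul]
      ring
    simp only [e1] at h1
    rw [integral_add (iA.const_mul _) (iB.const_mul _), integral_const_mul,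
      integral_const_mul] at h1
    have h2 := hwc.om_pow C 3 α
    have e2 : ∀ x, top (om ^ 3 * w x * (C.d α : X → E) x)
        = top (om ^ 3 * u2 (w x) * (C.d α : X → E) x)
          + c2 (w x) * top (om ^ 4 * (C.d α : X → E) x) := by
      intro x
      conv_lhs => rw [dec2 (hw.deg x)]
      rw [mul_add, add_mul, map_add, mul_smul_comm, ← pow_succ, smul_mul_assoc, map_smul,
        smul_eq_mul]
    simp only [e2] at h2
    rw [integral_add iA iB] at h2
    linarith
  obtain ⟨c₀, hc₀⟩ := C.const_of f hc hB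
  -- the three integrals
  have m4 : ∀ n : ℕ, MemLp (fun _ : X => om ^ n) 2 μ := fun n => memLp_const _
  have I1 : ∫ x, top (om ^ 4 * v x) ∂μ = 120 * c₀ * μ.real Set.univ := by
    have h1 := horth 8 (fun _ => om ^ 4) ⟨4, rfl⟩ (fun _ => om_pow_mem_Deg 4) (m4 4)
      (C.closed_const 4)
    have i1 : Integrable (fun x => top (om ^ 4 * v x)) μ := integrable_top_mul f (m4 4) hv.memLp
    have i2 : Integrable (fun x => top (om ^ 4 * w x)) μ := integrable_top_mul f (m4 4) hw.memLp
    have e : ∀ x, top ((v x - w x) * om ^ 4) = top (om ^ 4 * v x) - top (om ^ 4 * w x) := by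
      intro x
      rw [← HodgeCalc.om_pow_comm, mul_sub, map_sub]
    simp only [e] at h1
    rw [integral_sub i1 i2, sub_eq_zero] at h1
    rw [h1]
    have e2 : (fun x => top (om ^ 4 * w x)) =ᵐ[μ] fun _ => 120 * c₀ := by
      filter_upwards [hc₀] with x hx
      rw [top_om4_mul f.e2 (hw.deg x), hx]
    rw [integral_congr_ae e2, integral_const, smul_eq_mul, mul_comm]
  have I2 : ∫ x, top (om ^ 3 * v x * v x) ∂μ ≤ 120 * c₀ ^ 2 * μ.real Set.univ := by
    have hvw : MemLp (fun x => v x + w x) 2 μ := hv.memLp.add hw.memLp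
    have h1 := horth 8 (fun x => om ^ 3 * (v x + w x)) ⟨4, rfl⟩
      (fun x => mul_mem_Deg (om_pow_mem_Deg 3) (Submodule.add_mem _ (hv.deg x) (hw.deg x)))
      (memLp_om 3 hvw) ((hcl.add C f hwc hv.memLp hw.memLp).om_pow C 3)
    have i1 : Integrable (fun x => top (om ^ 3 * v x * v x)) μ :=
      integrable_top_mul f (memLp_om 3 hv.memLp) hv.memLp
    have i2 : Integrable (fun x => top (om ^ 3 * w x * w x)) μ :=
      integrable_top_mul f (memLp_om 3 hw.memLp) hw.memLp
    have e : ∀ x, top ((v x - w x) * (om ^ 3 * (v x + w x)))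
        = top (om ^ 3 * v x * v x) - top (om ^ 3 * w x * w x) := by
      intro x
      have c1 : w x * v x = v x * w x := mul_comm_even (k := 2) ⟨1, rfl⟩ (hw.deg x) _
      have c2' : (v x - w x) * (om ^ 3 * (v x + w x))
          = om ^ 3 * ((v x - w x) * (v x + w x)) := by
        rw [← mul_assoc, ← HodgeCalc.om_pow_comm, mul_assoc]
      have c3 : (v x - w x) * (v x + w x) = v x * v x - w x * w x := by
        rw [sub_mul, mul_add, mul_add, c1]; abel
      rw [c2', c3, mul_sub, map_sub, mul_assoc, mul_assoc]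
    simp only [e] at h1
    rw [integral_sub i1 i2, sub_eq_zero] at h1
    rw [h1]
    have hle : ∫ x, top (om ^ 3 * w x * w x) ∂μ ≤ ∫ _, 120 * c₀ ^ 2 ∂μ := by
      refine integral_mono_ae i2 (integrable_const _) ?_
      filter_upwards [hc₀] with x hx
      rw [top_om3_mul_sq f.e2 (hw.deg x) (hw.inv x), hx]
      nlinarith [sq_nonneg ‖u2 (w x)‖]
    refine hle.trans (le_of_eq ?_)
    rw [integral_const, smul_eq_mul, mul_comm]
  have I3 : ∫ _, top (om ^ 5) ∂μ = 120 * μ.real Set.univ := by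
    rw [integral_const, top_om5 f.e2, smul_eq_mul, mul_comm]
  have hm : 0 ≤ μ.real Set.univ := measureReal_nonneg
  rw [I1, I3]
  calc 120 * μ.real Set.univ * ∫ x, top (om ^ 3 * v x * v x) ∂μ
      ≤ 120 * μ.real Set.univ * (120 * c₀ ^ 2 * μ.real Set.univ) :=
        mul_le_mul_of_nonneg_left I2 (by positivity)
    _ = (120 * c₀ * μ.real Set.univ) ^ 2 := by ring

lemma int_comb3 {X : Type*} [MeasurableSpace X] {μ : Measure X} {a b c : X → ℝ}
    (ha : Integrable a μ) (hb : Integrable b μ) (hc : Integrable c μ) (k l : ℝ) :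
    ∫ x, (a x + k * b x + l * c x) ∂μ = ∫ x, a x ∂μ + k * ∫ x, b x ∂μ + l * ∫ x, c x ∂μ := by
  have h1 : Integrable (fun x => a x + k * b x) μ := ha.add (hb.const_mul k)
  rw [integral_add h1 (hc.const_mul l), integral_add ha (hb.const_mul k), integral_const_mul,
    integral_const_mul]

/-- **Hodge-Riemann relations in degree four.** -/
theorem hr2 (f : HFacts) {X : Type*} [MeasurableSpace X] (μ : Measure X) [IsFiniteMeasure μ]
    (C : HodgeCalc μ) (φ : X → E) (hφ : IsInvForm μ 4 φ) (hcl : C.Closed φ) :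
    ∃ u : X → E, IsInvForm μ 2 u ∧ C.Closed u ∧ (∀ x, Λop (u x) = 0) ∧
    (∫ x, top (om ^ 3 * u x * u x) ∂μ = -6 * ∫ x, ‖u x‖ ^ 2 ∂μ) ∧
    (∫ x, top (om ^ 2 * φ x * u x) ∂μ = -6 * ∫ x, ‖u x‖ ^ 2 ∂μ) ∧
    (-6 * ∫ x, ‖u x‖ ^ 2 ∂μ ≤ ∫ x, top (om * φ x * φ x) ∂μ) := by
  obtain ⟨w, hw, hwc, hws, horth⟩ := C.harmonic_part f (k := 4) ⟨2, rfl⟩ (by norm_num) hφ hcl
  have hu : MemLp (fun x => u4 (w x)) 2 μ := memLp_op u4 hw.memLp
  have hp : MemLp (fun x => p4 (w x)) 2 μ := memLp_op p4 hw.memLp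
  have hc : MemLp (fun x => c4 (w x)) 2 μ := memLp_clm c4 hw.memLp
  have iP : ∀ α : C.D, Integrable (fun x => top (om * p4 (w x) * (C.d α : X → E) x)) μ :=
    fun α => integrable_top_mul f (by simpa using memLp_om 1 hp) (C.memLp _ (C.d α).2)
  have iU : ∀ (n : ℕ) (α : C.D),
      Integrable (fun x => top (om ^ n * u4 (w x) * (C.d α : X → E) x)) μ :=
    fun n α => integrable_top_mul f (memLp_om n hu) (C.memLp _ (C.d α).2)
  have iC : ∀ (n : ℕ) (α : C.D),
      Integrable (fun x => c4 (w x) * top (om ^ n * (C.d α : X → E) x)) μ :=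
    fun n α => (memLp_clm (top ∘ₗ mulL (om ^ n)) (C.memLp _ (C.d α).2)).integrable_mul hc |>.congr
      (Eventually.of_forall fun x => mul_comm _ _)
  -- combination of `star w` closed and `om w` closed
  have h23 : ∀ α : C.D, -(3 / 2 : ℝ) * ∫ x, top (om ^ 2 * u4 (w x) * (C.d α : X → E) x) ∂μ
      - (2 / 3 : ℝ) * ∫ x, c4 (w x) * top (om ^ 3 * (C.d α : X → E) x) ∂μ = 0 := by
    intro α
    have h1 := hws α
    have e1 : ∀ x, top (star (w x) * (C.d α : X → E) x)
        = top (om * p4 (w x) * (C.d α : X → E) x)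
          + -(2 : ℝ)⁻¹ * top (om ^ 2 * u4 (w x) * (C.d α : X → E) x)
          + (3 : ℝ)⁻¹ * (c4 (w x) * top (om ^ 3 * (C.d α : X → E) x)) := by
      intro x
      rw [star_dec4 f.e2 (hw.deg x) (hw.inv x), add_mul, sub_mul, map_add, map_sub,
        smul_mul_assoc, map_smul, smul_mul_assoc, map_smul, smul_eq_mul, smul_eq_mul]
      ring
    simp only [e1] at h1
    rw [int_comb3 (iP α) (iU 2 α) (iC 3 α)] at h1
    have h2 := hwc.om_pow C 1 α
    have e2 : ∀ x, top (om ^ 1 * w x * (C.d α : X → E) x)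
        = top (om * p4 (w x) * (C.d α : X → E) x)
          + 1 * top (om ^ 2 * u4 (w x) * (C.d α : X → E) x)
          + 1 * (c4 (w x) * top (om ^ 3 * (C.d α : X → E) x)) := by
      intro x
      conv_lhs => rw [dec4 (hw.deg x)]
      rw [pow_one, mul_add, mul_add, add_mul, add_mul, map_add, map_add, mul_smul_comm,
        ← pow_succ', smul_mul_assoc, map_smul, smul_eq_mul, ← mul_assoc om om, ← sq, one_mul,
        one_mul]
    simp only [e2] at h2
    rw [int_comb3 (iP α) (iU 2 α) (iC 3 α)] at h2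
    linarith
  -- multiply by `om`
  have h34 : ∀ α : C.D, -(3 / 2 : ℝ) * ∫ x, top (om ^ 3 * u4 (w x) * (C.d α : X → E) x) ∂μ
      - (2 / 3 : ℝ) * ∫ x, c4 (w x) * top (om ^ 4 * (C.d α : X → E) x) ∂μ = 0 := by
    intro α
    have h := h23 (((C.opH Lop) ^ 1) α)
    have e1 : ∀ x, top (om ^ 2 * u4 (w x) * (C.d (((C.opH Lop) ^ 1) α) : X → E) x)
        = top (om ^ 3 * u4 (w x) * (C.d α : X → E) x) := by
      intro x
      rw [C.d_Lop_pow, C.opH_Lop_pow, ← mul_assoc, ← HodgeCalc.om_pow_comm, ← mul_assoc,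
        ← pow_add]
    have e2 : ∀ x, top (om ^ 3 * (C.d (((C.opH Lop) ^ 1) α) : X → E) x)
        = top (om ^ 4 * (C.d α : X → E) x) := by
      intro x
      rw [C.d_Lop_pow, C.opH_Lop_pow, ← mul_assoc, ← pow_add]
    simp only [e1, e2] at h
    exact h
  have hB : ∀ α : C.D, ∫ x, c4 (w x) * top (om ^ 4 * (C.d α : X → E) x) ∂μ = 0 := by
    intro α
    have h2 := hwc.om_pow C 2 α
    have e2 : ∀ x, top (om ^ 2 * w x * (C.d α : X → E) x)
        = top (om ^ 3 * u4 (w x) * (C.d α : X → E) x)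
          + c4 (w x) * top (om ^ 4 * (C.d α : X → E) x) := by
      intro x
      rw [om2_mul f.e2 (hw.deg x), add_mul, map_add, smul_mul_assoc, map_smul, smul_eq_mul]
    simp only [e2] at h2
    rw [integral_add (iU 3 α) (iC 4 α)] at h2
    have := h34 α
    linarith
  obtain ⟨c₀, hc₀⟩ := C.const_of f hc hB
  have hU2 : ∀ α : C.D, ∫ x, top (om ^ 2 * u4 (w x) * (C.d α : X → E) x) ∂μ = 0 := by
    intro α
    have e : (fun x => c4 (w x) * top (om ^ 3 * (C.d α : X → E) x))
        =ᵐ[μ] fun x => c₀ * top (om ^ 3 * (C.d α : X → E) x) := by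
      filter_upwards [hc₀] with x hx
      rw [hx]
    have h1 : ∫ x, c4 (w x) * top (om ^ 3 * (C.d α : X → E) x) ∂μ = 0 := by
      rw [integral_congr_ae e, integral_const_mul, C.closed_const 3 α, mul_zero]
    have := h23 α
    rw [h1] at this
    linarith
  have hucl : C.Closed (fun x => u4 (w x)) := by
    intro α
    rw [← hU2 (C.opH S7 (C.opH (pr 7) α))]
    refine integral_congr_ae (Eventually.of_forall fun x => ?_)
    simp only
    have e1 := C.top_mul_d (i := 7) (j := 2) rfl (u4_mem (hw.deg x)) α x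
    have e2 : ((C.opH Lop) ^ 2) (C.opH S7 (C.opH (pr 7) α)) = C.opH (pr 7) α := by
      ext y : 2
      rw [C.opH_Lop_pow]
      exact om2_S7 f.e2 (pr_mem_Deg 7 _)
    rw [e1, ← e2, C.d_Lop_pow, C.opH_Lop_pow, e2, ← mul_assoc, ← HodgeCalc.om_pow_comm]
  have hwi : Integrable (fun x => ‖u4 (w x)‖ ^ 2) μ := integrable_norm_sq hu
  refine ⟨fun x => u4 (w x), ⟨hu, fun x => u4_mem (hw.deg x), fun x => J_u4 f.e2 (hw.inv x)⟩,
    hucl, fun x => Λ_u4 f.e2 (hw.deg x), ?_, ?_, ?_⟩
  · rw [← integral_const_mul]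
    refine integral_congr_ae (Eventually.of_forall fun x => ?_)
    exact top_om3_sq f.e2 (u4_mem (hw.deg x)) (Λ_u4 f.e2 (hw.deg x)) (J_u4 f.e2 (hw.inv x))
  · have h1 := horth 6 (fun x => om ^ 2 * u4 (w x)) ⟨3, rfl⟩
      (fun x => mul_mem_Deg (om_pow_mem_Deg 2) (u4_mem (hw.deg x))) (memLp_om 2 hu)
      (hucl.om_pow C 2)
    have i1 : Integrable (fun x => top (om ^ 2 * φ x * u4 (w x))) μ :=
      integrable_top_mul f (memLp_om 2 hφ.memLp) hu
    have i2 : Integrable (fun x => top (om ^ 2 * w x * u4 (w x))) μ :=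
      integrable_top_mul f (memLp_om 2 hw.memLp) hu
    have e : ∀ x, top ((φ x - w x) * (om ^ 2 * u4 (w x)))
        = top (om ^ 2 * φ x * u4 (w x)) - top (om ^ 2 * w x * u4 (w x)) := by
      intro x
      rw [← mul_assoc, ← HodgeCalc.om_pow_comm, mul_sub, sub_mul, map_sub]
    simp only [e] at h1
    rw [integral_sub i1 i2, sub_eq_zero] at h1
    rw [h1, ← integral_const_mul]
    refine integral_congr_ae (Eventually.of_forall fun x => ?_)
    exact top_om2_mul_u4 f.e2 (hw.deg x) (hw.inv x)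
  · have hpw : MemLp (fun x => φ x + w x) 2 μ := hφ.memLp.add hw.memLp
    have h1 := horth 6 (fun x => om ^ 1 * (φ x + w x)) ⟨3, rfl⟩
      (fun x => mul_mem_Deg (om_pow_mem_Deg 1) (Submodule.add_mem _ (hφ.deg x) (hw.deg x)))
      (memLp_om 1 hpw) ((hcl.add C f hwc hφ.memLp hw.memLp).om_pow C 1)
    have i1 : Integrable (fun x => top (om * φ x * φ x)) μ := by
      have := integrable_top_mul f (memLp_om 1 hφ.memLp) hφ.memLp
      simpa only [pow_one] using this
    have i2 : Integrable (fun x => top (om * w x * w x)) μ := by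
      have := integrable_top_mul f (memLp_om 1 hw.memLp) hw.memLp
      simpa only [pow_one] using this
    have e : ∀ x, top ((φ x - w x) * (om ^ 1 * (φ x + w x)))
        = top (om * φ x * φ x) - top (om * w x * w x) := by
      intro x
      have c1 : w x * φ x = φ x * w x := mul_comm_even (k := 4) ⟨2, rfl⟩ (hw.deg x) _
      have c2' : (φ x - w x) * (om ^ 1 * (φ x + w x))
          = om ^ 1 * ((φ x - w x) * (φ x + w x)) := by
        rw [← mul_assoc, ← HodgeCalc.om_pow_comm, mul_assoc]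
      have c3 : (φ x - w x) * (φ x + w x) = φ x * φ x - w x * w x := by
        rw [sub_mul, mul_add, mul_add, c1]; abel
      rw [c2', c3, mul_sub, map_sub, pow_one, mul_assoc, mul_assoc]
    simp only [e] at h1
    rw [integral_sub i1 i2, sub_eq_zero] at h1
    rw [h1, ← integral_const_mul]
    refine integral_mono (hwi.const_mul _) i2 fun x => ?_
    exact top_om_mul_sq_ge f.e2 (hw.deg x) (hw.inv x)

theorem hr1Stmt (f : HFacts) : HR1Stmt := fun μ _ C v hv hcl => hr1 f μ C v hv hcl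

theorem hr2Stmt (f : HFacts) : HR2Stmt := fun μ _ C φ hφ hcl => hr2 f μ C φ hφ hcl

end EH
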