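import Pool.Agent.Work.MP_9eee85_co.EH.HodgeOp

/-!
# The Hilbert complex of a `HodgeCalc`
-/

noncomputable section

namespace EH

open MeasureTheory Filter Topology Finset

lemma inner_par (a b : E) : inner ℝ a (par b) = inner ℝ (par a) b := by
  rw [inner_eq, inner_eq]
  refine sum_congr rfl fun S _ => ?_
  rw [co_par, co_par]
  ring

lemma top_mul_of (f : HFacts) {k : ℕ} {a : E} (ha : a ∈ Deg k) (b : E) :
    top (a * b) = (-1) ^ k * inner ℝ a (star b) := by
  have h1 : star (star (par b)) = b := by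
    rw [f.star_star]
    exact LinearMap.congr_fun parpar b
  have h2 : star (par b) = par (star b) := by
    rw [← f.star_star b, f.star_star (star b)]
  conv_lhs => rw [← h1]
  rw [top_mul_star, h2, inner_par, par_of ha, real_inner_smul_left]

section lp

variable {X : Type*} [MeasurableSpace X] {μ : Measure X}

lemma inner_toLp {F : Type*} [NormedAddCommGroup F] [InnerProductSpace ℝ F] {u v : X → F}
    (hu : MemLp u 2 μ) (hv : MemLp v 2 μ) :
    inner ℝ (hu.toLp u) (hv.toLp v) = ∫ x, inner ℝ (u x) (v x) ∂μ := by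
  rw [L2.inner_def]
  refine integral_congr_ae ?_
  filter_upwards [hu.coeFn_toLp, hv.coeFn_toLp] with x h1 h2
  rw [h1, h2]

lemma integrable_inner_of {F : Type*} [NormedAddCommGroup F] [InnerProductSpace ℝ F] {u v : X → F}
    (hu : MemLp u 2 μ) (hv : MemLp v 2 μ) : Integrable (fun x => inner ℝ (u x) (v x)) μ := by
  refine (L2.integrable_inner (𝕜 := ℝ) (hu.toLp u) (hv.toLp v)).congr ?_
  filter_upwards [hu.coeFn_toLp, hv.coeFn_toLp] with x h1 h2
  rw [h1, h2]

lemma norm_sq_toLp {F : Type*} [NormedAddCommGroup F] [InnerProductSpace ℝ F] {u : X → F}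
    (hu : MemLp u 2 μ) : ‖hu.toLp u‖ ^ 2 = ∫ x, ‖u x‖ ^ 2 ∂μ := by
  rw [← real_inner_self_eq_norm_sq, inner_toLp]
  simp only [real_inner_self_eq_norm_sq]

/-- constant operators act on `L²` -/
def lpOp (μ : Measure X) (T : Module.End ℝ E) : Lp E 2 μ →L[ℝ] Lp E 2 μ :=
  (LinearMap.toContinuousLinearMap T).compLpL 2 μ

lemma memLp_op (T : E →ₗ[ℝ] E) {v : X → E} (hv : MemLp v 2 μ) : MemLp (fun x => T (v x)) 2 μ :=
  (LinearMap.toContinuousLinearMap T).comp_memLp' hv

lemma lpOp_toLp (T : Module.End ℝ E) {v : X → E} (hv : MemLp v 2 μ) :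
    lpOp μ T (hv.toLp v) = (memLp_op T hv).toLp _ := by
  refine Lp.ext ?_
  have h1 := (LinearMap.toContinuousLinearMap T).coeFn_compLpL (hv.toLp v)
  filter_upwards [h1, hv.coeFn_toLp, (memLp_op T hv).coeFn_toLp] with x a1 a2 a3
  rw [a3, lpOp, a1, a2]
  rfl

/-- the isometry `J` on `L²` -/
def JLp (μ : Measure X) (f : HFacts) : Lp E 2 μ →ₗᵢ[ℝ] Lp E 2 μ where
  toLinearMap := (lpOp μ J).toLinearMap
  norm_map' v := by
    have h1 := (LinearMap.toContinuousLinearMap (J : Module.End ℝ E)).coeFn_compLpL v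
    rw [Lp.norm_def, Lp.norm_def]
    congr 1
    refine eLpNorm_congr_norm_ae ?_
    filter_upwards [h1] with x hx
    have : ((lpOp μ J).toLinearMap v : X → E) x = J (v x) := hx
    rw [this, f.J_norm]

lemma integrable_top_mul {u v : X → E} (f : HFacts) (hu : MemLp u 2 μ) (hv : MemLp v 2 μ) :
    Integrable (fun x => top (u x * v x)) μ := by
  have h1 : ∀ x, top (u x * v x) = inner ℝ (u x) (star (par (v x))) := by
    intro x
    have h2 : star (star (par (v x))) = v x := by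
      rw [f.star_star]
      exact LinearMap.congr_fun parpar (v x)
    conv_lhs => rw [← h2]
    rw [top_mul_star]
  simp only [h1]
  exact integrable_inner_of hu (memLp_op (star ∘ₗ par) hv)

end lp

namespace HodgeCalc

variable {X : Type*} [MeasurableSpace X] {μ : Measure X} (C : HodgeCalc μ)

/-- the test forms in `L²` -/
def ι : C.D →ₗ[ℝ] Lp E 2 μ where
  toFun v := (C.memLp v v.2).toLp _
  map_add' v w := MemLp.toLp_add (C.memLp v v.2) (C.memLp w w.2)
  map_smul' c v := MemLp.toLp_const_smul c (C.memLp v v.2)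

lemma ι_apply (v : C.D) : C.ι v = (C.memLp v v.2).toLp _ := rfl

lemma δ_apply (v : C.D) (x : X) : ((C.δ v : C.D) : X → E) x
    = -star ((C.d (opD C.D C.op_mem star v) : X → E) x) := rfl

lemma adj (f : HFacts) (α β : C.D) :
    inner ℝ (C.ι (C.d α)) (C.ι β) = inner ℝ (C.ι α) (C.ι (C.δ β)) := by
  have key : (innerSL ℝ (C.ι β)).toLinearMap ∘ₗ C.ι ∘ₗ C.d
      = (innerSL ℝ (C.ι (C.δ β))).toLinearMap ∘ₗ C.ι := by
    refine C.hom_ext fun k _ α hα => ?_
    have e1 : ((innerSL ℝ (C.ι β)).toLinearMap ∘ₗ C.ι ∘ₗ C.d) α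
        = inner ℝ (C.ι β) (C.ι (C.d α)) := rfl
    have e2 : ((innerSL ℝ (C.ι (C.δ β))).toLinearMap ∘ₗ C.ι) α
        = inner ℝ (C.ι (C.δ β)) (C.ι α) := rfl
    rw [e1, e2, real_inner_comm, real_inner_comm (C.ι α), ι_apply, ι_apply, ι_apply, ι_apply,
      inner_toLp, inner_toLp]
    have h1 : ∀ x, inner ℝ ((C.d α : X → E) x) ((β : X → E) x)
        = top ((C.d α : X → E) x * (opD C.D C.op_mem star β : X → E) x) := by
      intro x
      rw [← top_mul_star]
      rfl
    simp only [h1]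
    rw [C.stokes k α _ hα, ← integral_const_mul]
    refine integral_congr_ae (Eventually.of_forall fun x => ?_)
    simp only
    rw [top_mul_of f (hα x), C.δ_apply, inner_neg_right, ← mul_assoc]
    have : -(-1 : ℝ) ^ k * (-1) ^ k = -1 := by
      rw [neg_mul, ← mul_pow]; norm_num
    rw [this]
    ring
  have := LinearMap.congr_fun key α
  have e1 : ((innerSL ℝ (C.ι β)).toLinearMap ∘ₗ C.ι ∘ₗ C.d) α
      = inner ℝ (C.ι β) (C.ι (C.d α)) := rfl
  have e2 : ((innerSL ℝ (C.ι (C.δ β))).toLinearMap ∘ₗ C.ι) α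
      = inner ℝ (C.ι (C.δ β)) (C.ι α) := rfl
  rw [e1, e2] at this
  rw [real_inner_comm, this, real_inner_comm]

lemma inner_ι (v : Lp E 2 μ) (w : C.D) :
    inner ℝ v (C.ι w) = ∫ x, inner ℝ (v x) ((w : X → E) x) ∂μ := by
  rw [L2.inner_def]
  refine integral_congr_ae ?_
  filter_upwards [(C.memLp w w.2).coeFn_toLp] with x h2
  rw [ι_apply, h2]

/-- the Hilbert complex -/
def hcx (f : HFacts) : HCx (Lp E 2 μ) C.D where
  ι := C.ι
  d := C.d
  δ := C.δ
  J := C.opH J
  JH := JLp μ f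
  d_d := C.d_d
  adj := C.adj f
  ιJ α := by
    have : (JLp μ f) (C.ι α) = lpOp μ J (C.ι α) := rfl
    rw [this, ι_apply, ι_apply, lpOp_toLp]
    rfl
  lap α := (LinearMap.congr_fun (C.lap f) α).symm
  core v h1 h2 ε hε := by
    have a1 : ∀ α : C.D, ∫ x, inner ℝ ((v : X → E) x) ((C.d α : X → E) x) ∂μ = 0 := by
      intro α
      rw [← C.inner_ι]
      exact h1 α
    have a2 : ∀ α : C.D, ∫ x, inner ℝ ((v : X → E) x)
        (star ((C.d (opD C.D C.op_mem star α) : X → E) x)) ∂μ = 0 := by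
      intro α
      have := h2 α
      rw [C.inner_ι] at this
      simp only [C.δ_apply, inner_neg_right, integral_neg, neg_eq_zero] at this
      exact this
    obtain ⟨s, b1, b2, b3⟩ := C.core v (Lp.memLp v) a1 a2 (ε ^ 2) (by positivity)
    refine ⟨s, ?_, ?_, ?_⟩
    · refine lt_of_pow_lt_pow_left₀ 2 hε.le ?_
      have e : C.ι s - v = ((C.memLp s s.2).sub (Lp.memLp v)).toLp _ := by
        rw [MemLp.toLp_sub (C.memLp s s.2) (Lp.memLp v), ι_apply, Lp.toLp_coeFn]
      rw [e, norm_sq_toLp]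
      exact b1
    · refine lt_of_pow_lt_pow_left₀ 2 hε.le ?_
      rw [ι_apply, norm_sq_toLp]
      exact b2
    · refine lt_of_pow_lt_pow_left₀ 2 hε.le ?_
      rw [ι_apply, norm_sq_toLp]
      simp only [C.δ_apply, norm_neg]
      exact b3

end HodgeCalc

end EH
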