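import Pool.Agent.Work.MP_9eee85_co.EH.Ext
import Pool.Agent.Work.MP_9eee85_co.EH.SL2

/-!
# Abstract Hodge calculus (gauged picture)

`HodgeCalc μ`: test forms `D` (functions `X → E`), with an exterior derivative `d` for which the
standard Kähler form `om` is closed, in the Hilbert space `L²(μ; E)`.
The joint between geometry and the Hodge-Riemann relations.
-/

noncomputable section

namespace EH

open MeasureTheory Filter Topology

/-- `v` is of degree `k` at every point. -/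
def IsDeg {X : Type*} (k : ℕ) (v : X → E) : Prop := ∀ x, v x ∈ Deg k

/-- A constant operator acting on a space of test forms. -/
def opD {X : Type*} (D : Submodule ℝ (X → E))
    (h : ∀ (T : E →ₗ[ℝ] E), ∀ v ∈ D, (fun x => T (v x)) ∈ D) (T : E →ₗ[ℝ] E) : D →ₗ[ℝ] D where
  toFun v := ⟨fun x => T ((v : X → E) x), h T v v.2⟩
  map_add' v w := by ext x : 2; simp
  map_smul' c v := by ext x : 2; simp

/-- Test forms with an exterior derivative, in the gauge in which the Kähler form is `om`, the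
metric is the one of `E`, and the volume measure is `μ`. -/
structure HodgeCalc {X : Type*} [MeasurableSpace X] (μ : Measure X) where
  /-- the test forms -/
  D : Submodule ℝ (X → E)
  memLp : ∀ v ∈ D, MemLp v 2 μ
  op_mem : ∀ (T : E →ₗ[ℝ] E), ∀ v ∈ D, (fun x => T (v x)) ∈ D
  /-- the exterior derivative -/
  d : D →ₗ[ℝ] D
  d_deg : ∀ (k : ℕ) (v : D), IsDeg k (v : X → E) → IsDeg (k + 1) (d v : X → E)
  d_d : ∀ v, d (d v) = 0
  /-- `d om = 0` -/
  d_L : ∀ v, d (opD D op_mem Lop v) = opD D op_mem Lop (d v)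
  /-- `d dᶜ + dᶜ d = 0` for `dᶜ = J⁻¹ d J` -/
  d_dc : ∀ v, d (opD D op_mem Jinv (d (opD D op_mem J v))) +
    opD D op_mem Jinv (d (opD D op_mem J (d v))) = 0
  /-- Stokes -/
  stokes0 : ∀ v : D, ∫ x, top ((d v : X → E) x) ∂μ = 0
  stokes : ∀ (k : ℕ) (α β : D), IsDeg k (α : X → E) →
    ∫ x, top ((d α : X → E) x * (β : X → E) x) ∂μ =
      -(-1) ^ k * ∫ x, top ((α : X → E) x * (d β : X → E) x) ∂μ
  /-- Friedrichs and completeness; `δ = - star d star` -/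
  core : ∀ v : X → E, MemLp v 2 μ →
    (∀ α : D, ∫ x, inner ℝ (v x) ((d α : X → E) x) ∂μ = 0) →
    (∀ α : D, ∫ x, inner ℝ (v x) (star ((d (opD D op_mem star α) : X → E) x)) ∂μ = 0) →
    ∀ ε > 0, ∃ s : D, ∫ x, ‖(s : X → E) x - v x‖ ^ 2 ∂μ < ε ∧
      ∫ x, ‖(d s : X → E) x‖ ^ 2 ∂μ < ε ∧
      ∫ x, ‖star ((d (opD D op_mem star s) : X → E) x)‖ ^ 2 ∂μ < ε
  /-- a square integrable function with `d c = 0` is constant -/
  const : ∀ c : X → ℝ, MemLp c 2 μ → (∀ α : D, ∫ x, c x * top ((d α : X → E) x) ∂μ = 0) →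
    ∃ c₀ : ℝ, c =ᵐ[μ] fun _ => c₀

/-- Weakly closed forms. -/
def HodgeCalc.Closed {X : Type*} [MeasurableSpace X] {μ : Measure X} (C : HodgeCalc μ)
    (v : X → E) : Prop :=
  ∀ α : C.D, ∫ x, top (v x * (C.d α : X → E) x) ∂μ = 0

/-- `J`-invariant forms of degree `k` in `L²`. -/
structure IsInvForm {X : Type*} [MeasurableSpace X] (μ : Measure X) (k : ℕ) (v : X → E) : Prop where
  memLp : MemLp v 2 μ
  deg : IsDeg k v
  inv : ∀ x, J (v x) = v x

/-- Statement of the Hodge index theorem (H1). -/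
def HR1Stmt : Prop := ∀ {X : Type} [MeasurableSpace X] (μ : Measure X) [IsFiniteMeasure μ]
  (C : HodgeCalc μ) (v : X → E), IsInvForm μ 2 v → C.Closed v →
  (∫ x, top (om ^ 5) ∂μ) * (∫ x, top (om ^ 3 * v x * v x) ∂μ) ≤ (∫ x, top (om ^ 4 * v x) ∂μ) ^ 2

/-- Statement of the Hodge-Riemann relations in degree four (H2). -/
def HR2Stmt : Prop := ∀ {X : Type} [MeasurableSpace X] (μ : Measure X) [IsFiniteMeasure μ]
  (C : HodgeCalc μ) (φ : X → E), IsInvForm μ 4 φ → C.Closed φ →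
  ∃ u : X → E, IsInvForm μ 2 u ∧ C.Closed u ∧ (∀ x, Λop (u x) = 0) ∧
    (∫ x, top (om ^ 3 * u x * u x) ∂μ = -6 * ∫ x, ‖u x‖ ^ 2 ∂μ) ∧
    (∫ x, top (om ^ 2 * φ x * u x) ∂μ = -6 * ∫ x, ‖u x‖ ^ 2 ∂μ) ∧
    (-6 * ∫ x, ‖u x‖ ^ 2 ∂μ ≤ ∫ x, top (om * φ x * φ x) ∂μ)

end EH
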