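import Mathlib

/-!
# The Hilbert space part of the Hodge theorem (abstract)

* `lap_commJ` : ring identity, `d δ + δ d` commutes with `J` for `δ = [Λ, J⁻¹ d J]`;
* `HCx` : test space `D` with `ι : D → ℋ`, adjoint operators `d`, `δ`, an isometry `J`;
* `HCx.harm_J` : the weakly harmonic vectors are `J`-invariant;
* `HCx.exists_harm` : the harmonic part of a weakly closed vector.
-/

namespace EH

open Filter Topology

section ring

variable {A : Type*} [Ring A]

/-- The Laplacian commutes with `J`. -/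
theorem lap_commJ {d Λ J Ji : A} (hJ : J * Ji = 1) (hJ' : Ji * J = 1) (hΛ : J * Λ = Λ * J)
    (hp : J * J * d = -(d * J * J)) (hdc : d * (Ji * d * J) + (Ji * d * J) * d = 0) :
    (d * (Λ * (Ji * d * J) - (Ji * d * J) * Λ) + (Λ * (Ji * d * J) - (Ji * d * J) * Λ) * d) * J
      = J * (d * (Λ * (Ji * d * J) - (Ji * d * J) * Λ)
        + (Λ * (Ji * d * J) - (Ji * d * J) * Λ) * d) := by
  obtain ⟨c, hc⟩ : ∃ c : A, c = Ji * d * J := ⟨_, rfl⟩
  rw [← hc] at hdc ⊢
  -- J c = d J, J d = - c J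
  have h1 : J * c = d * J := by
    rw [hc]
    calc J * (Ji * d * J) = (J * Ji) * d * J := by noncomm_ring
      _ = d * J := by rw [hJ, one_mul]
  have h2 : J * d = -(c * J) := by
    have e1 : J * (J * d) = J * (-(c * J)) := by
      calc J * (J * d) = J * J * d := by rw [mul_assoc]
        _ = -(d * J * J) := hp
        _ = -(J * c * J) := by rw [h1]
        _ = J * (-(c * J)) := by noncomm_ring
    calc J * d = (Ji * J) * (J * d) := by rw [hJ', one_mul]
      _ = Ji * (J * (J * d)) := by rw [mul_assoc]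
      _ = Ji * (J * (-(c * J))) := by rw [e1]
      _ = (Ji * J) * (-(c * J)) := by rw [mul_assoc]
      _ = -(c * J) := by rw [hJ', one_mul]
  have h3 : d * c = -(c * d) := eq_neg_of_add_eq_zero_left hdc
  -- right hand side
  have e : J * (d * (Λ * c - c * Λ) + (Λ * c - c * Λ) * d)
      = (J * d) * (Λ * c) - (J * d) * (c * Λ) + (J * Λ) * c * d - (J * c) * Λ * d := by
    noncomm_ring
  rw [e, h2, hΛ, h1]
  have e2 : -(c * J) * (Λ * c) - -(c * J) * (c * Λ) + Λ * J * c * d - d * J * Λ * d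
      = -(c * (J * Λ) * c) + c * (J * c) * Λ + Λ * (J * c) * d - d * (J * Λ) * d := by
    noncomm_ring
  rw [e2, hΛ, h1]
  have e3 : -(c * (Λ * J) * c) + c * (d * J) * Λ + Λ * (d * J) * d - d * (Λ * J) * d
      = -(c * Λ * (J * c)) + c * d * (J * Λ) + Λ * d * (J * d) - d * Λ * (J * d) := by
    noncomm_ring
  rw [e3, h1, hΛ, h2]
  have e4 : -(c * Λ * (d * J)) + c * d * (Λ * J) + Λ * d * -(c * J) - d * Λ * -(c * J)
      = (-(c * Λ * d) + c * d * Λ - Λ * (d * c) + d * Λ * c) * J := by noncomm_ring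
  rw [e4, h3]
  have e5 : d * (Λ * c - c * Λ) + (Λ * c - c * Λ) * d
      = d * Λ * c - (d * c) * Λ + Λ * c * d - c * Λ * d := by noncomm_ring
  rw [e5, h3]
  noncomm_ring

/-- `- ⋆ d ⋆ = [Λ, J⁻¹ d J]`, degree free: `P` is the parity, `η` the sign `(-1)^(k(k+1)/2)`,
`s` the Weyl element, `⋆ = J s η`. -/
theorem delta_eq {d Λ J P η s st : A} (hst : st = J * s * η) (hJJ : J * J = P) (hPP : P * P = 1)
    (hηη : η * η = 1) (hηs : η * s = -(s * η * P)) (hJη : J * η = η * J) (hJs : J * s = s * J)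
    (hPs : P * s = s * P) (hPη : P * η = η * P) (hηd : η * d = -(d * η * P))
    (hPd : P * d = -(d * P)) (hPΛ : P * Λ = Λ * P) (hΛJ : Λ * J = J * Λ)
    (hsd : s * d = -(Λ * d - d * Λ) * s) (hst2 : st * st = P) :
    -(st * d * st) = Λ * (J * J * J * d * J) - (J * J * J * d * J) * Λ := by
  have hPJ : P * J = J * P := by rw [← hJJ]; noncomm_ring
  -- s² = -P
  have hs2 : s * s = -P := by
    have e1 : st * st = -(s * s) := by
      calc st * st = J * s * (η * J) * s * η := by rw [hst]; noncomm_ring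
        _ = J * (s * J) * (η * s) * η := by rw [← hJη]; noncomm_ring
        _ = J * (J * s) * (-(s * η * P)) * η := by rw [← hJs, hηs]
        _ = -((J * J) * s * s * η * (P * η)) := by noncomm_ring
        _ = -(P * s * s * η * (η * P)) := by rw [hJJ, hPη]
        _ = -(P * s * s * (η * η) * P) := by noncomm_ring
        _ = -((P * s) * s * P) := by rw [hηη]; noncomm_ring
        _ = -((s * P) * s * P) := by rw [hPs]
        _ = -(s * (P * s) * P) := by noncomm_ring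
        _ = -(s * (s * P) * P) := by rw [hPs]
        _ = -(s * s * (P * P)) := by noncomm_ring
        _ = -(s * s) := by rw [hPP, mul_one]
    rw [e1] at hst2
    rw [← hst2, neg_neg]
  obtain ⟨B, hB⟩ : ∃ B : A, B = Λ * d - d * Λ := ⟨_, rfl⟩
  have hPB : P * B = -(B * P) := by
    calc P * B = (P * Λ) * d - (P * d) * Λ := by rw [hB]; noncomm_ring
      _ = (Λ * P) * d - (-(d * P)) * Λ := by rw [hPΛ, hPd]
      _ = Λ * (P * d) + d * (P * Λ) := by noncomm_ring
      _ = Λ * (-(d * P)) + d * (Λ * P) := by rw [hPΛ, hPd]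
      _ = -(B * P) := by rw [hB]; noncomm_ring
  have e2 : st * d * st = J * B * J * P := by
    calc st * d * st = J * s * (η * d) * J * s * η := by rw [hst]; noncomm_ring
      _ = -(J * s * d * η * (P * J) * s * η) := by rw [hηd]; noncomm_ring
      _ = -(J * s * d * (η * J) * (P * s) * η) := by rw [hPJ]; noncomm_ring
      _ = -(J * s * d * J * (η * s) * (P * η)) := by rw [← hJη, hPs]; noncomm_ring
      _ = J * s * d * J * s * η * P * (η * P) := by rw [hηs, hPη]; noncomm_ring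
      _ = J * s * d * J * s * η * (P * η) * P := by noncomm_ring
      _ = J * s * d * J * s * (η * η) * (P * P) := by rw [hPη]; noncomm_ring
      _ = J * (s * d) * (J * s) := by rw [hηη, hPP]; noncomm_ring
      _ = J * (-B * s) * (J * s) := by rw [hsd, hB]
      _ = -(J * B * (s * J) * s) := by noncomm_ring
      _ = -(J * B * J * (s * s)) := by rw [← hJs]; noncomm_ring
      _ = J * B * J * P := by rw [hs2]; noncomm_ring
  rw [e2]
  have e3 : Λ * (J * J * J * d * J) - (J * J * J * d * J) * Λ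
      = (Λ * J) * (J * J) * d * J - J * (J * J) * d * (J * Λ) := by noncomm_ring
  rw [e3, hJJ, hΛJ, ← hΛJ]
  have e4 : Λ * J * P * d * J - J * P * d * (Λ * J) = (Λ * J) * P * d * J - J * P * d * Λ * J := by
    noncomm_ring
  rw [e4, hΛJ]
  have e5 : J * Λ * P * d * J - J * P * d * Λ * J = J * (Λ * P) * d * J - J * P * d * Λ * J := by
    noncomm_ring
  rw [e5, ← hPΛ]
  have e6 : J * (P * Λ) * d * J - J * P * d * Λ * J = J * (P * B) * J := by
    rw [hB]; noncomm_ring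
  rw [e6, hPB]
  have e7 : J * -(B * P) * J = -(J * B * (P * J)) := by noncomm_ring
  rw [e7, hPJ]
  noncomm_ring

end ring

variable {H : Type*} [NormedAddCommGroup H] [InnerProductSpace ℝ H]

/-- A test space with a pair of adjoint operators and an isometry commuting with the
Laplacian. -/
structure HCx (H : Type*) [NormedAddCommGroup H] [InnerProductSpace ℝ H] (D : Type*)
    [AddCommGroup D] [Module ℝ D] where
  ι : D →ₗ[ℝ] H
  d : D →ₗ[ℝ] D
  δ : D →ₗ[ℝ] D
  J : D →ₗ[ℝ] D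
  JH : H →ₗᵢ[ℝ] H
  d_d : ∀ α, d (d α) = 0
  adj : ∀ α β, inner ℝ (ι (d α)) (ι β) = inner ℝ (ι α) (ι (δ β))
  ιJ : ∀ α, ι (J α) = JH (ι α)
  lap : ∀ α, J (d (δ α) + δ (d α)) = d (δ (J α)) + δ (d (J α))
  core : ∀ v : H, (∀ α, inner ℝ v (ι (d α)) = 0) → (∀ α, inner ℝ v (ι (δ α)) = 0) →
    ∀ ε > 0, ∃ s : D, ‖ι s - v‖ < ε ∧ ‖ι (d s)‖ < ε ∧ ‖ι (δ s)‖ < ε

namespace HCx

variable {D : Type*} [AddCommGroup D] [Module ℝ D] (C : HCx H D)

/-- weakly harmonic vectors -/
def Harm (v : H) : Prop :=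
  (∀ α, inner ℝ v (C.ι (C.d α)) = 0) ∧ (∀ α, inner ℝ v (C.ι (C.δ α)) = 0)

theorem energy (s : D) :
    ‖C.ι (C.d s)‖ ^ 2 + ‖C.ι (C.δ s)‖ ^ 2
      = inner ℝ (C.ι (C.d (C.δ s) + C.δ (C.d s))) (C.ι s) := by
  rw [map_add, inner_add_left, C.adj (C.δ s) s, real_inner_self_eq_norm_sq,
    real_inner_comm, ← C.adj s (C.d s), real_inner_self_eq_norm_sq, add_comm]

theorem energy_J (s : D) :
    ‖C.ι (C.d (C.J s))‖ ^ 2 + ‖C.ι (C.δ (C.J s))‖ ^ 2
      = ‖C.ι (C.d s)‖ ^ 2 + ‖C.ι (C.δ s)‖ ^ 2 := by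
  rw [energy, energy, ← C.lap, C.ιJ, C.ιJ, LinearIsometry.inner_map_map]

theorem harm_J {v : H} (hv : C.Harm v) : C.Harm (C.JH v) := by
  -- approximation
  have key : ∀ ε > 0, ∃ s : D, ‖C.ι s - C.JH v‖ < ε ∧ ‖C.ι (C.d s)‖ < ε ∧ ‖C.ι (C.δ s)‖ < ε := by
    intro ε hε
    obtain ⟨s, h1, h2, h3⟩ := C.core v hv.1 hv.2 (ε / 2) (by positivity)
    have hE := C.energy_J s
    have h4 : ‖C.ι (C.d s)‖ ^ 2 + ‖C.ι (C.δ s)‖ ^ 2 < ε ^ 2 := by
      have a1 : ‖C.ι (C.d s)‖ ^ 2 < (ε / 2) ^ 2 := by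
        exact pow_lt_pow_left₀ h2 (norm_nonneg _) (by norm_num)
      have a2 : ‖C.ι (C.δ s)‖ ^ 2 < (ε / 2) ^ 2 := by
        exact pow_lt_pow_left₀ h3 (norm_nonneg _) (by norm_num)
      nlinarith
    refine ⟨C.J s, ?_, ?_, ?_⟩
    · rw [C.ιJ, ← map_sub, LinearIsometry.norm_map]
      linarith
    · refine lt_of_pow_lt_pow_left₀ 2 hε.le ?_
      nlinarith [sq_nonneg ‖C.ι (C.δ (C.J s))‖]
    · refine lt_of_pow_lt_pow_left₀ 2 hε.le ?_
      nlinarith [sq_nonneg ‖C.ι (C.d (C.J s))‖]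
  have zero_of : ∀ (x : ℝ) (M : ℝ), 0 ≤ M → (∀ ε > 0, |x| ≤ ε * M) → x = 0 := by
    intro x M hM h
    by_contra hx
    have hx' : 0 < |x| := abs_pos.2 hx
    have := h (|x| / (2 * (M + 1))) (by positivity)
    have h2 : |x| / (2 * (M + 1)) * M < |x| := by
      rw [div_mul_eq_mul_div, div_lt_iff₀ (by positivity)]
      nlinarith
    linarith
  constructor
  · intro α
    refine zero_of _ (‖C.ι (C.d α)‖ + ‖C.ι α‖) (by positivity) fun ε hε => ?_
    obtain ⟨s, h1, h2, h3⟩ := key ε hε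
    have e : inner ℝ (C.JH v) (C.ι (C.d α))
        = inner ℝ (C.ι (C.δ s)) (C.ι α) - inner ℝ (C.ι s - C.JH v) (C.ι (C.d α)) := by
      rw [inner_sub_left, real_inner_comm (C.ι (C.d α)) (C.ι s), C.adj α s,
        real_inner_comm (C.ι (C.δ s)) (C.ι α)]
      ring
    rw [e]
    calc |inner ℝ (C.ι (C.δ s)) (C.ι α) - inner ℝ (C.ι s - C.JH v) (C.ι (C.d α))|
        ≤ |inner ℝ (C.ι (C.δ s)) (C.ι α)| + |inner ℝ (C.ι s - C.JH v) (C.ι (C.d α))| :=
          abs_sub _ _
      _ ≤ ‖C.ι (C.δ s)‖ * ‖C.ι α‖ + ‖C.ι s - C.JH v‖ * ‖C.ι (C.d α)‖ :=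
          add_le_add (abs_real_inner_le_norm _ _) (abs_real_inner_le_norm _ _)
      _ ≤ ε * ‖C.ι α‖ + ε * ‖C.ι (C.d α)‖ := by gcongr
      _ = ε * (‖C.ι (C.d α)‖ + ‖C.ι α‖) := by ring
  · intro α
    refine zero_of _ (‖C.ι (C.δ α)‖ + ‖C.ι α‖) (by positivity) fun ε hε => ?_
    obtain ⟨s, h1, h2, h3⟩ := key ε hε
    have e : inner ℝ (C.JH v) (C.ι (C.δ α))
        = inner ℝ (C.ι (C.d s)) (C.ι α) - inner ℝ (C.ι s - C.JH v) (C.ι (C.δ α)) := by
      rw [inner_sub_left, C.adj s α]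
      ring
    rw [e]
    calc |inner ℝ (C.ι (C.d s)) (C.ι α) - inner ℝ (C.ι s - C.JH v) (C.ι (C.δ α))|
        ≤ |inner ℝ (C.ι (C.d s)) (C.ι α)| + |inner ℝ (C.ι s - C.JH v) (C.ι (C.δ α))| :=
          abs_sub _ _
      _ ≤ ‖C.ι (C.d s)‖ * ‖C.ι α‖ + ‖C.ι s - C.JH v‖ * ‖C.ι (C.δ α)‖ :=
          add_le_add (abs_real_inner_le_norm _ _) (abs_real_inner_le_norm _ _)
      _ ≤ ε * ‖C.ι α‖ + ε * ‖C.ι (C.δ α)‖ := by gcongr
      _ = ε * (‖C.ι (C.δ α)‖ + ‖C.ι α‖) := by ring

variable [CompleteSpace H]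

/-- The harmonic part of a weakly closed vector: `φ = φh + k` with `k` in the closure of the
image of `d`. -/
theorem exists_harm {φ : H} (hφ : ∀ α, inner ℝ φ (C.ι (C.δ α)) = 0) :
    ∃ φh : H, C.Harm φh ∧
      φ - φh ∈ closure (Set.range fun α => C.ι (C.d α)) ∧
      (C.JH φ = φ → C.JH φh = φh) := by
  set K : Submodule ℝ H := (LinearMap.range (C.ι ∘ₗ C.d)).topologicalClosure with hK
  have : CompleteSpace K := (Submodule.isClosed_topologicalClosure _).completeSpace_coe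
  obtain ⟨p, hp⟩ : ∃ p : H, p = K.starProjection φ := ⟨_, rfl⟩
  have hpK : p ∈ K := by rw [hp]; exact Submodule.starProjection_apply_mem _ _
  have horth : ∀ k ∈ K, inner ℝ (φ - p) k = 0 := by
    intro k hk
    rw [hp]
    exact Submodule.starProjection_inner_eq_zero _ _ hk
  have hrange : ∀ α, C.ι (C.d α) ∈ K := fun α =>
    Submodule.le_topologicalClosure _ ⟨α, rfl⟩
  -- K is orthogonal to the image of δ
  have hKδ : ∀ k ∈ K, ∀ β, inner ℝ k (C.ι (C.δ β)) = 0 := by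
    intro k hk β
    have hcl : IsClosed {x : H | inner ℝ x (C.ι (C.δ β)) = 0} :=
      isClosed_eq (continuous_id.inner continuous_const) continuous_const
    have hsub : (K : Set H) ⊆ {x : H | inner ℝ x (C.ι (C.δ β)) = 0} := by
      rw [hK, Submodule.topologicalClosure_coe]
      refine closure_minimal ?_ hcl
      rintro _ ⟨α, rfl⟩
      simp only [LinearMap.comp_apply, Set.mem_ofPred_eq]
      rw [← C.adj (C.d α) β, C.d_d, map_zero, inner_zero_left]
    exact hsub hk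
  have hharm : C.Harm (φ - p) :=
    ⟨fun α => horth _ (hrange α), fun α => by rw [inner_sub_left, hφ, hKδ p hpK, sub_zero]⟩
  refine ⟨φ - p, hharm, ?_, ?_⟩
  · rw [sub_sub_cancel]
    have : (K : Set H) = closure (Set.range fun α => C.ι (C.d α)) := by
      rw [hK, Submodule.topologicalClosure_coe]
      rfl
    rw [← this]; exact hpK
  · intro hJ
    have hharmJ := C.harm_J hharm
    -- w = JH φh - φh is harmonic
    obtain ⟨w, hw⟩ : ∃ w : H, w = C.JH (φ - p) - (φ - p) := ⟨_, rfl⟩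
    have hwh : ∀ k ∈ K, inner ℝ w k = 0 := by
      intro k hk
      have hcl : IsClosed {x : H | inner ℝ w x = 0} :=
        isClosed_eq (continuous_const.inner continuous_id) continuous_const
      have hsub : (K : Set H) ⊆ {x : H | inner ℝ w x = 0} := by
        rw [hK, Submodule.topologicalClosure_coe]
        refine closure_minimal ?_ hcl
        rintro _ ⟨α, rfl⟩
        simp only [LinearMap.comp_apply, Set.mem_ofPred_eq]
        rw [hw, inner_sub_left, hharmJ.1, hharm.1, sub_zero]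
      exact hsub hk
    have h1 : inner ℝ w (φ - p) = inner ℝ w φ := by
      rw [inner_sub_right, hwh p hpK, sub_zero]
    -- JH w ... use norms : ‖JH φh‖ = ‖φh‖ and ⟪JH φh, φ⟫ = ⟪φh, φ⟫
    have h2 : inner ℝ (C.JH (φ - p)) φ = inner ℝ (φ - p) φ := by
      have h := C.JH.inner_map_map (φ - p) φ
      rwa [hJ] at h
    have h3 : inner ℝ w φ = 0 := by rw [hw, inner_sub_left, h2, sub_self]
    have h4 : inner ℝ w (φ - p) = 0 := by rw [h1, h3]
    have h5 : inner ℝ (C.JH (φ - p)) (φ - p) = inner ℝ (φ - p) (φ - p) := by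
      rw [hw, inner_sub_left] at h4
      linarith
    have h6 : ‖C.JH (φ - p) - (φ - p)‖ ^ 2 = 0 := by
      rw [norm_sub_sq_real, h5, LinearIsometry.norm_map, real_inner_self_eq_norm_sq]
      ring
    have h7 : C.JH (φ - p) - (φ - p) = 0 := by
      rw [← norm_eq_zero]
      exact pow_eq_zero_iff (two_ne_zero) |>.1 h6
    exact sub_eq_zero.1 h7

end HCx

end EH
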