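import Pool.Agent.Work.MP_9eee85_co.EH.HodgeDefs
import Pool.Agent.Work.MP_9eee85_co.EH.LefE
import Pool.Agent.Work.MP_9eee85_co.EH.HodgeHilb

/-!
# The operators of a `HodgeCalc`

`C.opH : End E → End D`, the codifferential `C.δ = - ⋆ d ⋆ = [Λ, J⁻¹ d J]`, and the fact that
the Laplacian commutes with `J`.
-/

noncomputable section

namespace EH

open MeasureTheory Filter Topology Finset

/-- The facts on the constant operators used by the Hodge theorem. -/
structure HFacts : Prop where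
  e2 : E2Facts
  JJ : ∀ a, J (J a) = par a
  J_norm : ∀ a, ‖J a‖ = ‖a‖
  J_mem : ∀ k : ℕ, ∀ a ∈ Deg k, J a ∈ Deg k
  star_star : ∀ a, star (star a) = par a
  star_mem : ∀ k : ℕ, ∀ a ∈ Deg k, star a ∈ Deg (10 - k)

/-- The sign `(-1)^(k(k+1)/2)`. -/
def eta : Module.End ℝ E where
  toFun α := mk (fun S => (-1) ^ (S.card * (S.card + 1) / 2) * co α S)
  map_add' α β := by ext S; simp only [co_mk, co_add]; ring
  map_smul' c α := by ext S; simp only [co_mk, co_smul, RingHom.id_apply]; ring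

lemma eta_of {k : ℕ} {a : E} (ha : a ∈ Deg k) : eta a = (-1 : ℝ) ^ (k * (k + 1) / 2) • a := by
  ext S
  have e : co (eta a) S = (-1) ^ (S.card * (S.card + 1) / 2) * co a S := rfl
  rw [e, co_smul]
  by_cases h : S.card = k
  · rw [h]
  · rw [ha S h, mul_zero, mul_zero]

lemma par_of {k : ℕ} {a : E} (ha : a ∈ Deg k) : par a = (-1 : ℝ) ^ k • a := by
  ext S
  rw [co_par, co_smul]
  by_cases h : S.card = k
  · rw [h]
  · rw [ha S h, mul_zero, mul_zero]

/-- two linear maps which agree on homogeneous elements are equal -/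
lemma end_ext {M : Type*} [AddCommGroup M] [Module ℝ M] {f g : E →ₗ[ℝ] M}
    (h : ∀ k ≤ 10, ∀ a ∈ Deg k, f a = g a) : f = g := by
  refine LinearMap.ext fun a => ?_
  rw [← sum_pr a, map_sum, map_sum]
  refine sum_congr rfl fun k hk => ?_
  exact h k (by rw [mem_range] at hk; omega) _ (pr_mem_Deg k a)

section facts

variable (f : HFacts)
include f

omit f in
lemma eps_ten {k : ℕ} (hk : k ≤ 10) :
    (-1 : ℝ) ^ ((10 - k) * (10 - k + 1) / 2) = -((-1) ^ (k * (k + 1) / 2) * (-1) ^ k) := by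
  interval_cases k <;> norm_num

lemma wey_mem {k : ℕ} {a : E} (ha : a ∈ Deg k) : wey 6 (Lop : Module.End ℝ E) Λop a ∈ Deg (10 - k) := by
  have h1 := f.e2.star_eq k a ha
  have h2 : (-1 : ℝ) ^ (k * (k + 1) / 2) * (-1 : ℝ) ^ (k * (k + 1) / 2) = 1 := by
    rw [← mul_pow]; norm_num
  have h3 : J (wey 6 (Lop : Module.End ℝ E) Λop a) = (-1 : ℝ) ^ (k * (k + 1) / 2) • star a := by
    rw [h1, smul_smul, h2, one_smul]
  have h4 : par (wey 6 (Lop : Module.End ℝ E) Λop a) = (-1 : ℝ) ^ (k * (k + 1) / 2) • J (star a) := by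
    rw [← f.JJ, h3, map_smul]
  have h5 : ∀ b : E, par (par b) = b := fun b => by
    ext S; rw [co_par, co_par, ← mul_assoc, ← mul_pow]; norm_num
  rw [← h5 (wey 6 (Lop : Module.End ℝ E) Λop a), h4, map_smul]
  refine Submodule.smul_mem _ _ ?_
  have h6 := f.J_mem _ _ (f.star_mem k a ha)
  rw [par_of h6]
  exact Submodule.smul_mem _ _ h6

lemma star_eq_mul : (star : Module.End ℝ E) = J * wey 6 (Lop : Module.End ℝ E) Λop * eta := by
  refine end_ext fun k _ a ha => ?_
  rw [f.e2.star_eq k a ha]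
  simp only [Module.End.mul_apply]
  rw [eta_of ha, map_smul, map_smul]

lemma JJ_mul : (J : Module.End ℝ E) * J = par := LinearMap.ext f.JJ

omit f in
lemma parpar : (par : Module.End ℝ E) * par = 1 := by
  refine LinearMap.ext fun b => ?_
  ext S
  have : co ((par * par : Module.End ℝ E) b) S = (-1) ^ S.card * ((-1) ^ S.card * co b S) := rfl
  rw [this, ← mul_assoc, ← mul_pow]
  norm_num

omit f in
lemma eta_eta : (eta : Module.End ℝ E) * eta = 1 := by
  refine LinearMap.ext fun b => ?_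
  ext S
  have : co ((eta * eta : Module.End ℝ E) b) S = (-1) ^ (S.card * (S.card + 1) / 2) *
    ((-1) ^ (S.card * (S.card + 1) / 2) * co b S) := rfl
  rw [this, ← mul_assoc, ← mul_pow]
  norm_num

lemma eta_wey : (eta : Module.End ℝ E) * wey 6 (Lop : Module.End ℝ E) Λop
    = -(wey 6 (Lop : Module.End ℝ E) Λop * eta * par) := by
  refine end_ext fun k hk a ha => ?_
  simp only [Module.End.mul_apply, LinearMap.neg_apply]
  rw [eta_of (wey_mem f ha), par_of ha, map_smul, map_smul, eta_of ha, map_smul, eps_ten hk,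
    neg_smul, smul_smul, mul_comm]

lemma J_eta : (J : Module.End ℝ E) * eta = eta * J := by
  refine end_ext fun k _ a ha => ?_
  simp only [Module.End.mul_apply]
  rw [eta_of ha, map_smul, eta_of (f.J_mem k a ha)]

lemma J_wey : (J : Module.End ℝ E) * wey 6 (Lop : Module.End ℝ E) Λop
    = wey 6 (Lop : Module.End ℝ E) Λop * J := by
  refine (Trip.wey_comm 6 ?_ ?_).symm
  · exact LinearMap.ext fun a => (f.e2.J_L a).symm
  · exact LinearMap.ext fun a => (f.e2.J_Λ a).symm

lemma par_wey : (par : Module.End ℝ E) * wey 6 (Lop : Module.End ℝ E) Λop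
    = wey 6 (Lop : Module.End ℝ E) Λop * par := by
  refine end_ext fun k hk a ha => ?_
  simp only [Module.End.mul_apply]
  rw [par_of (wey_mem f ha), par_of ha, map_smul]
  congr 1
  interval_cases k <;> norm_num

omit f in
lemma par_eta : (par : Module.End ℝ E) * eta = eta * par := by
  refine LinearMap.ext fun b => ?_
  ext S
  have h1 : co ((par * eta : Module.End ℝ E) b) S = (-1) ^ S.card *
    ((-1) ^ (S.card * (S.card + 1) / 2) * co b S) := rfl
  have h2 : co ((eta * par : Module.End ℝ E) b) S = (-1) ^ (S.card * (S.card + 1) / 2) *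
    ((-1) ^ S.card * co b S) := rfl
  rw [h1, h2]
  ring

omit f in
lemma par_Λ : (par : Module.End ℝ E) * Λop = Λop * par := by
  refine end_ext fun k hk a ha => ?_
  simp only [Module.End.mul_apply]
  rw [par_of ha, map_smul]
  rcases Nat.lt_or_ge k 2 with h | h
  · rw [Λop_eq_zero h ha]; simp
  · obtain ⟨m, rfl⟩ := Nat.exists_eq_add_of_le' h
    rw [par_of (Λop_mem_Deg ha), pow_add]
    norm_num

lemma star_star_mul : (star : Module.End ℝ E) * star = par := LinearMap.ext f.star_star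

end facts

/-! ### operators on the test forms -/

namespace HodgeCalc

variable {X : Type*} [MeasurableSpace X] {μ : Measure X} (C : HodgeCalc μ)

/-- constant operators on the test forms, as a ring homomorphism -/
def opH : Module.End ℝ E →+* Module.End ℝ C.D where
  toFun T := opD C.D C.op_mem T
  map_one' := by ext v x; rfl
  map_mul' S T := by ext v x; rfl
  map_zero' := by ext v x; rfl
  map_add' S T := by ext v x; rfl

lemma opH_apply (T : Module.End ℝ E) (v : C.D) (x : X) :
    ((C.opH T v : C.D) : X → E) x = T ((v : X → E) x) := rfl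

lemma opH_smul (c : ℝ) (T : Module.End ℝ E) : C.opH (c • T) = c • C.opH T := by
  ext v x; rfl

lemma opH_nexp (N : ℕ) (T : Module.End ℝ E) : C.opH (nexp N T) = nexp N (C.opH T) := by
  unfold nexp
  rw [map_sum]
  refine sum_congr rfl fun i _ => ?_
  rw [C.opH_smul, map_pow]

lemma opH_wey (N : ℕ) (S T : Module.End ℝ E) :
    C.opH (wey N S T) = wey N (C.opH S) (C.opH T) := by
  unfold wey
  rw [map_mul, map_mul, C.opH_nexp, C.opH_nexp, map_neg]

/-- two linear maps which agree on homogeneous test forms are equal -/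
lemma hom_ext {M : Type*} [AddCommGroup M] [Module ℝ M] {g h : C.D →ₗ[ℝ] M}
    (H : ∀ k ≤ 10, ∀ v : C.D, IsDeg k (v : X → E) → g v = h v) : g = h := by
  refine LinearMap.ext fun v => ?_
  have e : v = ∑ k ∈ range 11, C.opH (pr k) v := by
    ext x : 2
    have : ((∑ k ∈ range 11, C.opH (pr k) v : C.D) : X → E) x
        = ∑ k ∈ range 11, pr k ((v : X → E) x) := by
      rw [Submodule.coe_sum, Finset.sum_apply]
      rfl
    rw [this, sum_pr]
  rw [e, map_sum, map_sum]
  refine sum_congr rfl fun k hk => ?_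
  exact H k (by rw [mem_range] at hk; omega) _ fun x => pr_mem_Deg k _

/-- parity and `d` -/
lemma par_d : C.opH par * C.d = -(C.d * C.opH par) := by
  refine C.hom_ext fun k _ v hv => ?_
  have h1 : C.opH par v = (-1 : ℝ) ^ k • v := by
    ext x : 2
    exact par_of (hv x)
  have h2 : C.opH par (C.d v) = (-1 : ℝ) ^ (k + 1) • C.d v := by
    ext x : 2
    exact par_of (C.d_deg k v hv x)
  have h3 : (C.opH par * C.d) v = C.opH par (C.d v) := rfl
  have h4 : (-(C.d * C.opH par)) v = -(C.d (C.opH par v)) := rfl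
  rw [h3, h4, h1, h2, map_smul, pow_succ]
  module

lemma eta_d : C.opH eta * C.d = -(C.d * C.opH eta * C.opH par) := by
  refine C.hom_ext fun k _ v hv => ?_
  have h1 : C.opH par v = (-1 : ℝ) ^ k • v := by
    ext x : 2
    exact par_of (hv x)
  have h0 : C.opH eta v = (-1 : ℝ) ^ (k * (k + 1) / 2) • v := by
    ext x : 2
    exact eta_of (hv x)
  have h2 : C.opH eta (C.d v) = (-1 : ℝ) ^ ((k + 1) * (k + 1 + 1) / 2) • C.d v := by
    ext x : 2
    exact eta_of (C.d_deg k v hv x)
  have h3 : (C.opH eta * C.d) v = C.opH eta (C.d v) := rfl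
  have h4 : (-(C.d * C.opH eta * C.opH par)) v = -(C.d (C.opH eta (C.opH par v))) := rfl
  have h5 : (k + 1) * (k + 1 + 1) / 2 = k * (k + 1) / 2 + (k + 1) := by
    have : (k + 1) * (k + 1 + 1) = k * (k + 1) + (k + 1) * 2 := by ring
    rw [this, Nat.add_mul_div_right _ _ (by norm_num)]
  rw [h3, h4, h1, h2, map_smul, h0, map_smul, map_smul, h5, pow_add, pow_succ]
  module

lemma H_d : C.opH Hop * C.d = C.d * C.opH Hop + C.d := by
  refine C.hom_ext fun k _ v hv => ?_
  have h1 : C.opH Hop v = ((k : ℝ) - 5) • v := by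
    ext x : 2
    exact Hop_apply_of (hv x)
  have h2 : C.opH Hop (C.d v) = (((k + 1 : ℕ) : ℝ) - 5) • C.d v := by
    ext x : 2
    exact Hop_apply_of (C.d_deg k v hv x)
  have h3 : (C.opH Hop * C.d) v = C.opH Hop (C.d v) := rfl
  have h4 : (C.d * C.opH Hop + C.d) v = C.d (C.opH Hop v) + C.d v := rfl
  rw [h3, h4, h1, h2, map_smul]
  push_cast
  module

lemma L_d : C.opH Lop * C.d = C.d * C.opH Lop :=
  LinearMap.ext fun v => (C.d_L v).symm

lemma trip (f : HFacts) : Trip 6 (C.opH Lop) (C.opH Λop) (C.opH Hop) where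
  hLΛ := by rw [← map_mul, ← map_mul, ← map_add, f.e2.trip.hLΛ]
  hHL := by rw [← map_mul, ← map_mul, ← C.opH_smul, ← map_add, f.e2.trip.hHL]
  hHΛ := by rw [← map_mul, ← map_mul, ← C.opH_smul, f.e2.trip.hHΛ, map_sub C.opH]
  hL := by rw [← map_pow, f.e2.trip.hL, map_zero]
  hΛ := by rw [← map_pow, f.e2.trip.hΛ, map_zero]

/-- the codifferential -/
def δ : Module.End ℝ C.D := -(C.opH star * C.d * C.opH star)

theorem δ_eq (f : HFacts) : C.δ = C.opH Λop * (C.opH Jinv * C.d * C.opH J)
    - (C.opH Jinv * C.d * C.opH J) * C.opH Λop := by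
  have hJinv : C.opH Jinv = C.opH J * C.opH J * C.opH J := by
    rw [← map_mul, ← map_mul]
    rfl
  rw [hJinv]
  refine delta_eq (P := C.opH par) (η := C.opH eta) (s := wey 6 (C.opH Lop) (C.opH Λop))
    ?_ ?_ ?_ ?_ ?_ ?_ ?_ ?_ ?_ C.eta_d C.par_d ?_ ?_ ?_ ?_
  · rw [← C.opH_wey, ← map_mul, ← map_mul, star_eq_mul f]
  · rw [← map_mul, JJ_mul f]
  · rw [← map_mul, parpar, map_one]
  · rw [← map_mul, eta_eta, map_one]
  · rw [← C.opH_wey, ← map_mul, eta_wey f, map_neg, map_mul, map_mul]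
  · rw [← map_mul, ← map_mul, J_eta f]
  · rw [← C.opH_wey, ← map_mul, ← map_mul, J_wey f]
  · rw [← C.opH_wey, ← map_mul, ← map_mul, par_wey f]
  · rw [← map_mul, ← map_mul, par_eta]
  · rw [← map_mul, ← map_mul, par_Λ]
  · rw [← map_mul, ← map_mul]
    congr 1
    exact LinearMap.ext fun a => (f.e2.J_Λ a).symm
  · exact (C.trip f).s_mul C.L_d C.H_d
  · rw [← map_mul, star_star_mul f]

/-- the Laplacian commutes with `J` -/
theorem lap (f : HFacts) : (C.d * C.δ + C.δ * C.d) * C.opH J = C.opH J * (C.d * C.δ + C.δ * C.d) := by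
  rw [C.δ_eq f]
  have hJ4 : (J : Module.End ℝ E) * Jinv = 1 := by
    have : (J : Module.End ℝ E) * Jinv = (J * J) * (J * J) := rfl
    rw [this, JJ_mul f, parpar]
  have hJ4' : (Jinv : Module.End ℝ E) * J = 1 := by
    have : (Jinv : Module.End ℝ E) * J = (J * J) * (J * J) := rfl
    rw [this, JJ_mul f, parpar]
  refine lap_commJ (A := Module.End ℝ C.D) ?_ ?_ ?_ ?_ ?_
  · rw [← map_mul, hJ4, map_one]
  · rw [← map_mul, hJ4', map_one]
  · rw [← map_mul, ← map_mul]
    congr 1
    exact LinearMap.ext fun a => f.e2.J_Λ a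
  · have h : C.opH J * C.opH J = C.opH par := by rw [← map_mul, JJ_mul f]
    rw [mul_assoc C.d, h, C.par_d]
  · exact LinearMap.ext fun v => C.d_dc v

end HodgeCalc

end EH
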