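import Pool.Agent.Work.MP_9eee85_co.EH.SL2

/-!
EH, Lefschetz decomposition in low degrees for an `sl_2` triple `Trip N L Λ H` of operators on a
real vector space `V` (in the application `H = deg - 5`).

* degree 2 (weight `-3`, `Λ² v = 0`): `v = lefU2 v + L (lefW2 v)`;
* degree 4 (weight `-1`, `Λ³ v = 0`): `v = lefP4 v + L (lefU4 v) + L² (lefW4 v)`;
* degree 3 (weight `-2`, `Λ² v = 0`): `v = lefP3 v + L (lefW3 v)`;
* values of the Weyl element on the components;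
* explicit inverses `R4` of `L⁴` (degree 1 to 9) and `R2` of `L²` (degree 3 to 7).
-/

namespace EH

namespace Trip

/-- the opposite triple -/
theorem swap {A : Type*} [Ring A] [Algebra ℝ A] {N : ℕ} {L Λ H : A} (h : Trip N L Λ H) :
    Trip N Λ L (-H) where
  hLΛ := by rw [h.hLΛ]; abel
  hHL := by rw [neg_mul, mul_neg, h.hHΛ]; abel
  hHΛ := by rw [neg_mul, mul_neg, h.hHL]; abel
  hL := h.hΛ
  hΛ := h.hL

section Lef

variable {V : Type*} [AddCommGroup V] [Module ℝ V] {N : ℕ} {L Λ H : Module.End ℝ V}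

theorem ΛL (h : Trip N L Λ H) (x : V) : Λ (L x) = L (Λ x) - H x := by
  have : L (Λ x) = Λ (L x) + H x := LinearMap.congr_fun h.hLΛ x
  rw [this]; abel

theorem HΛ (h : Trip N L Λ H) (x : V) : H (Λ x) = Λ (H x) - (2 : ℝ) • Λ x :=
  LinearMap.congr_fun h.hHΛ x

theorem HL (h : Trip N L Λ H) (x : V) : H (L x) = L (H x) + (2 : ℝ) • L x :=
  LinearMap.congr_fun h.hHL x

theorem H_Λ_of (h : Trip N L Λ H) {v : V} {c : ℝ} (hv : H v = c • v) :
    H (Λ v) = (c - 2) • Λ v := by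
  rw [h.HΛ, hv, map_smul, sub_smul]

theorem H_L_of (h : Trip N L Λ H) {v : V} {c : ℝ} (hv : H v = c • v) :
    H (L v) = (c + 2) • L v := by
  rw [h.HL, hv, map_smul, add_smul]

/-- operators commuting with `L` and `Λ` commute with the Weyl element -/
theorem wey_comm {A : Type*} [Ring A] [Algebra ℝ A] {L Λ J : A} (N : ℕ) (h1 : L * J = J * L)
    (h2 : Λ * J = J * Λ) : wey N L Λ * J = J * wey N L Λ := by
  unfold wey
  have e1 : nexp N L * J = J * nexp N L := nexp_commute h1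
  have e2 : nexp N (-Λ) * J = J * nexp N (-Λ) := nexp_commute (by rw [neg_mul, h2, mul_neg])
  calc nexp N L * nexp N (-Λ) * nexp N L * J = nexp N L * (nexp N (-Λ) * (nexp N L * J)) := by
        noncomm_ring
    _ = nexp N L * (nexp N (-Λ) * J) * nexp N L := by rw [e1]; noncomm_ring
    _ = (nexp N L * J) * nexp N (-Λ) * nexp N L := by rw [e2]; noncomm_ring
    _ = J * (nexp N L * nexp N (-Λ) * nexp N L) := by rw [e1]; noncomm_ring

end Lef

end Trip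

section Ops

variable {V : Type*} [AddCommGroup V] [Module ℝ V] (L Λ : Module.End ℝ V)

/-- scalar part of a degree 2 vector: `v = lefU2 v + L (lefW2 v)` -/
noncomputable def lefW2 : Module.End ℝ V := (5 : ℝ)⁻¹ • Λ

/-- primitive part of a degree 2 vector -/
noncomputable def lefU2 : Module.End ℝ V := 1 - L * lefW2 Λ

/-- scalar part of a degree 4 vector: `v = lefP4 v + L (lefU4 v) + L (L (lefW4 v))` -/
noncomputable def lefW4 : Module.End ℝ V := (40 : ℝ)⁻¹ • (Λ * Λ)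

/-- degree 2 part of a degree 4 vector -/
noncomputable def lefU4 : Module.End ℝ V := (3 : ℝ)⁻¹ • (Λ * (1 - L * (L * lefW4 Λ)))

/-- primitive part of a degree 4 vector -/
noncomputable def lefP4 : Module.End ℝ V := 1 - L * (L * lefW4 Λ) - L * lefU4 L Λ

/-- degree 1 part of a degree 3 vector: `v = lefP3 v + L (lefW3 v)` -/
noncomputable def lefW3 : Module.End ℝ V := (4 : ℝ)⁻¹ • Λ

/-- primitive part of a degree 3 vector -/
noncomputable def lefP3 : Module.End ℝ V := 1 - L * lefW3 Λ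

/-- inverse of `L ^ 4` -/
noncomputable def R4 : Module.End ℝ V := (576 : ℝ)⁻¹ • Λ ^ 4

/-- inverse of `L ^ 2` -/
noncomputable def R2 : Module.End ℝ V :=
  (144 : ℝ)⁻¹ • (((40 : ℝ) • 1 - Λ ^ 2 * L ^ 2) * Λ ^ 2)

end Ops

namespace Trip

variable {V : Type*} [AddCommGroup V] [Module ℝ V] {N : ℕ} {L Λ H : Module.End ℝ V}

/-! ### degree 2 -/

section Two

variable {v : V}

theorem lef2 : v = lefU2 L Λ v + L (lefW2 Λ v) := by
  simp [lefU2]

theorem lefW2_H (h : Trip N L Λ H) (hv : H v = (-3 : ℝ) • v) :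
    H (lefW2 Λ v) = (-5 : ℝ) • lefW2 Λ v := by
  have := h.H_Λ_of hv
  simp only [lefW2, LinearMap.smul_apply, map_smul, this, smul_smul]
  norm_num

theorem lefW2_Λ (hv2 : Λ (Λ v) = 0) : Λ (lefW2 Λ v) = 0 := by
  simp [lefW2, hv2]

theorem lefU2_Λ (h : Trip N L Λ H) (hv : H v = (-3 : ℝ) • v) (hv2 : Λ (Λ v) = 0) :
    Λ (lefU2 L Λ v) = 0 := by
  have h1 : lefU2 L Λ v = v - L (lefW2 Λ v) := by simp [lefU2]
  rw [h1, map_sub, h.ΛL, lefW2_Λ hv2, h.lefW2_H hv, map_zero, zero_sub]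
  simp only [lefW2, LinearMap.smul_apply, smul_smul]
  norm_num

theorem lefU2_H (h : Trip N L Λ H) (hv : H v = (-3 : ℝ) • v) :
    H (lefU2 L Λ v) = (-3 : ℝ) • lefU2 L Λ v := by
  have h1 : lefU2 L Λ v = v - L (lefW2 Λ v) := by simp [lefU2]
  rw [h1, map_sub, hv, h.H_L_of (h.lefW2_H hv)]
  norm_num
  module

end Two

/-- `wey` on a primitive vector of degree 0 -/
theorem wey0 (h : Trip N L Λ H) (hN : 6 ≤ N) {w : V} (hw : Λ w = 0) (hH : H w = (-5 : ℝ) • w) :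
    wey N L Λ w = (120 : ℝ)⁻¹ • ((L ^ 5) w) := by
  have := h.wey_prim (m := 5) hw (by simpa using hH) (by omega)
  simpa [Nat.factorial] using this

/-- `wey` on `L w`, `w` primitive of degree 0 -/
theorem wey0L (h : Trip N L Λ H) (hN : 6 ≤ N) {w : V} (hw : Λ w = 0)
    (hH : H w = (-5 : ℝ) • w) : wey N L Λ (L w) = -((24 : ℝ)⁻¹ • ((L ^ 4) w)) := by
  have e : wey N L Λ (L w) = -(Λ (wey N L Λ w)) := LinearMap.congr_fun h.s_L w
  have hl := h.ladder (m := 5) hw (by simpa using hH) 4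
  rw [e, h.wey0 hN hw hH, map_smul, hl, smul_smul]
  norm_num

/-- `wey` on `L² w`, `w` primitive of degree 0 -/
theorem wey0LL (h : Trip N L Λ H) (hN : 6 ≤ N) {w : V} (hw : Λ w = 0)
    (hH : H w = (-5 : ℝ) • w) : wey N L Λ (L (L w)) = (3 : ℝ)⁻¹ • ((L ^ 3) w) := by
  have e : wey N L Λ (L (L w)) = -(Λ (wey N L Λ (L w))) := LinearMap.congr_fun h.s_L (L w)
  have hl := h.ladder (m := 5) hw (by simpa using hH) 3
  rw [e, h.wey0L hN hw hH, map_neg, map_smul, hl, smul_smul, neg_neg]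
  norm_num

/-- `wey` on a primitive vector of degree 2 -/
theorem wey2 (h : Trip N L Λ H) (hN : 6 ≤ N) {u : V} (hu : Λ u = 0) (hH : H u = (-3 : ℝ) • u) :
    wey N L Λ u = (6 : ℝ)⁻¹ • ((L ^ 3) u) := by
  have := h.wey_prim (m := 3) hu (by simpa using hH) (by omega)
  simpa [Nat.factorial] using this

/-- `wey` on `L u`, `u` primitive of degree 2 -/
theorem wey2L (h : Trip N L Λ H) (hN : 6 ≤ N) {u : V} (hu : Λ u = 0)
    (hH : H u = (-3 : ℝ) • u) : wey N L Λ (L u) = -((2 : ℝ)⁻¹ • ((L ^ 2) u)) := by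
  have e : wey N L Λ (L u) = -(Λ (wey N L Λ u)) := LinearMap.congr_fun h.s_L u
  have hl := h.ladder (m := 3) hu (by simpa using hH) 2
  rw [e, h.wey2 hN hu hH, map_smul, hl, smul_smul]
  norm_num

/-- `wey` on a primitive vector of degree 4 -/
theorem wey4 (h : Trip N L Λ H) (hN : 6 ≤ N) {p : V} (hp : Λ p = 0) (hH : H p = (-1 : ℝ) • p) :
    wey N L Λ p = L p := by
  have := h.wey_prim (m := 1) hp (by simpa using hH) (by omega)
  simpa [Nat.factorial] using this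

/-- primitive vectors of degree 0: `L⁶ w = 0` -/
theorem L6 (h : Trip N L Λ H) {w : V} (hw : Λ w = 0) (hH : H w = (-5 : ℝ) • w) :
    (L ^ 6) w = 0 := h.pow_eq_zero (m := 5) hw (by simpa using hH)

/-- primitive vectors of degree 2: `L⁴ u = 0` -/
theorem L4 (h : Trip N L Λ H) {u : V} (hu : Λ u = 0) (hH : H u = (-3 : ℝ) • u) :
    (L ^ 4) u = 0 := h.pow_eq_zero (m := 3) hu (by simpa using hH)

/-- primitive vectors of degree 4: `L² p = 0` -/
theorem L2 (h : Trip N L Λ H) {p : V} (hp : Λ p = 0) (hH : H p = (-1 : ℝ) • p) :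
    (L ^ 2) p = 0 := h.pow_eq_zero (m := 1) hp (by simpa using hH)

/-! ### degree 4 -/

section Four

variable {v : V}

theorem lef4 : v = lefP4 L Λ v + L (lefU4 L Λ v) + L (L (lefW4 Λ v)) := by
  simp [lefP4]

theorem lefW4_H (h : Trip N L Λ H) (hv : H v = (-1 : ℝ) • v) :
    H (lefW4 Λ v) = (-5 : ℝ) • lefW4 Λ v := by
  have h1 := h.H_Λ_of hv
  have h2 := h.H_Λ_of h1
  have e : lefW4 Λ v = (40 : ℝ)⁻¹ • Λ (Λ v) := rfl
  rw [e, map_smul, h2, smul_smul, smul_smul]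
  norm_num

theorem lefW4_Λ (hv2 : Λ (Λ (Λ v)) = 0) : Λ (lefW4 Λ v) = 0 := by
  have e : lefW4 Λ v = (40 : ℝ)⁻¹ • Λ (Λ v) := rfl
  rw [e, map_smul, hv2, smul_zero]

theorem lef4_aux (h : Trip N L Λ H) (hv : H v = (-1 : ℝ) • v) (hv2 : Λ (Λ (Λ v)) = 0) :
    Λ (v - L (L (lefW4 Λ v))) = Λ v - (8 : ℝ) • L (lefW4 Λ v) := by
  have hl := h.ladder (m := 5) (lefW4_Λ hv2) (by simpa using h.lefW4_H hv) 1
  have e : (L ^ (1 + 1)) (lefW4 Λ v) = L (L (lefW4 Λ v)) := rfl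
  have e' : (L ^ 1) (lefW4 Λ v) = L (lefW4 Λ v) := by rw [pow_one]
  rw [e, e'] at hl
  rw [map_sub, hl]
  norm_num

theorem lefU4_eq (v : V) : lefU4 L Λ v = (3 : ℝ)⁻¹ • Λ (v - L (L (lefW4 Λ v))) := rfl

theorem lefU4_Λ (h : Trip N L Λ H) (hv : H v = (-1 : ℝ) • v) (hv2 : Λ (Λ (Λ v)) = 0) :
    Λ (lefU4 L Λ v) = 0 := by
  have hl := h.ladder (m := 5) (lefW4_Λ hv2) (by simpa using h.lefW4_H hv) 0
  have e' : (L ^ (0 + 1)) (lefW4 Λ v) = L (lefW4 Λ v) := by rw [zero_add, pow_one]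
  rw [e', pow_zero, Module.End.one_apply] at hl
  have e : lefW4 Λ v = (40 : ℝ)⁻¹ • Λ (Λ v) := rfl
  rw [lefU4_eq, map_smul, h.lef4_aux hv hv2, map_sub, map_smul, hl, e, smul_smul, smul_smul]
  norm_num

theorem lefU4_H (h : Trip N L Λ H) (hv : H v = (-1 : ℝ) • v) :
    H (lefU4 L Λ v) = (-3 : ℝ) • lefU4 L Λ v := by
  have h1 : H (v - L (L (lefW4 Λ v))) = (-1 : ℝ) • (v - L (L (lefW4 Λ v))) := by
    have h2 := h.H_L_of (h.H_L_of (h.lefW4_H hv))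
    rw [map_sub, hv, h2]
    norm_num
    module
  rw [lefU4_eq, map_smul, h.H_Λ_of h1, smul_comm]
  norm_num

theorem lefP4_eq (v : V) : lefP4 L Λ v = v - L (L (lefW4 Λ v)) - L (lefU4 L Λ v) := rfl

theorem lefP4_Λ (h : Trip N L Λ H) (hv : H v = (-1 : ℝ) • v) (hv2 : Λ (Λ (Λ v)) = 0) :
    Λ (lefP4 L Λ v) = 0 := by
  have e3 : Λ (v - L (L (lefW4 Λ v))) = (3 : ℝ) • lefU4 L Λ v := by
    rw [lefU4_eq, smul_smul]; norm_num
  rw [lefP4_eq, map_sub, e3, h.ΛL, h.lefU4_Λ hv hv2, h.lefU4_H hv, map_zero]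
  module

theorem lefP4_H (h : Trip N L Λ H) (hv : H v = (-1 : ℝ) • v) :
    H (lefP4 L Λ v) = (-1 : ℝ) • lefP4 L Λ v := by
  have h2 := h.H_L_of (h.H_L_of (h.lefW4_H hv))
  have h3 := h.H_L_of (h.lefU4_H hv)
  rw [lefP4_eq, map_sub, map_sub, hv, h2, h3]
  norm_num
  module

end Four

/-! ### degree 3 and the inverse of `L²` -/

section Three

variable {v : V}

theorem lef3 : v = lefP3 L Λ v + L (lefW3 Λ v) := by
  simp [lefP3]

theorem lefW3_H (h : Trip N L Λ H) (hv : H v = (-2 : ℝ) • v) :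
    H (lefW3 Λ v) = (-4 : ℝ) • lefW3 Λ v := by
  have := h.H_Λ_of hv
  simp only [lefW3, LinearMap.smul_apply, map_smul, this, smul_smul]
  norm_num

theorem lefW3_Λ (hv2 : Λ (Λ v) = 0) : Λ (lefW3 Λ v) = 0 := by
  simp [lefW3, hv2]

theorem lefP3_Λ (h : Trip N L Λ H) (hv : H v = (-2 : ℝ) • v) (hv2 : Λ (Λ v) = 0) :
    Λ (lefP3 L Λ v) = 0 := by
  have h1 : lefP3 L Λ v = v - L (lefW3 Λ v) := by simp [lefP3]
  rw [h1, map_sub, h.ΛL, lefW3_Λ hv2, h.lefW3_H hv, map_zero, zero_sub]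
  simp only [lefW3, LinearMap.smul_apply, smul_smul]
  norm_num

theorem lefP3_H (h : Trip N L Λ H) (hv : H v = (-2 : ℝ) • v) :
    H (lefP3 L Λ v) = (-2 : ℝ) • lefP3 L Λ v := by
  have h1 : lefP3 L Λ v = v - L (lefW3 Λ v) := by simp [lefP3]
  rw [h1, map_sub, hv, h.H_L_of (h.lefW3_H hv)]
  norm_num
  module

/-- `Λ² L²` on degree 3 has the eigenvalues 4 and 36 -/
theorem quad3 (h : Trip N L Λ H) (hv : H v = (-2 : ℝ) • v) (hv2 : Λ (Λ v) = 0) :
    (40 : ℝ) • ((Λ ^ 2) ((L ^ 2) v)) - (Λ ^ 2) ((L ^ 2) ((Λ ^ 2) ((L ^ 2) v)))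
      = (144 : ℝ) • v := by
  have ep : ∀ x : V, (Λ ^ 2) x = Λ (Λ x) := fun x => rfl
  have el : ∀ x : V, (L ^ 2) x = L (L x) := fun x => rfl
  set p := lefP3 L Λ v with hp
  set a := lefW3 Λ v with ha
  have hva : v = p + L a := lef3
  have hpΛ : Λ p = 0 := h.lefP3_Λ hv hv2
  have hpH : H p = (-2 : ℝ) • p := h.lefP3_H hv
  have haΛ : Λ a = 0 := lefW3_Λ hv2
  have haH : H a = (-4 : ℝ) • a := h.lefW3_H hv
  -- on `p`
  have p1 := h.ladder (m := 2) hpΛ (by simpa using hpH) 0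
  have p2 := h.ladder (m := 2) hpΛ (by simpa using hpH) 1
  have a2 := h.ladder (m := 4) haΛ (by simpa using haH) 1
  have a3 := h.ladder (m := 4) haΛ (by simpa using haH) 2
  have hp4 : (Λ ^ 2) ((L ^ 2) p) = (4 : ℝ) • p := by
    rw [ep, show (L ^ 2) p = (L ^ (1 + 1)) p from rfl, p2, map_smul]
    rw [show (L ^ 1) p = (L ^ (0 + 1)) p from rfl, p1, smul_smul, pow_zero,
      Module.End.one_apply]
    norm_num
  have ha36 : (Λ ^ 2) ((L ^ 2) (L a)) = (36 : ℝ) • L a := by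
    rw [ep, show (L ^ 2) (L a) = (L ^ (2 + 1)) a from rfl, a3, map_smul,
      show (L ^ 2) a = (L ^ (1 + 1)) a from rfl, a2, smul_smul, pow_one]
    norm_num
  have hT : (Λ ^ 2) ((L ^ 2) v) = (4 : ℝ) • p + (36 : ℝ) • L a := by
    rw [hva, map_add, map_add, hp4, ha36]
  rw [hT, map_add, map_add, map_smul, map_smul, map_smul, map_smul, hp4, ha36]
  conv_rhs => rw [hva]
  module

theorem R2_L2 (h : Trip N L Λ H) (hv : H v = (-2 : ℝ) • v) (hv2 : Λ (Λ v) = 0) :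
    R2 L Λ ((L ^ 2) v) = v := by
  have e : R2 L Λ ((L ^ 2) v) = (144 : ℝ)⁻¹ • ((40 : ℝ) • ((Λ ^ 2) ((L ^ 2) v)) -
      (Λ ^ 2) ((L ^ 2) ((Λ ^ 2) ((L ^ 2) v)))) := rfl
  rw [e, h.quad3 hv hv2, smul_smul]
  norm_num

theorem L2_R2 (h : Trip N L Λ H) {η : V} (hη : H η = (2 : ℝ) • η) (hη2 : L (L η) = 0) :
    (L ^ 2) (R2 L Λ η) = η := by
  have hs := h.swap
  have hη' : (-H) η = (-2 : ℝ) • η := by
    rw [LinearMap.neg_apply, hη, neg_smul]
  have := hs.quad3 hη' hη2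
  have e : R2 L Λ η = (144 : ℝ)⁻¹ • ((40 : ℝ) • ((Λ ^ 2) η) -
      (Λ ^ 2) ((L ^ 2) ((Λ ^ 2) η))) := rfl
  rw [e, map_smul, map_sub, map_smul, this, smul_smul]
  norm_num

theorem R2_H (h : Trip N L Λ H) {η : V} (hη : H η = (2 : ℝ) • η) :
    H (R2 L Λ η) = (-2 : ℝ) • R2 L Λ η := by
  have e : R2 L Λ η = (144 : ℝ)⁻¹ • ((40 : ℝ) • (Λ (Λ η)) -
      Λ (Λ (L (L (Λ (Λ η)))))) := rfl
  have h1 := h.H_Λ_of (h.H_Λ_of hη)
  have h2 := h.H_Λ_of (h.H_Λ_of (h.H_L_of (h.H_L_of h1)))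
  rw [e, map_smul, map_sub, map_smul, h1, h2]
  norm_num
  module

end Three

/-! ### the inverse of `L⁴` -/

theorem R4_L4 (h : Trip N L Λ H) {v : V} (hv : Λ v = 0) (hH : H v = (-4 : ℝ) • v) :
    R4 Λ ((L ^ 4) v) = v := by
  have := h.ladder_pow (m := 4) hv (by simpa using hH) 4 0 (by omega)
  have e : R4 Λ ((L ^ 4) v) = (576 : ℝ)⁻¹ • ((Λ ^ 4) ((L ^ 4) v)) := rfl
  rw [e]
  simp only [Nat.factorial] at this
  norm_num at this
  rw [one_div] at this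
  exact this

theorem L4_R4 (h : Trip N L Λ H) {η : V} (hη : L η = 0) (hH : H η = (4 : ℝ) • η) :
    (L ^ 4) (R4 Λ η) = η := by
  have hs := h.swap
  have hη' : (-H) η = (-4 : ℝ) • η := by
    rw [LinearMap.neg_apply, hH, neg_smul]
  have := hs.ladder_pow (m := 4) hη (by simpa using hη') 4 0 (by omega)
  have e : (L ^ 4) (R4 Λ η) = (576 : ℝ)⁻¹ • ((L ^ 4) ((Λ ^ 4) η)) := by
    have : R4 Λ η = (576 : ℝ)⁻¹ • ((Λ ^ 4) η) := rfl
    rw [this, map_smul]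
  rw [e]
  simp only [Nat.factorial] at this
  norm_num at this
  rw [one_div] at this
  exact this

theorem R4_H (h : Trip N L Λ H) {η : V} (hη : H η = (4 : ℝ) • η) :
    H (R4 Λ η) = (-4 : ℝ) • R4 Λ η := by
  have e : R4 Λ η = (576 : ℝ)⁻¹ • (Λ (Λ (Λ (Λ η)))) := rfl
  have h1 := h.H_Λ_of (h.H_Λ_of (h.H_Λ_of (h.H_Λ_of hη)))
  rw [e, map_smul, h1]
  norm_num
  module

/-! ### invariance -/

section Inv

variable {J : Module.End ℝ V} {v : V}

theorem lefW2_J (hΛJ : Λ * J = J * Λ) (hJ : J v = v) : J (lefW2 Λ v) = lefW2 Λ v := by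
  have e : ∀ x, J (Λ x) = Λ (J x) := fun x => (LinearMap.congr_fun hΛJ x).symm
  simp only [lefW2, LinearMap.smul_apply, map_smul, e, hJ]

theorem lefU2_J (hLJ : L * J = J * L) (hΛJ : Λ * J = J * Λ) (hJ : J v = v) :
    J (lefU2 L Λ v) = lefU2 L Λ v := by
  have e : ∀ x, J (L x) = L (J x) := fun x => (LinearMap.congr_fun hLJ x).symm
  have h1 : lefU2 L Λ v = v - L (lefW2 Λ v) := by simp [lefU2]
  rw [h1, map_sub, e, lefW2_J hΛJ hJ, hJ]

theorem lefW4_J (hΛJ : Λ * J = J * Λ) (hJ : J v = v) : J (lefW4 Λ v) = lefW4 Λ v := by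
  have e : ∀ x, J (Λ x) = Λ (J x) := fun x => (LinearMap.congr_fun hΛJ x).symm
  have e1 : lefW4 Λ v = (40 : ℝ)⁻¹ • Λ (Λ v) := rfl
  rw [e1, map_smul, e, e, hJ]

theorem lefU4_J (hLJ : L * J = J * L) (hΛJ : Λ * J = J * Λ) (hJ : J v = v) :
    J (lefU4 L Λ v) = lefU4 L Λ v := by
  have e : ∀ x, J (L x) = L (J x) := fun x => (LinearMap.congr_fun hLJ x).symm
  have e' : ∀ x, J (Λ x) = Λ (J x) := fun x => (LinearMap.congr_fun hΛJ x).symm
  rw [lefU4_eq, map_smul, e', map_sub, e, e, lefW4_J hΛJ hJ, hJ]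

theorem lefP4_J (hLJ : L * J = J * L) (hΛJ : Λ * J = J * Λ) (hJ : J v = v) :
    J (lefP4 L Λ v) = lefP4 L Λ v := by
  have e : ∀ x, J (L x) = L (J x) := fun x => (LinearMap.congr_fun hLJ x).symm
  rw [lefP4_eq, map_sub, map_sub, e, e, e, lefW4_J hΛJ hJ, lefU4_J hLJ hΛJ hJ, hJ]

end Inv

end Trip

end EH
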