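import Pool.Agent.Work.MP_9eee85_co.EH.AlgDefs

/-!
Approximate packages on the fixed space of symbols and their limit along an ultrafilter.
-/

namespace EH

open Module Filter Topology

/-- the symbols: seven classes and the class `u` -/
abbrev VL : Type := (Fin 7 → ℝ) × ℝ

/-- the seven classes -/
noncomputable def thL (i : Fin 7) : VL := (Pi.single i 1, 0)

/-- the class `u` -/
def uL : VL := (0, 1)

/-- an approximate package -/
structure App (K ε : ℝ) where
  ν : ℝ
  T : Fin 7 → Fin 7 → Fin 7 → VL →ₗ[ℝ] VL →ₗ[ℝ] ℝ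
  ν_nonneg : 0 ≤ ν
  swap12 : ∀ i j k, T i j k = T j i k
  swap23 : ∀ i j k, T i j k = T i k j
  symm : ∀ i j k D D', T i j k D D' = T i j k D' D
  exch : ∀ i j k l D, T i j k (thL l) D = T i j l (thL k) D
  sq : ∀ i j : Fin 7, i ≠ 0 → i ≠ 6 → T i i j = 0
  num : ∀ t : Fin 5 → Fin 7, |T (t 0) (t 1) (t 2) (thL (t 3)) (thL (t 4)) - numZ t| ≤ ε
  hr1 : ∀ w : Fin 7 → ℝ, (∀ i, 0 < w i) → ∀ D : VL,
    mix T w w w (comb thL w) (comb thL w) * mix T w w w D D ≤ (mix T w w w (comb thL w) D) ^ 2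
  hr2a : ∑ k, ∑ l, ∑ i, ∑ j, (wE k * wE l * cE i j) * T k l i (thL j) uL = -ν ^ 2
  hr2b : -ν ^ 2 ≤ ∑ m, ∑ i, ∑ j, ∑ k, ∑ l, (wE m * cE i j * cE k l) * T m i j (thL k) (thL l)
  bd1 : ∀ i j k l, |T i j k (thL l) uL| ≤ K * ν
  bd2 : ∀ i j k, |T i j k uL uL| ≤ K * ν ^ 2

/-- the ultrafilter -/
noncomputable abbrev uf : Filter ℕ := (hyperfilter ℕ : Filter ℕ)

theorem cv_of_bdd {x : ℕ → ℝ} {K : ℝ} (h : ∀ n, |x n| ≤ K) : ∃ l, Tendsto x uf (𝓝 l) := by
  have hc : IsCompact (Set.Icc (-K) K) := isCompact_Icc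
  obtain ⟨l, -, hl⟩ := hc.ultrafilter_le_nhds ((hyperfilter ℕ).map x) (by
    rw [Ultrafilter.coe_map, le_principal_iff, Filter.mem_map]
    exact Filter.Eventually.of_forall (fun n => abs_le.1 (h n)))
  exact ⟨l, hl⟩

theorem VL_decomp (D : VL) : D = ∑ a, D.1 a • thL a + D.2 • uL := by
  refine Prod.ext ?_ ?_
  · funext b
    simp [thL, uL, Prod.fst_sum, Finset.sum_apply, Pi.single_apply]
  · simp [thL, uL, Prod.snd_sum]

theorem right_expand (B : VL →ₗ[ℝ] VL →ₗ[ℝ] ℝ) (x D : VL) :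
    B x D = ∑ b, D.1 b * B x (thL b) + D.2 * B x uL := by
  conv_lhs => rw [VL_decomp D]
  simp only [map_add, map_sum, map_smul, smul_eq_mul]

theorem left_expand (B : VL →ₗ[ℝ] VL →ₗ[ℝ] ℝ) (D D' : VL) :
    B D D' = ∑ b, D.1 b * B (thL b) D' + D.2 * B uL D' := by
  conv_lhs => rw [VL_decomp D]
  simp only [map_add, map_sum, map_smul, LinearMap.add_apply, LinearMap.sum_apply,
    LinearMap.smul_apply, smul_eq_mul]

/-- convergence along the ultrafilter -/
def Cv (x : ℕ → ℝ) : Prop := ∃ l, Tendsto x uf (𝓝 l)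

theorem Cv.add {x y : ℕ → ℝ} (hx : Cv x) (hy : Cv y) : Cv (fun n => x n + y n) := by
  obtain ⟨a, ha⟩ := hx
  obtain ⟨b, hb⟩ := hy
  exact ⟨a + b, ha.add hb⟩

theorem Cv.const_mul {x : ℕ → ℝ} (c : ℝ) (hx : Cv x) : Cv (fun n => c * x n) := by
  obtain ⟨a, ha⟩ := hx
  exact ⟨c * a, ha.const_mul c⟩

theorem Cv.sum {ι : Type*} (s : Finset ι) {x : ι → ℕ → ℝ} (hx : ∀ i, Cv (x i)) :
    Cv (fun n => ∑ i ∈ s, x i n) := by
  choose a ha using hx
  exact ⟨∑ i ∈ s, a i, tendsto_finsetSum _ (fun i _ => ha i)⟩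

theorem cv_bil (B : ℕ → VL →ₗ[ℝ] VL →ₗ[ℝ] ℝ)
    (h1 : ∀ a b, Cv (fun n => B n (thL a) (thL b))) (h2 : ∀ a, Cv (fun n => B n (thL a) uL))
    (h3 : ∀ a, Cv (fun n => B n uL (thL a))) (h4 : Cv (fun n => B n uL uL)) (D D' : VL) :
    Cv (fun n => B n D D') := by
  have hR : ∀ x : VL, (∀ b, Cv (fun n => B n x (thL b))) → Cv (fun n => B n x uL) →
      Cv (fun n => B n x D') := by
    intro x hx1 hx2
    have := (Cv.sum Finset.univ (fun b => (hx1 b).const_mul (D'.1 b))).add (hx2.const_mul D'.2)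
    refine (funext fun n => ?_ : (fun n => B n x D') = _) ▸ this
    exact right_expand (B n) x D'
  have := (Cv.sum Finset.univ (fun b => (hR (thL b) (h1 b) (h2 b)).const_mul (D.1 b))).add
    ((hR uL h3 h4).const_mul D.2)
  refine (funext fun n => ?_ : (fun n => B n D D') = _) ▸ this
  exact left_expand (B n) D D'

theorem abs_sum4_le {S : Type*} [Fintype S] (c x : S → S → S → S → ℝ) (b : ℝ)
    (h : ∀ i j k l, |x i j k l| ≤ b) :
    |∑ i, ∑ j, ∑ k, ∑ l, c i j k l * x i j k l| ≤ (∑ i, ∑ j, ∑ k, ∑ l, |c i j k l|) * b := by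
  simp only [Finset.sum_mul]
  refine (Finset.abs_sum_le_sum_abs _ _).trans (Finset.sum_le_sum fun i _ => ?_)
  refine (Finset.abs_sum_le_sum_abs _ _).trans (Finset.sum_le_sum fun j _ => ?_)
  refine (Finset.abs_sum_le_sum_abs _ _).trans (Finset.sum_le_sum fun k _ => ?_)
  refine (Finset.abs_sum_le_sum_abs _ _).trans (Finset.sum_le_sum fun l _ => ?_)
  rw [abs_mul]
  exact mul_le_mul_of_nonneg_left (h i j k l) (abs_nonneg _)

theorem le_of_sq_le {a b : ℝ} (ha : 0 ≤ a) (hb : 0 ≤ b) (h : a ^ 2 ≤ b * a) : a ≤ b := by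
  rcases ha.eq_or_lt with h0 | h0
  · rw [← h0]
    exact hb
  · have : a * a ≤ b * a := by
      rw [← sq]
      exact h
    exact le_of_mul_le_mul_right this h0

/-- a constant -/
noncomputable def SE : ℝ := ∑ k, ∑ l, ∑ i, ∑ j, |wE k * wE l * cE i j|

theorem SE_nonneg : 0 ≤ SE := Finset.sum_nonneg fun _ _ => Finset.sum_nonneg fun _ _ =>
    Finset.sum_nonneg fun _ _ => Finset.sum_nonneg fun _ _ => abs_nonneg _

theorem App.nu_le {K ε : ℝ} (A : App K ε) : A.ν ≤ SE * |K| := by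
  have h := abs_sum4_le (fun k l i j => wE k * wE l * cE i j)
    (fun k l i j => A.T k l i (thL j) uL) (|K| * A.ν) (fun k l i j => (A.bd1 k l i j).trans
      (mul_le_mul_of_nonneg_right (le_abs_self K) A.ν_nonneg))
  have h2 : |(-A.ν ^ 2)| ≤ SE * (|K| * A.ν) := by
    rw [← A.hr2a]
    exact h
  rw [abs_neg, abs_of_nonneg (sq_nonneg _), ← mul_assoc] at h2
  exact le_of_sq_le A.ν_nonneg (mul_nonneg SE_nonneg (abs_nonneg _)) h2

theorem tendsto_mix {T : ℕ → Fin 7 → Fin 7 → Fin 7 → VL →ₗ[ℝ] VL →ₗ[ℝ] ℝ}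
    {L : Fin 7 → Fin 7 → Fin 7 → VL →ₗ[ℝ] VL →ₗ[ℝ] ℝ} {D D' : VL}
    (h : ∀ i j k, Tendsto (fun n => T n i j k D D') uf (𝓝 (L i j k D D'))) (a b c : Fin 7 → ℝ) :
    Tendsto (fun n => mix (T n) a b c D D') uf (𝓝 (mix L a b c D D')) := by
  simp only [mix, LinearMap.sum_apply, LinearMap.smul_apply]
  exact tendsto_finsetSum _ fun i _ => tendsto_finsetSum _ fun j _ =>
    tendsto_finsetSum _ fun k _ => (h i j k).const_smul _

theorem lim_of_app {K : ℝ} {ε : ℕ → ℝ} (hε : Tendsto ε atTop (𝓝 0)) (A : ∀ n, App K (ε n)) :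
    Nonempty Lim := by
  -- the numbers
  have hnum : ∀ i j k l m, Tendsto (fun n => (A n).T i j k (thL l) (thL m)) uf
      (𝓝 (numZ ![i, j, k, l, m] : ℝ)) := by
    intro i j k l m
    have h1 : Tendsto (fun n => (A n).T i j k (thL l) (thL m)) atTop
        (𝓝 (numZ ![i, j, k, l, m] : ℝ)) := by
      rw [tendsto_iff_norm_sub_tendsto_zero]
      refine squeeze_zero (fun _ => norm_nonneg _) (fun n => ?_) hε
      exact (A n).num ![i, j, k, l, m]
    exact h1.mono_left Nat.hyperfilter_le_atTop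
  -- the class
  obtain ⟨S, hS⟩ : ∃ S, S = SE * |K| := ⟨_, rfl⟩
  have hν : ∀ n, |(A n).ν| ≤ S := fun n => by
    rw [abs_of_nonneg (A n).ν_nonneg, hS]
    exact (A n).nu_le
  have hS0 : 0 ≤ S := (abs_nonneg _).trans (hν 0)
  obtain ⟨ν, hνl⟩ := cv_of_bdd hν
  have h2 : ∀ i j k l, Cv (fun n => (A n).T i j k (thL l) uL) := fun i j k l =>
    cv_of_bdd (K := |K| * S) fun n => ((A n).bd1 i j k l).trans
      (mul_le_mul (le_abs_self K) ((le_abs_self _).trans (hν n)) (A n).ν_nonneg (abs_nonneg K))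
  have h3 : ∀ i j k l, Cv (fun n => (A n).T i j k uL (thL l)) := fun i j k l => by
    have := h2 i j k l
    simp only [(A _).symm i j k (thL l) uL] at this
    exact this
  have h4 : ∀ i j k, Cv (fun n => (A n).T i j k uL uL) := fun i j k =>
    cv_of_bdd (K := |K| * S ^ 2) fun n => ((A n).bd2 i j k).trans
      (mul_le_mul (le_abs_self K) (pow_le_pow_left₀ (A n).ν_nonneg
        ((le_abs_self _).trans (hν n)) 2) (sq_nonneg _) (abs_nonneg K))
  have hall : ∀ i j k D D', Cv (fun n => (A n).T i j k D D') := fun i j k D D' =>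
    cv_bil (fun n => (A n).T i j k) (fun a b => ⟨_, hnum i j k a b⟩) (h2 i j k) (h3 i j k)
      (h4 i j k) D D'
  choose L hL using hall
  have hne : (uf).NeBot := inferInstance
  let TL : Fin 7 → Fin 7 → Fin 7 → VL →ₗ[ℝ] VL →ₗ[ℝ] ℝ := fun i j k =>
    LinearMap.mk₂ ℝ (L i j k)
      (fun D E D' => tendsto_nhds_unique (hL i j k (D + E) D') (by
        simpa only [map_add, LinearMap.add_apply] using (hL i j k D D').add (hL i j k E D')))
      (fun c D D' => tendsto_nhds_unique (hL i j k (c • D) D') (by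
        simpa only [map_smul, LinearMap.smul_apply] using (hL i j k D D').const_smul c))
      (fun D D' E => tendsto_nhds_unique (hL i j k D (D' + E)) (by
        simpa only [map_add] using (hL i j k D D').add (hL i j k D E)))
      (fun c D D' => tendsto_nhds_unique (hL i j k D (c • D')) (by
        simpa only [map_smul] using (hL i j k D D').const_smul c))
  have hT : ∀ i j k D D', Tendsto (fun n => (A n).T i j k D D') uf (𝓝 (TL i j k D D')) :=
    fun i j k D D' => hL i j k D D'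
  have huniq : ∀ {x y : ℕ → ℝ} {a b : ℝ}, Tendsto x uf (𝓝 a) → Tendsto y uf (𝓝 b) →
      (∀ n, x n = y n) → a = b := by
    intro x y a b hx hy hxy
    rw [funext hxy] at hx
    exact tendsto_nhds_unique hx hy
  refine ⟨{
    V := VL
    θ := thL
    u := uL
    ν := ν
    T := TL
    swap12 := ?_
    swap23 := ?_
    symm := ?_
    exch := ?_
    sq := ?_
    num := ?_
    hr1 := ?_
    hr2a := ?_
    hr2b := ?_ }⟩
  · intro i j k
    refine LinearMap.ext fun D => LinearMap.ext fun D' => ?_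
    exact huniq (hT i j k D D') (hT j i k D D') fun n => by rw [(A n).swap12]
  · intro i j k
    refine LinearMap.ext fun D => LinearMap.ext fun D' => ?_
    exact huniq (hT i j k D D') (hT i k j D D') fun n => by rw [(A n).swap23]
  · intro i j k D D'
    exact huniq (hT i j k D D') (hT i j k D' D) fun n => (A n).symm i j k D D'
  · intro i j k l D
    exact huniq (hT i j k _ D) (hT i j l _ D) fun n => (A n).exch i j k l D
  · intro i j hi hi'
    refine LinearMap.ext fun D => LinearMap.ext fun D' => ?_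
    exact huniq (hT i i j D D') tendsto_const_nhds fun n => by
      rw [(A n).sq i j hi hi']
  · intro t
    have ht : ![t 0, t 1, t 2, t 3, t 4] = t := by
      funext i
      fin_cases i <;> rfl
    have h := hnum (t 0) (t 1) (t 2) (t 3) (t 4)
    rw [ht] at h
    exact tendsto_nhds_unique (hT _ _ _ _ _) h
  · intro w hw D
    refine le_of_tendsto_of_tendsto
      ((tendsto_mix (fun i j k => hT i j k _ _) w w w).mul
        (tendsto_mix (fun i j k => hT i j k _ _) w w w))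
      ((tendsto_mix (fun i j k => hT i j k _ _) w w w).pow 2)
      (Filter.Eventually.of_forall fun n => (A n).hr1 w hw D)
  · refine huniq (x := fun n => ∑ k, ∑ l, ∑ i, ∑ j,
      (wE k * wE l * cE i j) * (A n).T k l i (thL j) uL) ?_ ((hνl.pow 2).neg)
      fun n => (A n).hr2a
    exact tendsto_finsetSum _ fun k _ => tendsto_finsetSum _ fun l _ =>
      tendsto_finsetSum _ fun i _ => tendsto_finsetSum _ fun j _ => (hT k l i _ _).const_mul _
  · refine le_of_tendsto_of_tendsto ((hνl.pow 2).neg) ?_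
      (Filter.Eventually.of_forall fun n => (A n).hr2b)
    exact tendsto_finsetSum _ fun m _ => tendsto_finsetSum _ fun i _ =>
      tendsto_finsetSum _ fun j _ => tendsto_finsetSum _ fun k _ =>
      tendsto_finsetSum _ fun l _ => (hT m i j _ _).const_mul _

end EH
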