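import Pool.Agent.Work.MP_9eee85_co.EH.LimApp

/-!
Multilinearity of `mix` in the weights.
-/

namespace EH

open Module

section Multi

variable {κ U V S : Type*} [Fintype κ] [Fintype S] [AddCommGroup U] [Module ℝ U]
  [AddCommGroup V] [Module ℝ V]

/-- the combination `∑ a s * N s` of weights -/
noncomputable def cw (N : S → κ → ℝ) (a : S → ℝ) : κ → ℝ := fun i => ∑ s, a s * N s i

theorem comb_cw (θ : κ → U) (N : S → κ → ℝ) (a : S → ℝ) :
    comb θ (cw N a) = ∑ s, a s • comb θ (N s) := by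
  simp only [comb, cw, Finset.sum_smul, Finset.smul_sum, smul_smul]
  exact Finset.sum_comm

theorem mix_cw1 (T : κ → κ → κ → U →ₗ[ℝ] U →ₗ[ℝ] ℝ) (N : S → κ → ℝ) (a : S → ℝ)
    (b c : κ → ℝ) : mix T (cw N a) b c = ∑ s, a s • mix T (N s) b c := by
  simp only [mix, cw, Finset.smul_sum, smul_smul]
  symm
  rw [Finset.sum_comm]
  refine Finset.sum_congr rfl fun i _ => ?_
  rw [Finset.sum_comm]
  refine Finset.sum_congr rfl fun j _ => ?_
  rw [Finset.sum_comm]
  refine Finset.sum_congr rfl fun k _ => ?_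
  rw [← Finset.sum_smul, Finset.sum_mul, Finset.sum_mul]
  simp only [mul_assoc]

theorem mix_cw2 (T : κ → κ → κ → U →ₗ[ℝ] U →ₗ[ℝ] ℝ) (N : S → κ → ℝ) (b : S → ℝ)
    (a c : κ → ℝ) : mix T a (cw N b) c = ∑ s, b s • mix T a (N s) c := by
  simp only [mix, cw, Finset.smul_sum, smul_smul]
  symm
  rw [Finset.sum_comm]
  refine Finset.sum_congr rfl fun i _ => ?_
  rw [Finset.sum_comm]
  refine Finset.sum_congr rfl fun j _ => ?_
  rw [Finset.sum_comm]
  refine Finset.sum_congr rfl fun k _ => ?_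
  rw [← Finset.sum_smul, Finset.mul_sum, Finset.sum_mul]
  refine congrArg (fun z : ℝ => z • T i j k) (Finset.sum_congr rfl fun s _ => ?_)
  ring

theorem mix_cw3 (T : κ → κ → κ → U →ₗ[ℝ] U →ₗ[ℝ] ℝ) (N : S → κ → ℝ) (c : S → ℝ)
    (a b : κ → ℝ) : mix T a b (cw N c) = ∑ s, c s • mix T a b (N s) := by
  simp only [mix, cw, Finset.smul_sum, smul_smul]
  symm
  rw [Finset.sum_comm]
  refine Finset.sum_congr rfl fun i _ => ?_
  rw [Finset.sum_comm]
  refine Finset.sum_congr rfl fun j _ => ?_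
  rw [Finset.sum_comm]
  refine Finset.sum_congr rfl fun k _ => ?_
  rw [← Finset.sum_smul, Finset.mul_sum]
  refine congrArg (fun z : ℝ => z • T i j k) (Finset.sum_congr rfl fun s _ => ?_)
  ring

/-- the pulled back forms -/
noncomputable def pb (c₀ : ℝ) (T : κ → κ → κ → U →ₗ[ℝ] U →ₗ[ℝ] ℝ) (N : S → κ → ℝ)
    (P : V →ₗ[ℝ] U) : S → S → S → V →ₗ[ℝ] V →ₗ[ℝ] ℝ := fun r s t =>
  c₀ • (mix T (N r) (N s) (N t)).compl₁₂ P P

omit [Fintype S] in
theorem pb_apply (c₀ : ℝ) (T : κ → κ → κ → U →ₗ[ℝ] U →ₗ[ℝ] ℝ) (N : S → κ → ℝ)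
    (P : V →ₗ[ℝ] U) (r s t : S) (D D' : V) :
    pb c₀ T N P r s t D D' = c₀ * mix T (N r) (N s) (N t) (P D) (P D') := rfl

theorem mix_pb (c₀ : ℝ) (T : κ → κ → κ → U →ₗ[ℝ] U →ₗ[ℝ] ℝ) (N : S → κ → ℝ)
    (P : V →ₗ[ℝ] U) (a b c : S → ℝ) (D D' : V) :
    mix (pb c₀ T N P) a b c D D' = c₀ * mix T (cw N a) (cw N b) (cw N c) (P D) (P D') := by
  have h : mix T (cw N a) (cw N b) (cw N c) =
      ∑ r, ∑ s, ∑ t, (a r * b s * c t) • mix T (N r) (N s) (N t) := by
    rw [mix_cw1]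
    refine Finset.sum_congr rfl fun r _ => ?_
    rw [mix_cw2, Finset.smul_sum]
    refine Finset.sum_congr rfl fun s _ => ?_
    rw [mix_cw3, Finset.smul_sum, Finset.smul_sum]
    refine Finset.sum_congr rfl fun t _ => ?_
    rw [smul_smul, smul_smul]
  rw [h]
  simp only [mix, LinearMap.sum_apply, LinearMap.smul_apply, pb_apply, Finset.mul_sum,
    smul_eq_mul]
  refine Finset.sum_congr rfl fun r _ => Finset.sum_congr rfl fun s _ =>
    Finset.sum_congr rfl fun t _ => Finset.sum_congr rfl fun i _ =>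
    Finset.sum_congr rfl fun j _ => Finset.sum_congr rfl fun k _ => ?_
  exact mul_left_comm _ _ _

theorem mix_apply (T : κ → κ → κ → U →ₗ[ℝ] U →ₗ[ℝ] ℝ) (a b c : κ → ℝ) (D D' : U) :
    mix T a b c D D' = ∑ i, ∑ j, ∑ k, (a i * b j * c k) * T i j k D D' := by
  simp only [mix, LinearMap.sum_apply, LinearMap.smul_apply, smul_eq_mul]

theorem mix_comb_apply (T : κ → κ → κ → U →ₗ[ℝ] U →ₗ[ℝ] ℝ) (θ : κ → U) (a b c d : κ → ℝ)
    (D' : U) : mix T a b c (comb θ d) D' =
      ∑ i, ∑ j, ∑ k, ∑ l, (a i * b j * c k * d l) * T i j k (θ l) D' := by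
  rw [mix_apply]
  refine Finset.sum_congr rfl fun i _ => Finset.sum_congr rfl fun j _ =>
    Finset.sum_congr rfl fun k _ => ?_
  simp only [comb, map_sum, map_smul, LinearMap.sum_apply, LinearMap.smul_apply, smul_eq_mul,
    Finset.mul_sum]
  refine Finset.sum_congr rfl fun l _ => ?_
  ring

theorem mix_comb_comb (T : κ → κ → κ → U →ₗ[ℝ] U →ₗ[ℝ] ℝ) (θ : κ → U) (a b c d e : κ → ℝ) :
    mix T a b c (comb θ d) (comb θ e) =
      ∑ i, ∑ j, ∑ k, ∑ l, ∑ m, (a i * b j * c k * d l * e m) * T i j k (θ l) (θ m) := by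
  rw [mix_comb_apply]
  refine Finset.sum_congr rfl fun i _ => Finset.sum_congr rfl fun j _ =>
    Finset.sum_congr rfl fun k _ => Finset.sum_congr rfl fun l _ => ?_
  simp only [comb, map_sum, map_smul, smul_eq_mul, Finset.mul_sum]
  refine Finset.sum_congr rfl fun m _ => ?_
  ring

theorem mix_smul (T : κ → κ → κ → U →ₗ[ℝ] U →ₗ[ℝ] ℝ) (x y z : ℝ) (a b c : κ → ℝ) :
    mix T (fun i => x * a i) (fun i => y * b i) (fun i => z * c i) =
      (x * y * z) • mix T a b c := by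
  simp only [mix, Finset.smul_sum, smul_smul]
  refine Finset.sum_congr rfl fun i _ => Finset.sum_congr rfl fun j _ =>
    Finset.sum_congr rfl fun k _ => ?_
  refine congrArg (fun z : ℝ => z • T i j k) ?_
  ring

theorem comb_smul (θ : κ → U) (x : ℝ) (a : κ → ℝ) :
    comb θ (fun i => x * a i) = x • comb θ a := by
  simp only [comb, Finset.smul_sum, smul_smul]

theorem sum22_comm {A B : Type*} [Fintype A] [Fintype B] (f : A → A → B → B → ℝ) :
    ∑ k, ∑ l, ∑ r, ∑ s, f k l r s = ∑ r, ∑ s, ∑ k, ∑ l, f k l r s := by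
  calc _ = ∑ p : A × A, ∑ q : B × B, f p.1 p.2 q.1 q.2 := by simp only [Fintype.sum_prod_type]
  _ = ∑ q : B × B, ∑ p : A × A, f p.1 p.2 q.1 q.2 := Finset.sum_comm
  _ = _ := by simp only [Fintype.sum_prod_type]

theorem sum_fun_five {A : Type*} [Fintype A] [DecidableEq A] (g : (Fin 5 → A) → ℝ) :
    ∑ τ, g τ = ∑ i, ∑ j, ∑ k, ∑ l, ∑ m, g ![i, j, k, l, m] := by
  have key : ∀ {n : ℕ} (h : (Fin (n + 1) → A) → ℝ),
      ∑ τ, h τ = ∑ i, ∑ τ' : Fin n → A, h (Matrix.vecCons i τ') := by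
    intro n h
    rw [← Fintype.sum_prod_type']
    exact (Fintype.sum_equiv (Fin.consEquiv (fun _ => A)) _ _ (fun p => rfl)).symm
  rw [key]
  refine Finset.sum_congr rfl fun i _ => ?_
  rw [key]
  refine Finset.sum_congr rfl fun j _ => ?_
  rw [key]
  refine Finset.sum_congr rfl fun k _ => ?_
  rw [key]
  refine Finset.sum_congr rfl fun l _ => ?_
  rw [key]
  refine Finset.sum_congr rfl fun m _ => ?_
  rw [Fintype.sum_unique]
  rfl

end Multi

section Q

variable {ι : Type} [Fintype ι] {deg : (Fin 5 → ι) → ℝ} {C : ℝ} (Q : QKP ι deg C)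

theorem QKP.mix_swap12 (a b c : Option ι → ℝ) : mix Q.T a b c = mix Q.T b a c := by
  unfold mix
  rw [Finset.sum_comm]
  refine Finset.sum_congr rfl fun j _ => Finset.sum_congr rfl fun i _ =>
    Finset.sum_congr rfl fun k _ => ?_
  rw [Q.swap12 i j k, mul_comm (a i)]

theorem QKP.mix_swap23 (a b c : Option ι → ℝ) : mix Q.T a b c = mix Q.T a c b := by
  unfold mix
  refine Finset.sum_congr rfl fun i _ => ?_
  rw [Finset.sum_comm]
  refine Finset.sum_congr rfl fun k _ => Finset.sum_congr rfl fun j _ => ?_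
  rw [Q.swap23 i j k, mul_right_comm]

theorem QKP.mix_symm (a b c : Option ι → ℝ) (D D' : Q.U) :
    mix Q.T a b c D D' = mix Q.T a b c D' D := by
  simp only [mix_apply]
  refine Finset.sum_congr rfl fun i _ => Finset.sum_congr rfl fun j _ =>
    Finset.sum_congr rfl fun k _ => ?_
  rw [Q.symm]

theorem QKP.mix_exch (a b c d : Option ι → ℝ) (D : Q.U) :
    mix Q.T a b c (comb Q.θ d) D = mix Q.T a b d (comb Q.θ c) D := by
  simp only [mix_comb_apply]
  refine Finset.sum_congr rfl fun i _ => Finset.sum_congr rfl fun j _ => ?_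
  rw [Finset.sum_comm]
  refine Finset.sum_congr rfl fun k _ => Finset.sum_congr rfl fun l _ => ?_
  rw [Q.exch i j l k D]
  ring

end Q

end EH
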