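import Pool.Agent.Work.MP_9eee85_co.EH.LimMix

/-!
The weights of the seven classes and the numbers.
-/

namespace EH

open Module

theorem cnt_eq_sum (t : Fin 5 → Fin 7) (s : Fin 7) :
    cnt t s = ∑ i, if t i = s then 1 else 0 := by
  rw [Fin.sum_univ_five]
  simp only [cnt, List.ofFn_succ, List.ofFn_zero, List.filter_cons, List.filter_nil]
  have e1 : (Fin.succ 0 : Fin 5) = 1 := rfl
  have e2 : (Fin.succ (Fin.succ 0) : Fin 5) = 2 := rfl
  have e3 : (Fin.succ (Fin.succ (Fin.succ 0)) : Fin 5) = 3 := rfl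
  have e4 : (Fin.succ (Fin.succ (Fin.succ (Fin.succ 0))) : Fin 5) = 4 := rfl
  rw [e1, e2, e3, e4]
  by_cases h0 : t 0 = s <;> by_cases h1 : t 1 = s <;> by_cases h2 : t 2 = s <;>
    by_cases h3 : t 3 = s <;> by_cases h4 : t 4 = s <;> simp [h0, h1, h2, h3, h4]

theorem cnt_pos {t : Fin 5 → Fin 7} {s : Fin 7} {i : Fin 5} (h : t i = s) : 0 < cnt t s := by
  rw [cnt_eq_sum]
  refine lt_of_lt_of_le (b := if t i = s then 1 else 0) (by rw [if_pos h]; exact one_pos) ?_
  exact Finset.single_le_sum (f := fun i => if t i = s then 1 else 0) (fun _ _ => Nat.zero_le _)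
    (Finset.mem_univ i)

theorem one_lt_cnt {t : Fin 5 → Fin 7} {s : Fin 7} {i j : Fin 5} (hij : i ≠ j) (h : t i = s)
    (h' : t j = s) : 1 < cnt t s := by
  rw [cnt_eq_sum]
  have h1 : ∑ k ∈ ({i, j} : Finset (Fin 5)), (if t k = s then 1 else 0) = 2 := by
    rw [Finset.sum_pair hij, if_pos h, if_pos h']
  have h2 : ∑ k ∈ ({i, j} : Finset (Fin 5)), (if t k = s then 1 else 0) ≤
      ∑ k, (if t k = s then 1 else 0) :=
    Finset.sum_le_sum_of_subset (Finset.subset_univ _)
  omega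

theorem numZ_six {t : Fin 5 → Fin 7} {i : Fin 5} (h : t i = 6) : numZ t = 0 := by
  unfold numZ
  rw [if_pos (Or.inl (cnt_pos h))]

theorem seven_cases : ∀ s : Fin 7, s ≠ 0 → s = 1 ∨ s = 2 ∨ s = 3 ∨ s = 4 ∨ s = 5 ∨ s = 6 := by
  decide

theorem numZ_rep {t : Fin 5 → Fin 7} {i j : Fin 5} (hij : i ≠ j) (h : t i = t j)
    (h0 : t i ≠ 0) : numZ t = 0 := by
  have key : ∀ s : Fin 7, s ≠ 0 → t i = s → numZ t = 0 := by
    intro s hs his
    have hjs : t j = s := h ▸ his
    have h1 := one_lt_cnt hij his hjs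
    unfold numZ
    rw [if_pos]
    have hs' : s = 1 ∨ s = 2 ∨ s = 3 ∨ s = 4 ∨ s = 5 ∨ s = 6 := seven_cases s hs
    rcases hs' with rfl | rfl | rfl | rfl | rfl | rfl
    · exact Or.inr (Or.inl h1)
    · exact Or.inr (Or.inr (Or.inl h1))
    · exact Or.inr (Or.inr (Or.inr (Or.inl h1)))
    · exact Or.inr (Or.inr (Or.inr (Or.inr (Or.inl h1))))
    · exact Or.inr (Or.inr (Or.inr (Or.inr (Or.inr h1))))
    · exact Or.inl (lt_trans one_pos h1)
  exact key (t i) h0 rfl

theorem abs_numZ_le (t : Fin 5 → Fin 7) : |(numZ t : ℝ)| ≤ 6 := by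
  have h : 0 ≤ numZ t ∧ numZ t ≤ 6 := by
    unfold numZ
    split_ifs with h1 h2
    · omega
    · split <;> omega
    · split <;> omega
  have h1 : (0 : ℝ) ≤ numZ t := by exact_mod_cast h.1
  have h2 : (numZ t : ℝ) ≤ 6 := by exact_mod_cast h.2
  rw [abs_of_nonneg h1]
  exact h2

/-- the weights of the seven classes -/
noncomputable def Nw (M : ℕ) (δ : ℝ) (s : Fin 7) : Option (Fin 5 ⊕ Fin M) → ℝ
  | none => if s = 6 then δ else 0
  | some x => if typ x = s then (if s = 0 then (M : ℝ)⁻¹ else 1) else 0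

theorem typ_ne_six {M : ℕ} (x : Fin 5 ⊕ Fin M) : typ x ≠ 6 := by
  rcases x with i | j
  · intro h
    have := congrArg Fin.val h
    have hi := i.2
    change i.1 + 1 = 6 at this
    omega
  · intro h
    have h' : (0 : Fin 7) = 6 := h
    exact absurd h' (by decide)

theorem typ_inj {M : ℕ} {x y : Fin 5 ⊕ Fin M} (h : typ x = typ y) (h0 : typ x ≠ 0) : x = y := by
  rcases x with i | j
  · rcases y with i' | j'
    · have := congrArg Fin.val h
      change i.1 + 1 = i'.1 + 1 at this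
      exact congrArg Sum.inl (Fin.ext (by omega))
    · exact absurd h h0
  · exact absurd rfl h0

section

variable {M : ℕ} {δ : ℝ}

theorem Nw_nonneg (hδ : 0 ≤ δ) (s : Fin 7) (y : Option (Fin 5 ⊕ Fin M)) : 0 ≤ Nw M δ s y := by
  rcases y with _ | x
  · change 0 ≤ if s = 6 then δ else 0
    split_ifs
    · exact hδ
    · exact le_rfl
  · change 0 ≤ if typ x = s then (if s = 0 then (M : ℝ)⁻¹ else 1) else 0
    split_ifs
    · exact inv_nonneg.2 (Nat.cast_nonneg M)
    · exact zero_le_one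
    · exact le_rfl

theorem inv_le_one' (hM : 0 < M) : (M : ℝ)⁻¹ ≤ 1 :=
  inv_le_one_of_one_le₀ (by exact_mod_cast hM)

theorem Nw_le_one (hM : 0 < M) (hδ : δ ≤ 1) (s : Fin 7) (y : Option (Fin 5 ⊕ Fin M)) :
    Nw M δ s y ≤ 1 := by
  rcases y with _ | x
  · change (if s = 6 then δ else 0) ≤ 1
    split_ifs
    · exact hδ
    · exact zero_le_one
  · change (if typ x = s then (if s = 0 then (M : ℝ)⁻¹ else 1) else 0) ≤ 1
    split_ifs
    · exact inv_le_one' hM
    · exact le_rfl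
    · exact zero_le_one

theorem Nw_six_le (hδ : 0 ≤ δ) (y : Option (Fin 5 ⊕ Fin M)) : Nw M δ 6 y ≤ δ := by
  rcases y with _ | x
  · exact le_rfl
  · change (if typ x = 6 then _ else (0 : ℝ)) ≤ δ
    rw [if_neg (typ_ne_six x)]
    exact hδ

theorem Nw_none {s : Fin 7} (hs : s ≠ 6) : Nw M δ s none = 0 := if_neg hs

theorem Nw_some_ne {s : Fin 7} {x : Fin 5 ⊕ Fin M} (hs : typ x ≠ s) : Nw M δ s (some x) = 0 :=
  if_neg hs

theorem Nw_zero_le (x : Fin 5 ⊕ Fin M) : Nw M δ 0 (some x) ≤ (M : ℝ)⁻¹ := by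
  change (if typ x = 0 then (if (0 : Fin 7) = 0 then (M : ℝ)⁻¹ else 1) else 0) ≤ (M : ℝ)⁻¹
  have h0 : (0 : ℝ) ≤ (M : ℝ)⁻¹ := inv_nonneg.2 (Nat.cast_nonneg M)
  by_cases h : typ x = 0
  · rw [if_pos h, if_pos rfl]
  · rw [if_neg h]
    exact h0

theorem sum_Nw (hM : 0 < M) {s : Fin 7} (hs : s ≠ 6) :
    ∑ x : Fin 5 ⊕ Fin M, Nw M δ s (some x) = 1 := by
  have hM' : (M : ℝ) ≠ 0 := by exact_mod_cast hM.ne'
  rw [Fintype.sum_sum_type]
  have h1 : ∀ j : Fin M, Nw M δ s (some (Sum.inr j)) = if (0 : Fin 7) = s then (M : ℝ)⁻¹ else 0 := by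
    intro j
    change (if (0 : Fin 7) = s then (if s = 0 then (M : ℝ)⁻¹ else 1) else 0) = _
    by_cases h : (0 : Fin 7) = s
    · rw [if_pos h, if_pos h, if_pos h.symm]
    · rw [if_neg h, if_neg h]
  simp only [h1, Finset.sum_const, Finset.card_univ, Fintype.card_fin]
  have h2 : ∀ i : Fin 5, Nw M δ s (some (Sum.inl i)) =
      if (⟨i.1 + 1, by omega⟩ : Fin 7) = s then (if s = 0 then (M : ℝ)⁻¹ else 1) else 0 :=
    fun i => rfl
  simp only [h2, Fin.sum_univ_five]
  fin_cases s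
  · simp [hM']
  · simp
  · simp
  · simp
  · simp
  · simp
  · exact absurd rfl hs

/-- numbers with the auxiliary class -/
theorem num_six (hM : 0 < M) (hδ : 0 ≤ δ) (hδ' : δ ≤ 1)
    (X : (Fin 5 → Option (Fin 5 ⊕ Fin M)) → ℝ) {t : Fin 5 → Fin 7} {i : Fin 5} (h : t i = 6) :
    |∑ τ, (∏ k, Nw M δ (t k) (τ k)) * X τ| ≤ δ * ∑ τ, |X τ| := by
  rw [Finset.mul_sum]
  refine (Finset.abs_sum_le_sum_abs _ _).trans (Finset.sum_le_sum fun τ _ => ?_)
  rw [abs_mul]
  refine mul_le_mul_of_nonneg_right ?_ (abs_nonneg _)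
  rw [abs_of_nonneg (Finset.prod_nonneg fun k _ => Nw_nonneg hδ _ _),
    ← Finset.mul_prod_erase Finset.univ _ (Finset.mem_univ i)]
  calc Nw M δ (t i) (τ i) * ∏ k ∈ Finset.univ.erase i, Nw M δ (t k) (τ k) ≤ δ * 1 := by
        refine mul_le_mul ?_ ?_ (Finset.prod_nonneg fun k _ => Nw_nonneg hδ _ _) hδ
        · rw [h]
          exact Nw_six_le hδ _
        · exact Finset.prod_le_one (fun k _ => Nw_nonneg hδ _ _) (fun k _ => Nw_le_one hM hδ' _ _)
    _ = δ := mul_one δ

/-- a coincidence has small weight -/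
theorem pair_le (hM : 0 < M) (hδ : 0 ≤ δ) {t : Fin 5 → Fin 7} (ht : ∀ i, t i ≠ 6) {i j : Fin 5}
    (hij : i ≠ j) (hi : t i = 0) (hj : t j = 0) :
    ∑ σ : Fin 5 → Fin 5 ⊕ Fin M, (∏ k, Nw M δ (t k) (some (σ k))) *
      (if σ i = σ j then 1 else 0) ≤ (M : ℝ)⁻¹ := by
  classical
  have h1 : ∀ σ : Fin 5 → Fin 5 ⊕ Fin M, (∏ k, Nw M δ (t k) (some (σ k))) *
      (if σ i = σ j then (1 : ℝ) else 0) = ∑ x, ∏ k, (Nw M δ (t k) (some (σ k)) *
        if k = i ∨ k = j then (if σ k = x then 1 else 0) else 1) := by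
    intro σ
    have h2 : ∀ x, ∏ k, (Nw M δ (t k) (some (σ k)) *
        if k = i ∨ k = j then (if σ k = x then (1 : ℝ) else 0) else 1) =
        (∏ k, Nw M δ (t k) (some (σ k))) * ((if σ i = x then 1 else 0) *
          (if σ j = x then 1 else 0)) := by
      intro x
      rw [Finset.prod_mul_distrib]
      congr 1
      rw [Finset.prod_ite, Finset.prod_const_one, mul_one]
      have h3 : Finset.univ.filter (fun k : Fin 5 => k = i ∨ k = j) = {i, j} := by
        ext k
        simp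
      rw [h3, Finset.prod_pair hij]
    simp only [h2, ← Finset.mul_sum]
    congr 1
    by_cases h : σ i = σ j
    · rw [if_pos h, Finset.sum_eq_single (σ i)]
      · rw [if_pos rfl, if_pos h.symm, one_mul]
      · intro x _ hx
        rw [if_neg (Ne.symm hx), zero_mul]
      · intro hx
        exact absurd (Finset.mem_univ _) hx
    · rw [if_neg h]
      symm
      refine Finset.sum_eq_zero fun x _ => ?_
      by_cases hx : σ i = x
      · rw [if_neg (fun h' : σ j = x => h (hx.trans h'.symm)), mul_zero]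
      · rw [if_neg hx, zero_mul]
  simp only [h1]
  rw [Finset.sum_comm]
  have h4 : ∀ x, ∑ σ : Fin 5 → Fin 5 ⊕ Fin M, ∏ k, (Nw M δ (t k) (some (σ k)) *
        if k = i ∨ k = j then (if σ k = x then (1 : ℝ) else 0) else 1) =
        Nw M δ 0 (some x) * Nw M δ 0 (some x) := by
    intro x
    have h5 := Finset.prod_univ_sum (fun _ : Fin 5 => (Finset.univ : Finset (Fin 5 ⊕ Fin M)))
      (fun k y => Nw M δ (t k) (some y) *
        if k = i ∨ k = j then (if y = x then (1 : ℝ) else 0) else 1)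
    rw [Fintype.piFinset_univ] at h5
    rw [← h5]
    have h6 : ∀ k, ∑ y, Nw M δ (t k) (some y) *
        (if k = i ∨ k = j then (if y = x then (1 : ℝ) else 0) else 1) =
        if k = i ∨ k = j then Nw M δ 0 (some x) else 1 := by
      intro k
      by_cases hk : k = i ∨ k = j
      · have hk0 : t k = 0 := by
          rcases hk with rfl | rfl
          · exact hi
          · exact hj
        simp only [if_pos hk, hk0]
        rw [Finset.sum_eq_single x]
        · rw [if_pos rfl, mul_one]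
        · intro y _ hy
          rw [if_neg hy, mul_zero]
        · intro hx
          exact absurd (Finset.mem_univ _) hx
      · simp only [if_neg hk, mul_one]
        exact sum_Nw hM (ht k)
    simp only [h6]
    rw [Finset.prod_ite, Finset.prod_const_one, mul_one]
    have h3 : Finset.univ.filter (fun k : Fin 5 => k = i ∨ k = j) = {i, j} := by
      ext k
      simp
    rw [h3, Finset.prod_pair hij]
  simp only [h4]
  calc ∑ x, Nw M δ 0 (some x) * Nw M δ 0 (some x) ≤ ∑ x, (M : ℝ)⁻¹ * Nw M δ 0 (some x) :=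
        Finset.sum_le_sum fun x _ => mul_le_mul_of_nonneg_right (Nw_zero_le x) (Nw_nonneg hδ _ _)
    _ = (M : ℝ)⁻¹ := by
        rw [← Finset.mul_sum, sum_Nw hM (by decide), mul_one]

/-- numbers without the auxiliary class -/
theorem num_gen (hM : 0 < M) (hδ : 0 ≤ δ) {t : Fin 5 → Fin 7} (ht : ∀ i, t i ≠ 6)
    {deg : (Fin 5 → Fin 5 ⊕ Fin M) → ℝ} {c₀ η : ℝ} (hη : 0 ≤ η)
    (h0 : ∀ t, ¬ Function.Injective t → deg t = 0)
    (h1 : ∀ t, Function.Injective t → |c₀ * deg t - numZ (fun i => typ (t i))| ≤ η) :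
    |c₀ * ∑ σ : Fin 5 → Fin 5 ⊕ Fin M, (∏ k, Nw M δ (t k) (some (σ k))) * deg σ - numZ t| ≤
      η + 150 / M := by
  classical
  have hsum : ∑ σ : Fin 5 → Fin 5 ⊕ Fin M, ∏ k, Nw M δ (t k) (some (σ k)) = 1 := by
    have h5 := Finset.prod_univ_sum (fun _ : Fin 5 => (Finset.univ : Finset (Fin 5 ⊕ Fin M)))
      (fun k y => Nw M δ (t k) (some y))
    rw [Fintype.piFinset_univ] at h5
    rw [← h5]
    exact Finset.prod_eq_one fun k _ => sum_Nw hM (ht k)
  have h2 : c₀ * ∑ σ : Fin 5 → Fin 5 ⊕ Fin M, (∏ k, Nw M δ (t k) (some (σ k))) * deg σ - numZ t =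
      ∑ σ : Fin 5 → Fin 5 ⊕ Fin M, (∏ k, Nw M δ (t k) (some (σ k))) * (c₀ * deg σ - numZ t) := by
    have : (numZ t : ℝ) = ∑ σ : Fin 5 → Fin 5 ⊕ Fin M,
        (∏ k, Nw M δ (t k) (some (σ k))) * numZ t := by
      rw [← Finset.sum_mul, hsum, one_mul]
    conv_lhs => rw [this]
    rw [Finset.mul_sum, ← Finset.sum_sub_distrib]
    exact Finset.sum_congr rfl fun σ _ => by ring
  rw [h2]
  have h3 : ∀ σ : Fin 5 → Fin 5 ⊕ Fin M,
      |(∏ k, Nw M δ (t k) (some (σ k))) * (c₀ * deg σ - numZ t)| ≤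
      (∏ k, Nw M δ (t k) (some (σ k))) * η + ∑ i : Fin 5, ∑ j : Fin 5,
        if i ≠ j ∧ t i = 0 ∧ t j = 0 then 6 * ((∏ k, Nw M δ (t k) (some (σ k))) *
          (if σ i = σ j then 1 else 0)) else 0 := by
    intro σ
    have hp : 0 ≤ ∏ k, Nw M δ (t k) (some (σ k)) :=
      Finset.prod_nonneg fun k _ => Nw_nonneg hδ _ _
    have hterm : ∀ i j : Fin 5, 0 ≤ if i ≠ j ∧ t i = 0 ∧ t j = 0 then
        6 * ((∏ k, Nw M δ (t k) (some (σ k))) * (if σ i = σ j then (1 : ℝ) else 0)) else 0 := by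
      intro i j
      split_ifs
      · simp only [mul_one]
        exact mul_nonneg (by norm_num) hp
      · simp
      · exact le_rfl
    have hs0 : 0 ≤ ∑ i : Fin 5, ∑ j : Fin 5, if i ≠ j ∧ t i = 0 ∧ t j = 0 then
        6 * ((∏ k, Nw M δ (t k) (some (σ k))) * (if σ i = σ j then (1 : ℝ) else 0)) else 0 :=
      Finset.sum_nonneg fun i _ => Finset.sum_nonneg fun j _ => hterm i j
    by_cases hsupp : ∀ k, typ (σ k) = t k
    · rw [abs_mul, abs_of_nonneg hp]
      by_cases hinj : Function.Injective σ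
      · have h := h1 σ hinj
        rw [funext hsupp] at h
        exact (mul_le_mul_of_nonneg_left h hp).trans (le_add_of_nonneg_right hs0)
      · rw [h0 σ hinj, mul_zero, zero_sub, abs_neg]
        obtain ⟨i, j, hσ, hij⟩ : ∃ i j, σ i = σ j ∧ i ≠ j := by
          rw [Function.Injective] at hinj
          push Not at hinj
          exact hinj
        have htt : t i = t j := by rw [← hsupp, ← hsupp, hσ]
        by_cases hti : t i = 0
        · have hle : (∏ k, Nw M δ (t k) (some (σ k))) * |(numZ t : ℝ)| ≤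
              ∑ i : Fin 5, ∑ j : Fin 5, if i ≠ j ∧ t i = 0 ∧ t j = 0 then
              6 * ((∏ k, Nw M δ (t k) (some (σ k))) * (if σ i = σ j then (1 : ℝ) else 0)) else 0 := by
            refine le_trans ?_ (Finset.single_le_sum (f := fun i => ∑ j : Fin 5,
              if i ≠ j ∧ t i = 0 ∧ t j = 0 then 6 * ((∏ k, Nw M δ (t k) (some (σ k))) *
              (if σ i = σ j then (1 : ℝ) else 0)) else 0)
              (fun i _ => Finset.sum_nonneg fun j _ => hterm i j) (Finset.mem_univ i))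
            refine le_trans ?_ (Finset.single_le_sum (f := fun j =>
              if i ≠ j ∧ t i = 0 ∧ t j = 0 then 6 * ((∏ k, Nw M δ (t k) (some (σ k))) *
              (if σ i = σ j then (1 : ℝ) else 0)) else 0)
              (fun j _ => hterm i j) (Finset.mem_univ j))
            rw [if_pos ⟨hij, hti, htt ▸ hti⟩, if_pos hσ, mul_one, mul_comm]
            exact mul_le_mul_of_nonneg_right (abs_numZ_le t) hp
          exact hle.trans (le_add_of_nonneg_left (mul_nonneg hp hη))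
        · rw [numZ_rep hij htt hti, Int.cast_zero, abs_zero, mul_zero]
          exact add_nonneg (mul_nonneg hp hη) hs0
    · push Not at hsupp
      obtain ⟨k, hk⟩ := hsupp
      have hz : ∏ k, Nw M δ (t k) (some (σ k)) = 0 :=
        Finset.prod_eq_zero (Finset.mem_univ k) (Nw_some_ne hk)
      rw [hz, zero_mul, abs_zero, zero_mul, zero_add]
      rw [hz] at hs0
      exact hs0
  refine (Finset.abs_sum_le_sum_abs _ _).trans ((Finset.sum_le_sum fun σ _ => h3 σ).trans ?_)
  rw [Finset.sum_add_distrib, ← Finset.sum_mul, hsum, one_mul]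
  refine add_le_add le_rfl ?_
  rw [Finset.sum_comm]
  have h6 : ∀ i : Fin 5, ∑ σ : Fin 5 → Fin 5 ⊕ Fin M, ∑ j : Fin 5,
      (if i ≠ j ∧ t i = 0 ∧ t j = 0 then 6 * ((∏ k, Nw M δ (t k) (some (σ k))) *
          (if σ i = σ j then (1 : ℝ) else 0)) else 0) ≤ 30 * (M : ℝ)⁻¹ := by
    intro i
    rw [Finset.sum_comm]
    have h7 : ∀ j : Fin 5, ∑ σ : Fin 5 → Fin 5 ⊕ Fin M,
      (if i ≠ j ∧ t i = 0 ∧ t j = 0 then 6 * ((∏ k, Nw M δ (t k) (some (σ k))) *
          (if σ i = σ j then (1 : ℝ) else 0)) else 0) ≤ 6 * (M : ℝ)⁻¹ := by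
      intro j
      by_cases hc : i ≠ j ∧ t i = 0 ∧ t j = 0
      · simp only [if_pos hc, ← Finset.mul_sum]
        exact mul_le_mul_of_nonneg_left (pair_le hM hδ ht hc.1 hc.2.1 hc.2.2) (by norm_num)
      · simp only [if_neg hc, Finset.sum_const_zero]
        exact mul_nonneg (by norm_num) (inv_nonneg.2 (Nat.cast_nonneg M))
    refine (Finset.sum_le_sum fun j _ => h7 j).trans (le_of_eq ?_)
    rw [Finset.sum_const, Finset.card_univ, Fintype.card_fin, nsmul_eq_mul]
    push_cast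
    ring
  refine (Finset.sum_le_sum fun i _ => h6 i).trans (le_of_eq ?_)
  rw [Finset.sum_const, Finset.card_univ, Fintype.card_fin, nsmul_eq_mul, div_eq_mul_inv]
  push_cast
  ring

/-- a sum over functions into `Option` which are nonzero only on functions into the type -/
theorem sum_option_fun {ι : Type*} [Fintype ι] [DecidableEq ι] (F : (Fin 5 → Option ι) → ℝ)
    (hF : ∀ τ k, τ k = none → F τ = 0) : ∑ τ, F τ = ∑ σ : Fin 5 → ι, F (fun k => some (σ k)) := by
  symm
  refine Finset.sum_of_injOn (fun (σ : Fin 5 → ι) k => some (σ k)) ?_ ?_ ?_ ?_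
  · intro σ _ σ' _ h
    funext k
    exact Option.some_injective _ (congrFun h k)
  · intro σ _
    exact Finset.mem_coe.2 (Finset.mem_univ _)
  · intro τ _ hτ
    by_contra hne
    have hall : ∀ k, ∃ x, τ k = some x := by
      intro k
      rcases h : τ k with _ | x
      · exact absurd (hF τ k h) hne
      · exact ⟨x, rfl⟩
    choose σ hσ using hall
    exact hτ ⟨σ, Finset.mem_coe.2 (Finset.mem_univ _), (funext hσ).symm⟩
  · intro σ _
    rfl

end

end EH
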