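import Pool.Agent.Work.MP_9eee85_co.EH.LimNum

/-!
The sums in the Hodge-Riemann relation of degree four for the seven classes.
-/

namespace EH

open Module

theorem sum14_comm {A B : Type*} [Fintype A] [Fintype B] (f : A → B → B → B → B → ℝ) :
    ∑ m, ∑ i, ∑ j, ∑ k, ∑ l, f m i j k l = ∑ i, ∑ j, ∑ k, ∑ l, ∑ m, f m i j k l := by
  calc _ = ∑ m, ∑ p : B × B × B × B, f m p.1 p.2.1 p.2.2.1 p.2.2.2 := by
        simp only [Fintype.sum_prod_type]
  _ = ∑ p : B × B × B × B, ∑ m, f m p.1 p.2.1 p.2.2.1 p.2.2.2 := Finset.sum_comm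
  _ = _ := by simp only [Fintype.sum_prod_type]

section

variable {κ S : Type*} [Fintype κ] [Fintype S]

/-- the sum over a pair of indices with the weights `N r`, `N s` -/
noncomputable def ps (N : S → κ → ℝ) (r s : S) (G : κ → κ → ℝ) : ℝ :=
  ∑ i, ∑ j, (N r i * N s j) * G i j

theorem ps_sum (N : S → κ → ℝ) (r s : S) (d : S → S → ℝ) (G : S → S → κ → κ → ℝ) :
    ∑ p, ∑ q, d p q * ps N r s (G p q) = ps N r s (fun i j => ∑ p, ∑ q, d p q * G p q i j) := by
  simp only [ps, Finset.mul_sum]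
  rw [sum22_comm]
  refine Finset.sum_congr rfl fun i _ => Finset.sum_congr rfl fun j _ =>
    Finset.sum_congr rfl fun p _ => Finset.sum_congr rfl fun q _ => ?_
  ring

variable {U : Type*} [AddCommGroup U] [Module ℝ U]

omit [Fintype S] in
theorem mix_ps (T : κ → κ → κ → U →ₗ[ℝ] U →ₗ[ℝ] ℝ) (θ : κ → U) (N : S → κ → ℝ) (a b : κ → ℝ)
    (r s : S) (D : U) : mix T a b (N r) (comb θ (N s)) D =
      ps N r s (fun i j => ∑ k, ∑ l, (a k * b l) * T k l i (θ j) D) := by
  rw [mix_comb_apply, sum22_comm]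
  simp only [ps, Finset.mul_sum]
  refine Finset.sum_congr rfl fun i _ => Finset.sum_congr rfl fun j _ =>
    Finset.sum_congr rfl fun p _ => Finset.sum_congr rfl fun q _ => ?_
  ring

omit [Fintype S] in
theorem mix_ps2 (T : κ → κ → κ → U →ₗ[ℝ] U →ₗ[ℝ] ℝ) (θ : κ → U) (N : S → κ → ℝ) (a : κ → ℝ)
    (r s p q : S) : mix T a (N r) (N s) (comb θ (N p)) (comb θ (N q)) =
      ps N r s (fun i j => ps N p q (fun k l => ∑ m, a m * T m i j (θ k) (θ l))) := by
  rw [mix_comb_comb, sum14_comm]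
  simp only [ps, Finset.mul_sum]
  refine Finset.sum_congr rfl fun i _ => Finset.sum_congr rfl fun j _ =>
    Finset.sum_congr rfl fun k _ => Finset.sum_congr rfl fun l _ =>
    Finset.sum_congr rfl fun m _ => ?_
  ring

end

theorem cE_six : ∀ r s : Fin 7, r = 6 ∨ s = 6 → cE r s = 0 := by
  intro r s h
  rcases h with rfl | rfl
  · fin_cases s <;> rfl
  · fin_cases r <;> rfl

theorem wE_ge (s : Fin 7) : 1 / 20 ≤ wE s := by
  fin_cases s <;> simp [wE] <;> norm_num

theorem wE_le (s : Fin 7) : wE s ≤ 1 := by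
  fin_cases s <;> simp [wE] <;> norm_num

section

variable {ι : Type} [Fintype ι]

/-- the coefficients of `Φ` spread over the functions -/
noncomputable def cN (N : Fin 7 → Option ι → ℝ) (i j : ι) : ℝ :=
  ∑ r, ∑ s, cE r s * (N r (some i) * N s (some j))

theorem trans_pair {N : Fin 7 → Option ι → ℝ} (hN : ∀ s, s ≠ 6 → N s none = 0)
    (G : Option ι → Option ι → ℝ) :
    ∑ i, ∑ j, cN N i j * G (some i) (some j) = ∑ r, ∑ s, cE r s * ps N r s G := by
  have h1 : ∀ r s, cE r s * ps N r s G =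
      cE r s * ∑ i : ι, ∑ j : ι, (N r (some i) * N s (some j)) * G (some i) (some j) := by
    intro r s
    by_cases h : r = 6 ∨ s = 6
    · rw [cE_six r s h, zero_mul, zero_mul]
    · push Not at h
      congr 1
      unfold ps
      rw [Fintype.sum_option]
      simp only [Fintype.sum_option, hN r h.1, hN s h.2, zero_mul, mul_zero,
        Finset.sum_const_zero, zero_add]
  simp only [h1, cN, Finset.sum_mul, Finset.mul_sum]
  rw [sum22_comm]
  refine Finset.sum_congr rfl fun r _ => Finset.sum_congr rfl fun s _ =>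
    Finset.sum_congr rfl fun i _ => Finset.sum_congr rfl fun j _ => ?_
  ring

variable {U V : Type*} [AddCommGroup U] [Module ℝ U] [AddCommGroup V] [Module ℝ V]

theorem hr2a_eq (T : Option ι → Option ι → Option ι → U →ₗ[ℝ] U →ₗ[ℝ] ℝ) (θ : Option ι → U)
    {N : Fin 7 → Option ι → ℝ} (hN : ∀ s, s ≠ 6 → N s none = 0) (c₀ : ℝ) (P : V →ₗ[ℝ] U)
    (th : Fin 7 → V) (hth : ∀ s, P (th s) = comb θ (N s)) (D : V) (w : Fin 7 → ℝ) :
    ∑ k, ∑ l, ∑ r, ∑ s, (w k * w l * cE r s) * pb c₀ T N P k l r (th s) D =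
      c₀ * ∑ k, ∑ l, ∑ i, ∑ j, (cw N w k * cw N w l * cN N i j) *
        T k l (some i) (θ (some j)) (P D) := by
  have h1 : ∀ r s, ∑ k, ∑ l, (w k * w l * cE r s) * pb c₀ T N P k l r (th s) D =
      c₀ * (cE r s * mix T (cw N w) (cw N w) (N r) (comb θ (N s)) (P D)) := by
    intro r s
    rw [mix_cw1]
    simp only [mix_cw2, pb_apply, hth, LinearMap.sum_apply, LinearMap.smul_apply, smul_eq_mul,
      Finset.mul_sum]
    refine Finset.sum_congr rfl fun k _ => Finset.sum_congr rfl fun l _ => ?_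
    ring
  rw [sum22_comm]
  simp only [h1, mix_ps]
  rw [sum22_comm (fun k l i j => (cw N w k * cw N w l * cN N i j) *
        T k l (some i) (θ (some j)) (P D))]
  have h2 : ∑ i, ∑ j, ∑ k, ∑ l, (cw N w k * cw N w l * cN N i j) *
        T k l (some i) (θ (some j)) (P D) = ∑ i, ∑ j, cN N i j *
        (fun i j => ∑ k, ∑ l, (cw N w k * cw N w l) * T k l i (θ j) (P D)) (some i) (some j) := by
    refine Finset.sum_congr rfl fun i _ => Finset.sum_congr rfl fun j _ => ?_
    simp only [Finset.mul_sum]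
    refine Finset.sum_congr rfl fun k _ => Finset.sum_congr rfl fun l _ => ?_
    ring
  have h4 := trans_pair hN (fun i j => ∑ k, ∑ l, (cw N w k * cw N w l) * T k l i (θ j) (P D))
  refine Eq.trans ?_ (congrArg (fun z => c₀ * z) (h2.trans h4).symm)
  simp only [Finset.mul_sum]

theorem hr2b_eq (T : Option ι → Option ι → Option ι → U →ₗ[ℝ] U →ₗ[ℝ] ℝ) (θ : Option ι → U)
    {N : Fin 7 → Option ι → ℝ} (hN : ∀ s, s ≠ 6 → N s none = 0) (c₀ : ℝ) (P : V →ₗ[ℝ] U)
    (th : Fin 7 → V) (hth : ∀ s, P (th s) = comb θ (N s)) (w : Fin 7 → ℝ) :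
    ∑ m, ∑ r, ∑ s, ∑ p, ∑ q, (w m * cE r s * cE p q) * pb c₀ T N P m r s (th p) (th q) =
      c₀ * ∑ m, ∑ i, ∑ j, ∑ k, ∑ l, (cw N w m * cN N i j * cN N k l) *
        T m (some i) (some j) (θ (some k)) (θ (some l)) := by
  have h1 : ∀ r s p q, ∑ m, (w m * cE r s * cE p q) * pb c₀ T N P m r s (th p) (th q) =
      c₀ * (cE r s * (cE p q * mix T (cw N w) (N r) (N s) (comb θ (N p)) (comb θ (N q)))) := by
    intro r s p q
    rw [mix_cw1]
    simp only [pb_apply, hth, LinearMap.sum_apply, LinearMap.smul_apply, smul_eq_mul,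
      Finset.mul_sum]
    refine Finset.sum_congr rfl fun m _ => ?_
    ring
  rw [sum14_comm]
  simp only [h1, mix_ps2, ← Finset.mul_sum, ps_sum]
  congr 1
  have h3 : ∀ i j : Option ι, ∑ p, ∑ q, cE p q * ps N p q (fun k l =>
      ∑ m, cw N w m * T m i j (θ k) (θ l)) = ∑ k : ι, ∑ l : ι, cN N k l *
      ∑ m, cw N w m * T m i j (θ (some k)) (θ (some l)) := fun i j =>
    (trans_pair hN (fun k l => ∑ m, cw N w m * T m i j (θ k) (θ l))).symm
  simp only [h3]
  rw [← trans_pair hN, sum14_comm]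
  refine Finset.sum_congr rfl fun i _ => Finset.sum_congr rfl fun j _ => ?_
  simp only [Finset.mul_sum]
  refine Finset.sum_congr rfl fun k _ => Finset.sum_congr rfl fun l _ =>
    Finset.sum_congr rfl fun m _ => ?_
  ring

end

end EH
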