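import Pool.Agent.Work.MP_9eee85_co.EH.DX5
import Pool.Agent.Work.MP_9eee85_co.EH.DegCoeff

/-!
The assembly of the algebraic half: the analytic theorem `QKPTheorem` and the modules of the
algebraic half give the disproof.
-/

namespace EH

open EurHuh

theorem main_alg (hQ : QKPTheorem) (hLC : LimContra) (hLE : LimExists) (hDZ : DegZero)
    (hS : SemiampleData.{0, 0} ℂ) :
    ¬ IsLimitSemiample ℂ (basisPoly (Matroid.freeOn Set.univ) exM' exφ) := by
  intro h
  obtain ⟨C, hC⟩ := hQ
  refine hLC (hLE C ?_).some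
  intro M η hM hη
  obtain ⟨F, _, _, f, κ, hF, hκ, hnum⟩ :=
    DX.dataExists hS (fun F _ _ => degCoeff ℂ F) h M η hM hη
  refine ⟨_, κ, hκ, hC F hF (Fin 5 ⊕ Fin M) f, ?_, ?_⟩
  · intro t ht
    have h1 := hDZ F hF (fun j => f (t j)) (fun hi => ht (fun i j hij => hi (by
      simp only [hij])))
    exact_mod_cast h1
  · exact hnum

end EH
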