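import Mathlib

/-!
A locally integrable function with vanishing weak derivative is locally almost everywhere constant.
-/

namespace EH

open MeasureTheory Filter Topology Set Metric
open scoped ContDiff Convolution

section

variable {V : Type*} [NormedAddCommGroup V] [InnerProductSpace ℝ V] [FiniteDimensional ℝ V]
  [MeasurableSpace V] [BorelSpace V] (μ : Measure V) [μ.IsAddHaarMeasure]

/-- A function on a ball with zero weak derivative is constant on the half ball. -/
theorem ae_const_ball {x0 : V} {r : ℝ} (hr : 0 < r) {c : V → ℝ}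
    (hc : IntegrableOn c (ball x0 r) μ)
    (h : ∀ φ : V → ℝ, ContDiff ℝ ∞ φ → HasCompactSupport φ → tsupport φ ⊆ ball x0 r → ∀ v,
      ∫ x in ball x0 r, c x * fderiv ℝ φ x v ∂μ = 0) :
    ∃ k, ∀ᵐ x ∂(μ.restrict (ball x0 (r / 2))), c x = k := by
  set g : V → ℝ := (ball x0 r).indicator c with hg
  have hgi : Integrable g μ := hc.integrable_indicator measurableSet_ball
  have hgl : LocallyIntegrable g μ := hgi.locallyIntegrable
  -- bumps
  let b : ℕ → ContDiffBump (0 : V) := fun i =>
    { rIn := r / (4 * (i + 1))
      rOut := r / (2 * (i + 1))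
      rIn_pos := by positivity
      rIn_lt_rOut := by
        apply div_lt_div_of_pos_left hr (by positivity)
        have : (0 : ℝ) ≤ i := Nat.cast_nonneg i
        linarith }
  have hbo : ∀ i, (b i).rOut = r / (2 * (i + 1)) := fun i => rfl
  have hbi : ∀ i, (b i).rIn = r / (4 * (i + 1)) := fun i => rfl
  have hble : ∀ i, (b i).rOut ≤ r / 2 := by
    intro i
    rw [hbo]
    apply div_le_div_of_nonneg_left hr.le (by norm_num)
    have : (0 : ℝ) ≤ i := Nat.cast_nonneg i
    linarith
  have hlim : Tendsto (fun i => (b i).rOut) atTop (𝓝 0) := by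
    have h1 : Tendsto (fun i : ℕ => (r / 2) * (1 / ((i : ℝ) + 1))) atTop (𝓝 ((r / 2) * 0)) :=
      tendsto_one_div_add_atTop_nhds_zero_nat.const_mul _
    rw [mul_zero] at h1
    refine h1.congr fun i => ?_
    rw [hbo]
    field_simp
  have hK : ∀ᶠ i in atTop, (b i).rOut ≤ 2 * (b i).rIn := by
    refine Eventually.of_forall fun i => le_of_eq ?_
    rw [hbo, hbi]
    field_simp
    norm_num
  have hae := ContDiffBump.ae_convolution_tendsto_right_of_locallyIntegrable (μ := μ) hlim hK hgl
  set F : ℕ → V → ℝ := fun i => (b i).normed μ ⋆[ContinuousLinearMap.lsmul ℝ ℝ, μ] g with hF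
  -- `F i` has zero derivative on the half ball
  have hder : ∀ i, ∀ x ∈ ball x0 (r / 2), HasFDerivAt (F i) (0 : V →L[ℝ] ℝ) x := by
    intro i x hx
    have hN : ContDiff ℝ ∞ ((b i).normed μ) := (b i).contDiff_normed
    have hNc : HasCompactSupport ((b i).normed μ) := (b i).hasCompactSupport_normed
    have h1 := hNc.hasFDerivAt_convolution_left (ContinuousLinearMap.lsmul ℝ ℝ)
      (hN.of_le (by exact_mod_cast le_top)) hgl x
    have h0 : (fderiv ℝ ((b i).normed μ) ⋆[(ContinuousLinearMap.lsmul ℝ ℝ).precompL V, μ] g) x =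
        0 := ?_
    · rw [h0] at h1
      exact h1
    refine ContinuousLinearMap.ext fun v => ?_
    have h2 : ((fderiv ℝ ((b i).normed μ) ⋆[(ContinuousLinearMap.lsmul ℝ ℝ).precompL V, μ] g) x) v =
        ∫ t, fderiv ℝ ((b i).normed μ) t v * g (x - t) ∂μ := by
      rw [convolution_def]
      rw [ContinuousLinearMap.integral_apply]
      · rfl
      · exact (hNc.fderiv ℝ).convolutionExists_left _
          (hN.continuous_fderiv (by simp)) hgl x
    rw [h2]
    set ψ : V → ℝ := fun y => (b i).normed μ (x - y) with hψ
    have hψd : ContDiff ℝ ∞ ψ := hN.comp (contDiff_const.sub contDiff_id)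
    have hsub : tsupport ψ ⊆ closedBall x (b i).rOut := by
      apply closure_minimal _ isClosed_closedBall
      intro y hy
      have : x - y ∈ Function.support ((b i).normed μ) := hy
      rw [(b i).support_normed_eq] at this
      rw [mem_ball_zero_iff] at this
      rw [mem_closedBall, dist_comm, dist_eq_norm]
      exact this.le
    have hψs : tsupport ψ ⊆ ball x0 r := by
      refine hsub.trans fun y hy => ?_
      rw [mem_closedBall] at hy
      rw [mem_ball] at hx ⊢
      calc dist y x0 ≤ dist y x + dist x x0 := dist_triangle _ _ _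
        _ < r / 2 + r / 2 := by linarith [hble i]
        _ = r := by ring
    have hψc : HasCompactSupport ψ := IsCompact.of_isClosed_subset (isCompact_closedBall x _)
      (isClosed_tsupport _) hsub
    have h3 := h ψ hψd hψc hψs v
    have h4 : ∀ y, fderiv ℝ ψ y v = - fderiv ℝ ((b i).normed μ) (x - y) v := by
      intro y
      have h5 : HasFDerivAt (fun y => x - y) (-(ContinuousLinearMap.id ℝ V)) y := by
        have h9 := (hasFDerivAt_id (𝕜 := ℝ) y).const_sub x
        exact h9
      have h6 : HasFDerivAt ψ ((fderiv ℝ ((b i).normed μ) (x - y)).comp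
          (-(ContinuousLinearMap.id ℝ V))) y :=
        ((hN.differentiable (by simp)) (x - y)).hasFDerivAt.comp y h5
      rw [h6.fderiv]
      simp
    have h7 : ∫ t, fderiv ℝ ((b i).normed μ) t v * g (x - t) ∂μ =
        ∫ y, fderiv ℝ ((b i).normed μ) (x - y) v * g y ∂μ := by
      rw [← integral_sub_left_eq_self (fun t => fderiv ℝ ((b i).normed μ) t v * g (x - t)) μ x]
      simp
    rw [h7]
    have h8 : (fun y => fderiv ℝ ((b i).normed μ) (x - y) v * g y) =
        (ball x0 r).indicator (fun y => -(c y * fderiv ℝ ψ y v)) := by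
      funext y
      rw [hg]
      by_cases hy : y ∈ ball x0 r
      · rw [indicator_of_mem hy, indicator_of_mem hy, h4]
        ring
      · rw [indicator_of_notMem hy, indicator_of_notMem hy, mul_zero]
    rw [h8, integral_indicator measurableSet_ball, integral_neg, h3]
    simp
  have hconst : ∀ i, ∀ x ∈ ball x0 (r / 2), F i x = F i x0 := by
    intro i x hx
    have hx0 : x0 ∈ ball x0 (r / 2) := mem_ball_self (by positivity)
    refine (isOpen_ball).is_const_of_fderiv_eq_zero (𝕜 := ℝ) (convex_ball x0 (r / 2)).isPreconnected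
      (fun y hy => (hder i y hy).differentiableAt.differentiableWithinAt)
      (fun y hy => (hder i y hy).fderiv) hx hx0
  -- the limit
  by_cases hex : ∃ y, y ∈ ball x0 (r / 2) ∧ Tendsto (fun i => F i y) atTop (𝓝 (g y))
  · obtain ⟨y, hy, hty⟩ := hex
    refine ⟨g y, ?_⟩
    rw [ae_restrict_iff' measurableSet_ball]
    filter_upwards [hae] with x hx hxb
    have hx' : Tendsto (fun i => F i x) atTop (𝓝 (g x)) := hx
    have e1 : (fun i => F i x) = fun i => F i y := by
      funext i
      rw [hconst i x hxb, hconst i y hy]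
    rw [e1] at hx'
    have h1 := tendsto_nhds_unique hx' hty
    rw [← h1, hg, indicator_of_mem]
    exact ball_subset_ball (by linarith) hxb
  · push Not at hex
    refine ⟨0, ?_⟩
    rw [ae_restrict_iff' measurableSet_ball]
    filter_upwards [hae] with x hx hxb
    exact absurd hx (hex x hxb)

end

end EH
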