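import Mathlib

/-!
# The affine model `X` of a function field (EH cell, MP_9eee85_co): basics

`D : XData n` is a monic irreducible polynomial `P` over `ℂ[z_1..z_n]` with a non-zero `h` such that
`P(z, ·)` is separable when `h z ≠ 0`.  `D.XSet ⊆ ℂⁿ × ℂ` is the set `h z ≠ 0`, `P(z, y) = 0`.

* `XData.exists_section` : holomorphic local sections.
* `XData.isLocalHomeomorph_proj`.
* `XData.exists_cover` : evenly covered neighbourhoods with holomorphic sections.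
-/

open Topology Filter ContDiff

namespace EHX

/-- Data of an affine model. -/
structure XData (n : ℕ) where
  P : Polynomial (MvPolynomial (Fin n) ℂ)
  h : MvPolynomial (Fin n) ℂ
  monic : P.Monic
  irr : Irreducible P
  h0 : h ≠ 0
  sep : ∀ z : Fin n → ℂ, MvPolynomial.eval z h ≠ 0 → (P.map (MvPolynomial.eval z)).Separable

variable {n : ℕ}

namespace XData

variable (D : XData n)

/-- The polynomial `P` at the point `z`. -/
noncomputable def at_ (z : Fin n → ℂ) : Polynomial ℂ := D.P.map (MvPolynomial.eval z)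

/-- The open set `h ≠ 0`. -/
def U : Set (Fin n → ℂ) := {z | MvPolynomial.eval z D.h ≠ 0}

/-- The points of the model. -/
def XSet : Set ((Fin n → ℂ) × ℂ) := {x | x.1 ∈ D.U ∧ (D.at_ x.1).eval x.2 = 0}

/-- The model as a type. -/
abbrev X : Type := {x : (Fin n → ℂ) × ℂ // x ∈ D.XSet}

/-- The projection to the base. -/
def proj (x : D.X) : Fin n → ℂ := x.1.1

/-- The fibre coordinate. -/
def yc (x : D.X) : ℂ := x.1.2

theorem continuous_proj : Continuous D.proj := continuous_fst.comp continuous_subtype_val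
theorem continuous_yc : Continuous D.yc := continuous_snd.comp continuous_subtype_val

theorem at_monic (z : Fin n → ℂ) : (D.at_ z).Monic := D.monic.map _

theorem at_ne_zero (z : Fin n → ℂ) : D.at_ z ≠ 0 := (D.at_monic z).ne_zero

theorem at_natDegree (z : Fin n → ℂ) : (D.at_ z).natDegree = D.P.natDegree := D.monic.natDegree_map _

theorem at_sep {z : Fin n → ℂ} (hz : z ∈ D.U) : (D.at_ z).Separable := D.sep z hz

theorem isOpen_U : IsOpen D.U :=
  isOpen_ne_fun (MvPolynomial.continuous_eval D.h) continuous_const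

/-- The defining function. -/
noncomputable def G (v : (Fin n → ℂ) × ℂ) : ℂ := (D.at_ v.1).eval v.2

theorem contDiff_evalMv (p : MvPolynomial (Fin n) ℂ) :
    ContDiff ℂ ω (fun z : Fin n → ℂ => MvPolynomial.eval z p) := by
  have := AnalyticOnNhd.eval_mvPolynomial (𝕜 := ℂ) p
  exact contDiffOn_univ.mp (this.contDiffOn uniqueDiffOn_univ)

theorem contDiff_G : ContDiff ℂ ω D.G := by
  have : D.G = fun v => ∑ i ∈ Finset.range (D.P.natDegree + 1),
      MvPolynomial.eval v.1 (D.P.coeff i) * v.2 ^ i := by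
    funext v
    rw [G, at_, Polynomial.eval_map, Polynomial.eval₂_eq_sum_range]
  rw [this]
  apply ContDiff.sum
  intro i _
  exact ((contDiff_evalMv _).comp contDiff_fst).mul (contDiff_snd.pow i)

theorem hasDerivAt_G (z : Fin n → ℂ) (y : ℂ) :
    HasDerivAt (fun t => D.G (z, t)) ((D.at_ z).derivative.eval y) y :=
  (D.at_ z).hasDerivAt y

theorem fderiv_G_inr (u : (Fin n → ℂ) × ℂ) :
    (fderiv ℂ D.G u ∘L .inr ℂ (Fin n → ℂ) ℂ) 1 = (D.at_ u.1).derivative.eval u.2 := by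
  have hd : HasFDerivAt D.G (fderiv ℂ D.G u) u :=
    (D.contDiff_G.differentiable (by simp) u).hasFDerivAt
  have h2 : HasFDerivAt (fun t : ℂ => (u.1, t)) (ContinuousLinearMap.inr ℂ (Fin n → ℂ) ℂ) u.2 := by
    have := hasFDerivAt_prodMk_right (𝕜 := ℂ) u.1 u.2
    exact this
  have h3 : HasFDerivAt (fun t : ℂ => D.G (u.1, t))
      (fderiv ℂ D.G u ∘L .inr ℂ (Fin n → ℂ) ℂ) u.2 := 
    HasFDerivAt.comp (g := D.G) (f := fun t : ℂ => (u.1, t)) u.2 hd h2
  exact h3.hasDerivAt.unique (D.hasDerivAt_G u.1 u.2)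

theorem deriv_ne_zero {u : (Fin n → ℂ) × ℂ} (hu : u ∈ D.XSet) :
    (D.at_ u.1).derivative.eval u.2 ≠ 0 := by
  intro h0
  have hs := D.at_sep hu.1
  obtain ⟨a, b, hab⟩ := hs
  have := congrArg (Polynomial.eval u.2) hab
  simp [hu.2, h0] at this

theorem isInvertible {u : (Fin n → ℂ) × ℂ} (hu : u ∈ D.XSet) :
    (fderiv ℂ D.G u ∘L .inr ℂ (Fin n → ℂ) ℂ).IsInvertible := by
  set A := (fderiv ℂ D.G u ∘L .inr ℂ (Fin n → ℂ) ℂ) with hA
  have h1 : A 1 ≠ 0 := by rw [hA, D.fderiv_G_inr]; exact D.deriv_ne_zero hu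
  refine ⟨ContinuousLinearEquiv.unitsEquivAut ℂ (Units.mk0 (A 1) h1), ?_⟩
  ext
  simp

/-- Holomorphic local sections. -/
theorem exists_section {u : (Fin n → ℂ) × ℂ} (hu : u ∈ D.XSet) :
    ∃ ψ : (Fin n → ℂ) → ℂ, ContDiffAt ℂ ω ψ u.1 ∧ ψ u.1 = u.2 ∧
      (∀ᶠ v in 𝓝 u, v ∈ D.XSet ↔ ψ v.1 = v.2) ∧ (∀ᶠ z in 𝓝 u.1, (z, ψ z) ∈ D.XSet) := by
  have hc : ContDiffAt ℂ ω D.G u := D.contDiff_G.contDiffAt
  have hG : D.G u = 0 := hu.2
  set ψ := hc.implicitFunction (by simp) (D.isInvertible hu) with hψ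
  have hU : ∀ᶠ z in 𝓝 u.1, z ∈ D.U := D.isOpen_U.mem_nhds hu.1
  refine ⟨ψ, hc.contDiffAt_implicitFunction _ _, hc.implicitFunction_apply_self _ _, ?_, ?_⟩
  · have h1 := hc.eventually_apply_eq_iff_implicitFunction (by simp) (D.isInvertible hu)
    have h2 : ∀ᶠ v in 𝓝 u, v.1 ∈ D.U := continuous_fst.continuousAt.eventually hU
    filter_upwards [h1, h2] with v hv hvU
    rw [← hψ] at hv
    rw [← hv, hG]
    exact ⟨fun h => h.2, fun h => ⟨hvU, h⟩⟩
  · have h1 := hc.eventually_apply_implicitFunction (by simp) (D.isInvertible hu)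
    filter_upwards [h1, hU] with z hz hzU
    exact ⟨hzU, by rw [← hψ, hG] at hz; exact hz⟩

/-- Holomorphic local sections, with open sets. -/
theorem exists_section' {u : (Fin n → ℂ) × ℂ} (hu : u ∈ D.XSet) :
    ∃ (ψ : (Fin n → ℂ) → ℂ) (W : Set ((Fin n → ℂ) × ℂ)) (V : Set (Fin n → ℂ)),
      IsOpen W ∧ IsOpen V ∧ u ∈ W ∧ u.1 ∈ V ∧ V ⊆ D.U ∧ ψ u.1 = u.2 ∧
      (∀ z ∈ V, ContDiffAt ℂ ω ψ z) ∧ (∀ z ∈ V, (z, ψ z) ∈ D.XSet ∧ (z, ψ z) ∈ W) ∧
      (∀ v ∈ W, v.1 ∈ V ∧ (v ∈ D.XSet → v.2 = ψ v.1)) := by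
  obtain ⟨ψ, hc, h0, h1, h2⟩ := D.exists_section hu
  obtain ⟨W, hW, hWo, hWu⟩ := eventually_nhds_iff.mp h1
  have hcont : ContinuousAt (fun z => (z, ψ z)) u.1 := continuousAt_id.prodMk hc.continuousAt
  have h3 : ∀ᶠ z in 𝓝 u.1, (z, ψ z) ∈ W := by
    apply hcont.eventually
    show W ∈ 𝓝 (u.1, ψ u.1)
    rw [h0]
    exact hWo.mem_nhds hWu
  have h4 : ∀ᶠ z in 𝓝 u.1, ContDiffAt ℂ ω ψ z := hc.eventually (by simp)
  have hU : ∀ᶠ z in 𝓝 u.1, z ∈ D.U := D.isOpen_U.mem_nhds hu.1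
  obtain ⟨V, hV, hVo, hVu⟩ := eventually_nhds_iff.mp (h2.and (h3.and (h4.and hU)))
  refine ⟨ψ, W ∩ Prod.fst ⁻¹' V, V, hWo.inter (hVo.preimage continuous_fst), hVo, ⟨hWu, hVu⟩, hVu,
    fun z hz => (hV z hz).2.2.2, h0, fun z hz => (hV z hz).2.2.1,
    fun z hz => ⟨(hV z hz).1, (hV z hz).2.1, hz⟩, ?_⟩
  rintro v ⟨hv1, hv2⟩
  exact ⟨hv2, fun hv => ((hW v hv1).mp hv).symm⟩

theorem isLocalHomeomorph_proj : IsLocalHomeomorph D.proj := by
  classical
  refine IsLocalHomeomorph.mk D.proj ?_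
  intro x
  obtain ⟨ψ, W, V, hWo, hVo, hW, hV, hVU, h0, h1, h2, h3⟩ := D.exists_section' x.2
  let inv : (Fin n → ℂ) → D.X := fun z => if hz : z ∈ V then ⟨(z, ψ z), (h2 z hz).1⟩ else x
  have hinv : ∀ z (hz : z ∈ V), inv z = ⟨(z, ψ z), (h2 z hz).1⟩ := fun z hz => dif_pos hz
  refine ⟨{
    toFun := D.proj
    invFun := inv
    source := {x' | x'.1 ∈ W}
    target := V
    map_source' := fun x' hx' => (h3 _ hx').1
    map_target' := fun z hz => by
      rw [hinv z hz]; exact (h2 z hz).2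
    left_inv' := fun x' hx' => by
      have h := h3 _ hx'
      refine (hinv (D.proj x') h.1).trans ?_
      exact Subtype.ext (Prod.ext rfl (h.2 x'.2).symm)
    right_inv' := fun z hz => by
      rw [hinv z hz]; rfl
    open_source := hWo.preimage continuous_subtype_val
    open_target := hVo
    continuousOn_toFun := D.continuous_proj.continuousOn
    continuousOn_invFun := by
      rw [continuousOn_iff_continuous_domRestrict]
      have hc : Continuous (fun z : V => (⟨(z.1, ψ z.1), (h2 z.1 z.2).1⟩ : D.X)) := by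
        refine Continuous.subtype_mk ?_ _
        exact continuous_subtype_val.prodMk (continuousOn_iff_continuous_domRestrict.mp
          fun z hz => (h1 z hz).continuousAt.continuousWithinAt)
      exact hc.congr fun z => (hinv z.1 z.2).symm
   }, hW, fun _ _ => rfl⟩

/-- The fibre coordinates over `z`. -/
noncomputable def fib (z : Fin n → ℂ) : Finset ℂ := (D.at_ z).roots.toFinset

theorem mem_fib {z : Fin n → ℂ} {y : ℂ} : y ∈ D.fib z ↔ (D.at_ z).eval y = 0 := by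
  rw [fib, Multiset.mem_toFinset, Polynomial.mem_roots (D.at_ne_zero z), Polynomial.IsRoot.def]

theorem mem_XSet_iff {z : Fin n → ℂ} {y : ℂ} : (z, y) ∈ D.XSet ↔ z ∈ D.U ∧ y ∈ D.fib z := by
  rw [mem_fib]; rfl

theorem card_fib {z : Fin n → ℂ} (hz : z ∈ D.U) : (D.fib z).card = D.P.natDegree := by
  have h1 : (D.at_ z).roots.Nodup := Polynomial.nodup_roots (D.at_sep hz)
  rw [fib, Multiset.toFinset_card_of_nodup h1, ← D.at_natDegree z]
  exact IsAlgClosed.card_roots_eq_natDegree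

theorem at_eq_prod {z : Fin n → ℂ} (hz : z ∈ D.U) :
    D.at_ z = ∏ y ∈ D.fib z, (Polynomial.X - Polynomial.C y) := by
  have h1 : (D.at_ z).roots.Nodup := Polynomial.nodup_roots (D.at_sep hz)
  have h2 := (IsAlgClosed.splits (D.at_ z)).eq_prod_roots_of_monic (D.at_monic z)
  rw [Finset.prod, fib, Multiset.toFinset_val, Multiset.dedup_eq_self.mpr h1]
  exact h2

/-- Evenly covered neighbourhoods with holomorphic sections. -/
theorem exists_cover {z₀ : Fin n → ℂ} (hz₀ : z₀ ∈ D.U) :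
    ∃ (V : Set (Fin n → ℂ)) (σ : ℂ → (Fin n → ℂ) → ℂ), IsOpen V ∧ z₀ ∈ V ∧ V ⊆ D.U ∧
      (∀ y ∈ D.fib z₀, (∀ z ∈ V, ContDiffAt ℂ ω (σ y) z) ∧ σ y z₀ = y) ∧
      (∀ z ∈ V, Set.InjOn (fun y => σ y z) (D.fib z₀)) ∧
      (∀ z ∈ V, D.fib z = (D.fib z₀).image (fun y => σ y z)) := by
  classical
  have hex : ∀ y ∈ D.fib z₀, ∃ ψ : (Fin n → ℂ) → ℂ, ContDiffAt ℂ ω ψ z₀ ∧ ψ z₀ = y ∧
      (∀ᶠ z in 𝓝 z₀, (z, ψ z) ∈ D.XSet) := by
    intro y hy
    obtain ⟨ψ, hc, h0, _, h2⟩ := D.exists_section (D.mem_XSet_iff.mpr ⟨hz₀, hy⟩)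
    exact ⟨ψ, hc, h0, h2⟩
  choose! σ hσ using hex
  have e1 : ∀ᶠ z in 𝓝 z₀, ∀ y ∈ D.fib z₀, ContDiffAt ℂ ω (σ y) z ∧ (z, σ y z) ∈ D.XSet := by
    rw [Filter.eventually_all_finset]
    intro y hy
    exact ((hσ y hy).1.eventually (by simp)).and (hσ y hy).2.2
  have e2 : ∀ᶠ z in 𝓝 z₀, ∀ y ∈ D.fib z₀, ∀ y' ∈ D.fib z₀, y ≠ y' → σ y z ≠ σ y' z := by
    rw [Filter.eventually_all_finset]
    intro y hy
    rw [Filter.eventually_all_finset]
    intro y' hy'
    by_cases hyy : y = y'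
    · exact Filter.Eventually.of_forall fun z h => absurd hyy h
    · have h1 := (hσ y hy).1.continuousAt
      have h2 := (hσ y' hy').1.continuousAt
      have h3 : σ y z₀ ≠ σ y' z₀ := by rw [(hσ y hy).2.1, (hσ y' hy').2.1]; exact hyy
      filter_upwards [(h1.ne_iff_eventually_ne h2).mp h3] with z hz _ using hz
  have hU : ∀ᶠ z in 𝓝 z₀, z ∈ D.U := D.isOpen_U.mem_nhds hz₀
  obtain ⟨V, hV, hVo, hVu⟩ := eventually_nhds_iff.mp (e1.and (e2.and hU))
  refine ⟨V, σ, hVo, hVu, fun z hz => (hV z hz).2.2, ?_, ?_, ?_⟩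
  · intro y hy
    exact ⟨fun z hz => ((hV z hz).1 y hy).1, (hσ y hy).2.1⟩
  · intro z hz y hy y' hy' hyy
    by_contra hne
    exact (hV z hz).2.1 y hy y' hy' hne hyy
  · intro z hz
    symm
    apply Finset.eq_of_subset_of_card_le
    · intro t ht
      obtain ⟨y, hy, rfl⟩ := Finset.mem_image.mp ht
      exact (D.mem_XSet_iff.mp ((hV z hz).1 y hy).2).2
    · rw [D.card_fib (hV z hz).2.2, ← D.card_fib hz₀]
      rw [Finset.card_image_of_injOn]
      intro y hy y' hy' hyy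
      by_contra hne
      exact (hV z hz).2.1 y hy y' hy' hne hyy

end XData

end EHX
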