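import Mathlib

/-!
# Holomorphic functions of polynomial growth on `{h ≠ 0} ⊆ ℂⁿ` are polynomials
(EH cell, MP_9eee85_co)
-/

open Topology Filter

namespace EHX

/-- Removable singularities at a finite set. -/
theorem exists_entire_of_finite (S : Finset ℂ) : ∀ (f : ℂ → ℂ),
    (∀ t ∉ S, DifferentiableAt ℂ f t) → (∀ t ∈ S, ∃ B : ℝ, ∀ᶠ s in 𝓝[≠] t, ‖f s‖ ≤ B) →
    ∃ F : ℂ → ℂ, Differentiable ℂ F ∧ ∀ t ∉ S, F t = f t := by
  classical
  induction S using Finset.induction_on with
  | empty => intro f hd _; exact ⟨f, fun t => hd t (by simp), fun _ _ => rfl⟩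
  | insert r S hr ih =>
    intro f hd hb
    set F1 := Function.update f r (limUnder (𝓝[≠] r) f) with hF1
    have hne : ∀ t, t ≠ r → F1 =ᶠ[𝓝 t] f := by
      intro t ht
      filter_upwards [isOpen_ne.mem_nhds ht] with s hs
      rw [hF1, Function.update_of_ne hs]
    have hrd : DifferentiableAt ℂ F1 r := by
      obtain ⟨B, hB⟩ := hb r (Finset.mem_insert_self _ _)
      have hS : ∀ᶠ s in 𝓝 r, s ∉ S := (S.finite_toSet.isClosed.isOpen_compl).mem_nhds hr
      rw [eventually_nhdsWithin_iff] at hB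
      have hs : {s | s ∉ S ∧ (s ≠ r → ‖f s‖ ≤ B)} ∈ 𝓝 r := by
        filter_upwards [hS, hB] with s h1 h2 using ⟨h1, h2⟩
      have h1 : DifferentiableOn ℂ f ({s | s ∉ S ∧ (s ≠ r → ‖f s‖ ≤ B)} \ {r}) := by
        intro s hs'
        refine (hd s ?_).differentiableWithinAt
        rw [Finset.mem_insert, not_or]
        exact ⟨hs'.2, hs'.1.1⟩
      have h2 : BddAbove (norm ∘ f '' ({s | s ∉ S ∧ (s ≠ r → ‖f s‖ ≤ B)} \ {r})) := by
        refine ⟨B, ?_⟩
        rintro _ ⟨s, hs', rfl⟩
        exact hs'.1.2 hs'.2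
      exact (Complex.differentiableOn_update_limUnder_of_bddAbove hs h1 h2).differentiableAt hs
    have g1 : ∀ t ∉ S, DifferentiableAt ℂ F1 t := by
      intro t ht
      by_cases htr : t = r
      · rw [htr]; exact hrd
      · exact (hd t (by simp [htr, ht])).congr_of_eventuallyEq (hne t htr)
    have g2 : ∀ t ∈ S, ∃ B : ℝ, ∀ᶠ s in 𝓝[≠] t, ‖F1 s‖ ≤ B := by
      intro t ht
      have htr : t ≠ r := fun h => hr (h ▸ ht)
      obtain ⟨B, hB⟩ := hb t (Finset.mem_insert_of_mem ht)
      refine ⟨B, ?_⟩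
      filter_upwards [hB, (hne t htr).filter_mono nhdsWithin_le_nhds] with s h1 h2
      rw [h2]; exact h1
    obtain ⟨F, hF, hFe⟩ := ih F1 g1 g2
    refine ⟨F, hF, ?_⟩
    intro t ht
    rw [Finset.mem_insert, not_or] at ht
    rw [hFe t ht.2, hF1, Function.update_of_ne ht.1]

/-- Liouville for polynomial growth. -/
theorem exists_poly_of_growth {F : ℂ → ℂ} (hF : Differentiable ℂ F) {C : ℝ} {M : ℕ}
    (hb : ∀ t, ‖F t‖ ≤ C * (1 + ‖t‖) ^ M) :
    ∃ p : Polynomial ℂ, p.natDegree ≤ M ∧ ∀ t, F t = p.eval t := by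
  have hC : 0 ≤ C := by
    have := (norm_nonneg _).trans (hb 0)
    simpa using this
  have hz : ∀ k, M < k → iteratedDeriv k F 0 = 0 := by
    intro k hk
    have h1 : ∀ R : ℝ, 1 ≤ R → ‖iteratedDeriv k F 0‖ ≤ (k.factorial * C * 2 ^ M) / R := by
      intro R hR
      have hR0 : 0 < R := by linarith
      have h2 := Complex.norm_iteratedDeriv_le_of_forall_mem_sphere_norm_le (c := 0) (R := R)
        (C := C * (1 + R) ^ M) k hR0 hF.diffContOnCl (by
          intro z hz
          have : ‖z‖ = R := by simpa using hz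
          rw [← this]; exact hb z)
      refine h2.trans ?_
      have h3 : (1 + R) ^ M ≤ 2 ^ M * R ^ M := by
        rw [← mul_pow]; exact pow_le_pow_left₀ (by linarith) (by linarith) _
      rw [div_le_div_iff₀ (pow_pos hR0 _) hR0]
      have h4 : R ^ M * R ≤ R ^ k := by
        rw [← pow_succ]; exact pow_le_pow_right₀ hR hk
      have hk0 : (0:ℝ) ≤ k.factorial * C := mul_nonneg (Nat.cast_nonneg _) hC
      calc (k.factorial : ℝ) * (C * (1 + R) ^ M) * R = (k.factorial * C) * ((1 + R) ^ M * R) := by ring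
        _ ≤ (k.factorial * C) * ((2 ^ M * R ^ M) * R) := by gcongr
        _ = (k.factorial * C * 2 ^ M) * (R ^ M * R) := by ring
        _ ≤ (k.factorial * C * 2 ^ M) * R ^ k := by gcongr
    have h5 : Tendsto (fun R : ℝ => (k.factorial * C * 2 ^ M) / R) atTop (𝓝 0) :=
      tendsto_const_nhds.div_atTop tendsto_id
    have h6 : ‖iteratedDeriv k F 0‖ ≤ 0 :=
      ge_of_tendsto h5 ((eventually_ge_atTop 1).mono fun R hR => h1 R hR)
    exact norm_le_zero_iff.mp h6
  refine ⟨∑ k ∈ Finset.range (M + 1), Polynomial.C ((k.factorial : ℂ)⁻¹ * iteratedDeriv k F 0) *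
    Polynomial.X ^ k, ?_, ?_⟩
  · apply Polynomial.natDegree_sum_le_of_forall_le
    intro k hk
    exact (Polynomial.natDegree_C_mul_X_pow_le _ _).trans (by simpa [Nat.lt_succ_iff] using hk)
  · intro t
    have h7 := Complex.taylorSeries_eq_of_entire' (c := 0) (z := t) hF
    rw [← h7, tsum_eq_sum (s := Finset.range (M + 1)), Polynomial.eval_finsetSum]
    · apply Finset.sum_congr rfl
      intro k _
      simp
    · intro k hk
      rw [hz k (by simpa using hk)]; simp

theorem eval_aeval_X {n : ℕ} (z : Fin n → ℂ) (i : Fin n) (p : Polynomial ℂ) :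
    MvPolynomial.eval z (Polynomial.aeval (MvPolynomial.X i) p) = p.eval (z i) := by
  rw [Polynomial.aeval_def, Polynomial.hom_eval₂, MvPolynomial.eval_X]
  have : (MvPolynomial.eval z).comp (algebraMap ℂ (MvPolynomial (Fin n) ℂ)) = RingHom.id ℂ := by
    ext t; simp
  rw [this]; rfl

/-- A function that is separately polynomial of degree `≤ M` on a product of infinite sets is a
polynomial there. -/
theorem sep_poly (M : ℕ) : ∀ {n : ℕ} (B : Fin n → Set ℂ), (∀ j, (B j).Infinite) →
    ∀ (q : (Fin n → ℂ) → ℂ),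
    (∀ z, (∀ i, z i ∈ B i) → ∀ j, ∃ p : Polynomial ℂ, p.natDegree ≤ M ∧
      ∀ t ∈ B j, q (Function.update z j t) = p.eval t) →
    ∃ g : MvPolynomial (Fin n) ℂ, ∀ z, (∀ i, z i ∈ B i) → q z = MvPolynomial.eval z g := by
  classical
  intro n
  induction n with
  | zero =>
    intro B _ q _
    refine ⟨MvPolynomial.C (q default), fun z _ => ?_⟩
    rw [MvPolynomial.eval_C, Subsingleton.elim z default]
  | succ n ih =>
    intro B hB q hq
    obtain ⟨s, hsB, hsc⟩ := (hB 0).exists_subset_card_eq (M + 1)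
    have hg : ∀ a ∈ s, ∃ g : MvPolynomial (Fin n) ℂ, ∀ z : Fin n → ℂ, (∀ i, z i ∈ B i.succ) →
        q (Fin.cons a z) = MvPolynomial.eval z g := by
      intro a ha
      refine ih (fun i => B i.succ) (fun j => hB _) (fun z => q (Fin.cons a z)) ?_
      intro z hz j
      have hz' : ∀ i, (Fin.cons a z : Fin (n+1) → ℂ) i ∈ B i := by
        intro i
        refine Fin.cases ?_ ?_ i
        · exact hsB ha
        · intro i; exact hz i
      obtain ⟨p, hp1, hp2⟩ := hq _ hz' j.succ
      refine ⟨p, hp1, fun t ht => ?_⟩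
      rw [← hp2 t ht, Fin.cons_update]
    choose! g hg using hg
    refine ⟨∑ a ∈ s, MvPolynomial.rename Fin.succ (g a) *
      Polynomial.aeval (MvPolynomial.X 0) (Lagrange.basis s id a), ?_⟩
    intro z hz
    obtain ⟨p, hp1, hp2⟩ := hq z hz 0
    have e1 : q z = p.eval (z 0) := by
      rw [← hp2 (z 0) (hz 0), Function.update_eq_self]
    have hdeg : p.degree < (s.card : WithBot ℕ) := by
      rw [hsc]
      exact lt_of_le_of_lt Polynomial.degree_le_natDegree (by exact_mod_cast Nat.lt_succ_of_le hp1)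
    have e2 := Lagrange.eq_interpolate (s := s) (v := id) (Set.injOn_id _) hdeg
    rw [e1, e2, Lagrange.interpolate_apply, Polynomial.eval_finsetSum, map_sum]
    apply Finset.sum_congr rfl
    intro a ha
    have e3 : p.eval a = MvPolynomial.eval (fun i : Fin n => z i.succ) (g a) := by
      rw [← hg a ha _ (fun i => hz _), ← hp2 a (hsB ha)]
      congr 1
      funext i
      refine Fin.cases ?_ ?_ i
      · simp
      · intro i; simp
    rw [Polynomial.eval_mul, Polynomial.eval_C, map_mul, MvPolynomial.eval_rename, id, e3]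
    congr 1
    exact (eval_aeval_X z 0 _).symm

/-- The restriction of a polynomial to a line. -/
noncomputable def lineP {n : ℕ} (z v : Fin n → ℂ) (g : MvPolynomial (Fin n) ℂ) : Polynomial ℂ :=
  MvPolynomial.aeval (fun i => Polynomial.C (z i) + Polynomial.C (v i) * Polynomial.X) g

theorem eval_lineP {n : ℕ} (z v : Fin n → ℂ) (g : MvPolynomial (Fin n) ℂ) (t : ℂ) :
    (lineP z v g).eval t = MvPolynomial.eval (z + t • v) g := by
  have h : (Polynomial.evalRingHom t).comp
      (MvPolynomial.aeval (fun i => Polynomial.C (z i) + Polynomial.C (v i) * Polynomial.X) :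
        MvPolynomial (Fin n) ℂ →ₐ[ℂ] Polynomial ℂ).toRingHom = MvPolynomial.eval (z + t • v) := by
    apply MvPolynomial.ringHom_ext
    · intro r; simp
    · intro i
      simp only [RingHom.comp_apply, AlgHom.toRingHom_eq_coe, RingHom.coe_coe, MvPolynomial.aeval_X,
        Polynomial.coe_evalRingHom, Polynomial.eval_add, Polynomial.eval_C, Polynomial.eval_mul,
        Polynomial.eval_X, MvPolynomial.eval_X, Pi.add_apply, Pi.smul_apply, smul_eq_mul]
      ring
  exact congrArg (fun f : MvPolynomial (Fin n) ℂ →+* ℂ => f g) h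

/-- On every line, a holomorphic function of polynomial growth is a polynomial. -/
theorem line_poly {n : ℕ} {h : MvPolynomial (Fin n) ℂ} {q : (Fin n → ℂ) → ℂ}
    (hd : ∀ z, MvPolynomial.eval z h ≠ 0 → DifferentiableAt ℂ q z) {C : ℝ} (hC : 0 ≤ C) {M : ℕ}
    (hb : ∀ z, MvPolynomial.eval z h ≠ 0 → ‖q z‖ ≤ C * (1 + ‖z‖) ^ M)
    (z v : Fin n → ℂ) (hz : MvPolynomial.eval z h ≠ 0) :
    ∃ p : Polynomial ℂ, p.natDegree ≤ M ∧
      ∀ t : ℂ, MvPolynomial.eval (z + t • v) h ≠ 0 → q (z + t • v) = p.eval t := by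
  classical
  set u := lineP z v h with hu
  have hu0 : u ≠ 0 := by
    intro h0
    apply hz
    have := eval_lineP z v h 0
    rw [← hu, h0] at this
    simpa using this.symm
  have hmem : ∀ t, t ∉ u.roots.toFinset ↔ MvPolynomial.eval (z + t • v) h ≠ 0 := by
    intro t
    rw [Multiset.mem_toFinset, Polynomial.mem_roots hu0, Polynomial.IsRoot.def, hu, eval_lineP]
  set C' := C * (1 + ‖z‖ + ‖v‖) ^ M with hC'
  have hC'0 : 0 ≤ C' := by positivity
  have hgr : ∀ t, t ∉ u.roots.toFinset → ‖q (z + t • v)‖ ≤ C' * (1 + ‖t‖) ^ M := by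
    intro t ht
    refine (hb _ ((hmem t).mp ht)).trans ?_
    rw [hC', mul_assoc, ← mul_pow]
    have h1 : ‖z + t • v‖ ≤ ‖z‖ + ‖t‖ * ‖v‖ := (norm_add_le _ _).trans (by rw [norm_smul])
    have h2 : 1 + ‖z + t • v‖ ≤ (1 + ‖z‖ + ‖v‖) * (1 + ‖t‖) := by
      nlinarith [norm_nonneg z, norm_nonneg v, norm_nonneg t, mul_nonneg (norm_nonneg z) (norm_nonneg t)]
    exact mul_le_mul_of_nonneg_left (pow_le_pow_left₀ (by positivity) h2 _) hC
  obtain ⟨F, hF, hFe⟩ := exists_entire_of_finite u.roots.toFinset (fun t => q (z + t • v))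
    (fun t ht => (hd _ ((hmem t).mp ht)).comp t
      ((differentiableAt_const z).add (differentiableAt_id.smul_const v)))
    (fun t _ => ⟨C' * (2 + ‖t‖) ^ M, by
      have h1 : ∀ᶠ s in 𝓝[≠] t, s ∉ u.roots.toFinset := by
        have h2 : ((u.roots.toFinset.erase t : Finset ℂ) : Set ℂ)ᶜ ∈ 𝓝 t :=
          ((u.roots.toFinset.erase t).finite_toSet.isClosed.isOpen_compl).mem_nhds (by simp)
        rw [eventually_nhdsWithin_iff]
        filter_upwards [h2] with s hs hst hmem'
        exact hs (Finset.mem_coe.mpr (Finset.mem_erase.mpr ⟨hst, hmem'⟩))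
      have h3 : ∀ᶠ s in 𝓝[≠] t, ‖s‖ ≤ 1 + ‖t‖ := by
        apply Filter.Eventually.filter_mono nhdsWithin_le_nhds
        have : ∀ᶠ s in 𝓝 t, ‖s‖ < 1 + ‖t‖ :=
          continuous_norm.continuousAt.eventually_lt continuousAt_const (by linarith)
        exact this.mono fun s hs => hs.le
      filter_upwards [h1, h3] with s hs hs'
      refine (hgr s hs).trans ?_
      exact mul_le_mul_of_nonneg_left (pow_le_pow_left₀ (by positivity) (by linarith) _) hC'0⟩)
  have hFb : ∀ t, ‖F t‖ ≤ C' * (1 + ‖t‖) ^ M := by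
    have hclosed : IsClosed {t : ℂ | ‖F t‖ ≤ C' * (1 + ‖t‖) ^ M} :=
      isClosed_le hF.continuous.norm (by fun_prop)
    have hdense : Dense ((u.roots.toFinset : Set ℂ)ᶜ) :=
      (u.roots.toFinset.countable_toSet).dense_compl ℝ
    intro t
    have : closure ((u.roots.toFinset : Set ℂ)ᶜ) ⊆ {t : ℂ | ‖F t‖ ≤ C' * (1 + ‖t‖) ^ M} := by
      apply closure_minimal _ hclosed
      intro s hs
      have hs' : s ∉ u.roots.toFinset := by simpa using hs
      show ‖F s‖ ≤ _
      rw [hFe s hs']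
      exact hgr s hs'
    exact this (hdense t)
  obtain ⟨p, hp1, hp2⟩ := exists_poly_of_growth hF hFb
  refine ⟨p, hp1, fun t ht => ?_⟩
  rw [← hp2 t, hFe t ((hmem t).mpr ht)]

/-- A holomorphic function of polynomial growth on `{h ≠ 0}` is a polynomial. -/
theorem global_poly {n : ℕ} {h : MvPolynomial (Fin n) ℂ} (h0 : h ≠ 0) {q : (Fin n → ℂ) → ℂ}
    (hd : ∀ z, MvPolynomial.eval z h ≠ 0 → DifferentiableAt ℂ q z) {C : ℝ} (hC : 0 ≤ C) {M : ℕ}
    (hb : ∀ z, MvPolynomial.eval z h ≠ 0 → ‖q z‖ ≤ C * (1 + ‖z‖) ^ M) :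
    ∃ g : MvPolynomial (Fin n) ℂ, ∀ z, MvPolynomial.eval z h ≠ 0 → q z = MvPolynomial.eval z g := by
  classical
  obtain ⟨z₀, hz₀⟩ : ∃ z₀, MvPolynomial.eval z₀ h ≠ 0 := by
    by_contra hcon
    push Not at hcon
    exact h0 (MvPolynomial.funext fun z => by simpa using hcon z)
  have hopen : IsOpen {z : Fin n → ℂ | MvPolynomial.eval z h ≠ 0} :=
    isOpen_ne_fun (MvPolynomial.continuous_eval h) continuous_const
  obtain ⟨r, hr, hball⟩ := Metric.isOpen_iff.mp hopen z₀ hz₀
  have hB : ∀ z : Fin n → ℂ, (∀ i, z i ∈ Metric.ball (z₀ i) r) → z ∈ Metric.ball z₀ r := by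
    intro z hz
    rw [Metric.mem_ball, dist_pi_lt_iff hr]
    exact hz
  have hinf : ∀ c : ℂ, (Metric.ball c r).Infinite := fun c =>
    infinite_of_mem_nhds c (Metric.ball_mem_nhds c hr)
  obtain ⟨g, hg⟩ := sep_poly M (fun i => Metric.ball (z₀ i) r) (fun i => hinf _) q (by
    intro z hz j
    have hzU : MvPolynomial.eval z h ≠ 0 := hball (hB z hz)
    obtain ⟨p, hp1, hp2⟩ := line_poly hd hC hb z (Pi.single j 1) hzU
    refine ⟨p.comp (Polynomial.X - Polynomial.C (z j)), ?_, ?_⟩
    · rw [Polynomial.natDegree_comp, Polynomial.natDegree_X_sub_C, mul_one]; exact hp1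
    · intro t ht
      have e : Function.update z j t = z + (t - z j) • (Pi.single j 1 : Fin n → ℂ) := by
        funext i
        by_cases hij : i = j
        · subst hij; simp
        · simp [hij]
      rw [e, hp2 _ ?_]
      · simp
      · rw [← e]
        apply hball
        apply hB
        intro i
        by_cases hij : i = j
        · subst hij; simpa using ht
        · simpa [hij] using hz i)
  refine ⟨g, fun z hz => ?_⟩
  obtain ⟨p, hp1, hp2⟩ := line_poly hd hC hb z (z₀ - z) hz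
  have heq : p = lineP z (z₀ - z) g := by
    have hnear : ∀ᶠ t in 𝓝 (1:ℂ), z + t • (z₀ - z) ∈ Metric.ball z₀ r := by
      have hc : Continuous fun t : ℂ => z + t • (z₀ - z) := by fun_prop
      apply hc.continuousAt.eventually
      apply Metric.isOpen_ball.mem_nhds
      simpa using hr
    apply Polynomial.eq_of_infinite_eval_eq
    apply (infinite_of_mem_nhds (1:ℂ) hnear).mono
    intro t ht
    show p.eval t = (lineP z (z₀ - z) g).eval t
    have ht' : z + t • (z₀ - z) ∈ Metric.ball z₀ r := ht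
    rw [eval_lineP, ← hp2 t (hball ht')]
    apply hg
    rw [Metric.mem_ball, dist_pi_lt_iff hr] at ht'
    exact ht'
  have h1 := hp2 0 (by simpa using hz)
  rw [heq, eval_lineP] at h1
  simpa using h1

end EHX
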