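import Pool.Agent.Work.MP_9eee85_co.EH.XConnA
import Pool.Agent.Work.MP_9eee85_co.EH.XConnB

/-!
# The affine model `X` of a function field is connected (EH cell, MP_9eee85_co)
-/

open Topology Filter ContDiff

namespace EHX

/-- Polynomial growth. -/
def PolyGrowth {n : ℕ} (f : (Fin n → ℂ) → ℝ) : Prop :=
  ∃ C : ℝ, 0 ≤ C ∧ ∃ M : ℕ, ∀ z, f z ≤ C * (1 + ‖z‖) ^ M

namespace PolyGrowth

variable {n : ℕ} {f g : (Fin n → ℂ) → ℝ}

theorem mono (hg : PolyGrowth g) (h : ∀ z, f z ≤ g z) : PolyGrowth f := by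
  obtain ⟨C, hC, M, h1⟩ := hg
  exact ⟨C, hC, M, fun z => (h z).trans (h1 z)⟩

theorem const (c : ℝ) : PolyGrowth (fun _ : Fin n → ℂ => c) :=
  ⟨|c|, abs_nonneg _, 0, fun z => by simpa using le_abs_self c⟩

theorem add (hf : PolyGrowth f) (hg : PolyGrowth g) : PolyGrowth (fun z => f z + g z) := by
  obtain ⟨C, hC, M, h1⟩ := hf
  obtain ⟨C', hC', M', h2⟩ := hg
  refine ⟨C + C', add_nonneg hC hC', M + M', fun z => ?_⟩
  have h0 : (1:ℝ) ≤ 1 + ‖z‖ := by linarith [norm_nonneg z]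
  have h3 : (1 + ‖z‖) ^ M ≤ (1 + ‖z‖) ^ (M + M') := pow_le_pow_right₀ h0 (by omega)
  have h4 : (1 + ‖z‖) ^ M' ≤ (1 + ‖z‖) ^ (M + M') := pow_le_pow_right₀ h0 (by omega)
  calc f z + g z ≤ C * (1 + ‖z‖) ^ M + C' * (1 + ‖z‖) ^ M' := add_le_add (h1 z) (h2 z)
    _ ≤ C * (1 + ‖z‖) ^ (M + M') + C' * (1 + ‖z‖) ^ (M + M') := by gcongr
    _ = _ := by ring

theorem mul (hf : PolyGrowth f) (hg : PolyGrowth g) (hf0 : ∀ z, 0 ≤ f z) (hg0 : ∀ z, 0 ≤ g z) :
    PolyGrowth (fun z => f z * g z) := by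
  obtain ⟨C, hC, M, h1⟩ := hf
  obtain ⟨C', hC', M', h2⟩ := hg
  refine ⟨C * C', mul_nonneg hC hC', M + M', fun z => ?_⟩
  calc f z * g z ≤ (C * (1 + ‖z‖) ^ M) * (C' * (1 + ‖z‖) ^ M') :=
        mul_le_mul (h1 z) (h2 z) (hg0 z) ((hf0 z).trans (h1 z))
    _ = _ := by ring

theorem pow (hf : PolyGrowth f) (hf0 : ∀ z, 0 ≤ f z) (k : ℕ) : PolyGrowth (fun z => f z ^ k) := by
  induction k with
  | zero => simpa using const (n := n) 1
  | succ k ih =>
    simp only [pow_succ]
    exact ih.mul hf (fun z => pow_nonneg (hf0 z) _) hf0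

theorem sum {ι : Type*} (s : Finset ι) {F : ι → (Fin n → ℂ) → ℝ} (h : ∀ i ∈ s, PolyGrowth (F i)) :
    PolyGrowth (fun z => ∑ i ∈ s, F i z) := by
  classical
  induction s using Finset.induction_on with
  | empty => simpa using const (n := n) 0
  | insert a s ha ih =>
    simp only [Finset.sum_insert ha]
    exact (h a (Finset.mem_insert_self _ _)).add (ih fun i hi => h i (Finset.mem_insert_of_mem hi))

theorem norm_eval (p : MvPolynomial (Fin n) ℂ) :
    PolyGrowth (fun z => ‖MvPolynomial.eval z p‖) := by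
  induction p using MvPolynomial.induction_on with
  | C a => simpa using const (n := n) ‖a‖
  | add p q hp hq =>
    refine (hp.add hq).mono fun z => ?_
    rw [map_add]; exact norm_add_le _ _
  | mul_X p i hp =>
    have hX : PolyGrowth (fun z : Fin n → ℂ => 1 + ‖z‖) := ⟨1, zero_le_one, 1, fun z => by simp⟩
    refine (hp.mul hX (fun z => norm_nonneg _) (fun z => by positivity)).mono fun z => ?_
    rw [map_mul, norm_mul, MvPolynomial.eval_X]
    gcongr
    linarith [norm_le_pi_norm z i]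

end PolyGrowth

variable {n : ℕ}

theorem coeff_prod_differentiableAt {ι : Type*} [DecidableEq ι] (s : Finset ι)
    (σ : ι → (Fin n → ℂ) → ℂ) (z₀ : Fin n → ℂ) (h : ∀ i ∈ s, DifferentiableAt ℂ (σ i) z₀) :
    ∀ k : ℕ, DifferentiableAt ℂ
      (fun z => (∏ i ∈ s, (Polynomial.X - Polynomial.C (σ i z))).coeff k) z₀ := by
  induction s using Finset.induction_on with
  | empty => intro k; simp only [Finset.prod_empty]; exact differentiableAt_const _
  | insert a s ha ih =>
    intro k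
    have ih' := ih fun i hi => h i (Finset.mem_insert_of_mem hi)
    have hσ := h a (Finset.mem_insert_self _ _)
    simp only [Finset.prod_insert ha, sub_mul, Polynomial.coeff_sub, Polynomial.coeff_C_mul]
    cases k with
    | zero =>
      simp only [Polynomial.coeff_X_mul_zero]
      exact (differentiableAt_const _).sub (hσ.mul (ih' 0))
    | succ k =>
      simp only [Polynomial.coeff_X_mul]
      exact (ih' k).sub (hσ.mul (ih' (k + 1)))

theorem norm_coeff_prod_le {ι : Type*} [DecidableEq ι] (s : Finset ι) (y : ι → ℂ) :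
    ∀ k : ℕ, ‖(∏ i ∈ s, (Polynomial.X - Polynomial.C (y i))).coeff k‖ ≤ ∏ i ∈ s, (1 + ‖y i‖) := by
  induction s using Finset.induction_on with
  | empty =>
    intro k
    simp only [Finset.prod_empty, Polynomial.coeff_one]
    split_ifs <;> simp
  | insert a s ha ih =>
    intro k
    have hpos : 0 ≤ ∏ i ∈ s, (1 + ‖y i‖) := Finset.prod_nonneg fun i _ => by positivity
    simp only [Finset.prod_insert ha, sub_mul, Polynomial.coeff_sub, Polynomial.coeff_C_mul]
    cases k with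
    | zero =>
      simp only [Polynomial.coeff_X_mul_zero, zero_sub, norm_neg, norm_mul]
      nlinarith [ih 0, norm_nonneg (y a)]
    | succ k =>
      simp only [Polynomial.coeff_X_mul]
      refine (norm_sub_le _ _).trans ?_
      rw [norm_mul]
      nlinarith [ih k, ih (k+1), norm_nonneg (y a)]

namespace XData

variable (D : XData n)

theorem U_nonempty : ∃ z, z ∈ D.U := by
  by_contra hcon
  push Not at hcon
  exact D.h0 (MvPolynomial.funext fun z => by simpa [U] using hcon z)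

theorem eq_zero_of_U {p : MvPolynomial (Fin n) ℂ} (h : ∀ z ∈ D.U, MvPolynomial.eval z p = 0) :
    p = 0 := by
  have h1 : p * D.h = 0 := by
    apply MvPolynomial.funext
    intro z
    rw [map_mul, map_zero]
    by_cases hz : z ∈ D.U
    · rw [h z hz, zero_mul]
    · have : MvPolynomial.eval z D.h = 0 := by simpa [U] using hz
      rw [this, mul_zero]
  exact (mul_eq_zero.mp h1).resolve_right D.h0

theorem fib_growth : ∃ B : (Fin n → ℂ) → ℝ, PolyGrowth B ∧ (∀ z, 0 ≤ B z) ∧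
    ∀ z, ∀ y ∈ D.fib z, ‖y‖ ≤ B z := by
  refine ⟨fun z => (∑ i ∈ Finset.range D.P.natDegree, ‖MvPolynomial.eval z (D.P.coeff i)‖) + 1,
    (PolyGrowth.sum _ fun i _ => PolyGrowth.norm_eval _).add (PolyGrowth.const 1),
    fun z => by positivity, ?_⟩
  intro z y hy
  have h1 : (D.at_ z).IsRoot y := D.mem_fib.mp hy
  have h2 := h1.norm_lt_cauchyBound (D.at_ne_zero z)
  have h2' : ‖y‖ ≤ ((D.at_ z).cauchyBound : ℝ) := by exact_mod_cast h2.le
  refine h2'.trans ?_
  rw [Polynomial.cauchyBound, (D.at_monic z).leadingCoeff, D.at_natDegree]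
  simp only [nnnorm_one, div_one, NNReal.coe_add, NNReal.coe_one]
  gcongr
  have h3 : ((Finset.range D.P.natDegree).sup fun x => ‖(D.at_ z).coeff x‖₊) ≤
      ∑ i ∈ Finset.range D.P.natDegree, ‖MvPolynomial.eval z (D.P.coeff i)‖₊ := by
    apply Finset.sup_le
    intro i hi
    have : (D.at_ z).coeff i = MvPolynomial.eval z (D.P.coeff i) := by
      rw [at_, Polynomial.coeff_map]
    rw [this]
    exact Finset.single_le_sum (f := fun i => ‖MvPolynomial.eval z (D.P.coeff i)‖₊)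
      (fun _ _ => by positivity) hi
  calc (((Finset.range D.P.natDegree).sup fun x => ‖(D.at_ z).coeff x‖₊ : NNReal) : ℝ)
      ≤ ((∑ i ∈ Finset.range D.P.natDegree, ‖MvPolynomial.eval z (D.P.coeff i)‖₊ : NNReal) : ℝ) := by
        exact_mod_cast h3
    _ = _ := by simp

/-- A set of points of `X` as a subset of `ℂⁿ × ℂ`. -/
def im (A : Set D.X) : Set ((Fin n → ℂ) × ℂ) := Subtype.val '' A

theorem mem_im {A : Set D.X} {v : (Fin n → ℂ) × ℂ} :
    v ∈ D.im A ↔ ∃ h : v ∈ D.XSet, (⟨v, h⟩ : D.X) ∈ A := by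
  constructor
  · rintro ⟨x, hx, rfl⟩; exact ⟨x.2, hx⟩
  · rintro ⟨h, hA⟩; exact ⟨_, hA, rfl⟩

theorem im_locConst {A : Set D.X} (hA : IsOpen A) {u : (Fin n → ℂ) × ℂ} (hu : u ∈ D.im A)
    {ψ : (Fin n → ℂ) → ℂ} (hc : ContinuousAt ψ u.1) (h0 : ψ u.1 = u.2) :
    ∀ᶠ z in 𝓝 u.1, (z, ψ z) ∈ D.XSet → (z, ψ z) ∈ D.im A := by
  obtain ⟨O, hO, rfl⟩ := isOpen_induced_iff.mp hA
  have hcont : ContinuousAt (fun z => (z, ψ z)) u.1 := continuousAt_id.prodMk hc
  have huO : u ∈ O := by
    obtain ⟨_, h⟩ := D.mem_im.mp hu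
    exact h
  have h3 : ∀ᶠ z in 𝓝 u.1, (z, ψ z) ∈ O := by
    apply hcont.eventually
    show O ∈ 𝓝 (u.1, ψ u.1)
    rw [h0]
    exact hO.mem_nhds huO
  filter_upwards [h3] with z hz hX
  exact D.mem_im.mpr ⟨hX, hz⟩

open Classical in
/-- The part of the fibre polynomial that belongs to `A`. -/
noncomputable def PA (A : Set D.X) (z : Fin n → ℂ) : Polynomial ℂ :=
  ∏ y ∈ (D.fib z).filter (fun y => (z, y) ∈ D.im A), (Polynomial.X - Polynomial.C y)

theorem PA_mul_PA_compl (A : Set D.X) {z : Fin n → ℂ} (hz : z ∈ D.U) :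
    D.PA A z * D.PA Aᶜ z = D.at_ z := by
  classical
  have h1 : ∀ y ∈ D.fib z, (z, y) ∈ D.im Aᶜ ↔ ¬ (z, y) ∈ D.im A := by
    intro y hy
    have hX : (z, y) ∈ D.XSet := D.mem_XSet_iff.mpr ⟨hz, hy⟩
    rw [D.mem_im, D.mem_im]
    constructor
    · rintro ⟨_, h⟩ ⟨_, h'⟩; exact h h'
    · intro h; exact ⟨hX, fun h' => h ⟨hX, h'⟩⟩
  rw [PA, PA, Finset.filter_congr h1, Finset.prod_filter_mul_prod_filter_not, D.at_eq_prod hz]

theorem PA_local {A : Set D.X} (hA : IsClopen A) {z₀ : Fin n → ℂ} (hz₀ : z₀ ∈ D.U) :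
    ∃ (s : Finset ℂ) (σ : ℂ → (Fin n → ℂ) → ℂ), (∀ y ∈ s, DifferentiableAt ℂ (σ y) z₀) ∧
      ∀ᶠ z in 𝓝 z₀, D.PA A z = ∏ y ∈ s, (Polynomial.X - Polynomial.C (σ y z)) := by
  classical
  obtain ⟨V, σ, hVo, hV, hVU, h1, h2, h3⟩ := D.exists_cover hz₀
  refine ⟨(D.fib z₀).filter (fun y => (z₀, y) ∈ D.im A), σ, ?_, ?_⟩
  · intro y hy
    exact ((h1 y (Finset.mem_filter.mp hy).1).1 z₀ hV).differentiableAt (by simp)
  · have e1 : ∀ᶠ z in 𝓝 z₀, ∀ y ∈ D.fib z₀, ((z, σ y z) ∈ D.im A ↔ (z₀, y) ∈ D.im A) := by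
      rw [Filter.eventually_all_finset]
      intro y hy
      have hc := ((h1 y hy).1 z₀ hV).continuousAt
      have h0 := (h1 y hy).2
      have hVV : ∀ᶠ z in 𝓝 z₀, z ∈ V := hVo.mem_nhds hV
      have hX : ∀ z ∈ V, (z, σ y z) ∈ D.XSet := by
        intro z hz
        rw [D.mem_XSet_iff]
        refine ⟨hVU hz, ?_⟩
        rw [h3 z hz]
        exact Finset.mem_image_of_mem _ hy
      by_cases hyA : (z₀, y) ∈ D.im A
      · filter_upwards [D.im_locConst hA.2 (u := (z₀, y)) hyA hc h0, hVV] with z hz hzV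
        exact ⟨fun _ => hyA, fun _ => hz (hX z hzV)⟩
      · have hyA' : (z₀, y) ∈ D.im Aᶜ := by
          rw [D.mem_im]
          exact ⟨D.mem_XSet_iff.mpr ⟨hz₀, hy⟩, fun h => hyA (D.mem_im.mpr ⟨_, h⟩)⟩
        filter_upwards [D.im_locConst hA.compl.2 (u := (z₀, y)) hyA' hc h0, hVV] with z hz hzV
        refine ⟨fun h => ?_, fun h => absurd h hyA⟩
        obtain ⟨_, h'⟩ := D.mem_im.mp h
        obtain ⟨_, h''⟩ := D.mem_im.mp (hz (hX z hzV))
        exact absurd h' h''
    filter_upwards [e1, hVo.mem_nhds hV] with z hz hzV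
    rw [PA, h3 z hzV, Finset.filter_image, Finset.prod_image]
    · apply Finset.prod_congr _ (fun _ _ => rfl)
      apply Finset.filter_congr
      intro y hy
      exact hz y hy
    · intro y hy y' hy' hyy
      exact h2 z hzV (Finset.mem_filter.mp hy).1 (Finset.mem_filter.mp hy').1 hyy

theorem PA_poly {A : Set D.X} (hA : IsClopen A) :
    ∃ g : Polynomial (MvPolynomial (Fin n) ℂ), ∀ z ∈ D.U,
      D.PA A z = g.map (MvPolynomial.eval z) := by
  classical
  obtain ⟨B, hB, hB0, hBf⟩ := D.fib_growth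
  obtain ⟨C, hC, M, hgr⟩ := ((PolyGrowth.const 1).add hB).pow (fun z => by have := hB0 z; positivity)
    D.P.natDegree
  have hk : ∀ k : ℕ, ∃ g : MvPolynomial (Fin n) ℂ, ∀ z, MvPolynomial.eval z D.h ≠ 0 →
      (D.PA A z).coeff k = MvPolynomial.eval z g := by
    intro k
    apply global_poly D.h0 (C := C) (M := M)
    · intro z hz
      obtain ⟨s, σ, h1, h2⟩ := D.PA_local hA (show z ∈ D.U from hz)
      refine (coeff_prod_differentiableAt s σ z h1 k).congr_of_eventuallyEq ?_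
      filter_upwards [h2] with w hw
      rw [hw]
    · exact hC
    · intro z hz
      refine le_trans ?_ (hgr z)
      rw [PA]
      refine (norm_coeff_prod_le _ (fun y => y) k).trans ?_
      have h1 : ∏ y ∈ (D.fib z).filter (fun y => (z, y) ∈ D.im A), (1 + ‖y‖) ≤
          ∏ _y ∈ (D.fib z).filter (fun y => (z, y) ∈ D.im A), (1 + B z) := by
        apply Finset.prod_le_prod
        · intro i _; positivity
        · intro i hi
          have := hBf z i (Finset.mem_filter.mp hi).1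
          linarith
      refine h1.trans ?_
      rw [Finset.prod_const]
      apply pow_le_pow_right₀ (by linarith [hB0 z])
      rw [← D.card_fib (show z ∈ D.U from hz)]
      exact Finset.card_filter_le _ _
  choose g hg using hk
  refine ⟨∑ k ∈ Finset.range (D.P.natDegree + 1), Polynomial.C (g k) * Polynomial.X ^ k, ?_⟩
  intro z hz
  have hdeg : (D.PA A z).natDegree ≤ D.P.natDegree := by
    rw [PA]
    refine (Polynomial.natDegree_prod_le _ _).trans ?_
    rw [← D.card_fib hz]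
    refine le_trans ?_ (Finset.card_filter_le (D.fib z) (fun y => (z, y) ∈ D.im A))
    rw [Finset.card_eq_sum_ones]
    apply Finset.sum_le_sum
    intro y _
    exact (Polynomial.natDegree_X_sub_C_le y)
  rw [Polynomial.map_sum]
  have h1 := (D.PA A z).as_sum_range_C_mul_X_pow' (Nat.lt_succ_of_le hdeg)
  rw [h1]
  apply Finset.sum_congr rfl
  intro k _
  rw [hg k z hz]
  simp

theorem PA_ne_unit {A : Set D.X} {x : D.X} (hx : x ∈ A) : ¬ IsUnit (D.PA A (D.proj x)) := by
  classical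
  intro hu
  have hmem : D.yc x ∈ (D.fib (D.proj x)).filter (fun y => (D.proj x, y) ∈ D.im A) := by
    rw [Finset.mem_filter]
    exact ⟨(D.mem_XSet_iff.mp x.2).2, D.mem_im.mpr ⟨x.2, hx⟩⟩
  have hdvd : (Polynomial.X - Polynomial.C (D.yc x)) ∣ D.PA A (D.proj x) :=
    Finset.dvd_prod_of_mem (fun y => Polynomial.X - Polynomial.C y) hmem
  exact Polynomial.not_isUnit_X_sub_C _ (isUnit_of_dvd_unit hdvd hu)

instance preconnectedSpace : PreconnectedSpace D.X := by
  rw [preconnectedSpace_iff_clopen]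
  intro A hA
  obtain ⟨g, hg⟩ := D.PA_poly hA
  obtain ⟨g', hg'⟩ := D.PA_poly hA.compl
  have hP : D.P = g * g' := by
    rw [← sub_eq_zero]
    ext1 k
    rw [Polynomial.coeff_zero]
    apply D.eq_zero_of_U
    intro z hz
    have h1 : (D.P - g * g').map (MvPolynomial.eval z) = 0 := by
      rw [Polynomial.map_sub, Polynomial.map_mul, ← hg z hz, ← hg' z hz, D.PA_mul_PA_compl A hz]
      exact sub_self _
    rw [← Polynomial.coeff_map, h1, Polynomial.coeff_zero]
  rcases D.irr.isUnit_or_isUnit hP with hu | hu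
  · left
    rw [Set.eq_empty_iff_forall_notMem]
    intro x hx
    apply D.PA_ne_unit hx
    rw [hg (D.proj x) x.2.1]
    exact hu.map (Polynomial.mapRingHom (MvPolynomial.eval (D.proj x)))
  · right
    rw [← Set.compl_empty_iff, Set.eq_empty_iff_forall_notMem]
    intro x hx
    apply D.PA_ne_unit hx
    rw [hg' (D.proj x) x.2.1]
    exact hu.map (Polynomial.mapRingHom (MvPolynomial.eval (D.proj x)))

theorem natDegree_pos : 0 < D.P.natDegree := by
  rw [Nat.pos_iff_ne_zero]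
  intro h0
  have := (D.monic.natDegree_eq_zero).mp h0
  exact D.irr.not_isUnit (by rw [this]; exact isUnit_one)

theorem fib_nonempty {z : Fin n → ℂ} (hz : z ∈ D.U) : (D.fib z).Nonempty := by
  rw [← Finset.card_pos, D.card_fib hz]; exact D.natDegree_pos

instance : Nonempty D.X := by
  obtain ⟨z, hz⟩ := D.U_nonempty
  obtain ⟨y, hy⟩ := D.fib_nonempty hz
  exact ⟨⟨(z, y), D.mem_XSet_iff.mpr ⟨hz, hy⟩⟩⟩

instance connectedSpace : ConnectedSpace D.X := { toNonempty := inferInstance }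

end XData

end EHX
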